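import Pool.Agent.Work.MP_60d5ce_nt.Lb.DFun

/-!
# Points and divisor classes  (task LB DCl)

`F.pp h P` is the place of the point `P`; `e z = 1` or `2` is the order of `x - x0` at `z = (x0, y0)`.
* `dv_vert`, `dv_line`: compare the coefficients at every affine place; the difference of both sides is then supported at `o` and has degree zero (`dg_dv`).
  For the line `l x = λ (x - x₁) + y₁`, `f = y - l x`, `f' = - y - l x`: `f f' = -(x - x₁)(x - x₂)(x - x₃)` (`addPolynomial_slope`, `addPolynomial_eq`), and `P₁`, `P₂`, `-(P₁ + P₂)` are the points `(x i, l (x i))`.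
  At `z = (x0, y0)`: if `y0 ≠ l x0` the order of `f` is zero.  If `y0 = l x0 ≠ 0`, `f'` is a unit, the order of `f` is the number of `i` with `x i = x0`.  If `y0 = l x0 = 0`, then `z` is fixed by `y ↦ -y`, so
  `f` and `f'` have the same order, `2 * ord f = 2 * (number of i with x i = x0)`.
* `cls_add`: cases as in `WeierstrassCurve.Affine.Point.toClass` (`add_of_Y_eq`, `add_some`).
* `cls_inj`: `cl_eq_zero` gives `f` with `dv f = [P] - [o]`, `P ≠ 0`.  With the conjugate `g` under `y ↦ -y` (`dv_sl`):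
  write `f h = p + q y`, so `(f + g) h = 2 p`, `(f - g) y h = 2 q cubic`.  A quotient `a(x) / h(x)` without affine poles is a polynomial (`ord_poly`; `h ∣ a` by root multiplicities), of degree `≤ n` if the order at `o` is
  `≥ -2 n - 1` (`ord_poly_inf`).  So `f + g` is constant, `(f - g) y = s(x)` with `natDegree s ≤ 2`, and `s` vanishes at the three roots (`SW.exists_rt`), so `s = 0`, `f = g` is constant: contradiction.
* `cls_surj`: `D = ∑ D z • ([z] - [o])` if `dg D = 0`.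
-/

namespace Pool.Agent.Lef

open PR0 Pool.Agent.Ell.AT Pool.Agent.Quad Polynomial WeierstrassCurve WeierstrassCurve.Affine

noncomputable section

variable {κ : Type} [Field κ] {E : Affine κ} {K : Type} [Field K] [Algebra κ K] [IsAlgClosed κ]
  [Fact (IsFF κ K)] (F : EF E K) (h : SW E)

theorem DCl_val_neg {z : Place κ K} {f : K} (hf : f ∈ z.1) : z.val (-f) = -z.val f := by
  refine Place.val_eq ?_
  rw [_root_.map_neg, ← neg_sub']
  exact (Place.ge_sub_val hf).neg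

theorem DCl_ord0 {z : Place κ K} {f : K} (hf : f ∈ z.1) (h0 : z.val f ≠ 0) : z.ord f = 0 := by
  have h5 : ¬ z.Ge f 1 := fun e => h0 ((Place.val_eq_zero hf).2 e)
  have h6 : f ≠ 0 := fun e => h5 (Or.inl e)
  exact le_antisymm (Int.lt_add_one_iff.1 (not_le.1 fun e => h5 (Or.inr e)))
    ((z.mem_iff.1 hf).resolve_left h6)

theorem DCl_ext {D D' : Dv κ K} (o : Place κ K) (hd : dg D = dg D')
    (he : ∀ z, z ≠ o → D z = D' z) : D = D' := by
  have h1 : D - D' = Finsupp.single o ((D - D') o) := by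
    ext z
    by_cases hz : z = o
    · rw [hz, Finsupp.single_eq_same]
    · rw [Finsupp.single_eq_of_ne hz, Finsupp.sub_apply, he z hz, sub_self]
  have h2 := congrArg dg h1
  rw [dg_sub, dg_single, hd, sub_self] at h2
  rw [← h2, Finsupp.single_zero] at h1
  exact sub_eq_zero.1 h1

theorem DCl_poly {t u : K} (ht : Transcendental κ t) {a b : κ[X]} (hb : b ≠ 0)
    (e : u * aeval t b = aeval t a) (hu : ∀ z : Place κ K, t ∈ z.1 → u ∈ z.1) :
    ∃ s : κ[X], u = aeval t s := by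
  have hb' : aeval t b ≠ 0 := fun k => ht ⟨b, hb, k⟩
  by_cases ha : a = 0
  · rw [ha, _root_.map_zero, mul_eq_zero, or_iff_left hb'] at e
    exact ⟨0, by rw [e, _root_.map_zero]⟩
  have hu0 : u ≠ 0 := fun k => ht ⟨a, ha, by rw [← e, k, zero_mul]⟩
  classical
  obtain ⟨s, rfl⟩ : b ∣ a := by
    refine (IsAlgClosed.splits b).dvd_of_roots_le_roots hb (Multiset.le_iff_count.2 fun c => ?_)
    obtain ⟨z, h1, rfl⟩ := exists_place_val ht c
    have h2 := congrArg z.ord e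
    rw [z.ord_mul hu0 hb', ord_poly z ht h1 hb, ord_poly z ht h1 ha] at h2
    have h3 := (z.mem_iff.1 (hu z h1)).resolve_left hu0
    have h4 := (Place.ge_sub_val h1).resolve_left (LkRat_ne ht _)
    rw [count_roots, count_roots]
    have h5 : (b.rootMultiplicity (z.val t) : ℤ) ≤ a.rootMultiplicity (z.val t) :=
      le_of_mul_le_mul_right (by omega) (lt_of_lt_of_le zero_lt_one h4)
    exact_mod_cast h5
  rw [_root_.map_mul, mul_comm] at e
  exact ⟨s, mul_left_cancel₀ hb' e⟩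

namespace EF

/-- the place of a point -/
def pp : E.Point → Place κ K
  | .zero => F.exists_o.choose
  | .some _ _ hn => (F.exists_pl h (h.eqn hn)).choose

theorem pp_zero (z : Place κ K) : F.x ∉ z.1 ↔ z = F.pp h 0 := F.exists_o.choose_spec.1 z

theorem pp_some {x0 y0 : κ} (hn : E.Nonsingular x0 y0) (z : Place κ K) :
    F.x ∈ z.1 ∧ z.val F.x = x0 ∧ z.val F.y = y0 ↔ z = F.pp h (.some x0 y0 hn) :=
  (F.exists_pl h (h.eqn hn)).choose_spec.1 z

theorem DCl_at {a b : κ} (hn : E.Nonsingular a b) : F.x ∈ (F.pp h (.some a b hn)).1 ∧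
    (F.pp h (.some a b hn)).val F.x = a ∧ (F.pp h (.some a b hn)).val F.y = b :=
  (F.pp_some h hn _).2 rfl

theorem pp_bij : Function.Bijective (F.pp h) := by
  refine ⟨fun P Q e => ?_, fun z => ?_⟩
  · rcases P with _ | ⟨a, b, hn⟩ <;> rcases Q with _ | ⟨a', b', hn'⟩
    · rfl
    · exact absurd (F.DCl_at h hn').1 ((F.pp_zero h _).2 e.symm)
    · exact absurd (F.DCl_at h hn).1 ((F.pp_zero h _).2 e)
    · obtain ⟨-, h1, h2⟩ := F.DCl_at h hn
      obtain ⟨-, h3, h4⟩ := F.DCl_at h hn'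
      rw [e] at h1 h2
      obtain rfl := h1.symm.trans h3
      obtain rfl := h2.symm.trans h4
      rfl
  · by_cases hz : F.x ∈ z.1
    · exact ⟨.some _ _ (h.nonsing (F.aff hz).2), ((F.pp_some h _ z).1 ⟨hz, rfl, rfl⟩).symm⟩
    · exact ⟨0, ((F.pp_zero h z).1 hz).symm⟩

/-- the divisor `[P] - [o]` -/
def dd (P : E.Point) : Dv κ K := Finsupp.single (F.pp h P) 1 - Finsupp.single (F.pp h 0) 1

theorem DCl_dg (P : E.Point) : dg (F.dd h P) = 0 := by
  rw [dd, dg_sub, dg_single, dg_single, sub_self]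

theorem DCl_dd0 : F.dd h 0 = 0 := sub_self _

theorem DCl_ext' {D D' : Dv κ K} (hd : dg D = dg D') (he : ∀ a b hn,
    D (F.pp h (.some a b hn)) = D' (F.pp h (.some a b hn))) : D = D' := by
  refine DCl_ext (F.pp h 0) hd fun z hz => ?_
  obtain ⟨_ | ⟨a, b, hn⟩, rfl⟩ := (F.pp_bij h).2 z
  · exact absurd rfl hz
  · exact he a b hn

open Classical in
theorem DCl_dd {a b a' b' : κ} (hn : E.Nonsingular a b) (hn' : E.Nonsingular a' b') :
    F.dd h (.some a' b' hn') (F.pp h (.some a b hn)) = if a' = a ∧ b' = b then 1 else 0 := by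
  rw [dd, Finsupp.sub_apply, Finsupp.single_eq_of_ne
    fun e => Point.some_ne_zero hn ((F.pp_bij h).1 e), sub_zero, Finsupp.single_apply]
  refine if_congr ((F.pp_bij h).1.eq_iff.trans ?_) rfl rfl
  exact ⟨fun e => by injection e with h1 h2; exact ⟨h1, h2⟩, fun ⟨h1, h2⟩ => by subst h1 h2; rfl⟩

open Classical in
theorem DCl_ordx {a b : κ} (hn : E.Nonsingular a b) (c : κ) :
    (F.pp h (.some a b hn)).ord (F.x - algebraMap κ K c) =
      (if b = 0 then 2 else 1) * if c = a then 1 else 0 := by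
  by_cases hc : c = a
  · subst hc
    rw [if_pos rfl, mul_one]
    by_cases hb : b = 0
    · rw [if_pos hb]
      exact (F.exists_pl h (h.eqn hn)).choose_spec.2.2 hb
    · rw [if_neg hb]
      exact (F.exists_pl h (h.eqn hn)).choose_spec.2.1 hb
  · obtain ⟨h1, h2, -⟩ := F.DCl_at h hn
    obtain ⟨h3, h4⟩ := LkRat_val _ h1 (X - C c)
    rw [_root_.map_sub, aeval_X, aeval_C] at h3 h4
    rw [if_neg hc, mul_zero]
    refine DCl_ord0 h3 ?_
    rw [h4, h2, eval_sub, eval_X, eval_C]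
    exact sub_ne_zero.2 (Ne.symm hc)

theorem DCl_conj : ∃ γ : SA κ K, sc γ = 1 ∧ Ell.AT.sl γ F.x = F.x ∧ Ell.AT.sl γ F.y = -F.y ∧
    ∀ P, γ • F.pp h P = F.pp h (-P) := by
  obtain ⟨γ, h1, h2, h3⟩ := F.aut 1 rfl rfl (-1) (Or.inr rfl)
  rw [neg_one_mul] at h3
  refine ⟨γ, h1, h2, h3, ?_⟩
  rintro (_ | ⟨a, b, hn⟩)
  · exact (F.pp_zero h _).1 fun k => (F.pp_zero h _).2 rfl (sl_mem.1 (h2.symm ▸ k))
  · obtain ⟨h4, h5, h6⟩ := F.DCl_at h hn
    obtain ⟨hn', e⟩ := h.neg_some hn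
    have h7 : F.x ∈ (γ • F.pp h (.some a b hn)).1 := h2 ▸ sl_mem.2 h4
    have h8 := val_smul γ _ h4
    have h9 := val_smul γ _ (F.aff h4).1
    rw [h3, DCl_val_neg (F.aff h7).1, h1, h6, neg_eq_iff_eq_neg] at h9
    rw [h2, h1, h5] at h8
    rw [e]
    exact (F.pp_some h hn' _).1 ⟨h7, h8, h9⟩

theorem dv_vert {x0 y0 : κ} (hn : E.Nonsingular x0 y0) : dv κ (F.x - algebraMap κ K x0) =
    F.dd h (.some x0 y0 hn) + F.dd h (-(.some x0 y0 hn)) := by
  classical
  obtain ⟨hn', e⟩ := h.neg_some hn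
  refine F.DCl_ext' h (by rw [dg_dv, dg_add, DCl_dg, DCl_dg, add_zero]) fun a b hm => ?_
  rw [dv_apply (LkRat_ne F.tr x0), e, Finsupp.add_apply, DCl_dd, DCl_dd, DCl_ordx]
  by_cases hc : x0 = a
  · subst hc
    have h1 : (y0 - b) * (-y0 - b) = 0 := by linear_combination h.eqn hm - h.eqn hn
    by_cases hb : b = 0
    · have h2 : y0 = 0 := by
        rw [hb] at h1
        simpa using h1
      simp [hb, h2]
    · have h2 : ¬ (y0 = b ∧ -y0 = b) := fun k => hb (mul_left_cancel₀ h.two (by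
        linear_combination -k.1 - k.2))
      rw [mul_eq_zero, sub_eq_zero, sub_eq_zero] at h1
      by_cases h3 : y0 = b
      · have h4 : ¬ (-y0 = b) := fun k => h2 ⟨h3, k⟩
        rw [if_neg hb, if_pos rfl, if_pos ⟨rfl, h3⟩, if_neg fun k => h4 k.2]
        rfl
      · rw [if_neg hb, if_pos rfl, if_neg fun k => h3 k.2, if_pos ⟨rfl, h1.resolve_left h3⟩]
        rfl
  · simp [hc]

theorem DCl_line {l m x₁ x₂ x₃ y₁ y₂ y₃ : κ} (h₁ : E.Nonsingular x₁ y₁) (h₂ : E.Nonsingular x₂ y₂)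
    (h₃ : E.Nonsingular x₃ y₃) (k₁ : y₁ = l * x₁ + m) (k₂ : y₂ = l * x₂ + m) (k₃ : y₃ = l * x₃ + m)
    (e₁ : x₁ + x₂ + x₃ = l ^ 2) (e₂ : x₁ * x₂ + x₁ * x₃ + x₂ * x₃ = E.a₄ - 2 * l * m)
    (e₃ : x₁ * x₂ * x₃ = m ^ 2 - E.a₆) : ∃ f : K, f ≠ 0 ∧ dv κ f =
      F.dd h (.some x₁ y₁ h₁) + F.dd h (.some x₂ y₂ h₂) + F.dd h (.some x₃ y₃ h₃) := by
  classical
  obtain ⟨γ, g1, g2, g3, g4⟩ := F.DCl_conj h
  obtain ⟨u, hu⟩ : ∃ u, u = -(algebraMap κ K l * F.x + algebraMap κ K m) := ⟨_, rfl⟩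
  have g5 : Ell.AT.sl γ (F.y + u) = -F.y + u := by
    simp only [hu, _root_.map_add, _root_.map_neg, _root_.map_mul, sl_const, g1, g2, g3,
      RingAut.one_apply]
  have n1 := LkRat_ne F.tr x₁
  have n2 := LkRat_ne F.tr x₂
  have n3 := LkRat_ne F.tr x₃
  have hp : (F.y + u) * (-F.y + u) = -((F.x - algebraMap κ K x₁) * (F.x - algebraMap κ K x₂) *
      (F.x - algebraMap κ K x₃)) := by
    have e₁ := congrArg (algebraMap κ K) e₁
    have e₂ := congrArg (algebraMap κ K) e₂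
    have e₃ := congrArg (algebraMap κ K) e₃
    simp only [_root_.map_add, _root_.map_sub, _root_.map_mul, _root_.map_pow, map_ofNat]
      at e₁ e₂ e₃
    rw [hu]
    linear_combination -F.eqn - F.x ^ 2 * e₁ + F.x * e₂ - e₃
  have hq : (F.y + u) * (-F.y + u) ≠ 0 :=
    hp ▸ neg_ne_zero.2 (mul_ne_zero (mul_ne_zero n1 n2) n3)
  have f1 := left_ne_zero_of_mul hq
  have f2 := right_ne_zero_of_mul hq
  refine ⟨F.y + u, f1, F.DCl_ext' h
    (by rw [dg_dv, dg_add, dg_add, DCl_dg, DCl_dg, DCl_dg, add_zero, add_zero]) fun a b hm => ?_⟩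
  rw [dv_apply f1, Finsupp.add_apply, Finsupp.add_apply, DCl_dd, DCl_dd, DCl_dd]
  have ho := congrArg (F.pp h (.some a b hm)).ord hp
  rw [Place.ord_mul _ f1 f2, Place.ord_neg, Place.ord_mul _ (mul_ne_zero n1 n2) n3,
    Place.ord_mul _ n1 n2, DCl_ordx, DCl_ordx, DCl_ordx] at ho
  obtain ⟨a1, a2, a3⟩ := F.DCl_at h hm
  have a4 := (F.aff a1).1
  obtain ⟨a5, a6⟩ := LkRat_val _ a1 (-(C l * X + C m))
  rw [_root_.map_neg, _root_.map_add, _root_.map_mul, aeval_X, aeval_C, aeval_C, ← hu] at a5 a6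
  rw [a2, eval_neg, eval_add, eval_mul, eval_X, eval_C, eval_C] at a6
  by_cases hb : b = l * a + m
  · have t : ∀ {c d : κ}, d = l * c + m → ((c = a ∧ d = b) ↔ c = a) := fun k =>
      ⟨fun t => t.1, fun t => ⟨t, by rw [k, hb, t]⟩⟩
    simp only [t k₁, t k₂, t k₃]
    by_cases h0 : b = 0
    · have g6 := ord_smul γ (F.pp h (.some a b hm)) f1
      obtain ⟨hm', e⟩ := h.neg_some hm
      obtain ⟨hm'', e'⟩ := EllA_congr hm' rfl (show -b = b by rw [h0, neg_zero])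
      rw [g4, g5, e, e'] at g6
      rw [if_pos h0, g6] at ho
      omega
    · rw [if_neg h0, DCl_ord0 (add_mem (neg_mem a4) a5) (by
        rw [Place.val_add (neg_mem a4) a5, DCl_val_neg a4, a3, a6, ← hb]
        exact fun k => h0 (mul_left_cancel₀ h.two (by linear_combination -k)))] at ho
      omega
  · have t : ∀ {c d : κ}, d = l * c + m → ¬ (c = a ∧ d = b) := fun k t =>
      hb (by rw [← t.2, k, t.1])
    rw [if_neg (t k₁), if_neg (t k₂), if_neg (t k₃), DCl_ord0 (add_mem a4 a5) (by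
      rw [Place.val_add a4 a5, a3, a6, ← sub_eq_add_neg]
      exact sub_ne_zero.2 hb)]
    rfl

theorem DCl_neg (P : E.Point) : cl (F.dd h (-P)) = -cl (F.dd h P) := by
  rcases P with _ | ⟨a, b, hn⟩
  · rw [← Point.zero_def, Point.neg_zero, DCl_dd0, _root_.map_zero, _root_.neg_zero]
  · rw [eq_neg_iff_add_eq_zero, add_comm, ← _root_.map_add, ← dv_vert, cl_dv]

variable [DecidableEq κ]

theorem dv_line {x₁ y₁ x₂ y₂ : κ} (h₁ : E.Nonsingular x₁ y₁) (h₂ : E.Nonsingular x₂ y₂)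
    (hxy : ¬(x₁ = x₂ ∧ y₁ = E.negY x₂ y₂)) : ∃ f : K, f ≠ 0 ∧ dv κ f =
      F.dd h (.some x₁ y₁ h₁) + F.dd h (.some x₂ y₂ h₂) +
        F.dd h (-(.some x₁ y₁ h₁ + .some x₂ y₂ h₂)) := by
  have q1 := h.eqn h₁
  have q2 := h.eqn h₂
  by_cases hx : x₁ = x₂
  · have hy := Y_eq_of_Y_ne h₁.1 h₂.1 hx fun k => hxy ⟨hx, k⟩
    subst hx hy
    have h0 : y₁ ≠ 0 := fun k => hxy ⟨rfl, by rw [h.negY_eq, k, neg_zero]⟩
    obtain ⟨l, hl, hn, e⟩ := h.EllA_dbl h₁ h0
    obtain ⟨hn', e'⟩ := h.neg_some hn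
    rw [← two_nsmul (Point.some x₁ y₁ h₁), e, e']
    exact F.DCl_line h h₁ h₁ hn' (l := l) (m := y₁ - l * x₁) (by ring) (by ring) (by ring) (by ring)
      (by linear_combination hl) (by linear_combination -q1 + x₁ * hl)
  · obtain ⟨l, hl, hn, e⟩ := h.EllA_add h₁ h₂ hx
    obtain ⟨hn', e'⟩ := h.neg_some hn
    obtain rfl : y₂ = y₁ - l * (x₁ - x₂) := by linear_combination hl
    have e₂ : x₁ * x₂ + x₁ * (l ^ 2 - x₁ - x₂) + x₂ * (l ^ 2 - x₁ - x₂) =
        E.a₄ - 2 * l * (y₁ - l * x₁) :=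
      mul_left_cancel₀ (sub_ne_zero.2 hx) (by linear_combination q1 - q2)
    rw [e, e']
    exact F.DCl_line h h₁ h₂ hn' (l := l) (m := y₁ - l * x₁) (by ring) (by ring) (by ring) (by ring)
      e₂ (by linear_combination -q1 + x₁ * e₂)

theorem cls_add (P P' : E.Point) : cl (F.dd h (P + P')) = cl (F.dd h P) + cl (F.dd h P') := by
  rcases P with _ | ⟨x₁, y₁, h₁⟩
  · rw [← Point.zero_def, zero_add, DCl_dd0, _root_.map_zero, zero_add]
  rcases P' with _ | ⟨x₂, y₂, h₂⟩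
  · rw [← Point.zero_def, add_zero, DCl_dd0, _root_.map_zero, add_zero]
  by_cases hxy : x₁ = x₂ ∧ y₁ = E.negY x₂ y₂
  · have e := Point.add_of_Y_eq (h₁ := h₁) (h₂ := h₂) hxy.1 hxy.2
    rw [e, eq_neg_of_add_eq_zero_left e, DCl_neg, DCl_dd0, _root_.map_zero, neg_add_cancel]
  · obtain ⟨f, -, e⟩ := F.dv_line h h₁ h₂ hxy
    have e' := cl_dv (𝕜 := κ) f
    rw [e, _root_.map_add, _root_.map_add, DCl_neg, add_neg_eq_zero] at e'
    exact e'.symm

omit [DecidableEq κ] in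
theorem cls_inj {P : E.Point} (e : cl (F.dd h P) = 0) : P = 0 := by
  classical
  by_contra hP
  obtain ⟨f, f0, e⟩ := cl_eq_zero.1 e
  obtain ⟨γ, g1, g2, g3, g4⟩ := F.DCl_conj h
  obtain ⟨o1, o2, o3⟩ : (∀ z : Place κ K, F.x ∉ z.1 ↔ z = F.pp h 0) ∧ (F.pp h 0).ord F.x = -2 ∧
    (F.pp h 0).ord F.y = -3 := F.exists_o.choose_spec
  have o4 := (o1 _).2 rfl
  have m1 : ∀ z : Place κ K, F.x ∈ z.1 → f ∈ z.1 := fun z hz => (Sa_mem z f0).2 (by
    rw [← dv_apply f0, e, dd, Finsupp.sub_apply,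
      Finsupp.single_eq_of_ne fun k => (o1 z).2 k hz, sub_zero]
    exact Finsupp.single_nonneg.2 zero_le_one z)
  have m2 : ∀ z : Place κ K, F.x ∈ z.1 → Ell.AT.sl γ f ∈ z.1 := fun z hz => by
    rw [← smul_inv_smul γ z, ← g2] at hz
    rw [← smul_inv_smul γ z]
    exact sl_mem.2 (m1 _ (sl_mem.1 hz))
  have m3 : (F.pp h 0).ord f = -1 := by
    rw [← dv_apply f0, e, dd, Finsupp.sub_apply, Finsupp.single_eq_same,
      Finsupp.single_eq_of_ne fun k => hP ((F.pp_bij h).1 k).symm, zero_sub]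
  have m4 : (F.pp h 0).ord (Ell.AT.sl γ f) = -1 := by
    have := ord_smul γ (F.pp h 0) f0
    rwa [g4, neg_zero, m3] at this
  obtain ⟨p, q, r, r0, e1⟩ := F.span f
  have g5 : ∀ s : κ[X], Ell.AT.sl γ (aeval F.x s) = aeval F.x s := fun s => by
    rw [sl_aeval, g1, g2]
    exact congrArg _ (Polynomial.map_id (p := s))
  have e2 := congrArg (Ell.AT.sl γ) e1
  rw [_root_.map_mul, _root_.map_add, _root_.map_mul, g5, g5, g5, g3] at e2
  obtain ⟨g, hg⟩ : ∃ g, g = Ell.AT.sl γ f := ⟨_, rfl⟩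
  rw [← hg] at e2 m2 m4
  have dg : ∀ {s : κ[X]} {n : ℕ}, (F.pp h 0).Ge (aeval F.x s) (-(2 * n + 1)) → s.natDegree ≤ n :=
    fun {s n} k => by
      by_cases s0 : s = 0
      · rw [s0, natDegree_zero]
        exact n.zero_le
      · have k' := k.resolve_left fun t => F.tr ⟨s, s0, t⟩
        rw [ord_poly_inf _ o4 s0, o2] at k'
        omega
  obtain ⟨s, hs⟩ := DCl_poly (u := f + g) (a := p + p) F.tr r0
    (by rw [_root_.map_add]; linear_combination e1 + e2)
    fun z hz => add_mem (m1 z hz) (m2 z hz)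
  obtain ⟨t, ht⟩ := DCl_poly (u := (f + -g) * F.y) (a := (q + q) * (X ^ 3 + C E.a₄ * X + C E.a₆))
    F.tr r0 (by
      simp only [_root_.map_add, _root_.map_mul, _root_.map_pow, aeval_X, aeval_C]
      linear_combination F.y * (e1 - e2) + 2 * aeval F.x q * F.eqn)
    fun z hz => mul_mem (add_mem (m1 z hz) (neg_mem (m2 z hz))) (F.aff hz).1
  have d1 : s.natDegree ≤ 0 := dg (hs ▸ Place.Ge.add (Or.inr m3.ge) (Or.inr m4.ge))
  have d2 : t.natDegree ≤ 2 := dg (ht ▸ Place.Ge.mono (Place.Ge.mul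
    (Place.Ge.add (Or.inr m3.ge) (Place.Ge.neg (Or.inr m4.ge))) (Or.inr o3.ge)) (by norm_num))
  have v : ∀ {c : κ}, E.Nonsingular c 0 → t.eval c = 0 := fun {c} hn => by
    obtain ⟨a1, a2, a3⟩ := F.DCl_at h hn
    have a4 := (LkRat_val _ a1 t).2
    rw [← ht, Place.val_mul (add_mem (m1 _ a1) (neg_mem (m2 _ a1))) (F.aff a1).1, a2, a3,
      mul_zero] at a4
    exact a4.symm
  obtain ⟨c1, c2, c3, hr⟩ := h.exists_rt
  have t0 : t = 0 := by
    refine eq_zero_of_natDegree_lt_card_of_eval_eq_zero' t {c1, c2, c3} (fun c hc => ?_) ?_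
    · simp only [Finset.mem_insert, Finset.mem_singleton] at hc
      rcases hc with rfl | rfl | rfl
      exacts [v hr.nonsing, v hr.rot.nonsing, v hr.rot.rot.nonsing]
    · rw [Finset.card_eq_three.2 ⟨c1, c2, c3, hr.ne12, hr.ne13, hr.ne23, rfl⟩]
      omega
  have y0 : F.y ≠ 0 := fun k => one_ne_zero (F.ind 0 1 (by rw [k, _root_.map_zero]; ring)).2
  rw [t0, _root_.map_zero, mul_eq_zero, or_iff_left y0, add_neg_eq_zero] at ht
  rw [eq_C_of_natDegree_le_zero d1, aeval_C, ← ht, ← two_mul] at hs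
  have t2 : (2 : K) = algebraMap κ K 2 := (map_ofNat _ 2).symm
  have e3 : f = algebraMap κ K (s.coeff 0 / 2) := by
    rw [map_div₀, ← hs, ← t2, mul_div_cancel_left₀ _ (t2 ▸ (_root_.map_ne_zero _).2 h.two)]
  rw [← dv_apply f0, e3, dv_const, Finsupp.zero_apply] at m3
  omega

theorem cls_surj {D : Dv κ K} (hD : dg D = 0) : ∃ P, cl (F.dd h P) = cl D := by
  let φ : E.Point →+ Pic κ K := AddMonoidHom.mk' (fun P => cl (F.dd h P)) (F.cls_add h)
  have H : ∀ D : Dv κ K, cl (D - dg D • Finsupp.single (F.pp h 0) 1) ∈ φ.range := fun D => by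
    induction D using Finsupp.induction_linear with
    | zero =>
      rw [rr_dg_zero, zero_smul, sub_zero, _root_.map_zero]
      exact zero_mem _
    | add D D' h1 h2 =>
      rw [dg_add, add_smul, add_sub_add_comm, _root_.map_add]
      exact add_mem h1 h2
    | single z n =>
      obtain ⟨Q, rfl⟩ := (F.pp_bij h).2 z
      rw [dg_single, ← Finsupp.smul_single_one, ← smul_sub, map_zsmul]
      exact zsmul_mem (AddMonoidHom.mem_range.2 ⟨Q, rfl⟩) n
  have := H D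
  rwa [hD, zero_smul, sub_zero] at this

end EF

end

end Pool.Agent.Lef
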