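import Pool.Agent.Work.MP_7f58ab_ag.Lt.Sa

/-!
# Places in finite extensions of function fields  (task LB Ext)

* `isFF_of_finite`: the image of a transcendental element; `FiniteDimensional.trans` through the ring isomorphism between
  `κ⟮x⟯ ⊆ K` and its image (compare `BC.BC_fin`, or use `Algebra.IsAlgebraic` and `Algebra.EssFiniteType`).
* `res_ne_top`: if `K ⊆ x.1`, then `L ⊆ x.1` since `L` is integral over `K` and valuation rings are integrally closed.
* `res_surj`: `LocalSubring.exists_le_valuationSubring` for the image of `y.1`; `Place.eq_of_le`.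
* `sum_ee`: take `t` with `poles κ t = {y}` (`FF_pole`; it is transcendental since it is not constant); `dg_dvInf` in `K` and in `L`,
  and `[L : κ(t)] = [L : K] [K : κ(t)]`.
* `conj_of_inv`: otherwise `weak_approx` gives `f` of value one on the orbit of `x` and of value zero on the orbit of `x'`; the
  product `n` of the `sl (φ g) f` is invariant, `n⁻¹ ∈ x.1`, `n⁻¹ ∉ x'.1`.
* `fix_of_stab`: `a - b` has arbitrarily large order at `x` for suitable `b ∈ K`: by induction, with `u` the uniformiser of `res x` and
  `x.ord (a - b) = m * ee x` (hypothesis `h` for `a - b ∈ M`), subtract `val ((a - b) / u ^ m) * u ^ m`.  Then `σ a - a = σ (a - b) - (a - b)`,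
  `ord_smul`, `Place.eq_zero_of_ge`.
* `ee_of_free`: the orbit of `x` has `finrank K L` elements, all over `res x`, each `ee ≥ 1`; `sum_ee`.
-/

namespace Pool.Agent.Lef

open PR0 Pool.Agent.Ell.AT

variable {κ K L : Type} [Field κ] [Field K] [Field L] [Algebra κ K] [Algebra κ L] [Algebra K L]
  [IsScalarTower κ K L]

theorem Ext_rank (L : Type) [Field L] [Algebra κ L] [Algebra K L] [IsScalarTower κ K L] (t : K) :
    Module.finrank (IntermediateField.adjoin κ {algebraMap K L t}) L =
      Module.finrank (IntermediateField.adjoin κ {t}) K * Module.finrank K L := by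
  have e : IntermediateField.adjoin κ {algebraMap K L t} =
      (IntermediateField.adjoin κ {t}).map (IsScalarTower.toAlgHom κ K L) := by
    rw [IntermediateField.adjoin_map, Set.image_singleton]
    rfl
  rw [e, Module.finrank_mul_finrank]
  exact (Algebra.finrank_eq_of_equiv_equiv
    ((IntermediateField.adjoin κ {t}).equivMap (IsScalarTower.toAlgHom κ K L)).toRingEquiv
    (RingEquiv.refl L) (RingHom.ext fun _ => rfl)).symm

theorem Ext_tr (L : Type) [Field L] [Algebra κ L] [Algebra K L] [IsScalarTower κ K L] {t : K}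
    (ht : Transcendental κ t) : Transcendental κ (algebraMap K L t) :=
  (transcendental_algebraMap_iff (algebraMap K L).injective).2 ht

theorem isFF_of_finite [FiniteDimensional K L] (h : IsFF κ K) : IsFF κ L := by
    obtain ⟨t, ht, hf⟩ := h
    refine ⟨algebraMap K L t, Ext_tr L ht, Module.finite_of_finrank_pos ?_⟩
    rw [Ext_rank]
    exact Nat.mul_pos Module.finrank_pos Module.finrank_pos

theorem res_ne_top [Algebra.IsAlgebraic K L] (x : Place κ L) :
    x.1.comap (algebraMap K L) ≠ ⊤ := by
    intro h
    refine x.2.1 (eq_top_iff.2 fun a _ => FFA_int x.1 (A := K) (fun c => ?_)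
      (Algebra.IsAlgebraic.isAlgebraic a).isIntegral)
    have : c ∈ x.1.comap (algebraMap K L) := by
      rw [h]
      exact ValuationSubring.mem_top _
    exact this

variable (K) in
/-- the restriction of a place -/
def res [Algebra.IsAlgebraic K L] (x : Place κ L) : Place κ K :=
  ⟨x.1.comap (algebraMap K L), res_ne_top x, fun c => by
    rw [ValuationSubring.mem_comap, ← IsScalarTower.algebraMap_apply]
    exact x.2.2 c⟩

theorem mem_res [Algebra.IsAlgebraic K L] {x : Place κ L} {f : K} :
    f ∈ (res K x).1 ↔ algebraMap K L f ∈ x.1 := Iff.rfl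

variable (K) in
/-- the ramification index -/
noncomputable def ee [Algebra.IsAlgebraic K L] (x : Place κ L) : ℤ :=
  x.ord (algebraMap K L (res K x).unif)

variable (κ) in
/-- automorphisms over `K` as semilinear automorphisms -/
def toSA : (L ≃ₐ[K] L) →* SA κ L where
  toFun σ := ⟨(1, (σ : L ≃+* L)), fun c => by
    change σ (algebraMap κ L c) = algebraMap κ L c
    rw [IsScalarTower.algebraMap_apply κ K L, σ.commutes]⟩
  map_one' := rfl
  map_mul' _ _ := Subtype.ext (Prod.ext (mul_one _).symm rfl)

theorem sl_toSA (σ : L ≃ₐ[K] L) (a : L) : sl (toSA κ σ) a = σ a := rfl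

theorem sc_toSA (σ : L ≃ₐ[K] L) (c : κ) : sc (toSA κ σ : SA κ L) c = c := rfl

theorem res_smul [Algebra.IsAlgebraic K L] (σ : L ≃ₐ[K] L) (x : Place κ L) :
    res K (toSA κ σ • x) = res K x := by
    refine Subtype.ext (SetLike.ext fun a => ?_)
    have := sl_mem (σ := toSA κ σ) (P := x) (a := algebraMap K L a)
    rw [sl_toSA, σ.commutes] at this
    exact this

theorem res_res {M : Type} [Field M] [Algebra κ M] [Algebra K M] [Algebra M L] [IsScalarTower κ K M]
    [IsScalarTower κ M L] [IsScalarTower K M L] [Algebra.IsAlgebraic K M] [Algebra.IsAlgebraic M L]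
    [Algebra.IsAlgebraic K L] (x : Place κ L) : res K (res M x) = res K x := by
    refine Subtype.ext (SetLike.ext fun a => ?_)
    rw [mem_res, mem_res, mem_res, ← IsScalarTower.algebraMap_apply]

variable [IsAlgClosed κ] [Fact (IsFF κ L)]

theorem conj_of_inv {G : Type} [Group G] [Finite G] (φ : G →* SA κ L) {x x' : Place κ L}
    (h : ∀ a : L, (∀ g, sl (φ g) a = a) → (a ∈ x.1 ↔ a ∈ x'.1)) : ∃ g, φ g • x = x' := by
    classical
    by_contra hc
    push Not at hc
    have := Fintype.ofFinite G
    obtain ⟨f, hf⟩ := weak_approx ((Set.finite_range fun g => φ g • x).union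
      (Set.finite_range fun g => φ g • x'))
      (fun P => if P ∈ Set.range fun g => φ g • x then (1 : L) else 0) fun _ => 1
    have h1 : ∀ g, (φ g • x).Ge (f - 1) 1 := fun g => by
      have := hf _ (Or.inl ⟨g, rfl⟩)
      rwa [if_pos ⟨g, rfl⟩] at this
    have h2 : ∀ g, (φ g • x').Ge f 1 := fun g => by
      have := hf _ (Or.inr ⟨g, rfl⟩)
      rw [if_neg, sub_zero] at this
      · exact this
      · rintro ⟨g', e⟩
        refine hc (g⁻¹ * g') ?_
        rw [map_mul, mul_smul, show φ g' • x = φ g • x' from e, map_inv, inv_smul_smul]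
    have h3 : ∀ g, f ≠ 0 ∧ (φ g • x).ord f = 0 := fun g => by
      have e : (φ g • x).ord 1 = 0 := by
        have := (φ g • x).ord_const (one_ne_zero (α := κ))
        rwa [map_one] at this
      have := Place.ord_add_of_lt (P := φ g • x) (g := f - 1) one_ne_zero (by
        rw [e, zero_add]
        exact h1 g)
      rwa [add_sub_cancel, e] at this
    have h0 : f ≠ 0 := (h3 1).1
    have h4 : ∀ g, sl (φ g) (∏ g', sl (φ g') f⁻¹) = ∏ g', sl (φ g') f⁻¹ := fun g => by
      rw [map_prod]
      refine Fintype.prod_equiv (Equiv.mulLeft g) _ _ fun g' => ?_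
      rw [Equiv.coe_mulLeft, map_mul, phi_mul]
    have h5 : ∀ (g : G) (P : Place κ L) (a : L), a ∈ (φ g⁻¹ • P).1 → sl (φ g) a ∈ P.1 :=
      fun g P a ha => by
        rw [mem_smul, map_inv φ, inv_inv] at ha
        exact ha
    have h6 := (h _ h4).1 (prod_mem fun g _ => h5 g x _ (by
      rw [Sa_mem _ (inv_ne_zero h0), Place.ord_inv _ h0, (h3 _).2, neg_zero]))
    have h7 : ∏ g ∈ Finset.univ.erase 1, sl (φ g) f ∈ x'.1 := prod_mem fun g _ =>
      h5 g x' _ ((Place.mem_iff _).2 ((h2 _).mono zero_le_one))
    have h8 := mul_mem h6 h7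
    rw [← Finset.mul_prod_erase _ _ (Finset.mem_univ 1), mul_assoc, ← Finset.prod_mul_distrib,
      Finset.prod_eq_one (fun g _ => by rw [← map_mul, inv_mul_cancel₀ h0, map_one]), mul_one,
      map_one, phi_one, Sa_mem _ (inv_ne_zero h0), Place.ord_inv _ h0] at h8
    have h9 := (h2 1).resolve_left h0
    rw [map_one, one_smul] at h9
    omega

variable [Fact (IsFF κ K)] [FiniteDimensional K L]

theorem Ext_nonneg (x : Place κ L) {f : K} (hf : f ≠ 0) :
    0 ≤ x.ord (algebraMap K L f) ↔ 0 ≤ (res K x).ord f := by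
  rw [← Sa_mem _ hf, ← Sa_mem _ ((map_ne_zero _).2 hf), mem_res]

theorem Ext_pos (x : Place κ L) {f : K} (hf : f ≠ 0) :
    0 < x.ord (algebraMap K L f) ↔ 0 < (res K x).ord f := by
  have := Ext_nonneg x (inv_ne_zero hf)
  rw [map_inv₀, Place.ord_inv _ hf, Place.ord_inv _ ((map_ne_zero _).2 hf)] at this
  omega

theorem val_res {x : Place κ L} {f : K} (hf : f ∈ (res K x).1) :
    x.val (algebraMap K L f) = (res K x).val f := by
    refine Place.val_eq ?_
    rw [IsScalarTower.algebraMap_apply κ K L, ← map_sub]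
    by_cases h : f - algebraMap κ K ((res K x).val f) = 0
    · exact Or.inl (by rw [h, map_zero])
    · exact Or.inr ((Ext_pos x h).2 ((Place.ge_sub_val hf).resolve_left h))

theorem ee_pos (x : Place κ L) : 0 < ee K x := by
    refine (Ext_pos x (res K x).unif_ne_zero).2 ?_
    rw [Place.ord_unif]
    exact zero_lt_one

theorem ord_res (x : Place κ L) {f : K} (hf : f ≠ 0) :
    x.ord (algebraMap K L f) = ee K x * (res K x).ord f := by
    have h0 : (res K x).unif ^ (-(res K x).ord f) ≠ 0 := zpow_ne_zero _ (res K x).unif_ne_zero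
    have h1 := mul_ne_zero hf h0
    have e : (res K x).ord (f * (res K x).unif ^ (-(res K x).ord f)) = 0 := by
      rw [Place.ord_mul _ hf h0, rr_ge_unif, add_neg_cancel]
    have a1 := (Ext_nonneg x h1).2 e.ge
    have a2 := mt (Ext_pos x h1).1 e.not_gt
    rw [map_mul, Place.ord_mul _ ((map_ne_zero _).2 hf) ((map_ne_zero _).2 h0), map_zpow₀,
      Place.ord_zpow _ ((map_ne_zero _).2 (res K x).unif_ne_zero)] at a1 a2
    rw [ee]
    linarith

omit [Algebra κ L] [Algebra K L] [IsScalarTower κ K L] [Fact (IsFF κ L)] [FiniteDimensional K L] in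
theorem Ext_pole (y : Place κ K) :
    ∃ t : K, Transcendental κ t ∧ ∀ z : Place κ K, t ∉ z.1 ↔ z = y := by
  obtain ⟨t, ht⟩ := FF_pole y
  have h : ∀ z : Place κ K, t ∉ z.1 ↔ z = y := fun z => Set.ext_iff.1 ht z
  refine ⟨t, PR0.transcendental_iff.2 ?_, h⟩
  rintro ⟨c, rfl⟩
  exact (h y).2 rfl (y.2.2 c)

theorem res_surj (y : Place κ K) : ∃ x : Place κ L, res K x = y := by
    obtain ⟨t, ht, h⟩ := Ext_pole y
    by_contra hc
    obtain ⟨c, e⟩ := const_of_regular (K := κ) (f := algebraMap K L t) fun x =>
      by_contra fun hx => hc ⟨x, (h _).1 hx⟩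
    exact PR0.transcendental_iff.1 (Ext_tr L ht) ⟨c, e.symm⟩

theorem res_finite (y : Place κ K) : {x : Place κ L | res K x = y}.Finite := by
    obtain ⟨t, -, h⟩ := Ext_pole y
    exact (finite_poles (K := κ) (algebraMap K L t)).subset fun x hx => (h (res K x)).2 hx

theorem sum_ee (y : Place κ K) :
    ∑ x ∈ (res_finite (L := L) y).toFinset, ee K x = Module.finrank K L := by
    obtain ⟨t, ht, h⟩ := Ext_pole y
    have h0 : t ≠ 0 := fun e => ht (e ▸ isAlgebraic_zero)
    have h1 : y.ord t < 0 := by
      have := (h y).2 rfl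
      rwa [Sa_mem _ h0, not_le] at this
    have h2 : ∀ z : Place κ K, z ≠ y → 0 ≤ z.ord t := fun z hz =>
      (Sa_mem _ h0).1 (by_contra fun e => hz ((h z).1 e))
    have h3 : dvInf κ t = Finsupp.single y (-y.ord t) := by
      ext z
      rw [dvInf_apply h0]
      by_cases hz : z = y
      · rw [hz, Finsupp.single_eq_same]
        omega
      · rw [Finsupp.single_eq_of_ne hz]
        have := h2 z hz
        omega
    have h4 := dg_dvInf ht
    have h5 := dg_dvInf (Ext_tr L ht)
    have h0' : algebraMap K L t ≠ 0 := (map_ne_zero _).2 h0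
    rw [h3, dg_single] at h4
    rw [Ext_rank, Nat.cast_mul, ← h4, dg, Finsupp.sum_of_support_subset _
      (s := (res_finite (L := L) y).toFinset) (fun x hx => by
        rw [Finsupp.mem_support_iff, dvInf_apply h0', ord_res x h0] at hx
        rw [Set.Finite.mem_toFinset]
        by_contra e
        have := mul_nonneg (ee_pos (K := K) x).le (h2 _ e)
        omega) _ (fun _ _ => rfl), Finset.sum_congr rfl (g := fun x => -y.ord t * ee K x) (fun x hx => by
        rw [Set.Finite.mem_toFinset] at hx
        rw [dvInf_apply h0', ord_res x h0, show res K x = y from hx, max_eq_left]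
        · ring
        · have := mul_pos (ee_pos (K := K) x) (neg_pos.2 h1)
          linarith), ← Finset.mul_sum] at h5
    exact mul_left_cancel₀ (neg_pos.2 h1).ne' h5

theorem ee_smul (σ : L ≃ₐ[K] L) (x : Place κ L) : ee K (toSA κ σ • x) = ee K x := by
    have := ord_smul (toSA κ σ) x ((map_ne_zero (algebraMap K L)).2 (res K x).unif_ne_zero)
    rw [sl_toSA, σ.commutes] at this
    rw [ee, res_smul, this, ee]

theorem ee_mul {M : Type} [Field M] [Algebra κ M] [Algebra K M] [Algebra M L] [IsScalarTower κ K M]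
    [IsScalarTower κ M L] [IsScalarTower K M L] [Fact (IsFF κ M)] [FiniteDimensional K M]
    [FiniteDimensional M L] (x : Place κ L) : ee K x = ee M x * ee K (res M x) := by
    rw [ee, ee.eq_1 K (res M x), res_res, IsScalarTower.algebraMap_apply K M L,
      ord_res x ((map_ne_zero _).2 (res K x).unif_ne_zero)]

theorem exists_smul [IsGalois K L] {x x' : Place κ L} (h : res K x = res K x') :
    ∃ σ : L ≃ₐ[K] L, toSA κ σ • x = x' := by
    refine conj_of_inv (toSA κ) fun a ha => ?_
    obtain ⟨b, rfl⟩ := (IsGalois.mem_range_algebraMap_iff_fixed (F := K) a).2 ha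
    rw [← mem_res, h, mem_res]

theorem fix_of_stab (M : IntermediateField K L) {x : Place κ L}
    (h : ∀ a ∈ M, a ≠ 0 → ee K x ∣ x.ord a) {σ : L ≃ₐ[K] L} (hσ : toSA κ σ • x = x) :
    ∀ a ∈ M, σ a = a := by
    intro a ha
    have key : ∀ n : ℕ, ∃ b : K, x.Ge (a - algebraMap K L b) (x.ord a + n) := fun n => by
      induction n with
      | zero => exact ⟨0, Or.inr (by rw [map_zero, sub_zero]; simp)⟩
      | succ n ih =>
        obtain ⟨b, hb⟩ := ih
        by_cases h0 : a - algebraMap K L b = 0
        · exact ⟨b, Or.inl h0⟩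
        obtain ⟨m, hm⟩ := h _ (sub_mem ha (M.algebraMap_mem b)) h0
        have h1 : (res K x).unif ^ m ≠ 0 := zpow_ne_zero _ (res K x).unif_ne_zero
        have h2 := ord_res x h1
        rw [rr_ge_unif, ← hm] at h2
        have h1' : algebraMap K L ((res K x).unif ^ m) ≠ 0 := (map_ne_zero _).2 h1
        generalize (res K x).unif ^ m = w at h1 h2 h1'
        have h3 : (a - algebraMap K L b) * (algebraMap K L w)⁻¹ ∈ x.1 := by
          rw [Sa_mem _ (mul_ne_zero h0 (inv_ne_zero h1')), Place.ord_mul _ h0 (inv_ne_zero h1'),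
            Place.ord_inv _ h1', h2, add_neg_cancel]
        have h4 := (Place.ge_sub_val h3).mul (Or.inr h2.ge)
        generalize x.val ((a - algebraMap K L b) * (algebraMap K L w)⁻¹) = v at h4
        rw [sub_mul, inv_mul_cancel_right₀ h1', IsScalarTower.algebraMap_apply κ K L, sub_sub,
          ← map_mul, ← map_add] at h4
        refine ⟨_, h4.mono ?_⟩
        have := hb.resolve_left h0
        push_cast
        omega
    refine sub_eq_zero.1 (Place.eq_zero_of_ge (P := x) fun n => ?_)
    obtain ⟨b, hb⟩ := key (n - x.ord a).toNat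
    have h1 : x.Ge (a - algebraMap K L b) n := hb.mono (by omega)
    have h2 : x.Ge (σ (a - algebraMap K L b)) n := by
      by_cases h0 : a - algebraMap K L b = 0
      · exact Or.inl (by rw [h0, map_zero])
      · have := ord_smul (toSA κ σ) x h0
        rw [hσ, sl_toSA] at this
        exact Or.inr (this ▸ h1.resolve_left h0)
    have h3 := h2.sub h1
    rwa [map_sub, σ.commutes, sub_sub_sub_cancel_right] at h3

theorem free_of_ee {x : Place κ L} (h : ee K x = 1) {σ : L ≃ₐ[K] L} (hσ : toSA κ σ • x = x) :
    σ = 1 := by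
    exact AlgEquiv.ext fun a => fix_of_stab ⊤ (fun _ _ _ => h ▸ one_dvd _) hσ a trivial

theorem ee_of_free [IsGalois K L] {x : Place κ L}
    (h : ∀ σ : L ≃ₐ[K] L, toSA κ σ • x = x → σ = 1) : ee K x = 1 := by
    have := Fintype.ofFinite (L ≃ₐ[K] L)
    have h1 := Finset.card_le_card_of_injOn (s := Finset.univ)
      (t := (res_finite (L := L) (res K x)).toFinset) (fun σ : L ≃ₐ[K] L => toSA κ σ • x)
      (fun σ _ => by
        rw [Finset.mem_coe, Set.Finite.mem_toFinset]
        exact res_smul σ x) (fun σ _ τ _ e => by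
        have := h (τ⁻¹ * σ) (by
          rw [map_mul, mul_smul, show toSA κ σ • x = toSA κ τ • x from e, map_inv, inv_smul_smul])
        exact (inv_mul_eq_one.1 this).symm)
    rw [Finset.card_univ, ← Nat.card_eq_fintype_card, IsGalois.card_aut_eq_finrank] at h1
    by_contra hc
    have h2 := Finset.sum_lt_sum (s := (res_finite (L := L) (res K x)).toFinset)
      (f := fun _ => (1 : ℤ)) (g := ee K) (fun z _ => ee_pos z) ⟨x, by
        rw [Set.Finite.mem_toFinset]
        rfl, by
        have := ee_pos (K := K) x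
        omega⟩
    rw [sum_ee, Finset.sum_const, nsmul_eq_mul, mul_one] at h2
    omega

variable (L) in
/-- the conorm of a divisor -/
theorem exists_con (D : Dv κ K) : ∃ D' : Dv κ L, ∀ x, D' x = ee K x * D (res K x) := by
    refine ⟨Finsupp.ofSupportFinite (fun x => ee K x * D (res K x))
      ((D.hasFiniteSupport.preimage' (f := res K) fun y _ => res_finite y).subset fun x hx => ?_),
      fun _ => rfl⟩
    exact right_ne_zero_of_mul hx

theorem dg_con {D : Dv κ K} {D' : Dv κ L} (h : ∀ x, D' x = ee K x * D (res K x)) :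
    dg D' = Module.finrank K L * dg D := by
    classical
    rw [dg, dg, Finsupp.sum, Finsupp.sum, ← Finset.sum_fiberwise_of_maps_to (t := D.support)
      (g := res K) (fun x hx => by
        rw [Finsupp.mem_support_iff] at hx ⊢
        exact right_ne_zero_of_mul (h x ▸ hx)), Finset.mul_sum]
    refine Finset.sum_congr rfl fun y hy => ?_
    rw [← sum_ee y, Finset.sum_mul]
    refine Finset.sum_congr (Finset.ext fun x => ?_) fun x hx => ?_
    · rw [Finset.mem_filter, Set.Finite.mem_toFinset, Finsupp.mem_support_iff, h]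
      refine and_iff_right_of_imp fun e => mul_ne_zero (ee_pos x).ne' ?_
      rw [e]
      exact Finsupp.mem_support_iff.1 hy
    · rw [Set.Finite.mem_toFinset] at hx
      rw [h, show res K x = y from hx]

/-- a function on the places of `L` that comes from `K` -/
theorem exists_descend {D' : Dv κ L} (h : ∀ x x', res K x = res K x' → D' x = D' x') :
    ∃ D : Dv κ K, ∀ x, D' x = D (res K x) := by
    choose s hs using res_surj (κ := κ) (K := K) (L := L)
    refine ⟨Finsupp.ofSupportFinite (fun y => D' (s y))
      ((D'.hasFiniteSupport.image (res K)).subset fun y hy => ⟨s y, hy, hs y⟩), fun x => ?_⟩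
    exact h x _ (hs _).symm

end Pool.Agent.Lef
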