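import Mathlib

/-!
# Traces on free `ZMod N`-modules sitting inside abelian groups  (task LB Tr)

* `HasTr.unique`: the two parametrisations differ by an additive, so `ZMod N`-linear, bijection
  (`AddMonoidHom.toZModLinearMap`); `LinearMap.trace_conj'` or `Matrix.trace_mul_comm` for rectangular matrices
  (`LinearMap.toMatrix'`).
* `HasTr.add`: lift the basis of `H2` to elements `y i ∈ H`; they are killed by `N`; parametrise by `Fin r1 ⊕ Fin r2`; the matrix is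
  block triangular (`hasTr_of_basis`).
* `fr_of_crit`: take an `F2`-basis `x i` of the two-torsion of `H`, `x i = 2 ^ J • y i`, `e c = ∑ (c i).val • y i`
  (`ZMod.lift`).  Injective: if `e c = 0`, `c ≠ 0`, write `c = 2 ^ a • c'` with some `c' i` odd, `a ≤ J`, multiply by `2 ^ (J - a)`.
  Onto: induction on `i` with `2 ^ i • x = 0`.
* `HasTr.quot`, `HasTr.ker`: the third group is free by `fr_of_crit` (`Fr.crit`, `Fr.div`), then `Fr.exists_tr`, `add`, `unique`.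
* `hasTr_proj`: `H` is free by `fr_of_crit` (if `2 • x = 0` in `ι → ZMod (2 ^ (J + 1))` then `x = 2 ^ J • y`; apply `p`).  With
  `e : (Fin r → _) → H`, `p = e ∘ p'`, `p' ∘ e = id`, `m ∘ e = e ∘ m'`: `trace (m p) = trace (e m' p') = trace (m' p' e)`.
-/

namespace Pool.Agent.Lef

/-- the elements killed by `N` -/
def tors (A : Type) [AddCommGroup A] (N : ℕ) : AddSubgroup A where
  carrier := {x | N • x = 0}
  add_mem' {a b} ha hb := by
    simp only [Set.mem_ofPred_eq] at *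
    rw [smul_add, ha, hb, add_zero]
  zero_mem' := smul_zero N
  neg_mem' {a} ha := by
    simp only [Set.mem_ofPred_eq] at *
    rw [smul_neg, ha, neg_zero]

variable {A B : Type} [AddCommGroup A] [AddCommGroup B]

theorem mem_tors {N : ℕ} {x : A} : x ∈ tors A N ↔ N • x = 0 := Iff.rfl

/-- `f` is additive on `H` -/
def AddOn (H : AddSubgroup A) (f : A → B) : Prop := ∀ x ∈ H, ∀ y ∈ H, f (x + y) = f x + f y

/-- `f` is an endomorphism of `H` -/
def EndOn (H : AddSubgroup A) (f : A → A) : Prop := (∀ x ∈ H, f x ∈ H) ∧ AddOn H f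

/-- `H` is a free `ZMod N`-module of finite rank -/
def Fr (N : ℕ) (H : AddSubgroup A) : Prop :=
  ∃ (r : ℕ) (e : (Fin r → ZMod N) →+ A), Function.Injective e ∧ e.range = H

/-- `H` is a free `ZMod N`-module of finite rank and `f` has trace `t` on it -/
def HasTr (N : ℕ) (H : AddSubgroup A) (f : A → A) (t : ZMod N) : Prop :=
  ∃ (r : ℕ) (e : (Fin r → ZMod N) →+ A) (m : Matrix (Fin r) (Fin r) (ZMod N)),
    Function.Injective e ∧ e.range = H ∧ (∀ x, f (e x) = e (m.mulVec x)) ∧ m.trace = t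

variable {N : ℕ} {H H1 : AddSubgroup A} {H2 : AddSubgroup B} {f f' : A → A} {g : B → B}
  {t t' t1 t2 : ZMod N}

/-- the homomorphism on `H` -/
def AddOn.hom {j : A → B} (ha : AddOn H j) : H →+ B :=
  AddMonoidHom.mk' (fun x => j x) fun x y => ha x x.2 y y.2

theorem AddOn.zero {j : A → B} (ha : AddOn H j) : j 0 = 0 := ha.hom.map_zero

theorem AddOn.sub {j : A → B} (ha : AddOn H j) {x y : A} (hx : x ∈ H) (hy : y ∈ H) :
    j (x - y) = j x - j y := ha.hom.map_sub ⟨x, hx⟩ ⟨y, hy⟩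

theorem AddOn.nsmul {j : A → B} (ha : AddOn H j) {x : A} (hx : x ∈ H) (n : ℕ) :
    j (n • x) = n • j x := ha.hom.map_nsmul n ⟨x, hx⟩

theorem AddOn.sum {j : A → B} (ha : AddOn H j) {ι : Type} [Fintype ι] {y : ι → A}
    (hy : ∀ i, y i ∈ H) (c : ι → ℤ) : j (∑ i, c i • y i) = ∑ i, c i • j (y i) := by
  have h := map_sum ha.hom (fun i => c i • (⟨y i, hy i⟩ : H)) Finset.univ
  simp only [map_zsmul] at h
  refine Eq.trans (congrArg j ?_) h
  simp

theorem tr_ext {ι κ : Type} [Fintype κ] [DecidableEq κ] {a b : Matrix ι κ (ZMod N)}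
    (h : ∀ x, a.mulVec x = b.mulVec x) : a = b := by
  ext i k
  simpa using congrFun (h (Pi.single k 1)) i

theorem tr_mat {ι κ : Type} [Fintype κ] [DecidableEq κ] (e : (ι → ZMod N) →+ A)
    (he : Function.Injective e) (φ : (κ → ZMod N) →+ A) (hφ : ∀ x, φ x ∈ e.range) :
    ∃ m : Matrix ι κ (ZMod N), ∀ x, φ x = e (m.mulVec x) := by
  choose u hu using hφ
  let ψ : (κ → ZMod N) →+ ι → ZMod N :=
    AddMonoidHom.mk' u fun a b => he (by rw [map_add, hu, hu, hu, map_add])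
  refine ⟨LinearMap.toMatrix' (ψ.toZModLinearMap N), fun x => ?_⟩
  rw [LinearMap.toMatrix'_mulVec]
  exact (hu x).symm

theorem tr_surj {ι : Type} (x : ι → ZMod N) : ∃ c : ι → ℤ, (fun i => (c i : ZMod N)) = x := by
  choose c hc using fun i => ZMod.intCast_surjective (x i)
  exact ⟨c, funext hc⟩

theorem tr_lift {ι : Type} [Fintype ι] (y : ι → A) (hy : ∀ i, N • y i = 0) :
    ∃ s : (ι → ZMod N) →+ A, ∀ c : ι → ℤ, s (fun i => (c i : ZMod N)) = ∑ i, c i • y i := by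
  refine ⟨∑ i, (ZMod.lift N ⟨zmultiplesHom A (y i), by simpa using hy i⟩).comp
    (Pi.evalAddMonoidHom (fun _ => ZMod N) i), fun c => ?_⟩
  rw [AddMonoidHom.finsetSum_apply]
  refine Finset.sum_congr rfl fun i _ => ?_
  rw [AddMonoidHom.comp_apply, Pi.evalAddMonoidHom_apply, ZMod.lift_coe]
  rfl

theorem tr_basis (hfin : (H : Set A).Finite) :
    ∃ (r : ℕ) (x : Fin r → A), (∀ i, x i ∈ H) ∧ (∀ i, 2 • x i = 0) ∧
      (∀ c : Fin r → ℤ, ∑ i, c i • x i = 0 → ∀ i, 2 ∣ c i) ∧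
      ∀ z ∈ H, 2 • z = 0 → ∃ c : Fin r → ℤ, ∑ i, c i • x i = z := by
  let T : AddSubgroup A := H ⊓ tors A 2
  have : Finite T := (hfin.subset fun x hx => hx.1).to_subtype
  let _ : Module (ZMod 2) T := AddCommGroup.zmodModule fun x => Subtype.ext x.2.2
  let b := Module.finBasis (ZMod 2) T
  have e : ∀ c : _ → ℤ, ∑ i, c i • (b i : A) = ((∑ i, (c i : ZMod 2) • b i : T) : A) := by
    intro c
    simp only [Int.cast_smul_eq_zsmul]
    simp
  refine ⟨_, fun i => b i, fun i => (b i).2.1, fun i => (b i).2.2, fun c hc i => ?_,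
    fun z hz h2 => ?_⟩
  · rw [e] at hc
    have h1 := Fintype.linearIndependent_iff.1 b.linearIndependent _ (Subtype.ext hc) i
    exact_mod_cast (ZMod.intCast_zmod_eq_zero_iff_dvd _ _).1 h1
  · obtain ⟨c, hc⟩ := tr_surj (b.repr ⟨z, hz, h2⟩)
    refine ⟨c, ?_⟩
    rw [e]
    simp only [congrFun hc]
    rw [b.sum_repr]

theorem Fr.tr_div (h : Fr N H) {u v : ℕ} (hu : u ≠ 0) (hN : N = u * v) :
    ∀ x ∈ H, u • x = 0 → ∃ y ∈ H, x = v • y := by
  obtain ⟨r, e, he, rfl⟩ := h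
  rintro _ ⟨a, rfl⟩ h0
  rw [← map_nsmul] at h0
  have h1 := (injective_iff_map_eq_zero e).1 he _ h0
  have h2 : ∀ i, ∃ b, a i = v • b := by
    intro i
    obtain ⟨c, hc⟩ := ZMod.intCast_surjective (a i)
    have h3 : ((u * c : ℤ) : ZMod N) = 0 := by
      have := congrFun h1 i
      rw [Pi.smul_apply, nsmul_eq_mul, ← hc] at this
      exact_mod_cast this
    rw [ZMod.intCast_zmod_eq_zero_iff_dvd, hN, Nat.cast_mul,
      mul_dvd_mul_iff_left (by exact_mod_cast hu)] at h3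
    obtain ⟨d, rfl⟩ := h3
    exact ⟨d, by rw [← hc, nsmul_eq_mul]; push_cast; rfl⟩
  choose b hb using h2
  exact ⟨e b, ⟨b, rfl⟩, by rw [← map_nsmul]; exact congrArg e (funext hb)⟩

theorem HasTr.fr (h : HasTr N H f t) : Fr N H := by
  obtain ⟨r, e, -, he, hH, -⟩ := h
  exact ⟨r, e, he, hH⟩

theorem HasTr.endOn (h : HasTr N H f t) : EndOn H f := by
  obtain ⟨r, e, m, -, rfl, hm, -⟩ := h
  constructor
  · rintro _ ⟨a, rfl⟩
    exact ⟨_, (hm a).symm⟩
  · rintro _ ⟨a, rfl⟩ _ ⟨b, rfl⟩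
    rw [← map_add, hm, hm, hm, Matrix.mulVec_add, map_add]

theorem Fr.finite [NeZero N] (h : Fr N H) : (H : Set A).Finite := by
  obtain ⟨r, e, -, rfl⟩ := h
  exact Set.finite_range e

theorem Fr.smul_eq (h : Fr N H) : ∀ x ∈ H, N • x = 0 := by
  obtain ⟨r, e, -, rfl⟩ := h
  rintro _ ⟨a, rfl⟩
  have : N • a = 0 := funext fun i => by
    rw [Pi.smul_apply, nsmul_eq_mul, ZMod.natCast_self, zero_mul, Pi.zero_apply]
  rw [← map_nsmul, this, map_zero]

theorem exists_mat {ι : Type} [Fintype ι] [DecidableEq ι] (e : (ι → ZMod N) →+ A)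
    (he : Function.Injective e) (hf : EndOn e.range f) :
    ∃ m : Matrix ι ι (ZMod N), ∀ x, f (e x) = e (m.mulVec x) := by
  exact tr_mat e he (AddMonoidHom.mk' (fun x => f (e x)) fun a b => by
    rw [map_add, hf.2 _ ⟨a, rfl⟩ _ ⟨b, rfl⟩]) fun x => hf.1 _ ⟨x, rfl⟩

theorem hasTr_of_basis {ι : Type} [Fintype ι] [DecidableEq ι] (e : (ι → ZMod N) →+ A)
    (he : Function.Injective e) (hH : e.range = H) (m : Matrix ι ι (ZMod N))
    (hm : ∀ x, f (e x) = e (m.mulVec x)) : HasTr N H f m.trace := by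
  let σ := Fintype.equivFin ι
  let c : (Fin (Fintype.card ι) → ZMod N) →+ ι → ZMod N :=
    AddMonoidHom.mk' (fun x => x ∘ σ) fun _ _ => rfl
  have hc : Function.Bijective c := (σ.symm.arrowCongr (Equiv.refl (ZMod N))).bijective
  refine ⟨_, e.comp c, m.submatrix σ.symm σ.symm, he.comp hc.1, ?_, fun x => ?_, ?_⟩
  · rw [← hH]
    ext y
    constructor
    · rintro ⟨a, rfl⟩
      exact ⟨_, rfl⟩
    · rintro ⟨a, rfl⟩
      obtain ⟨b, rfl⟩ := hc.2 a
      exact ⟨b, rfl⟩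
  · rw [AddMonoidHom.comp_apply, AddMonoidHom.comp_apply, hm, Matrix.submatrix_mulVec_equiv]
    refine congrArg e (funext fun i => ?_)
    change _ = m.mulVec (x ∘ σ) (σ.symm (σ i))
    rw [σ.symm_apply_apply]
    rfl
  · exact σ.symm.sum_comp fun i => m i i

theorem Fr.exists_tr (h : Fr N H) (hf : EndOn H f) : ∃ t, HasTr N H f t := by
  obtain ⟨r, e, he, rfl⟩ := h
  obtain ⟨m, hm⟩ := exists_mat e he hf
  exact ⟨_, r, e, m, he, rfl, hm, rfl⟩

theorem HasTr.unique (h : HasTr N H f t) (h' : HasTr N H f t') : t = t' := by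
  obtain ⟨r, e, m, he, hH, hm, rfl⟩ := h
  obtain ⟨r', e', m', he', hH', hm', rfl⟩ := h'
  obtain ⟨a, ha⟩ := tr_mat e he e' fun x => by rw [hH, ← hH']; exact ⟨x, rfl⟩
  obtain ⟨b, hb⟩ := tr_mat e' he' e fun x => by rw [hH', ← hH]; exact ⟨x, rfl⟩
  have h1 : a * b = 1 := tr_ext fun x => he (by
    rw [← Matrix.mulVec_mulVec, ← ha, ← hb, Matrix.one_mulVec])
  have h2 : b * a = 1 := tr_ext fun x => he' (by
    rw [← Matrix.mulVec_mulVec, ← hb, ← ha, Matrix.one_mulVec])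
  have h3 : m * a = a * m' := tr_ext fun x => he (by
    rw [← Matrix.mulVec_mulVec, ← Matrix.mulVec_mulVec, ← hm, ← ha, ← ha, hm'])
  rw [← Matrix.mul_one m, ← h1, ← Matrix.mul_assoc, h3, Matrix.mul_assoc, Matrix.trace_mul_comm,
    Matrix.mul_assoc, h2, Matrix.mul_one]

theorem HasTr.congr (h : HasTr N H f t) (hf : ∀ x ∈ H, f x = f' x) : HasTr N H f' t := by
  obtain ⟨r, e, m, he, rfl, hm, ht⟩ := h
  exact ⟨r, e, m, he, rfl, fun x => by rw [← hf _ ⟨x, rfl⟩, hm], ht⟩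

theorem HasTr.map (h : HasTr N H f t) {j : A → B} (ha : AddOn H j) (hi : Set.InjOn j H)
    (hs : j '' H = H2) (hc : ∀ x ∈ H, j (f x) = g (j x)) : HasTr N H2 g t := by
  obtain ⟨r, e, m, he, rfl, hm, ht⟩ := h
  refine ⟨r, AddMonoidHom.mk' (fun x => j (e x)) fun a b => by
    rw [map_add, ha _ ⟨a, rfl⟩ _ ⟨b, rfl⟩], m, fun a b hab => he (hi ⟨a, rfl⟩ ⟨b, rfl⟩ hab), ?_,
    fun x => ?_, ht⟩
  · ext y
    rw [← SetLike.mem_coe (p := H2), ← hs]
    constructor
    · rintro ⟨a, rfl⟩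
      exact ⟨_, ⟨a, rfl⟩, rfl⟩
    · rintro ⟨_, ⟨a, rfl⟩, rfl⟩
      exact ⟨a, rfl⟩
  · change g (j (e x)) = j (e _)
    rw [← hc _ ⟨x, rfl⟩, hm]

theorem HasTr.comap (h : HasTr N H2 g t) {j : A → B} (ha : AddOn H j) (hi : Set.InjOn j H)
    (hs : j '' H = H2) (hf : ∀ x ∈ H, f x ∈ H) (hc : ∀ x ∈ H, j (f x) = g (j x)) :
    HasTr N H f t := by
  obtain ⟨r, e, m, he, rfl, hm, ht⟩ := h
  have h1 : ∀ x, ∃ y ∈ H, j y = e x := fun x => by
    have : e x ∈ j '' H := by rw [hs]; exact ⟨x, rfl⟩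
    exact this
  choose u hu hj using h1
  refine ⟨r, AddMonoidHom.mk' u fun a b => hi (hu _) (H.add_mem (hu a) (hu b)) (by
    rw [ha _ (hu a) _ (hu b), hj, hj, hj, map_add]), m,
    fun a b hab => he (by rw [← hj, ← hj]; exact congrArg j hab), ?_, fun x => ?_, ht⟩
  · ext y
    constructor
    · rintro ⟨a, rfl⟩
      exact hu a
    · intro hy
      have : j y ∈ (e.range : Set B) := hs ▸ ⟨y, hy, rfl⟩
      obtain ⟨a, h2⟩ := this
      exact ⟨a, hi (hu a) hy ((hj a).trans h2)⟩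
  · refine hi (hf _ (hu x)) (hu _) ?_
    change j (f (u x)) = j (u _)
    rw [hc _ (hu x), hj, hj, hm]

theorem HasTr.add (h1 : HasTr N H1 f t1) (h2 : HasTr N H2 g t2) {j : A → B} (ha : AddOn H j)
    (hk : ∀ x, x ∈ H1 ↔ x ∈ H ∧ j x = 0) (hs : j '' H = H2) (hf : EndOn H f)
    (hN : ∀ x ∈ H, N • x = 0) (hc : ∀ x ∈ H, j (f x) = g (j x)) : HasTr N H f (t1 + t2) := by
  obtain ⟨r1, e1, m1, he1, rfl, hm1, rfl⟩ := h1
  obtain ⟨r2, e2, m2, he2, rfl, hm2, rfl⟩ := h2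
  have k1 : ∀ i, ∃ y ∈ H, j y = e2 (Pi.single i 1) := fun i => by
    have : e2 (Pi.single i 1) ∈ j '' H := by rw [hs]; exact ⟨_, rfl⟩
    exact this
  choose y hy hj using k1
  obtain ⟨s, hs'⟩ := tr_lift y fun i => hN _ (hy i)
  have k2 : ∀ x, s x ∈ H ∧ j (s x) = e2 x := by
    intro x
    obtain ⟨c, rfl⟩ := tr_surj x
    rw [hs']
    refine ⟨H.sum_mem fun i _ => H.zsmul_mem (hy i) _, ?_⟩
    rw [ha.sum hy]
    simp only [hj, ← map_zsmul, ← map_sum]
    refine congrArg e2 (funext fun i => ?_)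
    simp [Pi.single_apply]
  have k3 : ∀ x, e1 x ∈ H ∧ j (e1 x) = 0 := fun x => (hk _).1 ⟨x, rfl⟩
  obtain ⟨c, hc'⟩ := tr_mat e1 he1 (AddMonoidHom.mk' (fun x => f (s x) - s (m2.mulVec x))
    fun a b => by
      rw [map_add, hf.2 _ (k2 a).1 _ (k2 b).1, Matrix.mulVec_add, map_add]
      abel) fun x => (hk _).2 ⟨H.sub_mem (hf.1 _ (k2 x).1) (k2 _).1, by
    change j (f (s x) - s (m2.mulVec x)) = 0
    rw [ha.sub (hf.1 _ (k2 x).1) (k2 _).1, hc _ (k2 x).1, (k2 x).2, (k2 _).2, hm2, sub_self]⟩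
  let E : (Fin r1 ⊕ Fin r2 → ZMod N) →+ A :=
    AddMonoidHom.mk' (fun x => e1 (x ∘ Sum.inl) + s (x ∘ Sum.inr)) fun a b => by
      rw [show (a + b) ∘ Sum.inl = a ∘ Sum.inl + b ∘ Sum.inl from rfl,
        show (a + b) ∘ Sum.inr = a ∘ Sum.inr + b ∘ Sum.inr from rfl, map_add, map_add]
      abel
  have hE : ∀ x, E x = e1 (x ∘ Sum.inl) + s (x ∘ Sum.inr) := fun _ => rfl
  have key := hasTr_of_basis (f := f) (H := H) E ?_ ?_ (Matrix.fromBlocks m1 c 0 m2) ?_
  · have e : (Matrix.fromBlocks m1 c 0 m2).trace = m1.trace + m2.trace := by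
      simp [Matrix.trace]
    rwa [e] at key
  · refine (injective_iff_map_eq_zero E).2 fun x hx => ?_
    rw [hE] at hx
    have a1 := congrArg j hx
    rw [ha _ (k3 _).1 _ (k2 _).1, (k3 _).2, (k2 _).2, zero_add, ha.zero] at a1
    have a2 := (injective_iff_map_eq_zero e2).1 he2 _ a1
    rw [a2, map_zero, add_zero] at hx
    have a3 := (injective_iff_map_eq_zero e1).1 he1 _ hx
    funext i
    rcases i with i | i
    · exact congrFun a3 i
    · exact congrFun a2 i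
  · ext z
    constructor
    · rintro ⟨x, rfl⟩
      exact H.add_mem (k3 _).1 (k2 _).1
    · intro hz
      have : j z ∈ (e2.range : Set B) := hs ▸ ⟨z, hz, rfl⟩
      obtain ⟨b, hb⟩ := this
      obtain ⟨a, h3⟩ := (hk (z - s b)).2 ⟨H.sub_mem hz (k2 b).1, by
        rw [ha.sub hz (k2 b).1, (k2 b).2, hb, sub_self]⟩
      refine ⟨Sum.elim a b, ?_⟩
      rw [hE, Sum.elim_comp_inl, Sum.elim_comp_inr, h3, sub_add_cancel]
  · intro x
    have a1 : f (s (x ∘ Sum.inr)) - s (m2.mulVec (x ∘ Sum.inr)) = _ := hc' (x ∘ Sum.inr)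
    rw [hE, hE, Matrix.fromBlocks_mulVec, Sum.elim_comp_inl, Sum.elim_comp_inr, Matrix.zero_mulVec,
      zero_add, hf.2 _ (k3 _).1 _ (k2 _).1, hm1, map_add, ← a1]
    abel

theorem hasTr_perm {X : Type} [Fintype X] [DecidableEq X] (π : X → X) (q : ZMod N) :
    HasTr N ⊤ (fun (F : X → ZMod N) s => q * F (π s))
      (q * (Finset.univ.filter fun s => π s = s).card) := by
  have key := hasTr_of_basis (f := fun (F : X → ZMod N) s => q * F (π s)) (H := ⊤)
    (AddMonoidHom.id (X → ZMod N)) Function.injective_id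
    (AddMonoidHom.range_eq_top.2 Function.surjective_id)
    (Matrix.of fun s s' => if π s = s' then q else 0) fun x => funext fun s => by
      simp [Matrix.mulVec, dotProduct]
  have e : (Matrix.of fun s s' => if π s = s' then q else 0).trace =
      q * (Finset.univ.filter fun s => π s = s).card := by
    rw [Matrix.trace, mul_comm, ← nsmul_eq_mul, ← Finset.sum_const, Finset.sum_filter]
    rfl
  rwa [e] at key

theorem hasTr_one (q : ZMod N) : HasTr N ⊤ (fun a : ZMod N => q * a) q := by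
  have key := hasTr_of_basis (f := fun a : ZMod N => q * a) (H := ⊤)
    (Pi.evalAddMonoidHom (fun _ : Unit => ZMod N) ()) (fun a b h => funext fun _ => h)
    (AddMonoidHom.range_eq_top.2 fun a => ⟨fun _ => a, rfl⟩) (Matrix.of fun _ _ => q) fun x => by
      simp [Matrix.mulVec, dotProduct]
  have e : (Matrix.of fun (_ _ : Unit) => q).trace = q := by simp [Matrix.trace]
  rwa [e] at key

section two

variable {J : ℕ}

theorem fr_of_crit (hfin : (H : Set A).Finite) (hN : ∀ x ∈ H, 2 ^ (J + 1) • x = 0)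
    (h : ∀ x ∈ H, 2 • x = 0 → ∃ y ∈ H, x = 2 ^ J • y) : Fr (2 ^ (J + 1)) H := by
  obtain ⟨r, x, hx, hx2, hind, hsp⟩ := tr_basis hfin
  choose y hy hxy using fun i => h (x i) (hx i) (hx2 i)
  obtain ⟨s, hs⟩ := tr_lift y fun i => hN _ (hy i)
  have e1 : ∀ (a : ℕ) (c : Fin r → ℤ), a ≤ J →
      2 ^ a • ∑ i, (2 ^ (J - a) * c i) • y i = ∑ i, c i • x i := by
    intro a c ha
    rw [Finset.smul_sum]
    refine Finset.sum_congr rfl fun i _ => ?_
    rw [hxy, ← natCast_zsmul, ← natCast_zsmul, smul_smul, smul_smul, Nat.cast_pow, Nat.cast_pow,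
      Nat.cast_ofNat, ← mul_assoc, ← pow_add, Nat.add_sub_cancel' ha, mul_comm]
  refine ⟨r, s, (injective_iff_map_eq_zero s).2 fun z hz => ?_, ?_⟩
  · obtain ⟨c, rfl⟩ := tr_surj z
    rw [hs] at hz
    have key : ∀ a ≤ J + 1, ∀ i, 2 ^ a ∣ c i := by
      intro a
      induction a with
      | zero => intro _ i; simp
      | succ a ih =>
        intro ha
        choose c' hc' using ih (by omega)
        have e2 : ∑ i, c' i • x i = 0 := by
          rw [← e1 a c' (by omega), ← smul_zero (2 ^ (J - a) : ℕ), ← hz, Finset.smul_sum,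
            Finset.smul_sum]
          refine Finset.sum_congr rfl fun i _ => ?_
          rw [hc', ← natCast_zsmul, ← natCast_zsmul, smul_smul, smul_smul]
          push_cast
          rw [mul_left_comm]
        intro i
        rw [hc', pow_succ]
        exact mul_dvd_mul_left _ (hind c' e2 i)
    funext i
    exact (ZMod.intCast_zmod_eq_zero_iff_dvd _ _).2 (by exact_mod_cast key _ le_rfl i)
  · have k1 : ∀ z ∈ s.range, z ∈ H := by
      rintro _ ⟨z, rfl⟩
      obtain ⟨c, rfl⟩ := tr_surj z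
      rw [hs]
      exact H.sum_mem fun i _ => H.zsmul_mem (hy i) _
    have key : ∀ a ≤ J + 1, ∀ z ∈ H, 2 ^ a • z = 0 → z ∈ s.range := by
      intro a
      induction a with
      | zero =>
        intro _ z _ hz
        rw [pow_zero, one_smul] at hz
        rw [hz]
        exact zero_mem _
      | succ a ih =>
        intro ha z hz h0
        obtain ⟨c, hc⟩ := hsp (2 ^ a • z) (H.nsmul_mem hz _) (by
          rw [smul_smul, ← pow_succ', h0])
        have hw : ∑ i, (2 ^ (J - a) * c i) • y i ∈ s.range := ⟨_, hs _⟩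
        have := ih (by omega) _ (H.sub_mem hz (k1 _ hw)) (by
          rw [smul_sub, e1 a c (by omega), hc, sub_self])
        simpa using add_mem this hw
    exact le_antisymm k1 fun z hz => key _ le_rfl z hz (hN z hz)

theorem Fr.crit (h : Fr (2 ^ (J + 1)) H) : ∀ x ∈ H, 2 • x = 0 → ∃ y ∈ H, x = 2 ^ J • y := by
  exact h.tr_div two_ne_zero (pow_succ' 2 J)

theorem Fr.div (h : Fr (2 ^ (J + 1)) H) : ∀ x ∈ H, 2 ^ J • x = 0 → ∃ y ∈ H, x = 2 • y := by
  exact h.tr_div (pow_ne_zero J two_ne_zero) (pow_succ 2 J)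

variable {s s1 s2 : ZMod (2 ^ (J + 1))}

theorem HasTr.quot (h1 : HasTr (2 ^ (J + 1)) H1 f s1) (h : HasTr (2 ^ (J + 1)) H f s) {j : A → B}
    (ha : AddOn H j) (hk : ∀ x, x ∈ H1 ↔ x ∈ H ∧ j x = 0) (hs : j '' H = H2)
    (hc : ∀ x ∈ H, j (f x) = g (j x)) : HasTr (2 ^ (J + 1)) H2 g (s - s1) := by
  have hf := h.endOn
  have m2 : ∀ z ∈ H2, ∃ x ∈ H, j x = z := fun z hz => by
    have : z ∈ j '' H := by rw [hs]; exact hz
    exact this
  have m3 : ∀ x ∈ H, j x ∈ H2 := fun x hx => by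
    have : j x ∈ (H2 : Set B) := hs ▸ ⟨x, hx, rfl⟩
    exact this
  have hfr : Fr (2 ^ (J + 1)) H2 := by
    refine fr_of_crit (hs ▸ h.fr.finite.image j) (fun z hz => ?_) fun z hz h0 => ?_
    · obtain ⟨x, hx, rfl⟩ := m2 z hz
      rw [← ha.nsmul hx, h.fr.smul_eq x hx, ha.zero]
    · obtain ⟨x, hx, rfl⟩ := m2 z hz
      obtain ⟨y, hy, e⟩ := h1.fr.div (2 • x) ((hk _).2 ⟨H.nsmul_mem hx 2, by
        rw [ha.nsmul hx, h0]⟩) (by rw [smul_smul, ← pow_succ, h.fr.smul_eq x hx])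
      obtain ⟨hy1, hy2⟩ := (hk y).1 hy
      obtain ⟨w, hw, e'⟩ := h.fr.crit (x - y) (H.sub_mem hx hy1) (by rw [smul_sub, e, sub_self])
      exact ⟨j w, m3 w hw, by rw [← ha.nsmul hw, ← e', ha.sub hx hy1, hy2, sub_zero]⟩
  have hg : EndOn H2 g := by
    refine ⟨fun z hz => ?_, fun z hz z' hz' => ?_⟩
    · obtain ⟨x, hx, rfl⟩ := m2 z hz
      rw [← hc x hx]
      exact m3 _ (hf.1 x hx)
    · obtain ⟨x, hx, rfl⟩ := m2 z hz
      obtain ⟨x', hx', rfl⟩ := m2 z' hz'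
      rw [← ha x hx x' hx', ← hc _ (H.add_mem hx hx'), hf.2 x hx x' hx',
        ha _ (hf.1 x hx) _ (hf.1 x' hx'), hc x hx, hc x' hx']
  obtain ⟨u, hu⟩ := hfr.exists_tr hg
  rw [h.unique (h1.add hu ha hk hs hf h.fr.smul_eq hc), add_sub_cancel_left]
  exact hu

theorem HasTr.ker (h2 : HasTr (2 ^ (J + 1)) H2 g s2) (h : HasTr (2 ^ (J + 1)) H f s) {j : A → B}
    (ha : AddOn H j) (hk : ∀ x, x ∈ H1 ↔ x ∈ H ∧ j x = 0) (hs : j '' H = H2)
    (hc : ∀ x ∈ H, j (f x) = g (j x)) : HasTr (2 ^ (J + 1)) H1 f (s - s2) := by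
  have hf := h.endOn
  have m2 : ∀ z ∈ H2, ∃ x ∈ H, j x = z := fun z hz => by
    have : z ∈ j '' H := by rw [hs]; exact hz
    exact this
  have m3 : ∀ x ∈ H, j x ∈ H2 := fun x hx => by
    have : j x ∈ (H2 : Set B) := hs ▸ ⟨x, hx, rfl⟩
    exact this
  have hfr : Fr (2 ^ (J + 1)) H1 := by
    refine fr_of_crit (h.fr.finite.subset fun x hx => ((hk x).1 hx).1)
      (fun x hx => h.fr.smul_eq x ((hk x).1 hx).1) fun x hx h0 => ?_
    obtain ⟨hx1, hx2⟩ := (hk x).1 hx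
    obtain ⟨y, hy, e⟩ := h.fr.crit x hx1 h0
    obtain ⟨z, hz, e'⟩ := h2.fr.div (j y) (m3 y hy) (by rw [← ha.nsmul hy, ← e, hx2])
    obtain ⟨w, hw, rfl⟩ := m2 z hz
    refine ⟨y - 2 • w, (hk _).2 ⟨H.sub_mem hy (H.nsmul_mem hw 2), ?_⟩, ?_⟩
    · rw [ha.sub hy (H.nsmul_mem hw 2), ha.nsmul hw, e', sub_self]
    · rw [smul_sub, smul_smul, ← pow_succ, h.fr.smul_eq w hw, sub_zero, e]
  have hg : EndOn H1 f := by
    refine ⟨fun x hx => ?_, fun x hx y hy => hf.2 x ((hk x).1 hx).1 y ((hk y).1 hy).1⟩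
    obtain ⟨hx1, hx2⟩ := (hk x).1 hx
    exact (hk _).2 ⟨hf.1 x hx1, by rw [hc x hx1, hx2, h2.endOn.2.zero]⟩
  obtain ⟨u, hu⟩ := hfr.exists_tr hg
  rw [h.unique (hu.add h2 ha hk hs hf h.fr.smul_eq hc), add_sub_cancel_right]
  exact hu

theorem hasTr_proj {ι : Type} [Fintype ι] [DecidableEq ι] (K : AddSubgroup (ι → ZMod (2 ^ (J + 1))))
    (m p : Matrix ι ι (ZMod (2 ^ (J + 1)))) (hp : ∀ x, p.mulVec x ∈ K)
    (hp' : ∀ x ∈ K, p.mulVec x = x) (hm : ∀ x ∈ K, m.mulVec x ∈ K) :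
    HasTr (2 ^ (J + 1)) K m.mulVec (m * p).trace := by
  have htop : Fr (2 ^ (J + 1)) (⊤ : AddSubgroup (ι → ZMod (2 ^ (J + 1)))) :=
    (hasTr_perm (id : ι → ι) 1).fr
  have hfr : Fr (2 ^ (J + 1)) K := by
    refine fr_of_crit (Set.toFinite _) (fun x _ => htop.smul_eq x trivial) fun x hx h0 => ?_
    obtain ⟨y, -, e⟩ := htop.crit x trivial h0
    exact ⟨_, hp y, by rw [← Matrix.mulVec_smul, ← e, hp' x hx]⟩
  obtain ⟨r, e, he, rfl⟩ := hfr
  obtain ⟨E, hE⟩ := tr_mat (AddMonoidHom.id _) Function.injective_id e fun x => ⟨_, rfl⟩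
  obtain ⟨p', hq⟩ := tr_mat e he (AddMonoidHom.mk' p.mulVec p.mulVec_add) hp
  obtain ⟨m', hm'⟩ := exists_mat (f := m.mulVec) e he ⟨hm, fun x _ y _ => m.mulVec_add x y⟩
  have hE' : ∀ x, e x = E.mulVec x := hE
  have hq' : ∀ x, p.mulVec x = e (p'.mulVec x) := hq
  have h1 : p' * E = 1 := tr_ext fun x => he (by
    rw [← Matrix.mulVec_mulVec, ← hq', ← hE', hp' _ ⟨x, rfl⟩, Matrix.one_mulVec])
  have h2 : m * p = E * (m' * p') := tr_ext fun x => by
    rw [← Matrix.mulVec_mulVec, hq', hm', hE', Matrix.mulVec_mulVec, Matrix.mulVec_mulVec,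
      Matrix.mul_assoc]
  refine ⟨r, e, m', he, rfl, hm', ?_⟩
  rw [h2, Matrix.trace_mul_comm, Matrix.mul_assoc, h1, Matrix.mul_one]

/-- functions with sum zero -/
def sumZ (X : Type) [Fintype X] (N : ℕ) : AddSubgroup (X → ZMod N) where
  carrier := {F | ∑ s, F s = 0}
  add_mem' {a b} ha hb := by
    simp only [Set.mem_ofPred_eq, Pi.add_apply] at *
    rw [Finset.sum_add_distrib, ha, hb, add_zero]
  zero_mem' := by simp
  neg_mem' {a} ha := by
    simp only [Set.mem_ofPred_eq, Pi.neg_apply] at *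
    rw [Finset.sum_neg_distrib, ha, neg_zero]

theorem hasTr_sumZ {X : Type} [Fintype X] [DecidableEq X] [Nonempty X] (π : Equiv.Perm X) :
    HasTr (2 ^ (J + 1)) (sumZ X (2 ^ (J + 1))) (fun F s => F (π s))
      (((Finset.univ.filter fun s => π s = s).card : ZMod (2 ^ (J + 1))) - 1) := by
  have h1 := hasTr_perm (N := 2 ^ (J + 1)) π 1
  rw [one_mul] at h1
  have h2 := HasTr.ker (H1 := sumZ X (2 ^ (J + 1))) (hasTr_one 1) h1 (j := fun F => ∑ s, F s)
    (fun x _ y _ => Finset.sum_add_distrib) (fun x => ⟨fun hx => ⟨trivial, hx⟩, fun hx => hx.2⟩)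
    (Set.eq_univ_of_forall fun a => ⟨Pi.single (Classical.arbitrary X) a, trivial, by simp⟩)
    fun x _ => by
      simp only [one_mul]
      exact Equiv.sum_comp π x
  exact h2.congr fun x _ => funext fun s => one_mul _

end two

end Pool.Agent.Lef
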