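import Pool.Agent.Work.MP_60d5ce_nt.Lb.Kum
import Pool.Agent.Work.MP_60d5ce_nt.Qt.GalBasic
import Pool.Agent.Work.MP_60d5ce_nt.Qt.Tsen
import Pool.Agent.Work.MP_60d5ce_nt.Qt.Brauer
import Pool.Agent.Work.MP_60d5ce_nt.Lb.Ext

-- merged part: Pool.Agent.Work.MP_60d5ce_nt.Lb.HD
section
/-!
# Invariant divisor classes and their commutator forms  (task LB HD)

* `common_eigen`: induction on the finite set of operators, for an invariant subspace `V ≠ ⊥`: `T ^ n = 1` on `V` and `X ^ n - 1` splits, so some `T - λ` is not injective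
  on `V`; pass to `V ⊓ ker (T - λ)`.
* `hd_zero`: `Γ = L ≃ₐ[K] L` is abelian and killed by `N` (`IsKF.fix`, `kc_mul`, `kc_pow`, `AlgEquiv.restrictNormalHom_surjective`).  Choose lifts `σ g` of `g ∈ Γ`; the `κ`-linear
  operators `T g v = c (σ g) * g v` on `L` commute; `T g ^ N` is the multiplication by `n = ∏ g ^ k (c g)`, and `n ^ N = 1` since `g ^ N H = n ^ N * H`; so `n` is fixed by `g`
  (a root of unity, so a constant) and `T g ^ (N * N) = 1`.  With the common eigenvector `v`, the function `H1 = H * v ^ N` satisfies `g H1 = constant * H1`, so `dv H1` is invariant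
  (`ord_smul`, `exists_smul`, `exists_descend`); `dg_con`, `dg_dv` give `dg D = 0`, and `N ∣ D y - z y` for all `y` (`res_surj`).
-/

namespace Pool.Agent.Lef

open PR0 Pool.Agent.Ell.AT

theorem HD_eig {κ V : Type} [Field κ] [AddCommGroup V] [Module κ V] (T : Module.End κ V)
    (W : Submodule κ V) (hW : ∀ v ∈ W, T v ∈ W) (m : Multiset κ) :
    ∀ w ∈ W, w ≠ 0 →
      Polynomial.aeval T (m.map fun a => Polynomial.X - Polynomial.C a).prod w = 0 →
      ∃ (l : κ) (v : V), v ∈ W ∧ v ≠ 0 ∧ T v = l • v := by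
  induction m using Multiset.induction_on with
  | empty =>
    intro w _ hw0 h
    exact absurd (by simpa using h) hw0
  | cons a m ih =>
    intro w hw hw0 h
    by_cases e : T w - a • w = 0
    · exact ⟨a, w, hw, hw0, sub_eq_zero.1 e⟩
    · refine ih _ (W.sub_mem (hW w hw) (W.smul_mem a hw)) e ?_
      rw [Multiset.map_cons, Multiset.prod_cons, mul_comm, map_mul, Module.End.mul_apply, map_sub,
        Polynomial.aeval_X, Polynomial.aeval_C, LinearMap.sub_apply,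
        Module.algebraMap_end_apply] at h
      exact h

theorem common_eigen {κ V ι : Type} [Field κ] [IsAlgClosed κ] [AddCommGroup V] [Module κ V]
    [Nontrivial V] [Finite ι] (T : ι → Module.End κ V) (hc : ∀ i j, T i * T j = T j * T i)
    (hn : ∀ i, ∃ n, n ≠ 0 ∧ T i ^ n = 1) : ∃ v : V, v ≠ 0 ∧ ∀ i, ∃ l : κ, l ≠ 0 ∧ T i v = l • v := by
  classical
  have := Fintype.ofFinite ι
  have key : ∀ s : Finset ι, ∃ W : Submodule κ V, (∃ w ∈ W, w ≠ 0) ∧ (∀ j, ∀ v ∈ W, T j v ∈ W) ∧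
      ∀ i ∈ s, ∃ l : κ, ∀ v ∈ W, T i v = l • v := by
    intro s
    induction s using Finset.induction_on with
    | empty =>
      obtain ⟨w, hw⟩ := exists_ne (0 : V)
      exact ⟨⊤, ⟨w, trivial, hw⟩, fun _ _ _ => trivial, fun i hi => absurd hi (by simp)⟩
    | insert i s _ ih =>
      obtain ⟨W, ⟨w, hw, hw0⟩, h2, h3⟩ := ih
      obtain ⟨n, hn0, hn1⟩ := hn i
      have hm : (Polynomial.X ^ n - Polynomial.C 1 : Polynomial κ).Monic :=
        Polynomial.monic_X_pow_sub_C 1 hn0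
      obtain ⟨l, v, hv, hv0, hl⟩ := HD_eig (T i) W (h2 i) _ w hw hw0 (by
        rw [← (IsAlgClosed.splits _).eq_prod_roots_of_monic hm, map_sub, map_pow,
          Polynomial.aeval_X, hn1, Polynomial.C_1, map_one, sub_self, LinearMap.zero_apply])
      have hk : ∀ u, u ∈ LinearMap.ker (T i - l • (1 : Module.End κ V)) ↔ T i u = l • u :=
        fun u => by
          rw [LinearMap.mem_ker, LinearMap.sub_apply, LinearMap.smul_apply, Module.End.one_apply,
            sub_eq_zero]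
      refine ⟨W ⊓ LinearMap.ker (T i - l • (1 : Module.End κ V)), ⟨v, ⟨hv, (hk v).2 hl⟩, hv0⟩,
        fun j u hu => ⟨h2 j u hu.1, (hk _).2 ?_⟩, fun j hj => ?_⟩
      · rw [← Module.End.mul_apply, hc i j, Module.End.mul_apply, (hk u).1 hu.2, map_smul]
      · rcases Finset.mem_insert.1 hj with rfl | hj
        · exact ⟨l, fun u hu => (hk u).1 hu.2⟩
        · obtain ⟨l', hl'⟩ := h3 j hj
          exact ⟨l', fun u hu => hl' u hu.1⟩
  obtain ⟨W, ⟨w, hw, hw0⟩, -, h3⟩ := key Finset.univ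
  refine ⟨w, hw0, fun i => ?_⟩
  obtain ⟨l, hl⟩ := h3 i (Finset.mem_univ i)
  refine ⟨l, ?_, hl w hw⟩
  rintro rfl
  obtain ⟨n, hn0, hn1⟩ := hn i
  obtain ⟨m, rfl⟩ := Nat.exists_eq_succ_of_ne_zero hn0
  have e := LinearMap.congr_fun hn1 w
  rw [pow_succ, Module.End.mul_apply, hl w hw, zero_smul, map_zero, Module.End.one_apply] at e
  exact hw0 e.symm

variable {κ K Ω : Type} [Field κ] [Field K] [Field Ω] [Algebra κ K] [Algebra K Ω]
  [Algebra κ Ω] [IsScalarTower κ K Ω] [Algebra.IsAlgebraic K Ω]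

/-- a function on `L` whose divisor is invariant modulo `N`, with commutator form `B` and degree `t` -/
def IsHD (ζ : κ) (N : ℕ) (L : IntermediateField K Ω)
    (B : (Ω ≃ₐ[K] Ω) → (Ω ≃ₐ[K] Ω) → ZMod N) (t : ZMod N) : Prop :=
  ∃ (H : L) (c : (Ω ≃ₐ[K] Ω) → L) (z : Dv κ K), H ≠ 0 ∧
    (∀ σ : Ω ≃ₐ[K] Ω, σ H = (c σ : Ω) ^ N * H) ∧
    (∀ σ σ' : Ω ≃ₐ[K] Ω, (c σ : Ω) * σ (c σ') =
      algebraMap κ Ω (ζ ^ (B σ σ').val) * ((c σ' : Ω) * σ' (c σ))) ∧
    (∀ x : Place κ L, (N : ℤ) ∣ x.ord H - z (res K x)) ∧ ((dg z : ℤ) : ZMod N) = t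

variable [IsAlgClosed κ] [Fact (IsFF κ K)] [IsAlgClosed Ω] {ζ : κ} {N : ℕ} (hN : N ≠ 0)
  (hζ : IsPrimitiveRoot ζ N) {L : IntermediateField K Ω} [FiniteDimensional K L] [IsGalois K L]
  [Fact (IsFF κ L)] {B B' : (Ω ≃ₐ[K] Ω) → (Ω ≃ₐ[K] Ω) → ZMod N} {t t' : ZMod N}

include hN hζ

theorem isHD_zero : IsHD ζ N L (fun _ _ => 0) 0 := by
  refine ⟨1, fun _ => 1, 0, one_ne_zero, fun σ => by simp, fun σ σ' => by simp, fun x => ?_, ?_⟩
  · have e : x.ord (1 : L) = 0 := by simpa using x.ord_const (c := 1) one_ne_zero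
    rw [e]
    simp
  · rw [rr_dg_zero, Int.cast_zero]

theorem IsHD.add (h : IsHD ζ N L B t) (h' : IsHD ζ N L B' t') :
    IsHD ζ N L (fun σ σ' => B σ σ' + B' σ σ') (t + t') := by
  obtain ⟨H, c, z, h0, h1, h2, h3, h4⟩ := h
  obtain ⟨H', c', z', h0', h1', h2', h3', h4'⟩ := h'
  have : NeZero N := ⟨hN⟩
  refine ⟨H * H', fun σ => c σ * c' σ, z + z', mul_ne_zero h0 h0', fun σ => ?_, fun σ σ' => ?_,
    fun x => ?_, ?_⟩
  · push_cast
    rw [map_mul, h1, h1']
    ring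
  · have e : ζ ^ (B σ σ' + B' σ σ').val = ζ ^ (B σ σ').val * ζ ^ (B' σ σ').val := by
      rw [ZMod.val_add, ← pow_eq_pow_mod _ hζ.pow_eq_one, pow_add]
    simp only [MulMemClass.coe_mul]
    rw [e, map_mul, map_mul, map_mul, mul_mul_mul_comm, h2, h2']
    ring
  · rw [x.ord_mul h0 h0', Finsupp.add_apply, ← sub_add_sub_comm]
    exact dvd_add (h3 x) (h3' x)
  · rw [dg_add, Int.cast_add, h4, h4']

theorem IsHD.nsmul (h : IsHD ζ N L B t) (n : ℕ) :
    IsHD ζ N L (fun σ σ' => n * B σ σ') (n * t) := by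
  induction n with
  | zero => simpa using isHD_zero (L := L) hN hζ
  | succ n ih => simpa [add_mul] using ih.add hN hζ h

theorem isHD_sum {ι : Type} (s : Finset ι) {B : ι → (Ω ≃ₐ[K] Ω) → (Ω ≃ₐ[K] Ω) → ZMod N}
    {t : ι → ZMod N} (h : ∀ i ∈ s, IsHD ζ N L (B i) (t i)) :
    IsHD ζ N L (fun σ σ' => ∑ i ∈ s, B i σ σ') (∑ i ∈ s, t i) := by
  induction s using Finset.cons_induction with
  | empty => simpa using isHD_zero (L := L) hN hζ
  | cons i s hi ih =>
    simp only [Finset.sum_cons]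
    exact (h i (Finset.mem_cons_self i s)).add hN hζ
      (ih fun j hj => h j (Finset.mem_cons.2 (Or.inr hj)))

theorem hd_zero (hL : IsKF ζ N L) (h : IsHD ζ N L (fun _ _ => 0) t) : t = 0 := by
  obtain ⟨H, c, z, h0, h1, h2, h3, h4⟩ := h
  have : IsAlgClosure K Ω := ⟨inferInstance, inferInstance⟩
  let r : (Ω ≃ₐ[K] Ω) →* (L ≃ₐ[K] L) := AlgEquiv.restrictNormalHom L
  have hr : ∀ σ (a : L), (r σ a : Ω) = σ a := fun σ a => AlgEquiv.restrictNormalHom_apply L σ a
  have hr1 : ∀ σ, (∀ e : Pic κ K, N • e = 0 → kc ζ N σ e = 0) → r σ = 1 := fun σ hσ =>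
    AlgEquiv.ext fun a => Subtype.ext ((hr σ a).trans ((hL.fix σ).2 hσ a a.2))
  choose s hs using (AlgEquiv.restrictNormalHom_surjective (F := K) (K₁ := L) (E := Ω))
  have hs' : ∀ g, r (s g) = g := hs
  have hsa : ∀ g (a : L), (g a : Ω) = s g a := fun g a => by rw [← hr, hs']
  have hcomm : ∀ g g' : L ≃ₐ[K] L, g * g' = g' * g := by
    intro g g'
    have e := hr1 ((s g' * s g)⁻¹ * (s g * s g')) fun e he => by
      rw [kc_mul hN hζ _ _ he, kc_inv hN hζ _ he, kc_mul hN hζ _ _ he, kc_mul hN hζ _ _ he]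
      ring
    rw [map_mul, map_inv, map_mul, map_mul, hs', hs', inv_mul_eq_one] at e
    exact e.symm
  have hexp : ∀ g : L ≃ₐ[K] L, g ^ N = 1 := by
    intro g
    have e := hr1 (s g ^ N) fun e he => by
      rw [kc_pow hN hζ _ he, ZMod.natCast_self, zero_mul]
    rwa [map_pow, hs'] at e
  have k1 : ∀ g : L ≃ₐ[K] L, g H = c (s g) ^ N * H := fun g => Subtype.ext (by
    rw [hsa, h1]
    push_cast
    rfl)
  have k2 : ∀ g g' : L ≃ₐ[K] L, c (s g) * g (c (s g')) = c (s g') * g' (c (s g)) :=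
    fun g g' => Subtype.ext (by
      have e := h2 (s g) (s g')
      rw [ZMod.val_zero, pow_zero, map_one, one_mul] at e
      push_cast
      rw [hsa, hsa, e])
  let T : (L ≃ₐ[K] L) → Module.End κ L := fun g =>
    { toFun := fun v => c (s g) * g v
      map_add' := fun u v => by rw [map_add, mul_add]
      map_smul' := fun a v => by
        rw [RingHom.id_apply, Algebra.smul_def, Algebra.smul_def, map_mul,
          IsScalarTower.algebraMap_apply κ K L, g.commutes]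
        ring }
  have hT : ∀ g v, T g v = c (s g) * g v := fun _ _ => rfl
  have hTc : ∀ g g', T g * T g' = T g' * T g := by
    intro g g'
    refine LinearMap.ext fun v => ?_
    rw [Module.End.mul_apply, Module.End.mul_apply, hT, hT, hT, hT, map_mul, map_mul, ← mul_assoc,
      ← mul_assoc, k2, ← AlgEquiv.mul_apply, ← AlgEquiv.mul_apply, hcomm]
  have hTp : ∀ g (k : ℕ), ∃ n : L, (∀ v, (T g ^ k) v = n * (g ^ k) v) ∧ (g ^ k) H = n ^ N * H := by
    intro g k
    induction k with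
    | zero => exact ⟨1, fun v => by simp, by simp⟩
    | succ k ih =>
      obtain ⟨n, e1, e2⟩ := ih
      refine ⟨c (s g) * g n, fun v => ?_, ?_⟩
      · rw [pow_succ', Module.End.mul_apply, e1, hT, map_mul, pow_succ', AlgEquiv.mul_apply,
          mul_assoc]
      · rw [pow_succ', AlgEquiv.mul_apply, e2, map_mul, map_pow, k1]
        ring
  have hTn : ∀ g, ∃ n, n ≠ 0 ∧ T g ^ n = 1 := by
    intro g
    refine ⟨N * N, mul_ne_zero hN hN, ?_⟩
    obtain ⟨n, e1, e2⟩ := hTp g N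
    rw [hexp] at e1 e2
    have e3 : n ^ N = 1 := mul_right_cancel₀ h0 (by rw [← e2, one_mul]; rfl)
    have e4 : ∀ (k : ℕ) v, ((T g ^ N) ^ k) v = n ^ k * v := by
      intro k
      induction k with
      | zero => intro v; simp
      | succ k ih =>
        intro v
        rw [pow_succ, Module.End.mul_apply, ih, e1, AlgEquiv.one_apply, pow_succ, mul_assoc]
    refine LinearMap.ext fun v => ?_
    rw [pow_mul, e4, e3, one_mul, Module.End.one_apply]
  obtain ⟨v, hv0, hv⟩ := common_eigen T hTc hTn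
  have hH1 : H * v ^ N ≠ 0 := mul_ne_zero h0 (pow_ne_zero _ hv0)
  obtain ⟨D, hD⟩ := exists_descend (K := K) (D' := dv κ (H * v ^ N)) fun x x' e => by
    obtain ⟨g, rfl⟩ := exists_smul e
    obtain ⟨l, hl0, hl⟩ := hv g
    have e1 : g (H * v ^ N) = algebraMap κ L (l ^ N) * (H * v ^ N) := by
      rw [hT, Algebra.smul_def] at hl
      rw [map_mul, map_pow, k1, mul_comm _ H, mul_assoc, ← mul_pow, hl, map_pow]
      ring
    have e2 := ord_smul (toSA κ g) x hH1
    rw [sl_toSA, e1, Place.ord_mul _ ((map_ne_zero _).2 (pow_ne_zero _ hl0)) hH1,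
      Place.ord_const _ (pow_ne_zero _ hl0), zero_add] at e2
    rw [dv_apply hH1, dv_apply hH1, e2]
  have e1 := dg_con (D := D) (D' := dv κ (H * v ^ N)) fun x => by rw [hL.unr, one_mul, hD]
  rw [dg_dv] at e1
  have e2 : dg D = 0 :=
    (mul_eq_zero.1 e1.symm).resolve_left (Nat.cast_ne_zero.2 Module.finrank_pos.ne')
  have e3 : (N : ℤ) ∣ dg (D - z) := by
    refine Finset.dvd_sum fun y _ => ?_
    obtain ⟨x, rfl⟩ := res_surj (L := L) y
    rw [Finsupp.sub_apply, ← hD, dv_apply hH1, x.ord_mul h0 (pow_ne_zero _ hv0), x.ord_pow hv0,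
      add_sub_right_comm]
    exact dvd_add (h3 x) (dvd_mul_right _ _)
  rw [dg_sub, e2, zero_sub, dvd_neg] at e3
  rw [← h4]
  exact (ZMod.intCast_zmod_eq_zero_iff_dvd _ _).2 e3

end Pool.Agent.Lef
end

-- merged part: Pool.Agent.Work.MP_60d5ce_nt.Qt.H2
section
/-!
# The geometric group has no second cohomology with values in `F2`

Hint.  `θ` comes from the finite group `G = Gal(MU U / RatFunc Kb)` (`Adm.exists_res`).  `c = (-1) ^ θ` is a coboundary of `b : G → M` by `brauer_sign`; its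
norm hypothesis is `norm_surj` for the fixed fields of `H ⊔ <s>` and `H`.  Then `b ^ 2` is a
1-cocycle, `b g ^ 2 * g a = a` by `hilbert90`.  With `α ^ 2 = a` in `Ω`, `b g * g α / α` is a sign
`(-1) ^ β g`, and `θ = dβ` on `WG0`.  Smoothness: `adm_core` for `H = {u ∈ U | u α = α}`.
Extend `β` by zero outside `WG0`.
-/

namespace Pool.Agent.Quad

section norm

variable {𝕜 : Type} [Field 𝕜] [IsAlgClosed 𝕜] {L : Type} [Field L] [Algebra (RatFunc 𝕜) L]
  [FiniteDimensional (RatFunc 𝕜) L]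

theorem H2_cyclic (σ : L ≃ₐ[RatFunc 𝕜] L) (h1 : σ ≠ 1) (h3 : σ ^ 2 = 1) (a : L) (ha : σ a = a) :
    ∃ x : L, x * σ x = a := by
  classical
  have hord : orderOf σ = 2 := orderOf_eq_prime h3 h1
  let M := IntermediateField.fixedField (Subgroup.zpowers σ)
  have hgal : IsGalois M L := IsGalois.of_fixed_field L (Subgroup.zpowers σ)
  have hfin : Module.finrank M L = 2 := by
    rw [IntermediateField.finrank_fixedField_eq_card, Nat.card_zpowers, hord]
  have hmem : a ∈ M := by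
    rw [IntermediateField.mem_fixedField_iff]
    intro f hf
    exact (Subgroup.zpowers_le.2 (show σ ∈ MulAction.stabilizer (L ≃ₐ[RatFunc 𝕜] L) a from ha)) hf
  obtain ⟨x, hx⟩ := norm_surj (𝕜 := 𝕜) (M := M) (M' := L) hfin ⟨a, hmem⟩
  let τ : L ≃ₐ[M] L := { σ.toRingEquiv with
    commutes' := fun c => (IntermediateField.mem_fixedField_iff _ _).1 c.2 σ
      (Subgroup.mem_zpowers σ) }
  have hτ : ∀ y, τ y = σ y := fun _ => rfl
  have n1 : τ ≠ 1 := fun h => h1 (AlgEquiv.ext fun y => by rw [← hτ, h]; rfl)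
  have hu : ({1, τ} : Finset (L ≃ₐ[M] L)) = Finset.univ := by
    refine Finset.eq_univ_of_card _ ?_
    rw [← Nat.card_eq_fintype_card, IsGalois.card_aut_eq_finrank, hfin]
    exact Finset.card_pair n1.symm
  have h := Algebra.norm_eq_prod_automorphisms M x
  rw [hx, ← hu, Finset.prod_pair n1.symm] at h
  exact ⟨x, h.symm⟩

theorem H2_norm (H : Subgroup (L ≃ₐ[RatFunc 𝕜] L)) (s : L ≃ₐ[RatFunc 𝕜] L) (hs : s ∉ H)
    (h3 : s ^ 2 ∈ H) (hn : ∀ h ∈ H, s * h * s⁻¹ ∈ H) (a : L) (ha : ∀ h ∈ H, h a = a)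
    (hsa : s a = a) : ∃ x : L, (∀ h ∈ H, h x = x) ∧ x * s x = a := by
  let N := IntermediateField.fixedField H
  have hn' : ∀ h ∈ H, s⁻¹ * h * s ∈ H := fun h hh => by
    have := H.mul_mem (H.mul_mem (H.inv_mem h3) (hn h hh)) h3
    have e : s⁻¹ * h * s = (s ^ 2)⁻¹ * (s * h * s⁻¹) * s ^ 2 := by group
    rw [e]
    exact this
  have hmap : ∀ y : N, s y ∈ N := fun y => by
    rw [IntermediateField.mem_fixedField_iff]
    intro h hh
    have := (IntermediateField.mem_fixedField_iff _ _).1 y.2 _ (hn' h hh)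
    rw [AlgEquiv.mul_apply, AlgEquiv.mul_apply, AlgEquiv.aut_inv, AlgEquiv.symm_apply_eq] at this
    exact this
  let f : N →ₐ[RatFunc 𝕜] N := ((s : L →ₐ[RatFunc 𝕜] L).comp N.val).codRestrict
    N.toSubalgebra hmap
  let σ : N ≃ₐ[RatFunc 𝕜] N := AlgEquiv.ofBijective f f.bijective
  have hσ : ∀ y : N, (σ y : L) = s y := fun _ => rfl
  have n1 : σ ≠ 1 := fun h => hs (by
    rw [← IntermediateField.fixingSubgroup_fixedField H, IntermediateField.mem_fixingSubgroup_iff]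
    intro y hy
    rw [← hσ ⟨y, hy⟩, h]
    rfl)
  have n3 : σ ^ 2 = 1 := AlgEquiv.ext fun y => Subtype.ext (by
    have := (IntermediateField.mem_fixedField_iff _ _).1 y.2 _ h3
    rw [sq, AlgEquiv.mul_apply] at this ⊢
    rw [hσ, hσ]
    exact this)
  obtain ⟨x, hx⟩ := H2_cyclic σ n1 n3 ⟨a, (IntermediateField.mem_fixedField_iff _ _).2 ha⟩
    (Subtype.ext hsa)
  exact ⟨x, (IntermediateField.mem_fixedField_iff _ _).1 x.2, congrArg Subtype.val hx⟩

theorem H2_sq {K : Type} [Field K] (n : ℕ) : ((-1 : K) ^ n) ^ 2 = 1 := by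
  rw [← pow_mul, mul_comm, pow_mul, neg_one_sq, one_pow]

/-- A cocycle of signs on the group of automorphisms. -/
theorem H2_fin
    (θ : (L ≃ₐ[RatFunc 𝕜] L) → (L ≃ₐ[RatFunc 𝕜] L) → F2) (hθ : IsCoc2 θ) :
    ∃ (b : (L ≃ₐ[RatFunc 𝕜] L) → L) (a : L), a ≠ 0 ∧ (∀ x, b x ^ 2 * x a = a) ∧
      ∀ x y, (-1) ^ (θ x y).val * b (x * y) = b x * x (b y) := by
  let φ : (L ≃ₐ[RatFunc 𝕜] L) →* (L ≃+* L) := MulSemiringAction.toRingAut _ L
  have hφ : ∀ x y, φ x y = x y := fun _ _ => rfl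
  have hinj : Function.Injective φ := fun x y h => AlgEquiv.ext fun c => by
    rw [← hφ, ← hφ, h]
  obtain ⟨b, hb0, hb⟩ := brauer_sign φ hinj
    (fun H s h1 h2 h3 a h4 h5 => H2_norm H s h1 h2 h3 a h4 h5)
    (fun x y => (-1) ^ (θ x y).val) (fun _ _ => H2_sq _) (fun g h l => by
      rw [map_pow, map_neg, map_one, ← GalKum_pow_add, ← GalKum_pow_add]
      congr 2
      linear_combination hθ g h l)
  obtain ⟨a, ha0, ha⟩ := hilbert90 φ hinj (fun x => b x ^ 2) (fun x => pow_ne_zero _ (hb0 x))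
    (fun g h => by rw [map_pow, ← mul_pow, ← hb, mul_pow, H2_sq, one_mul])
  exact ⟨b, a, ha0, ha, hb⟩

end norm

theorem H2_root {K : Type} [Field K] {u : K} (h : u ^ 2 = 1) : ∃ n : F2, u = (-1) ^ n.val := by
  rcases sq_eq_one_iff.1 h with h | h
  · exact ⟨0, by rw [h, GalKum_val0, pow_zero]⟩
  · exact ⟨1, by rw [h, GalKum_val1, pow_one]⟩

theorem H2_inj {K : Type} [Field K] (h2 : (2 : K) ≠ 0) (m n : F2)
    (h : (-1 : K) ^ m.val = (-1) ^ n.val) : m = n := by
  rcases F2_cases m with rfl | rfl <;> rcases F2_cases n with rfl | rfl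
  · rfl
  · rw [GalKum_val0, GalKum_val1, pow_zero, pow_one] at h
    exact (h2 (by linear_combination h)).elim
  · rw [GalKum_val0, GalKum_val1, pow_zero, pow_one] at h
    exact (h2 (by linear_combination -h)).elim
  · rfl

variable {k : Type} [Field k] [Fintype k] {Ω : Type} [Field Ω] [Algebra (RatFunc k) Ω]
  [Algebra k Ω] [IsScalarTower k (RatFunc k) Ω] [IsSepClosure (RatFunc k) Ω]

theorem h2_geom (h6 : (6 : k) ≠ 0) (θ : WG k Ω → WG k Ω → F2)
    {U : Subgroup (WG k Ω)} (hU : Adm U)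
    (hs : ∀ g h, ∀ u ∈ U, ∀ u' ∈ U, θ (g * u) (h * u') = θ g h) (hθ : IsCoc2 θ) :
    ∃ (b : WG k Ω → F2) (U' : Subgroup (WG k Ω)), Adm U' ∧ (∀ g, ∀ u ∈ U', b (g * u) = b g) ∧
      ∀ g h, wdeg g = 0 → wdeg h = 0 → θ g h = b g + b h - b (g * h) := by
  classical
  have := hU.finiteDimensional
  obtain ⟨π, hπs, hπ, hπ1⟩ := hU.exists_res
  choose σ hσ using hπs
  have hθπ : ∀ g h : WG0 k Ω, θ (σ (π g)).1 (σ (π h)).1 = θ g.1 h.1 := by
    have e : ∀ g : WG0 k Ω, ((σ (π g))⁻¹ * g).1 ∈ U := fun g =>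
      (hπ1 _).1 (by rw [map_mul, map_inv, hσ, inv_mul_cancel])
    intro g h
    rw [← hs _ _ _ (e g) _ (e h)]
    simp
  obtain ⟨b, a, ha0, ha, hb⟩ := H2_fin (𝕜 := Kb k Ω) (L := MU U)
    (fun x y => θ (σ x).1 (σ y).1) (fun x y w => by
      have e1 := hθπ (σ x * σ y) (σ w)
      have e2 := hθπ (σ x) (σ y * σ w)
      simp only [map_mul, hσ] at e1 e2
      simp only [e1, e2]
      exact hθ _ _ _)
  obtain ⟨α, hα⟩ : ∃ α : Ω, α ^ 2 = a := ⟨_, sqr_spec (k := k) h6 _⟩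
  have ha0' : (a : Ω) ≠ 0 := fun h => ha0 (Subtype.ext h)
  have hα0 : α ≠ 0 := fun h => ha0' (by rw [← hα, h, zero_pow two_ne_zero])
  have hβ : ∀ g : WG0 k Ω, ∃ n : F2, (b (π g) : Ω) * gal g.1 α / α = (-1) ^ n.val := fun g => by
    refine H2_root ?_
    have e : (b (π g) : Ω) ^ 2 * gal g.1 a = a := by
      rw [← hπ]
      exact congrArg Subtype.val (ha (π g))
    rw [div_pow, mul_pow, ← map_pow, hα, e, div_self ha0']
  choose β hβ using hβ
  have hinj := H2_inj (GalKum_two (Ω := Ω) h6)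
  let H : Subgroup (WG k Ω) := U ⊓ (MulAction.stabilizer (Gam k Ω) α).comap gal
  have mH : ∀ g, g ∈ H ↔ g ∈ U ∧ gal g α = α := fun g => Iff.rfl
  obtain ⟨S, hS⟩ := hU.2.2.1
  have hH : Adm H.normalCore := by
    refine adm_core H (inf_le_left.trans hU.le) (insert α S) (fun g hg h => (mH g).2
      ⟨hS g hg fun c hc => h c (Finset.mem_insert_of_mem hc), h α (Finset.mem_insert_self _ _)⟩)
      fun g hg => ?_
    obtain ⟨j, hj⟩ := hU.2.2.2 g hg
    refine ⟨j + 1, ?_⟩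
    rw [pow_succ, pow_mul]
    generalize g ^ 6 ^ j = u at hj
    rw [show (6 : ℕ) = 2 * 3 from rfl, pow_mul]
    refine H.pow_mem ((mH _).2 ⟨U.pow_mem hj 2, ?_⟩) 3
    obtain ⟨n, hn⟩ := H2_root (u := gal u α / α) (by
      rw [div_pow, ← map_pow, hα, (mem_MU hU.le).1 a.2 u hj, div_self ha0'])
    have e := (div_eq_iff hα0).1 hn
    have e3 : ((-1 : Ω) ^ n.val) ^ 2 = 1 := H2_sq _
    rw [map_pow, sq, AlgEquiv.mul_apply]
    simp only [e, map_mul, map_pow, map_neg, map_one]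
    linear_combination α * e3
  refine ⟨fun g => if h : wdeg g = 0 then β ⟨g, h⟩ else 0, H.normalCore, hH, fun g u hu => ?_,
    fun g h hg hh => ?_⟩
  · obtain ⟨hu1, hu2⟩ := (mH u).1 (H.normalCore_le hu)
    have hu0 : wdeg u = 0 := hU.le hu1
    by_cases hg : wdeg g = 0
    · have hgu : wdeg (g * u) = 0 := by rw [wdeg_mul, hg, hu0, add_zero]
      simp only [dif_pos hg, dif_pos hgu]
      refine hinj _ _ ?_
      rw [← hβ, ← hβ]
      have e : π ⟨g * u, hgu⟩ = π ⟨g, hg⟩ := by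
        rw [show (⟨g * u, hgu⟩ : WG0 k Ω) = ⟨g, hg⟩ * ⟨u, hu0⟩ from rfl, map_mul,
          (hπ1 ⟨u, hu0⟩).2 hu1, mul_one]
      rw [e]
      simp only [map_mul, AlgEquiv.mul_apply, hu2]
    · have hgu : ¬ wdeg (g * u) = 0 := by rw [wdeg_mul, hu0, add_zero]; exact hg
      simp only [dif_neg hg, dif_neg hgu]
  · have hgh : wdeg (g * h) = 0 := by rw [wdeg_mul, hg, hh, add_zero]
    simp only [dif_pos hg, dif_pos hh, dif_pos hgh]
    rw [eq_sub_iff_add_eq]
    refine hinj _ _ ?_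
    rw [GalKum_pow_add, GalKum_pow_add, ← hβ, ← hβ ⟨g, hg⟩]
    have e1 : (-1) ^ (θ g h).val * (b (π ⟨g * h, hgh⟩) : Ω) =
        b (π ⟨g, hg⟩) * gal g (b (π ⟨h, hh⟩)) := by
      have := congrArg Subtype.val (hb (π ⟨g, hg⟩) (π ⟨h, hh⟩))
      rw [hθπ, ← map_mul] at this
      rw [← hπ ⟨g, hg⟩]
      exact this
    have e2 : (b (π ⟨h, hh⟩) : Ω) * gal h α = (-1) ^ (β ⟨h, hh⟩).val * α :=
      (div_eq_iff hα0).1 (hβ ⟨h, hh⟩)
    have e3 := congrArg (gal g) e2
    simp only [map_mul, map_pow, map_neg, map_one] at e3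
    simp only [map_mul, AlgEquiv.mul_apply]
    field_simp
    linear_combination gal g (gal h α) * e1 + (b (π ⟨g, hg⟩) : Ω) * e3

end Pool.Agent.Quad
end

-- merged part: Pool.Agent.Work.MP_60d5ce_nt.Lb.Cup
section
/-!
# Cyclic unramified extensions: norms and the Weil pairing  (task LB Cup)

* `norm_cyc`: make `K` a finite `RatFunc κ`-algebra (`RatFunc.liftAlgHom` for a transcendental element, compare `jK` in `Qt/Gal.lean`), so that `s` is an automorphism over
  `RatFunc κ`.  Induction on `J` for the statement: `orderOf s = 2 ^ J`, `s a = a` give `u` with `∏ s ^ k u = a`; `Pool.Agent.Quad.H2_norm` for `H = zpowers (s ^ 2)` gives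
  `x` fixed by `s ^ 2` with `x * s x = a`.
* `cup`: choose `x y` over each place `y` (`res_surj`); `(y, k) ↦ (s ^ k)⁻¹ • x y`, `k < N`, is a bijection onto the places of `M` (`exists_smul`, `free_of_ee`).
  Put `z y = (x y).ord H = ∑ k * ((s ^ k)⁻¹ • x y).ord u`.  `s H = H * u ^ N / fb` and `N` divides all orders of `fb`, so the orders of `H` are invariant modulo `N`.
  `dv α` is the conorm of `Da`.  `recip` for `α` and `u` in `M`:  `evD (dv α) u = ∏ y, (x y).val (∏ s ^ k u) ^ Da y = evD Da fb`, and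
  `((s ^ k)⁻¹ • x y).val α = ζ ^ k * (x y).val α` (`val_smul`), `∑ k, ((s ^ k)⁻¹ • x y).ord u = y.ord fb = N * Db y`, so
  `evD (dv u) α = ζ ^ dg z * evD Db fa`.
-/

namespace Pool.Agent.Lef

open PR0 Pool.Agent.Ell.AT

variable {κ K M : Type} [Field κ] [Field K] [Field M] [Algebra κ K] [Algebra κ M] [Algebra K M]
  [IsScalarTower κ K M] [IsAlgClosed κ] [Fact (IsFF κ K)] [FiniteDimensional K M]

attribute [local instance] Ev_odd

theorem Cup_two {A : Type} [CommMonoid A] (g : ℕ → A) (n : ℕ) :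
    ∏ k ∈ Finset.range (2 * n), g k = ∏ k ∈ Finset.range n, g (2 * k) * g (2 * k + 1) := by
  induction n with
  | zero => rfl
  | succ n ih =>
    rw [Nat.mul_succ, Finset.prod_range_succ, Finset.prod_range_succ, ih, Finset.prod_range_succ,
      mul_assoc]

theorem Cup_norm {L : Type} [Field L] [Algebra (RatFunc κ) L] [FiniteDimensional (RatFunc κ) L]
    (J : ℕ) : ∀ s : L ≃ₐ[RatFunc κ] L, orderOf s = 2 ^ J → ∀ a : L, s a = a →
      ∃ u : L, ∏ k ∈ Finset.range (2 ^ J), (s ^ k) u = a := by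
  induction J with
  | zero => exact fun s _ a _ => ⟨a, by simp⟩
  | succ J ih =>
    intro s hs a ha
    have h1 : orderOf (s ^ 2) = 2 ^ J := by
      rw [orderOf_pow_of_dvd two_ne_zero (hs ▸ dvd_pow_self 2 J.succ_ne_zero), hs, pow_succ,
        Nat.mul_div_cancel _ two_pos]
    obtain ⟨x, h2, h3⟩ := Pool.Agent.Quad.H2_norm (Subgroup.zpowers (s ^ 2)) s (fun h => by
        have := Nat.le_of_dvd (by positivity) (h1 ▸ orderOf_dvd_of_mem_zpowers h)
        rw [hs, pow_succ] at this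
        have := Nat.pos_of_ne_zero (pow_ne_zero J two_ne_zero)
        omega) (Subgroup.mem_zpowers _) (by
        rintro _ ⟨n, rfl⟩
        exact ⟨n, by group⟩) a (fun h hh => (Subgroup.zpowers_le.2
        (show s ^ 2 ∈ MulAction.stabilizer (L ≃ₐ[RatFunc κ] L) a from pow_mem (n := 2)
          (show s ∈ MulAction.stabilizer (L ≃ₐ[RatFunc κ] L) a from ha))) hh) ha
    obtain ⟨u, hu⟩ := ih _ h1 x (h2 _ (Subgroup.mem_zpowers _))
    refine ⟨u, ?_⟩
    rw [pow_succ', Cup_two, Finset.prod_mul_distrib, ← h3, ← hu, map_prod]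
    simp only [pow_succ' s (2 * _), pow_mul, AlgEquiv.mul_apply]

include κ in
theorem norm_cyc {J : ℕ} (s : M ≃ₐ[K] M) (hs : orderOf s = 2 ^ J) (f : K) :
    ∃ u : M, ∏ k ∈ Finset.range (2 ^ J), (s ^ k) u = algebraMap K M f := by
  obtain ⟨t, ht, hf⟩ : IsFF κ K := Fact.out
  let e := (RatFunc.algEquivOfTranscendental t ht).toRingEquiv
  let _ : Algebra (RatFunc κ) K := ((algebraMap _ K).comp e.toRingHom).toAlgebra
  let _ : Algebra (RatFunc κ) M := ((algebraMap K M).comp (algebraMap (RatFunc κ) K)).toAlgebra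
  have : IsScalarTower (RatFunc κ) K M := .of_algebraMap_eq fun _ => rfl
  have : Module.Finite (RatFunc κ) K := .of_equiv_equiv e.symm (RingEquiv.refl K)
    (RingHom.ext fun c => congrArg (algebraMap _ K) (e.apply_symm_apply c))
  have : Module.Finite (RatFunc κ) M := .trans K M
  let φ : (M ≃ₐ[K] M) →* (M ≃ₐ[RatFunc κ] M) :=
    ⟨⟨AlgEquiv.restrictScalars _, rfl⟩, fun _ _ => rfl⟩
  obtain ⟨u, hu⟩ := Cup_norm J (φ s)
    ((orderOf_injective φ (AlgEquiv.restrictScalars_injective _) s).trans hs) _ (s.commutes f)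
  exact ⟨u, hu ▸ Finset.prod_congr rfl fun k _ => by rw [← map_pow]; rfl⟩

section

variable [Fact (IsFF κ M)]

omit [Fact (IsFF κ K)] [FiniteDimensional K M] in
theorem Cup_ord (g : M ≃ₐ[K] M) (x : Place κ M) {a : M} (ha : a ≠ 0) :
    (toSA κ g⁻¹ • x).ord a = x.ord (g a) := by
  have := ord_smul (toSA κ g) (toSA κ g⁻¹ • x) ha
  rw [map_inv, smul_inv_smul] at this
  rw [map_inv, ← this, sl_toSA]

omit [Fact (IsFF κ K)] [FiniteDimensional K M] in
theorem Cup_val (g : M ≃ₐ[K] M) (x : Place κ M) {a : M} (ha : a ≠ 0) (h : x.ord (g a) = 0) :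
    (toSA κ g⁻¹ • x).val a = x.val (g a) := by
  have := val_smul (toSA κ g) (toSA κ g⁻¹ • x) (val_ne ha ((Cup_ord g x ha).trans h)).1
  rw [map_inv, smul_inv_smul, sc_toSA] at this
  rw [map_inv, ← this, sl_toSA]

omit [Algebra κ K] [Algebra K M] [IsScalarTower κ K M] [Fact (IsFF κ K)] [FiniteDimensional K M] in
theorem Cup_ord_prod (x : Place κ M) (T : Finset ℕ) {a : ℕ → M} (ha : ∀ k, a k ≠ 0) :
    x.ord (∏ k ∈ T, a k) = ∑ k ∈ T, x.ord (a k) := by
  rw [← dv_apply (Finset.prod_ne_zero_iff.2 fun k _ => ha k), dv_prod _ fun k _ => ha k,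
    Finsupp.finsetSum_apply]
  exact Finset.sum_congr rfl fun k _ => dv_apply (ha k) x

theorem Cup_prod [IsGalois K M] {N : ℕ} (hN : N ≠ 0) {s : M ≃ₐ[K] M} (hs : orderOf s = N)
    (hg : ∀ g : M ≃ₐ[K] M, ∃ k : ℕ, g = s ^ k) (hu : ∀ x : Place κ M, ee K x = 1)
    {X : Place κ K → Place κ M} (hX : ∀ y, res K (X y) = y) {T : Finset (Place κ K)} {D : Dv κ M}
    (hT : ∀ x, D x ≠ 0 → res K x ∈ T) (f : M) :
    evD D f = ∏ y ∈ T, ∏ k ∈ Finset.range N,
      (toSA κ (s ^ k)⁻¹ • X y).val f ^ D (toSA κ (s ^ k)⁻¹ • X y) := by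
  classical
  rw [← Finset.prod_product', evD_eq_prod (T := (T ×ˢ Finset.range N).image
    fun p => toSA κ (s ^ p.2)⁻¹ • X p.1) fun x hx => ?_, Finset.prod_image ?_]
  · rintro ⟨y, k⟩ h ⟨y', k'⟩ h' e
    dsimp only at e
    obtain rfl : y = y' := by rw [← hX y, ← res_smul (s ^ k)⁻¹, e, res_smul, hX]
    have h1 := free_of_ee (hu (X y)) (σ := s ^ k' * (s ^ k)⁻¹)
      (by rw [map_mul, mul_smul, e, map_inv, smul_inv_smul])
    simp only [Finset.coe_product, Set.mem_prod, Finset.mem_coe, Finset.mem_range] at h h'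
    rw [pow_injOn_Iio_orderOf (hs ▸ h'.2) (hs ▸ h.2) (mul_inv_eq_one.1 h1)]
  · obtain ⟨g, e⟩ := exists_smul (hX (res K x))
    obtain ⟨k, hk⟩ := hg g⁻¹
    refine Finset.mem_image.2 ⟨(res K x, k % N), Finset.mem_product.2
      ⟨hT x (Finsupp.mem_support_iff.1 hx), Finset.mem_range.2 (Nat.mod_lt _ hN.bot_lt)⟩, ?_⟩
    rw [← hs, pow_mod_orderOf, ← hk, inv_inv, e]

end

theorem cup [Fact (IsFF κ M)] [IsGalois K M] {N : ℕ} (hN : N ≠ 0) (s : M ≃ₐ[K] M)
    (hs : orderOf s = N) (hg : ∀ g : M ≃ₐ[K] M, ∃ k : ℕ, g = s ^ k)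
    (hu : ∀ x : Place κ M, ee K x = 1) {ζ : κ} (hζ : ζ ^ N = 1) {fa fb : K} {Da Db : Dv κ K}
    (ha : KD N fa Da) (hb : KD N fb Db) (hd : Dj Da Db) {α u : M}
    (hα : α ^ N = algebraMap K M fa) (hsα : s α = algebraMap κ M ζ * α)
    (hn : ∏ k ∈ Finset.range N, (s ^ k) u = algebraMap K M fb)
    (ho : ∀ x : Place κ M, Da (res K x) ≠ 0 → x.ord u = 0) :
    ∃ z : Dv κ K,
      (∀ x : Place κ M, (N : ℤ) ∣ x.ord (∏ k ∈ Finset.range N, (s ^ k) u ^ k) - z (res K x)) ∧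
        evD Da fb = ζ ^ dg z * evD Db fa := by
  classical
  choose X hX using res_surj (κ := κ) (K := K) (L := M)
  have ha0 : algebraMap K M fa ≠ 0 := (map_ne_zero _).2 ha.1
  have hb0 : algebraMap K M fb ≠ 0 := (map_ne_zero _).2 hb.1
  have hα0 : α ≠ 0 := fun e => ha0 (by rw [← hα, e, zero_pow hN])
  have hζ0 : ζ ≠ 0 := fun e => zero_ne_one (by rw [← hζ, e, zero_pow hN])
  have hu0 : u ≠ 0 := Finset.prod_ne_zero_iff.1 (hn ▸ hb0) 0 (Finset.mem_range.2 hN.bot_lt)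
  have hk0 : ∀ k, (s ^ k) u ≠ 0 := fun k => (map_ne_zero _).2 hu0
  have hk1 : ∀ k, (s ^ k) u ^ k ≠ 0 := fun k => pow_ne_zero k (hk0 k)
  have hoa : ∀ x : Place κ M, x.ord α = Da (res K x) := fun x => by
    have := ord_res x ha.1
    rw [hu, one_mul, ← hα, x.ord_pow hα0, ← dv_apply ha.1, ha.2, Finsupp.smul_apply,
      nsmul_eq_mul] at this
    exact mul_left_cancel₀ (Nat.cast_ne_zero.2 hN) this
  have hob : ∀ x : Place κ M, x.ord (algebraMap K M fb) = N * Db (res K x) := fun x => by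
    rw [ord_res x hb.1, hu, one_mul, ← dv_apply hb.1, hb.2, Finsupp.smul_apply, nsmul_eq_mul]
  have hH : ∀ x : Place κ M, x.ord (∏ k ∈ Finset.range N, (s ^ k) u ^ k) =
      ∑ k ∈ Finset.range N, k * x.ord ((s ^ k) u) := fun x => by
    rw [Cup_ord_prod x _ hk1]
    exact Finset.sum_congr rfl fun k _ => x.ord_pow (hk0 k) k
  have h1 : s (∏ k ∈ Finset.range N, (s ^ k) u ^ k) * algebraMap K M fb =
      (∏ k ∈ Finset.range N, (s ^ k) u ^ k) * u ^ N := by
    have e := Finset.prod_range_succ' (fun k => (s ^ k) u ^ k) N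
    rw [Finset.prod_range_succ, pow_zero, mul_one, ← hs, pow_orderOf_eq_one, hs,
      AlgEquiv.one_apply] at e
    rw [e, ← s.commutes fb, ← hn, ← map_mul, ← Finset.prod_mul_distrib, map_prod]
    exact Finset.prod_congr rfl fun k _ => by
      rw [← pow_succ, map_pow, pow_succ' s, AlgEquiv.mul_apply]
  have hH0 : ∏ k ∈ Finset.range N, (s ^ k) u ^ k ≠ 0 := Finset.prod_ne_zero_iff.2 fun k _ => hk1 k
  generalize ∏ k ∈ Finset.range N, (s ^ k) u ^ k = H at hH h1 hH0 ⊢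
  have h2 : ∀ (k : ℕ) (x : Place κ M), (N : ℤ) ∣ (toSA κ (s ^ k)⁻¹ • x).ord H - x.ord H := by
    intro k x
    induction k with
    | zero => simp
    | succ k ih =>
      have e := congrArg (toSA κ (s ^ k)⁻¹ • x).ord h1
      rw [Place.ord_mul _ ((map_ne_zero _).2 hH0) hb0, Place.ord_mul _ hH0 (pow_ne_zero N hu0),
        Place.ord_pow _ hu0, hob, ← Cup_ord s _ hH0] at e
      rw [pow_succ, mul_inv_rev, map_mul, mul_smul, eq_sub_of_add_eq e, sub_right_comm,
        add_sub_right_comm]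
      exact (ih.add (dvd_mul_right _ _)).sub (dvd_mul_right _ _)
  obtain ⟨z, hz⟩ : ∃ z : Dv κ K, ∀ y, z y = (X y).ord H :=
    ⟨Finsupp.ofSupportFinite (fun y => (X y).ord H)
      (((finite_ord hH0).image (res K)).subset fun y hy => ⟨X y, hy, hX y⟩), fun _ => rfl⟩
  refine ⟨z, fun x => ?_, ?_⟩
  · obtain ⟨g, e⟩ := exists_smul (hX (res K x))
    obtain ⟨k, hk⟩ := hg g⁻¹
    have := h2 k (X (res K x))
    rwa [← hk, inv_inv, e, ← hz] at this
  have h3 := recip (κ := κ) hα0 (f := u) ⟨hu0, fun x hx => ho x (by rwa [dv_apply hα0, hoa] at hx)⟩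
  obtain ⟨T, T1, T2, T3, T4⟩ : ∃ T : Finset (Place κ K), Da.support ⊆ T ∧ Db.support ⊆ T ∧
      z.support ⊆ T ∧ (dv κ u).support.image (res K) ⊆ T :=
    ⟨Da.support ∪ (Db.support ∪ (z.support ∪ (dv κ u).support.image (res K))), by grind⟩
  rw [Cup_prod hN hs hg hu hX (T := T) fun x hx => T1
      (by rwa [dv_apply hα0, hoa, ← Finsupp.mem_support_iff] at hx),
    Cup_prod hN hs hg hu hX (T := T) fun x hx => T4
      (Finset.mem_image_of_mem _ (Finsupp.mem_support_iff.2 hx))] at h3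
  rw [evD_eq_prod T1, evD_eq_prod T2, dg, Finsupp.sum_of_support_subset _ T3 _ fun _ _ => rfl,
    ← RecE_zpow_sum hζ0, ← Finset.prod_mul_distrib]
  refine (Finset.prod_congr rfl fun y _ => ?_).trans (h3.trans (Finset.prod_congr rfl fun y _ => ?_))
  · simp only [dv_apply hα0, hoa, res_smul, hX]
    by_cases e : Da y = 0
    · simp [e]
    have h4 : ∀ k, (X y).ord ((s ^ k) u) = 0 := fun k => by
      rw [← Cup_ord _ _ hu0]
      exact ho _ (by rwa [res_smul, hX])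
    have h5 := (RecE_val_prod (X y) (Finset.range N) (fun k => (s ^ k) u) (fun _ => 1)
      fun k _ => ⟨hk0 k, h4 k⟩).2
    simp only [zpow_one] at h5
    rw [hn, val_res (val_ne hb.1 ((hb.off hd.symm).2 _ (by rwa [hX]))).1, hX] at h5
    rw [h5, ← Finset.prod_zpow]
    exact Finset.prod_congr rfl fun k _ => by rw [Cup_val _ _ hu0 (h4 k)]
  · simp only [dv_apply hu0, Cup_ord _ _ hu0]
    rw [hz, hH]
    by_cases e : Da y = 0
    swap
    · have h4 : ∀ k, (X y).ord ((s ^ k) u) = 0 := fun k => by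
        rw [← Cup_ord _ _ hu0]
        exact ho _ (by rwa [res_smul, hX])
      simp only [h4]
      simp [(hd y).resolve_left e]
    have h4 : ∀ k : ℕ, (s ^ k) α = algebraMap κ M (ζ ^ k) * α := fun k => by
      induction k with
      | zero => simp
      | succ k ih =>
        rw [pow_succ, AlgEquiv.mul_apply, hsα, map_mul, ih, IsScalarTower.algebraMap_apply κ K M,
          AlgEquiv.commutes, ← IsScalarTower.algebraMap_apply, pow_succ', map_mul, mul_assoc]
    have h5 : (X y).ord α = 0 := by rw [hoa, hX, e]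
    have h6 := val_ne hα0 h5
    have h7 : ∀ k : ℕ, (toSA κ (s ^ k)⁻¹ • X y).val α = ζ ^ (k : ℤ) * (X y).val α := fun k => by
      rw [Cup_val _ _ hα0 (by rw [← Cup_ord _ _ hα0, hoa, res_smul, hX, e]), h4,
        Place.val_mul ((X y).2.2 _) h6.1, Place.val_const, zpow_natCast]
    have h8 := hob (X y)
    rw [← hn, Cup_ord_prod _ _ hk0, hX] at h8
    have h9 := Sy_pow hα0 h5 N
    rw [hα, val_res (val_ne ha.1 (by
      rw [← dv_apply ha.1, ha.2, hX, Finsupp.smul_apply, e, smul_zero])).1, hX] at h9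
    simp only [h7, mul_zpow, ← zpow_mul]
    rw [Finset.prod_mul_distrib, RecE_zpow_sum hζ0, RecE_zpow_sum h6.2, h8, h9, zpow_mul,
      zpow_natCast]

end Pool.Agent.Lef
end

-- merged part: Pool.Agent.Work.MP_60d5ce_nt.Lb.Elem
section
/-!
# The elementary data  (task LB Elem)

Take `KD N f0 D0` for `a`, a root `α0 ∈ L` of `f0` (`IsKF.root`) and `M = K⟮α0⟯` (an intermediate field of `L / K` or of `Ω / K`).  It is Galois over `K` (every `σ` multiplies `α0` by a
power of `ζ`), the restriction `s` of `σ0` has order `N` and generates the group (an automorphism is determined by the image `ζ ^ k * α0` of `α0`); `σ` restricts to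
`s ^ (kc σ a).val`.  `M / K` and `L / M` are unramified (`ee_mul`, `ee_pos`, `IsKF.unr`, `res_surj`).  Take `KD N fb Db` for `b`, `u` from `norm_cyc`, then `g` from `exists_move` so that
`Da = D0 + dv g` vanishes on the support of `Db` and below the support of `dv u`; `fa = f0 * g ^ N`, `α = α0 * g`; `cup`, `we_eq`.
`H = ∏ (k < N), (s ^ k u) ^ k`; for `j = (kc σ a).val` put `c σ = β⁻¹ ^ j * ∏ (m < j), s ^ m u` with `β ^ N = fb`.  Induction on `j`:
`s ^ j H = (∏ (m < j), s ^ m u) ^ N * H / fb ^ j`.  `c σ * σ (c σ') = β⁻¹ ^ (j + j') * ζ ^ (-(j' * kc σ b)) * ∏ (m < j + j'), s ^ m u`.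
-/

namespace Pool.Agent.Lef

open PR0 Pool.Agent.Ell.AT

section
variable {K M : Type} [Field K] [Field M] [Algebra K M] {s : M ≃ₐ[K] M} {N : ℕ} {u : M} {f : K}

theorem Elem_succ (s : M ≃ₐ[K] M) (k : ℕ) (u : M) : s ((s ^ k) u) = (s ^ (k + 1)) u := by
  rw [pow_succ', AlgEquiv.mul_apply]

theorem Elem_one (hs : s ^ N = 1) (hn : ∏ k ∈ Finset.range N, (s ^ k) u = algebraMap K M f) :
    s (∏ k ∈ Finset.range N, (s ^ k) u ^ k) * algebraMap K M f =
      (∏ k ∈ Finset.range N, (s ^ k) u ^ k) * u ^ N := by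
  have h1 := Finset.prod_range_succ (fun k => (s ^ k) u ^ k) N
  have h2 := Finset.prod_range_succ' (fun k => (s ^ k) u ^ k) N
  rw [hs, AlgEquiv.one_apply] at h1
  rw [pow_zero ((s ^ 0) u), mul_one] at h2
  rw [← h1, h2, ← s.commutes, ← hn, ← map_mul, ← Finset.prod_mul_distrib, map_prod]
  refine Finset.prod_congr rfl fun k _ => ?_
  rw [← pow_succ, map_pow, Elem_succ]

theorem Elem_iter (hs : s ^ N = 1) (hn : ∏ k ∈ Finset.range N, (s ^ k) u = algebraMap K M f)
    (j : ℕ) : (s ^ j) (∏ k ∈ Finset.range N, (s ^ k) u ^ k) * algebraMap K M f ^ j =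
      (∏ k ∈ Finset.range N, (s ^ k) u ^ k) * (∏ m ∈ Finset.range j, (s ^ m) u) ^ N := by
  have h := Elem_one hs hn
  generalize ∏ k ∈ Finset.range N, (s ^ k) u ^ k = H at h ⊢
  induction j with
  | zero => simp
  | succ j ih =>
    have h1 := congrArg (s ^ j) h
    rw [map_mul, map_mul, map_pow, AlgEquiv.commutes] at h1
    rw [pow_succ s, AlgEquiv.mul_apply, Finset.prod_range_succ, mul_pow, ← mul_assoc, ← ih, pow_succ',
      ← mul_assoc, h1, mul_right_comm]

theorem Elem_add (s : M ≃ₐ[K] M) (u : M) (j j' : ℕ) :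
    (∏ m ∈ Finset.range j, (s ^ m) u) * (s ^ j) (∏ m ∈ Finset.range j', (s ^ m) u) =
      ∏ m ∈ Finset.range (j + j'), (s ^ m) u := by
  rw [Finset.prod_range_add, map_prod]
  simp only [pow_add, AlgEquiv.mul_apply]

end

variable {κ K Ω : Type} [Field κ] [Field K] [Field Ω] [Algebra κ K] [Algebra K Ω]
  [Algebra κ Ω] [IsScalarTower κ K Ω] [Algebra.IsAlgebraic K Ω]
  [IsAlgClosed κ] [Fact (IsFF κ K)] [IsAlgClosed Ω] {ζ : κ} {J : ℕ}
  {L : IntermediateField K Ω} [FiniteDimensional K L] [IsGalois K L] [Fact (IsFF κ L)]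

omit [FiniteDimensional K L] [Fact (IsFF κ L)] in
theorem Elem_field {N : ℕ} (hN : N ≠ 0) (hζ : IsPrimitiveRoot ζ N) {a : Pic κ K} {f : K}
    (hf : Kum N f a) {σ0 : Ω ≃ₐ[K] Ω} (h0 : kc ζ N σ0 a = 1) {α : L}
    (hα : (α : Ω) ^ N = algebraMap K Ω f) :
    ∃ (M : IntermediateField K L) (_ : IsGalois K M) (s : M ≃ₐ[K] M) (α' : M), orderOf s = N ∧
      (∀ g : M ≃ₐ[K] M, ∃ k : ℕ, g = s ^ k) ∧ α' ^ N = algebraMap K M f ∧
      s α' = algebraMap κ M ζ * α' ∧ ∀ (σ : Ω ≃ₐ[K] Ω) (m : M),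
        σ (algebraMap M Ω m) = algebraMap M Ω ((s ^ (kc ζ N σ a).val) m) := by
  have : IsAlgClosure K Ω := ⟨inferInstance, inferInstance⟩
  have hc : ∀ c : κ, algebraMap κ L c ∈ IntermediateField.adjoin K {α} := fun c => by
    rw [IsScalarTower.algebraMap_apply κ K L]
    exact IntermediateField.algebraMap_mem _ _
  have : Normal K (IntermediateField.adjoin K {α}) := by
    refine IntermediateField.normal_iff_forall_map_le'.2 fun τ => ?_
    obtain ⟨σ, rfl⟩ := AlgEquiv.restrictNormalHom_surjective (F := K) (K₁ := L) Ω τ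
    rw [IntermediateField.adjoin_map, Set.image_singleton, IntermediateField.adjoin_simple_le_iff]
    have e : AlgEquiv.restrictNormalHom L σ α = algebraMap κ L (ζ ^ (kc ζ N σ a).val) * α :=
      Subtype.ext ((AlgEquiv.restrictNormalHom_apply L σ α).trans (kc_spec hN hζ σ hf hα))
    exact e ▸ mul_mem (hc _) (IntermediateField.mem_adjoin_simple_self K α)
  have : Algebra.IsSeparable K (IntermediateField.adjoin K {α}) :=
    Algebra.isSeparable_tower_bot_of_isSeparable K _ L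
  have inj := (algebraMap (IntermediateField.adjoin K {α}) Ω).injective
  obtain ⟨α', e, ext⟩ : ∃ α' : IntermediateField.adjoin K {α}, algebraMap _ Ω α' = α ∧
      ∀ g g' : IntermediateField.adjoin K {α} ≃ₐ[K] IntermediateField.adjoin K {α},
        g α' = g' α' → g = g' :=
    ⟨⟨α, IntermediateField.mem_adjoin_simple_self K α⟩, rfl, fun g g' h =>
      AlgEquiv.coe_toAlgHom_injective (IntermediateField.adjoin_algHom_ext K fun x hx => by
        obtain rfl : x = α := hx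
        exact h)⟩
  generalize IntermediateField.adjoin K {α} = M at *
  have r : ∀ (σ : Ω ≃ₐ[K] Ω) (m : M),
      algebraMap M Ω (AlgEquiv.restrictNormalHom M σ m) = σ (algebraMap M Ω m) :=
    fun σ m => AlgEquiv.restrictNormal_commutes σ M m
  have h1 : ∀ σ : Ω ≃ₐ[K] Ω,
      AlgEquiv.restrictNormalHom M σ α' = algebraMap κ M (ζ ^ (kc ζ N σ a).val) * α' := fun σ =>
    inj (by
      rw [r, map_mul, e, kc_spec hN hζ σ hf hα]
      rfl)
  have h2 : AlgEquiv.restrictNormalHom M σ0 α' = algebraMap κ M ζ * α' := by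
    have := pow_val_int hN hζ.pow_eq_one 1
    rw [Int.cast_one, zpow_one] at this
    rw [h1, h0, this]
  generalize AlgEquiv.restrictNormalHom M σ0 = s at h2
  have h3 : ∀ k : ℕ, (s ^ k) α' = algebraMap κ M (ζ ^ k) * α' := fun k => by
    induction k with
    | zero => simp
    | succ k ih =>
      rw [← Elem_succ, ih, map_mul, h2, IsScalarTower.algebraMap_apply κ K M, s.commutes,
        ← IsScalarTower.algebraMap_apply, pow_succ, map_mul, mul_assoc]
  have h4 : ∀ σ : Ω ≃ₐ[K] Ω, AlgEquiv.restrictNormalHom M σ = s ^ (kc ζ N σ a).val := fun σ =>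
    ext _ _ (by rw [h1, h3])
  have h5 : α' ^ N = algebraMap K M f := inj (by
    rw [map_pow, e, hα, ← IsScalarTower.algebraMap_apply])
  have h6 : α' ≠ 0 := fun k => hf.1 (by
    rw [k, zero_pow hN] at h5
    exact (map_eq_zero _).1 h5.symm)
  refine ⟨M, {}, s, α', ?_, fun g => ?_, h5, h2, fun σ m => by rw [← h4, r]⟩
  · rw [hζ.eq_orderOf]
    refine orderOf_eq_orderOf_iff.2 fun n => ⟨fun k => ?_, fun k => ext _ _ ?_⟩
    · have := h3 n
      rw [k, AlgEquiv.one_apply, eq_comm, mul_eq_right₀ h6] at this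
      exact (map_eq_one_iff _ (algebraMap κ M).injective).1 this
    · rw [h3, k, map_one, one_mul, AlgEquiv.one_apply]
  · obtain ⟨σ, rfl⟩ := AlgEquiv.restrictNormalHom_surjective (F := K) (K₁ := M) Ω g
    exact ⟨_, h4 σ⟩

theorem Elem_comm {R : Type} [Field R] {x x' y y' w w' b t : R} {j j' : ℕ} (hw : w ≠ 0) (hw' : w' ≠ 0)
    (h : x * y = x' * y') (ht : t * w ^ j' = w' ^ j) :
    b⁻¹ ^ j * x * ((w * b)⁻¹ ^ j' * y) = t * (b⁻¹ ^ j' * x' * ((w' * b)⁻¹ ^ j * y')) := by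
  have e : t = w' ^ j / w ^ j' := eq_div_of_mul_eq (pow_ne_zero _ hw) ht
  have e1 : b⁻¹ ^ j * x * ((w * b)⁻¹ ^ j' * y) = b⁻¹ ^ j * b⁻¹ ^ j' * w⁻¹ ^ j' * (x * y) := by
    rw [mul_inv, mul_pow]
    ring
  have e2 : b⁻¹ ^ j' * x' * ((w' * b)⁻¹ ^ j * y') = b⁻¹ ^ j * b⁻¹ ^ j' * w'⁻¹ ^ j * (x' * y') := by
    rw [mul_inv, mul_pow]
    ring
  rw [e1, e2, h, e, inv_pow w, inv_pow w']
  field_simp

theorem elem (hζ : IsPrimitiveRoot ζ (2 ^ J)) (hL : IsKF ζ (2 ^ J) L) {a b : Pic κ K}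
    (ha : 2 ^ J • a = 0) (hb : 2 ^ J • b = 0) {σ0 : Ω ≃ₐ[K] Ω} (h0 : kc ζ (2 ^ J) σ0 a = 1) :
    IsHD ζ (2 ^ J) L (fun σ σ' => kc ζ (2 ^ J) σ a * kc ζ (2 ^ J) σ' b -
      kc ζ (2 ^ J) σ' a * kc ζ (2 ^ J) σ b) (lg ζ (2 ^ J) (we (2 ^ J) b a)) := by
    have hN : 2 ^ J ≠ 0 := pow_ne_zero J two_ne_zero
    obtain ⟨f0, hf0⟩ := exists_kum ha
    obtain ⟨α0, hα0⟩ := IsAlgClosed.exists_pow_nat_eq (algebraMap K Ω f0) (Nat.pos_of_ne_zero hN)
    obtain ⟨M, _, s, α, hs, hg, hα, hsα, hr⟩ :=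
      Elem_field (L := L) hN hζ hf0 h0 (α := ⟨α0, hL.root a f0 α0 hf0 hα0⟩) hα0
    have : Fact (IsFF κ M) := ⟨isFF_of_finite (K := K) Fact.out⟩
    have : IsScalarTower κ M L := IsScalarTower.of_algebraMap_eq fun _ => rfl
    have hee : ∀ y : Place κ L, ee M y = 1 ∧ ee K (res M y) = 1 := fun y => by
      have h1 := ee_mul (K := K) (M := M) y
      rw [hL.unr] at h1
      exact ⟨Int.eq_one_of_mul_eq_one_right (ee_pos y).le h1.symm,
        Int.eq_one_of_mul_eq_one_left (ee_pos _).le h1.symm⟩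
    have hu : ∀ x : Place κ M, ee K x = 1 := fun x => by
      obtain ⟨y, rfl⟩ := res_surj (L := L) x
      exact (hee y).2
    obtain ⟨fb, Db, hfb, rfl, -⟩ := exists_kumD hb Set.finite_empty
    obtain ⟨u, hn⟩ := norm_cyc (κ := κ) s hs fb
    generalize 2 ^ J = N at *
    have hu0 : u ≠ 0 := fun k => by
      rw [Finset.prod_eq_zero (Finset.mem_range.2 (Nat.pos_of_ne_zero hN)) (by rw [k, map_zero])] at hn
      exact hfb.1 ((map_eq_zero _).1 hn.symm)
    obtain ⟨fa, Da, hfa, rfl, hS⟩ := exists_kumD ha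
      (Db.support.finite_toSet.union ((finite_ord (K := κ) hu0).image (res K)))
    obtain ⟨g, hg0, rfl⟩ := (Kum.eq_iff hN hfa.kum hf0).1 rfl
    have hd : Dj Da Db := fun P => or_iff_not_imp_right.2 fun k =>
      hS P (Or.inl (Finsupp.mem_support_iff.2 k))
    obtain ⟨z, hz, hw⟩ := cup hN s hs hg hu hζ.pow_eq_one hfa hfb hd (α := α * algebraMap K M g) (u := u)
      (by rw [mul_pow, hα, ← map_pow, ← map_mul])
      (by rw [map_mul, hsα, s.commutes, mul_assoc]) hn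
      fun x hx => by_contra fun k => hx (hS _ (Or.inr ⟨x, k, rfl⟩))
    obtain ⟨β, hβ⟩ := IsAlgClosed.exists_pow_nat_eq (algebraMap K Ω fb) (Nat.pos_of_ne_zero hN)
    have hβL := hL.root _ fb β hfb.kum hβ
    have hH : ∏ k ∈ Finset.range N, (s ^ k) u ^ k ≠ 0 :=
      Finset.prod_ne_zero_iff.2 fun k _ => pow_ne_zero _ ((map_ne_zero _).2 hu0)
    have hit := Elem_iter (hs ▸ pow_orderOf_eq_one s) hn
    generalize ∏ k ∈ Finset.range N, (s ^ k) u ^ k = H at hz hH hit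
    have hadd := Elem_add s u
    generalize hP : (fun j => ∏ m ∈ Finset.range j, (s ^ m) u) = P
    have hP' : ∀ j, ∏ m ∈ Finset.range j, (s ^ m) u = P j := fun j => congrFun hP j
    simp only [hP'] at hit hadd
    have hζ0 : ζ ≠ 0 := hζ.ne_zero hN
    have hco : ∀ m : M, ((algebraMap M L m : L) : Ω) = algebraMap M Ω m := fun _ => rfl
    have hc : ∀ j : ℕ, (((⟨β, hβL⟩ : L)⁻¹ ^ j * algebraMap M L (P j) : L) : Ω) =
        β⁻¹ ^ j * algebraMap M Ω (P j) := fun j => by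
      rw [IntermediateField.coe_mul, IntermediateField.coe_pow, IntermediateField.coe_inv, hco]
    refine ⟨algebraMap M L H, fun σ => (⟨β, hβL⟩ : L)⁻¹ ^ (kc ζ N σ (cl Da)).val *
      algebraMap M L (P (kc ζ N σ (cl Da)).val), z, (map_ne_zero _).2 hH, fun σ => ?_,
      fun σ σ' => ?_, fun x => ?_, ?_⟩
    · have h1 := congrArg (algebraMap M Ω) (hit (kc ζ N σ (cl Da)).val)
      rw [map_mul, map_mul, map_pow, map_pow, ← IsScalarTower.algebraMap_apply, ← hr, ← hβ] at h1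
      have h2 : β ^ N ≠ 0 := hβ ▸ (map_ne_zero _).2 hfb.1
      rw [hc, hco, eq_div_of_mul_eq (pow_ne_zero _ h2) h1, mul_pow, ← pow_mul β⁻¹, mul_comm _ N, pow_mul,
        inv_pow, inv_pow]
      field_simp
    · have h1 : ∀ τ : Ω ≃ₐ[K] Ω, algebraMap κ Ω (ζ ^ (kc ζ N τ (cl Db)).val) ≠ 0 := fun τ =>
        (map_ne_zero _).2 (pow_ne_zero _ hζ0)
      rw [hc, hc, map_mul σ, map_mul σ', map_pow σ, map_pow σ', map_inv₀ σ, map_inv₀ σ', hr, hr,
        kc_spec hN hζ σ hfb.kum hβ, kc_spec hN hζ σ' hfb.kum hβ]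
      refine Elem_comm (h1 σ) (h1 σ') ?_ ?_
      · rw [← map_mul, ← map_mul, hadd, hadd, add_comm]
      · have := NeZero.mk hN
        rw [← map_pow, ← map_pow, ← map_mul, ← pow_val_mul hN hζ.pow_eq_one,
          ← pow_val_mul hN hζ.pow_eq_one, ← pow_val_add hN hζ.pow_eq_one, ZMod.natCast_zmod_val,
          ZMod.natCast_zmod_val, sub_add_cancel]
    · rw [ord_res x hH, (hee x).1, one_mul, ← res_res (M := M)]
      exact hz _
    · refine pow_val_inj hN hζ ?_
      rw [lg_spec hN hζ (we_pow hN hb ha), pow_val_int hN hζ.pow_eq_one, we_eq hN hfb hfa hd.symm, hw,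
        mul_div_cancel_right₀ _ (hfa.off hd).evD_ne]

end Pool.Agent.Lef
end
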