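import Pool.Agent.Work.MP_60d5ce_nt.Lb.Gen
import Pool.Agent.Work.MP_60d5ce_nt.Lb.Elem

-- merged part: Pool.Agent.Work.MP_60d5ce_nt.Lb.MainN
section
/-!
# The normal form of the generic division  (task LB MainN)

* `normal`: `canon` for `E0` and `up o` gives an invariant `E1 = E - r • up o` (uniqueness; `pa_cl`, `smul_single`).  An invariant uniformiser at `F`: take any place `x` of `K`, `s` from `exists_spz` for
  `algebraMap K Ω`, `U` the uniformiser of `sp F`; `ϖ = ψ U - F.val (ψ U)` has order one at `F` (`disc_one`) and is fixed by all `tl σ`.  Subtract `E1 F • dv ϖ`, and then a multiple of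
  `dv (ψ o.unif)`.  Normalise `a` by a constant.  `sl (tl σ) a / a` has divisor zero (`const_of_dv`) and the value at `up o` shows that it is one (`val_smul`).
-/

namespace Pool.Agent.Lef

open PR0 Pool.Agent.Ell.AT

variable {κ K Ω K' : Type} [Field κ] [Field K] [Field Ω] [Field K'] [Algebra κ K] [Algebra K Ω]
  [Algebra κ Ω] [Algebra Ω K'] [IsScalarTower κ K Ω] [IsAlgClosed κ] [Fact (IsFF κ K)]
  [IsAlgClosed Ω] [Fact (IsFF Ω K')]

theorem exists_theta {p : ℕ} [Fact p.Prime] [CharP κ p] {γ : SA κ K} {Q : ℕ} (hγ : IsFr p γ Q) :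
    ∃ θ : K →+* K, (∀ f, θ f = sl γ⁻¹ f ^ Q) ∧ (∀ c, θ (algebraMap κ K c) = algebraMap κ K c) ∧
      θ ≠ RingHom.id K := by
  obtain ⟨n, hn, rfl⟩ := hγ.pow
  have : CharP K p := charP_of_injective_algebraMap (algebraMap κ K).injective p
  refine ⟨(iterateFrobenius K p n).comp (sl γ⁻¹ : K ≃+* K), fun f => iterateFrobenius_def ..,
    fun c => ?_, fun e => ?_⟩
  · refine (iterateFrobenius_def ..).trans ?_
    change sl γ⁻¹ (algebraMap κ K c) ^ p ^ n = _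
    rw [sl_const, ← map_pow, ← hγ.c, map_inv]
    exact congrArg _ ((sc γ).apply_symm_apply c)
  · obtain ⟨t, ht, h1⟩ := hγ.fix
    have h2 : sl γ⁻¹ t = t := by
      rw [map_inv]
      exact (sl γ).symm_apply_eq.2 h1.symm
    have h3 : sl γ⁻¹ t ^ p ^ n = t := (iterateFrobenius_def ..).symm.trans (RingHom.congr_fun e t)
    rw [h2] at h3
    refine ht ⟨Polynomial.X ^ p ^ n - Polynomial.X, FiniteField.X_pow_card_sub_X_ne_zero κ
      (Nat.one_lt_pow hn.ne' (Fact.out : p.Prime).one_lt), ?_⟩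
    simp [h3]

namespace Gen

variable (X : Gen κ K Ω K')

/-- the normal form -/
structure NF (L : IntermediateField K Ω) (N : ℕ) (η F : Place Ω K') (o : Place κ K) (a : K')
    (E : Dv Ω K') : Prop where
  ne : a ≠ 0
  dv_eq : dv Ω a = Finsupp.single η 1 - Finsupp.single (up X.bc o) 1 + N • E
  at_o : E (up X.bc o) = 0
  at_F : E F = 0
  val : (up X.bc o).val (a * X.ψ o.unif) = 1
  inv : ∀ σ : Ω ≃ₐ[K] Ω, (∀ b ∈ L, σ b = b) → X.tl σ • E = E ∧ sl (X.tl σ) a = a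

theorem MainN_unif {F : Place Ω K'} {θ : K →+* K} (hF : X.IsPt θ F) (o : Place κ K) :
    ∃ w : K', w ≠ 0 ∧ F.ord w = 1 ∧ ∀ σ, sl (X.tl σ) w = w := by
  obtain ⟨s, -⟩ := exists_spz (φ := algebraMap κ Ω) (algebraMap K Ω)
    (fun c => (IsScalarTower.algebraMap_apply κ K Ω c).symm) o
  obtain ⟨h1, h2, -⟩ := disc_one X.bc (s := s) (z := F) (sp X.bc s F).unif_ne_zero
    (sp X.bc s F).ord_unif
  refine ⟨_, h1, h2, fun σ => ?_⟩
  rw [map_sub, X.tl_ψ, sl_const, X.tl_c, (hF _).2, AlgEquiv.commutes]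

theorem normal (L : IntermediateField K Ω) {N : ℕ} (hN : N ≠ 0) {η F : Place Ω K'}
    (hη : X.IsPt (RingHom.id K) η) {θ : K →+* K} (hF : X.IsPt θ F) {o : Place κ K} {a0 : K'}
    {E0 : Dv Ω K'} (ha : a0 ≠ 0)
    (hE : dv Ω a0 = Finsupp.single η 1 - Finsupp.single (up X.bc o) 1 + N • E0)
    (hi : ∀ σ : Ω ≃ₐ[K] Ω, (∀ b ∈ L, σ b = b) → cl (X.tl σ • E0) = cl E0) :
    ∃ a E, X.NF L N η F o a E ∧ cl E = cl E0 := by
  have : Pool.Agent.Ell.OddP := Ev_odd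
  have nη : NC X.ψ η := fun f => (hη f).1
  have nF : NC X.ψ F := fun f => (hF f).1
  have hd : dg E0 = 0 := by
    have h1 := dg_dv (K := Ω) a0
    rw [hE, dg_add, dg_sub, dg_single, dg_single, ← natCast_zsmul, dg_smul, sub_self,
      zero_add] at h1
    exact (mul_eq_zero.1 h1).resolve_left (Nat.cast_ne_zero.2 hN)
  obtain ⟨r, E, e0, e1, e2⟩ := canon (up X.bc o) hd
  have i1 : ∀ σ : Ω ≃ₐ[K] Ω, (∀ b ∈ L, σ b = b) →
      X.tl σ • (E - r • Finsupp.single (up X.bc o) 1) = E - r • Finsupp.single (up X.bc o) 1 := by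
    intro σ hσ
    have h1 : X.tl σ • (E - r • Finsupp.single (up X.bc o) 1) =
        X.tl σ • E - r • Finsupp.single (up X.bc o) 1 := by
      rw [smul_sub, dv_smul_nsmul, smul_single, X.smul_up]
    rw [h1, e2 (X.tl σ • E) (fun P => by rw [dv_smul_apply]; exact e0 _)
      (by rw [← h1, ← pa_cl, e1, pa_cl, hi σ hσ])]
  generalize E - r • Finsupp.single (up X.bc o) 1 = E1 at e1 i1
  obtain ⟨w, w0, w1, w2⟩ := X.MainN_unif hF o
  have u0 : X.ψ o.unif ≠ 0 := (map_ne_zero _).2 o.unif_ne_zero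
  have u1 : (up X.bc o).ord (X.ψ o.unif) = 1 := by rw [ord_up _ _ o.unif_ne_zero, o.ord_unif]
  obtain ⟨E2, hE2⟩ : ∃ E2, E2 = E1 - E1 F • dv Ω w := ⟨_, rfl⟩
  obtain ⟨E3, hE3⟩ : ∃ E3, E3 = E2 - E2 (up X.bc o) • dv Ω (X.ψ o.unif) := ⟨_, rfl⟩
  have c3 : cl E3 = cl E0 := by
    rw [hE3, map_sub, map_zsmul, cl_dv, smul_zero, sub_zero, hE2, map_sub, map_zsmul, cl_dv,
      smul_zero, sub_zero, e1]
  have o3 : E3 (up X.bc o) = 0 := by
    rw [hE3, Finsupp.sub_apply, Finsupp.smul_apply, dv_apply u0, u1, smul_eq_mul, mul_one, sub_self]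
  have f3 : E3 F = 0 := by
    rw [hE3, Finsupp.sub_apply, Finsupp.smul_apply, dv_apply u0, nF.ord o.unif_ne_zero, smul_zero,
      sub_zero, hE2, Finsupp.sub_apply, Finsupp.smul_apply, dv_apply w0, w1, smul_eq_mul, mul_one,
      sub_self]
  have i3 : ∀ σ : Ω ≃ₐ[K] Ω, (∀ b ∈ L, σ b = b) → X.tl σ • E3 = E3 := by
    intro σ hσ
    have i2 : X.tl σ • E2 = E2 := by
      conv_lhs => rw [hE2, smul_sub, dv_smul_zsmul, ← dv_sl, w2, i1 σ hσ, ← hE2]
    conv_lhs => rw [hE3, smul_sub, dv_smul_zsmul, ← dv_sl, X.tl_ψ, i2, ← hE3]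
  obtain ⟨g, g0, hg⟩ := cl_eq_iff.1 c3.symm
  have a1 : a0 / g ^ N ≠ 0 := div_ne_zero ha (pow_ne_zero N g0)
  have d1 : dv Ω (a0 / g ^ N) =
      Finsupp.single η 1 - Finsupp.single (up X.bc o) 1 + N • E3 := by
    rw [dv_div ha (pow_ne_zero N g0), dv_pow g0, hE, hg, smul_add]
    abel
  generalize a0 / g ^ N = b at a1 d1
  have b1 : (up X.bc o).ord (b * X.ψ o.unif) = 0 := by
    rw [Place.ord_mul _ a1 u0, u1, ← dv_apply a1, d1, Finsupp.add_apply, Finsupp.sub_apply,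
      Finsupp.smul_apply, o3, Finsupp.single_eq_same,
      Finsupp.single_eq_of_ne (nη.ne_up X.bc o).symm]
    simp
  obtain ⟨b2, b3⟩ := val_ne (mul_ne_zero a1 u0) b1
  obtain ⟨c, hc⟩ : ∃ c, c = ((up X.bc o).val (b * X.ψ o.unif))⁻¹ := ⟨_, rfl⟩
  have c0 : algebraMap Ω K' c ≠ 0 := (map_ne_zero _).2 (hc ▸ inv_ne_zero b3)
  have a2 : algebraMap Ω K' c * b ≠ 0 := mul_ne_zero c0 a1
  have d2 : dv Ω (algebraMap Ω K' c * b) =
      Finsupp.single η 1 - Finsupp.single (up X.bc o) 1 + N • E3 := by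
    rw [dv_mul c0 a1, dv_const, zero_add, d1]
  have m2 : algebraMap Ω K' c * b * X.ψ o.unif ∈ (up X.bc o).1 := by
    rw [mul_assoc]
    exact mul_mem ((up X.bc o).2.2 c) b2
  have v2 : (up X.bc o).val (algebraMap Ω K' c * b * X.ψ o.unif) = 1 := by
    rw [mul_assoc, Place.val_mul ((up X.bc o).2.2 c) b2, Place.val_const, hc, inv_mul_cancel₀ b3]
  generalize algebraMap Ω K' c * b = a at a2 d2 m2 v2
  refine ⟨a, E3, ⟨a2, d2, o3, f3, v2, fun σ hσ => ⟨i3 σ hσ, ?_⟩⟩, c3⟩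
  have s0 : sl (X.tl σ) a ≠ 0 := (map_ne_zero _).2 a2
  obtain ⟨k, -, hk⟩ := const_of_dv (𝕜 := Ω) (div_ne_zero s0 a2) (by
    rw [dv_div s0 a2, dv_sl, d2, smul_add, smul_sub, dv_smul_nsmul, smul_single, smul_single,
      hη.smul, X.smul_up, i3 σ hσ, sub_self])
  rw [div_eq_iff a2] at hk
  have v3 := val_smul (X.tl σ) _ m2
  rw [X.smul_up, map_mul, X.tl_ψ, hk, mul_assoc, Place.val_mul ((up X.bc o).2.2 k) m2,
    Place.val_const, v2, mul_one, map_one] at v3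
  rw [hk, v3, map_one, one_mul]

end Gen

end Pool.Agent.Lef
end

-- merged part: Pool.Agent.Work.MP_60d5ce_nt.Lb.MainL
section
/-!
# The local orders of the main function  (task LB MainL)

* `local_ord`: `s` from `exists_spz` for `L.val` and `x`; `y = res K x`; `sp η = y`, `sp F = γ • y` (`sp_eq_of_over`, `mem_smul`), `c`, `f` from `exists_red` for `a`.
  (1) `loc_sym` for `a`, `Q = F`, `T = {η, up o} ∪ support E`, `U` of order one at `γ • y` and of order zero at the other `sp z`, `z ∈ T` (`exists_move`).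
  (2) `loc_sym` for `a * ψ o.unif`, `Q = up o`, `T' = {η} ∪ support E ∪ (support (dv (ψ o.unif)) minus up o)`, `U'` of order one at `o`; the factors at the constant places outside the support of `E` are units.
  So `F.val a * (θ U - o.val U) * U' / ((θ U - U) * ξ ^ N)` is a unit, where `ξ = ∏ (z ∈ support E), ((F.val (ψ U) - z.val (ψ U)) / z.val (ψ U')) ^ E z`
  (up to sign).  `ξ` is fixed by all `σ` that fix `L` (they permute the support of `E`, `val_smul`), so `ξ ^ p ^ m ∈ L` (`fixed_pow`).  Raise to the power `p ^ (s + m)`, use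
  `Spz.un_of_over`, `ord_res`, `IsKF.unr`; `y.ord (θ U) = Q` (`ord_smul`); `N` is prime to `p`.
-/

namespace Pool.Agent.Lef

open PR0 Pool.Agent.Ell.AT

variable {κ K Ω K' : Type} [Field κ] [Field K] [Field Ω] [Field K'] [Algebra κ K] [Algebra K Ω]
  [Algebra κ Ω] [Algebra Ω K'] [IsScalarTower κ K Ω] [IsAlgClosed κ] [Fact (IsFF κ K)]
  [IsAlgClosed Ω] [Fact (IsFF Ω K')]

omit [IsAlgClosed Ω] in
theorem MainL_single {ι : Type} [DecidableEq ι] (T : Finset ι) (g : ι → Ω) (η : ι) :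
    ∏ z ∈ T, g z ^ (Finsupp.single η (1 : ℤ) z) = if η ∈ T then g η else 1 := by
  rw [← Finset.prod_ite_eq]
  refine Finset.prod_congr rfl fun z _ => ?_
  rw [Finsupp.single_apply]
  split_ifs
  · rw [zpow_one]
  · rw [zpow_zero]

omit [IsAlgClosed Ω] in
theorem MainL_prod {ι : Type} [DecidableEq ι] {T : Finset ι} {g : ι → Ω} (hg : ∀ z ∈ T, g z ≠ 0)
    {η : ι} (hη : η ∈ T) (o : ι) {E : ι →₀ ℤ} (hE : E.support ⊆ T) (N : ℕ) :
    ∏ z ∈ T, g z ^ ((Finsupp.single η 1 - Finsupp.single o 1 + N • E : ι →₀ ℤ) z) =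
      g η * (if o ∈ T then g o else 1)⁻¹ * (∏ z ∈ E.support, g z ^ E z) ^ N := by
  have h1 := MainL_single T g η
  rw [if_pos hη] at h1
  rw [← h1, ← MainL_single, Finset.prod_subset hE fun z _ hz => by
    rw [Finsupp.notMem_support_iff.1 hz, zpow_zero], ← Finset.prod_pow, ← Finset.prod_inv_distrib,
    ← Finset.prod_mul_distrib, ← Finset.prod_mul_distrib]
  refine Finset.prod_congr rfl fun z hz => ?_
  rw [Finsupp.add_apply, Finsupp.sub_apply, Finsupp.smul_apply, zpow_add₀ (hg z hz),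
    zpow_sub₀ (hg z hz), div_eq_mul_inv, nsmul_eq_mul, mul_comm (N : ℤ), zpow_mul, zpow_natCast]

theorem MainL_move (P : Place κ K) {S : Set (Place κ K)} (hS : S.Finite) :
    ∃ U : K, U ≠ 0 ∧ P.ord U = 1 ∧ ∀ y ∈ S, y ≠ P → y.ord U = 0 := by
  obtain ⟨U, h0, hU⟩ := exists_move (Finsupp.single P 1) (hS.insert P)
  refine ⟨U, h0, ?_, fun y hy ne => ?_⟩
  · rw [hU P (Set.mem_insert _ _), Finsupp.single_eq_same]
  · rw [hU y (Set.mem_insert_of_mem _ hy), Finsupp.single_eq_of_ne ne]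

namespace Gen

variable (X : Gen κ K Ω K')

omit [IsScalarTower κ K Ω] [IsAlgClosed κ] [Fact (IsFF κ K)] [IsAlgClosed Ω] [Fact (IsFF Ω K')] in
theorem MainL_inv (σ : Ω ≃ₐ[K] Ω) {E : Dv Ω K'} (hE : X.tl σ • E = E) {g : Place Ω K' → Ω}
    (hg : ∀ z, E z ≠ 0 → σ (g z) = g (X.tl σ • z)) :
    σ (∏ z ∈ E.support, g z ^ E z) = ∏ z ∈ E.support, g z ^ E z := by
  have e : ∀ z, E (X.tl σ • z) = E z := fun z => by
    conv_lhs => rw [← hE]
    rw [dv_smul_apply, inv_smul_smul]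
  rw [map_prod]
  refine Finset.prod_bijective _ (MulAction.bijective (X.tl σ)) (fun z => ?_) fun z hz => ?_
  · rw [Finsupp.mem_support_iff, Finsupp.mem_support_iff, e]
  · rw [map_zpow₀, e, hg z (Finsupp.mem_support_iff.1 hz)]

omit [IsScalarTower κ K Ω] [IsAlgClosed κ] [Fact (IsFF κ K)] in
theorem MainL_val (σ : Ω ≃ₐ[K] Ω) {z : Place Ω K'} {U : K} (hz : X.ψ U ∈ z.1) :
    σ (z.val (X.ψ U)) = (X.tl σ • z).val (X.ψ U) := by
  rw [← X.tl_c, ← val_smul _ _ hz, X.tl_ψ]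

variable {X} {L : IntermediateField K Ω} {N : ℕ} {η F : Place Ω K'} {o : Place κ K} {a : K'}
  {E : Dv Ω K'} {s : Spz (algebraMap κ Ω)} {c : Ω} {f : K}

omit [IsScalarTower κ K Ω] in
theorem MainL_mem {z : Place Ω K'} {U : K} (hU : U ≠ 0) {P : Place κ K} (h1 : P.ord U = 1)
    (h0 : sp X.bc s z ≠ P → (sp X.bc s z).ord U = 0) : X.ψ U ∈ z.1 := by
  refine ((mem_sp X.bc s).1 ((Sa_mem _ hU).2 ?_)).1
  by_cases e : sp X.bc s z = P
  · rw [e, h1]
    exact zero_le_one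
  · exact (h0 e).ge

omit [IsScalarTower κ K Ω] in
theorem MainL_one (h : X.NF L N η F o a E) (hF : NC X.ψ F) (hne : F ≠ η)
    (hr : Red s X.ψ (algebraMap Ω K' c * a) f) (hf : f ≠ 0) :
    ∃ U : K, U ≠ 0 ∧ (sp X.bc s F).ord U = 1 ∧
      (∀ z, E z ≠ 0 → X.ψ U ∈ z.1) ∧
      (sp X.bc s η ≠ sp X.bc s F → s.Un (F.val (X.ψ U) - η.val (X.ψ U))) ∧
      (o ≠ sp X.bc s F → s.Un (F.val (X.ψ U) - algebraMap κ Ω (o.val U))) ∧
      s.Un (c * F.val a / ((F.val (X.ψ U) - η.val (X.ψ U)) *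
        (F.val (X.ψ U) - algebraMap κ Ω (o.val U))⁻¹ *
          (∏ z ∈ E.support, (F.val (X.ψ U) - z.val (X.ψ U)) ^ E z) ^ N)) := by
  classical
  obtain ⟨T, hT⟩ : ∃ T : Finset (Place Ω K'), T = insert η (insert (up X.bc o) E.support) :=
    ⟨_, rfl⟩
  have m1 : η ∈ T := hT ▸ Finset.mem_insert_self _ _
  have m2 : up X.bc o ∈ T := hT ▸ Finset.mem_insert_of_mem (Finset.mem_insert_self _ _)
  have m3 : E.support ⊆ T := hT ▸ (Finset.subset_insert _ _).trans (Finset.subset_insert _ _)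
  have eo : ∀ z : Place Ω K', z.ord a = (Finsupp.single η 1 - Finsupp.single (up X.bc o) 1 +
      N • E : Dv Ω K') z := fun z => by rw [← h.dv_eq, dv_apply h.ne]
  obtain ⟨U, hU, h1, h0⟩ := MainL_move (sp X.bc s F) (T.finite_toSet.image (sp X.bc s))
  replace h0 : ∀ z ∈ T, sp X.bc s z ≠ sp X.bc s F → (sp X.bc s z).ord U = 0 := fun z hz =>
    h0 _ ⟨z, hz, rfl⟩
  obtain ⟨k1, k2, k3⟩ := loc_sym X.bc hr hf (Q := F) (T := T) (by
    simp [hT, hne, hF.ne_up X.bc o, h.at_F]) (fun z hz => by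
      by_contra hn
      simp only [hT, Finset.mem_insert, not_or, Finsupp.notMem_support_iff] at hn
      refine hz ?_
      rw [eo, Finsupp.add_apply, Finsupp.sub_apply, Finsupp.smul_apply, hn.2.2,
        Finsupp.single_eq_of_ne hn.1, Finsupp.single_eq_of_ne hn.2.1]
      simp) hU h1 h0
  have ev : (up X.bc o).val (X.ψ U) = algebraMap κ Ω (o.val U) :=
    val_up X.bc ((up_over X.bc o U).1 (MainL_mem hU h1 (h0 _ m2)))
  refine ⟨U, hU, h1, fun z hz => MainL_mem hU h1 (h0 z (m3 (Finsupp.mem_support_iff.2 hz))),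
    k2 η m1, fun ne => ev ▸ k2 _ m2 (by rwa [sp_up]), ?_⟩
  simp only [eo] at k3
  rwa [MainL_prod k1 m1 _ m3, if_pos m2, ev] at k3

omit [IsScalarTower κ K Ω] in
open Classical in
theorem MainL_two (h : X.NF L N η F o a E) (hη : NC X.ψ η)
    (hr : Red s X.ψ (algebraMap Ω K' c * a) f) (hf : f ≠ 0) :
    ∃ U : K, U ≠ 0 ∧ (sp X.bc s η).ord U = (if sp X.bc s η = o then 1 else 0) ∧
      (∀ z, E z ≠ 0 → X.ψ U ∈ z.1) ∧
      s.Un (c / (-η.val (X.ψ U) * (∏ z ∈ E.support, (-z.val (X.ψ U)) ^ E z) ^ N)) := by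
  have u0 : X.ψ o.unif ≠ 0 := (map_ne_zero _).2 o.unif_ne_zero
  have n1 := hη.ne_up X.bc o
  obtain ⟨T, hT⟩ : ∃ T : Finset (Place Ω K'), ∀ z, z ∈ T ↔ z ≠ up X.bc o ∧
      (z = η ∨ E z ≠ 0 ∨ dv Ω (X.ψ o.unif) z ≠ 0) :=
    ⟨(insert η (E.support ∪ (dv Ω (X.ψ o.unif)).support)).erase (up X.bc o), fun z => by simp⟩
  have m1 : η ∈ T := (hT η).2 ⟨n1, Or.inl rfl⟩
  have m2 : up X.bc o ∉ T := fun k => ((hT _).1 k).1 rfl
  have m3 : E.support ⊆ T := fun z hz => (hT z).2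
    ⟨fun e => Finsupp.mem_support_iff.1 hz (e ▸ h.at_o),
      Or.inr (Or.inl (Finsupp.mem_support_iff.1 hz))⟩
  have eo : ∀ z : Place Ω K', z.ord (a * X.ψ o.unif) = (Finsupp.single η 1 -
      Finsupp.single (up X.bc o) 1 + N • E : Dv Ω K') z + dv Ω (X.ψ o.unif) z := fun z => by
    rw [← h.dv_eq, dv_apply h.ne, dv_apply u0, z.ord_mul h.ne u0]
  obtain ⟨U, hU, h1, h0⟩ := MainL_move o (T.finite_toSet.image (sp X.bc s))
  replace h0 : ∀ z ∈ T, sp X.bc s z ≠ o → (sp X.bc s z).ord U = 0 := fun z hz =>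
    h0 _ ⟨z, hz, rfl⟩
  have hr' := hr.mul X.bc (red_psi X.bc o.unif)
  rw [mul_assoc] at hr'
  obtain ⟨k1, k2, k3⟩ := loc_sym X.bc hr' (mul_ne_zero hf o.unif_ne_zero) (Q := up X.bc o)
    (T := T) m2 (fun z hz => by
      rw [eo, Finsupp.add_apply, Finsupp.sub_apply, Finsupp.smul_apply] at hz
      have n2 : z ≠ up X.bc o := by
        rintro rfl
        rw [h.at_o, dv_apply u0, ord_up X.bc o o.unif_ne_zero, o.ord_unif,
          Finsupp.single_eq_of_ne n1.symm, Finsupp.single_eq_same] at hz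
        simp at hz
      refine (hT z).2 ⟨n2, ?_⟩
      by_contra hn
      simp only [not_or, not_not] at hn
      rw [hn.2.1, hn.2.2, Finsupp.single_eq_of_ne hn.1, Finsupp.single_eq_of_ne n2] at hz
      simp at hz) hU (by rwa [sp_up]) (by rwa [sp_up])
  have mo : U ∈ o.1 := (Sa_mem o hU).2 (by omega)
  have ev : (up X.bc o).val (X.ψ U) = 0 := by
    rw [val_up X.bc mo, (Place.val_eq_zero mo).2 (Or.inr h1.ge), map_zero]
  simp only [ev, zero_sub, sp_up] at k1 k2 k3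
  refine ⟨U, hU, ?_, fun z hz => MainL_mem hU h1 (h0 z (m3 (Finsupp.mem_support_iff.2 hz))), ?_⟩
  · split_ifs with e
    · rw [e, h1]
    · exact h0 η m1 e
  rw [h.val, mul_one, Finset.prod_congr rfl fun z hz => by rw [eo, zpow_add₀ (k1 z hz)],
    Finset.prod_mul_distrib, MainL_prod k1 m1 _ m3, if_neg m2, inv_one, mul_one, ← div_div] at k3
  have k4 : s.Un (∏ z ∈ T, (-z.val (X.ψ U)) ^ dv Ω (X.ψ o.unif) z) := by
    refine Spz.un_prod _ fun z hz => ?_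
    rcases up_or X.bc z with ⟨P, rfl⟩ | hz'
    · refine (k2 _ hz ?_).zpow _
      rw [sp_up]
      rintro rfl
      exact m2 hz
    · rw [dv_apply u0, hz'.ord o.unif_ne_zero, zpow_zero]
      exact Spz.un_one
  have k5 := k3.mul k4
  rwa [div_mul_cancel₀ _ k4.ne] at k5

variable (X)

open Classical in
theorem local_ord [Algebra.IsAlgebraic K Ω] {p : ℕ} [Fact p.Prime] [CharP κ p] {γ : SA κ K} {Q : ℕ}
    (hγ : IsFr p γ Q) {ζ : κ} {N : ℕ} (hN : (N : κ) ≠ 0) {L : IntermediateField K Ω}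
    [FiniteDimensional K L] [Fact (IsFF κ L)] (hL : IsKF ζ N L) {η F : Place Ω K'}
    (hη : X.IsPt (RingHom.id K) η) {θ : K →+* K} (hθ : ∀ f, θ f = sl γ⁻¹ f ^ Q) (hF : X.IsPt θ F)
    (hne : F ≠ η) {o : Place κ K} {a : K'} {E : Dv Ω K'} (h : X.NF L N η F o a E) {s : ℕ} {H : L}
    (hH : (H : Ω) = F.val a ^ p ^ s) (x : Place κ L) :
    (N : ℤ) ∣ x.ord H - p ^ s * ((if γ • res K x = res K x then 1 else 0) -
      (if γ • res K x = o then Q else 0) - if res K x = o then 1 else 0) := by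
  have hp : p.Prime := Fact.out
  have hQ : 2 ≤ Q := by
    obtain ⟨n, hn, rfl⟩ := hγ.pow
    exact hp.two_le.trans (Nat.le_self_pow hn.ne' p)
  obtain ⟨S, hS⟩ := exists_spz (φ := algebraMap κ Ω) (algebraMap L Ω)
    (fun c => by
      rw [IsScalarTower.algebraMap_apply κ K L, ← IsScalarTower.algebraMap_apply K L Ω,
        ← IsScalarTower.algebraMap_apply]) x
  have hx : ∀ {k : K}, k ≠ 0 → x.ord (algebraMap K L k) = (res K x).ord k := fun hk => by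
    rw [ord_res x hk, hL.unr, one_mul]
  have hy : ∀ k, algebraMap K Ω k ∈ S.O ↔ k ∈ (res K x).1 := fun k => by
    rw [IsScalarTower.algebraMap_apply K L Ω, hS, mem_res]
  generalize res K x = y at hx hy ⊢
  have nη : NC X.ψ η := fun k => (hη k).1
  have nF : NC X.ψ F := fun k => (hF k).1
  have e1 : sp X.bc S η = y := sp_eq_of_over X.bc S nη fun k => by rw [(hη k).2, hy]; rfl
  have e2 : sp X.bc S F = γ • y := sp_eq_of_over X.bc S nF fun k => by
    rw [(hF k).2, hy, hθ, mem_smul]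
    by_cases k0 : sl γ⁻¹ k = 0
    · rw [k0, zero_pow (by omega)]
    · rw [Sa_mem y k0, Sa_mem y (pow_ne_zero Q k0), y.ord_pow k0]
      exact mul_nonneg_iff_of_pos_left (by omega)
  obtain ⟨c, f, c0, f0, hr⟩ := exists_red X.bc S h.ne
  obtain ⟨U, hU, a1, a2, a3, a4, a5⟩ := MainL_one h nF hne hr f0
  obtain ⟨U', hU', b1, b2, b3⟩ := MainL_two h nη hr f0
  rw [e1] at b1
  rw [e1, e2] at a3
  rw [e2] at a1 a4
  have i1 : ∀ σ : Ω ≃ₐ[K] Ω, (∀ b ∈ L, σ b = b) →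
      σ (∏ z ∈ E.support, (F.val (X.ψ U) - z.val (X.ψ U)) ^ E z) = _ := fun σ hσ =>
    X.MainL_inv σ (h.inv σ hσ).1 fun z hz => by
      rw [map_sub, X.MainL_val σ (a2 z hz), (hF U).2, σ.commutes]
  have i2 : ∀ σ : Ω ≃ₐ[K] Ω, (∀ b ∈ L, σ b = b) →
      σ (∏ z ∈ E.support, (-z.val (X.ψ U')) ^ E z) = _ := fun σ hσ =>
    X.MainL_inv σ (h.inv σ hσ).1 fun z hz => by rw [map_neg, X.MainL_val σ (b2 z hz)]
  generalize ∏ z ∈ E.support, (F.val (X.ψ U) - z.val (X.ψ U)) ^ E z = ξ₁ at a5 i1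
  generalize ∏ z ∈ E.support, (-z.val (X.ψ U')) ^ E z = ξ₂ at b3 i2
  rw [(hF U).2, (hη U).2, RingHom.id_apply, ← map_sub] at a3 a5
  rw [(hF U).2] at a4
  rw [IsScalarTower.algebraMap_apply κ K Ω, ← map_sub] at a4 a5
  rw [(hη U').2, RingHom.id_apply] at b3
  have un : ∀ {k : K}, S.Un (algebraMap K Ω k) → y.ord k = 0 := fun hk =>
    (S.un_of_over hy fun e => hk.ne (by rw [e, map_zero])).1 hk
  have s0 : sl γ⁻¹ U ≠ 0 := (map_ne_zero _).2 hU
  have t0 : θ U ≠ 0 := (map_ne_zero _).2 hU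
  have o1 : y.ord (θ U) = Q := by
    rw [hθ, y.ord_pow s0, ← ord_smul γ y s0, ← phi_mul, mul_inv_cancel, phi_one, a1, mul_one]
  have o2 : θ U - U ≠ 0 ∧ y.ord (θ U - U) = if γ • y = y then 1 else 0 := by
    split_ifs with e
    · rw [e] at a1
      have k := Place.ord_add_of_lt (P := y) (g := θ U) (neg_ne_zero.2 hU)
        (Or.inr (by rw [y.ord_neg, a1, o1]; omega))
      rwa [neg_add_eq_sub, y.ord_neg, a1] at k
    · have k := a3 (Ne.symm e)
      exact ⟨fun e => k.ne (by rw [e, map_zero]), un k⟩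
  have o3 : θ U - algebraMap κ K (o.val U) ≠ 0 ∧
      y.ord (θ U - algebraMap κ K (o.val U)) = if γ • y = o then Q else 0 := by
    split_ifs with e
    · rw [e] at a1
      rw [(Place.val_eq_zero ((Sa_mem o hU).2 (by omega))).2 (Or.inr a1.ge), map_zero, sub_zero]
      exact ⟨t0, o1⟩
    · have k := a4 (Ne.symm e)
      exact ⟨fun e => k.ne (by rw [e, map_zero]), un k⟩
  generalize θ U - U = u at a5 o2
  generalize θ U - algebraMap κ K (o.val U) = v at a5 o3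
  generalize F.val a = A at a5 hH
  have : CharP K p := charP_of_injective_algebraMap (algebraMap κ K).injective p
  have : ExpChar K p := ExpChar.prime hp
  obtain ⟨m, hm⟩ := fixed_pow p L (a := ξ₁ / ξ₂) fun σ hσ => by rw [map_div₀, i1 σ hσ, i2 σ hσ]
  have N0 : N ≠ 0 := fun e => hN (by rw [e, Nat.cast_zero])
  have z1 := div_ne_zero_iff.1 a5.ne
  have z2 := div_ne_zero_iff.1 b3.ne
  have A0 : A ≠ 0 := right_ne_zero_of_mul z1.1
  have x1 : ξ₁ ≠ 0 := fun e => right_ne_zero_of_mul z1.2 (by rw [e, zero_pow N0])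
  have x2 : ξ₂ ≠ 0 := fun e => right_ne_zero_of_mul z2.2 (by rw [e, zero_pow N0])
  have u0 : algebraMap K Ω u ≠ 0 := (map_ne_zero _).2 o2.1
  have v0 : algebraMap K Ω v ≠ 0 := (map_ne_zero _).2 o3.1
  have k0 : v * U' * u⁻¹ ≠ 0 := mul_ne_zero (mul_ne_zero o3.1 hU') (inv_ne_zero o2.1)
  have w1 : S.Un (A * algebraMap K Ω (v * U' * u⁻¹) * ((ξ₁ / ξ₂) ^ N)⁻¹) := by
    have k := (a5.div b3).neg
    rw [map_mul, map_mul, map_inv₀, div_pow]
    refine cast (congrArg S.Un ?_) k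
    field_simp
  obtain ⟨W, hW⟩ : ∃ W : L, (W : Ω) = (ξ₁ / ξ₂) ^ p ^ m := ⟨⟨_, hm⟩, rfl⟩
  have W0 : W ≠ 0 := fun e => pow_ne_zero _ (div_ne_zero x1 x2) (by rw [← hW, e]; rfl)
  have H0 : H ≠ 0 := fun e => pow_ne_zero _ A0 (by rw [← hH, e]; rfl)
  have k1 : algebraMap K L (v * U' * u⁻¹) ≠ 0 := (map_ne_zero _).2 k0
  have p1 := pow_ne_zero (p ^ m) H0
  have p2 := pow_ne_zero (p ^ s * p ^ m) k1
  have p3 := pow_ne_zero (N * p ^ s) W0
  have w2 := w1.pow (p ^ s * p ^ m)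
  have e3 : (A * algebraMap K Ω (v * U' * u⁻¹) * ((ξ₁ / ξ₂) ^ N)⁻¹) ^ (p ^ s * p ^ m) =
      algebraMap L Ω (H ^ p ^ m * algebraMap K L (v * U' * u⁻¹) ^ (p ^ s * p ^ m) *
        (W ^ (N * p ^ s))⁻¹) := by
    rw [map_mul (algebraMap L Ω), map_mul (algebraMap L Ω), map_inv₀ (algebraMap L Ω), map_pow,
      map_pow, map_pow, ← IsScalarTower.algebraMap_apply, show algebraMap L Ω H = _ from hH,
      show algebraMap L Ω W = _ from hW, mul_pow, mul_pow, inv_pow, ← pow_mul, ← pow_mul, ← pow_mul]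
    congr 3
    ring
  rw [e3, S.un_of_over hS (mul_ne_zero (mul_ne_zero p1 p2) (inv_ne_zero p3)),
    x.ord_mul (mul_ne_zero p1 p2) (inv_ne_zero p3), x.ord_mul p1 p2, x.ord_inv p3, x.ord_pow H0,
    x.ord_pow k1, x.ord_pow W0, hx k0, y.ord_mul (mul_ne_zero o3.1 hU') (inv_ne_zero o2.1),
    y.ord_mul o3.1 hU', y.ord_inv o2.1, o2.2, o3.2, b1] at w2
  have cop : IsCoprime (N : ℤ) ((p : ℤ) ^ m) := by
    refine IsCoprime.pow_right (Nat.isCoprime_iff_coprime.2 (Nat.Coprime.symm ?_))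
    exact hp.coprime_iff_not_dvd.2 fun k => hN ((CharP.cast_eq_zero_iff κ p N).2 k)
  refine cop.dvd_of_dvd_mul_left ⟨p ^ s * x.ord W, ?_⟩
  push_cast at w2 ⊢
  linear_combination w2

end Gen

end Pool.Agent.Lef
end

-- merged part: Pool.Agent.Work.MP_60d5ce_nt.Lb.GenB
section
/-!
# Finiteness and rigidity of torsion  (task LB GenB)

* `tors_finite`: `Ω = AlgebraicClosure K`, `pic_div` in `K'` for `η - up o`.  `dv_fix`, `exists_fin`: there is a finite `T ⊆ Ω` such that every `σ` that fixes `T` fixes `a` and `E`, so fixes the roots `β`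
  and has `kc σ b = 0` for all `b`.  The fixer of `T` has finite index (`IntermediateField.adjoin K T` is finite over `K`; the restrictions are finitely many `AlgHom`s).  So there are
  finitely many functions `σ ↦ kc σ b`; `kc_inj`, `kc_add`.
* `rigid`: `Φ` from `exists_sa` with the Frobenius of `κ'` (`iterateFrobeniusEquiv`).  `pa Φ` permutes the finite set of torsion classes of `K'`, `γ` permutes the poles of `t`; take `o` among them.  A power `Φ ^ m`,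
  `0 < m`, fixes the class and `up o`, so fixes the divisor `E` of `canon`; a higher power fixes each place `z` of its support.  If `NC ψ z`, the value `c` of `ψ t` satisfies `c ^ Q ^ m = c`, so
  lies in the image of `κ` (the polynomial splits in `κ`), which contradicts `NC.ord` for `t - c`.  `exists_cn`, `prin_of_cn`.
* `tors_fr`: `fr_of_crit`, `tors_finite`, `pic_div`.
-/

namespace Pool.Agent.Lef

open PR0 Pool.Agent.Ell.AT

variable {κ K : Type} [Field κ] [Field K] [Algebra κ K] [IsAlgClosed κ] [Fact (IsFF κ K)]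

theorem GenB_per {G X : Type} [Group G] (act : G → X → X) (h1 : ∀ x, act 1 x = x)
    (hm : ∀ g g' x, act (g * g') x = act g (act g' x)) (g : G) {x : X} {S : Set X} (hS : S.Finite)
    (hx : ∀ n : ℕ, act (g ^ n) x ∈ S) : ∃ m : ℕ, 0 < m ∧ act (g ^ m) x = x := by
  obtain ⟨a, b, hab, e⟩ := hS.exists_lt_map_eq_of_forall_mem hx
  refine ⟨b - a, by omega, ?_⟩
  have := congrArg (act (g ^ a)⁻¹) e
  rw [← hm, ← hm, inv_mul_cancel, h1] at this
  rwa [show g ^ b = g ^ a * g ^ (b - a) by rw [← pow_add, Nat.add_sub_cancel' hab.le],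
    inv_mul_cancel_left, eq_comm] at this

theorem GenB_val_pow {P : Place κ K} {t : K} (ht : t ∈ P.1) (n : ℕ) :
    P.val (t ^ n) = P.val t ^ n := by
  induction n with
  | zero => simpa using Place.val_const (P := P) 1
  | succ n ih => rw [pow_succ, pow_succ, Place.val_mul (pow_mem ht n) ht, ih]

omit [IsAlgClosed κ] [Fact (IsFF κ K)] in
theorem GenB_pow {Ψ : SA κ K} {q : ℕ} {t : K} (hc : ∀ c, sc Ψ c = c ^ q) (ht : sl Ψ t = t)
    (n : ℕ) : (∀ c, sc (Ψ ^ n) c = c ^ q ^ n) ∧ sl (Ψ ^ n) t = t := by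
  induction n with
  | zero => exact ⟨fun c => by rw [pow_zero, phi_one, pow_zero, pow_one], phi_one t⟩
  | succ n ih =>
    exact ⟨fun c => by rw [pow_succ, phi_mul, hc, ih.1, ← pow_mul, pow_succ'],
      by rw [pow_succ, phi_mul, ht, ih.2]⟩

omit [IsAlgClosed κ] [Fact (IsFF κ K)] in
theorem GenB_ne {q : ℕ} (hq : 1 < q) {t : K} (ht : Transcendental κ t) : t ^ q - t ≠ 0 := by
  intro h
  refine FiniteField.X_pow_card_sub_X_ne_zero κ hq (_root_.transcendental_iff.1 ht _ ?_)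
  simpa using h

theorem GenB_ord {Ψ : SA κ K} {q : ℕ} {t : K} (hc : ∀ c, sc Ψ c = c ^ q) (ht : sl Ψ t = t)
    (h0 : t ^ q - t ≠ 0) {y : Place κ K} (hy : Ψ • y = y) (hm : t ∈ y.1) :
    y.ord (t ^ q - t) ≠ 0 := by
  have e := val_smul Ψ y hm
  rw [hy, ht, hc] at e
  have e2 := Place.val_add (sub_mem (pow_mem hm q) hm) hm
  rw [sub_add_cancel, GenB_val_pow hm, ← e, right_eq_add,
    Place.val_eq_zero (sub_mem (pow_mem hm q) hm)] at e2
  rcases e2 with h | h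
  · exact absurd h h0
  · omega

omit [IsAlgClosed κ] [Fact (IsFF κ K)] in
theorem IsFr.GenB_lt {p : ℕ} [Fact p.Prime] {γ : SA κ K} {Q : ℕ} (hγ : IsFr p γ Q) : 1 < Q := by
  obtain ⟨f, hf, rfl⟩ := hγ.pow
  exact Nat.one_lt_pow hf.ne' (Fact.out : p.Prime).one_lt

variable (κ K) in
theorem tors_finite {N : ℕ} (hN : (N : κ) ≠ 0) : (tors (Pic κ K) N : Set (Pic κ K)).Finite := by
  classical
  have hN0 : N ≠ 0 := by
    rintro rfl
    exact hN Nat.cast_zero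
  have : NeZero N := ⟨hN0⟩
  have : NeZero (N : κ) := ⟨hN⟩
  obtain ⟨ζ, hζ⟩ := HasEnoughRootsOfUnity.exists_primitiveRoot κ N
  obtain ⟨K', _, _, _, ⟨X⟩⟩ := exists_gen κ K (AlgebraicClosure K)
  obtain ⟨η, hη⟩ := X.exists_pt (RingHom.id K) fun _ => rfl
  obtain ⟨o⟩ := (infinite_place (K := κ) (L := K)).nonempty
  have hN' : (N : AlgebraicClosure K) ≠ 0 := by
    rw [← map_natCast (algebraMap κ (AlgebraicClosure K))]
    exact (map_ne_zero _).2 hN
  obtain ⟨a, E, ha, hE⟩ := pic_div hN'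
    (D := Finsupp.single η 1 - Finsupp.single (up X.bc o) 1)
    (by rw [dg_sub, dg_single, dg_single, sub_self])
  obtain ⟨S, hS⟩ := dv_fix E
  obtain ⟨T, hT⟩ := exists_fin X.bc (insert a S)
  have key : ∀ u ∈ Fx (sc.comp X.tl) T, ∀ b : Pic κ K, N • b = 0 → kc ζ N u b = 0 := by
    intro u hu b hb
    have h1 := hT (X.tl u) (mem_Fx.1 hu) (X.tl_ψ u)
    have h2 := hS _ fun c hc => h1 c (Finset.mem_insert_of_mem hc)
    have h3 := h1 a (Finset.mem_insert_self _ _)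
    obtain ⟨f, D, hf, rfl, -, o1, o2, e⟩ := X.root hη hN0 ha hE hb Set.finite_empty
    refine kc_eq hN0 hζ hf.kum e ?_
    have e1 := evD_smul o1 (X.tl u)
    have e2 := evD_smul o2 (X.tl u)
    rw [X.smul_cn, h3, X.tl_c] at e1
    rw [h2, X.tl_ψ, X.tl_c] at e2
    rw [map_div₀, ← e1, ← e2, ZMod.val_zero, pow_zero, map_one, one_mul]
  have hf : FinOrb (sc.comp X.tl) := finOrb_of_algebraic (K := K) fun g c => by
    rw [MonoidHom.comp_apply, X.tl_c, g.commutes]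
  have hfin := Smo.finite hf
    (f := fun σ (b : tors (Pic κ K) N) => kc ζ N σ (b : Pic κ K)) ⟨T, fun g u hu =>
      funext fun b => (kc_mul hN0 hζ g u b.2).trans (by rw [key u hu b b.2, add_zero])⟩
  have := hfin.to_subtype
  refine Set.finite_coe_iff.1 (Finite.of_injective
    (fun (b : tors (Pic κ K) N) (F : Set.range fun (σ : AlgebraicClosure K ≃ₐ[K] AlgebraicClosure K)
      (b : tors (Pic κ K) N) => kc ζ N σ (b : Pic κ K)) => F.1 b) fun b b' e => ?_)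
  have hb : N • ((b : Pic κ K) - b') = 0 := (sub_mem b.2 b'.2 : _ ∈ tors (Pic κ K) N)
  refine Subtype.ext (sub_eq_zero.1 (kc_inj (Ω := AlgebraicClosure K) hN0 hζ hb fun σ => ?_))
  have e1 : kc ζ N σ (b : Pic κ K) = kc ζ N σ (b' : Pic κ K) := congrFun e ⟨_, σ, rfl⟩
  have e2 := kc_add hN0 hζ σ hb b'.2
  rwa [sub_add_cancel, e1, right_eq_add] at e2

theorem tors_fr (h2 : (2 : κ) ≠ 0) (J : ℕ) : Fr (2 ^ (J + 1)) (tors (Pic κ K) (2 ^ (J + 1))) := by
  refine fr_of_crit (tors_finite κ K (by exact_mod_cast pow_ne_zero _ h2)) (fun x hx => hx)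
    fun x _ hx => ?_
  obtain ⟨f, D, hf, rfl, -⟩ := exists_kumD hx Set.finite_empty
  obtain ⟨a, E, -, hE⟩ := pic_div (N := 2 ^ J) (by exact_mod_cast pow_ne_zero _ h2) (D := -D)
    (by rw [dg_neg, hf.dg_eq two_ne_zero, neg_zero])
  have e := cl_dv (𝕜 := κ) a
  rw [hE, map_add, map_neg, map_nsmul, neg_add_eq_zero] at e
  refine ⟨cl E, ?_, e⟩
  rw [mem_tors, pow_succ', mul_smul, ← e, hx]

theorem fix_finite {p : ℕ} [Fact p.Prime] {γ : SA κ K} {Q : ℕ} (hγ : IsFr p γ Q) :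
    {y : Place κ K | γ • y = y}.Finite := by
  obtain ⟨t, ht, e⟩ := hγ.fix
  have h0 := GenB_ne hγ.GenB_lt ht
  refine ((finite_poles (K := κ) t).union (finite_ord (K := κ) h0)).subset fun y hy => ?_
  by_cases hm : t ∈ y.1
  · exact Or.inr (GenB_ord hγ.c e h0 hy hm)
  · exact Or.inl hm

theorem rigid {κ' K' : Type} [Field κ'] [Field K'] [Algebra κ' K'] [IsAlgClosed κ']
    [Fact (IsFF κ' K')] {φ : κ →+* κ'} {ψ : K →+* K'} (h : BC φ ψ) {p : ℕ} [Fact p.Prime] [CharP κ p]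
    {γ : SA κ K} {Q : ℕ} (hγ : IsFr p γ Q) {N : ℕ} (hN : (N : κ) ≠ 0) {c : Pic κ' K'}
    (hc : N • c = 0) : ∃ D : Dv κ K, N • cl D = 0 ∧ cl (cn h D) = c := by
  have hN0 : N ≠ 0 := by
    rintro rfl
    exact hN Nat.cast_zero
  have hN' : (N : κ') ≠ 0 := by
    rw [← map_natCast φ]
    exact (map_ne_zero _).2 hN
  obtain ⟨f, -, hQ⟩ := hγ.pow
  obtain ⟨t, ht, e⟩ := hγ.fix
  have : CharP κ' p := charP_of_injective_ringHom φ.injective p
  have : ExpChar κ' p := ExpChar.prime Fact.out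
  obtain ⟨Φ, h1, h2⟩ := exists_sa h (iterateFrobeniusEquiv κ' p f) γ fun c => by
    rw [hγ.c, map_pow, iterateFrobeniusEquiv_def, hQ]
  have hp := GenB_pow (Ψ := Φ) (q := Q) (t := ψ t)
    (fun c => by rw [h1, iterateFrobeniusEquiv_def, hQ]) (by rw [h2, e])
  have ht' := h.BC_tr ht
  obtain ⟨o, ho⟩ : ∃ o : Place κ' K', ψ t ∉ o.1 := by
    by_contra hn
    obtain ⟨a, ha⟩ := const_of_regular (K := κ') fun P => not_not.1 (not_exists.1 hn P)
    exact PR0.transcendental_iff.1 ht' ⟨a, ha.symm⟩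
  obtain ⟨g, D', hg, rfl, -⟩ := exists_kumD hc Set.finite_empty
  obtain ⟨r, E, hE, hcl, hu⟩ := canon o (hg.dg_eq hN0)
  obtain ⟨m, hm, hfix⟩ := GenB_per (G := SA κ' K')
    (fun σ (x : Pic κ' K' × Place κ' K') => (pa σ x.1, σ • x.2))
    (fun x => by rw [pa_one, one_smul]) (fun σ σ' x => by rw [pa_mul, mul_smul]) Φ (x := (cl D', o))
    ((tors_finite κ' K' hN').prod (finite_poles (K := κ') (ψ t))) fun n =>
      ⟨show N • pa (Φ ^ n) (cl D') = 0 by rw [← map_nsmul, hc, map_zero], fun hh => ho (by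
        rwa [← (hp n).2, sl_mem] at hh)⟩
  obtain ⟨f1, f2⟩ := Prod.mk.inj hfix
  have hΨ : Φ ^ m • E = E := hu _ (fun P => by rw [dv_smul_apply]; exact hE _) (by
    rw [← f1, ← hcl, pa_cl, smul_sub, dv_smul_nsmul, smul_single, f2])
  have hΨ' : ∀ n : ℕ, (Φ ^ m) ^ n • E = E := fun n => by
    induction n with
    | zero => rw [pow_zero, one_smul]
    | succ n ih => rw [pow_succ, mul_smul, hΨ, ih]
  have h0 : ∀ z, NC ψ z → E z = 0 := fun z hz => by
    by_contra hne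
    obtain ⟨k, hk, hz'⟩ := GenB_per (G := SA κ' K') (fun σ (x : Place κ' K') => σ • x)
      (one_smul _) mul_smul (Φ ^ m) (x := z) E.support.finite_toSet fun n => by
        rw [Finset.mem_coe, Finsupp.mem_support_iff, ← hΨ' n, dv_smul_apply, inv_smul_smul]
        exact hne
    rw [← pow_mul] at hz'
    have hq : 1 < Q ^ (m * k) := Nat.one_lt_pow (Nat.mul_pos hm hk).ne' hγ.GenB_lt
    refine GenB_ord (hp _).1 (hp _).2 (GenB_ne hq ht') hz' (hz t) ?_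
    rw [← map_pow, ← map_sub]
    exact hz.ord (GenB_ne hq ht)
  obtain ⟨D, hD⟩ := exists_cn h (D' := E - r • Finsupp.single o 1) fun z hz => by
    have : z ≠ o := fun e' => ho (e' ▸ hz t)
    rw [Finsupp.sub_apply, h0 z hz, Finsupp.smul_apply, Finsupp.single_eq_of_ne this, smul_zero,
      sub_zero]
  refine ⟨D, ?_, by rw [hD, hcl]⟩
  rw [← map_nsmul]
  exact prin_of_cn h (by rw [map_nsmul, map_nsmul, hD, hcl, hc])

end Pool.Agent.Lef
end

-- merged part: Pool.Agent.Work.MP_60d5ce_nt.Lb.MainD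
section
/-!
# The main datum  (task LB MainD)

* `we_inj`: with the basis `a j = e (single j 1)` the additive map `x ↦ (lg (we (e x) (a j))) j` of `Fin r → ZMod N` is onto (`kc_dual`, `lg_pow_val`), so injective.
* `main_hd`: `exists_gen`, `η`, `θ`, `F` (`exists_pt`, `exists_theta`), any `o`, `pic_div` for `η - up o`, `τ σ` from `rigid` (`dv_sl`), `tau_we`.  If `σ` fixes `L` then `τ σ = 0` (`we_inj`), so `normal` applies.
  For each torsion class `b` choose `KD N (f b) (D b)` with `D b o = 0` and value one at `o`; `r σ ≠ 0` with `dv (r σ) = tl σ • E - E - cn (D (τ σ))` and value one at `up o`; two functions with the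
  same divisor and value one at `up o` are equal.  So `sl (tl σ) a = a * ψ (f (τ σ)) * r σ ^ N`; `r σ` is fixed by the `σ'` that fix `L` (`σ⁻¹ σ' σ` fixes `L`), depends only on the function
  `b ↦ kc σ b` on the finite set of torsion classes, and `r σ * sl (tl σ) (r σ') = r σ' * sl (tl σ') (r σ)` (commutators fix `L`).  All these functions have order zero at `F`.  `fixed_pow` gives one `s`
  with `F.val a ^ p ^ s ∈ L` and all `F.val (r σ) ^ p ^ s ∈ L`.  `β σ ∈ L` is a root of `sl γ⁻¹ (f (τ σ))`, a Kummer function of `pa γ⁻¹ (τ σ)` (`Kum.sl`);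
  `c σ = (β σ ^ Q * F.val (r σ)) ^ p ^ s`.  `z = p ^ s • (∑ (y fixed), single y 1 - single (γ⁻¹ • o) Q - single o 1)`, `local_ord`.
-/

namespace Pool.Agent.Lef

open PR0 Pool.Agent.Ell.AT

section

variable {κ K : Type} [Field κ] [Field K] [Algebra κ K] [IsAlgClosed κ] [Fact (IsFF κ K)]

/-- a function with divisor `D` and value one at `P` -/
def MainD_U (P : Place κ K) (g : K) (D : Dv κ K) : Prop :=
  g ≠ 0 ∧ dv κ g = D ∧ D P = 0 ∧ P.val g = 1

variable {P : Place κ K} {g g' : K} {D D' : Dv κ K}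

theorem MainD_U.ord (h : MainD_U P g D) (Q : Place κ K) : Q.ord g = D Q := by
  rw [← dv_apply h.1, h.2.1]

theorem MainD_U.mem (h : MainD_U P g D) : g ∈ P.1 :=
  (Sa_mem P h.1).2 ((h.ord P).trans h.2.2.1).ge

theorem MainD_U.mul (h : MainD_U P g D) (h' : MainD_U P g' D') : MainD_U P (g * g') (D + D') :=
  ⟨mul_ne_zero h.1 h'.1, by rw [dv_mul h.1 h'.1, h.2.1, h'.2.1],
    by rw [Finsupp.add_apply, h.2.2.1, h'.2.2.1, add_zero],
    by rw [Place.val_mul h.mem h'.mem, h.2.2.2, h'.2.2.2, mul_one]⟩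

theorem MainD_U.pow (h : MainD_U P g D) (n : ℕ) : MainD_U P (g ^ n) (n • D) :=
  haveI := Ev_odd
  ⟨pow_ne_zero n h.1, by rw [dv_pow h.1, h.2.1], by rw [Finsupp.smul_apply, h.2.2.1, smul_zero],
    by rw [Sy_pow h.1 ((h.ord P).trans h.2.2.1), h.2.2.2, one_pow]⟩

theorem MainD_U.smul (h : MainD_U P g D) {σ : SA κ K} (hσ : σ • P = P) :
    MainD_U P (sl σ g) (σ • D) :=
  ⟨(map_ne_zero _).2 h.1, by rw [dv_sl, h.2.1],
    by rw [dv_smul_apply, inv_smul_eq_iff.2 hσ.symm, h.2.2.1], by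
      have := val_smul σ P h.mem
      rwa [hσ, h.2.2.2, map_one] at this⟩

theorem MainD_U.eq (h : MainD_U P g D) (h' : MainD_U P g' D') (e : D = D') : g = g' := by
  obtain ⟨c, -, hc⟩ := const_of_dv (𝕜 := κ) (div_ne_zero h.1 h'.1)
    (by rw [dv_div h.1 h'.1, h.2.1, h'.2.1, e, sub_self])
  rw [div_eq_iff h'.1] at hc
  have := h.2.2.2
  rw [hc, Place.val_mul (P.2.2 c) h'.mem, Place.val_const, h'.2.2.2, mul_one] at this
  rw [hc, this, map_one, one_mul]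

theorem MainD_ex (h : cl D = 0) (h' : D P = 0) : ∃ g, MainD_U P g D := by
  have := Ev_odd
  obtain ⟨g, h0, rfl⟩ := cl_eq_zero.1 h
  obtain ⟨h1, h2⟩ := val_ne h0 ((dv_apply h0 P).symm.trans h')
  have h3 : algebraMap κ K (P.val g)⁻¹ ≠ 0 := (map_ne_zero _).2 (inv_ne_zero h2)
  exact ⟨algebraMap κ K (P.val g)⁻¹ * g, mul_ne_zero h3 h0,
    by rw [dv_mul h3 h0, dv_const, zero_add], h',
    by rw [Place.val_mul (P.2.2 _) h1, Place.val_const, inv_mul_cancel₀ h2]⟩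

theorem MainD_U.psi {κ' K' : Type} [Field κ'] [Field K'] [Algebra κ' K'] [IsAlgClosed κ']
    [Fact (IsFF κ' K')] {φ : κ →+* κ'} {ψ : K →+* K'} (hb : BC φ ψ) (h : MainD_U P g D) :
    MainD_U (up hb P) (ψ g) (cn hb D) :=
  ⟨(map_ne_zero _).2 h.1, by rw [dv_psi hb, h.2.1], by rw [cn_up, h.2.2.1],
    by rw [val_up hb h.mem, h.2.2.2, map_one]⟩

theorem MainD_unif {Ω : Type} [Field Ω] [Algebra K Ω] (p : ℕ) (L : IntermediateField K Ω)
    {T : Set Ω} (hT : T.Finite) (h : ∀ t ∈ T, ∃ s : ℕ, t ^ p ^ s ∈ L) :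
    ∃ s : ℕ, ∀ t ∈ T, t ^ p ^ s ∈ L :=
  ((Filter.eventually_all_finite hT).2 fun t ht => by
    obtain ⟨s, hs⟩ := h t ht
    filter_upwards [Filter.eventually_ge_atTop s] with m hm
    obtain ⟨k, rfl⟩ := Nat.exists_eq_add_of_le hm
    rw [pow_add, pow_mul]
    exact pow_mem hs _).exists

end

section

variable {κ K Ω : Type} [Field κ] [Field K] [Field Ω] [Algebra κ K] [Algebra K Ω]
  [Algebra κ Ω] [IsScalarTower κ K Ω] [IsAlgClosed κ] [Fact (IsFF κ K)] [IsAlgClosed Ω]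
  [Algebra.IsAlgebraic K Ω] {ζ : κ} {N : ℕ} (hN : N ≠ 0) (hζ : IsPrimitiveRoot ζ N)
  (hfr : Fr N (tors (Pic κ K) N))

include hN hζ hfr

theorem we_inj {τ : (Ω ≃ₐ[K] Ω) → Pic κ K} (h1 : ∀ σ, N • τ σ = 0)
    (h2 : ∀ σ b, N • b = 0 → we N (τ σ) b = ζ ^ (kc ζ N σ b).val) {c c' : Pic κ K}
    (hc : N • c = 0) (hc' : N • c' = 0) (h : ∀ b, N • b = 0 → we N c b = we N c' b) : c = c' := by
  obtain ⟨r, e, he, hr⟩ := hfr
  have : NeZero N := ⟨hN⟩
  have ht : ∀ x, N • e x = 0 := fun x => mem_tors.1 (hr ▸ ⟨x, rfl⟩)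
  have hs : ∀ b, N • b = 0 → ∃ x, e x = b := fun b hb => hr.ge (mem_tors.2 hb)
  obtain ⟨σ, hσ⟩ := kc_dual Ω hN hζ e he
  have hsur : Function.Surjective fun x j => lg ζ N (we N (e x) (e (Pi.single j 1))) := by
    intro y
    have k : ∀ s : Finset (Fin r), ∃ σ' : Ω ≃ₐ[K] Ω, ∀ x,
        kc ζ N σ' (e x) = ∑ i ∈ s, y i * x i := fun s => by
      induction s using Finset.cons_induction with
      | empty => exact ⟨1, fun x => kc_one hN hζ (ht x)⟩
      | cons i s hi ih =>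
        obtain ⟨σ', h'⟩ := ih
        exact ⟨σ i ^ (y i).val * σ', fun x => by
          rw [kc_mul hN hζ _ _ (ht x), kc_pow hN hζ _ (ht x), hσ, h', Finset.sum_cons,
            ZMod.natCast_zmod_val]⟩
    obtain ⟨σ', h'⟩ := k Finset.univ
    obtain ⟨x, hx⟩ := hs _ (h1 σ')
    refine ⟨x, funext fun j => ?_⟩
    dsimp only
    rw [hx, h2 _ _ (ht _), lg_pow_val hN hζ, h']
    simp [Pi.single_apply]
  obtain ⟨x, rfl⟩ := hs c hc
  obtain ⟨x', rfl⟩ := hs c' hc'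
  exact congrArg e (Finite.injective_iff_surjective.2 hsur
    (funext fun j => congrArg (lg ζ N) (h _ (ht _))))

theorem main_hd {p : ℕ} [Fact p.Prime] [CharP κ p] {γ : SA κ K} {Q : ℕ} (hγ : IsFr p γ Q)
    {L : IntermediateField K Ω} [FiniteDimensional K L] [IsGalois K L] [Fact (IsFF κ L)]
    (hL : IsKF ζ N L) : ∃ (τ : (Ω ≃ₐ[K] Ω) → Pic κ K) (s : ℕ), (∀ σ, N • τ σ = 0) ∧
      (∀ σ b, N • b = 0 → we N (τ σ) b = ζ ^ (kc ζ N σ b).val) ∧
      IsHD ζ N L (fun σ σ' => (p ^ s * Q : ℕ) *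
          (kc ζ N σ (pa γ⁻¹ (τ σ')) - kc ζ N σ' (pa γ⁻¹ (τ σ))))
        ((p ^ s : ℕ) * (({y : Place κ K | γ • y = y}.ncard : ZMod N) - Q - 1)) := by
  classical
  have := Ev_odd
  have : NeZero N := ⟨hN⟩
  have hNκ : (N : κ) ≠ 0 := hζ.neZero'.out
  have hNΩ : (N : Ω) ≠ 0 := by
    rw [← map_natCast (algebraMap κ Ω)]
    exact (map_ne_zero _).2 hNκ
  have : CharP K p := charP_of_injective_algebraMap (algebraMap κ K).injective p
  have : ExpChar K p := ExpChar.prime Fact.out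
  obtain ⟨K', _, _, _, ⟨X⟩⟩ := exists_gen κ K Ω
  obtain ⟨η, hη⟩ := X.exists_pt (RingHom.id K) fun _ => rfl
  obtain ⟨θ, hθ, hθc, hθ1⟩ := exists_theta hγ
  obtain ⟨F, hF⟩ := X.exists_pt θ hθc
  have hne : F ≠ η := fun e => hθ1 (RingHom.ext fun f =>
    (algebraMap K Ω).injective ((hF f).2.symm.trans (e ▸ (hη f).2)))
  have hnc : NC X.ψ F := fun f => (hF f).1
  have hnη : NC X.ψ η := fun f => (hη f).1
  obtain ⟨o⟩ : Nonempty (Place κ K) := (infinite_place (K := κ) (L := K)).nonempty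
  obtain ⟨a0, E0, ha0, hE0⟩ := pic_div hNΩ
    (D := Finsupp.single η 1 - Finsupp.single (up X.bc o) 1) (by simp [dg_sub, dg_single])
  have hsm : ∀ σ (E : Dv Ω K'), X.tl σ • (Finsupp.single η 1 - Finsupp.single (up X.bc o) 1 +
      N • E) = Finsupp.single η 1 - Finsupp.single (up X.bc o) 1 + N • X.tl σ • E := fun σ E => by
    rw [smul_add, smul_sub, smul_single, smul_single, hη.smul, X.smul_up, dv_smul_nsmul]
  have hD0 : ∀ σ, ∃ D : Dv κ K, N • cl D = 0 ∧ cl (cn X.bc D) = cl (X.tl σ • E0) - cl E0 :=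
    fun σ => rigid X.bc hγ hNκ (by
      have e1 := cl_dv (𝕜 := Ω) (sl (X.tl σ) a0)
      have e2 := cl_dv (𝕜 := Ω) a0
      rw [dv_sl, hE0, hsm, map_add, map_nsmul] at e1
      rw [hE0, map_add, map_nsmul] at e2
      rw [smul_sub, add_left_cancel (e1.trans e2.symm), sub_self])
  choose D0 d1 d2 using hD0
  obtain ⟨τ, hτ⟩ : ∃ τ : (Ω ≃ₐ[K] Ω) → Pic κ K, ∀ σ, τ σ = cl (D0 σ) := ⟨_, fun _ => rfl⟩
  have t1 : ∀ σ, N • τ σ = 0 := fun σ => hτ σ ▸ d1 σ
  have t2 : ∀ σ b, N • b = 0 → we N (τ σ) b = ζ ^ (kc ζ N σ b).val := fun σ b hb =>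
    hτ σ ▸ X.tau_we hη hN ha0 hE0 hζ σ (d1 σ) (d2 σ).symm hb
  let R : (Ω ≃ₐ[K] Ω) → (Ω ≃ₐ[K] Ω) → Prop := fun σ σ' =>
    ∀ b : Pic κ K, N • b = 0 → kc ζ N σ b = kc ζ N σ' b
  have t3 : ∀ σ σ', R σ σ' → τ σ = τ σ' := fun σ σ' h =>
    we_inj hN hζ hfr t1 t2 (t1 σ) (t1 σ') fun b hb => by rw [t2 _ _ hb, t2 _ _ hb, h b hb]
  obtain ⟨a, E, hnf, hcl⟩ := X.normal L hN hη hF ha0 hE0 fun σ hσ => by
    have e1 := t3 σ 1 fun b hb => by rw [(hL.fix σ).1 hσ b hb, kc_one hN hζ hb]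
    rw [hτ, hτ, ← cl_cn_eq X.bc, d2, d2, map_one, one_smul, sub_self] at e1
    exact sub_eq_zero.1 e1
  have hE : ∀ σ σ', R σ σ' → X.tl σ • E = X.tl σ' • E := fun σ σ' h => by
    have e1 := (hnf.inv (σ'⁻¹ * σ) ((hL.fix _).2 fun b hb => by
      rw [kc_mul hN hζ _ _ hb, kc_inv hN hζ _ hb, h b hb, neg_add_cancel])).1
    rwa [map_mul, map_inv, mul_smul, inv_smul_eq_iff] at e1
  have hf : ∀ b : Pic κ K, N • b = 0 → ∃ (f : K) (D : Dv κ K), cl D = b ∧ D o = 0 ∧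
      MainD_U o f (N • D) := fun b hb => by
    obtain ⟨-, D, -, h1, h2⟩ := exists_kumD hb (Set.finite_singleton o)
    obtain ⟨f, h3⟩ := MainD_ex (D := N • D) (P := o) (by rw [map_nsmul, h1, hb])
      (by rw [Finsupp.smul_apply, h2 o rfl, smul_zero])
    exact ⟨f, D, h1, h2 o rfl, h3⟩
  choose! f D f1 f2 f3 using hf
  have hfix : ∀ σ (z : Place Ω K'), X.tl σ⁻¹ • z = z → E z = 0 → (X.tl σ • E) z = 0 :=
    fun σ z h1 h2 => by rw [dv_smul_apply, ← map_inv, h1, h2]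
  have hr : ∀ σ, ∃ r, MainD_U (up X.bc o) r (X.tl σ • E - E - cn X.bc (D (τ σ))) := fun σ =>
    MainD_ex (by
      rw [map_sub, map_sub, ← pa_cl, hcl, pa_cl, ← d2,
        (cl_cn_eq X.bc).2 ((f1 _ (t1 σ)).trans (hτ σ)), sub_self]) (by
      rw [Finsupp.sub_apply, Finsupp.sub_apply, hfix σ _ (X.smul_up _ o) hnf.at_o, hnf.at_o, cn_up,
        f2 _ (t1 σ), sub_zero, sub_zero])
  choose r hr using hr
  have hu : X.ψ o.unif ≠ 0 := (map_ne_zero _).2 o.unif_ne_zero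
  have ha : MainD_U (up X.bc o) (a * X.ψ o.unif) (Finsupp.single η 1 -
      Finsupp.single (up X.bc o) 1 + N • E + cn X.bc (dv κ o.unif)) :=
    ⟨mul_ne_zero hnf.ne hu, by rw [dv_mul hnf.ne hu, hnf.dv_eq, dv_psi X.bc], by
      simp [hnf.at_o, cn_up, dv_apply o.unif_ne_zero, o.ord_unif,
        Finsupp.single_eq_of_ne (hnη.ne_up X.bc o).symm], hnf.val⟩
  have r1 : ∀ σ, sl (X.tl σ) a = a * X.ψ (f (τ σ)) * r σ ^ N := fun σ => by
    have e1 := (ha.smul (X.smul_up σ o)).eq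
      ((ha.mul ((f3 _ (t1 σ)).psi X.bc)).mul ((hr σ).pow N)) (by
        rw [smul_add, hsm, X.smul_cn, map_nsmul, smul_sub, smul_sub]
        abel)
    rw [map_mul, X.tl_ψ] at e1
    exact mul_right_cancel₀ hu (by rw [e1]; ring)
  have r2 : ∀ σ σ', R σ σ' → r σ = r σ' := fun σ σ' h =>
    (hr σ).eq (hr σ') (by rw [hE σ σ' h, t3 σ σ' h])
  have r3 : ∀ σ σ', (∀ b ∈ L, σ' b = b) → sl (X.tl σ') (r σ) = r σ := fun σ σ' h =>
    ((hr σ).smul (X.smul_up σ' o)).eq (hr σ) (by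
      rw [smul_sub, smul_sub, X.smul_cn, (hnf.inv σ' h).1, ← mul_smul, ← map_mul,
        hE (σ' * σ) σ fun b hb => by rw [kc_mul hN hζ _ _ hb, (hL.fix σ').1 h b hb, zero_add]])
  have r4 : ∀ σ σ', r σ * sl (X.tl σ) (r σ') = r σ' * sl (X.tl σ') (r σ) := fun σ σ' =>
    ((hr σ).mul ((hr σ').smul (X.smul_up σ o))).eq
      ((hr σ').mul ((hr σ).smul (X.smul_up σ' o))) (by
        simp only [smul_sub, X.smul_cn, ← mul_smul, ← map_mul]
        rw [hE (σ * σ') (σ' * σ) fun b hb => by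
          rw [kc_mul hN hζ _ _ hb, kc_mul hN hζ _ _ hb, add_comm]]
        abel)
  have oa : F.ord a = 0 := by
    rw [← dv_apply hnf.ne, hnf.dv_eq]
    simp [hnf.at_F, Finsupp.single_eq_of_ne hne, Finsupp.single_eq_of_ne (hnc.ne_up X.bc o)]
  have o2 : ∀ σ, F.ord (r σ) = 0 := fun σ => by
    rw [(hr σ).ord, Finsupp.sub_apply, Finsupp.sub_apply, hfix σ _ (hF.smul _) hnf.at_F, hnf.at_F,
      cn_nc _ _ hnc, sub_zero, sub_zero]
  have ma := val_ne hnf.ne oa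
  have mr := fun σ => (val_ne (hr σ).1 (o2 σ)).1
  have hv : ∀ σ, ∀ g ∈ F.1, F.val (sl (X.tl σ) g) = σ (F.val g) := fun σ g hg => by
    have := val_smul (X.tl σ) F hg
    rwa [hF.smul, X.tl_c] at this
  have hm : ∀ σ, ∀ g ∈ F.1, sl (X.tl σ) g ∈ F.1 := fun σ g hg => by
    have := (sl_mem (σ := X.tl σ)).2 hg
    rwa [hF.smul] at this
  have hfin : (Set.range fun σ => F.val (r σ)).Finite := by
    have : Finite (tors (Pic κ K) N) := hfr.finite
    have e1 : Function.FactorsThrough (fun σ => F.val (r σ))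
        fun σ (b : tors (Pic κ K) N) => kc ζ N σ b.1 := fun σ σ' h =>
      congrArg F.val (r2 σ σ' fun b hb => congrFun h ⟨b, hb⟩)
    refine (Set.finite_range (Function.extend (fun σ (b : tors (Pic κ K) N) => kc ζ N σ b.1)
      (fun σ => F.val (r σ)) fun _ => 0)).subset ?_
    rintro _ ⟨σ, rfl⟩
    exact ⟨_, e1.extend_apply _ σ⟩
  obtain ⟨s, hs⟩ := MainD_unif p L (hfin.insert (F.val a)) (by
    rintro _ (rfl | ⟨σ, rfl⟩)
    · exact fixed_pow p L fun σ' h => by rw [← hv σ' a ma.1, (hnf.inv σ' h).2]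
    · exact fixed_pow p L fun σ' h => by rw [← hv σ' _ (mr σ), r3 σ σ' h])
  choose β hβ using fun σ => IsAlgClosed.exists_pow_nat_eq
    (algebraMap K Ω (sl γ⁻¹ (f (τ σ)))) (Nat.pos_of_ne_zero hN)
  have hk : ∀ σ, Kum N (sl γ⁻¹ (f (τ σ))) (pa γ⁻¹ (τ σ)) := fun σ =>
    Kum.sl ⟨(f3 _ (t1 σ)).1, _, (f3 _ (t1 σ)).2.1, f1 _ (t1 σ)⟩ _
  refine ⟨τ, s, t1, t2, ⟨F.val a ^ p ^ s, hs _ (Or.inl rfl)⟩,
    fun σ => ⟨(β σ ^ Q * F.val (r σ)) ^ p ^ s, by
      rw [mul_pow]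
      exact mul_mem (pow_mem (pow_mem (hL.root _ _ _ (hk σ) (hβ σ)) _) _)
        (hs _ (Or.inr ⟨σ, rfl⟩))⟩,
    (p ^ s : ℤ) • (∑ y ∈ (fix_finite hγ).toFinset, Finsupp.single y 1 -
      Finsupp.single (γ⁻¹ • o) (Q : ℤ) - Finsupp.single o 1),
    fun e => pow_ne_zero _ ma.2 (congrArg Subtype.val e), fun σ => ?_, fun σ σ' => ?_,
    fun x => ?_, ?_⟩
  · dsimp only
    rw [map_pow, ← hv σ a ma.1, r1, Place.val_mul (mul_mem ma.1 (hnc _)) (pow_mem (mr σ) N),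
      Place.val_mul ma.1 (hnc _), Sy_pow (hr σ).1 (o2 σ), (hF _).2, hθ, map_pow, ← hβ]
    ring
  · have e1 := congrArg F.val (r4 σ σ')
    rw [Place.val_mul (mr σ) (hm σ _ (mr σ')), Place.val_mul (mr σ') (hm σ' _ (mr σ)),
      hv σ _ (mr σ'), hv σ' _ (mr σ)] at e1
    have e2 := pow_val_add hN hζ.pow_eq_one
      (kc ζ N σ (pa γ⁻¹ (τ σ')) - kc ζ N σ' (pa γ⁻¹ (τ σ))) (kc ζ N σ' (pa γ⁻¹ (τ σ)))
    rw [sub_add_cancel] at e2
    dsimp only
    rw [pow_val_mul hN hζ.pow_eq_one]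
    simp only [map_pow, map_mul, kc_spec hN hζ σ (hk σ') (hβ σ'), kc_spec hN hζ σ' (hk σ) (hβ σ)]
    rw [← map_pow, e2, map_mul, map_pow, map_pow, mul_comm (p ^ s), pow_mul, ← mul_pow, ← mul_pow,
      ← mul_pow]
    refine congrArg (· ^ p ^ s) ?_
    simp only [mul_pow]
    linear_combination (β σ ^ Q * β σ' ^ Q *
      (algebraMap κ Ω ζ ^ (kc ζ N σ (pa γ⁻¹ (τ σ')) - kc ζ N σ' (pa γ⁻¹ (τ σ))).val) ^ Q *
      (algebraMap κ Ω ζ ^ (kc ζ N σ' (pa γ⁻¹ (τ σ))).val) ^ Q) * e1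
  · have e1 := X.local_ord hγ hNκ hL hη hθ hF hne hnf
      (H := ⟨F.val a ^ p ^ s, hs _ (Or.inl rfl)⟩) rfl x
    simpa only [Finsupp.smul_apply, Finsupp.sub_apply, Finset.sum_apply', Finsupp.single_apply,
      Finset.sum_ite_eq', Set.Finite.mem_toFinset, Set.mem_ofPred_eq, smul_eq_mul, inv_smul_eq_iff,
      eq_comm (a := o), Nat.cast_ite, Nat.cast_zero] using e1
  · rw [dg_smul, dg_sub, dg_sub, dg_sum, dg_single, dg_single,
      Set.ncard_eq_toFinset_card _ (fix_finite hγ)]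
    simp [dg_single]

end

end Pool.Agent.Lef
end

-- merged part: Pool.Agent.Work.MP_60d5ce_nt.Lb.ThmA
section
/-!
# The trace of Frobenius on the torsion of the Jacobian  (task LB ThmA)

`Ω = AlgebraicClosure K`, `ζ` a primitive root of unity in `κ`, `L` from `exists_kf`, `main_hd`.
* `thmA`: `tors_fr`, dual elements `σ i`, `b i = pa γ⁻¹ (τ (σ i))`; `τ σ' = ∑ kc σ' (a i) • τ (σ i)` by `we_inj`.  Add `p ^ s * Q` times the sum of the elementary data for `(a i, b i)`; the form is zero;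
  `hd_zero`; `Q * lg (we (b i) (a i)) = lg (we (τ (σ i)) (pa γ (a i))) = kc (σ i) (pa γ (a i))` (`we_pa`, `lg_pow`) is the diagonal entry of the matrix; `p ^ s` is a unit.
-/

namespace Pool.Agent.Lef

open PR0 Pool.Agent.Ell.AT

variable {κ K : Type} [Field κ] [Field K] [Algebra κ K] [IsAlgClosed κ] [Fact (IsFF κ K)]

theorem ThmA_pa (γ : SA κ K) {N : ℕ} {c : Pic κ K} (h : N • c = 0) : N • pa γ c = 0 := by
  rw [← map_nsmul, h, map_zero]

theorem ThmA_tau {Ω : Type} [Field Ω] [Algebra K Ω] [Algebra κ Ω] [IsScalarTower κ K Ω]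
    [IsAlgClosed Ω] [Algebra.IsAlgebraic K Ω] {ζ : κ} {N : ℕ} (hN : N ≠ 0)
    (hζ : IsPrimitiveRoot ζ N) {r : ℕ} {e : (Fin r → ZMod N) →+ Pic κ K}
    (he : Function.Injective e) (hr : e.range = tors (Pic κ K) N) {σ : Fin r → Ω ≃ₐ[K] Ω}
    (hσ : ∀ i x, kc ζ N (σ i) (e x) = x i) {τ : (Ω ≃ₐ[K] Ω) → Pic κ K} (h1 : ∀ σ, N • τ σ = 0)
    (h2 : ∀ σ b, N • b = 0 → we N (τ σ) b = ζ ^ (kc ζ N σ b).val) (γ : SA κ K)
    (x y : Ω ≃ₐ[K] Ω) : kc ζ N y (pa γ (τ x)) =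
      ∑ i, kc ζ N x (e (Pi.single i 1)) * kc ζ N y (pa γ (τ (σ i))) := by
  obtain ⟨c, hc⟩ := tr_surj fun i => kc ζ N x (e (Pi.single i 1))
  have k0 : ∀ i, τ (σ i) ∈ tors (Pic κ K) N := fun i => h1 _
  have k1 : N • ∑ i, c i • τ (σ i) = 0 :=
    mem_tors.1 (sum_mem fun i _ => zsmul_mem (k0 i) _)
  have k2 : τ x = ∑ i, c i • τ (σ i) := by
    refine we_inj hN hζ ⟨r, e, he, hr⟩ h1 h2 (h1 x) k1 fun b hb => ?_
    have k3 : AddOn (tors (Pic κ K) N) fun u => lg ζ N (we N u b) := fun u hu v hv => by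
      dsimp only
      rw [we_add_left hN hu hv hb, lg_mul hN hζ (we_pow hN hu hb) (we_pow hN hv hb)]
    have k4 := k3.sum k0 c
    obtain ⟨z, rfl⟩ : b ∈ e.range := hr ▸ hb
    rw [← lg_spec hN hζ (we_pow hN k1 hb), k4, h2 x _ hb, kc_basis hN hζ]
    refine congrArg (fun i : ZMod N => ζ ^ i.val) (Finset.sum_congr rfl fun i _ => ?_)
    rw [h2 _ _ hb, lg_pow_val hN hζ, hσ, zsmul_eq_mul, congrFun hc i, mul_comm]
  have k5 : AddOn (tors (Pic κ K) N) fun u => kc ζ N y (pa γ u) := fun u hu v hv => by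
    dsimp only
    rw [map_add, kc_add hN hζ y (ThmA_pa γ hu) (ThmA_pa γ hv)]
  have k6 := k5.sum k0 c
  rw [k2, k6]
  exact Finset.sum_congr rfl fun i _ => by rw [zsmul_eq_mul, congrFun hc i]

theorem thmA {p : ℕ} [Fact p.Prime] [CharP κ p] (h2 : (2 : κ) ≠ 0) {γ : SA κ K} {Q : ℕ}
    (hγ : IsFr p γ Q) (J : ℕ) : HasTr (2 ^ (J + 1)) (tors (Pic κ K) (2 ^ (J + 1))) (pa γ)
      (1 + Q - ({y : Place κ K | γ • y = y}.ncard : ZMod (2 ^ (J + 1)))) := by
  have hp : ∀ s : ℕ, IsUnit ((p ^ s : ℕ) : ZMod (2 ^ (J + 1))) := fun s =>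
    (ZMod.isUnit_iff_coprime _ _).2 (Nat.Coprime.pow _ _
      ((Nat.coprime_primes Fact.out Nat.prime_two).2 fun e => h2 (by
        rw [← CharP.cast_eq_zero κ p, e, Nat.cast_ofNat])))
  have hN : 2 ^ (J + 1) ≠ 0 := pow_ne_zero _ two_ne_zero
  have hN' : ((2 ^ (J + 1) : ℕ) : κ) ≠ 0 := by
    rw [Nat.cast_pow, Nat.cast_ofNat]
    exact pow_ne_zero _ h2
  have := NeZero.mk hN'
  obtain ⟨ζ, hζ⟩ := HasEnoughRootsOfUnity.exists_primitiveRoot κ (2 ^ (J + 1))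
  obtain ⟨L, _, _, _, hL⟩ := exists_kf (AlgebraicClosure K) hN hζ (tors_finite κ K hN')
  obtain ⟨τ, s, h3, h4, h5⟩ := main_hd hN hζ (tors_fr h2 J) hγ hL
  obtain ⟨r, e, he, hr⟩ := tors_fr (κ := κ) (K := K) h2 J
  obtain ⟨σ, hσ⟩ := kc_dual (AlgebraicClosure K) hN hζ e he
  have ht : ∀ x, 2 ^ (J + 1) • e x = 0 := fun x => mem_tors.1 (hr ▸ ⟨x, rfl⟩)
  obtain ⟨m, hm⟩ := exists_mat (f := pa γ) e he
    ⟨fun x hx => hr ▸ ThmA_pa γ (mem_tors.1 (hr ▸ hx)), fun x _ y _ => map_add _ x y⟩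
  have h6 := h5.add hN hζ ((isHD_sum hN hζ Finset.univ fun i _ => elem hζ hL (ht (Pi.single i 1))
    (ThmA_pa γ⁻¹ (h3 (σ i))) ((hσ i _).trans (Pi.single_eq_same _ _))).nsmul hN hζ (p ^ s * Q))
  simp only [Finset.sum_sub_distrib, ← ThmA_tau hN hζ he hr hσ h3 h4, ← mul_add,
    sub_add_sub_cancel, sub_self, mul_zero] at h6
  have h7 := hd_zero hN hζ hL h6
  have h8 : ∀ i, (Q : ZMod (2 ^ (J + 1))) * lg ζ (2 ^ (J + 1))
      (we (2 ^ (J + 1)) (pa γ⁻¹ (τ (σ i))) (e (Pi.single i 1))) = m i i := fun i => by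
    rw [← lg_pow hN hζ (we_pow hN (ThmA_pa γ⁻¹ (h3 _)) (ht _)), ← hγ.c,
      ← we_pa hN γ (ThmA_pa γ⁻¹ (h3 _)) (ht _), ← pa_mul, mul_inv_cancel, pa_one,
      h4 _ _ (ThmA_pa γ (ht _)), lg_pow_val hN hζ, hm, hσ, Matrix.mulVec_single_one]
    rfl
  rw [Nat.cast_mul, mul_assoc, ← mul_add, (hp s).mul_right_eq_zero, Finset.mul_sum,
    Finset.sum_congr rfl fun i _ => h8 i] at h7
  exact ⟨r, e, m, he, hr, hm, by
    rw [Matrix.trace]
    simp only [Matrix.diag_apply]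
    linear_combination h7⟩

end Pool.Agent.Lef
end

-- merged part: Pool.Agent.Work.MP_60d5ce_nt.Lb.LkAbs
section
/-!
# The trace on the group of Kummer coverings unramified outside `S`  (task LB LkAbs)

`H` is a model of `{f ≠ 0 | N ∣ ord y f for y ∉ S} / N-th powers`, `N = 2 ^ (J + 1)`.  Choose `fn χ` with `Rl χ (fn χ)`.  Let `j χ (y : S) = (y.1.ord (fn χ) : ZMod N)`;
it can be computed from any `f` with `Rl χ f` (`uniq`).  `Rl 0 f0` forces `f0` to be an `N`-th power, so `N` kills `H`.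
* image of `j` is `sumZ S N`: `dg_dv`; conversely lift `F` to a divisor supported on `S`, correct its degree (a multiple of `N`) at one place of `S`, and use `pic_div`, `back`.
* the kernel `H1` maps bijectively to `tors (Pic κ K) N` by `χ ↦ c` with `Kum N (fn χ) c` (`exists_kum`, `Kum.mul`, `Kum.sl`, `Kum.unique`, `Kum.eq_iff`); `HasTr.comap` and `thmA`.
* `HasTr.add` with `hasTr_sumZ` for the permutation `y ↦ γ⁻¹ • y` of `S` (`ord_smul`); `fix_finite` to split the count.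
-/

namespace Pool.Agent.Lef

open PR0 Pool.Agent.Ell.AT

variable {κ K : Type} [Field κ] [Field K] [Algebra κ K] {B : Type} [AddCommGroup B]

/-- a model of the group of Kummer coverings -/
structure KM (N : ℕ) (S : Set (Place κ K)) (γ : SA κ K) (H : AddSubgroup B) (φ : B → B)
    (Rl : B → K → Prop) : Prop where
  ex : ∀ χ ∈ H, ∃ f, Rl χ f
  ne : ∀ χ f, Rl χ f → f ≠ 0
  unr : ∀ χ ∈ H, ∀ f, Rl χ f → ∀ y ∉ S, (N : ℤ) ∣ y.ord f
  back : ∀ f, f ≠ 0 → (∀ y ∉ S, (N : ℤ) ∣ y.ord f) → ∃ χ ∈ H, Rl χ f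
  mul : ∀ χ χ' f f', Rl χ f → Rl χ' f' → Rl (χ + χ') (f * f')
  uniq : ∀ χ ∈ H, ∀ χ' ∈ H, ∀ f f', Rl χ f → Rl χ' f' → (χ = χ' ↔ ∃ b, b ≠ 0 ∧ f = f' * b ^ N)
  mem : ∀ χ ∈ H, φ χ ∈ H
  op : ∀ χ f, Rl χ f → Rl (φ χ) (sl γ f)

variable [IsAlgClosed κ] [Fact (IsFF κ K)]

omit [IsAlgClosed κ] [Fact (IsFF κ K)] in
theorem LkAbs_in {S : Set (Place κ K)} [Fintype S] (c : S → ℤ) (s : S) :
    (∑ y : S, Finsupp.single y.1 (c y) : Dv κ K) s.1 = c s := by
  classical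
  rw [Finsupp.finsetSum_apply, Finset.sum_eq_single s (fun b _ hb =>
    Finsupp.single_eq_of_ne fun e => hb (Subtype.ext e.symm)) fun k => absurd (Finset.mem_univ s) k,
    Finsupp.single_eq_same]

omit [IsAlgClosed κ] [Fact (IsFF κ K)] in
theorem LkAbs_out {S : Set (Place κ K)} [Fintype S] (c : S → ℤ) {z : Place κ K} (hz : z ∉ S) :
    (∑ y : S, Finsupp.single y.1 (c y) : Dv κ K) z = 0 := by
  rw [Finsupp.finsetSum_apply]
  exact Finset.sum_eq_zero fun b _ => Finsupp.single_eq_of_ne fun e => hz (e ▸ b.2)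

theorem LkAbs_dg {S : Set (Place κ K)} [Fintype S] (c : S → ℤ) :
    dg (∑ y : S, Finsupp.single y.1 (c y) : Dv κ K) = ∑ y, c y := by
  rw [dg_sum]
  exact Finset.sum_congr rfl fun y _ => dg_single _ _

theorem LkAbs_sum {N : ℕ} {S : Set (Place κ K)} [Fintype S] {f : K} (hf : f ≠ 0)
    (h : ∀ y ∉ S, (N : ℤ) ∣ y.ord f) : ∑ y : S, (y.1.ord f : ZMod N) = 0 := by
  have h1 : (N : ℤ) ∣ dg (∑ y : S, Finsupp.single y.1 (y.1.ord f) - dv κ f) := by
    refine Finset.dvd_sum fun z _ => ?_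
    rw [Finsupp.sub_apply, dv_apply hf]
    by_cases hz : z ∈ S
    · rw [LkAbs_in (fun y : S => y.1.ord f) ⟨z, hz⟩, sub_self]
      exact dvd_zero _
    · rw [LkAbs_out _ hz, zero_sub]
      exact (h z hz).neg_right
  rw [dg_sub, dg_dv, sub_zero, LkAbs_dg, ← ZMod.intCast_zmod_eq_zero_iff_dvd, Int.cast_sum] at h1
  exact h1

theorem LkAbs_lift {N : ℕ} (hN : (N : κ) ≠ 0) {S : Set (Place κ K)} [Fintype S] (o : Place κ K)
    {F : S → ZMod N} (hF : ∑ y, F y = 0) :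
    ∃ f : K, f ≠ 0 ∧ (∀ y ∉ S, (N : ℤ) ∣ y.ord f) ∧ ∀ y : S, (y.1.ord f : ZMod N) = F y := by
  obtain ⟨c, rfl⟩ := tr_surj F
  rw [← Int.cast_sum, ZMod.intCast_zmod_eq_zero_iff_dvd] at hF
  obtain ⟨k, hk⟩ := hF
  obtain ⟨a, E, ha, e⟩ := pic_div hN
    (D := ∑ y : S, Finsupp.single y.1 (c y) - (N : ℤ) • Finsupp.single o k) (by
      rw [dg_sub, LkAbs_dg, dg_smul, dg_single, hk, sub_self])
  have h1 : ∀ z : Place κ K, z.ord a = (∑ y : S, Finsupp.single y.1 (c y) : Dv κ K) z +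
      N * (E z - (Finsupp.single o k : Dv κ K) z) := fun z => by
    rw [← dv_apply ha, e, Finsupp.add_apply, Finsupp.sub_apply, Finsupp.smul_apply,
      Finsupp.smul_apply, smul_eq_mul, nsmul_eq_mul]
    ring
  refine ⟨a, ha, fun y hy => ?_, fun y => ?_⟩
  · rw [h1, LkAbs_out _ hy, zero_add]
    exact dvd_mul_right _ _
  · rw [h1, LkAbs_in, Int.cast_add, Int.cast_mul, Int.cast_natCast, ZMod.natCast_self, zero_mul,
      add_zero]

theorem LkAbs_kum {N : ℕ} {f : K} (hf : f ≠ 0) (h : ∀ y : Place κ K, (N : ℤ) ∣ y.ord f) :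
    ∃ c : Pic κ K, Kum N f c :=
  ⟨_, hf, Finsupp.mapRange (fun n => n / (N : ℤ)) (Int.zero_ediv _) (dv κ f), by
    ext y
    rw [Finsupp.smul_apply, Finsupp.mapRange_apply, dv_apply hf, nsmul_eq_mul,
      Int.mul_ediv_cancel' (h y)], rfl⟩

theorem LkAbs_dvd {N : ℕ} {f : K} {c : Pic κ K} (h : Kum N f c) (y : Place κ K) :
    (N : ℤ) ∣ y.ord f := by
  obtain ⟨hf, D, e, -⟩ := h
  rw [← dv_apply hf, e, Finsupp.smul_apply, nsmul_eq_mul]
  exact dvd_mul_right _ _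

theorem KM.hasTr {p : ℕ} [Fact p.Prime] [CharP κ p] (h2 : (2 : κ) ≠ 0) {γ : SA κ K} {Q : ℕ}
    (hγ : IsFr p γ Q) {J : ℕ} {S : Set (Place κ K)} (hS : S.Finite) (hne : S.Nonempty)
    (hst : ∀ y, γ • y ∈ S ↔ y ∈ S) {H : AddSubgroup B} {φ : B → B} {Rl : B → K → Prop}
    (h : KM (2 ^ (J + 1)) S γ H φ Rl) :
    HasTr (2 ^ (J + 1)) H φ (Q - ({y | y ∉ S ∧ γ • y = y}.ncard : ZMod (2 ^ (J + 1)))) := by
  classical
  have hT := thmA h2 hγ J
  have hN' : ((2 ^ (J + 1) : ℕ) : κ) ≠ 0 := by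
    rw [Nat.cast_pow, Nat.cast_ofNat]
    exact pow_ne_zero _ h2
  have hN : 2 ^ (J + 1) ≠ 0 := pow_ne_zero _ two_ne_zero
  have := hS.fintype
  have := hne.to_subtype
  let π : Equiv.Perm S := Equiv.Perm.subtypePerm (MulAction.toPerm γ⁻¹) fun y => by
    rw [← hst, MulAction.toPerm_apply, smul_inv_smul]
  have hπ : ∀ s : S, (π s).1 = γ⁻¹ • s.1 := fun _ => rfl
  have hZ := hasTr_sumZ (J := J) π
  generalize 2 ^ (J + 1) = N at *
  have k0 : ∀ χ : B, ∃ f : K, χ ∈ H → Rl χ f := fun χ => by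
    by_cases q : χ ∈ H
    · exact (h.ex χ q).imp fun f hf _ => hf
    · exact ⟨0, fun k => absurd k q⟩
  choose fn hfn using k0
  have same : ∀ χ ∈ H, ∀ f, Rl χ f → ∃ b, b ≠ 0 ∧ fn χ = f * b ^ N := fun χ hχ f hf =>
    (h.uniq χ hχ χ hχ _ _ (hfn χ hχ) hf).1 rfl
  let j : B → S → ZMod N := fun χ y => (y.1.ord (fn χ) : ZMod N)
  have hj : ∀ χ ∈ H, ∀ f, Rl χ f → ∀ y : S, j χ y = (y.1.ord f : ZMod N) := fun χ hχ f hf y => by
    obtain ⟨b, hb, e⟩ := same χ hχ f hf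
    change (y.1.ord (fn χ) : ZMod N) = _
    rw [e, y.1.ord_mul (h.ne _ _ hf) (pow_ne_zero _ hb), y.1.ord_pow hb, Int.cast_add, Int.cast_mul,
      Int.cast_natCast, ZMod.natCast_self, zero_mul, add_zero]
  have ha : AddOn H j := fun x hx y hy => funext fun s => by
    rw [hj _ (H.add_mem hx hy) _ (h.mul _ _ _ _ (hfn x hx) (hfn y hy)),
      s.1.ord_mul (h.ne _ _ (hfn x hx)) (h.ne _ _ (hfn y hy)), Int.cast_add]
    rfl
  have hc : ∀ x ∈ H, j (φ x) = fun s => j x (π s) := fun x hx => funext fun s => by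
    rw [hj _ (h.mem x hx) _ (h.op _ _ (hfn x hx)), hj x hx _ (hfn x hx), hπ,
      ← ord_smul γ _ (h.ne _ _ (hfn x hx)), smul_inv_smul]
  have hE : EndOn H φ := ⟨h.mem, fun x hx y hy =>
    (h.uniq _ (h.mem _ (H.add_mem hx hy)) _ (H.add_mem (h.mem x hx) (h.mem y hy)) _ _
      (h.op _ _ (h.mul _ _ _ _ (hfn x hx) (hfn y hy)))
      (h.mul _ _ _ _ (h.op _ _ (hfn x hx)) (h.op _ _ (hfn y hy)))).2
      ⟨1, one_ne_zero, by rw [one_pow, mul_one, map_mul]⟩⟩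
  have hK : ∀ x ∈ H, N • x = 0 := fun x hx => by
    have k : ∀ n : ℕ, Rl (n • x) (fn 0 * fn x ^ n) := fun n => by
      induction n with
      | zero =>
        rw [zero_smul, pow_zero, mul_one]
        exact hfn 0 H.zero_mem
      | succ n ih =>
        rw [succ_nsmul, pow_succ, ← mul_assoc]
        exact h.mul _ _ _ _ ih (hfn x hx)
    exact (h.uniq _ (H.nsmul_mem hx N) 0 H.zero_mem _ _ (k N) (hfn 0 H.zero_mem)).2
      ⟨fn x, h.ne _ _ (hfn x hx), rfl⟩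
  have hs : j '' H = sumZ S N := by
    ext F
    constructor
    · rintro ⟨x, hx, rfl⟩
      exact LkAbs_sum (h.ne _ _ (hfn x hx)) (h.unr x hx _ (hfn x hx))
    · intro hF
      obtain ⟨f, hf, k1, k2⟩ := LkAbs_lift hN' hne.some hF
      obtain ⟨x, hx, k3⟩ := h.back f hf k1
      exact ⟨x, hx, funext fun y => (hj x hx f k3 y).trans (k2 y)⟩
  let H1 : AddSubgroup B := ha.hom.ker.map H.subtype
  have hk : ∀ x, x ∈ H1 ↔ x ∈ H ∧ j x = 0 := fun x =>
    ⟨by rintro ⟨y, hy, rfl⟩; exact ⟨y.2, hy⟩, fun k => ⟨⟨x, k.1⟩, k.2, rfl⟩⟩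
  have k1 : ∀ χ : B, ∃ c : Pic κ K, χ ∈ H1 → Kum N (fn χ) c := fun χ => by
    by_cases q : χ ∈ H1
    · obtain ⟨q1, q2⟩ := (hk χ).1 q
      refine (LkAbs_kum (h.ne _ _ (hfn χ q1)) fun y => ?_).imp fun c k _ => k
      by_cases hy : y ∈ S
      · exact (ZMod.intCast_zmod_eq_zero_iff_dvd _ _).1 (congrFun q2 ⟨y, hy⟩)
      · exact h.unr χ q1 _ (hfn χ q1) y hy
    · exact ⟨0, fun k => absurd k q⟩
  choose cf hcf using k1
  have hB : ∀ χ ∈ H1, ∀ f c, Rl χ f → Kum N f c → cf χ = c := fun χ hχ f c hf k =>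
    ((hcf χ hχ).eq_iff hN k).2 (same χ ((hk χ).1 hχ).1 f hf)
  have hφ : ∀ x ∈ H1, φ x ∈ H1 := fun x hx => (hk _).2 ⟨h.mem x ((hk x).1 hx).1, by
    rw [hc x ((hk x).1 hx).1, ((hk x).1 hx).2]
    rfl⟩
  have h1 : HasTr N H1 φ _ := hT.comap (j := cf)
    (fun x hx y hy => hB _ (H1.add_mem hx hy) _ _
      (h.mul _ _ _ _ (hfn x ((hk x).1 hx).1) (hfn y ((hk y).1 hy).1)) ((hcf x hx).mul (hcf y hy)))
    (fun x hx y hy e => (h.uniq x ((hk x).1 hx).1 y ((hk y).1 hy).1 _ _ (hfn x ((hk x).1 hx).1)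
      (hfn y ((hk y).1 hy).1)).2 (((hcf x hx).eq_iff hN (hcf y hy)).1 e))
    (by
      ext c
      constructor
      · rintro ⟨x, hx, rfl⟩
        exact (hcf x hx).tors
      · intro hc'
        obtain ⟨u, hu⟩ := exists_kum (mem_tors.1 hc')
        obtain ⟨x, hx, k⟩ := h.back u hu.1 fun y _ => LkAbs_dvd hu y
        have hx' : x ∈ H1 := (hk x).2 ⟨hx, funext fun y => (hj x hx u k y).trans
          ((ZMod.intCast_zmod_eq_zero_iff_dvd _ _).2 (LkAbs_dvd hu y.1))⟩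
        exact ⟨x, hx', hB x hx' u c k hu⟩)
    hφ fun x hx => hB _ (hφ x hx) _ _ (h.op _ _ (hfn x ((hk x).1 hx).1)) ((hcf x hx).sl γ)
  have key := h1.add hZ ha hk hs hE hK hc
  have e1 : {y : Place κ K | γ • y = y} =
      {y | y ∉ S ∧ γ • y = y} ∪ Subtype.val '' ((Finset.univ.filter fun s => π s = s : Finset S) : Set S) := by
    ext y
    simp only [Set.mem_ofPred_eq, Set.mem_union, Set.mem_image, Finset.coe_filter, Finset.mem_univ,
      true_and]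
    constructor
    · intro k
      by_cases hy : y ∈ S
      · exact Or.inr ⟨⟨y, hy⟩, Subtype.ext (by rw [hπ, inv_smul_eq_iff, k]), rfl⟩
      · exact Or.inl ⟨hy, k⟩
    · rintro (k | ⟨s, k, rfl⟩)
      · exact k.2
      · have k' := congrArg Subtype.val k
        rw [hπ, inv_smul_eq_iff] at k'
        exact k'.symm
  have e2 : {y : Place κ K | γ • y = y}.ncard =
      {y | y ∉ S ∧ γ • y = y}.ncard + (Finset.univ.filter fun s => π s = s).card := by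
    rw [e1, Set.ncard_union_eq (Set.disjoint_left.2 (by rintro _ k ⟨s, -, rfl⟩; exact k.1 s.2))
      ((fix_finite hγ).subset fun y k => k.2) (Set.toFinite _),
      Set.ncard_image_of_injective _ Subtype.val_injective, Set.ncard_coe_finset]
  rw [e2, Nat.cast_add] at key
  have e3 : ∀ a b c : ZMod N, 1 + a - (b + c) + (c - 1) = a - b := fun a b c => by ring
  rwa [e3] at key

end Pool.Agent.Lef
end
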