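import Pool.Agent.Work.MP_60d5ce_nt.Lb.Ext

/-!
# Places given by absolute values; places of the rational function field  (task LB LkRat)

* `abs_ord`: `a / unif ^ ord a` and its inverse lie in `y.1`; `unif⁻¹ ∉ y.1`.
* `rat_ext`: if `X ∈ y.1` with value `c`, then `X - c` has positive order `e`, the other `X - c'` have order zero, so a non-zero polynomial `p` has order
  `rootMultiplicity c p * e` (split `p`); if `X ∉ y.1`, all `X - c'` have order `ord X < 0` and `p` has order `natDegree p * ord X`.  Write `a = num / denom`.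
-/

namespace Pool.Agent.Lef

open PR0 Pool.Agent.Ell.AT Polynomial

variable {κ M : Type} [Field κ] [Field M] [Algebra κ M] {w : AbsoluteValue M ℝ}

theorem exists_place_abs (na : IsNonarchimedean w) (hc : ∀ c : κ, w (algebraMap κ M c) ≤ 1)
    (hn : ∃ a, 1 < w a) : ∃ y : Place κ M, ∀ a, a ∈ y.1 ↔ w a ≤ 1 := by
  refine ⟨⟨{ carrier := {a | w a ≤ 1}
             mul_mem' := fun {a b} ha hb => (w.map_mul a b).trans_le (mul_le_one₀ ha (w.nonneg b) hb)
             one_mem' := w.map_one.le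
             add_mem' := fun {a b} ha hb => (na a b).trans (max_le ha hb)
             zero_mem' := w.map_zero.trans_le zero_le_one
             neg_mem' := fun {a} ha => (w.map_neg a).trans_le ha
             mem_or_inv_mem' := fun a => (le_total (w a) 1).imp_right fun h =>
               (map_inv₀ w a).trans_le (inv_le_one_of_one_le₀ h) }, fun h => ?_, hc⟩,
    fun _ => Iff.rfl⟩
  obtain ⟨a, ha⟩ := hn
  exact ha.not_ge (SetLike.ext_iff.1 h a |>.2 (ValuationSubring.mem_top a))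

theorem isFF_ratFunc (κ : Type) [Field κ] : IsFF κ (RatFunc κ) := by
  refine ⟨RatFunc.X, RatFunc.transcendental_X, ?_⟩
  rw [RatFunc.adjoin_X]
  exact Module.finite_of_finrank_eq_succ IntermediateField.finrank_top

variable [IsAlgClosed κ]

theorem abs_ord [Fact (IsFF κ M)] {y : Place κ M} (h : ∀ a, a ∈ y.1 ↔ w a ≤ 1) :
    0 < w y.unif ∧ w y.unif < 1 ∧ ∀ a, a ≠ 0 → w a = w y.unif ^ y.ord a := by
  have h0 := y.unif_ne_zero
  have h1 := w.pos h0
  refine ⟨h1, not_le.1 fun h2 => ?_, fun a ha => ?_⟩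
  · have h3 := y.mem_iff.1 ((h y.unif⁻¹).2 ((map_inv₀ w _).trans_le (inv_le_one_of_one_le₀ h2)))
    rcases h3 with h3 | h3
    · exact inv_ne_zero h0 h3
    · rw [y.ord_inv h0, y.ord_unif] at h3
      omega
  · have h2 := zpow_ne_zero (y.ord a) h0
    have h3 := mul_ne_zero ha (inv_ne_zero h2)
    have h4 : y.ord (a * (y.unif ^ y.ord a)⁻¹) = 0 := by
      rw [y.ord_mul ha (inv_ne_zero h2), y.ord_inv h2, rr_ge_unif, add_neg_cancel]
    have h5 := (h _).1 (y.mem_iff.2 (Or.inr h4.ge))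
    have h6 := (h _).1 (y.mem_iff.2 (Or.inr (by rw [y.ord_inv h3, h4, neg_zero] :
      y.ord (a * (y.unif ^ y.ord a)⁻¹)⁻¹ = 0).ge))
    rw [map_inv₀, inv_le_one₀ (w.pos h3)] at h6
    have h7 := le_antisymm h5 h6
    rwa [map_mul, map_inv₀, map_zpow₀, mul_inv_eq_one₀ (zpow_ne_zero _ h1.ne')] at h7

theorem abs_disc [Fact (IsFF κ M)] {y : Place κ M} (h : ∀ a, a ∈ y.1 ↔ w a ≤ 1)
    (hd : ∀ a, a ≠ 0 → ∃ n : ℤ, w a = 2 ^ n) {π : M} (hπ : w π = 2⁻¹) {a : M} (ha : a ≠ 0) :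
    w a = 2 ^ (-y.ord a) := by
  obtain ⟨-, h1, h2⟩ := abs_ord h
  obtain ⟨n, hn⟩ := hd _ y.unif_ne_zero
  have h3 : n < 0 := (zpow_lt_one_iff_right₀ one_lt_two).1 (hn ▸ h1)
  have h4 := h2 π fun e => by simp [e] at hπ
  rw [hπ, hn, ← zpow_mul, ← zpow_neg_one, zpow_right_inj₀ two_pos (by norm_num)] at h4
  have h5 : n = -1 := by
    rcases Int.eq_one_or_neg_one_of_mul_eq_neg_one h4.symm with h | h <;> omega
  rw [h2 a ha, hn, h5, ← zpow_mul, neg_one_mul]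

theorem LkRat_val [Fact (IsFF κ M)] (y : Place κ M) {t : M} (h : t ∈ y.1) (p : κ[X]) :
    aeval t p ∈ y.1 ∧ y.val (aeval t p) = p.eval (y.val t) := by
  induction p using Polynomial.induction_on with
  | C c => rw [aeval_C, eval_C]; exact ⟨y.2.2 c, Place.val_const c⟩
  | add p q hp hq =>
    rw [map_add, eval_add, Place.val_add hp.1 hq.1, hp.2, hq.2]
    exact ⟨y.1.add_mem _ _ hp.1 hq.1, rfl⟩
  | monomial n c hp =>
    rw [pow_succ, ← mul_assoc, map_mul, eval_mul, aeval_X, eval_X, Place.val_mul hp.1 h, hp.2]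
    exact ⟨y.1.mul_mem _ _ hp.1 h, rfl⟩

theorem LkRat_ne {t : M} (ht : Transcendental κ t) (c : κ) : t - algebraMap κ M c ≠ 0 :=
  fun e => ht (sub_eq_zero.1 e ▸ isAlgebraic_algebraMap c)

theorem ord_poly [Fact (IsFF κ M)] (y : Place κ M) {t : M} (ht : Transcendental κ t) (h : t ∈ y.1)
    {p : κ[X]} (hp : p ≠ 0) : y.ord (aeval t p) =
      p.rootMultiplicity (y.val t) * y.ord (t - algebraMap κ M (y.val t)) := by
  obtain ⟨q, h1, h2⟩ := exists_eq_pow_rootMultiplicity_mul_and_not_dvd p hp (y.val t)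
  obtain ⟨h3, h4⟩ := LkRat_val y h q
  have h5 : ¬ y.Ge (aeval t q) 1 := fun e =>
    h2 (dvd_iff_isRoot.2 (h4.symm.trans ((Place.val_eq_zero h3).2 e)))
  have h6 : aeval t q ≠ 0 := fun e => h5 (Or.inl e)
  have h7 : y.ord (aeval t q) = 0 := le_antisymm
    (Int.lt_add_one_iff.1 (not_le.1 fun e => h5 (Or.inr e))) ((y.mem_iff.1 h3).resolve_left h6)
  have h8 := LkRat_ne ht (y.val t)
  conv_lhs => rw [h1]
  rw [map_mul, map_pow, map_sub, aeval_X, aeval_C, y.ord_mul (pow_ne_zero _ h8) h6, h7,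
    y.ord_pow h8, add_zero]

theorem LkRat_neg [Fact (IsFF κ M)] {y : Place κ M} {t : M} (h : t ∉ y.1) : t ≠ 0 ∧ y.ord t < 0 :=
  ⟨fun e => h (y.mem_iff.2 (Or.inl e)), not_le.1 fun e => h (y.mem_iff.2 (Or.inr e))⟩

theorem ord_poly_inf [Fact (IsFF κ M)] (y : Place κ M) {t : M} (h : t ∉ y.1) {p : κ[X]}
    (hp : p ≠ 0) : y.ord (aeval t p) = p.natDegree * y.ord t := by
  obtain ⟨h0, h1⟩ := LkRat_neg h
  suffices H : ∀ n (p : κ[X]), p ≠ 0 → p.natDegree = n →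
      aeval t p ≠ 0 ∧ y.ord (aeval t p) = n * y.ord t from (H _ p hp rfl).2
  intro n
  induction n with
  | zero =>
    intro p hp hn
    rw [eq_C_of_natDegree_eq_zero hn] at hp ⊢
    rw [aeval_C, y.ord_const (C_ne_zero.1 hp)]
    exact ⟨(_root_.map_ne_zero _).2 (C_ne_zero.1 hp), by simp⟩
  | succ n ih =>
    intro p hp hn
    obtain ⟨h2, h3⟩ := ih p.divX (fun e => by
      rw [divX_eq_zero_iff.1 e, natDegree_C] at hn
      omega) (by rw [natDegree_divX_eq_natDegree_tsub_one, hn, Nat.add_sub_cancel])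
    have h4 : y.ord (t * aeval t p.divX) = (n + 1 : ℕ) * y.ord t := by
      rw [y.ord_mul h0 h2, h3]
      push_cast
      ring
    rw [← X_mul_divX_add p, map_add, map_mul, aeval_X, aeval_C, ← h4]
    refine Place.ord_add_of_lt (mul_ne_zero h0 h2) ((y.mem_iff.1 (y.2.2 _)).mono ?_)
    rw [h4]
    exact mul_neg_of_pos_of_neg (by exact_mod_cast n.succ_pos) h1

theorem LkRat_div [Fact (IsFF κ (RatFunc κ))] (y : Place κ (RatFunc κ)) {a : RatFunc κ}
    (ha : a ≠ 0) : y.ord a = y.ord (aeval (RatFunc.X : RatFunc κ) a.num) -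
      y.ord (aeval (RatFunc.X : RatFunc κ) a.denom) := by
  have h1 := RatFunc.algebraMap_ne_zero (RatFunc.num_ne_zero ha)
  have h2 := RatFunc.algebraMap_ne_zero a.denom_ne_zero
  rw [RatFunc.aeval_X_left_eq_algebraMap, RatFunc.aeval_X_left_eq_algebraMap, sub_eq_add_neg,
    ← y.ord_inv h2, ← y.ord_mul h1 (inv_ne_zero h2), ← div_eq_mul_inv, RatFunc.num_div_denom]

theorem LkRat_fin [Fact (IsFF κ (RatFunc κ))] {y : Place κ (RatFunc κ)} {c : κ}
    (h : (RatFunc.X - algebraMap κ (RatFunc κ) c)⁻¹ ∉ y.1) :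
    0 < y.ord (RatFunc.X - algebraMap κ (RatFunc κ) c) ∧ ∀ a : RatFunc κ, a ≠ 0 → y.ord a =
      ((a.num.rootMultiplicity c : ℤ) - a.denom.rootMultiplicity c) *
        y.ord (RatFunc.X - algebraMap κ (RatFunc κ) c) := by
  have h1 := (LkRat_neg h).2
  rw [y.ord_inv (LkRat_ne RatFunc.transcendental_X c), neg_lt_zero] at h1
  have h2 : RatFunc.X ∈ y.1 := by
    simpa using y.1.add_mem _ _ (y.mem_iff.2 (Or.inr h1.le)) (y.2.2 c)
  have h3 : y.val RatFunc.X = c := Place.val_eq (Or.inr h1)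
  refine ⟨h1, fun a ha => ?_⟩
  rw [LkRat_div y ha, ord_poly y RatFunc.transcendental_X h2 (RatFunc.num_ne_zero ha),
    ord_poly y RatFunc.transcendental_X h2 a.denom_ne_zero, h3, sub_mul]

theorem LkRat_inf [Fact (IsFF κ (RatFunc κ))] {y : Place κ (RatFunc κ)} (h : RatFunc.X ∉ y.1) :
    0 < y.ord (RatFunc.X : RatFunc κ)⁻¹ ∧ ∀ a : RatFunc κ, a ≠ 0 → y.ord a =
      ((a.denom.natDegree : ℤ) - a.num.natDegree) * y.ord (RatFunc.X : RatFunc κ)⁻¹ := by
  rw [y.ord_inv RatFunc.X_ne_zero]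
  refine ⟨neg_pos.2 (LkRat_neg h).2, fun a ha => ?_⟩
  rw [LkRat_div y ha, ord_poly_inf y h (RatFunc.num_ne_zero ha), ord_poly_inf y h a.denom_ne_zero]
  ring

theorem LkRat_eq [Fact (IsFF κ M)] {y y' : Place κ M} {e e' : ℤ} {m : M → ℤ}
    (h : 0 < e ∧ ∀ a, a ≠ 0 → y.ord a = m a * e) (h' : 0 < e' ∧ ∀ a, a ≠ 0 → y'.ord a = m a * e') :
    y = y' := by
  refine Place.eq_of_le fun a ha => y'.mem_iff.2 (or_iff_not_imp_left.2 fun h0 => ?_)
  have h1 := (y.mem_iff.1 ha).resolve_left h0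
  rw [h.2 a h0, mul_nonneg_iff_of_pos_right h.1] at h1
  rw [h'.2 a h0]
  exact mul_nonneg h1 h'.1.le

theorem LkRat_one [Fact (IsFF κ M)] {y : Place κ M} {e : ℤ} {m : M → ℤ}
    (h : 0 < e ∧ ∀ a, a ≠ 0 → y.ord a = m a * e) : e = 1 :=
  Int.eq_one_of_mul_eq_one_left h.1.le ((h.2 _ y.unif_ne_zero).symm.trans y.ord_unif)

theorem LkRat_pole [Fact (IsFF κ (RatFunc κ))] {y : Place κ (RatFunc κ)} (h : RatFunc.X ∈ y.1) :
    (RatFunc.X - algebraMap κ (RatFunc κ) (y.val RatFunc.X))⁻¹ ∉ y.1 := fun h1 => by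
  have h0 := LkRat_ne RatFunc.transcendental_X (y.val RatFunc.X)
  have h2 := (y.mem_iff.1 h1).resolve_left (inv_ne_zero h0)
  have h3 := (Place.ge_sub_val h).resolve_left h0
  rw [y.ord_inv h0] at h2
  omega

theorem rat_ext {y y' : Place κ (RatFunc κ)}
    (h : ∀ c : κ, (RatFunc.X - algebraMap κ (RatFunc κ) c)⁻¹ ∈ y.1 ↔
      (RatFunc.X - algebraMap κ (RatFunc κ) c)⁻¹ ∈ y'.1) : y = y' := by
  have : Fact (IsFF κ (RatFunc κ)) := ⟨isFF_ratFunc κ⟩
  by_cases h1 : RatFunc.X ∈ y.1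
  · exact LkRat_eq (LkRat_fin (LkRat_pole h1)) (LkRat_fin (mt (h _).2 (LkRat_pole h1)))
  by_cases h2 : RatFunc.X ∈ y'.1
  · exact LkRat_eq (LkRat_fin (mt (h _).1 (LkRat_pole h2))) (LkRat_fin (LkRat_pole h2))
  · exact LkRat_eq (LkRat_inf h1) (LkRat_inf h2)

/-- `X - c` is a uniformiser -/
theorem rat_ord [Fact (IsFF κ (RatFunc κ))] (y : Place κ (RatFunc κ)) (c : κ)
    (h : (RatFunc.X - algebraMap κ (RatFunc κ) c)⁻¹ ∉ y.1) :
    y.ord (RatFunc.X - algebraMap κ (RatFunc κ) c) = 1 := by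
  exact LkRat_one (LkRat_fin h)

/-- `X⁻¹` is a uniformiser -/
theorem rat_ord_inf [Fact (IsFF κ (RatFunc κ))] (y : Place κ (RatFunc κ)) (h : RatFunc.X ∉ y.1) :
    y.ord (RatFunc.X : RatFunc κ)⁻¹ = 1 := by
  exact LkRat_one (LkRat_inf h)

end Pool.Agent.Lef
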