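import Pool.Agent.Work.MP_da2620_ag.FF

/-!
# Specialisations of the constants  (task LB Chev)

* `chev` (Atiyah-Macdonald 5.21): Zorn's lemma for the pairs (subring, homomorphism to `κ`), for instance for their graphs in
  `κ' × κ`.  A maximal pair `(B, ρ)` is local with maximal ideal `ker ρ` (extend `ρ` to the localisation).  For `x ≠ 0` either
  `𝔪 B[x] ≠ B[x]` or `𝔪 B[x⁻¹] ≠ B[x⁻¹]` (or use `LocalSubring.exists_le_valuationSubring`: `x` or `x⁻¹` lies in a valuation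
  ring that dominates `B`); in the first case `B[x] / 𝔪 B[x]` is a nonzero quotient of `(B / 𝔪)[X]`, so it has a homomorphism to
  the algebraically closed field `κ` that extends `ρ`.
* `exists_spz`: apply `chev` to the image of `x.1` and `x.val`.  If `θ f ∈ O`, `f ∉ x.1`, then `f⁻¹` has value zero.
-/

namespace Pool.Agent.Lef

open PR0

variable {κ κ' : Type} [Field κ] [Field κ']

theorem Chev_mul {O : ValuationSubring κ'} {a b : κ'} (ha : a ∈ O.nonunits) (hb : b ∈ O) :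
    a * b ∈ O.nonunits := by
  rw [ValuationSubring.mem_nonunits_iff] at ha ⊢
  rw [map_mul]
  exact lt_of_le_of_lt (mul_le_of_le_one_right' ((O.valuation_le_one_iff b).2 hb)) ha

/-- graphs of homomorphisms -/
def Chev_fn (Γ : Subring (κ' × κ)) : Prop := ∀ z ∈ Γ, z.1 = 0 → z.2 = 0

theorem Chev_inv {Γ : Subring (κ' × κ)} (hΓ : Maximal Chev_fn Γ) {z : κ' × κ} (hz : z ∈ Γ)
    (h : z.2 ≠ 0) : z⁻¹ ∈ Γ := by
  let Γ' : Subring (κ' × κ) :=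
    { carrier := {w | ∃ n : ℕ, w * z ^ n ∈ Γ}
      mul_mem' := fun {a b} ⟨n, hn⟩ ⟨m, hm⟩ => ⟨n + m, by
        rw [show a * b * z ^ (n + m) = a * z ^ n * (b * z ^ m) by ring]
        exact mul_mem hn hm⟩
      one_mem' := ⟨0, by rw [pow_zero, mul_one]; exact one_mem _⟩
      add_mem' := fun {a b} ⟨n, hn⟩ ⟨m, hm⟩ => ⟨n + m, by
        rw [show (a + b) * z ^ (n + m) = a * z ^ n * z ^ m + b * z ^ m * z ^ n by ring]
        exact add_mem (mul_mem hn (pow_mem hz m)) (mul_mem hm (pow_mem hz n))⟩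
      zero_mem' := ⟨0, by rw [zero_mul]; exact zero_mem _⟩
      neg_mem' := fun {a} ⟨n, hn⟩ => ⟨n, by rw [neg_mul]; exact neg_mem hn⟩ }
  have h1 : Chev_fn Γ' := fun w ⟨n, hn⟩ h0 => by
    have h2 : w.2 * z.2 ^ n = 0 := hΓ.1 _ hn (by
      show w.1 * z.1 ^ n = 0
      rw [h0, zero_mul])
    exact (mul_eq_zero.1 h2).resolve_right (pow_ne_zero n h)
  refine hΓ.2 h1 (fun w hw => ⟨0, by rwa [pow_zero, mul_one]⟩) ⟨1, ?_⟩
  have h3 : z⁻¹ * z ^ 1 = 1 := by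
    rw [pow_one]
    exact Prod.ext (inv_mul_cancel₀ fun h0 => h (hΓ.1 z hz h0)) (inv_mul_cancel₀ h)
  rw [h3]
  exact one_mem _

open Polynomial in
theorem Chev_all [IsAlgClosed κ] {Γ : Subring (κ' × κ)} (hΓ : Maximal Chev_fn Γ)
    {O : ValuationSubring κ'} (h2 : ∀ z ∈ Γ, z.2 = 0 → z.1 ∈ O.nonunits) {x : κ'} (hx : x ∈ O) :
    ∃ c, (x, c) ∈ Γ := by
  let f : Γ →+* κ' := (RingHom.fst κ' κ).comp Γ.subtype
  let g : Γ →+* κ := (RingHom.snd κ' κ).comp Γ.subtype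
  let F : Subfield κ :=
    { g.range with
      inv_mem' := by
        rintro _ ⟨z, rfl⟩
        by_cases h : g z = 0
        · exact ⟨0, by rw [h, inv_zero, map_zero]⟩
        · exact ⟨⟨z.1⁻¹, Chev_inv hΓ z.2 h⟩, rfl⟩ }
  let g' : Γ →+* F := g.codRestrict F fun z => ⟨z, rfl⟩
  have hs : Function.Surjective (mapRingHom g') :=
    map_surjective g' fun ⟨_, z, hz⟩ => ⟨z, Subtype.ext hz⟩
  obtain ⟨q, hq⟩ := (IsPrincipalIdealRing.principal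
    ((RingHom.ker (eval₂RingHom f x)).map (mapRingHom g'))).principal
  have hd : q.degree ≠ 0 := fun h0 => by
    have h3 : (1 : F[X]) ∈ (RingHom.ker (eval₂RingHom f x)).map (mapRingHom g') := by
      rw [hq]
      exact (Ideal.span_singleton_eq_top.2 (isUnit_iff_degree_eq_zero.2 h0)).ge Submodule.mem_top
    obtain ⟨p, hp, e⟩ := (Ideal.mem_map_iff_of_surjective _ hs).1 h3
    have h4 : eval₂ f x (1 - p) ∈ O.nonunits := by
      rw [eval₂_eq_sum_range]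
      refine sum_mem fun i _ => Chev_mul (h2 _ ((1 - p).coeff i).2 ?_) (pow_mem hx i)
      have h5 : g' ((1 - p).coeff i) = 0 := by
        rw [← coeff_map, Polynomial.map_sub, Polynomial.map_one, show p.map g' = 1 from e,
          sub_self, coeff_zero]
      exact congrArg Subtype.val h5
    rw [eval₂_sub, eval₂_one, show eval₂ f x p = 0 from hp, sub_zero,
      ValuationSubring.mem_nonunits_iff, map_one] at h4
    exact lt_irrefl _ h4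
  obtain ⟨c, hc⟩ := IsAlgClosed.exists_eval₂_eq_zero F.subtype q hd
  have h6 : Chev_fn ((eval₂RingHom f x).prod (eval₂RingHom g c)).range := by
    rintro _ ⟨p, rfl⟩ h0
    have h7 : mapRingHom g' p ∈ (RingHom.ker (eval₂RingHom f x)).map (mapRingHom g') :=
      Ideal.mem_map_of_mem _ h0
    rw [hq] at h7
    obtain ⟨r, hr⟩ := Ideal.mem_span_singleton'.1 h7
    have h8 : eval₂ F.subtype c (p.map g') = 0 := by
      rw [show p.map g' = r * q from hr.symm, eval₂_mul, hc, mul_zero]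
    rw [eval₂_map] at h8
    exact h8
  exact ⟨c, hΓ.2 h6 (fun z hz => ⟨C ⟨z, hz⟩, Prod.ext (eval₂_C _ _) (eval₂_C _ _)⟩)
    ⟨X, Prod.ext (eval₂_X _ _) (eval₂_X _ _)⟩⟩

theorem Chev_gen [IsAlgClosed κ] {R : Type} [CommRing R] (θ : R →+* κ') (π : R →+* κ)
    (h0 : ∀ r, θ r = 0 → π r = 0) :
    ∃ (O : ValuationSubring κ') (ρ : O →+* κ) (h : ∀ a, θ a ∈ O),
      (∀ a, ρ ⟨θ a, h a⟩ = π a) ∧ ∀ a : O, ρ a = 0 ↔ (a : κ') ∈ O.nonunits := by
  obtain ⟨Γ, h1, hΓ⟩ := zorn_le_nonempty₀ {Γ : Subring (κ' × κ) | Chev_fn Γ}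
    (fun c hc hch y hy => ⟨sSup c, fun z hz => by
      obtain ⟨s, hs, h⟩ := (Subring.mem_sSup_of_directedOn ⟨y, hy⟩ hch.directedOn).1 hz
      exact hc hs z h, fun z hz => le_sSup hz⟩) (θ.prod π).range (by
      rintro _ ⟨r, rfl⟩ h
      exact h0 r h)
  let f : Γ →+* κ' := (RingHom.fst κ' κ).comp Γ.subtype
  let g : Γ →+* κ := (RingHom.snd κ' κ).comp Γ.subtype
  have hi : Function.Injective f := (injective_iff_map_eq_zero f).2 fun z hz =>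
    Subtype.ext (Prod.ext hz (hΓ.1 _ z.2 hz))
  obtain ⟨O, h2, h3⟩ := Ideal.image_subset_nonunits_valuationSubring
    ((RingHom.ker g).map f.rangeRestrict) fun h => by
      obtain ⟨z, hz, e⟩ := (Ideal.mem_map_iff_of_surjective _ f.rangeRestrict_surjective).1
        (h.ge (Submodule.mem_top (x := 1)))
      rw [hi ((congrArg Subtype.val e).trans (map_one f).symm), RingHom.mem_ker, map_one] at hz
      exact one_ne_zero hz
  have h4 : ∀ z : Γ, f z ∈ O := fun z => h2 ⟨z, rfl⟩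
  have h5 : ∀ z ∈ Γ, z.2 = 0 → z.1 ∈ O.nonunits := fun z hz h =>
    h3 ⟨_, Ideal.mem_map_of_mem f.rangeRestrict (x := ⟨z, hz⟩) h, rfl⟩
  let e : Γ ≃+* O := RingEquiv.ofBijective (f.codRestrict O h4)
    ⟨fun a b h => hi (congrArg Subtype.val h), fun a => by
      obtain ⟨c, hc⟩ := Chev_all hΓ h5 a.2
      exact ⟨⟨_, hc⟩, rfl⟩⟩
  refine ⟨O, g.comp e.symm.toRingHom, fun a => h4 ⟨_, h1 ⟨a, rfl⟩⟩, fun a => ?_, fun a => ?_⟩
  · exact congrArg g (e.symm_apply_apply ⟨_, h1 ⟨a, rfl⟩⟩)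
  · obtain ⟨z, rfl⟩ := e.surjective a
    have h6 : g.comp e.symm.toRingHom (e z) = z.1.2 := congrArg g (e.symm_apply_apply z)
    rw [h6]
    refine ⟨h5 _ z.2, fun h => by_contra fun h7 => ?_⟩
    rcases O.mem_nonunits_iff_or.1 h with h | h
    · exact h7 (hΓ.1 _ z.2 h)
    · exact h (h4 ⟨_, Chev_inv hΓ z.2 h7⟩)

theorem chev [IsAlgClosed κ] (A : Subring κ') (π : A →+* κ) :
    ∃ (O : ValuationSubring κ') (ρ : O →+* κ) (h : ∀ a : A, (a : κ') ∈ O),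
      (∀ a : A, ρ ⟨a, h a⟩ = π a) ∧ ∀ a : O, ρ a = 0 ↔ (a : κ') ∈ O.nonunits :=
  Chev_gen A.subtype π fun r hr => by
    rw [show r = 0 from Subtype.ext hr, map_zero]

/-- a valuation ring of `κ'` that contains `κ` and has residue field `κ` -/
structure Spz (φ : κ →+* κ') where
  O : ValuationSubring κ'
  mem : ∀ c, φ c ∈ O
  res : ∀ a ∈ O, ∃ c, a - φ c ∈ O.nonunits

namespace Spz

variable {φ : κ →+* κ'} (s : Spz φ)

/-- the residue -/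
noncomputable def ρ (a : κ') : κ := Classical.epsilon fun c => a - φ c ∈ s.O.nonunits

/-- units -/
def Un (a : κ') : Prop := a ∈ s.O ∧ s.ρ a ≠ 0

variable {s} {a b : κ'}

theorem ρ_spec (ha : a ∈ s.O) : a - φ (s.ρ a) ∈ s.O.nonunits :=
  Classical.epsilon_spec (s.res a ha)

theorem mem_of_sub {c : κ} (h : a - φ c ∈ s.O.nonunits) : a ∈ s.O := by
  rw [← sub_add_cancel a (φ c)]
  exact add_mem (s.O.nonunits_subset h) (s.mem c)

theorem ρ_eq {c : κ} (h : a - φ c ∈ s.O.nonunits) : s.ρ a = c := by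
  have h1 := sub_mem h (ρ_spec (mem_of_sub h))
  rw [sub_sub_sub_cancel_left, ← map_sub] at h1
  rcases s.O.mem_nonunits_iff_or.1 h1 with h2 | h2
  · exact sub_eq_zero.1 ((map_eq_zero φ).1 h2)
  · exact absurd (map_inv₀ φ _ ▸ s.mem _) h2

theorem ρ_φ (c : κ) : s.ρ (φ c) = c :=
  ρ_eq (by rw [sub_self]; exact zero_mem _)

theorem ρ_zero : s.ρ 0 = 0 := by
  rw [← map_zero φ, ρ_φ]

theorem ρ_one : s.ρ 1 = 1 := by
  rw [← map_one φ, ρ_φ]

theorem ρ_add (ha : a ∈ s.O) (hb : b ∈ s.O) : s.ρ (a + b) = s.ρ a + s.ρ b :=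
  ρ_eq (by rw [map_add, add_sub_add_comm]; exact add_mem (ρ_spec ha) (ρ_spec hb))

theorem ρ_neg (ha : a ∈ s.O) : s.ρ (-a) = -s.ρ a :=
  ρ_eq (by rw [map_neg, ← neg_sub']; exact neg_mem (ρ_spec ha))

theorem ρ_sub (ha : a ∈ s.O) (hb : b ∈ s.O) : s.ρ (a - b) = s.ρ a - s.ρ b := by
  rw [sub_eq_add_neg, ρ_add ha (neg_mem hb), ρ_neg hb, sub_eq_add_neg]

theorem ρ_mul (ha : a ∈ s.O) (hb : b ∈ s.O) : s.ρ (a * b) = s.ρ a * s.ρ b :=
  ρ_eq (by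
    rw [map_mul, show a * b - φ (s.ρ a) * φ (s.ρ b) =
      (a - φ (s.ρ a)) * b + (b - φ (s.ρ b)) * φ (s.ρ a) by ring]
    exact add_mem (Chev_mul (ρ_spec ha) hb) (Chev_mul (ρ_spec hb) (s.mem _)))

theorem ρ_pow (ha : a ∈ s.O) (n : ℕ) : s.ρ (a ^ n) = s.ρ a ^ n := by
  induction n with
  | zero => rw [pow_zero, pow_zero, ρ_one]
  | succ n ih => rw [pow_succ, pow_succ, ρ_mul (pow_mem ha n) ha, ih]

theorem ρ_sum {ι : Type} (t : Finset ι) {x : ι → κ'} (h : ∀ i ∈ t, x i ∈ s.O) :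
    s.ρ (∑ i ∈ t, x i) = ∑ i ∈ t, s.ρ (x i) :=
  ρ_eq (by
    rw [map_sum, ← Finset.sum_sub_distrib]
    exact sum_mem fun i hi => ρ_spec (h i hi))

theorem ρ_eq_zero (ha : a ∈ s.O) : s.ρ a = 0 ↔ a ∈ s.O.nonunits :=
  ⟨fun h => by simpa only [h, map_zero, sub_zero] using ρ_spec ha,
    fun h => ρ_eq (by rwa [map_zero, sub_zero])⟩

theorem exists_hom (s : Spz φ) : ∃ r : s.O →+* κ, ∀ a : s.O, r a = s.ρ a :=
  ⟨{ toFun := fun a => s.ρ a
     map_one' := ρ_one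
     map_mul' := fun a b => ρ_mul a.2 b.2
     map_zero' := ρ_zero
     map_add' := fun a b => ρ_add a.2 b.2 }, fun _ => rfl⟩

theorem ρ_inv_of_not_mem (ha : a ∉ s.O) : a⁻¹ ∈ s.O ∧ s.ρ a⁻¹ = 0 :=
  have h := s.O.inv_mem_nonunits_iff.2 (Or.inr ha)
  ⟨s.O.nonunits_subset h, (ρ_eq_zero (s.O.nonunits_subset h)).2 h⟩

theorem un_iff : s.Un a ↔ a ≠ 0 ∧ a ∈ s.O ∧ a⁻¹ ∈ s.O := by
  refine ⟨fun h => ?_, fun h => ⟨h.2.1, fun h1 => ?_⟩⟩
  · have h1 := mt (ρ_eq_zero h.1).2 h.2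
    rw [s.O.mem_nonunits_iff_or, not_or, not_not] at h1
    exact ⟨h1.1, h.1, h1.2⟩
  · exact (s.O.mem_nonunits_iff_or.1 ((ρ_eq_zero h.2.1).1 h1)).elim h.1 fun h2 => h2 h.2.2

theorem Un.ne (h : s.Un a) : a ≠ 0 :=
  (un_iff.1 h).1

theorem un_φ {c : κ} (hc : c ≠ 0) : s.Un (φ c) :=
  ⟨s.mem c, by rwa [ρ_φ]⟩

theorem un_one : s.Un 1 :=
  ⟨one_mem _, by rw [ρ_one]; exact one_ne_zero⟩

theorem Un.neg (h : s.Un a) : s.Un (-a) :=
  ⟨neg_mem h.1, by rw [ρ_neg h.1]; exact neg_ne_zero.2 h.2⟩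

theorem Un.mul (h : s.Un a) (h' : s.Un b) : s.Un (a * b) :=
  ⟨mul_mem h.1 h'.1, by rw [ρ_mul h.1 h'.1]; exact mul_ne_zero h.2 h'.2⟩

theorem Un.inv (h : s.Un a) : s.Un a⁻¹ :=
  un_iff.2 ⟨inv_ne_zero h.ne, (un_iff.1 h).2.2, by rw [inv_inv]; exact h.1⟩

theorem Un.ρ_inv (h : s.Un a) : s.ρ a⁻¹ = (s.ρ a)⁻¹ :=
  eq_inv_of_mul_eq_one_left (by rw [← ρ_mul h.inv.1 h.1, inv_mul_cancel₀ h.ne, ρ_one])

theorem Un.div (h : s.Un a) (h' : s.Un b) : s.Un (a / b) := by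
  rw [div_eq_mul_inv]
  exact h.mul h'.inv

theorem Un.zpow (h : s.Un a) (n : ℤ) : s.Un (a ^ n) := by
  have h1 : ∀ m : ℕ, s.Un (a ^ m) := fun m =>
    ⟨pow_mem h.1 m, by rw [ρ_pow h.1]; exact pow_ne_zero m h.2⟩
  cases n with
  | ofNat m => rw [Int.ofNat_eq_natCast, zpow_natCast]; exact h1 m
  | negSucc m => rw [zpow_negSucc]; exact (h1 _).inv

theorem Un.pow (h : s.Un a) (n : ℕ) : s.Un (a ^ n) :=
  ⟨pow_mem h.1 n, by rw [ρ_pow h.1]; exact pow_ne_zero n h.2⟩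

theorem un_prod {ι : Type} (t : Finset ι) {x : ι → κ'} (h : ∀ i ∈ t, s.Un (x i)) :
    s.Un (∏ i ∈ t, x i) :=
  Finset.prod_induction x s.Un (fun _ _ => Un.mul) un_one h

end Spz

variable {K : Type} [Field K] [Algebra κ K] [IsAlgClosed κ] [Fact (IsFF κ K)] {φ : κ →+* κ'}

theorem exists_spz (θ : K →+* κ') (hθ : ∀ c, θ (algebraMap κ K c) = φ c) (x : Place κ K) :
    ∃ s : Spz φ, ∀ f, θ f ∈ s.O ↔ f ∈ x.1 := by
  let A : Subalgebra κ K := { x.1.toSubring with algebraMap_mem' := x.2.2 }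
  obtain ⟨σ, hσ⟩ := x.exists_ev A fun _ h => h
  obtain ⟨O, ρ, h1, h2, h3⟩ := Chev_gen (θ.comp A.val.toRingHom) σ.toRingHom fun r hr => by
    rw [show r = 0 from Subtype.ext ((map_eq_zero θ).1 hr), map_zero]
  have h4 : ∀ c, φ c ∈ O := fun c => hθ c ▸ h1 ⟨_, x.2.2 c⟩
  have h5 : ∀ c, ρ ⟨φ c, h4 c⟩ = c := fun c => by
    have h6 : (⟨φ c, h4 c⟩ : O) = ⟨_, h1 ⟨_, x.2.2 c⟩⟩ := Subtype.ext (hθ c).symm
    rw [h6, h2]
    exact (hσ _).trans (Place.val_const c)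
  refine ⟨⟨O, h4, fun a ha => ⟨ρ ⟨a, ha⟩, (h3 (⟨a, ha⟩ - ⟨_, h4 _⟩)).1 ?_⟩⟩,
    fun f => ⟨fun hf => by_contra fun h => ?_, fun hf => h1 ⟨f, hf⟩⟩⟩
  · rw [map_sub, h5, sub_self]
  · have h6 := x.1.inv_mem_nonunits_iff.2 (Or.inr h)
    have h7 := x.1.nonunits_subset h6
    have h8 : θ f⁻¹ ∈ O.nonunits := (h3 ⟨_, h1 ⟨_, h7⟩⟩).1 ((h2 _).trans ((hσ _).trans
      ((Place.val_eq_zero h7).2 (x.valuation_lt_one_iff.1 (x.1.mem_nonunits_iff.1 h6)))))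
    rw [map_inv₀] at h8
    rcases O.inv_mem_nonunits_iff.1 h8 with h9 | h9
    · exact h ((map_eq_zero θ).1 h9 ▸ zero_mem _)
    · exact h9 hf

theorem Spz.ρ_of_over (s : Spz φ) {θ : K →+* κ'} (hθ : ∀ c, θ (algebraMap κ K c) = φ c)
    {x : Place κ K} (h : ∀ f, θ f ∈ s.O ↔ f ∈ x.1) {f : K} (hf : f ∈ x.1) :
    s.ρ (θ f) = x.val f := by
  refine Spz.ρ_eq ?_
  rw [← hθ, ← map_sub, s.O.mem_nonunits_iff_or, map_eq_zero, ← map_inv₀, h,
    ← x.1.mem_nonunits_iff_or, x.1.mem_nonunits_iff, x.valuation_lt_one_iff]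
  exact Place.ge_sub_val hf

theorem Spz.un_of_over (s : Spz φ) {θ : K →+* κ'} {x : Place κ K}
    (h : ∀ f, θ f ∈ s.O ↔ f ∈ x.1) {f : K} (hf : f ≠ 0) : s.Un (θ f) ↔ x.ord f = 0 := by
  rw [Spz.un_iff, ← map_inv₀, h, h, x.mem_iff, x.mem_iff, Place.Ge, Place.Ge, x.ord_inv hf,
    or_iff_right hf, or_iff_right (inv_ne_zero hf), and_iff_right ((map_ne_zero θ).2 hf)]
  omega

end Pool.Agent.Lef
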