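import Pool.Agent.Work.MP_da2620_ag.CD

/-!
# The formal division of an infinitesimal divisor class  (task LB FormA)

* `solve_rec`: strong recursion; choose `x n` with `Lin (x n) = y n - (Θ x' n - Lin (x' n))`, where `x'` is any sequence that agrees with `x` below `n`.
* `lin_surj`: the polar part of `F i` is a Laurent polynomial in `U i`, so `F i - ex i (g i)` is regular for some `g i ∈ K`; apply `H1z` to the
  repartition with the components `g i` at `y i` and zero elsewhere.
* `form_a`: work in `PowerSeries (LS κ)`.  Unknown sequences `a n ∈ K`, `lam n i ∈ κ`, `u n i ∈ LS κ`; put `A i = 1 + X * mk (ex i (a n))`,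
  `C i = X * mk (lam n i)` for `i = some _`, `C none = -X`, `W i = 1 + X * mk (u n i)` and solve `A i = (1 + T (-1) * C i) ^ m i * W i` by `solve_rec`: the
  coefficient of `X ^ (n + 1)` of the difference is `ex i (a n) - m i * lam n i * T (-1) - u n i` plus terms in the earlier unknowns.  All `a n` lie in `Lsp D`
  (all coefficients of the right side are `Ge (-m i)`).  Take a basis `v` of `Lsp D` and let `α j` be the series of the `j`-th coordinates of
  `1, a 0, a 1, ...`.  Transpose: for `F : PowerSeries (LS κ)` all of whose coefficients are `Ge (-M)` there is `F' : LS κ⟦X⟧` with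
  `coeff n (F'.cf l) = (coeff n F).cf l` (`LS.exists_cf`); this is additive and compatible with the multiplication by `T 1` and by constant series.
-/

namespace Pool.Agent.Lef

open PR0 PowerSeries

section

variable {B : Type} [CommRing B]

theorem FormA_dvd {n : ℕ} {s s' : ℕ → B} (h : ∀ k < n, s k = s' k) :
    ∃ δ : B⟦X⟧, X * mk s - X * mk s' = X ^ (n + 1) * δ ∧ constantCoeff δ = s n - s' n := by
  obtain ⟨δ, hδ⟩ : (X : B⟦X⟧) ^ n ∣ mk s - mk s' :=
    X_pow_dvd_iff.2 fun k hk => by rw [map_sub, coeff_mk, coeff_mk, h k hk, sub_self]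
  refine ⟨δ, by rw [← mul_sub, hδ]; ring, ?_⟩
  have := coeff_X_pow_mul δ n 0
  rw [← hδ, zero_add, map_sub, coeff_mk, coeff_mk, coeff_zero_eq_constantCoeff] at this
  exact this.symm

/-- the equation to be solved -/
noncomputable def FormA_eq (m : ℕ) (a c u : ℕ → B) : B⟦X⟧ :=
  1 + X * mk a - (1 + X * mk c) ^ m * (1 + X * mk u)

theorem FormA_key {n : ℕ} (m : ℕ) {a a' c c' u u' : ℕ → B} (ha : ∀ k < n, a k = a' k)
    (hc : ∀ k < n, c k = c' k) (hu : ∀ k < n, u k = u' k) :
    coeff (n + 1) (FormA_eq m a c u) - (a n - m * c n - u n) =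
      coeff (n + 1) (FormA_eq m a' c' u') - (a' n - m * c' n - u' n) := by
  obtain ⟨α, a1, a2⟩ := FormA_dvd ha
  obtain ⟨δ, c1, c2⟩ := FormA_dvd hc
  obtain ⟨ε, u1, u2⟩ := FormA_dvd hu
  obtain ⟨η, h1, h2⟩ : ∃ η : B⟦X⟧, (1 + X * mk c) ^ m * (1 + X * mk u) -
      (1 + X * mk c') ^ m * (1 + X * mk u') = X ^ (n + 1) * η ∧
        constantCoeff η = m * (c n - c' n) + (u n - u' n) := by
    induction m with
    | zero => exact ⟨ε, by linear_combination u1, by simp [u2]⟩
    | succ m ih =>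
      obtain ⟨η, h1, h2⟩ := ih
      refine ⟨(1 + X * mk c) * η + δ * (1 + X * mk c') ^ m * (1 + X * mk u'), ?_, ?_⟩
      · linear_combination (1 + X * mk c) * h1 + (1 + X * mk c') ^ m * (1 + X * mk u') * c1
      · simp only [map_add, map_mul, map_pow, map_one, constantCoeff_X, h2, c2]
        push_cast
        ring
  have h3 : FormA_eq m a c u - FormA_eq m a' c' u' = X ^ (n + 1) * (α - η) := by
    unfold FormA_eq
    linear_combination a1 - h1
  have h4 := coeff_X_pow_mul (α - η) (n + 1) 0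
  rw [← h3, zero_add, map_sub, coeff_zero_eq_constantCoeff, map_sub, a2, h2] at h4
  linear_combination h4

/-- all coefficients have bounded poles -/
def FormA_G (M : ℤ) (F : (LS B)⟦X⟧) : Prop := ∀ n, (coeff n F).Ge M

theorem FormA_mul {M M' : ℤ} {F F' : (LS B)⟦X⟧} (h : FormA_G M F) (h' : FormA_G M' F') :
    FormA_G (M + M') (F * F') := fun n l hl => by
  rw [coeff_mul, LS.cf_sum]
  exact Finset.sum_eq_zero fun p _ => (h p.1).mul (h' p.2) l hl

theorem FormA_one {M : ℤ} (hM : M ≤ 0) {s : ℕ → LS B} (h : ∀ k, (s k).Ge M) :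
    FormA_G M (1 + X * mk s) := fun n => by
  cases n with
  | zero => simpa [LS.T_zero] using (LS.ge_T (R := B) 0).mono hM
  | succ n => simpa [coeff_succ_X_mul, coeff_one] using h n

theorem FormA_pow {F : (LS B)⟦X⟧} (h : FormA_G (-1) F) (m : ℕ) : FormA_G (-m) (F ^ m) := by
  induction m with
  | zero =>
    have := FormA_one (s := fun k => coeff k (0 : (LS B)⟦X⟧)) le_rfl fun _ _ _ => rfl
    rw [show mk _ = (0 : (LS B)⟦X⟧) from PowerSeries.ext fun k => coeff_mk _ _] at this
    simpa using this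
  | succ m ih =>
    rw [pow_succ, Nat.cast_succ, neg_add]
    exact FormA_mul ih h

/-- the transposed series -/
noncomputable def FormA_t (F : LS B⟦X⟧) : (LS B)⟦X⟧ :=
  mk fun n => (F.ser.map (coeff (R := B) n) : HahnSeries ℤ B)

theorem FormA_cf (F : LS B⟦X⟧) (n : ℕ) (l : ℤ) :
    (coeff n (FormA_t F)).cf l = coeff n (F.cf l) :=
  congrArg (LS.cf · l) (coeff_mk (R := LS B) n _)

theorem FormA_C (g : LS B) : FormA_t (LS.map (C : B →+* B⟦X⟧) g) = C g :=
  PowerSeries.ext fun n => LS.ext fun l => by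
    rw [FormA_cf, LS.cf_map, coeff_C, coeff_C]
    split_ifs <;> rfl

/-- transposition as a ring map -/
noncomputable def FormA_tr : LS B⟦X⟧ →+* (LS B)⟦X⟧ where
  toFun := FormA_t
  map_one' := by simpa using FormA_C (1 : LS B)
  map_zero' := by simpa using FormA_C (0 : LS B)
  map_add' F G := PowerSeries.ext fun n => LS.ext fun l => by
    rw [map_add, LS.cf_add, FormA_cf, FormA_cf, FormA_cf, LS.cf_add, map_add]
  map_mul' F G := PowerSeries.ext fun n => LS.ext fun l => by
    obtain ⟨a, ha⟩ := F.exists_ge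
    obtain ⟨b, hb⟩ := G.exists_ge
    have k : ∀ {F : LS B⟦X⟧} {a : ℤ}, F.Ge a → ∀ n, (coeff n (FormA_t F)).Ge a :=
      fun h n l hl => by rw [FormA_cf, h l hl, map_zero]
    rw [FormA_cf, LS.cf_mul ha hb, map_sum, coeff_mul, LS.cf_sum]
    simp only [LS.cf_mul (k ha _) (k hb _), FormA_cf, coeff_mul]
    exact Finset.sum_comm

theorem FormA_inj : Function.Injective (FormA_tr (B := B)) := fun F G h =>
  LS.ext fun l => PowerSeries.ext fun n => by
    rw [← FormA_cf, ← FormA_cf]
    exact congrArg (fun H => (coeff n H).cf l) h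

theorem FormA_al (α : B⟦X⟧) : FormA_tr (algebraMap B⟦X⟧ (LS B⟦X⟧) α) =
    PowerSeries.map (algebraMap B (LS B)) α :=
  PowerSeries.ext fun n => LS.ext fun l => by
    refine (FormA_cf _ n l).trans ?_
    rw [coeff_map, LS.cf_algebraMap, LS.cf_algebraMap, apply_ite (coeff n), map_zero]

theorem FormA_surj {F : (LS B)⟦X⟧} (h : FormA_G 0 F) : ∃ w : LS B⟦X⟧, w.Ge 0 ∧ FormA_tr w = F := by
  have h0 : ∀ l < 0, (mk fun n => (coeff n F).cf l) = 0 := fun l hl =>
    PowerSeries.ext fun n => by rw [coeff_mk, h n l hl, map_zero]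
  obtain ⟨w, hw⟩ := LS.exists_cf (fun l => mk fun n => (coeff n F).cf l) 0 h0
  exact ⟨w, fun l hl => (hw l).trans (h0 l hl), PowerSeries.ext fun n => LS.ext fun l =>
    (FormA_cf w n l).trans (by rw [hw, coeff_mk])⟩

end

theorem solve_rec {P M : Type} [AddCommGroup M] (Θ : (ℕ → P) → ℕ → M) (Lin : P → M)
    (hL : Function.Surjective Lin)
    (hΘ : ∀ x x' n, (∀ m < n, x m = x' m) → Θ x n - Lin (x n) = Θ x' n - Lin (x' n))
    (y : ℕ → M) : ∃ x, ∀ n, Θ x n = y n := by
  obtain ⟨g, hg⟩ := hL.hasRightInverse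
  let F : ∀ n : ℕ, (∀ m, m < n → P) → P := fun n r =>
    g (y n - (Θ (fun m => if h : m < n then r m h else g 0) n - Lin (g 0)))
  refine ⟨Nat.lt_wfRel.wf.fix F, fun n => ?_⟩
  have h := hΘ (Nat.lt_wfRel.wf.fix F)
    (fun m => if _h : m < n then Nat.lt_wfRel.wf.fix F m else g 0) n fun m hm => by rw [dif_pos hm]
  rw [dif_neg (lt_irrefl n), WellFounded.fix_eq _ F n, hg, sub_eq_iff_eq_add] at h
  rw [h, add_sub_cancel]

variable {κ K : Type} [Field κ] [Field K] [Algebra κ K] [IsAlgClosed κ] [Fact (IsFF κ K)]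
  {ι : Type} [Fintype ι]

variable (κ K ι) in
/-- finitely many places with uniformisers and expansions -/
structure FD where
  y : Option ι → Place κ K
  inj : Function.Injective y
  U : Option ι → K
  ne : ∀ i, U i ≠ 0
  ord : ∀ i, (y i).ord (U i) = 1
  ex : Option ι → K →ₐ[κ] LS κ
  ex_U : ∀ i, ex i (U i) = LS.T κ 1
  ge : ∀ i f n, (y i).Ge f n ↔ (ex i f).Ge n
  h1 : H1z (∑ i : ι, Finsupp.single (y (some i)) 1 : Dv κ K)

variable (κ K) in
theorem exists_fd : ∃ n : ℕ, Nonempty (FD κ K (Fin n)) := by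
  have := infinite_place (K := κ) (L := K)
  let y : Option (Fin (2 * genus κ K)) → Place κ K := fun i =>
    Infinite.natEmbedding _ (Encodable.encode i)
  choose e h1 h2 using fun i => exists_ex (y i) (y i).unif_ne_zero (y i).ord_unif
  refine ⟨_, ⟨⟨y, (Infinite.natEmbedding _).injective.comp Encodable.encode_injective,
    fun i => (y i).unif, fun i => (y i).unif_ne_zero, fun i => (y i).ord_unif, e, h1, h2,
    h1z_of_deg ?_⟩⟩⟩
  simp [dg_sum, dg_single]

/-- the multiplicities -/
def mlt (N : ℕ) : Option ι → ℕ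
  | none => 1
  | some _ => N

namespace FD

variable (d : FD κ K ι)

/-- the divisor of poles -/
noncomputable def D (N : ℕ) : Dv κ K := ∑ i, Finsupp.single (d.y i) (mlt N i : ℤ)

omit [IsAlgClosed κ] [Fact (IsFF κ K)] in
theorem FormA_app {α : Type} [Fintype α] (f : α → Option ι) (hf : Function.Injective f)
    (m : α → ℤ) : (∀ i, (∑ j, Finsupp.single (d.y (f j)) (m j) : Dv κ K) (d.y (f i)) = m i) ∧
      ∀ P, (∀ i, P ≠ d.y (f i)) → (∑ j, Finsupp.single (d.y (f j)) (m j) : Dv κ K) P = 0 := by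
  refine ⟨fun i => ?_, fun P h => ?_⟩
  · rw [Finset.sum_apply', Finset.sum_eq_single i (fun j _ hj =>
      Finsupp.single_eq_of_ne fun e => hj (hf (d.inj e)).symm) (by simp), Finsupp.single_eq_same]
  · rw [Finset.sum_apply']
    exact Finset.sum_eq_zero fun j _ => Finsupp.single_eq_of_ne (h j)

theorem lin_surj (F : Option ι → LS κ) : ∃ (a : K) (lam : Option ι → κ),
    (∀ P : Place κ K, (∀ i, P ≠ d.y i) → a ∈ P.1) ∧ lam none = 0 ∧
      ∀ i, (d.ex i a - lam i • LS.T κ (-1) - F i).Ge 0 := by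
  have h1 : ∀ i, ∃ g : K, (F i - d.ex i g).Ge 0 := fun i => by
    obtain ⟨s, hs⟩ := CDA_trunc (F i) 0
    exact ⟨_, by
      rwa [CDA_map_trunc _ (x := (d.U i)⁻¹) (by rw [map_inv₀, d.ex_U, CDA_T_inv])]⟩
  choose g hg using h1
  obtain ⟨f, hf⟩ := d.h1 (Function.extend d.y g 0) ((Set.finite_range d.y).subset fun P hP => by
    by_contra hc
    exact hP (by rw [Function.extend_apply' _ _ _ hc]; exact zero_mem _))
  obtain ⟨e1, e2⟩ := d.FormA_app some (Option.some_injective ι) fun _ => 1
  have k : ∀ i n, n ≤ 0 → (d.y i).Ge (f - g i) n → (d.ex i f - F i).Ge n := fun i n hn h => by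
    have := CDA_ge_sub ((d.ge _ _ _).1 h) ((hg i).mono hn)
    rwa [map_sub, sub_sub, add_sub_cancel] at this
  have k0 : (d.ex none f - F none).Ge 0 := k none 0 le_rfl (by
    have := hf (d.y none)
    rwa [d.inj.extend_apply, e2 _ fun i e => by simpa using d.inj e, neg_zero] at this)
  have k1 : ∀ i, (d.ex i f - F i).Ge (-1) := fun i => by
    cases i with
    | none => exact k0.mono (by omega)
    | some i =>
      have := hf (d.y (some i))
      rw [d.inj.extend_apply, e1] at this
      exact k _ _ (by omega) this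
  refine ⟨f, fun i => (d.ex i f - F i).cf (-1), fun P hP => P.mem_iff.2 ?_, k0 _ (by omega),
    fun i l hl => ?_⟩
  · have := hf P
    rwa [Function.extend_apply' _ _ _ fun ⟨i, e⟩ => hP i e.symm, e2 P fun i => hP _,
      Pi.zero_apply, sub_zero, neg_zero] at this
  · rw [sub_right_comm, LS.cf_sub, LS.cf_smul, LS.cf_T]
    split_ifs with h
    · rw [h, mul_one, sub_self]
    · rw [k1 i l (by omega), mul_zero, sub_self]

theorem form_a {N : ℕ} (hN : (N : κ) ≠ 0) :
    ∃ (n : ℕ) (v : Fin n → K) (α : Fin n → κ⟦X⟧) (c : Option ι → κ⟦X⟧) (w : Option ι → LS κ⟦X⟧),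
      (∀ j, v j ∈ Lsp (d.D N)) ∧ ∑ j, constantCoeff (α j) • v j = 1 ∧ c none = -X ∧
      ∀ i, constantCoeff (c i) = 0 ∧ (w i).Ge 0 ∧ constantCoeff ((w i).cf 0) = 1 ∧
        ∑ j, α j • LS.map (C : κ →+* κ⟦X⟧) (d.ex i (d.U i ^ mlt N i * v j)) =
          (LS.T κ⟦X⟧ 1 + algebraMap κ⟦X⟧ (LS κ⟦X⟧) (c i)) ^ mlt N i * w i := by
  let e : Option ι → κ⟦X⟧ := fun i => i.elim (-1) fun _ => 0
  let P := {p : K × (Option ι → κ) × (Option ι → LS κ) //
    (∀ Q : Place κ K, (∀ i, Q ≠ d.y i) → p.1 ∈ Q.1) ∧ p.2.1 none = 0 ∧ ∀ i, (p.2.2 i).Ge 0}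
  obtain ⟨x, hx⟩ := solve_rec (P := P) (fun x n i => coeff (n + 1) (FormA_eq (mlt N i)
      (fun k => d.ex i (x k).1.1) (fun k => ((x k).1.2.1 i + coeff k (e i)) • LS.T κ (-1))
      fun k => (x k).1.2.2 i))
    (fun p i => d.ex i p.1.1 - mlt N i * (p.1.2.1 i • LS.T κ (-1)) - p.1.2.2 i)
    (fun F => by
      obtain ⟨a, lam, h1, h2, h3⟩ := d.lin_surj F
      refine ⟨⟨(a, fun i => lam i / mlt N i, fun i => d.ex i a - lam i • LS.T κ (-1) - F i),
        h1, by simp [h2], h3⟩, funext fun i => ?_⟩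
      have h4 : (mlt N i : κ) ≠ 0 := by
        cases i with
        | none => simp [mlt]
        | some i => exact hN
      dsimp only
      rw [← nsmul_eq_mul, ← Nat.cast_smul_eq_nsmul κ, smul_smul, mul_div_cancel₀ _ h4,
        sub_sub_cancel])
    (fun x x' n h => funext fun i => by
      have := FormA_key (mlt N i) (a := fun k => d.ex i (x k).1.1) (a' := fun k => d.ex i (x' k).1.1)
        (c := fun k => ((x k).1.2.1 i + coeff k (e i)) • LS.T κ (-1))
        (c' := fun k => ((x' k).1.2.1 i + coeff k (e i)) • LS.T κ (-1))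
        (u := fun k => (x k).1.2.2 i) (u' := fun k => (x' k).1.2.2 i)
        (fun k hk => by rw [h k hk]) (fun k hk => by rw [h k hk]) fun k hk => by rw [h k hk]
      simp only [add_smul, Pi.sub_apply] at this ⊢
      linear_combination this) 0
  have hW : ∀ i, FormA_G 0 (1 + X * PowerSeries.mk fun k => (x k).1.2.2 i) := fun i =>
    FormA_one le_rfl fun k => (x k).2.2.2 i
  have hE : ∀ i, (1 + X * PowerSeries.mk fun k => d.ex i (x k).1.1) =
      (1 + X * PowerSeries.mk fun k => ((x k).1.2.1 i + coeff k (e i)) • LS.T κ (-1)) ^ mlt N i *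
        (1 + X * PowerSeries.mk fun k => (x k).1.2.2 i) := fun i =>
    sub_eq_zero.1 (PowerSeries.ext fun n => by
      cases n with
      | zero => simp
      | succ n => exact congrFun (hx n) i)
  obtain ⟨e1, e2⟩ := d.FormA_app id Function.injective_id fun i => (mlt N i : ℤ)
  have hs : ∀ k : ℕ, (k.casesOn 1 fun k => (x k).1.1 : K) ∈ Lsp (d.D N) := fun k Q => by
    by_cases hQ : ∃ i, Q = d.y i
    · obtain ⟨i, rfl⟩ := hQ
      have := FormA_mul (FormA_pow (FormA_one (by omega) fun k =>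
        (LS.ge_T (-1)).smul ((x k).1.2.1 i + coeff k (e i))) (mlt N i)) (hW i) k
      rw [← hE, add_zero] at this
      rw [show d.D N (d.y i) = mlt N i from e1 i, d.ge]
      cases k with
      | zero => simpa using this
      | succ k => simpa [coeff_succ_X_mul, coeff_one] using this
    · push Not at hQ
      rw [show d.D N Q = 0 from e2 Q hQ, neg_zero, ← Q.mem_iff]
      cases k with
      | zero => exact one_mem _
      | succ k => exact (x k).2.1 Q hQ
  let b := Module.finBasis κ (Lsp (d.D N))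
  have hb : ∀ k, ∑ j, b.repr ⟨_, hs k⟩ j • (b j).1 = (k.casesOn 1 fun k => (x k).1.1 : K) :=
    fun k => by
      have := congrArg (Lsp (d.D N)).subtype (b.sum_repr ⟨_, hs k⟩)
      simpa only [map_sum, map_smul, Submodule.subtype_apply] using this
  choose w w1 w2 using fun i => FormA_surj (hW i)
  refine ⟨_, fun j => (b j).1, fun j => PowerSeries.mk fun k => b.repr ⟨_, hs k⟩ j,
    fun i => X * PowerSeries.mk fun k => (x k).1.2.1 i + coeff k (e i), w, fun j => (b j).2, ?_, ?_,
    fun i => ⟨by simp, w1 i, ?_, FormA_inj ?_⟩⟩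
  · simp only [← coeff_zero_eq_constantCoeff_apply, coeff_mk]
    exact hb 0
  · rw [← mul_neg_one]
    exact congrArg _ (PowerSeries.ext fun k => by rw [coeff_mk, (x k).2.2.1, zero_add]; rfl)
  · rw [← coeff_zero_eq_constantCoeff_apply, ← FormA_cf, show FormA_t (w i) = _ from w2 i]
    simpa [LS.T_zero] using LS.cf_T (R := κ) 0 0
  · have a1 : ∀ g : LS κ, FormA_tr (LS.map (C : κ →+* κ⟦X⟧) g) = C g := FormA_C
    have a2 : ∑ j, PowerSeries.map (algebraMap κ (LS κ)) (PowerSeries.mk fun k => b.repr ⟨_, hs k⟩ j) *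
        C (d.ex i (b j).1) = 1 + X * PowerSeries.mk fun k => d.ex i (x k).1.1 :=
      PowerSeries.ext fun k => by
        simp only [map_sum, coeff_mul_C, coeff_map, coeff_mk, ← Algebra.smul_def, ← map_smul]
        rw [← map_sum, hb]
        cases k with
        | zero => simp
        | succ k => simp [coeff_succ_X_mul, coeff_one]
    have a3 : C (LS.T κ 1) + PowerSeries.map (algebraMap κ (LS κ))
        (X * PowerSeries.mk fun k => (x k).1.2.1 i + coeff k (e i)) = C (LS.T κ 1) *
          (1 + X * PowerSeries.mk fun k => ((x k).1.2.1 i + coeff k (e i)) • LS.T κ (-1)) := by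
      rw [mul_add, mul_one, map_mul, map_X, mul_left_comm]
      refine congrArg (fun F => _ + X * F) (PowerSeries.ext fun k => ?_)
      rw [coeff_map, coeff_C_mul, coeff_mk, coeff_mk, mul_smul_comm, ← LS.T_add, add_neg_cancel,
        LS.T_zero, Algebra.algebraMap_eq_smul_one]
    rw [map_mul, map_pow, map_add, FormA_al, w2, ← LS.map_T (C : κ →+* κ⟦X⟧), a1, a3, mul_pow,
      mul_assoc, ← hE, ← a2, map_sum, Finset.mul_sum]
    refine Finset.sum_congr rfl fun j _ => ?_
    rw [Algebra.smul_def, map_mul, FormA_al, a1, map_mul, map_mul, map_pow, map_pow, d.ex_U,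
      mul_left_comm]

end FD

end Pool.Agent.Lef
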