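import Pool.Agent.Work.MP_7f58ab_ag.Lt.RecE
import Pool.Agent.Work.MP_60d5ce_nt.Lb.Ext
import Pool.Agent.Work.MP_60d5ce_nt.Lb.Tr

-- merged part: Pool.Agent.Work.MP_60d5ce_nt.Lb.Ev
section
/-!
# Values of functions at divisors, Weil reciprocity, the Weil pairing  (task LB Ev)

The lemmas of `MP_7f58ab_ag/Lt/{Sy,RecD,RecE}` carry an irrelevant instance argument `[OddP]`: supply it by
`haveI : Pool.Agent.Ell.OddP := ⟨3, Nat.prime_three, by decide⟩`.
* `recip`: `recip_disj`, `sy_left`, `sy_right`, split the `finprod` over the two disjoint supports.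
* `exists_move`: `weak_approx` with the targets `P.unif ^ D P` and the precision `D P + 1`.
* `we_eq`: two admissible quadruples have the same value.  For a fixed pair `(g, E)` two pairs `(f, D)`, `(f', D')` for the same class
  differ by `D' = D + dv h`, `f' = f * h ^ N * constant` (`const_of_dv`); `recip` for `h` and `g` (`Off (dv g) h` since `N ≠ 0`),
  `dg E = 0`.  The same on the other side; to compare two quadruples pass through a pair `(g'', E'')` that avoids both `D` and `D'`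
  (`exists_kumD`).
* `we_pow`: `evD E f ^ N = evD (dv g) f = evD (dv f) g = evD D g ^ N`.
-/

namespace Pool.Agent.Lef

open PR0 Pool.Agent.Ell.AT

variable {κ K : Type} [Field κ] [Field K] [Algebra κ K]

/-- the value of `f` at the divisor `D` -/
noncomputable def evD (D : Dv κ K) (f : K) : κ := D.prod fun P n => P.val f ^ n

/-- `f` has neither zeros nor poles on the support of `D` -/
def Off (D : Dv κ K) (f : K) : Prop := f ≠ 0 ∧ ∀ P, D P ≠ 0 → P.ord f = 0

/-- disjoint supports -/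
def Dj (D E : Dv κ K) : Prop := ∀ P, D P = 0 ∨ E P = 0

variable {D E D' E' : Dv κ K} {f g : K}

theorem Dj.symm (h : Dj D E) : Dj E D := fun P => (h P).symm

/-- an irrelevant instance argument -/
@[reducible] def Ev_odd : Pool.Agent.Ell.OddP := ⟨3, Nat.prime_three, by decide⟩

attribute [local instance] Ev_odd

theorem evD_zero (f : K) : evD (0 : Dv κ K) f = 1 := by
  exact Finsupp.prod_zero_index

theorem evD_single (P : Place κ K) (n : ℤ) (f : K) : evD (Finsupp.single P n) f = P.val f ^ n := by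
  exact Finsupp.prod_single_index (zpow_zero _)

theorem evD_eq_prod {T : Finset (Place κ K)} (hT : D.support ⊆ T) (f : K) :
    evD D f = ∏ P ∈ T, P.val f ^ D P := by
  exact Finsupp.prod_of_support_subset _ hT _ fun _ _ => zpow_zero _

theorem Off.add (h : Off D f) (h' : Off E f) : Off (D + E) f := by
  refine ⟨h.1, fun P hP => ?_⟩
  by_cases e : D P = 0
  · exact h'.2 P (by simpa [e] using hP)
  · exact h.2 P e

theorem Off.neg (h : Off D f) : Off (-D) f := by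
  exact ⟨h.1, fun P hP => h.2 P (by simpa using hP)⟩

theorem Off.sub (h : Off D f) (h' : Off E f) : Off (D - E) f := by
  exact sub_eq_add_neg D E ▸ h.add h'.neg

theorem Off.zsmul (h : Off D f) (n : ℤ) : Off (n • D) f := by
  exact ⟨h.1, fun P hP => h.2 P fun e => hP (by simp [e])⟩

theorem Off.nsmul (h : Off D f) (n : ℕ) : Off (n • D) f := by
  exact ⟨h.1, fun P hP => h.2 P fun e => hP (by simp [e])⟩

theorem Off.of_nsmul {n : ℕ} (hn : n ≠ 0) (h : Off (n • D) f) : Off D f := by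
  exact ⟨h.1, fun P hP => h.2 P (by simp [hn, hP])⟩

variable [IsAlgClosed κ] [Fact (IsFF κ K)]

theorem off_iff : Off D f ↔ f ≠ 0 ∧ Dj D (dv κ f) := by
  refine and_congr_right fun hf => forall_congr' fun P => ?_
  rw [dv_apply hf]
  exact or_iff_not_imp_left.symm

theorem Off.symm (h : Off (dv κ g) f) (hg : g ≠ 0) : Off (dv κ f) g := by
  exact off_iff.2 ⟨hg, (off_iff.1 h).2.symm⟩

theorem Off.mul (h : Off D f) (h' : Off D g) : Off D (f * g) := by
  exact ⟨mul_ne_zero h.1 h'.1, fun P hP => by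
    rw [P.ord_mul h.1 h'.1, h.2 P hP, h'.2 P hP, add_zero]⟩

theorem Off.inv (h : Off D f) : Off D f⁻¹ := by
  exact ⟨inv_ne_zero h.1, fun P hP => by rw [P.ord_inv h.1, h.2 P hP, neg_zero]⟩

theorem Off.div (h : Off D f) (h' : Off D g) : Off D (f / g) := by
  exact div_eq_mul_inv f g ▸ h.mul h'.inv

theorem Off.pow (h : Off D f) (n : ℕ) : Off D (f ^ n) := by
  exact ⟨pow_ne_zero n h.1, fun P hP => by rw [P.ord_pow h.1, h.2 P hP, mul_zero]⟩

theorem off_const (D : Dv κ K) {c : κ} (hc : c ≠ 0) : Off D (algebraMap κ K c) := by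
  exact ⟨(map_ne_zero _).2 hc, fun P _ => P.ord_const hc⟩

theorem Off.smul (h : Off D f) (σ : SA κ K) : Off (σ • D) (sl σ f) := by
  refine ⟨(map_ne_zero _).2 h.1, fun P hP => ?_⟩
  rw [← smul_inv_smul σ P, ord_smul σ _ h.1]
  exact h.2 _ (dv_smul_apply σ D P ▸ hP)

omit [IsAlgClosed κ] [Fact (IsFF κ K)] in
theorem Off.Ev_ord (h : Off D f) {P : Place κ K} (hP : P ∈ D.support) : P.ord f = 0 :=
  h.2 P (Finsupp.mem_support_iff.1 hP)

theorem Off.evD_ne (h : Off D f) : evD D f ≠ 0 := by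
  exact Finset.prod_ne_zero_iff.2 fun P hP => zpow_ne_zero _ (val_ne h.1 (h.Ev_ord hP)).2

theorem evD_add (h : Off D f) (h' : Off E f) : evD (D + E) f = evD D f * evD E f := by
  classical
  rw [evD_eq_prod Finsupp.support_add, evD_eq_prod (T := D.support ∪ E.support)
    Finset.subset_union_left, evD_eq_prod (T := D.support ∪ E.support) Finset.subset_union_right,
    ← Finset.prod_mul_distrib]
  exact Finset.prod_congr rfl fun P hP => zpow_add₀
    (val_ne h.1 ((Finset.mem_union.1 hP).elim h.Ev_ord h'.Ev_ord)).2 _ _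

theorem evD_neg (D : Dv κ K) (f : K) : evD (-D) f = (evD D f)⁻¹ := by
  rw [evD_eq_prod (Finsupp.support_neg D).subset, evD_eq_prod subset_rfl, ← Finset.prod_inv_distrib]
  exact Finset.prod_congr rfl fun P _ => zpow_neg _ _

theorem evD_sub (h : Off D f) (h' : Off E f) : evD (D - E) f = evD D f / evD E f := by
  rw [sub_eq_add_neg, evD_add h h'.neg, evD_neg, div_eq_mul_inv]

theorem evD_zsmul (n : ℤ) (D : Dv κ K) (f : K) : evD (n • D) f = evD D f ^ n := by
  rw [evD_eq_prod Finsupp.support_smul, evD_eq_prod subset_rfl, ← Finset.prod_zpow]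
  exact Finset.prod_congr rfl fun P _ => zpow_mul' _ _ _

theorem evD_nsmul (n : ℕ) (D : Dv κ K) (f : K) : evD (n • D) f = evD D f ^ n := by
  rw [← natCast_zsmul, evD_zsmul, zpow_natCast]

theorem evD_mul (h : Off D f) (h' : Off D g) : evD D (f * g) = evD D f * evD D g := by
  rw [evD_eq_prod subset_rfl, evD_eq_prod subset_rfl, evD_eq_prod subset_rfl,
    ← Finset.prod_mul_distrib]
  exact Finset.prod_congr rfl fun P hP => by
    rw [Sy_mul h.1 h'.1 (h.Ev_ord hP) (h'.Ev_ord hP), mul_zpow]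

theorem evD_inv (h : Off D f) : evD D f⁻¹ = (evD D f)⁻¹ := by
  rw [evD_eq_prod subset_rfl, evD_eq_prod subset_rfl, ← Finset.prod_inv_distrib]
  exact Finset.prod_congr rfl fun P hP => by rw [Sy_inv h.1 (h.Ev_ord hP), inv_zpow]

theorem evD_div (h : Off D f) (h' : Off D g) : evD D (f / g) = evD D f / evD D g := by
  rw [div_eq_mul_inv, evD_mul h h'.inv, evD_inv h', div_eq_mul_inv]

theorem evD_pow (h : Off D f) (n : ℕ) : evD D (f ^ n) = evD D f ^ n := by
  rw [evD_eq_prod subset_rfl, evD_eq_prod subset_rfl, ← Finset.prod_pow]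
  exact Finset.prod_congr rfl fun P hP => by
    rw [Sy_pow h.1 (h.Ev_ord hP), ← zpow_natCast, ← zpow_natCast, ← zpow_mul, ← zpow_mul, mul_comm]

theorem evD_const (D : Dv κ K) {c : κ} (hc : c ≠ 0) : evD D (algebraMap κ K c) = c ^ dg D := by
  rw [evD_eq_prod subset_rfl]
  simp only [Place.val_const]
  exact RecE_zpow_sum hc _ _

theorem evD_smul (h : Off D f) (σ : SA κ K) : evD (σ • D) (sl σ f) = sc σ (evD D f) := by
  rw [evD, Finsupp.comapSMul_def, Finsupp.prod_mapDomain_index_inj (MulAction.injective σ),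
    evD_eq_prod subset_rfl, map_prod]
  exact Finset.prod_congr rfl fun P hP => by
    simp only [val_smul σ P (val_ne h.1 (h.Ev_ord hP)).1, map_zpow₀]

/-- Weil reciprocity -/
theorem recip (hg : g ≠ 0) (h : Off (dv κ g) f) : evD (dv κ g) f = evD (dv κ f) g := by
  classical
  have hd : Disj κ f g := fun P => or_iff_not_imp_right.2 fun k => h.2 P (by rwa [dv_apply hg])
  have h1 : ∀ P : Place κ K, sy 1 P f g = P.val f ^ dv κ g P * (P.val g ^ dv κ f P)⁻¹ := fun P => by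
    rw [dv_apply hg, dv_apply h.1]
    rcases hd P with k | k
    · simp [sy_left h.1 k, k]
    · simp [sy_right hg k, k]
  have h2 := recip_disj h.1 hg hd
  rw [tot, finprod_eq_prod_of_mulSupport_subset (s := (dv κ g).support ∪ (dv κ f).support) _
    fun P hP => by_contra fun k => hP (by
      simp only [Finset.coe_union, Set.mem_union, Finset.mem_coe, Finsupp.mem_support_iff, not_or,
        not_not] at k
      simp [h1, k.1, k.2])] at h2
  simp only [h1] at h2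
  rwa [Finset.prod_mul_distrib, Finset.prod_inv_distrib, ← evD_eq_prod Finset.subset_union_left,
    ← evD_eq_prod Finset.subset_union_right, mul_inv_eq_one₀ (h.symm hg).evD_ne] at h2

theorem exists_move (D : Dv κ K) {S : Set (Place κ K)} (hS : S.Finite) :
    ∃ g : K, g ≠ 0 ∧ ∀ P ∈ S, P.ord g = D P := by
  obtain ⟨f, hf⟩ := weak_approx hS (fun P => P.unif ^ D P) fun P => D P + 1
  have key : ∀ P ∈ S, f ≠ 0 ∧ P.ord f = D P := fun P hP => by
    have := Place.ord_add_of_lt (zpow_ne_zero (D P) P.unif_ne_zero)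
      (by rw [rr_ge_unif]; exact hf P hP)
    rwa [add_sub_cancel, rr_ge_unif] at this
  by_cases h : f = 0
  · exact ⟨1, one_ne_zero, fun P hP => absurd h (key P hP).1⟩
  · exact ⟨f, h, fun P hP => (key P hP).2⟩

/-- the divisor of `f` is `N • D` -/
def KD (N : ℕ) (f : K) (D : Dv κ K) : Prop := f ≠ 0 ∧ dv κ f = N • D

variable {N : ℕ} {c c' c'' : Pic κ K}

theorem KD.kum (h : KD N f D) : Kum N f (cl D) := ⟨h.1, D, h.2, rfl⟩

theorem KD.dg_eq (hN : N ≠ 0) (h : KD N f D) : dg D = 0 := by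
  have := dg_dv (K := κ) f
  rw [h.2, ← natCast_zsmul, dg_smul] at this
  exact (mul_eq_zero.1 this).resolve_left (Nat.cast_ne_zero.2 hN)

theorem KD.off (h : KD N f D) (hd : Dj D E) : Off E f := by
  refine ⟨h.1, fun P hP => ?_⟩
  rw [← dv_apply h.1, h.2]
  simp [(hd P).resolve_right hP]

theorem KD.smul (h : KD N f D) (σ : SA κ K) : KD N (sl σ f) (σ • D) := by
  exact ⟨(map_ne_zero _).2 h.1, by rw [dv_sl, h.2, dv_smul_nsmul]⟩

theorem exists_kumD (h : N • c = 0) {S : Set (Place κ K)} (hS : S.Finite) :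
    ∃ (f : K) (D : Dv κ K), KD N f D ∧ cl D = c ∧ ∀ P ∈ S, D P = 0 := by
  obtain ⟨u, hu, D, h1, rfl⟩ := exists_kum h
  obtain ⟨g, hg, h2⟩ := exists_move D hS
  refine ⟨u / g ^ N, D - dv κ g, ⟨div_ne_zero hu (pow_ne_zero N hg), ?_⟩, ?_, fun P hP => ?_⟩
  · rw [dv_div hu (pow_ne_zero N hg), dv_pow hg, h1, smul_sub]
  · rw [map_sub, cl_dv, sub_zero]
  · rw [Finsupp.sub_apply, dv_apply hg, h2 P hP, sub_self]

/-- the Weil pairing -/
noncomputable def we (N : ℕ) (c c' : Pic κ K) : κ :=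
  Classical.epsilon fun z => ∃ (f g : K) (D E : Dv κ K), KD N f D ∧ KD N g E ∧ cl D = c ∧
    cl E = c' ∧ Dj D E ∧ z = evD E f / evD D g

theorem Ev_left {f' : K} (hN : N ≠ 0) (h : KD N f D) (h₁ : KD N f' D') (e : cl D' = cl D)
    (h' : KD N g E) (hd : Dj D E) (hd' : Dj D' E) :
    evD E f' / evD D' g = evD E f / evD D g := by
  obtain ⟨a, ha, rfl⟩ := cl_eq_iff.1 e
  have h0 := mul_ne_zero h.1 (pow_ne_zero N ha)
  obtain ⟨c, hc, h2⟩ := const_of_dv (𝕜 := κ) (div_ne_zero h₁.1 h0)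
    (by rw [dv_div h₁.1 h0, dv_mul h.1 (pow_ne_zero N ha), dv_pow ha, h₁.2, h.2, smul_add, sub_self])
  have h3 : Off E a := ⟨ha, fun P hP => by
    have := (hd' P).resolve_right hP
    rwa [Finsupp.add_apply, (hd P).resolve_right hP, zero_add, dv_apply ha] at this⟩
  have h4 : Off (dv κ g) a := h'.2 ▸ h3.nsmul N
  have h5 := h4.symm h'.1
  rw [(div_eq_iff h0).1 h2, evD_mul (off_const E hc) ((h.off hd).mul (h3.pow N)), evD_const E hc,
    h'.dg_eq hN, zpow_zero, one_mul, evD_mul (h.off hd) (h3.pow N), evD_pow h3, ← evD_nsmul,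
    ← h'.2, recip h'.1 h4, evD_add (h'.off hd.symm) h5, mul_div_mul_right _ _ h5.evD_ne]

theorem Ev_right {g' : K} (hN : N ≠ 0) (h : KD N f D) (h' : KD N g E) (h₁ : KD N g' E')
    (e : cl E' = cl E) (hd : Dj D E) (hd' : Dj D E') :
    evD E' f / evD D g' = evD E f / evD D g := by
  rw [← inv_div, Ev_left hN h' h₁ e h hd.symm hd'.symm, inv_div]

theorem Ev_ex (h : N • c = 0) (E E' : Dv κ K) :
    ∃ (f : K) (D : Dv κ K), KD N f D ∧ cl D = c ∧ Dj D E ∧ Dj D E' := by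
  obtain ⟨f, D, h1, h2, h3⟩ := exists_kumD h (E.support.finite_toSet.union E'.support.finite_toSet)
  exact ⟨f, D, h1, h2,
    fun P => or_iff_not_imp_right.2 fun k => h3 P (.inl (Finsupp.mem_support_iff.2 k)),
    fun P => or_iff_not_imp_right.2 fun k => h3 P (.inr (Finsupp.mem_support_iff.2 k))⟩

omit [IsAlgClosed κ] [Fact (IsFF κ K)] in
theorem Dj.Ev_add (h : Dj D E) (h' : Dj D' E) : Dj (D + D') E := fun P =>
  or_iff_not_imp_right.2 fun k => by
    rw [Finsupp.add_apply, (h P).resolve_right k, (h' P).resolve_right k, add_zero]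

theorem KD.Ev_mul (h : KD N f D) (h' : KD N g E) : KD N (f * g) (D + E) :=
  ⟨mul_ne_zero h.1 h'.1, by rw [dv_mul h.1 h'.1, h.2, h'.2, smul_add]⟩

theorem we_eq (hN : N ≠ 0) (h : KD N f D) (h' : KD N g E) (hd : Dj D E) :
    we N (cl D) (cl E) = evD E f / evD D g := by
  obtain ⟨f₁, g₁, D₁, E₁, k1, k2, k3, k4, k5, k6⟩ := Classical.epsilon_spec
    (p := fun z => ∃ (f g : K) (D₁ E₁ : Dv κ K), KD N f D₁ ∧ KD N g E₁ ∧ cl D₁ = cl D ∧
      cl E₁ = cl E ∧ Dj D₁ E₁ ∧ z = evD E₁ f / evD D₁ g) ⟨_, f, g, D, E, h, h', rfl, rfl, hd, rfl⟩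
  obtain ⟨g₂, E₂, l1, l2, l3, l4⟩ := Ev_ex h'.kum.tors D D₁
  rw [we, k6, Ev_right hN k1 l1 k2 (k4.trans l2.symm) l4.symm k5,
    Ev_left hN h k1 k3 l1 l3.symm l4.symm, Ev_right hN h h' l1 l2 hd l3.symm]

theorem we_add_left (hN : N ≠ 0) (h : N • c = 0) (h' : N • c' = 0) (h'' : N • c'' = 0) :
    we N (c + c') c'' = we N c c'' * we N c' c'' := by
  obtain ⟨g, E, k, rfl, -⟩ := Ev_ex h'' 0 0
  obtain ⟨f, D, k1, rfl, d1, -⟩ := Ev_ex h E E
  obtain ⟨f', D', k2, rfl, d2, -⟩ := Ev_ex h' E E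
  rw [← map_add, we_eq hN (k1.Ev_mul k2) k (d1.Ev_add d2), we_eq hN k1 k d1, we_eq hN k2 k d2,
    evD_mul (k1.off d1) (k2.off d2), evD_add (k.off d1.symm) (k.off d2.symm), mul_div_mul_comm]

theorem we_add_right (hN : N ≠ 0) (h : N • c = 0) (h' : N • c' = 0) (h'' : N • c'' = 0) :
    we N c (c' + c'') = we N c c' * we N c c'' := by
  obtain ⟨g, E, k, rfl, -⟩ := Ev_ex h 0 0
  obtain ⟨f, D, k1, rfl, d1, -⟩ := Ev_ex h' E E
  obtain ⟨f', D', k2, rfl, d2, -⟩ := Ev_ex h'' E E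
  rw [← map_add, we_eq hN k (k1.Ev_mul k2) (d1.Ev_add d2).symm, we_eq hN k k1 d1.symm,
    we_eq hN k k2 d2.symm, evD_mul (k1.off d1) (k2.off d2),
    evD_add (k.off d1.symm) (k.off d2.symm), mul_div_mul_comm]

theorem we_pow (hN : N ≠ 0) (h : N • c = 0) (h' : N • c' = 0) : we N c c' ^ N = 1 := by
  obtain ⟨g, E, k, rfl, -⟩ := Ev_ex h' 0 0
  obtain ⟨f, D, k1, rfl, d1, -⟩ := Ev_ex h E E
  have h1 : Off (dv κ g) f := k.2 ▸ (k1.off d1).nsmul N
  rw [we_eq hN k1 k d1, div_pow, ← evD_nsmul, ← evD_nsmul, ← k.2, ← k1.2, recip k.1 h1,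
    div_self (h1.symm k.1).evD_ne]

theorem we_pa (hN : N ≠ 0) (σ : SA κ K) (h : N • c = 0) (h' : N • c' = 0) :
    we N (pa σ c) (pa σ c') = sc σ (we N c c') := by
  obtain ⟨g, E, k, rfl, -⟩ := Ev_ex h' 0 0
  obtain ⟨f, D, k1, rfl, d1, -⟩ := Ev_ex h E E
  rw [pa_cl, pa_cl, we_eq hN (k1.smul σ) (k.smul σ) fun P => by
    rw [dv_smul_apply, dv_smul_apply]; exact d1 _, we_eq hN k1 k d1, evD_smul (k1.off d1),
    evD_smul (k.off d1.symm), map_div₀]

omit [IsAlgClosed κ] in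
/-- the discrete logarithm -/
noncomputable def lg (ζ : κ) (N : ℕ) (z : κ) : ZMod N :=
  Classical.epsilon fun i : ZMod N => ζ ^ i.val = z

omit [IsAlgClosed κ] in
theorem lg_spec {ζ z : κ} (hN : N ≠ 0) (hζ : IsPrimitiveRoot ζ N) (hz : z ^ N = 1) :
    ζ ^ (lg ζ N z).val = z := by
  have := NeZero.mk hN
  obtain ⟨i, hi, e⟩ := hζ.eq_pow_of_pow_eq_one hz
  exact Classical.epsilon_spec (p := fun i : ZMod N => ζ ^ i.val = z)
    ⟨i, by rw [ZMod.val_cast_of_lt hi, e]⟩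

omit [IsAlgClosed κ] in
theorem pow_val_inj {ζ : κ} (hN : N ≠ 0) (hζ : IsPrimitiveRoot ζ N) {i j : ZMod N}
    (h : ζ ^ i.val = ζ ^ j.val) : i = j := by
  have := NeZero.mk hN
  exact ZMod.val_injective N (hζ.pow_inj (ZMod.val_lt i) (ZMod.val_lt j) h)

omit [IsAlgClosed κ] in
theorem pow_val_add {ζ : κ} (hN : N ≠ 0) (hζ : ζ ^ N = 1) (i j : ZMod N) :
    ζ ^ (i + j).val = ζ ^ i.val * ζ ^ j.val := by
  have := NeZero.mk hN
  rw [ZMod.val_add, ← pow_eq_pow_mod _ hζ, pow_add]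

omit [IsAlgClosed κ] in
theorem pow_val_mul {ζ : κ} (hN : N ≠ 0) (hζ : ζ ^ N = 1) (n : ℕ) (i : ZMod N) :
    ζ ^ ((n : ZMod N) * i).val = (ζ ^ i.val) ^ n := by
  rw [ZMod.val_mul, ← pow_eq_pow_mod _ hζ, ZMod.val_natCast, pow_mul, ← pow_eq_pow_mod _ hζ,
    ← pow_mul, pow_mul']

omit [IsAlgClosed κ] in
theorem pow_val_int {ζ : κ} (hN : N ≠ 0) (hζ : ζ ^ N = 1) (n : ℤ) :
    ζ ^ (n : ZMod N).val = ζ ^ n := by
  have := NeZero.mk hN
  have h0 : ζ ≠ 0 := fun e => by simp [e, hN] at hζ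
  conv_rhs => rw [← Int.emod_add_mul_ediv n N, zpow_add₀ h0, zpow_mul, zpow_natCast, hζ, one_zpow,
    mul_one, ← ZMod.val_intCast, zpow_natCast]

omit [IsAlgClosed κ] in
theorem lg_pow_val {ζ : κ} (hN : N ≠ 0) (hζ : IsPrimitiveRoot ζ N) (i : ZMod N) :
    lg ζ N (ζ ^ i.val) = i := by
  exact pow_val_inj hN hζ (lg_spec hN hζ (by rw [← pow_mul, pow_mul', hζ.pow_eq_one, one_pow]))

omit [IsAlgClosed κ] in
theorem lg_mul {ζ z z' : κ} (hN : N ≠ 0) (hζ : IsPrimitiveRoot ζ N) (hz : z ^ N = 1)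
    (hz' : z' ^ N = 1) : lg ζ N (z * z') = lg ζ N z + lg ζ N z' := by
  refine pow_val_inj hN hζ ?_
  rw [lg_spec hN hζ (by rw [mul_pow, hz, hz', mul_one]), pow_val_add hN hζ.pow_eq_one,
    lg_spec hN hζ hz, lg_spec hN hζ hz']

omit [IsAlgClosed κ] in
theorem lg_pow {ζ z : κ} (hN : N ≠ 0) (hζ : IsPrimitiveRoot ζ N) (hz : z ^ N = 1) (n : ℕ) :
    lg ζ N (z ^ n) = n * lg ζ N z := by
  refine pow_val_inj hN hζ ?_
  rw [lg_spec hN hζ (by rw [← pow_mul, pow_mul', hz, one_pow]), pow_val_mul hN hζ.pow_eq_one,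
    lg_spec hN hζ hz]

end Pool.Agent.Lef
end

-- merged part: Pool.Agent.Work.MP_60d5ce_nt.Lb.Kum
section
/-!
# Kummer characters of torsion classes  (task LB Kum)

`Ω` is an algebraic closure of `K`.
* `fixed_pow`: all roots of `minpoly M a` in `Ω` are conjugate to `a` over `M` (`minpoly.exists_algEquiv_of_root`, `Ω` is normal over `M`), so `a` is the only root,
  `natSepDegree = 1`, `minpoly.natSepDegree_eq_one_iff_pow_mem`.
* `kc_spec`: two Kummer functions differ by an `N`-th power (`Kum.eq_iff`), two roots by a power of `ζ` (`IsPrimitiveRoot.eq_pow_of_pow_eq_one` in `Ω`).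
* `kc_inj`: `β ^ p ^ s` and `β ^ N` lie in `K` and `N` is prime to the exponential characteristic `p = ringExpChar K`.
* `kc_dual`: the image of `σ ↦ (kc σ (e (single j 1))) j` is a subgroup `S` of `Fin r → ZMod N`.  If it is proper there is a nonzero homomorphism from the quotient to `ZMod N`
  (for instance: a nontrivial character of the finite abelian group with values in `κˣ`, `CommGroup.exists_apply_ne_one_of_hasEnoughRootsOfUnity`, composed with `lg`);
  it is `y ↦ ∑ x j * y j`, and `kc σ (e x) = 0` for all `σ`.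
* `exists_kf`: adjoin one root for each of the finitely many classes.  Galois: `IsGalois` is `IsSeparable` (roots of `X ^ N - C f`) and `Normal` (every `σ` maps the
  generators into the field; `IntermediateField.normal_iff_forall_map_le'`).  Unramified: `ee_of_free`; if `σ` fixes `x` then
  `β / u ^ m` (`u` the uniformiser of `res x`, `N * m` the order of `f`) is a unit at `x` that is multiplied by a root of unity (`val_smul`).
-/

namespace Pool.Agent.Lef

open PR0 Pool.Agent.Ell.AT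

variable {κ K Ω : Type} [Field κ] [Field K] [Field Ω] [Algebra κ K] [Algebra K Ω]

theorem Kum_lin {ι : Type} [Fintype ι] [DecidableEq ι] {N : ℕ} (hN : N ≠ 0)
    (ψ : (ι → ZMod N) →+ ZMod N) (x : ι → ZMod N) : ψ x = ∑ i, x i * ψ (Pi.single i 1) := by
  have := NeZero.mk hN
  conv_lhs => rw [← Finset.univ_sum_single x, map_sum]
  refine Finset.sum_congr rfl fun i _ => ?_
  have e : (Pi.single i (x i) : ι → ZMod N) = (x i).val • Pi.single i 1 := by
    rw [← Pi.single_smul, nsmul_eq_mul, mul_one, ZMod.natCast_zmod_val]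
  rw [e, map_nsmul, nsmul_eq_mul, ZMod.natCast_zmod_val]

theorem Kum_tors {ι A : Type} [AddCommGroup A] {N : ℕ} (e : (ι → ZMod N) →+ A) (x : ι → ZMod N) :
    N • e x = 0 := by
  rw [← map_nsmul, show N • x = 0 from funext fun i => by
    rw [Pi.smul_apply, nsmul_eq_mul, ZMod.natCast_self, zero_mul, Pi.zero_apply], map_zero]

theorem fixed_pow [IsAlgClosed Ω] [Algebra.IsAlgebraic K Ω] (p : ℕ) [ExpChar K p]
    (M : IntermediateField K Ω) {a : Ω}
    (h : ∀ σ : Ω ≃ₐ[K] Ω, (∀ b ∈ M, σ b = b) → σ a = a) : ∃ s : ℕ, a ^ p ^ s ∈ M := by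
  classical
  have : Algebra.IsAlgebraic M Ω := Algebra.IsAlgebraic.tower_top (K := K) M
  have : IsAlgClosure M Ω := ⟨inferInstance, inferInstance⟩
  have : ExpChar M p := expChar_of_injective_algebraMap (algebraMap K M).injective p
  have ha : IsAlgebraic M a := Algebra.IsAlgebraic.isAlgebraic a
  have h1 : (minpoly M a).natSepDegree = 1 := by
    rw [Polynomial.natSepDegree_eq_of_isAlgClosed Ω, Finset.card_eq_one]
    refine ⟨a, Finset.eq_singleton_iff_unique_mem.2 ⟨Multiset.mem_toFinset.2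
      (Polynomial.mem_aroots.2 ⟨minpoly.ne_zero ha.isIntegral, minpoly.aeval M a⟩), fun x hx => ?_⟩⟩
    obtain ⟨τ, rfl⟩ := minpoly.exists_algEquiv_of_root' ha
      (Polynomial.mem_aroots.1 (Multiset.mem_toFinset.1 hx)).2
    exact h (τ.restrictScalars K) fun b hb => τ.commutes ⟨b, hb⟩
  obtain ⟨n, b, hb⟩ := (minpoly.natSepDegree_eq_one_iff_pow_mem p).1 h1
  exact ⟨n, hb ▸ b.2⟩

variable [Algebra κ Ω] [IsScalarTower κ K Ω] [IsAlgClosed κ] [Fact (IsFF κ K)]

/-- the Kummer character -/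
noncomputable def kc (ζ : κ) (N : ℕ) (σ : Ω ≃ₐ[K] Ω) (c : Pic κ K) : ZMod N :=
  Classical.epsilon fun i : ZMod N => ∀ (f : K) (β : Ω), Kum N f c → β ^ N = algebraMap K Ω f →
    σ β = algebraMap κ Ω (ζ ^ i.val) * β

/-- the field generated by the roots of all Kummer functions -/
structure IsKF [Algebra.IsAlgebraic K Ω] (ζ : κ) (N : ℕ) (L : IntermediateField K Ω) : Prop where
  fix : ∀ σ : Ω ≃ₐ[K] Ω, (∀ a ∈ L, σ a = a) ↔ ∀ c : Pic κ K, N • c = 0 → kc ζ N σ c = 0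
  root : ∀ (c : Pic κ K) (f : K) (β : Ω), Kum N f c → β ^ N = algebraMap K Ω f → β ∈ L
  unr : ∀ x : Place κ L, ee K x = 1

variable [IsAlgClosed Ω] {ζ : κ} {N : ℕ} (hN : N ≠ 0) (hζ : IsPrimitiveRoot ζ N)
  {σ σ' : Ω ≃ₐ[K] Ω} {c c' : Pic κ K} {f : K} {β : Ω}

include hN hζ

omit [Algebra κ Ω] [IsScalarTower κ K Ω] [IsAlgClosed Ω] hζ in
theorem Kum_ne (hf : Kum N f c) (hβ : β ^ N = algebraMap K Ω f) : β ≠ 0 := fun h =>
  (map_ne_zero (algebraMap K Ω)).2 hf.1 (by rw [← hβ, h, zero_pow hN])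

omit [IsAlgClosed κ] [IsAlgClosed Ω] in
theorem Kum_root {ξ : Ω} (h : ξ ^ N = 1) : ∃ i : ZMod N, ξ = algebraMap κ Ω (ζ ^ i.val) := by
  have := NeZero.mk hN
  obtain ⟨i, hi, e⟩ := (hζ.map_of_injective (algebraMap κ Ω).injective).eq_pow_of_pow_eq_one h
  exact ⟨i, by rw [ZMod.val_cast_of_lt hi, map_pow, e]⟩

omit [IsAlgClosed Ω] in
theorem Kum_rel (hf : Kum N f c) (hβ : β ^ N = algebraMap K Ω f) {f' : K} {β' : Ω}
    (hf' : Kum N f' c) (hβ' : β' ^ N = algebraMap K Ω f') :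
    ∃ b : K, β' = algebraMap K Ω b * β := by
  obtain ⟨b, hb, rfl⟩ := (Kum.eq_iff hN hf' hf).1 rfl
  have h0 := mul_ne_zero ((map_ne_zero (algebraMap K Ω)).2 hb) (Kum_ne hN hf hβ)
  obtain ⟨i, hi⟩ := Kum_root hN hζ (ξ := β' / (algebraMap K Ω b * β)) (by
    rw [div_pow, hβ', mul_pow, hβ, ← map_pow, ← map_mul, mul_comm,
      div_self ((map_ne_zero _).2 (mul_ne_zero (pow_ne_zero _ hb) hf.1))])
  refine ⟨algebraMap κ K (ζ ^ i.val) * b, ?_⟩
  rw [map_mul, ← IsScalarTower.algebraMap_apply, ← hi, mul_assoc, div_mul_cancel₀ _ h0]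

omit [Algebra κ Ω] [IsScalarTower κ K Ω] hζ in
variable (Ω) in
theorem Kum_ex (h : N • c = 0) : ∃ (f : K) (β : Ω), Kum N f c ∧ β ^ N = algebraMap K Ω f := by
  obtain ⟨f, hf⟩ := exists_kum h
  obtain ⟨β, hβ⟩ := IsAlgClosed.exists_pow_nat_eq (algebraMap K Ω f) (Nat.pos_of_ne_zero hN)
  exact ⟨f, β, hf, hβ⟩

theorem kc_spec (σ : Ω ≃ₐ[K] Ω) (hf : Kum N f c) (hβ : β ^ N = algebraMap K Ω f) :
    σ β = algebraMap κ Ω (ζ ^ (kc ζ N σ c).val) * β := by
  have h0 := Kum_ne hN hf hβ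
  obtain ⟨i, hi⟩ := Kum_root hN hζ (ξ := σ β / β) (by
    rw [div_pow, ← map_pow, hβ, σ.commutes, div_self ((map_ne_zero _).2 hf.1)])
  refine Classical.epsilon_spec (p := fun i : ZMod N => ∀ (f : K) (β : Ω), Kum N f c →
    β ^ N = algebraMap K Ω f → σ β = algebraMap κ Ω (ζ ^ i.val) * β)
    ⟨i, fun f' β' hf' hβ' => ?_⟩ f β hf hβ
  obtain ⟨b, rfl⟩ := Kum_rel hN hζ hf hβ hf' hβ'
  rw [map_mul, σ.commutes, ← hi, mul_left_comm, div_mul_cancel₀ _ h0]

theorem kc_eq (hf : Kum N f c) (hβ : β ^ N = algebraMap K Ω f) {i : ZMod N}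
    (h : σ β = algebraMap κ Ω (ζ ^ i.val) * β) : kc ζ N σ c = i := by
  exact pow_val_inj hN hζ ((algebraMap κ Ω).injective
    (mul_right_cancel₀ (Kum_ne hN hf hβ) ((kc_spec hN hζ σ hf hβ).symm.trans h)))

theorem kc_add (σ : Ω ≃ₐ[K] Ω) (h : N • c = 0) (h' : N • c' = 0) :
    kc ζ N σ (c + c') = kc ζ N σ c + kc ζ N σ c' := by
  obtain ⟨f, β, hf, hβ⟩ := Kum_ex Ω hN h
  obtain ⟨f', β', hf', hβ'⟩ := Kum_ex Ω hN h'
  refine kc_eq hN hζ (hf.mul hf') (β := β * β') (by rw [mul_pow, hβ, hβ', map_mul]) ?_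
  rw [map_mul, kc_spec hN hζ σ hf hβ, kc_spec hN hζ σ hf' hβ', pow_val_add hN hζ.pow_eq_one,
    map_mul]
  ring

theorem kc_mul (σ σ' : Ω ≃ₐ[K] Ω) (h : N • c = 0) :
    kc ζ N (σ * σ') c = kc ζ N σ c + kc ζ N σ' c := by
  obtain ⟨f, β, hf, hβ⟩ := Kum_ex Ω hN h
  refine kc_eq hN hζ hf hβ ?_
  rw [AlgEquiv.mul_apply, kc_spec hN hζ σ' hf hβ, map_mul, kc_spec hN hζ σ hf hβ,
    pow_val_add hN hζ.pow_eq_one, map_mul, IsScalarTower.algebraMap_apply κ K Ω, σ.commutes]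
  ring

theorem kc_one (h : N • c = 0) : kc ζ N (1 : Ω ≃ₐ[K] Ω) c = 0 := by
  obtain ⟨f, β, hf, hβ⟩ := Kum_ex Ω hN h
  exact kc_eq hN hζ hf hβ (by rw [ZMod.val_zero, pow_zero, map_one, one_mul, AlgEquiv.one_apply])

theorem kc_inv (σ : Ω ≃ₐ[K] Ω) (h : N • c = 0) : kc ζ N σ⁻¹ c = -kc ζ N σ c := by
  refine eq_neg_of_add_eq_zero_left ?_
  rw [← kc_mul hN hζ _ _ h, inv_mul_cancel, kc_one hN hζ h]

theorem kc_pow (σ : Ω ≃ₐ[K] Ω) (h : N • c = 0) (n : ℕ) : kc ζ N (σ ^ n) c = n * kc ζ N σ c := by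
  induction n with
  | zero => rw [pow_zero, kc_one hN hζ h, Nat.cast_zero, zero_mul]
  | succ n ih => rw [pow_succ, kc_mul hN hζ _ _ h, ih, Nat.cast_succ, add_mul, one_mul]

theorem kc_zero (σ : Ω ≃ₐ[K] Ω) : kc ζ N σ (0 : Pic κ K) = 0 := by
  have := kc_add hN hζ σ (c := (0 : Pic κ K)) (c' := 0) (smul_zero N) (smul_zero N)
  rw [add_zero] at this
  exact left_eq_add.1 this

theorem kc_basis {ι : Type} [Fintype ι] [DecidableEq ι] (σ : Ω ≃ₐ[K] Ω)
    (e : (ι → ZMod N) →+ Pic κ K) (x : ι → ZMod N) :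
    kc ζ N σ (e x) = ∑ i, x i * kc ζ N σ (e (Pi.single i 1)) := by
  exact Kum_lin hN (AddMonoidHom.mk' (fun x => kc ζ N σ (e x)) fun a b => by
    rw [map_add, kc_add hN hζ σ (Kum_tors e a) (Kum_tors e b)]) x

variable [Algebra.IsAlgebraic K Ω]

omit [IsAlgClosed κ] [Fact (IsFF κ K)] in
variable (K) in
theorem Kum_cast : (N : K) ≠ 0 := by
  have := NeZero.mk hN
  rw [← map_natCast (algebraMap κ K)]
  exact (map_ne_zero _).2 hζ.neZero'.out

theorem kc_inj (h : N • c = 0) (h0 : ∀ σ : Ω ≃ₐ[K] Ω, kc ζ N σ c = 0) : c = 0 := by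
  obtain ⟨f, β, hf, hβ⟩ := Kum_ex Ω hN h
  obtain ⟨s, hs⟩ := fixed_pow (ringExpChar K) (⊥ : IntermediateField K Ω) (a := β) fun σ _ => by
    rw [kc_spec hN hζ σ hf hβ, h0, ZMod.val_zero, pow_zero, map_one, one_mul]
  have h1 : (ringExpChar K ^ s).Coprime N := by
    refine Nat.Coprime.pow_left s ?_
    generalize hp : ringExpChar K = p
    have : ExpChar K p := hp ▸ inferInstance
    cases this with
    | zero => exact Nat.coprime_one_left N
    | prime hq =>
      exact (Nat.Prime.coprime_iff_not_dvd hq).2 fun k =>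
        Kum_cast K hN hζ ((CharP.cast_eq_zero_iff K p N).2 k)
  obtain ⟨a, b, hab⟩ := Nat.isCoprime_iff_coprime.2 h1
  have h2 : β ∈ (⊥ : IntermediateField K Ω) := by
    rw [← zpow_one β, ← hab, zpow_add₀ (Kum_ne hN hf hβ), zpow_mul', zpow_mul', zpow_natCast,
      zpow_natCast, hβ]
    exact mul_mem (zpow_mem hs a) (zpow_mem (IntermediateField.algebraMap_mem _ f) b)
  obtain ⟨g, rfl⟩ := IntermediateField.mem_bot.1 h2
  have h3 : g ≠ 0 := fun k => Kum_ne hN hf hβ (by rw [k, map_zero])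
  rw [← map_pow] at hβ
  obtain rfl := (algebraMap K Ω).injective hβ
  rw [hf.unique hN ⟨hf.1, dv κ g, dv_pow h3 N, rfl⟩, cl_dv]

variable (Ω) in
theorem kc_dual {ι : Type} [Fintype ι] [DecidableEq ι] (e : (ι → ZMod N) →+ Pic κ K)
    (he : Function.Injective e) : ∃ σ : ι → Ω ≃ₐ[K] Ω, ∀ i x, kc ζ N (σ i) (e x) = x i := by
  have := NeZero.mk hN
  have : HasEnoughRootsOfUnity κ N := ⟨⟨ζ, hζ⟩, inferInstance⟩
  have hp : ∀ y : Multiplicative (ι → ZMod N), y ^ N = 1 := fun y =>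
    Multiplicative.toAdd.injective (Kum_tors (AddMonoidHom.id _) y.toAdd)
  have : HasEnoughRootsOfUnity κ (Monoid.exponent (Multiplicative (ι → ZMod N))) :=
    HasEnoughRootsOfUnity.of_dvd κ (Monoid.exponent_dvd_of_forall_pow_eq_one hp)
  let Φ : (Ω ≃ₐ[K] Ω) →* Multiplicative (ι → ZMod N) := MonoidHom.mk'
    (fun σ => Multiplicative.ofAdd fun j => kc ζ N σ (e (Pi.single j 1))) fun σ σ' =>
      congrArg Multiplicative.ofAdd (funext fun j => kc_mul hN hζ σ σ' (Kum_tors e _))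
  have key : ∀ y, y ∈ Φ.range := fun y =>
    (CommGroup.forall_monoidHom_apply_eq_one_iff κ Φ.range y).1 fun φ hφ => by
      have h1 : ∀ z, (φ z : κ) ^ N = 1 := fun z => by
        rw [← Units.val_pow_eq_pow_val, ← map_pow, hp, map_one, Units.val_one]
      let ψ : (ι → ZMod N) →+ ZMod N := AddMonoidHom.mk'
        (fun z => lg ζ N (φ (Multiplicative.ofAdd z) : κ)) fun a b => by
          rw [ofAdd_add, map_mul, Units.val_mul, lg_mul hN hζ (h1 _) (h1 _)]
      have h2 : e (fun j => ψ (Pi.single j 1)) = 0 := kc_inj (Ω := Ω) hN hζ (Kum_tors e _) fun σ => by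
        have h3 := Kum_lin hN ψ (Φ σ).toAdd
        have h4 : ψ (Φ σ).toAdd = 0 := by
          have h5 := lg_pow_val hN hζ 0
          rw [ZMod.val_zero, pow_zero] at h5
          change lg ζ N (φ (Φ σ) : κ) = 0
          rw [hφ _ ⟨σ, rfl⟩, Units.val_one, h5]
        rw [kc_basis hN hζ, ← h4, h3]
        exact Finset.sum_congr rfl fun j _ => mul_comm _ _
      have h3 := (injective_iff_map_eq_zero e).1 he _ h2
      have h4 : ψ y.toAdd = 0 := by
        rw [Kum_lin hN]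
        exact Finset.sum_eq_zero fun j _ => by rw [congrFun h3 j, Pi.zero_apply, mul_zero]
      have h5 := lg_spec hN hζ (h1 y)
      rw [show lg ζ N (φ y : κ) = 0 from h4, ZMod.val_zero, pow_zero] at h5
      exact Units.ext h5.symm
  choose σ hσ using fun i => key (Multiplicative.ofAdd (Pi.single i 1))
  refine ⟨σ, fun i x => ?_⟩
  have h1 : ∀ j, kc ζ N (σ i) (e (Pi.single j 1)) = (Pi.single i 1 : ι → ZMod N) j := fun j =>
    congrFun (congrArg Multiplicative.toAdd (hσ i)) j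
  rw [kc_basis hN hζ, Finset.sum_eq_single i (fun j _ hj => by
    rw [h1, Pi.single_eq_of_ne hj, mul_zero]) (fun k => absurd (Finset.mem_univ i) k), h1,
    Pi.single_eq_same, mul_one]

variable (Ω) in
theorem exists_kf (hfin : (tors (Pic κ K) N : Set (Pic κ K)).Finite) :
    ∃ (L : IntermediateField K Ω) (_ : FiniteDimensional K L) (_ : IsGalois K L)
      (_ : Fact (IsFF κ L)), IsKF ζ N L := by
  have : IsAlgClosure K Ω := ⟨inferInstance, inferInstance⟩
  have := hfin.to_subtype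
  choose f β hf hβ using fun c : (tors (Pic κ K) N : Set (Pic κ K)) =>
    Kum_ex Ω hN (mem_tors.1 c.2)
  have hr : ∀ (c : Pic κ K) (f' : K) (β' : Ω), Kum N f' c → β' ^ N = algebraMap K Ω f' →
      β' ∈ IntermediateField.adjoin K (Set.range β) := fun c f' β' h1 h2 => by
    obtain ⟨b, rfl⟩ := Kum_rel hN hζ (hf ⟨c, h1.tors⟩) (hβ ⟨c, h1.tors⟩) h1 h2
    exact mul_mem (IntermediateField.algebraMap_mem _ b)
      (IntermediateField.subset_adjoin _ _ ⟨_, rfl⟩)
  have hx : ∀ σ : Ω ≃ₐ[K] Ω, (∀ a ∈ IntermediateField.adjoin K (Set.range β), σ a = a) ↔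
      ∀ c : Pic κ K, N • c = 0 → kc ζ N σ c = 0 := fun σ => by
    refine ⟨fun h c hc => kc_eq hN hζ (hf ⟨c, hc⟩) (hβ ⟨c, hc⟩) ?_, fun h a ha => ?_⟩
    · rw [h _ (hr _ _ _ (hf _) (hβ _)), ZMod.val_zero, pow_zero, map_one, one_mul]
    · induction ha using IntermediateField.adjoin_induction with
      | mem x hx =>
        obtain ⟨c, rfl⟩ := hx
        rw [kc_spec hN hζ σ (hf c) (hβ c), h c c.2, ZMod.val_zero, pow_zero, map_one, one_mul]
      | algebraMap x => exact σ.commutes x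
      | add x y _ _ h1 h2 => rw [map_add, h1, h2]
      | inv x _ h1 => rw [map_inv₀, h1]
      | mul x y _ _ h1 h2 => rw [map_mul, h1, h2]
  have h1 : FiniteDimensional K (IntermediateField.adjoin K (Set.range β)) :=
    IntermediateField.finiteDimensional_adjoin fun x _ =>
      (Algebra.IsAlgebraic.isAlgebraic x).isIntegral
  have h2 : Algebra.IsSeparable K (IntermediateField.adjoin K (Set.range β)) :=
    (IntermediateField.isSeparable_adjoin_iff_isSeparable K Ω).2 (by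
      rintro _ ⟨c, rfl⟩
      refine (Polynomial.separable_X_pow_sub_C (f c) (Kum_cast K hN hζ) (hf c).1).of_dvd
        (minpoly.dvd K _ ?_)
      rw [map_sub, map_pow, Polynomial.aeval_X, Polynomial.aeval_C, hβ, sub_self])
  have h3 : Normal K (IntermediateField.adjoin K (Set.range β)) :=
    IntermediateField.normal_iff_forall_map_le'.2 fun σ => by
      rw [IntermediateField.adjoin_map, IntermediateField.adjoin_le_iff]
      rintro _ ⟨_, ⟨c, rfl⟩, rfl⟩
      refine hr _ _ _ (hf c) ?_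
      rw [← map_pow, hβ, AlgHom.commutes]
  generalize IntermediateField.adjoin K (Set.range β) = L at hr hx h1 h2 h3
  have h4 : IsGalois K L := {}
  have h5 : Fact (IsFF κ L) := ⟨isFF_of_finite (K := K) Fact.out⟩
  refine ⟨L, h1, h4, h5, hx, hr, fun x => ee_of_free fun τ hτ => ?_⟩
  have h6 : ∀ a : L, τ.liftNormal Ω a = τ a := τ.liftNormal_commutes Ω
  refine AlgEquiv.ext fun a => Subtype.ext ((h6 a).symm.trans ((hx _).2 (fun c hc => ?_) a a.2))
  obtain ⟨g, γ, hg, hγ⟩ := Kum_ex Ω hN hc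
  have h7 := kc_spec hN hζ (τ.liftNormal Ω) hg hγ
  generalize kc ζ N (τ.liftNormal Ω) c = i at h7 ⊢
  lift γ to L using hr c g γ hg hγ
  have h8 : τ γ = algebraMap κ L (ζ ^ i.val) * γ := Subtype.ext ((h6 γ).symm.trans h7)
  have h9 : γ ^ N = algebraMap K L g := Subtype.ext hγ
  have hγ0 : γ ≠ 0 := Kum_ne hN hg h9
  obtain ⟨hg0, D, hD, -⟩ := hg
  have k1 : (res K x).unif ^ D (res K x) ≠ 0 := zpow_ne_zero _ (res K x).unif_ne_zero
  have k2 := ord_res x k1
  have k3 := ord_res x hg0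
  rw [rr_ge_unif] at k2
  rw [← h9, x.ord_pow hγ0, ← dv_apply hg0, hD, Finsupp.smul_apply, nsmul_eq_mul, mul_left_comm,
    ← k2] at k3
  have k4 : algebraMap K L ((res K x).unif ^ D (res K x)) ≠ 0 := (map_ne_zero _).2 k1
  generalize (res K x).unif ^ D (res K x) = w at k3 k4
  have := Ev_odd
  obtain ⟨k5, k6⟩ := val_ne (P := x) (mul_ne_zero hγ0 (inv_ne_zero k4)) (by
    rw [x.ord_mul hγ0 (inv_ne_zero k4), x.ord_inv k4,
      mul_left_cancel₀ (Nat.cast_ne_zero.2 hN) k3, add_neg_cancel])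
  have k7 := val_smul (toSA κ τ) x k5
  rw [hτ, sl_toSA, sc_toSA, map_mul, map_inv₀, τ.commutes, h8, mul_assoc,
    Place.val_mul (x.2.2 _) k5, Place.val_const] at k7
  refine pow_val_inj hN hζ ?_
  rw [ZMod.val_zero, pow_zero]
  exact mul_right_cancel₀ k6 (k7.trans (one_mul _).symm)

end Pool.Agent.Lef
end
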