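import Pool.Agent.Work.MP_da2620_ag.BC
import Pool.Agent.Work.MP_60d5ce_nt.Lb.Kum
import Pool.Agent.Work.MP_60d5ce_nt.Lb.Chev
import Pool.Agent.Work.MP_60d5ce_nt.Lb.FormA
import Pool.Agent.Work.MP_da2620_ag.Arc

-- merged part: Pool.Agent.Work.MP_60d5ce_nt.Lb.Cn
section
/-!
# Constant field extensions: constant places, conorm, extension of automorphisms  (task LB Cn)

* `dv_psi`: `BC_ord_eq` at the places `up P`; at the other places `ψ f` and `ψ f⁻¹` are regular (`over_or`).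
* `prin_of_cn`: if `cn D = dv a` then `a⁻¹ ∈ Lsp (cn D)`, so by `BC.mem_Lsp` some nonzero `f` lies in `Lsp D`; `dv f + D ≥ 0` has degree zero.
* `exists_sa`: let `L₂` be a copy of `K'` (a type synonym) with the `κ'`-algebra structure `algebraMap ∘ σ₀`; it is a function field
  (the constants have the same image) and `BC φ (ψ ∘ sl γ)` holds for it; `BC.unique`.
* `sa_ext`: `BC_ind` for the subfield where the two automorphisms agree, `sa_eq`.
* `exists_fin`: `BC_frac`, `BC_repr`; `T` is the set of the coefficients.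
* `canon`: take `D` in the class and `r` minimal with `Lsp (D + r • o) ≠ ⊥` (`riemann`).  If `f`, `f'` are nonzero elements, then for `r = 0`
  both effective divisors have degree zero; otherwise both have the maximal pole order at `o` and some `f - c • f'` lies in
  `Lsp (D + (r - 1) • o) = ⊥`.
-/

namespace Pool.Agent.Lef

open PR0 Pool.Agent.Ell.AT

variable {κ K κ' K' : Type} [Field κ] [Field K] [Algebra κ K] [Field κ'] [Field K'] [Algebra κ' K']

/-- a copy of `K'` on which the constants act through `σ₀` -/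
def CnTw (_σ₀ : κ' ≃+* κ') (K' : Type) : Type := K'

instance (σ₀ : κ' ≃+* κ') : Field (CnTw σ₀ K') := inferInstanceAs (Field K')

instance (σ₀ : κ' ≃+* κ') : Algebra κ' (CnTw σ₀ K') :=
  RingHom.toAlgebra (S := CnTw σ₀ K') ((algebraMap κ' K').comp (σ₀ : κ' →+* κ'))

theorem Cn_ff (σ₀ : κ' ≃+* κ') (K' : Type) [Field K'] [Algebra κ' K'] [hL : Fact (IsFF κ' K')] :
    Fact (IsFF κ' (CnTw σ₀ K')) := by
  obtain ⟨x, hx, hf⟩ := hL.out
  have h : BC (L := K') (L' := CnTw σ₀ K') (σ₀.symm : κ' →+* κ') (RingHom.id K') :=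
    ⟨fun c => (congrArg (algebraMap κ' K') (σ₀.apply_symm_apply c)).symm,
      fun f => Subfield.subset_closure (Or.inl ⟨f, rfl⟩)⟩
  refine ⟨x, ?_, h.BC_fin x⟩
  exact Transcendental.of_ringHom_of_comp_eq (A := CnTw σ₀ K') (B := K') (σ₀ : κ' →+* κ')
    (RingHom.id K') hx σ₀.injective rfl

theorem Cn_eff [IsAlgClosed κ] [Fact (IsFF κ K)] {E : Dv κ K} (hE : 0 ≤ E) (h : dg E = 0) :
    E = 0 := by
  classical
  ext P
  have h1 : Finsupp.single P (E P) ≤ E := fun Q => by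
    rw [Finsupp.single_apply]
    split_ifs with h2
    · rw [h2]
    · exact hE Q
  have h2 := dg_mono h1
  rw [dg_single, h] at h2
  exact le_antisymm h2 (hE P)

/-- places that are trivial on `K` -/
def NC (ψ : K →+* K') (z : Place κ' K') : Prop := ∀ f, ψ f ∈ z.1

variable [IsAlgClosed κ] [IsAlgClosed κ'] [Fact (IsFF κ K)] [Fact (IsFF κ' K')]
  {φ : κ →+* κ'} {ψ : K →+* K'} (h : BC φ ψ)

/-- the constant place over `P` -/
noncomputable def up (P : Place κ K) : Place κ' K' := (h.exists_over P).exists.choose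

theorem up_over (P : Place κ K) : Over ψ P (up h P) := (h.exists_over P).exists.choose_spec

theorem eq_up {P : Place κ K} {P' : Place κ' K'} (o : Over ψ P P') : P' = up h P :=
  (h.exists_over P).unique o (up_over h P)

theorem up_inj : Function.Injective (up h) := by
  intro P Q e
  exact h.over_inj (up_over h P) (e ▸ up_over h Q)

theorem up_or (z : Place κ' K') : (∃ P, z = up h P) ∨ NC ψ z := by
  exact (h.over_or z).imp_left fun ⟨P, o⟩ => ⟨P, eq_up h o⟩

theorem NC.ne_up {z : Place κ' K'} (hz : NC ψ z) (P : Place κ K) : z ≠ up h P := by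
  rintro rfl
  exact P.2.1 (top_unique fun g _ => (up_over h P g).1 (hz g))

theorem val_up {P : Place κ K} {f : K} (hf : f ∈ P.1) : (up h P).val (ψ f) = φ (P.val f) := by
  exact h.val (up_over h P) hf

theorem ord_up (P : Place κ K) {f : K} (hf : f ≠ 0) : (up h P).ord (ψ f) = P.ord f := by
  exact h.BC_ord_eq (up_over h P) hf

omit [IsAlgClosed κ] [Fact (IsFF κ K)] in
theorem NC.ord {z : Place κ' K'} (hz : NC ψ z) {f : K} (hf : f ≠ 0) : z.ord (ψ f) = 0 := by
  have h0 : ψ f ≠ 0 := (map_ne_zero ψ).2 hf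
  have h1 := (Sa_mem z h0).1 (hz f)
  have h2 := hz f⁻¹
  rw [map_inv₀, Sa_mem z (inv_ne_zero h0), z.ord_inv h0] at h2
  omega

omit [IsAlgClosed κ] [Fact (IsFF κ K)] in
include h in
theorem NC.exists_ev {z : Place κ' K'} (hz : NC ψ z) :
    ∃ θ : K →+* κ', (∀ f, θ f = z.val (ψ f)) ∧ ∀ c, θ (algebraMap κ K c) = φ c := by
  refine ⟨⟨⟨⟨fun f => z.val (ψ f), ?_⟩, fun f g => ?_⟩, ?_, fun f g => ?_⟩, fun _ => rfl,
    fun c => ?_⟩
  · have := Place.val_const (P := z) 1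
    rwa [map_one, ← map_one ψ] at this
  · simp only [map_mul]
    exact Place.val_mul (hz f) (hz g)
  · have := Place.val_const (P := z) 0
    rwa [map_zero, ← map_zero ψ] at this
  · simp only [map_add]
    exact Place.val_add (hz f) (hz g)
  · change z.val (ψ _) = _
    rw [h.comm, Place.val_const]

include h in
theorem NC.ext {z z' : Place κ' K'} (hz : NC ψ z) (hz' : NC ψ z')
    (e : ∀ f, z.val (ψ f) = z'.val (ψ f)) : z = z' := by
  obtain ⟨θ, h1, h2⟩ := hz.exists_ev h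
  exact (h.exists_generic θ h2).unique (fun f => ⟨hz f, (h1 f).symm⟩)
    fun f => ⟨hz' f, by rw [← e, h1]⟩

/-- the conorm -/
noncomputable def cn : Dv κ K →+ Dv κ' K' := Finsupp.mapDomain.addMonoidHom (up h)

theorem cn_up (D : Dv κ K) (P : Place κ K) : cn h D (up h P) = D P := by
  exact Finsupp.mapDomain_apply (up_inj h) D P

theorem cn_nc (D : Dv κ K) {z : Place κ' K'} (hz : NC ψ z) : cn h D z = 0 := by
  exact Finsupp.mapDomain_of_notMem_range D z fun ⟨P, e⟩ => hz.ne_up h P e.symm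

theorem cn_single (P : Place κ K) (n : ℤ) :
    cn h (Finsupp.single P n) = Finsupp.single (up h P) n := by
  exact Finsupp.mapDomain_single

theorem dg_cn (D : Dv κ K) : dg (cn h D) = dg D := by
  exact Finsupp.sum_mapDomain_index (fun _ => rfl) fun _ _ _ => rfl

theorem exists_cn {D' : Dv κ' K'} (hD : ∀ z, NC ψ z → D' z = 0) : ∃ D, cn h D = D' := by
  refine ⟨Finsupp.comapDomain (up h) D' (up_inj h).injOn, Finsupp.ext fun z => ?_⟩
  rcases up_or h z with ⟨P, rfl⟩ | hz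
  · rw [cn_up, Finsupp.comapDomain_apply]
  · rw [cn_nc h _ hz, hD z hz]

theorem dv_psi (f : K) : dv κ' (ψ f) = cn h (dv κ f) := by
  by_cases hf : f = 0
  · rw [hf, map_zero, Sa_zero, Sa_zero, map_zero]
  ext z
  rw [dv_apply ((map_ne_zero ψ).2 hf)]
  rcases up_or h z with ⟨P, rfl⟩ | hz
  · rw [cn_up, dv_apply hf, ord_up h P hf]
  · rw [cn_nc h _ hz, hz.ord hf]

theorem Off.cn {D : Dv κ K} {f : K} (hf : Off D f) : Off (cn h D) (ψ f) := by
  refine ⟨(map_ne_zero ψ).2 hf.1, fun z hz => ?_⟩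
  rcases up_or h z with ⟨P, rfl⟩ | hz'
  · rw [cn_up] at hz
    rw [ord_up h P hf.1, hf.2 P hz]
  · exact hz'.ord hf.1

theorem evD_cn {D : Dv κ K} {f : K} (hf : Off D f) : evD (cn h D) (ψ f) = φ (evD D f) := by
  refine (Finsupp.prod_mapDomain_index_inj (up_inj h)).trans ?_
  rw [evD, Finsupp.prod, Finsupp.prod, map_prod]
  refine Finset.prod_congr rfl fun P hP => ?_
  rw [map_zpow₀, val_up h ((Sa_mem P hf.1).2 (hf.2 P (Finsupp.mem_support_iff.1 hP)).ge)]

theorem KD.cn {N : ℕ} {D : Dv κ K} {f : K} (hf : KD N f D) : KD N (ψ f) (cn h D) := by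
  exact ⟨(map_ne_zero ψ).2 hf.1, by rw [dv_psi h, hf.2, map_nsmul]⟩

theorem prin_of_cn {D : Dv κ K} (hD : cl (cn h D) = 0) : cl D = 0 := by
  obtain ⟨a, ha, e⟩ := cl_eq_zero.1 hD
  have h1 : a⁻¹ ∈ Lsp (cn h D) := fun z => Or.inr (by rw [z.ord_inv ha, ← e, dv_apply ha])
  rw [h.mem_Lsp (D := D) (fun P P' o => by rw [eq_up h o, cn_up]) fun z hz => cn_nc h D hz] at h1
  obtain ⟨f, hf, h0⟩ : ∃ f ∈ Lsp D, f ≠ 0 := by
    by_contra hn
    refine inv_ne_zero ha ((Submodule.mem_bot κ').1 (Submodule.span_le.2 ?_ h1))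
    rintro _ ⟨f, hf, rfl⟩
    have : f = 0 := by_contra fun k => hn ⟨f, hf, k⟩
    rw [this, map_zero]
    exact Submodule.zero_mem _
  have h2 := Cn_eff (rr_le_of_mem h0 hf) (by rw [dg_add, dg_dv, ← dg_cn h, ← e, dg_dv, add_zero])
  rw [eq_neg_of_add_eq_zero_left h2, map_neg, cl_dv, neg_zero]

theorem cl_cn_eq {D E : Dv κ K} : cl (cn h D) = cl (cn h E) ↔ cl D = cl E := by
  rw [← sub_eq_zero, ← map_sub, ← map_sub, ← sub_eq_zero (a := cl D), ← map_sub]
  refine ⟨prin_of_cn h, fun k => ?_⟩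
  obtain ⟨a, -, e⟩ := cl_eq_zero.1 k
  rw [← e, ← dv_psi, cl_dv]

include h in
theorem exists_sa (σ₀ : κ' ≃+* κ') (γ : SA κ K) (hc : ∀ c, σ₀ (φ c) = φ (sc γ c)) :
    ∃ Φ : SA κ' K', sc Φ = σ₀ ∧ ∀ f, sl Φ (ψ f) = ψ (sl γ f) := by
  have h₂ : BC (L' := CnTw σ₀ K') φ (ψ.comp (sl γ : K →+* K)) := by
    refine ⟨fun c => ?_, fun f => h.BC_ind _ (fun g => Subfield.subset_closure (Or.inl ?_))
      (fun c => Subfield.subset_closure (Or.inr ?_)) f⟩
    · change ψ (sl γ _) = algebraMap κ' K' (σ₀ _)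
      rw [sl_const, h.comm, hc]
    · exact ⟨(sl γ).symm g, congrArg ψ ((sl γ).apply_symm_apply g)⟩
    · exact ⟨σ₀.symm c, congrArg (algebraMap κ' K') (σ₀.apply_symm_apply c)⟩
  have := Cn_ff σ₀ K'
  obtain ⟨e, he⟩ := h.unique h₂
  exact ⟨⟨(σ₀, e.toRingEquiv), fun c => e.commutes c⟩, rfl, he⟩

omit [IsAlgClosed κ] [IsAlgClosed κ'] [Fact (IsFF κ K)] [Fact (IsFF κ' K')] in
include h in
theorem sa_ext {Φ Φ' : SA κ' K'} (h1 : ∀ c, sc Φ c = sc Φ' c)
    (h2 : ∀ f, sl Φ (ψ f) = sl Φ' (ψ f)) : Φ = Φ' := by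
  refine sa_eq (RingEquiv.ext fun f => ?_)
  refine h.BC_ind (RingHom.eqLocusField (sl Φ : K' →+* K') (sl Φ' : K' →+* K')) h2 (fun c => ?_) f
  change sl Φ _ = sl Φ' _
  rw [sl_const, sl_const, h1]

theorem smul_up {Φ : SA κ' K'} {γ : SA κ K} (hΦ : ∀ f, sl Φ (ψ f) = ψ (sl γ f)) (P : Place κ K) :
    Φ • up h P = up h (γ • P) := by
  refine eq_up h fun f => ?_
  obtain ⟨g, rfl⟩ := (sl γ).surjective f
  rw [← hΦ, sl_mem, sl_mem]
  exact up_over h P g

theorem smul_cn {Φ : SA κ' K'} {γ : SA κ K} (hΦ : ∀ f, sl Φ (ψ f) = ψ (sl γ f)) (D : Dv κ K) :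
    Φ • cn h D = cn h (γ • D) := by
  induction D using Finsupp.induction_linear with
  | zero => rw [smul_zero, map_zero, smul_zero]
  | add D E hD hE => rw [smul_add, map_add, map_add, smul_add, hD, hE]
  | single P n => rw [smul_single, cn_single, cn_single, smul_single, smul_up h hΦ]

omit [IsAlgClosed κ] [IsAlgClosed κ'] [Fact (IsFF κ K)] [Fact (IsFF κ' K')] in
include h in
theorem exists_fin (S : Finset K') : ∃ T : Finset κ', ∀ Φ : SA κ' K', (∀ c ∈ T, sc Φ c = c) →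
    (∀ f, sl Φ (ψ f) = ψ f) → ∀ a ∈ S, sl Φ a = a := by
  classical
  have ring : ∀ r ∈ BCring κ' ψ, ∃ T : Finset κ', ∀ Φ : SA κ' K', (∀ c ∈ T, sc Φ c = c) →
      (∀ f, sl Φ (ψ f) = ψ f) → sl Φ r = r := fun r hr => by
    obtain ⟨n, e, b, -, rfl⟩ := h.BC_repr hr
    refine ⟨Finset.univ.image e, fun Φ h1 h2 => ?_⟩
    rw [map_sum]
    refine Finset.sum_congr rfl fun l _ => ?_
    rw [Algebra.smul_def, map_mul, sl_const, h2,
      h1 _ (Finset.mem_image_of_mem e (Finset.mem_univ l))]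
  induction S using Finset.induction_on with
  | empty => exact ⟨∅, fun _ _ _ a ha => absurd ha (Finset.notMem_empty a)⟩
  | insert a S _ ih =>
    obtain ⟨T, hT⟩ := ih
    obtain ⟨r, hr, s, hs, -, rfl⟩ := h.BC_frac a
    obtain ⟨T1, h1⟩ := ring r hr
    obtain ⟨T2, h2⟩ := ring s hs
    refine ⟨T ∪ (T1 ∪ T2), fun Φ k1 k2 b hb => ?_⟩
    rcases Finset.mem_insert.1 hb with rfl | hb
    · rw [map_div₀, h1 Φ (fun c hc => k1 c (by simp [hc])) k2,
        h2 Φ (fun c hc => k1 c (by simp [hc])) k2]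
    · exact hT Φ (fun c hc => k1 c (by simp [hc])) k2 b hb

omit h in
/-- the canonical representative of a class of degree zero -/
theorem canon (o : Place κ K) {D : Dv κ K} (hD : dg D = 0) :
    ∃ (r : ℕ) (E : Dv κ K), 0 ≤ E ∧ cl (E - r • Finsupp.single o 1) = cl D ∧
      ∀ E' : Dv κ K, 0 ≤ E' → cl (E' - r • Finsupp.single o 1) = cl D → E' = E := by
  classical
  have hex : ∃ r : ℕ, ∃ E : Dv κ K, 0 ≤ E ∧ cl (E - r • Finsupp.single o 1) = cl D := by
    have h1 := riemann (D + genus κ K • Finsupp.single o 1)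
    rw [dg_add, hD, ← natCast_zsmul, dg_smul, dg_single] at h1
    obtain ⟨f, hf, h0⟩ := rr_exists (D := D + (genus κ K : ℤ) • Finsupp.single o 1) (by omega)
    refine ⟨genus κ K, _, rr_le_of_mem h0 hf, ?_⟩
    rw [natCast_zsmul, add_right_comm, add_sub_cancel_right, map_add, cl_dv, add_zero]
  obtain ⟨E, hE, e⟩ := Nat.find_spec hex
  have key : ∀ F : Dv κ K, 0 ≤ F → cl (F - Nat.find hex • Finsupp.single o 1) = cl D →
      F o = 0 := fun F hF k => by
    rcases h0 : Nat.find hex with _ | n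
    · rw [h0, zero_smul, sub_zero] at k
      obtain ⟨a, -, k⟩ := cl_eq_iff.1 k
      rw [Cn_eff hF (by rw [k, dg_add, dg_dv, hD, add_zero]), Finsupp.zero_apply]
    · by_contra hn
      refine Nat.find_min hex (m := n) (by omega) ⟨F - Finsupp.single o 1, fun P => ?_, ?_⟩
      · have h1 : 0 ≤ F P := hF P
        rw [Finsupp.sub_apply, Finsupp.zero_apply, Finsupp.single_apply]
        split_ifs with h2
        · subst h2
          omega
        · omega
      · rw [← k, h0, succ_nsmul', sub_sub]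
  refine ⟨_, E, hE, e, fun E' hE' e' => ?_⟩
  obtain ⟨a, ha, k⟩ := cl_eq_iff.1 (e'.trans e.symm)
  have k1 : E' = E + dv κ a := by
    rw [sub_eq_iff_eq_add.1 k]
    abel
  have k2 : o.ord a = 0 := by
    have := key E' hE' e'
    rwa [k1, Finsupp.add_apply, key E hE e, zero_add, dv_apply ha] at this
  have k3 : a ∈ Lsp E := fun P => Or.inr (by
    have : 0 ≤ E' P := hE' P
    rw [k1, Finsupp.add_apply, dv_apply ha] at this
    omega)
  have k4 : algebraMap κ K (o.val a) ∈ Lsp E := fun P =>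
    (P.mem_iff.1 (P.2.2 _)).mono (neg_nonpos.2 (hE P))
  by_cases hb : a - algebraMap κ K (o.val a) = 0
  · rw [k1, sub_eq_zero.1 hb, dv_const, add_zero]
  · have k5 := key _ (rr_le_of_mem hb (sub_mem k3 k4)) (by
      rw [add_sub_right_comm, map_add, cl_dv, add_zero, e])
    have k6 := (Place.ge_sub_val ((Sa_mem o ha).2 k2.ge)).resolve_left hb
    rw [Finsupp.add_apply, key E hE e, zero_add, dv_apply hb] at k5
    omega

end Pool.Agent.Lef
end

-- merged part: Pool.Agent.Work.MP_60d5ce_nt.Lb.SpA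
section
/-!
# Constant reduction: places and functions  (task LB SpA)

* `spR`: for `f ≠ 0`: if `ψ f ∉ z.1` then `ψ f⁻¹` has value zero; if `ψ f ∈ z.1` has a value `c ∉ O` then `c ≠ 0` and `ψ f⁻¹` has the value `c⁻¹ ∈ O`.
* `spR_ne_top`: otherwise `f ↦ ρ (z.val (ψ f))` is a homomorphism of `κ`-algebras from the field `K` to `κ`, so every element of `K` is constant.
* `Red0.zero` : if `∑ c i • ψ (g i) = 0` then `∑ ρ (c i) • g i = 0`: write the `g i` in a `κ`-basis of their span (`BC.linearIndependent`).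
* `exists_red`: `BC_frac`, `BC_repr` or `BCring_span`; write `r = ∑ c i • ψ (g i)` with linearly independent `g i` and divide by the coefficient of largest
  valuation.
-/

namespace Pool.Agent.Lef

open PR0 Pool.Agent.Ell.AT

variable {κ K κ' K' : Type} [Field κ] [Field K] [Algebra κ K] [Field κ'] [Field K'] [Algebra κ' K']
  {φ : κ →+* κ'}

/-- `a` is an integral combination of constant functions with reduction `f` -/
def Red0 (s : Spz φ) (ψ : K →+* K') (a : K') (f : K) : Prop :=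
  ∃ (n : ℕ) (c : Fin n → κ') (g : Fin n → K), (∀ i, c i ∈ s.O) ∧ a = ∑ i, c i • ψ (g i) ∧
    f = ∑ i, s.ρ (c i) • g i

/-- `b` has reduction `f` -/
def Red (s : Spz φ) (ψ : K →+* K') (b : K') (f : K) : Prop :=
  ∃ (a t : K') (f1 f2 : K), Red0 s ψ a f1 ∧ Red0 s ψ t f2 ∧ f2 ≠ 0 ∧ b * t = a ∧ f * f2 = f1

section Val

variable [IsAlgClosed κ] [Fact (IsFF κ K)] {P : Place κ K} {f : K}

theorem SpA_val_zero (P : Place κ K) : P.val 0 = 0 := by
  simpa using Place.val_const (P := P) 0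

theorem SpA_val_one (P : Place κ K) : P.val 1 = 1 := by
  simpa using Place.val_const (P := P) 1

theorem SpA_val_neg (hf : f ∈ P.1) : P.val (-f) = -P.val f := by
  rw [eq_neg_iff_add_eq_zero, ← Place.val_add (neg_mem hf) hf, neg_add_cancel, SpA_val_zero]

theorem SpA_val_iff (hf : f ∈ P.1) : P.val f = 0 ↔ f = 0 ∨ f⁻¹ ∉ P.1 := by
  rw [Place.val_eq_zero hf, ← BC_nonunits, ValuationSubring.mem_nonunits_iff_or]

theorem SpA_val_inv (hf : f ∈ P.1) (h0 : P.val f ≠ 0) :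
    f⁻¹ ∈ P.1 ∧ P.val f⁻¹ = (P.val f)⁻¹ := by
  have h1 := (SpA_val_iff hf).not.1 h0
  push Not at h1
  refine ⟨h1.2, eq_inv_of_mul_eq_one_right ?_⟩
  rw [← Place.val_mul hf h1.2, mul_inv_cancel₀ h1.1, SpA_val_one]

end Val

theorem SpA_basis {n : ℕ} (g : Fin n → K) : ∃ (m : ℕ) (e : Fin m → K) (π : Fin n → Fin m → κ),
    LinearIndependent κ e ∧ ∀ i, g i = ∑ l, π i l • e l := by
  have : Module.Finite κ (Submodule.span κ (Set.range g)) :=
    Module.Finite.span_of_finite κ (Set.finite_range g)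
  obtain ⟨e, -, h1, h2⟩ := Submodule.exists_fun_fin_finrank_span_eq κ (Set.range g)
  have h3 : ∀ i, ∃ c : Fin _ → κ, ∑ l, c l • e l = g i := fun i =>
    (Submodule.mem_span_range_iff_exists_fun κ).1 (h1.ge (Submodule.subset_span ⟨i, rfl⟩))
  choose π hπ using h3
  exact ⟨_, e, π, h2, fun i => (hπ i).symm⟩

theorem SpA_sum {ψ : K →+* K'} (h : BC φ ψ) {n m : ℕ} {g : Fin n → K} {e : Fin m → K}
    {π : Fin n → Fin m → κ} (hg : ∀ i, g i = ∑ l, π i l • e l) (c : Fin n → κ') :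
    ∑ i, c i • ψ (g i) = ∑ l, (∑ i, c i * φ (π i l)) • ψ (e l) := by
  simp only [hg, map_sum, h.BC_smul, Finset.smul_sum, Finset.sum_smul, smul_smul]
  exact Finset.sum_comm

variable [IsAlgClosed κ] [IsAlgClosed κ'] [Fact (IsFF κ K)] [Fact (IsFF κ' K')] {ψ : K →+* K'}

/-- the valuation ring of the specialisation -/
def spR (s : Spz φ) (ψ : K →+* K') (z : Place κ' K') : ValuationSubring K where
  carrier := {f | ψ f ∈ z.1 ∧ z.val (ψ f) ∈ s.O}
  mul_mem' := by
    rintro a b ⟨h1, h2⟩ ⟨h3, h4⟩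
    rw [Set.mem_ofPred_eq, map_mul, Place.val_mul h1 h3]
    exact ⟨mul_mem h1 h3, mul_mem h2 h4⟩
  one_mem' := by
    rw [Set.mem_ofPred_eq, map_one, SpA_val_one]
    exact ⟨one_mem _, one_mem _⟩
  add_mem' := by
    rintro a b ⟨h1, h2⟩ ⟨h3, h4⟩
    rw [Set.mem_ofPred_eq, map_add, Place.val_add h1 h3]
    exact ⟨add_mem h1 h3, add_mem h2 h4⟩
  zero_mem' := by
    rw [Set.mem_ofPred_eq, map_zero, SpA_val_zero]
    exact ⟨zero_mem _, zero_mem _⟩
  neg_mem' := by
    rintro a ⟨h1, h2⟩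
    change ψ (-a) ∈ z.1 ∧ z.val (ψ (-a)) ∈ s.O
    rw [map_neg, SpA_val_neg h1]
    exact ⟨neg_mem h1, neg_mem h2⟩
  mem_or_inv_mem' := by
    intro f
    change (ψ f ∈ z.1 ∧ z.val (ψ f) ∈ s.O) ∨ (ψ f⁻¹ ∈ z.1 ∧ z.val (ψ f⁻¹) ∈ s.O)
    rw [map_inv₀]
    by_cases h1 : ψ f ∈ z.1
    · by_cases h2 : z.val (ψ f) ∈ s.O
      · exact Or.inl ⟨h1, h2⟩
      · obtain ⟨h3, h4⟩ := SpA_val_inv h1 fun e => h2 (e ▸ zero_mem _)
        exact Or.inr ⟨h3, h4 ▸ (s.O.mem_or_inv_mem _).resolve_left h2⟩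
    · have h3 := (z.1.mem_or_inv_mem _).resolve_left h1
      have h4 := (SpA_val_iff h3).2 (Or.inr (by rwa [inv_inv]))
      exact Or.inr ⟨h3, h4 ▸ zero_mem _⟩

omit [IsAlgClosed κ] [Fact (IsFF κ K)] in
theorem SpA_mem {s : Spz φ} {z : Place κ' K'} {f : K} :
    f ∈ spR s ψ z ↔ ψ f ∈ z.1 ∧ z.val (ψ f) ∈ s.O := Iff.rfl

omit [IsAlgClosed κ] [Fact (IsFF κ K)] in
theorem SpA_key (h : BC φ ψ) {s : Spz φ} {z : Place κ' K'} {f : K} (hf : f ∈ spR s ψ z) :
    f - algebraMap κ K (s.ρ (z.val (ψ f))) ∈ (spR s ψ z).nonunits := by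
  rw [ValuationSubring.mem_nonunits_iff_or]
  by_contra hc
  push Not at hc
  obtain ⟨h0, h1, h2⟩ := hc
  have h3 : ψ (f - algebraMap κ K (s.ρ (z.val (ψ f)))) =
      ψ f + algebraMap κ' K' (-φ (s.ρ (z.val (ψ f)))) := by
    rw [map_sub, h.comm, map_neg, sub_eq_add_neg]
  have h4 : ψ (f - algebraMap κ K (s.ρ (z.val (ψ f)))) ∈ z.1 :=
    h3 ▸ add_mem hf.1 (z.2.2 _)
  have h5 : z.val (ψ (f - algebraMap κ K (s.ρ (z.val (ψ f))))) ∈ s.O.nonunits := by
    rw [h3, Place.val_add hf.1 (z.2.2 _), Place.val_const, ← sub_eq_add_neg]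
    exact Spz.ρ_spec hf.2
  have h6 := Place.val_mul h4 h1
  rw [← map_mul, mul_inv_cancel₀ h0, map_one, SpA_val_one] at h6
  rcases (ValuationSubring.mem_nonunits_iff_or _).1 h5 with h7 | h7
  · rw [h7, zero_mul] at h6
    exact one_ne_zero h6
  · exact h7 (eq_inv_of_mul_eq_one_right h6.symm ▸ h2)

variable (h : BC φ ψ) (s : Spz φ)

include h in
theorem spR_ne_top (z : Place κ' K') : spR s ψ z ≠ ⊤ := by
  intro e
  obtain ⟨x, hx, -⟩ := Fact.out (p := IsFF κ K)
  have h1 : ∀ f, f ∈ spR s ψ z := fun f => e ▸ ValuationSubring.mem_top f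
  rcases (ValuationSubring.mem_nonunits_iff_or _).1 (SpA_key h (h1 x)) with h2 | h2
  · exact hx (sub_eq_zero.1 h2 ▸ isAlgebraic_algebraMap _)
  · exact h2 (h1 _)

include h in
theorem spR_const (z : Place κ' K') (c : κ) : algebraMap κ K c ∈ spR s ψ z := by
  rw [SpA_mem, h.comm, Place.val_const]
  exact ⟨z.2.2 _, s.mem c⟩

/-- the specialisation of a place -/
def sp (z : Place κ' K') : Place κ K := ⟨spR s ψ z, spR_ne_top h s z, spR_const h s z⟩

theorem mem_sp {z : Place κ' K'} {f : K} :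
    f ∈ (sp h s z).1 ↔ ψ f ∈ z.1 ∧ z.val (ψ f) ∈ s.O := Iff.rfl

theorem val_sp {z : Place κ' K'} {f : K} (hf : f ∈ (sp h s z).1) :
    (sp h s z).val f = s.ρ (z.val (ψ f)) :=
  Place.val_eq ((BC_nonunits _).1 (SpA_key h hf))

theorem sp_up (P : Place κ K) : sp h s (up h P) = P := by
  refine Subtype.ext (ValuationSubring.ext _ _ fun f => ?_)
  rw [mem_sp, up_over h P f]
  exact ⟨And.left, fun hf => ⟨hf, val_up h hf ▸ s.mem _⟩⟩

theorem sp_eq_of_over {z : Place κ' K'} (hz : NC ψ z) {x : Place κ K}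
    (hx : ∀ f, z.val (ψ f) ∈ s.O ↔ f ∈ x.1) : sp h s z = x := by
  refine Subtype.ext (ValuationSubring.ext _ _ fun f => ?_)
  rw [mem_sp, hx, and_iff_right (hz f)]

variable {s} {a a' b b' : K'} {f f' : K}

theorem red0_of_sum {ι : Type} (t : Finset ι) (c : ι → κ') (g : ι → K) (hc : ∀ i ∈ t, c i ∈ s.O) :
    Red0 s ψ (∑ i ∈ t, c i • ψ (g i)) (∑ i ∈ t, s.ρ (c i) • g i) := by
  refine ⟨t.card, fun i => c (t.equivFin.symm i), fun i => g (t.equivFin.symm i),
    fun i => hc _ (t.equivFin.symm i).2, ?_, ?_⟩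
  · rw [← Finset.sum_coe_sort t, ← Equiv.sum_comp t.equivFin.symm]
  · rw [← Finset.sum_coe_sort t, ← Equiv.sum_comp t.equivFin.symm]

theorem SpA_add (ha : Red0 s ψ a f) (ha' : Red0 s ψ a' f') : Red0 s ψ (a + a') (f + f') := by
  obtain ⟨n, c, g, hc, rfl, rfl⟩ := ha
  obtain ⟨n', c', g', hc', rfl, rfl⟩ := ha'
  simpa [Fintype.sum_sum_type] using red0_of_sum (s := s) (ψ := ψ) Finset.univ (Sum.elim c c')
    (Sum.elim g g') (by
      rintro (i | i) -
      · exact hc i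
      · exact hc' i)

theorem SpA_mul (ha : Red0 s ψ a f) (ha' : Red0 s ψ a' f') : Red0 s ψ (a * a') (f * f') := by
  obtain ⟨n, c, g, hc, rfl, rfl⟩ := ha
  obtain ⟨n', c', g', hc', rfl, rfl⟩ := ha'
  have := red0_of_sum (s := s) (ψ := ψ) Finset.univ (fun x : Fin n × Fin n' => c x.1 * c' x.2)
    (fun x => g x.1 * g' x.2) fun x _ => mul_mem (hc _) (hc' _)
  simp only [Fintype.sum_prod_type, Spz.ρ_mul (hc _) (hc' _), map_mul] at this
  simpa only [Finset.sum_mul_sum, smul_mul_smul_comm] using this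

theorem SpA_one (c : κ') (hc : c ∈ s.O) (g : K) : Red0 s ψ (c • ψ g) (s.ρ c • g) :=
  ⟨1, fun _ => c, fun _ => g, fun _ => hc, by simp, by simp⟩

theorem SpA_psi (g : K) : Red0 s ψ (ψ g) g := by
  simpa [Spz.ρ_one] using SpA_one (s := s) (ψ := ψ) 1 (one_mem _) g

theorem SpA_neg (ha : Red0 s ψ a f) : Red0 s ψ (-a) (-f) := by
  simpa using SpA_mul (SpA_psi (-1)) ha

include h

theorem Red0.zero (ha : Red0 s ψ 0 f) : f = 0 := by
  obtain ⟨n, c, g, hc, h0, rfl⟩ := ha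
  obtain ⟨m, e, π, he, hg⟩ := SpA_basis (κ := κ) g
  rw [SpA_sum h hg] at h0
  have h1 := Fintype.linearIndependent_iff.1 (h.linearIndependent he) _ h0.symm
  have h2 := SpA_sum (BC.refl (K := κ) (L := K)) hg fun i => s.ρ (c i)
  simp only [RingHom.id_apply] at h2
  rw [h2]
  refine Finset.sum_eq_zero fun l _ => ?_
  have h3 := congrArg s.ρ (h1 l)
  rw [Spz.ρ_sum _ fun i _ => mul_mem (hc i) (s.mem _), Spz.ρ_zero] at h3
  simp only [Spz.ρ_mul (hc _) (s.mem _), Spz.ρ_φ] at h3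
  rw [h3, zero_smul]

theorem Red0.red (ha : Red0 s ψ a f) : Red s ψ a f :=
  ⟨a, ψ 1, f, 1, ha, SpA_psi 1, one_ne_zero, by rw [map_one, mul_one], mul_one f⟩

theorem red_psi (f : K) : Red s ψ (ψ f) f := (SpA_psi f).red h

theorem red_const {c : κ'} (hc : c ∈ s.O) :
    Red s ψ (algebraMap κ' K' c) (algebraMap κ K (s.ρ c)) := by
  simpa [Algebra.algebraMap_eq_smul_one] using (SpA_one (ψ := ψ) c hc 1).red h

theorem Red.unique (h1 : Red s ψ b f) (h2 : Red s ψ b f') : f = f' := by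
  obtain ⟨a, t, f1, f2, ha, ht, h0, rfl, rfl⟩ := h1
  obtain ⟨a', t', f1', f2', ha', ht', h0', rfl, rfl⟩ := h2
  have h3 := SpA_add (SpA_mul ha ht') (SpA_neg (SpA_mul ha' ht))
  rw [show b * t * t' + -(b * t' * t) = 0 by ring] at h3
  refine mul_right_cancel₀ (mul_ne_zero h0 h0') ?_
  linear_combination h3.zero h

theorem Red.ne (h1 : Red s ψ b f) (hf : f ≠ 0) : b ≠ 0 := by
  rintro rfl
  exact hf (h1.unique h (by simpa using red_psi h (s := s) 0))

theorem Red.add (h1 : Red s ψ b f) (h2 : Red s ψ b' f') : Red s ψ (b + b') (f + f') := by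
  obtain ⟨a, t, f1, f2, ha, ht, h0, rfl, rfl⟩ := h1
  obtain ⟨a', t', f1', f2', ha', ht', h0', rfl, rfl⟩ := h2
  exact ⟨_, _, _, _, SpA_add (SpA_mul ha ht') (SpA_mul ha' ht), SpA_mul ht ht',
    mul_ne_zero h0 h0', by ring, by ring⟩

theorem Red.neg (h1 : Red s ψ b f) : Red s ψ (-b) (-f) := by
  obtain ⟨a, t, f1, f2, ha, ht, h0, rfl, rfl⟩ := h1
  exact ⟨_, _, _, _, SpA_neg ha, ht, h0, by ring, by ring⟩

theorem Red.sub (h1 : Red s ψ b f) (h2 : Red s ψ b' f') : Red s ψ (b - b') (f - f') := by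
  rw [sub_eq_add_neg, sub_eq_add_neg]
  exact h1.add h (h2.neg h)

theorem Red.mul (h1 : Red s ψ b f) (h2 : Red s ψ b' f') : Red s ψ (b * b') (f * f') := by
  obtain ⟨a, t, f1, f2, ha, ht, h0, rfl, rfl⟩ := h1
  obtain ⟨a', t', f1', f2', ha', ht', h0', rfl, rfl⟩ := h2
  exact ⟨_, _, _, _, SpA_mul ha ha', SpA_mul ht ht', mul_ne_zero h0 h0', by ring, by ring⟩

theorem Red.inv (h1 : Red s ψ b f) (hf : f ≠ 0) : Red s ψ b⁻¹ f⁻¹ := by
  have hb := h1.ne h hf
  obtain ⟨a, t, f1, f2, ha, ht, h0, rfl, rfl⟩ := h1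
  exact ⟨_, _, _, _, ht, ha, mul_ne_zero hf h0, inv_mul_cancel_left₀ hb t,
    inv_mul_cancel_left₀ hf f2⟩

theorem Red.div (h1 : Red s ψ b f) (h2 : Red s ψ b' f') (hf : f' ≠ 0) :
    Red s ψ (b / b') (f / f') := by
  rw [div_eq_mul_inv, div_eq_mul_inv]
  exact h1.mul h (h2.inv h hf)

theorem Red.pow (h1 : Red s ψ b f) (n : ℕ) : Red s ψ (b ^ n) (f ^ n) := by
  induction n with
  | zero => simpa using red_psi h (s := s) 1
  | succ n ih =>
    rw [pow_succ, pow_succ]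
    exact ih.mul h h1

theorem Red.zpow (h1 : Red s ψ b f) (hf : f ≠ 0) (n : ℤ) : Red s ψ (b ^ n) (f ^ n) := by
  obtain ⟨n, rfl | rfl⟩ := n.eq_nat_or_neg
  · simpa using h1.pow h n
  · simpa using (h1.pow h n).inv h (pow_ne_zero n hf)

theorem red_prod {ι : Type} (t : Finset ι) {b : ι → K'} {f : ι → K}
    (h1 : ∀ i ∈ t, Red s ψ (b i) (f i)) : Red s ψ (∏ i ∈ t, b i) (∏ i ∈ t, f i) := by
  classical
  induction t using Finset.induction_on with
  | empty => simpa using red_psi h (s := s) 1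
  | insert i t hi ih =>
    rw [Finset.prod_insert hi, Finset.prod_insert hi]
    exact (h1 i (Finset.mem_insert_self _ _)).mul h
      (ih fun j hj => h1 j (Finset.mem_insert_of_mem hj))

variable (s) in
theorem SpA_ring (ha : a ∈ BCring κ' ψ) (h0 : a ≠ 0) :
    ∃ (c : κ') (f : K), c ≠ 0 ∧ f ≠ 0 ∧ Red0 s ψ (algebraMap κ' K' c * a) f := by
  obtain ⟨n, c, g', rfl⟩ := Submodule.mem_span_set'.1 (BCring_span ha)
  choose g hg' using fun i => (g' i).2
  obtain ⟨m, e, π, he, hg⟩ := SpA_basis (κ := κ) g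
  simp only [← hg'] at h0 ⊢
  rw [SpA_sum h hg] at h0 ⊢
  obtain ⟨d, hd⟩ : ∃ d : Fin m → κ', ∀ l, ∑ i, c i * φ (π i l) = d l := ⟨_, fun _ => rfl⟩
  simp only [hd] at h0 ⊢
  obtain ⟨l, -, hl⟩ := Finset.exists_ne_zero_of_sum_ne_zero h0
  obtain ⟨k, -, hk⟩ := Finset.exists_max_image Finset.univ (fun l => s.O.valuation (d l))
    ⟨l, Finset.mem_univ l⟩
  have h1 : d k ≠ 0 := fun e => hl (by
    have := hk l (Finset.mem_univ l)
    rw [e, map_zero, le_zero_iff, map_eq_zero] at this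
    rw [this, zero_smul])
  have h2 : ∀ j, (d k)⁻¹ * d j ∈ s.O := fun j => by
    rw [← s.O.valuation_le_one_iff, map_mul, map_inv₀]
    exact (inv_mul_le_one₀ (zero_lt_iff.2 ((map_ne_zero _).2 h1))).2 (hk j (Finset.mem_univ j))
  refine ⟨(d k)⁻¹, ∑ j, s.ρ ((d k)⁻¹ * d j) • e j, inv_ne_zero h1, fun e0 => ?_, m,
    fun j => (d k)⁻¹ * d j, e, h2, ?_, rfl⟩
  · have := Fintype.linearIndependent_iff.1 he _ e0 k
    rw [inv_mul_cancel₀ h1, Spz.ρ_one] at this
    exact one_ne_zero this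
  · simp only [← Algebra.smul_def, Finset.smul_sum, smul_smul]

variable (s) in
theorem exists_red (hb : b ≠ 0) :
    ∃ (c : κ') (f : K), c ≠ 0 ∧ f ≠ 0 ∧ Red s ψ (algebraMap κ' K' c * b) f := by
  obtain ⟨r, hr, t, ht, h0, rfl⟩ := h.BC_frac b
  obtain ⟨c, f, hc, hf, h1⟩ := SpA_ring h s hr fun e => hb (by rw [e, zero_div])
  obtain ⟨c', f', hc', hf', h2⟩ := SpA_ring h s ht h0
  refine ⟨c / c', f / f', div_ne_zero hc hc', div_ne_zero hf hf', ?_⟩
  rw [map_div₀, div_mul_div_comm]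
  exact (h1.red h).div h (h2.red h) hf'

end Pool.Agent.Lef
end

-- merged part: Pool.Agent.Work.MP_60d5ce_nt.Lb.SpB
section
/-!
# Constant reduction: divisors  (task LB SpB)

`sp_dv` reduces to `Red0 s ψ a f`, `f ≠ 0` (`dv_mul`).  Let `Δ = mapDomain sp (dv a) - dv f`.
* `SpB_key`: for every transcendental `g ∈ K` the sum of `Δ P` over the zeros `P` of `g` vanishes.  Put `F = κ⟮g⟯`, `F' = κ'⟮ψ g⟯`.  A basis `b` of `K` over `F`
  gives the basis `ψ ∘ b` of `K'` over `F'` (the degrees agree: `dg_dvInf`, `dv_psi`, `dg_cn`; spanning as in `BC_fin`, or independence from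
  `BC.linearIndependent` for `g ^ i * b j`).  With `a = ∑ c i • ψ (g i)` write the matrix of multiplication by `g i` as `N i (g) / d (g)`, with
  `N i` a matrix over `κ[X]` and `d ≠ 0`.  Let `p = det (∑ C (c i) • (N i).map φ)` in `O[X]` (`Spz.exists_hom`), `p0` its reduction.  Then
  `nrm F' a = p (ψ g) / d (ψ g) ^ n`, `nrm F f = p0 (g) / d (g) ^ n`, so `p0 ≠ 0`.  The multiplicity of zero in `p0` is the number of roots
  of `p` in the maximal ideal: factor `p` over `κ'`, `p = c ∏ (X - r) ∏ (1 - X / r')` with `r ∈ O`, `r' ∉ O`; the product `q` of the linear factors lies in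
  `O[X]` with nonzero reduction, so `c` is a unit (if `c ∉ O` then `q = c⁻¹ p` reduces to zero).
  `nrm_ord` for `g` in `K` and for `ψ g - r`, `r` in the maximal ideal, in `K'` (supply `[OddP]` by
  `have : Pool.Agent.Ell.OddP := ⟨3, Nat.prime_three, by decide⟩`).  A place `z` has `0 < (sp z).ord g` iff `ψ g ∈ z.1` and the value is in the
  maximal ideal.  The roots of `d.map φ` in the maximal ideal are zero.
* Then take `g` with `ord g = 1` at the given place and value one at the other places of the support of `Δ` (`weak_approx`).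
-/

namespace Pool.Agent.Lef

open PR0 Pool.Agent.Ell.AT Polynomial
open scoped Classical

section one

variable {𝕜 L : Type} [Field 𝕜] [Field L] [Algebra 𝕜 L] {x u : L} {p d : 𝕜[X]}

theorem SpB_den1 {y : L} (hy : y ∈ IntermediateField.adjoin 𝕜 {x}) :
    ∃ q : 𝕜[X] × 𝕜[X], q.1 ≠ 0 ∧ aeval x q.1 * y = aeval x q.2 := by
  obtain ⟨a, d, rfl⟩ := (IntermediateField.mem_adjoin_simple_iff _ y).1 hy
  by_cases h : aeval x d = 0
  · exact ⟨(1, 0), one_ne_zero, by simp [h]⟩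
  · exact ⟨(d, a), fun e => h (by rw [show d = 0 from e, map_zero]), mul_div_cancel₀ _ h⟩

theorem SpB_den {τ : Type} [Fintype τ] (y : τ → IntermediateField.adjoin 𝕜 {x}) :
    ∃ d : 𝕜[X], d ≠ 0 ∧ ∃ N : τ → 𝕜[X], ∀ t, aeval x d * (y t : L) = aeval x (N t) := by
  choose q h1 h2 using fun t => SpB_den1 (y t).2
  refine ⟨∏ t, (q t).1, Finset.prod_ne_zero_iff.2 fun t _ => h1 t,
    fun t => (∏ t' ∈ Finset.univ.erase t, (q t').1) * (q t).2, fun t => ?_⟩
  rw [← Finset.prod_erase_mul _ _ (Finset.mem_univ t), map_mul, map_mul, mul_assoc, h2]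

theorem SpB_nrm {ι : Type} [Fintype ι] [DecidableEq ι]
    (b : Module.Basis ι (IntermediateField.adjoin 𝕜 {x}) L)
    (N : Matrix ι ι 𝕜[X]) (h : ∀ j, aeval x d * (u * b j) = ∑ i, aeval x (N i j) * b i) :
    nrm (IntermediateField.adjoin 𝕜 {x}) u * aeval x (d ^ Fintype.card ι) = aeval x N.det := by
  obtain ⟨e, he⟩ : ∃ e : 𝕜[X] →+* IntermediateField.adjoin 𝕜 {x}, ∀ q, (e q : L) = aeval x q :=
    ⟨(aeval (IntermediateField.AdjoinSimple.gen 𝕜 x)).toRingHom, fun q =>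
      (aeval_algebraMap_apply L (IntermediateField.AdjoinSimple.gen 𝕜 x) q).symm⟩
  have h1 : e d • Algebra.leftMulMatrix b u = e.mapMatrix N := by
    refine Matrix.ext fun i j => ?_
    have h2 : e d • (u * b j) = ∑ i, e (N i j) • b i := by
      simp only [Algebra.smul_def, IntermediateField.algebraMap_apply, he]
      exact h j
    have h3 := congrArg (fun y => b.repr y i) h2
    simp only [map_smul, Module.Basis.repr_sum_self] at h3
    rw [Matrix.smul_apply, Algebra.leftMulMatrix_eq_repr_mul]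
    exact h3
  have h2 := congrArg Matrix.det h1
  rw [Matrix.det_smul, ← RingHom.map_det, ← Algebra.norm_eq_matrix_det, ← map_pow] at h2
  rw [← he, ← he, ← h2, nrm, mul_comm]
  rfl

theorem SpB_sum (c : 𝕜 → Prop) [DecidablePred c] {T : Finset 𝕜} (hT : ∀ a ∈ p.roots, a ∈ T) :
    ∑ r ∈ T.filter c, (rootMultiplicity r p : ℤ) = p.roots.countP c := by
  rw [Multiset.countP_eq_card_filter, ← Multiset.sum_count_eq_card (s := T.filter c) fun a ha =>
    Finset.mem_filter.2 ⟨hT a (Multiset.mem_filter.1 ha).1, (Multiset.mem_filter.1 ha).2⟩,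
    Nat.cast_sum]
  exact Finset.sum_congr rfl fun r hr => by
    rw [Multiset.count_filter_of_pos (Finset.mem_filter.1 hr).2, count_roots]

theorem SpB_ne (hx : Transcendental 𝕜 x) (hd : d ≠ 0) : aeval x d ≠ 0 := fun e => hx ⟨d, hd, e⟩

variable [IsAlgClosed 𝕜] [Fact (IsFF 𝕜 L)]

theorem SpB_mem {P : Place 𝕜 L} {r : 𝕜} (hP : 0 < P.ord (x - algebraMap 𝕜 L r)) : x ∈ P.1 := by
  have := add_mem (P.mem_iff.2 (Or.inr hP.le)) (P.2.2 r)
  rwa [sub_add_cancel] at this

theorem SpB_ord (hx : Transcendental 𝕜 x) (r : 𝕜) (hp : p ≠ 0) {P : Place 𝕜 L}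
    (hP : 0 < P.ord (x - algebraMap 𝕜 L r)) :
    P.ord (aeval x p) = rootMultiplicity r p * P.ord (x - algebraMap 𝕜 L r) := by
  obtain ⟨q, h1, h2⟩ := exists_eq_pow_rootMultiplicity_mul_and_not_dvd p hp r
  rw [dvd_iff_isRoot, IsRoot.def] at h2
  obtain ⟨t, ht⟩ := X_sub_C_dvd_sub_C_eval (p := q) (a := r)
  have h0 := RecE_ne (RecE_tr hx r)
  have h3 : aeval x q = algebraMap 𝕜 L (q.eval r) + (x - algebraMap 𝕜 L r) * aeval x t := by
    conv_lhs => rw [eq_add_of_sub_eq' ht]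
    rw [map_add, map_mul, map_sub, aeval_X, aeval_C, aeval_C]
  have h4 : P.Ge (aeval x t) 0 := P.mem_iff.1
    (FFA_adj P (SpB_mem hP) _ (aeval_mem_adjoin_singleton 𝕜 x))
  have h5 := Place.ord_add_of_lt (P := P) ((map_ne_zero (algebraMap 𝕜 L)).2 h2)
    (g := (x - algebraMap 𝕜 L r) * aeval x t) (by
      rw [P.ord_const h2]
      exact (Place.Ge.mul (Or.inr le_rfl) h4).mono (by omega))
  rw [← h3, P.ord_const h2] at h5
  conv_lhs => rw [h1]
  rw [map_mul, map_pow, map_sub, aeval_X, aeval_C, P.ord_mul (pow_ne_zero _ h0) h5.1, h5.2,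
    P.ord_pow h0, add_zero]

theorem SpB_pne (hx : Transcendental 𝕜 x) (hu : u ≠ 0) (hd : d ≠ 0)
    (e : nrm (IntermediateField.adjoin 𝕜 {x}) u * aeval x d = aeval x p) : p ≠ 0 := by
  rintro rfl
  exact mul_ne_zero (RecE_nrm_ne hx rfl hu) (SpB_ne hx hd) (e.trans (map_zero _))

theorem SpB_T (hx : Transcendental 𝕜 x) (hu : u ≠ 0) (hd : d ≠ 0)
    (e : nrm (IntermediateField.adjoin 𝕜 {x}) u * aeval x d = aeval x p) (r : 𝕜) :
    ∑ P ∈ (dv 𝕜 u).support, (if 0 < P.ord (x - algebraMap 𝕜 L r) then dv 𝕜 u P else 0) =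
      (rootMultiplicity r p : ℤ) - rootMultiplicity r d := by
  have : Pool.Agent.Ell.OddP := ⟨3, Nat.prime_three, by decide⟩
  obtain ⟨P0, h0⟩ := RecE_place (RecE_tr hx r)
  have h1 := nrm_ord (RecE_tr hx r) (RecE_adj x r) hu h0
  rw [finsum_eq_sum_of_support_subset _ (s := (dv 𝕜 u).support) fun P hP => by
    refine Finset.mem_coe.2 (Finsupp.mem_support_iff.2 fun k => hP ?_)
    rw [dv_apply hu] at k
    simp only [k, ite_self]] at h1
  have h2 := congrArg P0.ord e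
  rw [P0.ord_mul (RecE_nrm_ne hx rfl hu) (SpB_ne hx hd), SpB_ord hx r hd h0,
    SpB_ord hx r (SpB_pne hx hu hd e) h0, h1] at h2
  simp only [dv_apply hu]
  refine mul_left_cancel₀ h0.ne' ?_
  linear_combination h2

theorem SpB_W (c : 𝕜 → Prop) [DecidablePred c] (hx : Transcendental 𝕜 x) (hu : u ≠ 0) (hd : d ≠ 0)
    (e : nrm (IntermediateField.adjoin 𝕜 {x}) u * aeval x d = aeval x p) :
    ((dv 𝕜 u).sum fun P n => if x ∈ P.1 ∧ c (P.val x) then n else 0) =
      (p.roots.countP c : ℤ) - d.roots.countP c := by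
  obtain ⟨T, h1, h2, h3⟩ : ∃ T : Finset 𝕜, (∀ P ∈ (dv 𝕜 u).support, P.val x ∈ T) ∧
      (∀ a ∈ p.roots, a ∈ T) ∧ ∀ a ∈ d.roots, a ∈ T :=
    ⟨(dv 𝕜 u).support.image (fun P => P.val x) ∪ (p.roots.toFinset ∪ d.roots.toFinset),
      fun P hP => Finset.mem_union_left _ (Finset.mem_image_of_mem _ hP),
      fun a ha => by simp only [Finset.mem_union, Multiset.mem_toFinset, ha, true_or, or_true],
      fun a ha => by simp only [Finset.mem_union, Multiset.mem_toFinset, ha, or_true]⟩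
  rw [← SpB_sum c h2, ← SpB_sum c h3, ← Finset.sum_sub_distrib,
    ← Finset.sum_congr rfl fun r _ => SpB_T hx hu hd e r, Finset.sum_comm]
  refine Finset.sum_congr rfl fun P hP => ?_
  beta_reduce
  split_ifs with h4
  · rw [Finset.sum_eq_single_of_mem (P.val x) (Finset.mem_filter.2 ⟨h1 P hP, h4.2⟩)
      fun r _ hr => if_neg fun k => hr ((RecE_pos hx h4.1 r).1 k).symm,
      if_pos ((RecE_pos hx h4.1 _).2 rfl)]
  · refine (Finset.sum_eq_zero fun r hr => if_neg fun k => h4 ⟨SpB_mem k, ?_⟩).symm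
    rw [(RecE_pos hx (SpB_mem k) r).1 k]
    exact (Finset.mem_filter.1 hr).2

end one

variable {κ K κ' K' : Type} [Field κ] [Field K] [Algebra κ K] [Field κ'] [Field K'] [Algebra κ' K']
  {φ : κ →+* κ'} [IsAlgClosed κ] [IsAlgClosed κ'] [Fact (IsFF κ K)] [Fact (IsFF κ' K')]
  {ψ : K →+* K'} (h : BC φ ψ) {s : Spz φ} {b : K'} {f : K}

omit [IsAlgClosed κ] in
/-- the roots in the maximal ideal -/
theorem SpB_cnt {r : s.O →+* κ} (hr : ∀ a : s.O, r a = s.ρ a) (n : ℕ) : ∀ p : s.O[X],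
    p.natDegree = n → p.map r ≠ 0 →
      (p.map s.O.subtype).roots.countP (fun a => a ∈ s.O ∧ s.ρ a = 0) =
        (p.map r).roots.countP fun a => a = 0 := by
  have hi : Function.Injective s.O.subtype := Subtype.val_injective
  induction n with
  | zero =>
    intro p hp _
    rw [eq_C_of_natDegree_eq_zero hp, map_C, map_C, roots_C, roots_C]
    rfl
  | succ n ih =>
    intro p hp h0
    have hp0 : p ≠ 0 := fun e => h0 (by rw [e, Polynomial.map_zero])
    obtain ⟨a, ha⟩ := IsAlgClosed.exists_root (p.map s.O.subtype) (by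
      rw [degree_map_eq_of_injective hi, degree_eq_natDegree hp0, hp]
      exact_mod_cast n.succ_ne_zero)
    suffices k : ∃ l q : s.O[X], p = l * q ∧ l.natDegree = 1 ∧
        (l.map s.O.subtype).roots.countP (fun a => a ∈ s.O ∧ s.ρ a = 0) =
          (l.map r).roots.countP fun a => a = 0 by
      obtain ⟨l, q, rfl, h1, h2⟩ := k
      have h3 := (Polynomial.map_ne_zero_iff hi).2 hp0
      rw [natDegree_mul (left_ne_zero_of_mul hp0) (right_ne_zero_of_mul hp0), h1] at hp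
      rw [Polynomial.map_mul] at h0 h3
      rw [Polynomial.map_mul, Polynomial.map_mul, roots_mul h0, roots_mul h3, Multiset.countP_add,
        Multiset.countP_add, h2, ih q (by omega) (right_ne_zero_of_mul h0)]
    by_cases hO : a ∈ s.O
    · obtain ⟨q, hq⟩ := dvd_iff_isRoot.2 ((isRoot_map_iff (x := ⟨a, hO⟩) hi).1 ha)
      refine ⟨_, q, hq, natDegree_X_sub_C _, ?_⟩
      rw [Polynomial.map_sub, Polynomial.map_sub, map_X, map_X, map_C, map_C, roots_X_sub_C,
        roots_X_sub_C, hr]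
      simp [← Multiset.cons_zero, Multiset.countP_cons, hO]
    · obtain ⟨h1, h2⟩ := Spz.ρ_inv_of_not_mem hO
      have a0 : a ≠ 0 := fun e => hO (e ▸ zero_mem _)
      obtain ⟨q, hq⟩ := dvd_iff_isRoot.2 ha
      have e1 : (1 - C (⟨a⁻¹, h1⟩ : s.O) * X).map s.O.subtype = C (-a⁻¹) * (X - C a) := by
        rw [Polynomial.map_sub, Polynomial.map_mul, map_X, map_C, Polynomial.map_one, mul_sub,
          ← C_mul, neg_mul, inv_mul_cancel₀ a0, C_neg, C_neg, C_1]
        change 1 - C a⁻¹ * X = _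
        ring
      have e2 : p.map s.O.subtype = C (-a) * q - C a⁻¹ * (C (-a) * q * X) := by
        rw [hq, ← mul_assoc, ← mul_assoc, ← C_mul, mul_neg, inv_mul_cancel₀ a0, C_neg, C_neg, C_1]
        ring
      have e3 : ∀ i, (C (-a) * q).coeff i ∈ s.O := by
        generalize C (-a) * q = t at e2
        intro i
        induction i with
        | zero =>
          have := congrArg (coeff · 0) e2
          simp only [coeff_map, coeff_sub, mul_coeff_zero, coeff_X_zero, mul_zero,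
            sub_zero] at this
          exact this ▸ (p.coeff 0).2
        | succ i ih =>
          have := congrArg (coeff · (i + 1)) e2
          simp only [coeff_map, coeff_sub, coeff_C_mul, coeff_mul_X] at this
          rw [← eq_sub_iff_add_eq.1 this]
          exact add_mem (p.coeff (i + 1)).2 (mul_mem h1 ih)
      obtain ⟨t, ht⟩ := (mem_lifts _).1 ((lifts_iff_coeff_lifts (f := s.O.subtype) (C (-a) * q)).2
        fun i => ⟨⟨_, e3 i⟩, rfl⟩)
      have n0 : -a⁻¹ ≠ 0 := neg_ne_zero.2 (inv_ne_zero a0)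
      refine ⟨1 - C (⟨a⁻¹, h1⟩ : s.O) * X, t, map_injective _ hi ?_, ?_, ?_⟩
      · rw [Polynomial.map_mul, ht, e2, Polynomial.map_sub, Polynomial.map_mul, map_X, map_C,
          Polynomial.map_one]
        change _ = (1 - C a⁻¹ * X) * _
        ring
      · rw [← natDegree_map_eq_of_injective hi, e1, natDegree_C_mul n0, natDegree_X_sub_C]
      · rw [e1, roots_C_mul _ n0, roots_X_sub_C, Polynomial.map_sub, Polynomial.map_mul, map_C, hr]
        simp [h2, hO, ← Multiset.cons_zero]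

include h in
theorem SpB_rank {g : K} (hg : Transcendental κ g) :
    Module.finrank (IntermediateField.adjoin κ {g}) K =
      Module.finrank (IntermediateField.adjoin κ' {ψ g}) K' := by
  have h0 := RecE_ne hg
  have h1 := (map_ne_zero ψ).2 h0
  have h2 : dvInf κ' (ψ g) = cn h (dvInf κ g) := by
    ext z
    rcases up_or h z with ⟨P, rfl⟩ | hz
    · rw [dvInf_apply h1, ord_up h P h0, cn_up, dvInf_apply h0]
    · rw [dvInf_apply h1, hz.ord h0, cn_nc h _ hz]
      rfl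
  have h3 := dg_dvInf (h.BC_tr hg)
  rw [h2, dg_cn, dg_dvInf hg] at h3
  exact_mod_cast h3

include h in
theorem SpB_basis {g : K} (hg : Transcendental κ g) {ι : Type} [Fintype ι]
    (β : Module.Basis ι (IntermediateField.adjoin κ {g}) K) :
    ∃ β' : Module.Basis ι (IntermediateField.adjoin κ' {ψ g}) K', ∀ i, β' i = ψ (β i) := by
  have hr := SpB_rank h hg
  have := finiteDimensional_of_transcendental (h.BC_tr hg)
  generalize hE : IntermediateField.adjoin κ' {ψ g} = E at *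
  have h1 : ∀ a : IntermediateField.adjoin κ {g}, ψ a ∈ E := fun a => by
    refine IntermediateField.adjoin_le_subfield κ {g} (K := E.toSubfield.comap ψ) ?_ ?_ a.2
    · rintro _ ⟨c, rfl⟩
      change ψ _ ∈ E
      rw [h.comm]
      exact E.algebraMap_mem _
    · rintro _ rfl
      exact hE ▸ IntermediateField.mem_adjoin_simple_self κ' _
  have h2 : ∀ y, ψ y ∈ Submodule.span E (Set.range fun i => ψ (β i)) := fun y => by
    rw [← β.sum_repr y, map_sum]
    refine sum_mem fun i _ => ?_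
    rw [Algebra.smul_def, map_mul]
    exact Submodule.smul_mem _ (⟨_, h1 _⟩ : E) (Submodule.subset_span ⟨i, rfl⟩)
  let A : Subalgebra E K' := (Submodule.span E (Set.range fun i => ψ (β i))).toSubalgebra
    (map_one ψ ▸ h2 1) fun x y hx hy => by
      refine (Submodule.mul_le.1 (?_ : _ * _ ≤ Submodule.span E _)) x hx y hy
      rw [Submodule.span_mul_span, Submodule.span_le]
      rintro _ ⟨_, ⟨i, rfl⟩, _, ⟨j, rfl⟩, rfl⟩
      have := h2 (β i * β j)
      rwa [map_mul] at this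
  let M : IntermediateField E K' := A.toIntermediateField fun x hx =>
    A.inv_mem_of_algebraic (x := ⟨x, hx⟩) (Algebra.IsAlgebraic.isAlgebraic x)
  refine ⟨basisOfTopLeSpanOfCardEqFinrank (fun i => ψ (β i)) (fun y _ => ?_)
    ((Module.finrank_eq_card_basis β).symm.trans hr), fun i => by
      rw [coe_basisOfTopLeSpanOfCardEqFinrank]⟩
  exact h.BC_ind M.toSubfield h2 (fun c => M.algebraMap_mem (algebraMap κ' E c)) y

theorem SpB_key {a : K'} {g : K} (hg : Transcendental κ g) (ha : Red0 s ψ a f) (hf : f ≠ 0) :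
    ((Finsupp.mapDomain (sp h s) (dv κ' a)).sum fun P n => if g ∈ P.1 ∧ P.val g = 0 then n else 0) =
      (dv κ f).sum fun P n => if g ∈ P.1 ∧ P.val g = 0 then n else 0 := by
  have a0 := (ha.red h).ne h hf
  obtain ⟨m, c, y, hc, rfl, rfl⟩ := ha
  obtain ⟨r, hr⟩ := s.exists_hom
  have := finiteDimensional_of_transcendental hg
  obtain β := Module.finBasis (IntermediateField.adjoin κ {g}) K
  generalize Module.finrank (IntermediateField.adjoin κ {g}) K = n at β
  obtain ⟨β', hβ⟩ := SpB_basis h hg β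
  obtain ⟨d, hd, N, hN⟩ := SpB_den fun t : Fin m × Fin n × Fin n => β.repr (y t.1 * β t.2.2) t.2.1
  have h1 : ∀ l j, aeval g d * (y l * β j) = ∑ i, aeval g (N (l, i, j)) * β i := fun l j => by
    conv_lhs => rw [← β.sum_repr (y l * β j), Finset.mul_sum]
    exact Finset.sum_congr rfl fun i _ => by rw [← hN, Algebra.smul_def, mul_assoc]; rfl
  obtain ⟨φO, e1, e2⟩ : ∃ φO : κ →+* s.O, s.O.subtype.comp φO = φ ∧ r.comp φO = RingHom.id κ :=
    ⟨φ.codRestrict s.O s.mem, rfl, RingHom.ext fun c => (hr _).trans (Spz.ρ_φ c)⟩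
  have e3 : ∀ q : κ[X], aeval (ψ g) (q.map φ) = ψ (aeval g q) := fun q =>
    (map_aeval_eq_aeval_map (RingHom.ext fun c => (h.comm c).symm) q g).symm
  obtain ⟨M, hM⟩ : ∃ M : Matrix (Fin n) (Fin n) s.O[X],
    ∀ i j, M i j = ∑ l, C (⟨c l, hc l⟩ : s.O) * (N (l, i, j)).map φO := ⟨_, fun _ _ => rfl⟩
  have h2 := SpB_nrm (u := ∑ l, s.ρ (c l) • y l) (d := d) β ((mapRingHom r).mapMatrix M) fun j => by
    simp only [RingHom.mapMatrix_apply, Matrix.map_apply, hM, coe_mapRingHom, Polynomial.map_sum,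
      Polynomial.map_mul, map_C, Polynomial.map_map, e2, Polynomial.map_id, map_sum, map_mul,
      aeval_C, hr, Finset.sum_mul, Finset.mul_sum, Algebra.smul_def]
    rw [Finset.sum_comm]
    refine Finset.sum_congr rfl fun l _ => ?_
    rw [mul_assoc, mul_left_comm, h1, Finset.mul_sum]
    exact Finset.sum_congr rfl fun i _ => (mul_assoc _ _ _).symm
  have h3 := SpB_nrm (u := ∑ l, c l • ψ (y l)) (d := d.map φ) β'
    ((mapRingHom s.O.subtype).mapMatrix M) fun j => by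
    simp only [RingHom.mapMatrix_apply, Matrix.map_apply, hM, coe_mapRingHom, Polynomial.map_sum,
      Polynomial.map_mul, map_C, Polynomial.map_map, e1, map_sum, map_mul,
      aeval_C, e3, hβ, Finset.sum_mul, Finset.mul_sum, Algebra.smul_def]
    rw [Finset.sum_comm]
    refine Finset.sum_congr rfl fun l _ => ?_
    rw [mul_assoc, mul_left_comm, ← map_mul, ← map_mul, h1, map_sum, Finset.mul_sum]
    exact Finset.sum_congr rfl fun i _ => by rw [map_mul, mul_assoc]; rfl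
  rw [← RingHom.map_det, coe_mapRingHom] at h2 h3
  have d1 := pow_ne_zero (Fintype.card (Fin n)) hd
  have d2 := pow_ne_zero (Fintype.card (Fin n)) ((Polynomial.map_ne_zero_iff φ.injective).2 hd)
  have h4 := SpB_cnt hr _ ((d ^ Fintype.card (Fin n)).map φO) rfl (by
    rwa [Polynomial.map_map, e2, Polynomial.map_id])
  rw [Polynomial.map_map, Polynomial.map_map, e1, e2, Polynomial.map_id, Polynomial.map_pow] at h4
  rw [SpB_W (fun a => a = 0) hg hf d1 h2, ← h4, ← SpB_cnt hr _ _ rfl (SpB_pne hg hf d1 h2),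
    ← SpB_W _ (h.BC_tr hg) a0 d2 h3, Finsupp.sum_mapDomain_index
      (h := fun (P : Place κ K) (n : ℤ) => if g ∈ P.1 ∧ P.val g = 0 then n else 0)
      (fun _ => ite_self _) fun _ _ _ => by split_ifs <;> simp]
  refine Finset.sum_congr rfl fun z _ => if_congr ⟨fun k => ?_, fun k => ?_⟩ rfl rfl
  · exact ⟨k.1.1, k.1.2, val_sp h s k.1 ▸ k.2⟩
  · exact ⟨⟨k.1, k.2.1⟩, (val_sp h s ⟨k.1, k.2.1⟩).trans k.2.2⟩

theorem SpB_red0 {a : K'} (ha : Red0 s ψ a f) (hf : f ≠ 0) :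
    Finsupp.mapDomain (sp h s) (dv κ' a) = dv κ f := by
  have : Pool.Agent.Ell.OddP := ⟨3, Nat.prime_three, by decide⟩
  ext P
  obtain ⟨S, h1, h2, h3⟩ : ∃ S : Finset (Place κ K), P ∈ S ∧
      (Finsupp.mapDomain (sp h s) (dv κ' a)).support ⊆ S ∧ (dv κ f).support ⊆ S :=
    ⟨insert P (_ ∪ _), Finset.mem_insert_self _ _,
      Finset.subset_union_left.trans (Finset.subset_insert _ _),
      Finset.subset_union_right.trans (Finset.subset_insert _ _)⟩
  obtain ⟨g, hg⟩ := RecE_unif S P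
  have g0 := (hg P h1).1
  have g1 : Transcendental κ g := transcendental_iff.2 fun ⟨c, e⟩ => by
    have k := (hg P h1).2
    rw [if_pos rfl, ← e, P.ord_const fun k => g0 (by rw [← e, k, map_zero])] at k
    omega
  have key : ∀ D : Dv κ K, D.support ⊆ S →
      (D.sum fun Q n => if g ∈ Q.1 ∧ Q.val g = 0 then n else 0) = D P := fun D hD => by
    have k : ∀ Q ∈ S, (g ∈ Q.1 ∧ Q.val g = 0) ↔ Q = P := fun Q hQ => by
      have k1 := (hg Q hQ).2
      have k2 : g ∈ Q.1 := Q.mem_iff.2 (Or.inr (by rw [k1]; split_ifs <;> omega))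
      rw [and_iff_right k2, Place.val_eq_zero k2, Place.Ge, or_iff_right g0, k1]
      split_ifs with k3 <;> simp [k3]
    rw [Finsupp.sum_of_support_subset _ hD (fun Q n => if g ∈ Q.1 ∧ Q.val g = 0 then n else 0)
      fun _ _ => ite_self _, Finset.sum_eq_single_of_mem P h1 fun Q hQ ne => if_neg fun e => ne ((k Q hQ).1 e),
      if_pos ((k P h1).2 rfl)]
  rw [← key _ h2, ← key _ h3, SpB_key h g1 ha hf]

theorem sp_dv (hb : Red s ψ b f) (hf : f ≠ 0) :
    Finsupp.mapDomain (sp h s) (dv κ' b) = dv κ f := by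
  have : Pool.Agent.Ell.OddP := ⟨3, Nat.prime_three, by decide⟩
  have b0 := hb.ne h hf
  obtain ⟨a, t, f1, f2, h1, h2, h3, rfl, rfl⟩ := hb
  have h4 := SpB_red0 h h1 (mul_ne_zero hf h3)
  rw [dv_mul b0 ((h2.red h).ne h h3), dv_mul hf h3, Finsupp.mapDomain_add, SpB_red0 h h2 h3] at h4
  exact add_right_cancel h4

end Pool.Agent.Lef
end

-- merged part: Pool.Agent.Work.MP_60d5ce_nt.Lb.SpC
section
/-!
# Constant reduction: residue discs and local symbols  (task LB SpC)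

The disc of `P` is the set of places `z` with `sp h s z = P`.
* `red_val`: let `c = z.val b`.  If `c ∉ O` then `1 - b / c` has reduction one, is regular on the disc and vanishes at `z`, against `sp_sum`.
  So `c ∈ O`, and `b - c` has the reduction `f - ρ c`, which is zero or (again by `sp_sum`) of positive order at `P`.
* `disc_one`: `ψ U - c` has the reduction `U` (as `ρ c = 0`), is regular on the disc, and the sum of its orders on the disc is one.
* `loc_sym`: with `l z = ψ U - z.val (ψ U)`, the function `b = a / ∏ (z ∈ T in the disc), l z ^ z.ord a` has neither zeros nor poles on the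
  disc, `c * b` has a nonzero reduction of order zero at `P = sp Q`; `red_val`.  For `z ∈ T` outside the disc `z.val (ψ U)` is a unit and
  `Q.val (ψ U)` is in the maximal ideal.
-/

namespace Pool.Agent.Lef

open PR0 Pool.Agent.Ell.AT

variable {κ K κ' K' : Type} [Field κ] [Field K] [Algebra κ K] [Field κ'] [Field K'] [Algebra κ' K']
  {φ : κ →+* κ'} [IsAlgClosed κ] [IsAlgClosed κ'] [Fact (IsFF κ K)] [Fact (IsFF κ' K')]
  {ψ : K →+* K'} (h : BC φ ψ) {s : Spz φ} {a b : K'} {f U : K}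

theorem SpC_ord_prod (P : Place κ K) {ι : Type} (t : Finset ι) {u : ι → K}
    (hu : ∀ i ∈ t, u i ≠ 0) : P.ord (∏ i ∈ t, u i) = ∑ i ∈ t, P.ord (u i) := by
  induction t using Finset.cons_induction with
  | empty => simpa using P.ord_const (c := 1) one_ne_zero
  | cons i t hi ih =>
    have h2 : ∀ j ∈ t, u j ≠ 0 := fun j hj => hu j (Finset.mem_cons.2 (Or.inr hj))
    rw [Finset.prod_cons, Finset.sum_cons, P.ord_mul (hu i (Finset.mem_cons_self i t))
      (Finset.prod_ne_zero_iff.2 h2), ih h2]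

theorem SpC_val_prod (P : Place κ K) {ι : Type} (t : Finset ι) {u : ι → K}
    (hu : ∀ i ∈ t, u i ∈ P.1) : P.val (∏ i ∈ t, u i) = ∏ i ∈ t, P.val (u i) := by
  induction t using Finset.cons_induction with
  | empty => simpa using Place.val_const (P := P) 1
  | cons i t hi ih =>
    have h2 : ∀ j ∈ t, u j ∈ P.1 := fun j hj => hu j (Finset.mem_cons.2 (Or.inr hj))
    rw [Finset.prod_cons, Finset.prod_cons, Place.val_mul (hu i (Finset.mem_cons_self i t))
      (prod_mem h2), ih h2]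

theorem SpC_val_sub {P : Place κ K} (hf : f ∈ P.1) (c : κ) :
    P.val (f - algebraMap κ K c) = P.val f - c := by
  rw [sub_eq_add_neg, ← map_neg, Place.val_add hf (P.2.2 _), Place.val_const, sub_eq_add_neg]

open Classical in
theorem sp_sum (hb : Red s ψ b f) (hf : f ≠ 0) (P : Place κ K) {T : Finset (Place κ' K')}
    (hT : ∀ z, sp h s z = P → z.ord b ≠ 0 → z ∈ T) :
    ∑ z ∈ T.filter (fun z => sp h s z = P), z.ord b = P.ord f := by
  have hb0 : b ≠ 0 := hb.ne h hf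
  have e := DFunLike.congr_fun (sp_dv h hb hf) P
  have e0 : Finsupp.mapDomain (sp h s) (dv κ' b) P =
      ∑ z ∈ (dv κ' b).support.filter (fun z => sp h s z = P), dv κ' b z := by
    simp [Finsupp.mapDomain, Finsupp.sum, Finsupp.single_apply, Finset.sum_ite]
  rw [e0, dv_apply hf] at e
  rw [← e]
  symm
  refine (Finset.sum_subset ?_ ?_).trans (Finset.sum_congr rfl fun z _ => dv_apply hb0 z)
  · intro z hz
    rw [Finset.mem_filter, Finsupp.mem_support_iff, dv_apply hb0] at hz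
    exact Finset.mem_filter.2 ⟨hT z hz.2 hz.1, hz.2⟩
  · intro z hz hz'
    rw [Finset.mem_filter, Finsupp.mem_support_iff] at hz'
    by_contra h0
    exact hz' ⟨h0, (Finset.mem_filter.1 hz).2⟩

theorem SpC_le2 (hb : Red s ψ b f) (hf : f ≠ 0) {P : Place κ K}
    (hr : ∀ z, sp h s z = P → b ∈ z.1) {z z' : Place κ' K'} (hz : sp h s z = P)
    (hz' : sp h s z' = P) (hne : z ≠ z') : z.ord b + z'.ord b ≤ P.ord f := by
  classical
  have hb0 : b ≠ 0 := hb.ne h hf
  rw [← sp_sum h hb hf P (T := insert z (insert z' (finite_ord hb0).toFinset))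
    fun y _ hy => by simp [hy]]
  refine Finset.add_le_sum (f := fun y : Place κ' K' => y.ord b) (fun y hy => ?_) ?_ ?_ hne
  · exact (y.mem_iff.1 (hr y (Finset.mem_filter.1 hy).2)).resolve_left hb0
  · exact Finset.mem_filter.2 ⟨Finset.mem_insert_self _ _, hz⟩
  · exact Finset.mem_filter.2 ⟨Finset.mem_insert_of_mem (Finset.mem_insert_self _ _), hz'⟩

theorem SpC_le (hb : Red s ψ b f) (hf : f ≠ 0) {P : Place κ K}
    (hr : ∀ z, sp h s z = P → b ∈ z.1) {z : Place κ' K'} (hz : sp h s z = P) :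
    z.ord b ≤ P.ord f := by
  classical
  have hb0 : b ≠ 0 := hb.ne h hf
  rw [← sp_sum h hb hf P (T := insert z (finite_ord hb0).toFinset) fun y _ hy => by simp [hy]]
  refine Finset.single_le_sum (f := fun y : Place κ' K' => y.ord b) (fun y hy => ?_) ?_
  · exact (y.mem_iff.1 (hr y (Finset.mem_filter.1 hy).2)).resolve_left hb0
  · exact Finset.mem_filter.2 ⟨Finset.mem_insert_self _ _, hz⟩

theorem SpC_zero {z : Place κ' K'} (h1 : (sp h s z).ord U = 1) :
    ψ U ∈ z.1 ∧ z.val (ψ U) ∈ s.O ∧ s.ρ (z.val (ψ U)) = 0 := by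
  have hg : (sp h s z).Ge U 1 := Or.inr h1.ge
  have hm := (sp h s z).mem_iff.2 (hg.mono zero_le_one)
  refine ⟨((mem_sp h s).1 hm).1, ((mem_sp h s).1 hm).2, ?_⟩
  rw [← val_sp h s hm]
  exact (Place.val_eq_zero hm).2 hg

theorem SpC_red {z : Place κ' K'} (_hU : U ≠ 0) (h1 : (sp h s z).ord U = 1) :
    Red s ψ (ψ U - algebraMap κ' K' (z.val (ψ U))) U := by
  obtain ⟨-, h2, h3⟩ := SpC_zero h h1
  have r1 := (red_psi h (s := s) U).sub h (red_const h h2)
  rwa [h3, map_zero, sub_zero] at r1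

theorem red_val (hb : Red s ψ b f) {P : Place κ K} (hr : ∀ z, sp h s z = P → b ∈ z.1)
    {z : Place κ' K'} (hz : sp h s z = P) :
    f ∈ P.1 ∧ z.val b ∈ s.O ∧ s.ρ (z.val b) = P.val f := by
  have hbz := hr z hz
  have hc : z.val b ∈ s.O := by
    by_contra hc
    have hc0 : z.val b ≠ 0 := fun e => hc (e ▸ s.O.zero_mem)
    obtain ⟨h1, h2⟩ := Spz.ρ_inv_of_not_mem hc
    have r1 := (red_const h (s := s) s.O.one_mem).sub h ((red_const h h1).mul h hb)
    rw [h2, Spz.ρ_one, map_zero, zero_mul, sub_zero, map_one (algebraMap κ K)] at r1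
    have hle := SpC_le h r1 one_ne_zero (P := P)
      (fun z' hz' => sub_mem (z'.2.2 _) (mul_mem (z'.2.2 _) (hr z' hz'))) hz
    have e : algebraMap κ' K' 1 - algebraMap κ' K' (z.val b)⁻¹ * b =
        (-(z.val b)⁻¹) • (b - algebraMap κ' K' (z.val b)) := by
      rw [Algebra.smul_def, mul_sub, ← map_mul, neg_mul, inv_mul_cancel₀ hc0, map_neg, map_neg]
      ring
    have hge := (Place.ge_sub_val hbz).smul (-(z.val b)⁻¹)
    rw [← e] at hge
    have h3 := hge.resolve_left (r1.ne h one_ne_zero)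
    have h4 : P.ord (1 : K) = 0 := by simpa using P.ord_const (c := 1) one_ne_zero
    omega
  have r1 := hb.sub h (red_const h hc)
  have hge : P.Ge (f - algebraMap κ K (s.ρ (z.val b))) 1 := by
    by_cases h0 : f - algebraMap κ K (s.ρ (z.val b)) = 0
    · exact Or.inl h0
    · have hle := SpC_le h r1 h0 (P := P) (fun z' hz' => sub_mem (hr z' hz') (z'.2.2 _)) hz
      exact Or.inr (((Place.ge_sub_val hbz).resolve_left (r1.ne h h0)).trans hle)
  refine ⟨?_, hc, (Place.val_eq hge).symm⟩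
  have h5 := add_mem (P.mem_iff.2 (hge.mono zero_le_one)) (P.2.2 (s.ρ (z.val b)))
  rwa [sub_add_cancel] at h5

theorem disc_one {z : Place κ' K'} (hU : U ≠ 0) (h1 : (sp h s z).ord U = 1) :
    ψ U - algebraMap κ' K' (z.val (ψ U)) ≠ 0 ∧
      z.ord (ψ U - algebraMap κ' K' (z.val (ψ U))) = 1 ∧
      ∀ z', sp h s z' = sp h s z → z' ≠ z →
        z'.ord (ψ U - algebraMap κ' K' (z.val (ψ U))) = 0 := by
  have r1 := SpC_red h hU h1
  have h0 := r1.ne h hU
  have hr : ∀ z', sp h s z' = sp h s z → ψ U - algebraMap κ' K' (z.val (ψ U)) ∈ z'.1 :=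
    fun z' hz' => sub_mem (SpC_zero h (hz'.symm ▸ h1)).1 (z'.2.2 _)
  have h2 := (Place.ge_sub_val (SpC_zero h h1).1).resolve_left h0
  have h3 := SpC_le h r1 hU hr rfl
  refine ⟨h0, by omega, fun z' hz' hne => ?_⟩
  have h4 := SpC_le2 h r1 hU hr hz' rfl hne
  have h5 := (z'.mem_iff.1 (hr z' hz')).resolve_left h0
  omega

theorem disc_inj {z z' : Place κ' K'} (hU : U ≠ 0) (h1 : (sp h s z).ord U = 1)
    (e : sp h s z' = sp h s z) (e' : z'.val (ψ U) = z.val (ψ U)) : z' = z := by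
  by_contra hne
  obtain ⟨h0, -, h2⟩ := disc_one h hU h1
  have h3 := h2 z' e hne
  have h4 := Place.ge_sub_val (SpC_zero h (e.symm ▸ h1)).1
  rw [e'] at h4
  have h5 := h4.resolve_left h0
  omega

theorem loc_sym {c : κ'} (ha : Red s ψ (algebraMap κ' K' c * a) f) (hf : f ≠ 0)
    {Q : Place κ' K'} {T : Finset (Place κ' K')} (hQ : Q ∉ T)
    (hT : ∀ z, z.ord a ≠ 0 → z ∈ T) (hU : U ≠ 0) (h1 : (sp h s Q).ord U = 1)
    (h0 : ∀ z ∈ T, sp h s z ≠ sp h s Q → (sp h s z).ord U = 0) :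
    (∀ z ∈ T, Q.val (ψ U) - z.val (ψ U) ≠ 0) ∧
      (∀ z ∈ T, sp h s z ≠ sp h s Q → s.Un (Q.val (ψ U) - z.val (ψ U))) ∧
      s.Un (c * Q.val a / ∏ z ∈ T, (Q.val (ψ U) - z.val (ψ U)) ^ z.ord a) := by
  classical
  have : Pool.Agent.Ell.OddP := ⟨3, Nat.prime_three, by decide⟩
  obtain ⟨hQ1, hQ2, hQ3⟩ := SpC_zero h h1
  have p2 : ∀ z ∈ T, sp h s z ≠ sp h s Q → s.Un (Q.val (ψ U) - z.val (ψ U)) := by
    intro z hz hne
    obtain ⟨m1, m2⟩ := val_ne hU (h0 z hz hne)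
    rw [val_sp h s m1] at m2
    have m3 := ((mem_sp h s).1 m1).2
    refine ⟨sub_mem hQ2 m3, ?_⟩
    rw [Spz.ρ_sub hQ2 m3, hQ3, zero_sub]
    exact neg_ne_zero.2 m2
  have p1 : ∀ z ∈ T, Q.val (ψ U) - z.val (ψ U) ≠ 0 := by
    intro z hz
    by_cases e : sp h s z = sp h s Q
    · intro e'
      exact hQ (disc_inj h hU h1 e (sub_eq_zero.1 e').symm ▸ hz)
    · exact (p2 z hz e).ne
  refine ⟨p1, p2, ?_⟩
  have hca := ha.ne h hf
  have hc : c ≠ 0 := fun e => hca (by rw [e, map_zero, zero_mul])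
  have hc' : algebraMap κ' K' c ≠ 0 := left_ne_zero_of_mul hca
  have ha0 : a ≠ 0 := right_ne_zero_of_mul hca
  set T₁ := T.filter (fun z => sp h s z = sp h s Q) with hT₁
  have hd : ∀ z ∈ T₁, (sp h s z).ord U = 1 := fun z hz => (Finset.mem_filter.1 hz).2.symm ▸ h1
  let l : Place κ' K' → K' := fun z => ψ U - algebraMap κ' K' (z.val (ψ U))
  have hl0 : ∀ z ∈ T₁, l z ^ z.ord a ≠ 0 :=
    fun z hz => zpow_ne_zero _ (disc_one h hU (hd z hz)).1
  have hm0 : ∏ z ∈ T₁, l z ^ z.ord a ≠ 0 := Finset.prod_ne_zero_iff.2 hl0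
  have hU0 : ∏ z ∈ T₁, U ^ z.ord a ≠ 0 := Finset.prod_ne_zero_iff.2 fun z _ => zpow_ne_zero _ hU
  have rm : Red s ψ (∏ z ∈ T₁, l z ^ z.ord a) (∏ z ∈ T₁, U ^ z.ord a) :=
    red_prod h T₁ fun z hz => (SpC_red h hU (hd z hz)).zpow h hU _
  have rb := ha.div h rm hU0
  have hf' := div_ne_zero hf hU0
  have hb0 := rb.ne h hf'
  have hob : ∀ z', sp h s z' = sp h s Q →
      z'.ord (algebraMap κ' K' c * a / ∏ z ∈ T₁, l z ^ z.ord a) = 0 := by
    intro z' hz'
    rw [div_eq_mul_inv, z'.ord_mul hca (inv_ne_zero hm0), z'.ord_inv hm0, z'.ord_mul hc' ha0,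
      z'.ord_const hc, SpC_ord_prod z' T₁ hl0]
    have e : ∀ z ∈ T₁, z'.ord (l z ^ z.ord a) = if z' = z then z.ord a else 0 := by
      intro z hz
      obtain ⟨d0, d1, d2⟩ := disc_one h hU (hd z hz)
      rw [z'.ord_zpow d0]
      split_ifs with e
      · rw [e, d1, mul_one]
      · rw [d2 z' (hz'.trans (Finset.mem_filter.1 hz).2.symm) e, mul_zero]
    rw [Finset.sum_congr rfl e, Finset.sum_ite_eq]
    split_ifs with e'
    · omega
    · have e2 : z'.ord a = 0 := by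
        by_contra e2
        exact e' (Finset.mem_filter.2 ⟨hT z' e2, hz'⟩)
      omega
  have ho := sp_sum h rb hf' (sp h s Q) (T := ∅) fun z hz hz' => absurd (hob z hz) hz'
  rw [Finset.filter_empty, Finset.sum_empty] at ho
  obtain ⟨-, v1, v2⟩ := red_val h rb (fun z hz => (val_ne hb0 (hob z hz)).1) (z := Q) rfl
  have un : s.Un (Q.val (algebraMap κ' K' c * a / ∏ z ∈ T₁, l z ^ z.ord a)) :=
    ⟨v1, v2 ▸ (val_ne hf' ho.symm).2⟩
  have hQa : Q.ord a = 0 := by
    by_contra e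
    exact hQ (hT Q e)
  have hQl : ∀ z ∈ T₁, Q.ord (l z) = 0 := by
    intro z hz
    refine (disc_one h hU (hd z hz)).2.2 Q (Finset.mem_filter.1 hz).2.symm ?_
    rintro rfl
    exact hQ (Finset.mem_filter.1 hz).1
  have hQl' : ∀ z ∈ T₁, Q.ord (l z ^ z.ord a) = 0 := fun z hz => by
    rw [Q.ord_zpow (disc_one h hU (hd z hz)).1, hQl z hz, mul_zero]
  have hQm : Q.ord (∏ z ∈ T₁, l z ^ z.ord a) = 0 := by
    rw [SpC_ord_prod Q T₁ hl0]
    exact Finset.sum_eq_zero hQl'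
  have hv : Q.val (algebraMap κ' K' c * a / ∏ z ∈ T₁, l z ^ z.ord a) =
      c * Q.val a / ∏ z ∈ T₁, (Q.val (ψ U) - z.val (ψ U)) ^ z.ord a := by
    have mi : (∏ z ∈ T₁, l z ^ z.ord a)⁻¹ ∈ Q.1 :=
      (val_ne (inv_ne_zero hm0) (by rw [Q.ord_inv hm0, hQm, neg_zero])).1
    have ma := (val_ne ha0 hQa).1
    rw [div_eq_mul_inv, Place.val_mul (mul_mem (Q.2.2 c) ma) mi, Place.val_mul (Q.2.2 c) ma,
      Place.val_const, Sy_inv hm0 hQm,
      SpC_val_prod Q T₁ fun z hz => (val_ne (hl0 z hz) (hQl' z hz)).1, div_eq_mul_inv]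
    congr 2
    refine Finset.prod_congr rfl fun z hz => ?_
    rw [val_zpow (disc_one h hU (hd z hz)).1 (hQl z hz), SpC_val_sub hQ1]
  rw [hv] at un
  rw [← Finset.prod_filter_mul_prod_filter_not T (fun z => sp h s z = sp h s Q), ← div_div]
  exact un.div (Spz.un_prod _ fun z hz =>
    (p2 z (Finset.mem_filter.1 hz).1 (Finset.mem_filter.1 hz).2).zpow _)

end Pool.Agent.Lef
end

-- merged part: Pool.Agent.Work.MP_60d5ce_nt.Lb.FormB
section
/-!
# The group of divisor classes of degree zero is divisible  (task LB FormB)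

* `hahn`: `O = HO κ`; `hres`, `hres_eq_zero`, `mem_max_HO`.  `exists_emb`: `HahnSeries.ofPowerSeries ℝ κ`.
* `FormB_ev`: for `F : LS κ⟦X⟧` with `Ge 0` put `ev M F = ∑ l < M, emb (F.cf l) * r ^ l`; `ev M ((T 1 + c) * F) - (r + emb c) * ev M F ∈ r ^ M • O`.
  For `g ∈ (y i).1` write `g = ∑ l < M, (ex i g).cf l • U ^ l + U ^ M * g'` with `g' ∈ (y i).1` (`FD.ge`), so for `z` in the disc of `y i`, with
  `r = z.val (ψ U)`, the value `z.val (ψ g)` is `∑ l < M, φ (cf l) * r ^ l` modulo `r ^ M • O` (`mem_sp`).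
* `form_b`: `a = ∑ emb (α j) • ψ (v j)` has the reduction one (`red0_of_sum`).  `b i = ψ (U i) ^ m i * a` is regular on the disc of `y i`
  (`a ∈ Lsp (cn D)`, `BC.mem_Lsp` or directly; the only constant place of the disc is `up (y i)`), has the reduction `U i ^ m i`, so the sum of its orders on the disc
  is `m i` (`sp_sum`).  At a zero `z` in the disc `(r + emb (c i)) ^ m i * unit ∈ r ^ M • O` for all `M`, so `r = -emb (c i)` (compare `hv`; `0 < hv r`), and there is one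
  such `z = z i` (`disc_inj`).  On the other discs `a` is regular with reduction one, so has no zeros.  Hence
  `dv a = ∑ m i • (z i - up (y i))` (`disc_one` for `up (y i)`, or `ord_up` and `NC.ord`).  `z none` is not constant since its value at `ψ U` is `emb X`.
* `pic_div`: base change to `HF κ` (`exists_bc`); for a place `x` take `exists_spz` for `θ = ` the evaluation at `η` (`NC.exists_ev`); then `sp η = x`
  (`sp_eq_of_over`); `exists_red`, `sp_dv`, `sp_up`: `x - o + N • E'` is principal.  Sum over the support of `D`.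
-/

namespace Pool.Agent.Lef

open PR0 Pool.Agent.Ell.AT PowerSeries

variable {κ K : Type} [Field κ] [Field K] [Algebra κ K]

theorem FormB_nu {x : HF κ} : x ∈ (HO κ).nonunits ↔ 0 < hv x := by
  rw [ValuationSubring.mem_nonunits_iff_exists_mem_maximalIdeal]
  exact ⟨fun ⟨_, h⟩ => mem_max_HO.1 h, fun h => ⟨h.le, mem_max_HO.2 h⟩⟩

theorem FormB_res {x : HF κ} (hx : x ∈ HO κ) :
    x - algebraMap κ (HF κ) (x.ser.coeff 0) ∈ (HO κ).nonunits := by
  refine FormB_nu.2 ((Hahn_pos (sub_mem hx (const_mem _))).1 ?_)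
  change (x.ser - HahnSeries.single 0 (x.ser.coeff 0)).coeff 0 = 0
  simp

theorem FormB_arch {r x : HF κ} (hr : 0 < hv r) (h : ∀ M : ℕ, ∃ t ∈ HO κ, x = r ^ M * t) :
    x = 0 := by
  by_contra hx
  have h0 : r ≠ 0 := by
    rintro rfl
    obtain ⟨t, -, e⟩ := h 1
    exact hx (by rw [e, pow_one, zero_mul])
  obtain ⟨a, ha⟩ := Hahn_real hx
  obtain ⟨γ, hγ⟩ := Hahn_real h0
  rw [hγ] at hr
  obtain ⟨M, hM⟩ := exists_lt_nsmul (WithTop.coe_pos.1 hr) a
  obtain ⟨t, ht, e⟩ := h M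
  rw [e, hv_mul, hv_pow, hγ, ← WithTop.coe_nsmul] at ha
  exact hM.not_ge (WithTop.coe_le_coe.1 ((le_add_of_nonneg_right (mem_HO.1 ht)).trans_eq ha))

/-- the truncated value of a series at `r` -/
noncomputable def FormB_ev {R k : Type} [CommRing R] [Field k] (emb : R →+* k) (r : k) (M : ℕ)
    (F : LS R) : k := ∑ l ∈ Finset.range M, emb (F.cf l) * r ^ l

theorem FormB_T {R k : Type} [CommRing R] [Field k] (emb : R →+* k) (r : k) {F : LS R}
    (hF : F.Ge 0) (c : R) (M : ℕ) :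
    FormB_ev emb r M ((LS.T R 1 + algebraMap R (LS R) c) * F) =
      (r + emb c) * FormB_ev emb r M F - r ^ M * emb (F.cf (M - 1)) := by
  induction M with
  | zero => simp [FormB_ev, hF (-1) (by decide)]
  | succ M ih =>
    unfold FormB_ev at ih ⊢
    rw [Finset.sum_range_succ, Finset.sum_range_succ, ih, add_mul (LS.T R 1), LS.cf_add,
      LS.cf_T_mul, ← Algebra.smul_def, LS.cf_smul, Nat.cast_succ, add_sub_cancel_right, map_add,
      map_mul]
    ring

theorem FormB_pow {R k : Type} [CommRing R] [Field k] (emb : R →+* k) (O : ValuationSubring k)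
    (he : ∀ a, emb a ∈ O) {r : k} (hr : r ∈ O) {w : LS R} (hw : w.Ge 0) (c : R) (M m : ℕ) :
    ∃ t ∈ O, FormB_ev emb r M ((LS.T R 1 + algebraMap R (LS R) c) ^ m * w) =
      (r + emb c) ^ m * FormB_ev emb r M w + r ^ M * t := by
  induction m with
  | zero => exact ⟨0, zero_mem _, by simp⟩
  | succ m ih =>
    obtain ⟨t, ht, e⟩ := ih
    have h1 : ((LS.T R 1 + algebraMap R (LS R) c) ^ m * w).Ge 0 :=
      (((((LS.ge_T 1).mono zero_le_one).add (LS.ge_algebraMap c)).pow m).mul hw).mono (by simp)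
    refine ⟨_, sub_mem (mul_mem (add_mem hr (he c)) ht)
      (he (((LS.T R 1 + algebraMap R (LS R) c) ^ m * w).cf (M - 1))), ?_⟩
    rw [pow_succ', mul_assoc, FormB_T emb r h1, e]
    ring

theorem exists_hahn (κ : Type) [Field κ] : ∃ s : Spz (algebraMap κ (HF κ)), s.O = HO κ := by
  exact ⟨⟨HO κ, const_mem, fun _ ha => ⟨_, FormB_res ha⟩⟩, rfl⟩

theorem exists_emb (s : Spz (algebraMap κ (HF κ))) (hs : s.O = HO κ) :
    ∃ emb : κ⟦X⟧ →+* HF κ, (∀ a, emb a ∈ s.O ∧ s.ρ (emb a) = constantCoeff a) ∧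
      (∀ c, emb (C c) = algebraMap κ (HF κ) c) ∧ emb X ≠ 0 := by
  have h1 : ∀ a : κ⟦X⟧, (HahnSeries.ofPowerSeries ℝ κ a : HF κ) ∈ HO κ := fun a =>
    HahnSeries.le_orderTop_iff_forall.2 fun γ hγ => HahnSeries.embDomain_of_notMem_range (by
      rintro ⟨n, rfl⟩
      exact absurd (WithTop.coe_lt_coe.1 hγ) (not_lt.2 n.cast_nonneg))
  refine ⟨(HahnSeries.ofPowerSeries ℝ κ : κ⟦X⟧ →+* HahnSeries ℝ κ), fun a => ⟨hs ▸ h1 a, ?_⟩,
    fun c => HahnSeries.ofPowerSeries_C c, fun e => X_ne_zero (R := κ)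
      (HahnSeries.ofPowerSeries_injective (Γ := ℝ) (e.trans (map_zero _).symm))⟩
  refine Spz.ρ_eq ?_
  have h2 := HahnSeries.ofPowerSeries_apply_coeff (Γ := ℝ) a 0
  rw [Nat.cast_zero, coeff_zero_eq_constantCoeff_apply] at h2
  rw [hs, ← h2]
  exact FormB_res (h1 a)

variable [IsAlgClosed κ] [Fact (IsFF κ K)]

section disc

variable {κ' K' : Type} [Field κ'] [Field K'] [Algebra κ' K'] [IsAlgClosed κ'] [Fact (IsFF κ' K')]
  {φ : κ →+* κ'} {ψ : K →+* K'} (h : BC φ ψ) {s : Spz φ} {P : Place κ K} {U : K}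
  {z : Place κ' K'}

theorem FormB_mem (hz : sp h s z = P) {g : K} (hg : g ∈ P.1) :
    ψ g ∈ z.1 ∧ z.val (ψ g) ∈ s.O := (mem_sp h s).1 (hz ▸ hg)

theorem FormB_exp (hU : U ≠ 0) (h1 : P.ord U = 1) (ex : K →ₐ[κ] LS κ) (hT : ex U = LS.T κ 1)
    (hge : ∀ f n, P.Ge f n ↔ (ex f).Ge n) (hz : sp h s z = P) (M : ℕ) :
    ∀ g ∈ P.1, ∃ t ∈ s.O, z.val (ψ g) =
      FormB_ev φ (z.val (ψ U)) M (ex g) + z.val (ψ U) ^ M * t := by
  induction M with
  | zero => exact fun g hg => ⟨_, (FormB_mem h hz hg).2, by simp [FormB_ev]⟩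
  | succ M ih =>
    intro g hg
    have k1 : P.Ge (g - algebraMap κ K ((ex g).cf 0)) 1 := (hge _ _).2 fun k hk => by
      rw [map_sub, AlgHom.commutes, LS.cf_sub, LS.cf_algebraMap]
      split_ifs with e
      · rw [e, sub_self]
      · rw [(hge _ _).1 (P.mem_iff.1 hg) k (by omega), sub_zero]
    have k2 := P.mem_iff.2 ((rr_ge_div hU k1).mono (by omega))
    have k3 : g = algebraMap κ K ((ex g).cf 0) + U * ((g - algebraMap κ K ((ex g).cf 0)) * U⁻¹) := by
      field_simp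
      ring
    generalize (g - algebraMap κ K ((ex g).cf 0)) * U⁻¹ = g' at k2 k3
    obtain ⟨t, ht, e⟩ := ih g' k2
    have k4 : ∀ l : ℕ, (ex g).cf ((l + 1 : ℕ) : ℤ) = (ex g').cf l := fun l => by
      rw [k3, map_add, map_mul, hT, AlgHom.commutes, LS.cf_add, LS.cf_T_mul, LS.cf_algebraMap,
        if_neg (by omega), zero_add, Nat.cast_succ, add_sub_cancel_right]
    have k5 := (FormB_mem h hz (P.mem_iff.2 (Or.inr (by omega) : P.Ge U 0))).1
    have k6 := (FormB_mem h hz k2).1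
    have k7 : z.val (ψ g) = φ ((ex g).cf 0) + z.val (ψ U) * z.val (ψ g') := by
      conv_lhs => rw [k3]
      rw [map_add, map_mul, h.comm, Place.val_add (z.2.2 _) (mul_mem k5 k6), Place.val_mul k5 k6,
        Place.val_const]
    refine ⟨t, ht, ?_⟩
    rw [k7, e]
    simp only [FormB_ev, Finset.sum_range_succ', k4, pow_succ, ← mul_assoc, ← Finset.sum_mul,
      Nat.cast_zero]
    ring

theorem FormB_zero (hU : U ≠ 0) (h1 : P.ord U = 1) (ex : K →ₐ[κ] LS κ) (hT : ex U = LS.T κ 1)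
    (hge : ∀ f n, P.Ge f n ↔ (ex f).Ge n) (hz : sp h s z = P) (emb : κ⟦X⟧ →+* κ')
    (he : ∀ a, emb a ∈ s.O ∧ s.ρ (emb a) = constantCoeff a) (hC : ∀ c, emb (C c) = φ c)
    (har : ∀ r x : κ', r ∈ s.O → s.ρ r = 0 → (∀ M : ℕ, ∃ t ∈ s.O, x = r ^ M * t) → x = 0)
    {n m : ℕ} (hm : m ≠ 0) {g : Fin n → K} (hg : ∀ j, g j ∈ P.1) {α : Fin n → κ⟦X⟧} {c : κ⟦X⟧}
    {w : LS κ⟦X⟧} (hw : w.Ge 0) (hw1 : constantCoeff (w.cf 0) = 1)
    (e : ∑ j, α j • LS.map (C : κ →+* κ⟦X⟧) (ex (g j)) =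
      (LS.T κ⟦X⟧ 1 + algebraMap κ⟦X⟧ (LS κ⟦X⟧) c) ^ m * w)
    (h0 : z.val (∑ j, emb (α j) • ψ (g j)) = 0) : z.val (ψ U) = -emb c := by
  have hUP : U ∈ P.1 := P.mem_iff.2 (Or.inr (by omega))
  have hr := (FormB_mem h hz hUP).2
  have hr0 : s.ρ (z.val (ψ U)) = 0 := by
    rw [← val_sp h s (hz ▸ hUP), hz]
    exact (Place.val_eq_zero hUP).2 (Or.inr h1.ge)
  rw [BC_val_sum z _ fun j _ => BC_smul_mem z _ (FormB_mem h hz (hg j)).1,
    Finset.sum_congr rfl fun j _ => BC_val_smul z _ (FormB_mem h hz (hg j)).1] at h0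
  have hx := fun M j => FormB_exp h hU h1 ex hT hge hz M _ (hg j)
  generalize z.val (ψ U) = r at hr hr0 hx ⊢
  refine eq_neg_of_add_eq_zero_left ((pow_eq_zero_iff hm).1 (har r _ hr hr0 fun M => ?_))
  choose t ht k1 using hx (M + 1)
  obtain ⟨t', ht', k2⟩ := FormB_pow emb s.O (fun a => (he a).1) hr hw c (M + 1) m
  have k3 : FormB_ev emb r (M + 1) (∑ j, α j • LS.map (C : κ →+* κ⟦X⟧) (ex (g j))) =
      ∑ j, emb (α j) * FormB_ev φ r (M + 1) (ex (g j)) := by
    simp only [FormB_ev, LS.cf_sum, LS.cf_smul, LS.cf_map, map_sum, map_mul, hC, Finset.sum_mul,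
      Finset.mul_sum, mul_assoc]
    exact Finset.sum_comm
  have k4 : ∑ l ∈ Finset.range M, emb (w.cf ((l + 1 : ℕ) : ℤ)) * r ^ l ∈ s.O :=
    sum_mem fun l _ => mul_mem (he _).1 (pow_mem hr _)
  have k5 : s.Un (FormB_ev emb r (M + 1) w) := by
    simp only [FormB_ev, Finset.sum_range_succ', pow_succ, ← mul_assoc, ← Finset.sum_mul,
      Nat.cast_zero, pow_zero, mul_one]
    refine ⟨add_mem (mul_mem k4 hr) (he _).1, ?_⟩
    rw [Spz.ρ_add (mul_mem k4 hr) (he _).1, Spz.ρ_mul k4 hr, hr0, mul_zero, zero_add, (he _).2, hw1]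
    exact one_ne_zero
  obtain ⟨k6, -, k7⟩ := Spz.un_iff.1 k5
  have k8 : ∑ j, emb (α j) * t j ∈ s.O := sum_mem fun j _ => mul_mem (he _).1 (ht j)
  refine ⟨_, mul_mem (mul_mem hr (neg_mem (add_mem k8 ht'))) k7, ?_⟩
  simp only [k1, mul_add, Finset.sum_add_distrib, mul_left_comm _ (r ^ (M + 1)),
    ← Finset.mul_sum] at h0
  rw [← k3, e, k2] at h0
  rw [← mul_assoc, eq_mul_inv_iff_mul_eq₀ k6]
  linear_combination h0

theorem FormB_disc (hU : U ≠ 0) (h1 : P.ord U = 1) {b : K'} {f : K} (hb : Red s ψ b f)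
    (hf : f ≠ 0) (hm : P.ord f ≠ 0) (hr : ∀ z, sp h s z = P → b ∈ z.1) {x : κ'}
    (hx : ∀ z, sp h s z = P → z.val b = 0 → z.val (ψ U) = x) :
    ∃ z₀, sp h s z₀ = P ∧ z₀.val (ψ U) = x ∧ z₀.ord b = P.ord f ∧
      ∀ z, sp h s z = P → z ≠ z₀ → z.ord b = 0 := by
  classical
  have h0 := hb.ne h hf
  have k1 := sp_sum h hb hf P (T := (finite_ord h0).toFinset) fun z _ hz =>
    (Set.Finite.mem_toFinset _).2 hz
  have k2 : ∀ z, sp h s z = P → z.ord b ≠ 0 → z.val (ψ U) = x := fun z hz k =>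
    hx z hz ((Place.val_eq_zero (hr z hz)).2 (Or.inr (by
      have := (z.mem_iff.1 (hr z hz)).resolve_left h0
      omega)))
  obtain ⟨z₀, k3, k4⟩ := Finset.exists_ne_zero_of_sum_ne_zero (k1.trans_ne hm)
  have k5 := (Finset.mem_filter.1 k3).2
  have k6 : ∀ z, sp h s z = P → z ≠ z₀ → z.ord b = 0 := fun z hz k => by_contra fun k' =>
    k (disc_inj h hU (k5 ▸ h1) (hz.trans k5.symm) ((k2 z hz k').trans (k2 z₀ k5 k4).symm))
  refine ⟨z₀, k5, k2 z₀ k5 k4, ?_, k6⟩
  rw [← k1, Finset.sum_eq_single_of_mem z₀ k3 fun z hz k => k6 z (Finset.mem_filter.1 hz).2 k]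

end disc

theorem form_b {K' : Type} [Field K'] [Algebra (HF κ) K'] [Fact (IsFF (HF κ) K')] {ψ : K →+* K'}
    (h : BC (algebraMap κ (HF κ)) ψ) {N : ℕ} (hN : (N : κ) ≠ 0) :
    ∃ (o : Place κ K) (η : Place (HF κ) K') (a : K') (E : Dv (HF κ) K'), NC ψ η ∧ a ≠ 0 ∧
      dv (HF κ) a = Finsupp.single η 1 - Finsupp.single (up h o) 1 + N • E := by
  classical
  obtain ⟨s, hs⟩ := exists_hahn κ
  obtain ⟨emb, he, hC, hX⟩ := exists_emb s hs
  obtain ⟨ng, ⟨d⟩⟩ := exists_fd κ K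
  obtain ⟨n, v, α, c, w, hv', h1, hc, hw⟩ := d.form_a hN
  have hm : ∀ i : Option (Fin ng), mlt N i ≠ 0 := fun i => by
    cases i with
    | none => exact one_ne_zero
    | some i => exact fun e : N = 0 => hN (by rw [e, Nat.cast_zero])
  have har : ∀ r x : HF κ, r ∈ s.O → s.ρ r = 0 → (∀ M : ℕ, ∃ t ∈ s.O, x = r ^ M * t) → x = 0 :=
    fun r x hr h0 hx => FormB_arch (FormB_nu.1 (hs ▸ (Spz.ρ_eq_zero hr).1 h0)) (hs ▸ hx)
  have ha : Red s ψ (∑ j, emb (α j) • ψ (v j)) 1 := by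
    have := (red0_of_sum (ψ := ψ) Finset.univ (fun j => emb (α j)) v fun j _ => (he _).1).red h
    simpa only [fun a => (he a).2, h1] using this
  have hD : ∀ i, d.D N (d.y i) = mlt N i := fun i => by
    rw [FD.D, Finsupp.finsetSum_apply, Finset.sum_eq_single_of_mem i (Finset.mem_univ i)
      fun j _ hj => Finsupp.single_eq_of_ne (d.inj.ne hj.symm), Finsupp.single_eq_same]
  have hD' : ∀ P, (∀ i, P ≠ d.y i) → d.D N P = 0 := fun P hP => by
    rw [FD.D, Finsupp.finsetSum_apply]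
    exact Finset.sum_eq_zero fun i _ => Finsupp.single_eq_of_ne (hP i)
  have hg : ∀ i j, d.U i ^ mlt N i * v j ∈ (d.y i).1 := fun i j =>
    (d.y i).mem_iff.2 (((Place.Ge.pow (Or.inr (d.ord i).ge) (mlt N i)).mul
      (hv' j (d.y i))).mono (by rw [hD]; omega))
  have hb : ∀ i, ψ (d.U i) ^ mlt N i * ∑ j, emb (α j) • ψ (v j) =
      ∑ j, emb (α j) • ψ (d.U i ^ mlt N i * v j) := fun i => by
    simp only [Finset.mul_sum, map_mul, map_pow, mul_smul_comm]
  have ho : ∀ i, (d.y i).ord (d.U i ^ mlt N i * 1) = mlt N i := fun i => by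
    rw [mul_one, Place.ord_pow _ (d.ne i), d.ord, mul_one]
  choose zz z1 z2 z3 z4 using fun i => FormB_disc h (d.ne i) (d.ord i)
    (((red_psi h (d.U i)).pow h (mlt N i)).mul h ha)
    (mul_ne_zero (pow_ne_zero _ (d.ne i)) one_ne_zero) (by rw [ho]; exact_mod_cast hm i)
    (fun z hz => by
      rw [hb]
      exact sum_mem fun j _ => BC_smul_mem z _ (FormB_mem h hz (hg i j)).1)
    fun z hz h0 => FormB_zero h (d.ne i) (d.ord i) (d.ex i) (d.ex_U i) (d.ge i) hz emb he hC har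
      (hm i) (hg i) (hw i).2.1 (hw i).2.2.1 (hw i).2.2.2 (hb i ▸ h0)
  have hreg : ∀ P, (∀ i, P ≠ d.y i) → ∀ z, sp h s z = P → ∑ j, emb (α j) • ψ (v j) ∈ z.1 :=
    fun P hP z hz => sum_mem fun j _ => BC_smul_mem z _ (FormB_mem h hz
      (P.mem_iff.2 ((hv' j P).mono (by rw [hD' P hP, neg_zero])))).1
  generalize ∑ j, emb (α j) • ψ (v j) = a at ha z3 z4 hreg
  have h0 := ha.ne h one_ne_zero
  have hdv : dv (HF κ) a = ∑ i, mlt N i •
      (Finsupp.single (zz i) 1 - Finsupp.single (up h (d.y i)) 1 : Dv (HF κ) K') := by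
    ext z
    have k1 : ∀ i, sp h s z ≠ d.y i → (mlt N i •
        (Finsupp.single (zz i) 1 - Finsupp.single (up h (d.y i)) 1 : Dv (HF κ) K')) z = 0 :=
      fun i hi => by
        rw [Finsupp.smul_apply, Finsupp.sub_apply,
          Finsupp.single_eq_of_ne fun e => hi (by rw [e, z1]),
          Finsupp.single_eq_of_ne fun e => hi (by rw [e, sp_up]), sub_self, smul_zero]
    rw [dv_apply h0, Finsupp.finsetSum_apply]
    by_cases hz : ∃ i, sp h s z = d.y i
    · obtain ⟨i, hi⟩ := hz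
      have k2 := (map_ne_zero ψ).2 (d.ne i)
      have k3 := z.ord_mul (pow_ne_zero (mlt N i) k2) h0
      have k4 : z.ord (ψ (d.U i)) = Finsupp.single (up h (d.y i)) (1 : ℤ) z := by
        rcases up_or h z with ⟨Q, rfl⟩ | k
        · rw [sp_up] at hi
          rw [hi, ord_up h _ (d.ne i), d.ord, Finsupp.single_eq_same]
        · rw [k.ord (d.ne i), Finsupp.single_eq_of_ne (k.ne_up h _)]
      have k5 : z.ord (ψ (d.U i) ^ mlt N i * a) = mlt N i * Finsupp.single (zz i) (1 : ℤ) z := by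
        by_cases e : z = zz i
        · rw [e, z3, ho, Finsupp.single_eq_same, mul_one]
        · rw [z4 i z hi e, Finsupp.single_eq_of_ne e, mul_zero]
      rw [Finset.sum_eq_single_of_mem i (Finset.mem_univ i) fun j _ hj =>
        k1 j (hi ▸ d.inj.ne hj.symm), Finsupp.smul_apply, Finsupp.sub_apply, ← k4, nsmul_eq_mul,
        mul_sub, ← k5, k3, z.ord_pow k2, add_sub_cancel_left]
    · push Not at hz
      rw [Finset.sum_eq_zero fun i _ => k1 i (hz i)]
      refine (BC_unit (hreg _ hz z rfl) fun e => ?_).2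
      have k2 := (red_val h ha (hreg _ hz) rfl).2.2
      rw [e, Spz.ρ_zero, ← map_one (algebraMap κ K), Place.val_const] at k2
      exact zero_ne_one k2
  refine ⟨d.y none, zz none, a, ∑ i : Fin ng, (Finsupp.single (zz (some i)) 1 -
    Finsupp.single (up h (d.y (some i))) 1), (up_or h _).resolve_left ?_, h0, ?_⟩
  · rintro ⟨Q, e⟩
    have k1 := z1 none
    have k2 := z2 none
    have k3 : (d.y none).Ge (d.U none) 1 := Or.inr (d.ord none).ge
    have k4 := (d.y none).mem_iff.2 (k3.mono zero_le_one)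
    rw [e, sp_up] at k1
    rw [e, k1, val_up h k4, (Place.val_eq_zero k4).2 k3, map_zero, hc, map_neg, neg_neg] at k2
    exact hX k2.symm
  · rw [hdv, Fintype.sum_option, Finset.smul_sum]
    exact congrArg₂ _ (one_smul _ _) rfl

theorem pic_div {N : ℕ} (hN : (N : κ) ≠ 0) {D : Dv κ K} (hD : dg D = 0) :
    ∃ (a : K) (E : Dv κ K), a ≠ 0 ∧ dv κ a = D + N • E := by
  obtain ⟨K', _, _, _, ψ, h⟩ := exists_bc (L := K) (algebraMap κ (HF κ))
  obtain ⟨o, η, a, E, h1, h2, h3⟩ := form_b h hN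
  have key : ∀ x : Place κ K, ∃ E' : Dv κ K,
      cl (Finsupp.single x 1 - Finsupp.single o 1 + N • E') = 0 := fun x => by
    obtain ⟨θ, k1, k2⟩ := h1.exists_ev h
    obtain ⟨s, k3⟩ := exists_spz θ k2 x
    have k4 := sp_eq_of_over h s h1 (x := x) fun f => k1 f ▸ k3 f
    obtain ⟨c, f, k5, k6, k7⟩ := exists_red h s h2
    have k8 := sp_dv h k7 k6
    rw [dv_mul ((map_ne_zero _).2 k5) h2, dv_const, zero_add, h3] at k8
    change Finsupp.mapDomain.addMonoidHom (sp h s) _ = _ at k8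
    rw [map_add, map_sub, map_nsmul] at k8
    simp only [Finsupp.mapDomain.addMonoidHom_apply, Finsupp.mapDomain_single, k4, sp_up] at k8
    exact ⟨_, k8 ▸ cl_dv f⟩
  have all : ∀ D : Dv κ K, ∃ E' : Dv κ K, cl (D - dg D • Finsupp.single o 1 + N • E') = 0 := by
    intro D
    induction D using Finsupp.induction_linear with
    | zero => exact ⟨0, by simp [rr_dg_zero]⟩
    | add D D' k1 k2 =>
      obtain ⟨E1, k1⟩ := k1
      obtain ⟨E2, k2⟩ := k2
      refine ⟨E1 + E2, ?_⟩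
      rw [dg_add, add_smul, smul_add, add_sub_add_comm, add_add_add_comm, map_add, k1, k2, add_zero]
    | single x n =>
      obtain ⟨E1, k1⟩ := key x
      refine ⟨n • E1, ?_⟩
      rw [dg_single, ← Finsupp.smul_single_one x n, smul_comm N, ← smul_sub, ← smul_add, map_zsmul,
        k1, smul_zero]
  obtain ⟨E', k⟩ := all D
  rw [hD, zero_smul, sub_zero] at k
  obtain ⟨f, k1, k2⟩ := cl_eq_zero.1 k
  exact ⟨f, E', k1, k2⟩

end Pool.Agent.Lef
end

-- merged part: Pool.Agent.Work.MP_60d5ce_nt.Lb.Gen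
section
/-!
# The generic point  (task LB Gen)

* `exists_gen`: `exists_bc`; `tl σ` from `exists_sa` with `γ = 1`; multiplicative by `sa_ext`.
* `exists_pt`: `BC.exists_generic`.  `IsPt.smul`: `val_smul`, `NC.ext`.
* `root`: `exists_kumD` for the finite set of the places `P` in `S`, equal to `o`, or with `up P` in the support of `E` or of `dv a`; divide `f` by its value at `o`.
  `recip` for `a` and `ψ f` in `K'`: `evD (dv a) (ψ f) = f * 1⁻¹ * evD E (ψ f) ^ N`, `evD (dv (ψ f)) a = evD (cn D) a ^ N`.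
* `tau_we`: take `KD N ft Dt` for the class (`exists_kumD`), `tl σ • E - E = cn Dt + dv r`, so `sl (tl σ) a / a = constant * ψ ft * r ^ N`.  Take `f`, `D`, `β` from `root`, with `D` avoiding `Dt` and the
  constant places in the support of `tl σ • E`.  `σ β = evD (cn D) (sl (tl σ) a) / evD (tl σ • E) (ψ f)` (`evD_smul`, `smul_cn`), `recip` for `r` and `ψ f`, `we_eq`, `kc_spec`.
-/

namespace Pool.Agent.Lef

open PR0 Pool.Agent.Ell.AT

variable {κ K Ω K' : Type} [Field κ] [Field K] [Field Ω] [Field K'] [Algebra κ K] [Algebra K Ω]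
  [Algebra κ Ω] [Algebra Ω K']

variable (κ K Ω K') in
/-- the base change to the algebraic closure of `K` with the Galois action -/
structure Gen where
  ψ : K →+* K'
  bc : BC (algebraMap κ Ω) ψ
  tl : (Ω ≃ₐ[K] Ω) →* SA Ω K'
  tl_c : ∀ σ c, sc (tl σ) c = σ c
  tl_ψ : ∀ σ f, sl (tl σ) (ψ f) = ψ f

/-- the place attached to an endomorphism -/
def Gen.IsPt (X : Gen κ K Ω K') (θ : K →+* K) (z : Place Ω K') : Prop :=
  ∀ f, X.ψ f ∈ z.1 ∧ z.val (X.ψ f) = algebraMap K Ω (θ f)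

/-- Frobenius automorphisms -/
structure IsFr (p : ℕ) (γ : SA κ K) (Q : ℕ) : Prop where
  pow : ∃ f, 0 < f ∧ Q = p ^ f
  c : ∀ c, sc γ c = c ^ Q
  fix : ∃ t : K, Transcendental κ t ∧ sl γ t = t

variable [IsScalarTower κ K Ω] [IsAlgClosed κ] [Fact (IsFF κ K)] [IsAlgClosed Ω]

variable (κ K Ω) in
theorem exists_gen : ∃ (K' : Type) (_ : Field K') (_ : Algebra Ω K') (_ : Fact (IsFF Ω K')),
    Nonempty (Gen κ K Ω K') := by
  obtain ⟨K', i1, i2, i3, ψ, h⟩ := exists_bc (L := K) (algebraMap κ Ω)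
  have h1 : ∀ σ : Ω ≃ₐ[K] Ω, ∃ Φ : SA Ω K', sc Φ = (σ : Ω ≃+* Ω) ∧
      ∀ f, sl Φ (ψ f) = ψ (sl (1 : SA κ K) f) := fun σ => exists_sa h _ 1 fun c => by
    change σ (algebraMap κ Ω c) = algebraMap κ Ω c
    rw [IsScalarTower.algebraMap_apply κ K Ω, σ.commutes]
  choose Φ h2 h3 using h1
  have h4 : ∀ σ c, sc (Φ σ) c = σ c := fun σ c => by rw [h2]; rfl
  have h5 : ∀ σ f, sl (Φ σ) (ψ f) = ψ f := h3
  refine ⟨K', i1, i2, i3, ⟨⟨ψ, h, MonoidHom.mk' Φ fun σ σ' => sa_ext h (fun c => ?_) fun f => ?_,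
    h4, h5⟩⟩⟩
  · rw [map_mul, RingAut.mul_apply, h4, h4, h4, AlgEquiv.mul_apply]
  · rw [map_mul, RingAut.mul_apply, h5, h5, h5]

namespace Gen

variable [Fact (IsFF Ω K')] (X : Gen κ K Ω K')

theorem exists_pt (θ : K →+* K) (hθ : ∀ c, θ (algebraMap κ K c) = algebraMap κ K c) :
    ∃ z, X.IsPt θ z :=
  (X.bc.exists_generic ((algebraMap K Ω).comp θ) fun c => by
    rw [RingHom.comp_apply, hθ, ← IsScalarTower.algebraMap_apply]).exists

variable {X} in
theorem IsPt.smul {θ : K →+* K} {z : Place Ω K'} (h : X.IsPt θ z) (σ : Ω ≃ₐ[K] Ω) :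
    X.tl σ • z = z := by
  refine NC.ext X.bc (fun f => ?_) (fun f => (h f).1) fun f => ?_
  · rw [← X.tl_ψ σ f]
    exact sl_mem.2 (h f).1
  · have h1 := val_smul (X.tl σ) z (h f).1
    rw [X.tl_ψ, X.tl_c, (h f).2, σ.commutes] at h1
    rw [h1, (h f).2]

theorem smul_up (σ : Ω ≃ₐ[K] Ω) (P : Place κ K) : X.tl σ • up X.bc P = up X.bc P := by
  rw [Lef.smul_up X.bc (γ := 1) (X.tl_ψ σ), one_smul]

theorem smul_cn (σ : Ω ≃ₐ[K] Ω) (D : Dv κ K) : X.tl σ • cn X.bc D = cn X.bc D := by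
  rw [Lef.smul_cn X.bc (γ := 1) (X.tl_ψ σ), one_smul]

theorem Gen_fin (E : Dv Ω K') : {P : Place κ K | E (up X.bc P) ≠ 0}.Finite :=
  (E.hasFiniteSupport.preimage (up_inj X.bc).injOn :)

theorem Gen_dj {D : Dv κ K} {E : Dv Ω K'} (h : ∀ P, E (up X.bc P) ≠ 0 → D P = 0) :
    Dj (cn X.bc D) E := fun z => by
  rcases up_or X.bc z with ⟨P, rfl⟩ | hz
  · rw [cn_up]
    exact or_iff_not_imp_right.2 (h P)
  · exact Or.inl (cn_nc X.bc D hz)

theorem Gen_single {z : Place Ω K'} {g : K'} (hg : g ≠ 0) (h : z.ord g = 0) :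
    Off (Finsupp.single z 1) g :=
  ⟨hg, fun P hP => by rwa [(Finsupp.single_apply_ne_zero.1 hP).1]⟩

variable {η : Place Ω K'} (hη : X.IsPt (RingHom.id K) η) {o : Place κ K} {a : K'} {E : Dv Ω K'}
  {N : ℕ} (hN : N ≠ 0) (ha : a ≠ 0)
  (hE : dv Ω a = Finsupp.single η 1 - Finsupp.single (up X.bc o) 1 + N • E)

include hη hN ha hE

theorem root {b : Pic κ K} (hb : N • b = 0) {S : Set (Place κ K)} (hS : S.Finite) :
    ∃ (f : K) (D : Dv κ K), KD N f D ∧ cl D = b ∧ (∀ P ∈ S, D P = 0) ∧ Off (cn X.bc D) a ∧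
      Off E (X.ψ f) ∧ (evD (cn X.bc D) a / evD E (X.ψ f)) ^ N = algebraMap K Ω f := by
  obtain ⟨f, D, h1, h2, h3⟩ := exists_kumD hb
    (((hS.insert o).union (X.Gen_fin E)).union (X.Gen_fin (dv Ω a)))
  have ho : o.ord f = 0 := by
    rw [← dv_apply h1.1, h1.2, Finsupp.smul_apply, h3 o (Or.inl (Or.inl (Or.inl rfl))), smul_zero]
  have hv : o.val f ≠ 0 := fun h =>
    ((Place.val_eq_zero ((Sa_mem o h1.1).2 ho.ge)).1 h).elim h1.1 fun h => by omega
  have hc : algebraMap κ K (o.val f)⁻¹ ≠ 0 := (map_ne_zero _).2 (inv_ne_zero hv)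
  have h4 : KD N (f * algebraMap κ K (o.val f)⁻¹) D :=
    ⟨mul_ne_zero h1.1 hc, by rw [dv_mul h1.1 hc, dv_const, add_zero, h1.2]⟩
  have h5 : o.val (f * algebraMap κ K (o.val f)⁻¹) = 1 := by
    rw [Place.val_mul ((Sa_mem o h1.1).2 ho.ge) (o.2.2 _), Place.val_const, mul_inv_cancel₀ hv]
  have h6 : o.ord (f * algebraMap κ K (o.val f)⁻¹) = 0 := by
    rw [o.ord_mul h1.1 hc, ho, o.ord_const (inv_ne_zero hv), add_zero]
  generalize f * algebraMap κ K (o.val f)⁻¹ = g at h4 h5 h6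
  have k1 := h4.cn X.bc
  have d1 : Dj (cn X.bc D) E := X.Gen_dj fun P hP => h3 P (Or.inl (Or.inr hP))
  have d2 : Dj (cn X.bc D) (dv Ω a) := X.Gen_dj fun P hP => h3 P (Or.inr hP)
  have o1 := Gen_single k1.1 (NC.ord (fun f => (hη f).1) h4.1)
  have o2 := Gen_single k1.1 ((ord_up X.bc o h4.1).trans h6)
  have h7 := recip ha (k1.off d2)
  rw [hE, k1.2, evD_add (o1.sub o2) ((k1.off d1).nsmul N), evD_sub o1 o2, evD_nsmul, evD_nsmul,
    evD_single, evD_single, zpow_one, zpow_one, (hη g).2,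
    val_up X.bc ((Sa_mem o h4.1).2 h6.ge), h5, map_one, div_one, RingHom.id_apply] at h7
  refine ⟨g, D, h4, h2, fun P hP => h3 P (Or.inl (Or.inl (Or.inr hP))), off_iff.2 ⟨ha, d2⟩,
    k1.off d1, ?_⟩
  rw [div_pow, ← h7, mul_div_cancel_right₀ _ (pow_ne_zero N (k1.off d1).evD_ne)]

theorem tau_we {ζ : κ} (hζ : IsPrimitiveRoot ζ N) (σ : Ω ≃ₐ[K] Ω) {D : Dv κ K}
    (hD : N • cl D = 0) (h : cl (X.tl σ • E) - cl E = cl (cn X.bc D)) {b : Pic κ K}
    (hb : N • b = 0) : we N (cl D) b = ζ ^ (kc ζ N σ b).val := by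
  obtain ⟨u, T, t1, t2, -⟩ := exists_kumD hD Set.finite_empty
  rw [← map_sub, ← (cl_cn_eq X.bc).2 t2] at h
  obtain ⟨r, hr, e1⟩ := cl_eq_iff.1 h
  obtain ⟨f, B, b1, rfl, b3, b4, b5, b6⟩ := X.root hη hN ha hE hb T.hasFiniteSupport
  have d1 : Dj T B := fun P => or_iff_not_imp_left.2 (b3 P)
  have k1 := t1.cn X.bc
  have k2 := b1.cn X.bc
  have ha' : sl (X.tl σ) a ≠ 0 := (map_ne_zero _).2 ha
  have hu : X.ψ u * r ^ N * a ≠ 0 := mul_ne_zero (mul_ne_zero k1.1 (pow_ne_zero N hr)) ha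
  obtain ⟨c, hc, e2⟩ := const_of_dv (𝕜 := Ω) (div_ne_zero ha' hu) (by
    rw [dv_div ha' hu, dv_mul (mul_ne_zero k1.1 (pow_ne_zero N hr)) ha,
      dv_mul k1.1 (pow_ne_zero N hr), dv_pow hr, k1.2, ← smul_add, ← e1, dv_sl, hE, smul_add,
      smul_sub, smul_single, smul_single, hη.smul, X.smul_up, dv_smul_nsmul, smul_sub]
    abel)
  rw [div_eq_iff hu] at e2
  have o1 : Off (X.tl σ • E) (X.ψ f) := X.tl_ψ σ f ▸ b5.smul (X.tl σ)
  have o2 := (b1.off d1.symm).cn X.bc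
  have o3 := (t1.off d1).cn X.bc
  have o4 : Off (dv Ω r) (X.ψ f) := by
    rw [← sub_eq_iff_eq_add'.2 e1]
    exact (o1.sub b5).sub o2
  have o5 : Off (cn X.bc B) r := Off.of_nsmul hN (k2.2 ▸ o4.symm hr)
  have e3 := evD_smul b4 (X.tl σ)
  have e4 := evD_smul b5 (X.tl σ)
  rw [X.smul_cn, X.tl_c, e2, evD_mul (off_const _ hc) ((o3.mul (o5.pow N)).mul b4),
    evD_mul (o3.mul (o5.pow N)) b4, evD_mul o3 (o5.pow N), evD_pow o5, evD_const _ hc,
    k2.dg_eq hN, zpow_zero, one_mul, evD_cn X.bc (t1.off d1)] at e3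
  rw [X.tl_ψ, X.tl_c, sub_eq_iff_eq_add.1 e1, evD_add (o2.add o4) b5, evD_add o2 o4, recip hr o4,
    k2.2, evD_nsmul, evD_cn X.bc (b1.off d1.symm)] at e4
  have e5 := kc_spec hN hζ σ b1.kum b6
  rw [map_div₀, ← e3, ← e4] at e5
  rw [← t2, we_eq hN t1 b1 d1]
  refine (algebraMap κ Ω).injective
    (mul_right_cancel₀ (div_ne_zero b4.evD_ne b5.evD_ne) (Eq.trans ?_ e5))
  have n1 := pow_ne_zero N o5.evD_ne
  rw [map_div₀, div_mul_div_comm, mul_right_comm, mul_right_comm _ (_ ^ N),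
    mul_div_mul_right _ _ n1]

end Gen

end Pool.Agent.Lef
end
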