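import Pool.Agent.Work.MP_60d5ce_nt.Qt.StatB
import Pool.Agent.Work.MP_60d5ce_nt.Asc.Defs
import Pool.Agent.Work.MP_60d5ce_nt.Qt.Alg
import Pool.Agent.Work.MP_60d5ce_nt.Qt.BoxE

-- merged part: Pool.Agent.Work.MP_60d5ce_nt.Qt.Dens
section
-- merged part: Pool.Agent.Work.MP_60d5ce_nt.Qt.TameF
section
/-!
# The tame data of `k(t)`
-/

namespace Pool.Agent.Quad

variable {k : Type} [Field k] [Fintype k] {Ω : Type} [Field Ω] [Algebra (RatFunc k) Ω]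
  [Algebra k Ω] [IsScalarTower k (RatFunc k) Ω] [IsSepClosure (RatFunc k) Ω]

theorem card_mod (h6 : (6 : k) ≠ 0) : Fintype.card k % 2 = 1 :=
  FiniteField.odd_card_of_char_ne_two fun h => two_ne_of_six h6 (by
    have := ringChar.spec k 2
    rw [h] at this
    exact_mod_cast this.2 dvd_rfl)

theorem card_ge (h6 : (6 : k) ≠ 0) : 4 ≤ Fintype.card k := by
  have h1 := card_mod h6
  have h2 : 1 < Fintype.card k := Fintype.one_lt_card
  have h3 : Fintype.card k ≠ 3 := fun h => three_ne_of_six h6 (by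
    have := FiniteField.cast_card_eq_zero k
    rw [h] at this
    exact_mod_cast this)
  omega

/-- the tame data -/
noncomputable def tame (h6 : (6 : k) ≠ 0) (ℓ : Locs k Ω) : Tame (WG k Ω) (Pl k) where
  toPre := pre ℓ
  q_mod := card_mod h6
  q_ge := card_ge h6
  dg_pos := pdg_pos
  dg_fin := pdg_fin
  dg_inf := rfl
  deg_σ v := (ℓ v).deg_σ
  deg_τ v := (ℓ v).deg_τ
  adm_G0 := adm_WG0
  adm_normal _ h := Adm.normal h
  adm_le _ h := Adm.le h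
  adm_inf _ _ h h' := Adm.inf h h'
  adm_mono _ _ h h1 h2 h3 := Adm.mono h h1 h2 h3
  adm_index _ h := Adm.index h
  rel U h v := (ℓ v).rel U h
  fin _ h := tau_fin ℓ h
  χ := chi ℓ
  χ_hom := chi_hom h6 ℓ
  χ_self := chi_self h6 ℓ
  χ_ne := chi_ne h6 ℓ
  χ_inf := chi_inf ℓ
  uniq := uniq_hom h6 ℓ
  recip := recip h6 ℓ
  hasse := hasse h6 ℓ
  cheb U hU N hN A hA hτ E hE hc e he J _ _ z hz θ hθ :=
    cheb h6 (card_ge h6) ℓ U hU N hN A hA hτ E hE hc e he J z hz θ hθ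
  pnt := pnt

end Pool.Agent.Quad
end

-- merged part: Pool.Agent.Work.MP_60d5ce_nt.Qt.EllI
section
/-!
# The curve over `k(t)`: definitions
-/

namespace Pool.Agent.Quad

open Polynomial Pool.Agent.ShaAsc

noncomputable section

variable {k : Type} [Field k]

/-- the curve `y ^ 2 = x ^ 3 + A x + B` over `k(t)` -/
def EC (A B : k[X]) : WeierstrassCurve (RatFunc k) :=
  ⟨0, 0, 0, algebraMap k[X] (RatFunc k) A, algebraMap k[X] (RatFunc k) B⟩

/-- the hypotheses on the coefficients -/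
structure Hyp (A B : k[X]) : Prop where
  noroot : ∀ r : RatFunc k,
    r ^ 3 + algebraMap k[X] (RatFunc k) A * r + algebraMap k[X] (RatFunc k) B ≠ 0
  mult : ∃ P : k[X], Irreducible P ∧ ¬ P ∣ A ∧ Odd (multiplicity P (4 * A ^ 3 + 27 * B ^ 2))

variable [Fintype k] {Ω : Type} [Field Ω] [Algebra (RatFunc k) Ω] [Algebra k Ω]
  [IsScalarTower k (RatFunc k) Ω] [IsSepClosure (RatFunc k) Ω] [DecidableEq Ω]

/-- the Tate module of the curve with its Galois action -/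
structure ERep (A B : k[X]) (h6 : (6 : k) ≠ 0) (ℓ : Locs k Ω) where
  TB : TateB (Pts (EC A B) Ω)
  R : Rep (tame h6 ℓ)
  act_pt : ∀ (g : WG k Ω) j t, act (EC A B) (gal g) (TB.pt j t) = TB.pt j ((R.ρ g).mulVec t)

end

end Pool.Agent.Quad
end

-- merged part: Pool.Agent.Work.MP_60d5ce_nt.Qt.BoxF
section
/-!
# The first moment: consequences  (task QT BoxF)

If `tpts ty` is empty all is trivial; otherwise `1 ≤ ty i` (`ty_pos`).  A class `w` is `wf w0 f` with `w0 ∈ Z1U S1`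
(`exists_w0`; at most `4 * 16 ^ m` choices, `z1U_card`; `card S ≤ card S1 ≤ m`), `f i = (p i, w (τ (p i)))`.  Either all the marks
vanish and `w = w0` (`ch_zero`), or let `a` be the index of maximal rank with a nonzero mark; then `2 ≤ ty a`.
* `gs_sum`: `fm_sum` with `μ i = ty i` on `J` (the marks are fixed vectors, `nf`) and one elsewhere; `geom_rk`.
* `gs_tail`: Markov.
* `fm_bound`: `fm_zero` with `I` when all marks vanish (`kap_zero`); otherwise `J = univ`, `μ = 1` on `I`, `ty` elsewhere, and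
  `geom_rk` for the complement of `I`.
* `g2_bound`: `a ∈ I` because `I` comes last.  For a marked point `f` let `𝒰 f` be the set of `u ∈ Z1U (S1 ∪ image p Iᶜ)`
  with the shifted condition at all `j ∉ I`; two elements differ by an element of `Gs Iᶜ p` (`LLs.add`), so it has at most
  `R'` elements, and it only depends on `f` outside `I` and on the configuration (`x_eq`).  With `en` of `exists_enum`
  and `r < R'`, let `𝒮` consist of the `f` with `(f i).2 = en (𝒰 f) r (σ (f i).1)` for `i ∈ I` (the condition at a split prime of odd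
  degree where `u` is unramified says `u (σ (p i)) = w (τ (p i))`, `nf_eq_four`).  `fm_sum` with `J = univ`, `μ = 1` on `I`, `ty` elsewhere.
-/

namespace Pool.Agent.Quad

open scoped Classical

noncomputable section

/-- a union bound -/
theorem BoxF_cover {α β κ : Type} (S : Set α) (s : Finset κ) (F : κ → Set β) (g : κ → β → α)
    (b : κ → ℝ) (hF : ∀ k ∈ s, (F k).Finite ∧ ((F k).ncard : ℝ) ≤ b k)
    (h : ∀ x ∈ S, ∃ k ∈ s, ∃ y ∈ F k, g k y = x) : S.Finite ∧ (S.ncard : ℝ) ≤ ∑ k ∈ s, b k := by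
  have hsub : S ⊆ ⋃ k ∈ s, g k '' F k := fun x hx => by
    obtain ⟨k, hk, y, hy, e⟩ := h x hx
    exact Set.mem_biUnion hk ⟨y, hy, e⟩
  have hfin : (⋃ k ∈ s, g k '' F k).Finite :=
    s.finite_toSet.biUnion fun k hk => (hF k hk).1.image _
  refine ⟨hfin.subset hsub, ?_⟩
  have h1 := (Set.ncard_le_ncard hsub hfin).trans (Finset.set_ncard_biUnion_le s _)
  refine (Nat.cast_le.2 h1).trans ?_
  push_cast
  exact Finset.sum_le_sum fun k hk =>
    (Nat.cast_le.2 (Set.ncard_image_le (hF k hk).1)).trans (hF k hk).2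

theorem BoxF_union {α : Type} {S A B : Set α} (h : ∀ x ∈ S, x ∈ A ∨ x ∈ B) {a b : ℝ}
    (hA : A.Finite ∧ (A.ncard : ℝ) ≤ a) (hB : B.Finite ∧ (B.ncard : ℝ) ≤ b) :
    S.Finite ∧ (S.ncard : ℝ) ≤ a + b := by
  have hfin : (A ∪ B).Finite := hA.1.union hB.1
  refine ⟨hfin.subset h, ?_⟩
  have h1 := (Set.ncard_le_ncard (s := S) h hfin).trans (Set.ncard_union_le A B)
  refine (Nat.cast_le.2 h1).trans ?_
  push_cast
  exact add_le_add hA.2 hB.2

/-- the product that occurs in the first moment -/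
theorem BoxF_prod {ι : Type} [Fintype ι] {rk : ι → ℕ} (hrk : Function.Injective rk) {ty : ι → ℕ}
    (ht : ∀ i, 1 ≤ ty i) (J K : Finset ι) (hK : K ⊆ J) (a : ι) :
    (∏ i ∈ prev rk a, ((if i ∈ K then ty i else 1 : ℕ) : ℝ)) * ∏ j ∈ J.erase a, (ty j : ℝ)⁻¹ =
      (∏ j ∈ (J \ K).erase a, (ty j : ℝ)⁻¹) *
        ∏ j ∈ K.filter (fun j => rk a < rk j), (ty j : ℝ)⁻¹ := by
  have key : ∀ (s : Finset ι) (f : ι → ℝ), ∏ i ∈ s, f i = ∏ i, if i ∈ s then f i else 1 :=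
    fun s f => by rw [Finset.prod_ite_mem, Finset.univ_inter]
  rw [key (prev rk a), key (J.erase a), key ((J \ K).erase a), key (K.filter _),
    ← Finset.prod_mul_distrib, ← Finset.prod_mul_distrib]
  refine Finset.prod_congr rfl fun i _ => ?_
  have h0 : (ty i : ℝ) ≠ 0 := by
    have := ht i
    exact_mod_cast (by omega : ty i ≠ 0)
  simp only [prev, Finset.mem_filter, Finset.mem_univ, true_and, Finset.mem_erase,
    Finset.mem_sdiff]
  by_cases hi : i = a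
  · subst hi
    simp
  have hne : rk i ≠ rk a := fun e => hi (hrk e)
  by_cases hk : i ∈ K
  · have hj := hK hk
    rcases lt_or_gt_of_ne hne with h | h
    · simp [hi, hk, hj, h, not_lt.2 h.le, h0]
    · simp [hi, hk, hj, h, not_lt.2 h.le]
  · simp [hi, hk]

theorem BoxF_pow {s m : ℕ} (h : s ≤ m) : (16 : ℝ) ^ s ≤ 16 ^ m :=
  pow_le_pow_right₀ (by norm_num) h

theorem BoxF_CC (m : ℕ) : (CC m : ℝ) = 64 * (16 ^ m * 16 ^ m) := by
  rw [CC, ← mul_pow]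
  norm_num

variable {W P : Type} [Group W] {T : Tame W P}

namespace Box

variable {R : Rep T} {ι : Type} [Fintype ι] {X : Box R ι} {rk : ι → ℕ} {η : ι → ℝ} {m : ℕ}

theorem BoxF_S (hm : X.S1.card ≤ m) : (16 : ℝ) ^ R.S.card ≤ 16 ^ m :=
  BoxF_pow ((Finset.card_le_card S_sub).trans hm)

theorem BoxF_w0 (hm : X.S1.card ≤ m) :
    (((Rep.z1U_finite (R := R) X.S1).toFinset.card : ℕ) : ℝ) ≤ 4 * 16 ^ m := by
  rw [← Set.ncard_eq_toFinset_card _ (Rep.z1U_finite (R := R) X.S1)]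
  have h1 : ((R.Z1U X.S1).ncard : ℝ) ≤ 4 * 16 ^ X.S1.card := by
    exact_mod_cast Rep.z1U_card (R := R) (S_sub (X := X))
  exact h1.trans (mul_le_mul_of_nonneg_left (BoxF_pow hm) (by norm_num))

theorem BoxF_notMem {p : ι → P} (hp : p ∈ X.pts) {J : Finset ι} {i : ι} (hi : i ∉ J) :
    p i ∉ X.S1 ∪ J.image p := fun h => by
  rcases Finset.mem_union.1 h with h | h
  · exact (hp i).2 h
  · obtain ⟨j, hj, e⟩ := Finset.mem_image.1 h
    exact hi (inj hp e ▸ hj)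

omit [Fintype ι] in
theorem BoxF_marks {ty : ι → ℕ} {p : ι → P} (hp : p ∈ X.tpts ty) (i : ι) :
    {n | R.Fx (T.σ (p i)) n}.ncard = ty i := hp.2 i

theorem BoxF_two {ty : ι → ℕ} {w0 : W → Vb} {a : ι} {J : Finset ι} {f : ι → P × Vb}
    (h : X.FMc rk ty w0 a J f) : 2 ≤ ty a := by
  have h1 : R.nf (T.σ (f a).1) = ty a := h.mem.2 a
  have h2 : R.nf (T.σ (f a).1) ≠ 1 := fun e => h.ne (Rep.nf_eq_one.1 e _ (h.fx a))
  rcases Rep.nf_cases (R := R) (T.σ (f a).1) with e | e | e <;> omega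

/-- the marks of a class of level one -/
theorem BoxF_dec {ty : ι → ℕ} {J : Finset ι} {p : ι → P} (hp : p ∈ X.tpts ty) {w : W → Vb}
    (hw : w ∈ X.Gs J p) : ∃ w0 ∈ R.Z1U X.S1, w = X.wf w0 (fun i => (p i, w (T.τ (p i)))) ∧
      (((∀ i, w (T.τ (p i)) = 0) ∧ w = w0) ∨
        ∃ a, X.FMc rk ty w0 a J fun i => (p i, w (T.τ (p i)))) := by
  have h1 : w ∈ R.Z1U (X.A p) := Rep.z1U_mono (Finset.union_subset_union_right
    (Finset.image_subset_image (Finset.subset_univ J))) hw.1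
  obtain ⟨hfx, w0, h0, e⟩ := exists_w0 hp.1 h1
  refine ⟨w0, h0, e, ?_⟩
  by_cases hz : ∀ i, w (T.τ (p i)) = 0
  · refine Or.inl ⟨hz, e.trans (funext fun g => ?_)⟩
    simp only [wf, hz, Rep.ch_zero, Pi.zero_apply, Finset.sum_const_zero, add_zero]
  · push Not at hz
    obtain ⟨i0, hi0⟩ := hz
    obtain ⟨a, ha, hmax⟩ := (Finset.univ.filter fun i => w (T.τ (p i)) ≠ 0).exists_max_image rk
      ⟨i0, Finset.mem_filter.2 ⟨Finset.mem_univ _, hi0⟩⟩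
    refine Or.inr ⟨a, hp, hfx, (Finset.mem_filter.1 ha).2, fun i hi => ?_, fun j hj => ?_⟩
    · by_contra hne
      exact absurd (hmax i (Finset.mem_filter.2 ⟨Finset.mem_univ _, hne⟩)) (not_le.2 hi)
    · rw [← e]
      exact hw.2 (p j) (Finset.mem_image_of_mem p hj)

/-- marked points whose marks vanish outside `K` -/
theorem BoxF_main (hm : X.S1.card ≤ m) (hrk : Function.Injective rk) (hsm : X.SmR rk η)
    (hη : ∑ i, η i ≤ 1 / 8) {ty : ι → ℕ} (ht : ∀ i, 1 ≤ ty i) {w0 : W → Vb}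
    (h0 : w0 ∈ R.Z1U X.S1) (J K : Finset ι) (hK : K ⊆ J) :
    {f | (∃ a, X.FMc rk ty w0 a J f) ∧ ∀ i ∉ K, (f i).2 = 0}.Finite ∧
      ({f | (∃ a, X.FMc rk ty w0 a J f) ∧ ∀ i ∉ K, (f i).2 = 0}.ncard : ℝ) ≤
        12 * 16 ^ m * (∏ j ∈ J \ K, (ty j : ℝ)⁻¹) * (X.tpts ty).ncard := by
  have key := BoxF_cover {f | (∃ a, X.FMc rk ty w0 a J f) ∧ ∀ i ∉ K, (f i).2 = 0}
    (K.filter fun a => 2 ≤ ty a) (fun a => {f | X.FMc rk ty w0 a J f ∧ ∀ i ∉ K, (f i).2 = 0})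
    (fun _ f => f) (fun a => 6 * 16 ^ m * (∏ j ∈ J \ K, (ty j : ℝ)⁻¹) * (X.tpts ty).ncard *
      ∏ j ∈ K.filter (fun j => rk a < rk j), (ty j : ℝ)⁻¹) (fun a ha => ?_) ?_
  · refine ⟨key.1, key.2.trans ?_⟩
    rw [← Finset.mul_sum]
    refine (mul_le_mul_of_nonneg_left (geom_rk rk hrk ty ht K) (by positivity)).trans_eq ?_
    ring
  · have haK : a ∈ K := (Finset.mem_filter.1 ha).1
    obtain ⟨h1, h2⟩ := fm_sum hrk hsm hη ty h0 a J (fun i => if i ∈ K then ty i else 1)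
      {f | X.FMc rk ty w0 a J f ∧ ∀ i ∉ K, (f i).2 = 0} (fun _ hf => hf.1) (by
        intro i _ f _ v
        by_cases hi : i ∈ K
        · rw [if_pos hi]
          rcases Set.eq_empty_or_nonempty {n | ∃ f' ∈ {f | X.FMc rk ty w0 a J f ∧
              ∀ i ∉ K, (f i).2 = 0}, X.cf rk (fun i => (f' i).1) = X.cf rk (fun i => (f i).1) ∧
              (∀ j, rk j < rk i → f' j = f j) ∧ f' i = (v, n)} with e | ⟨n0, f0, hf0, -, -, e0⟩
          · rw [e, Set.ncard_empty]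
            exact Nat.zero_le _
          · rw [← BoxF_marks hf0.1.mem i]
            refine Set.ncard_le_ncard ?_ (Set.toFinite _)
            rintro n ⟨f', hf', -, -, e⟩
            have := hf'.1.fx i
            rw [e] at this
            simpa only [e0, Set.mem_ofPred_eq] using this
        · rw [if_neg hi, ← Set.ncard_singleton (0 : Vb)]
          refine Set.ncard_le_ncard ?_ (Set.toFinite _)
          rintro n ⟨f', hf', -, -, e⟩
          have := hf'.2 i hi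
          rw [e] at this
          exact this)
    refine ⟨h1, h2.trans ?_⟩
    rw [mul_assoc (6 * _), BoxF_prod hrk ht J K hK a,
      Finset.erase_eq_of_notMem fun h => (Finset.mem_sdiff.1 h).2 haK]
    calc _ = (16 : ℝ) ^ R.S.card * (6 * (∏ j ∈ J \ K, (ty j : ℝ)⁻¹) * (X.tpts ty).ncard *
          ∏ j ∈ K.filter (fun j => rk a < rk j), (ty j : ℝ)⁻¹) := by ring
      _ ≤ (16 : ℝ) ^ m * (6 * (∏ j ∈ J \ K, (ty j : ℝ)⁻¹) * (X.tpts ty).ncard *
          ∏ j ∈ K.filter (fun j => rk a < rk j), (ty j : ℝ)⁻¹) :=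
        mul_le_mul_of_nonneg_right (BoxF_S hm) (by positivity)
      _ = _ := by ring
  · rintro f ⟨⟨a, ha⟩, hf⟩
    exact ⟨a, Finset.mem_filter.2 ⟨by_contra fun h => ha.ne (hf a h), BoxF_two ha⟩, f, ⟨ha, hf⟩, rfl⟩

theorem gs_sum (hm : X.S1.card ≤ m) (hrk : Function.Injective rk) (hsm : X.SmR rk η)
    (hη : ∑ i, η i ≤ 1 / 8) (ty : ι → ℕ) (J : Finset ι) :
    {z : (ι → P) × (W → Vb) | z.1 ∈ X.tpts ty ∧ z.2 ∈ X.Gs J z.1}.Finite ∧
      ({z : (ι → P) × (W → Vb) | z.1 ∈ X.tpts ty ∧ z.2 ∈ X.Gs J z.1}.ncard : ℝ) ≤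
        CC m * (X.tpts ty).ncard := by
  rcases Set.eq_empty_or_nonempty (X.tpts ty) with e | ⟨p0, hp0⟩
  · simp [e]
  have ht : ∀ i, 1 ≤ ty i := ty_pos hp0
  have key := BoxF_cover {z : (ι → P) × (W → Vb) | z.1 ∈ X.tpts ty ∧ z.2 ∈ X.Gs J z.1}
    (Rep.z1U_finite (R := R) X.S1).toFinset
    (fun w0 => {f : ι → P × Vb | ((fun i => (f i).1) ∈ X.tpts ty ∧ ∀ i, (f i).2 = 0) ∨
      ((∃ a, X.FMc rk ty w0 a J f) ∧ ∀ i ∉ J, (f i).2 = 0)})
    (fun w0 f => (fun i => (f i).1, X.wf w0 f))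
    (fun _ => ((X.tpts ty).ncard : ℝ) + 12 * 16 ^ m * (X.tpts ty).ncard) (fun w0 hw0 => ?_) ?_
  · refine ⟨key.1, key.2.trans ?_⟩
    rw [Finset.sum_const, nsmul_eq_mul, BoxF_CC]
    have h1 : (1 : ℝ) ≤ 16 ^ m := one_le_pow₀ (by norm_num)
    have h2 : (0 : ℝ) ≤ (X.tpts ty).ncard := Nat.cast_nonneg _
    refine (mul_le_mul_of_nonneg_right (BoxF_w0 hm) (by positivity)).trans ?_
    linarith only [h1, h2, mul_nonneg (mul_nonneg (sub_nonneg.2 h1) (zero_le_one.trans h1)) h2,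
      mul_nonneg (mul_nonneg (zero_le_one.trans h1) (zero_le_one.trans h1)) h2]
  · have h0 : w0 ∈ R.Z1U X.S1 := (Set.Finite.mem_toFinset _).1 hw0
    have h1 := BoxF_main hm hrk hsm hη ht h0 J J subset_rfl
    rw [Finset.sdiff_self, Finset.prod_empty, mul_one] at h1
    refine BoxF_union (fun f hf => hf) ?_ h1
    have hi : Set.InjOn (fun (f : ι → P × Vb) i => (f i).1)
        {f | (fun i => (f i).1) ∈ X.tpts ty ∧ ∀ i, (f i).2 = 0} := fun f hf f' hf' e =>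
      funext fun i => Prod.ext (congrFun e i) ((hf.2 i).trans (hf'.2 i).symm)
    exact ⟨Set.Finite.of_injOn (fun f hf => hf.1) hi (tpts_finite ty),
      Nat.cast_le.2 (Set.ncard_le_ncard_of_injOn _ (fun f hf => hf.1) hi (tpts_finite ty))⟩
  · rintro ⟨p, w⟩ ⟨hp, hw⟩
    obtain ⟨w0, h0, e, h⟩ := BoxF_dec (rk := rk) hp hw
    refine ⟨w0, (Set.Finite.mem_toFinset _).2 h0, fun i => (p i, w (T.τ (p i))), ?_,
      Prod.ext rfl e.symm⟩
    exact h.imp (fun h => ⟨hp, h.1⟩) fun h => ⟨h, fun i hi => hw.1.2 _ (BoxF_notMem hp.1 hi)⟩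

theorem gs_tail (hm : X.S1.card ≤ m) (hrk : Function.Injective rk) (hsm : X.SmR rk η)
    (hη : ∑ i, η i ≤ 1 / 8) (ty : ι → ℕ) (J : Finset ι) (Rb : ℕ) :
    (Rb : ℝ) * {p | p ∈ X.tpts ty ∧ Rb < (X.Gs J p).ncard}.ncard ≤ CC m * (X.tpts ty).ncard := by
  obtain ⟨h1, h2⟩ := gs_sum hm hrk hsm hη ty J
  set S : Set ((ι → P) × (W → Vb)) :=
    {z | (z.1 ∈ X.tpts ty ∧ Rb < (X.Gs J z.1).ncard) ∧ z.2 ∈ X.Gs J z.1} with hS
  have hsub : S ⊆ {z | z.1 ∈ X.tpts ty ∧ z.2 ∈ X.Gs J z.1} := fun z hz => ⟨hz.1.1, hz.2⟩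
  have hfin : S.Finite := h1.subset hsub
  have key := seq_fiber S {p | p ∈ X.tpts ty ∧ Rb < (X.Gs J p).ncard}
    ((tpts_finite ty).subset fun _ h => h.1) Prod.fst (fun z hz => hz.1)
    (fun _ _ => hfin.subset fun _ h => h.1) Rb S.ncard (fun p hp => ⟨?_,
      Nat.cast_le.2 (Set.ncard_le_ncard (fun _ h => h.1) hfin)⟩)
  · exact key.2.1.trans ((Nat.cast_le.2 (Set.ncard_le_ncard hsub h1)).trans h2)
  · refine Nat.cast_le.2 (hp.2.le.trans (Set.ncard_le_ncard_of_injOn (fun w => (p, w))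
      (fun w hw => ⟨⟨hp, hw⟩, rfl⟩) (fun w _ w' _ e => congrArg Prod.snd e)
      (hfin.subset fun _ h => h.1)))

omit [Fintype ι] in
theorem BoxF_four {ty : ι → ℕ} {I : Finset ι} (hI : ∀ i ∈ I, ty i = 4) :
    ∏ j ∈ I, (ty j : ℝ)⁻¹ = (4 : ℝ)⁻¹ ^ I.card := by
  rw [← Finset.prod_const]
  exact Finset.prod_congr rfl fun i hi => by rw [hI i hi]; norm_num

theorem fm_bound (hm : X.S1.card ≤ m) (hrk : Function.Injective rk) (hsm : X.SmR rk η)
    (hη : ∑ i, η i ≤ 1 / 8) {ty : ι → ℕ} {I : Finset ι} (hI : ∀ i ∈ I, ty i = 4) :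
    ({p | p ∈ X.tpts ty ∧ X.FM I p}.ncard : ℝ) ≤ CC m * (4 : ℝ)⁻¹ ^ I.card * (X.tpts ty).ncard := by
  rcases Set.eq_empty_or_nonempty (X.tpts ty) with e | ⟨p0, hp0⟩
  · simp [e]
  have ht : ∀ i, 1 ≤ ty i := ty_pos hp0
  have key := BoxF_cover {p | p ∈ X.tpts ty ∧ X.FM I p}
    (Rep.z1U_finite (R := R) X.S1).toFinset
    (fun w0 => {p | (¬ R.IsCob w0 ∧ p ∈ X.tpts ty ∧ ∀ j ∈ I, ∀ n, R.Fx (T.σ (p j)) n →
        ee (w0 (T.σ (p j))) n = 0) ∨ p ∈ (fun (f : ι → P × Vb) i => (f i).1) ''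
      {f | (∃ a, X.FMc rk ty w0 a Finset.univ f) ∧ ∀ i ∉ Iᶜ, (f i).2 = 0}})
    (fun _ p => p)
    (fun _ => 2 * (4 : ℝ)⁻¹ ^ I.card * (X.tpts ty).ncard +
      12 * 16 ^ m * (4 : ℝ)⁻¹ ^ I.card * (X.tpts ty).ncard) (fun w0 hw0 => ?_) ?_
  · refine key.2.trans ?_
    rw [Finset.sum_const, nsmul_eq_mul, BoxF_CC]
    have h1 : (1 : ℝ) ≤ 16 ^ m := one_le_pow₀ (by norm_num)
    have h2 : (0 : ℝ) ≤ (4 : ℝ)⁻¹ ^ I.card * (X.tpts ty).ncard := by positivity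
    refine (mul_le_mul_of_nonneg_right (BoxF_w0 hm) (by positivity)).trans ?_
    linarith only [h1, h2, mul_nonneg (mul_nonneg (sub_nonneg.2 h1) (zero_le_one.trans h1)) h2,
      mul_nonneg (mul_nonneg (zero_le_one.trans h1) (zero_le_one.trans h1)) h2]
  · have h0 : w0 ∈ R.Z1U X.S1 := (Set.Finite.mem_toFinset _).1 hw0
    have h1 := BoxF_main hm hrk hsm hη ht h0 Finset.univ Iᶜ (Finset.subset_univ _)
    rw [← Finset.compl_eq_univ_sdiff, compl_compl, BoxF_four hI] at h1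
    refine BoxF_union (A := {p | ¬ R.IsCob w0 ∧ p ∈ X.tpts ty ∧ ∀ j ∈ I, ∀ n,
        R.Fx (T.σ (p j)) n → ee (w0 (T.σ (p j))) n = 0}) (fun f hf => hf)
      ⟨(tpts_finite ty).subset fun _ h => h.2.1, ?_⟩
      ⟨h1.1.image _, (Nat.cast_le.2 (Set.ncard_image_le h1.1)).trans h1.2⟩
    by_cases hc : R.IsCob w0
    · simp only [hc, not_true_eq_false, false_and, Set.ofPred_false, Set.ncard_empty,
        Nat.cast_zero]
      positivity
    · have h2 := fm_zero hsm hη ty h0 hc I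
      rw [BoxF_four hI] at h2
      simpa only [hc, not_false_eq_true, true_and] using h2
  · rintro p ⟨hp, w, hw, hc, hz⟩
    obtain ⟨w0, h0, -, h⟩ := BoxF_dec (rk := rk) hp hw
    refine ⟨w0, (Set.Finite.mem_toFinset _).2 h0, p, ?_, rfl⟩
    rcases h with ⟨h1, rfl⟩ | h
    · exact Or.inl ⟨hc, hp, fun j _ n hn =>
        (hw.2 (p j) (Finset.mem_image_of_mem p (Finset.mem_univ j))).pair_sigma (h1 j) n hn⟩
    · exact Or.inr ⟨fun i => (p i, w (T.τ (p i))),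
        ⟨h, fun i hi => hz i (by simpa using hi)⟩, rfl⟩

variable (X) in
/-- the candidates for the second cocycle -/
def BoxFU (I : Finset ι) (f : ι → P × Vb) : Set (W → Vb) :=
  {u | u ∈ R.Z1U (X.S1 ∪ Iᶜ.image fun i => (f i).1) ∧ ∀ j ∉ I,
    R.LLs (X.x (fun i => (f i).1) (T.σ (f j).1)) ((X.e j : F2) • (f j).2) (f j).1 u}

theorem BoxF_U_finite (I : Finset ι) (f : ι → P × Vb) : (X.BoxFU I f).Finite :=
  (Rep.z1U_finite _).subset fun _ h => h.1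

theorem BoxF_U_card (I : Finset ι) {f : ι → P × Vb} (hp : (fun i => (f i).1) ∈ X.pts) :
    (X.BoxFU I f).ncard ≤ (X.Gs Iᶜ fun i => (f i).1).ncard := by
  rcases Set.eq_empty_or_nonempty (X.BoxFU I f) with e | ⟨u0, hu0⟩
  · simp [e]
  refine Set.ncard_le_ncard_of_injOn (fun u => u + u0) (fun u hu => ⟨Rep.Fam_z1U_add hu.1 hu0.1,
    fun v hv => ?_⟩) (fun u _ u' _ e => add_right_cancel e) (Rep.G1_finite _ _ _)
  obtain ⟨j, hj, rfl⟩ := Finset.mem_image.1 hv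
  have hj' : j ∉ I := Finset.mem_compl.1 hj
  have k := (hu.2 j hj').add (notMem_S hp j) (hu.1.1.lz _) (hu0.1.1.lz _) (hu0.2 j hj')
  rwa [vb_add_self] at k

theorem BoxF_U_eq (hrk : Function.Injective rk) (I : Finset ι) {f f' : ι → P × Vb}
    (hp : (fun i => (f i).1) ∈ X.pts) (hp' : (fun i => (f' i).1) ∈ X.pts)
    (hc : X.cf rk (fun i => (f' i).1) = X.cf rk fun i => (f i).1) (h : ∀ j ∉ I, f' j = f j) :
    X.BoxFU I f' = X.BoxFU I f := by
  have h1 : (Iᶜ.image fun i => (f' i).1) = Iᶜ.image fun i => (f i).1 :=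
    Finset.image_congr fun j hj => congrArg Prod.fst (h j (Finset.mem_compl.1 hj))
  ext u
  simp only [BoxFU, h1, Set.mem_ofPred_eq]
  refine and_congr_right fun _ => forall₂_congr fun j hj => ?_
  rw [x_eq hrk hp' hp hc (j := j) (congrArg Prod.fst (h j hj)), h j hj]

theorem BoxF_g2 (hm : X.S1.card ≤ m) (hrk : Function.Injective rk) (hsm : X.SmR rk η)
    (hη : ∑ i, η i ≤ 1 / 8) {ty : ι → ℕ} (ht : ∀ i, 1 ≤ ty i) {I : Finset ι}
    (hI : ∀ i ∈ I, ty i = 4) (hl : ∀ i ∈ I, ∀ j ∉ I, rk j < rk i) {w0 : W → Vb}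
    (h0 : w0 ∈ R.Z1U X.S1) {a : ι} (ha : a ∈ I) (en : Set (W → Vb) → W → Vb) :
    {f | X.FMc rk ty w0 a Finset.univ f ∧
      ∀ i ∈ I, (f i).2 = en (X.BoxFU I f) (T.σ (f i).1)}.Finite ∧
    ({f | X.FMc rk ty w0 a Finset.univ f ∧
      ∀ i ∈ I, (f i).2 = en (X.BoxFU I f) (T.σ (f i).1)}.ncard : ℝ) ≤
        24 * 16 ^ m * (4 : ℝ)⁻¹ ^ I.card * (X.tpts ty).ncard := by
  obtain ⟨h1, h2⟩ := fm_sum hrk hsm hη ty h0 a Finset.univ (fun i => if i ∈ Iᶜ then ty i else 1)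
    {f | X.FMc rk ty w0 a Finset.univ f ∧ ∀ i ∈ I, (f i).2 = en (X.BoxFU I f) (T.σ (f i).1)}
    (fun _ hf => hf.1) (by
      intro i _ f hf v
      by_cases hi : i ∈ Iᶜ
      · rw [if_pos hi]
        rcases Set.eq_empty_or_nonempty {n | ∃ f' ∈ {f | X.FMc rk ty w0 a Finset.univ f ∧
            ∀ i ∈ I, (f i).2 = en (X.BoxFU I f) (T.σ (f i).1)},
            X.cf rk (fun i => (f' i).1) = X.cf rk (fun i => (f i).1) ∧
            (∀ j, rk j < rk i → f' j = f j) ∧ f' i = (v, n)} with e | ⟨n0, f0, hf0, -, -, e0⟩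
        · rw [e, Set.ncard_empty]
          exact Nat.zero_le _
        · rw [← BoxF_marks hf0.1.mem i]
          refine Set.ncard_le_ncard ?_ (Set.toFinite _)
          rintro n ⟨f', hf', -, -, e⟩
          have := hf'.1.fx i
          rw [e] at this
          simpa only [e0, Set.mem_ofPred_eq] using this
      · have hi' : i ∈ I := by simpa using hi
        rw [if_neg hi, ← Set.ncard_singleton (en (X.BoxFU I f) (T.σ v))]
        refine Set.ncard_le_ncard ?_ (Set.toFinite _)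
        rintro n ⟨f', hf', hc, hag, e⟩
        have := hf'.2 i hi'
        rw [e, BoxF_U_eq hrk I hf.1.mem.1 hf'.1.mem.1 hc fun j hj => hag j (hl i hi' j hj)] at this
        exact this)
  refine ⟨h1, h2.trans ?_⟩
  have h3 : Iᶜ.filter (fun j => rk a < rk j) = ∅ := Finset.filter_eq_empty_iff.2 fun j hj =>
    not_lt.2 (hl a ha j (Finset.mem_compl.1 hj)).le
  have h4 : (4 : ℝ)⁻¹ ^ (I.erase a).card = 4 * (4 : ℝ)⁻¹ ^ I.card := by
    rw [← Finset.card_erase_add_one ha, pow_succ]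
    ring
  rw [mul_assoc (6 * _), BoxF_prod hrk ht Finset.univ Iᶜ (Finset.subset_univ _) a, h3,
    ← Finset.compl_eq_univ_sdiff, compl_compl, Finset.prod_empty, mul_one,
    BoxF_four fun i hi => hI i (Finset.mem_of_mem_erase hi), h4]
  calc _ = (16 : ℝ) ^ R.S.card * (24 * (4 : ℝ)⁻¹ ^ I.card * (X.tpts ty).ncard) := by ring
    _ ≤ (16 : ℝ) ^ m * (24 * (4 : ℝ)⁻¹ ^ I.card * (X.tpts ty).ncard) :=
      mul_le_mul_of_nonneg_right (BoxF_S hm) (by positivity)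
    _ = _ := by ring

theorem g2_bound (hm : X.S1.card ≤ m) (hrk : Function.Injective rk) (hsm : X.SmR rk η)
    (hη : ∑ i, η i ≤ 1 / 8) {ty : ι → ℕ} {I : Finset ι} (hI : ∀ i ∈ I, ty i = 4)
    (ho : ∀ i ∈ I, X.e i % 2 = 1) (hl : ∀ i ∈ I, ∀ j ∉ I, rk j < rk i) (R' : ℕ) :
    ({p | p ∈ X.tpts ty ∧ X.G2 I p ∧ (X.Gs Iᶜ p).ncard ≤ R'}.ncard : ℝ) ≤
      2 * CC m * R' * I.card * (4 : ℝ)⁻¹ ^ I.card * (X.tpts ty).ncard := by
  rcases Set.eq_empty_or_nonempty (X.tpts ty) with e | ⟨p0, hp0⟩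
  · simp [e]
  have ht : ∀ i, 1 ≤ ty i := ty_pos hp0
  obtain ⟨en, hen⟩ := exists_enum (W → Vb)
  have key := BoxF_cover {p | p ∈ X.tpts ty ∧ X.G2 I p ∧ (X.Gs Iᶜ p).ncard ≤ R'}
    ((Rep.z1U_finite (R := R) X.S1).toFinset ×ˢ (I ×ˢ Finset.range R'))
    (fun k => {f | X.FMc rk ty k.1 k.2.1 Finset.univ f ∧
      ∀ i ∈ I, (f i).2 = en (X.BoxFU I f) k.2.2 (T.σ (f i).1)})
    (fun _ f i => (f i).1)
    (fun _ => 24 * 16 ^ m * (4 : ℝ)⁻¹ ^ I.card * (X.tpts ty).ncard) (fun k hk => ?_) ?_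
  · refine key.2.trans ?_
    rw [Finset.sum_const, nsmul_eq_mul, BoxF_CC, Finset.card_product, Finset.card_product,
      Finset.card_range, Nat.cast_mul, Nat.cast_mul]
    have h2 : (0 : ℝ) ≤ 16 ^ m * 16 ^ m * R' * I.card * (4 : ℝ)⁻¹ ^ I.card * (X.tpts ty).ncard := by
      positivity
    refine (mul_le_mul_of_nonneg_right (mul_le_mul_of_nonneg_right (BoxF_w0 hm) (by positivity))
      (by positivity)).trans ?_
    linarith only [h2]
  · rw [Finset.mem_product, Finset.mem_product] at hk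
    exact BoxF_g2 hm hrk hsm hη ht hI hl ((Set.Finite.mem_toFinset _).1 hk.1) hk.2.1
      fun S => en S k.2.2
  · rintro p ⟨hp, ⟨w, hw, u, hu, hll, i0, hi0, hne⟩, hR⟩
    obtain ⟨w0, h0, -, h⟩ := BoxF_dec (rk := rk) hp hw
    rcases h with ⟨h1, -⟩ | ⟨a, h⟩
    · exact absurd (h1 i0) hne
    have ha : a ∈ I := by_contra fun ha => hne (h.last i0 (hl i0 hi0 a ha))
    have hU : u ∈ X.BoxFU I fun i => (p i, w (T.τ (p i))) := ⟨hu, fun j _ => hll j⟩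
    obtain ⟨r, hr, er⟩ := hen _ (BoxF_U_finite I _) u hU
    have hr' : r < R' := hr.trans_le ((BoxF_U_card I (f := fun i => (p i, w (T.τ (p i)))) hp.1).trans hR)
    refine ⟨(w0, a, r), Finset.mem_product.2 ⟨(Set.Finite.mem_toFinset _).2 h0,
      Finset.mem_product.2 ⟨ha, Finset.mem_range.2 hr'⟩⟩, fun i => (p i, w (T.τ (p i))),
      ⟨h, fun i hi => ?_⟩, rfl⟩
    have h1 : u (T.τ (p i)) = 0 := hu.2 _ (BoxF_notMem hp.1 (by simpa using hi))
    have h2 : R.rb (T.σ (p i)) = 1 := Rep.nf_eq_four.1 ((hp.2 i).trans (hI i hi))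
    have h3 : (X.e i : F2) = 1 := by
      rw [← Nat.div_add_mod (X.e i) 2, ho i hi]
      push_cast
      rw [F2_two]
      simp
    have h4 : u (T.σ (p i)) + w (T.τ (p i)) = 0 := eq_zero_of_ee fun n => by
      have := hll i n (by rw [Lat.Fx, h2, Matrix.one_mulVec])
      rwa [h1, Rep.kap_zero, smul_zero, add_zero, add_zero, h3, one_smul] at this
    rw [← vb_sub, sub_eq_zero] at h4
    show w (T.τ (p i)) = en (X.BoxFU I fun i => (p i, w (T.τ (p i)))) r (T.σ (p i))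
    rw [er, h4]

end Box

end

end Pool.Agent.Quad
end

-- merged part: Pool.Agent.Work.MP_60d5ce_nt.Qt.BoxC
section
/-!
# In a box, almost all twists are good  (task QT BoxC)

`n = card (tpts ty)`, `C = CC m`.  Union bounds with `cover` (compare `boxC_cover` in `Sm/BoxC.lean`).
The natural order `rk = X.e` (`SmA`, `e_inj`) is used for `fm_bound` and `gs_tail`.
* `bad0`: for `h` large put `Rb = h ^ 4`, `K1 = c + 2 + 2 * h`; `I1`, `I2` disjoint subsets of `Is` with `h` elements.  By `cover`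
  (`res 0 = 0`), `fm_bound`, `gs_tail`, `iter` with `j0 = 2`, `t = h`, `Bad = False` (`diag_zero`) and `Prs_anti`, the number of bad points is at most
  `(2 C / 4 ^ h + h ^ 2 * C / h ^ 4 + h ^ 2 * ((3 / 4) ^ h * (16 * h ^ 4) ^ 2 + ε')) * n`; the number of points with a pair in `Prs` is at most the number of pairs.
  `numer` gives `h`.
* `tbox`: choose in this order `R'`, `h2`, `Rb` (so that `C / R'`, `2 C / 4 ^ h2`, `2 C R' h2 / 4 ^ h2`, `h2 ^ 2 * C / Rb` are small), then `bad0` with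
  `δ = ε / (8 * (1 + 4 * h2 ^ 2 * (16 * Rb) ^ 2))`, giving `K1`; `j0 = 2 * K1 + cf + 1` with `cf` of `exists_fin`; `t` and `ε'` with
  `(4 * K1 + 1) * h2 ^ 2 * ((3 / 4) ^ t * (16 * Rb) ^ 2 + ε')` small; `K = j0 + 2 * t`.  A point that is not good either fails `NoLift 0 K1` or fails
  `NoLift (2 ^ a) K` for some `a ≤ 4 * K1`; the events `FM`, `G2`, large `Gs` of `cover` do not depend on `a`; only the pairs in `Prs` are summed over `a`,
  with `iter` for `Bad p = ¬ NoLift 0 K1` (`diag_of_lift`, `ram_x`, `Nondeg.p0_ne`, `not_cob_of_ram`, `Lifts.mono`).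
  `g2_bound` and `gs_tail` for `I2ᶜ` use the rank of `exists_rk` (`B ≥ 16 * h2`).
* `box`: split `pts` according to the type vector `ty p = fun i => nf (σ (p i))` (finitely many values).  Types with at least `h`
  split and `h` free indices in `L` are handled by `tbox`; the others by `tail_count` twice (`pts` is the product of the sets
  `Pr S1 True (e i)`; `cnt_frac`, `θ = 1 / 32`), with `A` such that `2 ^ h * (63 / 64) ^ A` is small.
-/

namespace Pool.Agent.Quad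

open scoped Classical

noncomputable section

theorem BoxC_tend (k : ℕ) {r : ℝ} (h0 : 0 ≤ r) (h1 : r < 1) (a : ℝ) {δ : ℝ} (hδ : 0 < δ) :
    ∀ᶠ h : ℕ in Filter.atTop, a * ((h : ℝ) ^ k * r ^ h) ≤ δ := by
  have h2 := (tendsto_pow_const_mul_const_pow_of_abs_lt_one k (r := r)
    (by rwa [abs_of_nonneg h0])).const_mul a
  rw [mul_zero] at h2
  exact h2.eventually (ge_mem_nhds hδ)

theorem BoxC_inv (a : ℝ) {δ : ℝ} (hδ : 0 < δ) : ∀ᶠ h : ℕ in Filter.atTop, a / (h : ℝ) ≤ δ :=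
  (tendsto_const_div_atTop_nhds_zero_nat a).eventually (ge_mem_nhds hδ)

theorem BoxC_fibers {α β : Type} {S : Set α} (hS : S.Finite) (f : α → β) (t : Finset β)
    (ht : ∀ p ∈ S, f p ∈ t) :
    (S.ncard : ℝ) = ∑ c ∈ t, ({p | p ∈ S ∧ f p = c}.ncard : ℝ) := by
  rw [Set.ncard_eq_toFinset_card S hS, Finset.card_eq_sum_card_fiberwise (f := f) (t := t)
    fun p hp => Finset.mem_coe.2 (ht p (hS.mem_toFinset.1 (Finset.mem_coe.1 hp))), Nat.cast_sum]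
  refine Finset.sum_congr rfl fun c _ => ?_
  rw [← Set.ncard_coe_finset]
  congr 2
  ext p
  simp

theorem BoxC_biUnion {α β : Type} (Z : Finset β) (F : β → Set α) {r : ℝ}
    (h : ∀ z ∈ Z, ((F z).ncard : ℝ) ≤ r) : ((⋃ z ∈ Z, F z).ncard : ℝ) ≤ Z.card * r := by
  have h1 : ((⋃ z ∈ Z, F z).ncard : ℝ) ≤ ∑ z ∈ Z, ((F z).ncard : ℝ) := by
    exact_mod_cast Finset.set_ncard_biUnion_le Z F
  refine h1.trans ?_
  rw [← nsmul_eq_mul]
  exact Finset.sum_le_card_nsmul Z _ r h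

theorem BoxC_union {α : Type} {A B : Set α} {a b : ℝ} (ha : (A.ncard : ℝ) ≤ a)
    (hb : (B.ncard : ℝ) ≤ b) : ((A ∪ B).ncard : ℝ) ≤ a + b := by
  have h1 : ((A ∪ B).ncard : ℝ) ≤ A.ncard + B.ncard := by exact_mod_cast Set.ncard_union_le A B
  linarith

theorem BoxC_le {α : Type} {A B : Set α} {b : ℝ} (hB : B.Finite) (h : A ⊆ B)
    (hb : (B.ncard : ℝ) ≤ b) : (A.ncard : ℝ) ≤ b :=
  (Nat.cast_le.2 (Set.ncard_le_ncard h hB)).trans hb

theorem BoxC_two {ι : Type} {Is : Finset ι} {h : ℕ} (hc : 2 * h ≤ Is.card) :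
    ∃ I1 I2 : Finset ι, I1 ⊆ Is ∧ I2 ⊆ Is ∧ I1.card = h ∧ I2.card = h ∧
      ∀ a ∈ I1, ∀ b ∈ I2, a ≠ b := by
  obtain ⟨I1, h1, h2⟩ := Finset.exists_subset_card_eq (s := Is) (n := h) (by omega)
  obtain ⟨I2, h3, h4⟩ := Finset.exists_subset_card_eq (s := Is \ I1) (n := h) (by
    rw [Finset.card_sdiff_of_subset h1]
    omega)
  refine ⟨I1, I2, h1, h3.trans Finset.sdiff_subset, h2, h4, fun a ha b hb hab => ?_⟩
  exact (Finset.mem_sdiff.1 (h3 hb)).2 (hab ▸ ha)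

theorem BoxC_arith {ε n b k h C u v R' Rb : ℝ} (hε : 0 < ε) (hn : 0 ≤ n) (hb : 0 ≤ b) (hk : 1 ≤ k)
    (h1 : C / R' ≤ ε / 8) (h2 : 2 * C * u ≤ ε / 8) (h3 : 2 * C * R' * (h * u) ≤ ε / 8)
    (h4 : h ^ 2 * C / Rb ≤ ε / 8) (h5 : k * b ≤ ε / 8 / (1 + 4 * h ^ 2 * (16 * Rb) ^ 2) * n)
    (h6 : k * h ^ 2 * (16 * Rb) ^ 2 * v ≤ ε / 8) :
    b + (2 * (C * u * n) + (C / R' * n + 2 * C * R' * h * u * n) + h * h * (C / Rb * n) +
      k * (h * h) * ((v * (16 * Rb) ^ 2 + ε / 8 / (k * h ^ 2 + 1)) * n +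
        4 * (16 * Rb) ^ 2 * b)) ≤ ε * n := by
  have hD : 0 < 1 + 4 * h ^ 2 * (16 * Rb) ^ 2 := by positivity
  have hE : 0 < k * h ^ 2 + 1 := by positivity
  have e1 := mul_le_mul_of_nonneg_right h1 hn
  have e2 := mul_le_mul_of_nonneg_right h2 hn
  have e3 := mul_le_mul_of_nonneg_right h3 hn
  have e4 := mul_le_mul_of_nonneg_right h4 hn
  have e6 := mul_le_mul_of_nonneg_right h6 hn
  have e5 : k * b * (1 + 4 * h ^ 2 * (16 * Rb) ^ 2) ≤ ε / 8 * n := by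
    rw [div_mul_eq_mul_div, le_div_iff₀ hD] at h5
    exact h5
  have e7 : k * h ^ 2 * (ε / 8 / (k * h ^ 2 + 1)) ≤ ε / 8 := by
    rw [← mul_div_assoc, div_le_iff₀ hE]
    linarith only [hε]
  have e8 := mul_le_mul_of_nonneg_right e7 hn
  have e9 : b ≤ k * b := le_mul_of_one_le_left hb hk
  have e10 : 0 ≤ ε * n := by positivity
  have e11 : h * h * (C / Rb * n) = h ^ 2 * C / Rb * n := by ring
  rw [e11]
  generalize ε / 8 / (k * h ^ 2 + 1) = y at e8 ⊢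
  generalize h ^ 2 * C / Rb = z at e4 ⊢
  generalize C / R' = w at e1 ⊢
  linarith only [e2, e3, e6, e5, e9, e10, e8, e4, e1]

/-- the union bound given by `cover` -/
theorem BoxC_cover {W P : Type} [Group W] {T : Tame W P} {R : Rep T} {ι : Type} [Fintype ι]
    (X : Box R ι) (ty : ι → ℕ) (I1 I2 : Finset ι) (Z : Finset ℕ) (lam : ℕ → O) {K : ℕ}
    (hK : 1 ≤ K) (Rb : ℕ) {f g s r : ℝ}
    (hf1 : ({p | p ∈ X.tpts ty ∧ X.FM I1 p}.ncard : ℝ) ≤ f)
    (hf2 : ({p | p ∈ X.tpts ty ∧ X.FM I2 p}.ncard : ℝ) ≤ f)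
    (hg : ({p | p ∈ X.tpts ty ∧ (∃ z ∈ Z, res (lam z) ≠ 0) ∧ X.G2 I2 p}.ncard : ℝ) ≤ g)
    (hs : ∀ J, ({p | p ∈ X.tpts ty ∧ Rb < (X.Gs J p).ncard}.ncard : ℝ) ≤ s)
    (hr : ∀ z ∈ Z, ∀ a ∈ I1, ∀ b ∈ I2, ((X.Prs ty (lam z) a b Rb K).ncard : ℝ) ≤ r) :
    ({p | p ∈ X.tpts ty ∧ ∃ z ∈ Z, ¬ R.NoLift (lam z) (X.A p) (X.x p) K}.ncard : ℝ) ≤
      2 * f + g + I1.card * I2.card * s + Z.card * (I1.card * I2.card) * r := by
  have hP : ∀ z a b, (X.Prs ty (lam z) a b Rb K).Finite := fun z a b =>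
    (Box.prs_card (X := X) (ty := ty) (lam := lam z) (a := a) (b := b) (Rb := Rb) hK
      fun _ => True).1.subset fun _ h => ⟨h, trivial⟩
  have h4 := BoxC_biUnion (I1 ×ˢ I2)
    (fun q => {p | p ∈ X.tpts ty ∧ Rb < (X.Gs (jab q.1 q.2) p).ncard}) fun q _ => hs _
  have h5 := BoxC_biUnion (Z ×ˢ (I1 ×ˢ I2))
    (fun q => Prod.fst '' X.Prs ty (lam q.1) q.2.1 q.2.2 Rb K) (r := r) fun q hq => by
      obtain ⟨h1, h2⟩ := Finset.mem_product.1 hq
      obtain ⟨h2, h3⟩ := Finset.mem_product.1 h2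
      exact (Nat.cast_le.2 (Set.ncard_image_le (hP _ _ _))).trans (hr _ h1 _ h2 _ h3)
  have h6 := BoxC_union (BoxC_union (BoxC_union (BoxC_union hf1 hf2) hg) h4) h5
  simp only [Finset.card_product, Nat.cast_mul] at h6
  refine (BoxC_le ?_ ?_ h6).trans (le_of_eq (by ring))
  · refine (Box.tpts_finite (X := X) ty).subset ?_
    rintro p ((((h | h) | h) | h) | h)
    · exact h.1
    · exact h.1
    · exact h.1
    · obtain ⟨q, -, h⟩ := Set.mem_iUnion₂.1 h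
      exact h.1
    · obtain ⟨q, -, z, h1, rfl⟩ := Set.mem_iUnion₂.1 h
      exact h1.1
  · rintro p ⟨hp, z, hz, h⟩
    rcases Box.cover hp I1 I2 hK Rb h with h | h | h | ⟨a, ha, b, hb, h | ⟨w, h⟩⟩
    · exact Or.inl (Or.inl (Or.inl (Or.inl ⟨hp, h⟩)))
    · exact Or.inl (Or.inl (Or.inl (Or.inr ⟨hp, h⟩)))
    · exact Or.inl (Or.inl (Or.inr ⟨hp, ⟨z, hz, h.1⟩, h.2⟩))
    · exact Or.inl (Or.inr (Set.mem_iUnion₂.2 ⟨(a, b), Finset.mem_product.2 ⟨ha, hb⟩, hp, h⟩))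
    · exact Or.inr (Set.mem_iUnion₂.2 ⟨(z, a, b),
        Finset.mem_product.2 ⟨hz, Finset.mem_product.2 ⟨ha, hb⟩⟩, (p, w), h, rfl⟩)

theorem BoxC_tail {W P : Type} [Group W] {T : Tame W P} {R : Rep T} {ι : Type} [Fintype ι]
    {X : Box R ι} {m : ℕ} {η : ι → ℝ} (hm : X.S1.card ≤ m) (hA : X.SmA η) (ty : ι → ℕ) {Rb : ℕ}
    (hRb : 0 < Rb) (J : Finset ι) :
    ({p | p ∈ X.tpts ty ∧ Rb < (X.Gs J p).ncard}.ncard : ℝ) ≤
      CC m / Rb * (X.tpts ty).ncard := by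
  have h1 := Box.gs_tail hm X.e_inj hA.2 (hA.1.trans (by norm_num)) ty J Rb
  have h2 : (0 : ℝ) < Rb := Nat.cast_pos.2 hRb
  rw [div_mul_eq_mul_div, le_div_iff₀ h2, mul_comm]
  exact h1

theorem numer (C c : ℕ) {δ : ℝ} (hδ : 0 < δ) : ∃ h : ℕ, 1 ≤ h ∧
    (4 * ((c : ℝ) + 2 + 2 * h) + 1) * (2 * C * (4 : ℝ)⁻¹ ^ h + (h : ℝ) ^ 2 * (C / (h : ℝ) ^ 4) +
      (h : ℝ) ^ 2 * ((3 / 4) ^ h * (16 * (h : ℝ) ^ 4) ^ 2)) ≤ δ := by
  have h3 : 0 < δ / 3 := by positivity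
  obtain ⟨h, ⟨⟨h1, h2⟩, h4⟩, h5⟩ := ((((BoxC_tend 1 (r := (4 : ℝ)⁻¹) (by norm_num) (by norm_num)
    ((4 * c + 17) * (2 * C)) h3).and (BoxC_inv ((4 * c + 17) * C) h3)).and
    (BoxC_tend 11 (r := 3 / 4) (by norm_num) (by norm_num) ((4 * c + 17) * 256) h3)).and
    (Filter.eventually_ge_atTop 1)).exists
  refine ⟨h, h5, ?_⟩
  have h6 : (1 : ℝ) ≤ h := by exact_mod_cast h5
  have h7 : 4 * ((c : ℝ) + 2 + 2 * h) + 1 ≤ (4 * c + 17) * h := by
    have : (0 : ℝ) ≤ c := Nat.cast_nonneg _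
    linarith only [h6, mul_nonneg_of_nonpos_of_nonpos (Mathlib.Tactic.Linarith.sub_nonpos_of_le (Mathlib.Tactic.Linarith.natCast_nonneg ℝ c)) (Mathlib.Tactic.Linarith.sub_nonpos_of_le h6)]
  refine (mul_le_mul_of_nonneg_right h7 (by positivity)).trans ?_
  have h8 : (4 * (c : ℝ) + 17) * h * (2 * C * (4 : ℝ)⁻¹ ^ h + (h : ℝ) ^ 2 * (C / (h : ℝ) ^ 4) +
      (h : ℝ) ^ 2 * ((3 / 4) ^ h * (16 * (h : ℝ) ^ 4) ^ 2)) =
      (4 * c + 17) * (2 * C) * ((h : ℝ) ^ 1 * (4 : ℝ)⁻¹ ^ h) + (4 * c + 17) * C / h +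
        (4 * c + 17) * 256 * ((h : ℝ) ^ 11 * (3 / 4) ^ h) := by
    field_simp
    ring
  rw [h8]
  linarith only [h4, h1, h2]

theorem bad0 (m c : ℕ) {δ : ℝ} (hδ : 0 < δ) : ∃ K1 h B : ℕ, c ≤ K1 ∧ 1 ≤ K1 ∧ 0 < B ∧
    ∀ {W P : Type} [Group W] {T : Tame W P} {R : Rep T} {ι : Type} [Fintype ι] (X : Box R ι)
      (L Is F : Finset ι) (η : ι → ℝ) (ty : ι → ℕ), X.S1.card ≤ m → Is ⊆ L → F ⊆ L →
      (∀ i ∈ Is, ty i = 4) → (∀ i ∈ F, ty i = 1) → h ≤ Is.card → h ≤ F.card → X.SmA η →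
      X.SmL B L → (4 * (K1 : ℝ) + 1) *
        {p | p ∈ X.tpts ty ∧ ¬ R.NoLift 0 (X.A p) (X.x p) K1}.ncard ≤ δ * (X.tpts ty).ncard := by
  obtain ⟨h, h1, hn⟩ := numer (CC m) c (half_pos hδ)
  have h0 : (0 : ℝ) < h := Nat.cast_pos.2 h1
  have hk : (0 : ℝ) < 4 * ((c : ℝ) + 2 + 2 * h) + 1 := by positivity
  obtain ⟨B, hB, H⟩ := iter (h ^ 4) m 2 h le_rfl
    (ε := δ / 2 / ((4 * ((c : ℝ) + 2 + 2 * h) + 1) * (h : ℝ) ^ 2)) (by positivity)
  refine ⟨c + 2 + 2 * h, 2 + 2 * h, B, by omega, by omega, hB, ?_⟩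
  intro W P _ T R ι _ X L Is F η ty hm hIs hF h4 hF1 hcI hcF hA hL
  obtain ⟨I1, I2, s1, s2, c1, c2, hne⟩ := BoxC_two (Is := Is) (h := h) (by omega)
  have hη : ∑ i, η i ≤ 1 / 8 := hA.1.trans (by norm_num)
  have f1 := Box.fm_bound hm X.e_inj hA.2 hη (ty := ty) (I := I1) fun i hi => h4 i (s1 hi)
  have f2 := Box.fm_bound hm X.e_inj hA.2 hη (ty := ty) (I := I2) fun i hi => h4 i (s2 hi)
  rw [c1] at f1
  rw [c2] at f2
  have key := BoxC_cover X ty I1 I2 {0} (fun _ => 0) (K := c + 2 + 2 * h) (by omega) (h ^ 4)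
    (g := 0) f1 f2 (by simp) (BoxC_tail hm hA ty (pow_pos h1 4))
    (r := ((3 / 4) ^ h * (16 * ((h ^ 4 : ℕ) : ℝ)) ^ 2 +
      δ / 2 / ((4 * ((c : ℝ) + 2 + 2 * h) + 1) * (h : ℝ) ^ 2)) * (X.tpts ty).ncard)
    fun z _ a ha b hb => by
      have h5 := H X L F ty 0 a b (fun _ => False) hm (hne a ha b hb) (hIs (s1 ha)) (hIs (s2 hb))
        (h4 a (s1 ha)) (h4 b (s2 hb)) hF hF1 hcF hL
        fun j hj z _ _ => Rep.diag_zero (Box.x_hom _) (by omega)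
      simp only [and_false, Set.ofPred_false, Set.ncard_empty, Nat.cast_zero, mul_zero,
        add_zero] at h5
      refine BoxC_le ?_ (Box.Prs_anti (by omega)) h5
      exact (Box.prs_card (X := X) (ty := ty) (lam := 0) (a := a) (b := b) (Rb := h ^ 4)
        (j := 2 + 2 * h) (by omega) fun _ => True).1.subset fun _ h => ⟨h, trivial⟩
  simp only [Finset.mem_singleton, exists_eq_left, Finset.card_singleton, c1, c2] at key
  push_cast at key ⊢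
  have hN : (0 : ℝ) ≤ (X.tpts ty).ncard := Nat.cast_nonneg _
  refine (mul_le_mul_of_nonneg_left key hk.le).trans ?_
  have h6 := mul_le_mul_of_nonneg_right hn hN
  refine le_trans (le_of_eq ?_) ((add_le_add_left h6 (δ / 2 * (X.tpts ty).ncard)).trans
    (le_of_eq (by ring)))
  field_simp
  ring

variable {W P : Type} [Group W] {T : Tame W P} (R : Rep T)

theorem tbox (m c : ℕ) {ε : ℝ} (hε : 0 < ε) : ∃ h B : ℕ, 0 < B ∧
    ∀ {ι : Type} [Fintype ι] (X : Box R ι) (L Is F : Finset ι) (η : ι → ℝ) (ty : ι → ℕ),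
      X.S1.card ≤ m → Is ⊆ L → F ⊆ L → (∀ i ∈ Is, ty i = 4) → (∀ i ∈ F, ty i = 1) →
      h ≤ Is.card → h ≤ F.card → (∀ i ∈ L, X.e i % 2 = 1) → X.SmA η → X.SmL B L →
      ({p | p ∈ X.tpts ty ∧ ¬ R.Good (X.A p) (X.x p) c}.ncard : ℝ) ≤ ε * (X.tpts ty).ncard := by
  have e8 : 0 < ε / 8 := by positivity
  obtain ⟨R', hR1, hR0⟩ := ((BoxC_inv (CC m) e8).and (Filter.eventually_gt_atTop 0)).exists
  obtain ⟨h2, a1, a2⟩ := ((BoxC_tend 0 (r := (4 : ℝ)⁻¹) (by norm_num) (by norm_num)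
    (2 * CC m) e8).and (BoxC_tend 1 (r := (4 : ℝ)⁻¹) (by norm_num) (by norm_num)
    (2 * CC m * R') e8)).exists
  obtain ⟨Rb, hb1, hb0⟩ :=
    ((BoxC_inv ((h2 : ℝ) ^ 2 * CC m) e8).and (Filter.eventually_gt_atTop 0)).exists
  have hD : (0 : ℝ) < 1 + 4 * (h2 : ℝ) ^ 2 * (16 * (Rb : ℝ)) ^ 2 := by positivity
  obtain ⟨K1, h0, B0, hc, hK1, hB0, H0⟩ := bad0 m c
    (δ := ε / 8 / (1 + 4 * (h2 : ℝ) ^ 2 * (16 * (Rb : ℝ)) ^ 2)) (by positivity)
  obtain ⟨cf, -, hcf⟩ := R.exists_fin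
  obtain ⟨t, ht⟩ := (BoxC_tend 0 (r := 3 / 4) (by norm_num) (by norm_num)
    ((4 * (K1 : ℝ) + 1) * (h2 : ℝ) ^ 2 * (16 * (Rb : ℝ)) ^ 2) e8).exists
  have hE : (0 : ℝ) < (4 * (K1 : ℝ) + 1) * (h2 : ℝ) ^ 2 + 1 := by positivity
  obtain ⟨B1, hB1, H1⟩ := iter Rb m (2 * K1 + cf + 1) t (by omega)
    (ε := ε / 8 / ((4 * (K1 : ℝ) + 1) * (h2 : ℝ) ^ 2 + 1)) (by positivity)
  refine ⟨h0 + 2 * h2 + (2 * K1 + cf + 1 + 2 * t), B0 + B1 + 16 * h2, by omega, ?_⟩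
  intro ι _ X L Is F η ty hm hIs hF h4 hF1 hcI hcF ho hA hL
  have hbad := H0 X L Is F η ty hm hIs hF h4 hF1 (by omega) (by omega) hA (hL.mono hB0 (by omega))
  obtain ⟨I1, I2, s1, s2, c1, c2, hne⟩ := BoxC_two (Is := Is) (h := h2) (by omega)
  have hη : ∑ i, η i ≤ 1 / 8 := hA.1.trans (by norm_num)
  have f1 := Box.fm_bound hm X.e_inj hA.2 hη (ty := ty) (I := I1) fun i hi => h4 i (s1 hi)
  have f2 := Box.fm_bound hm X.e_inj hA.2 hη (ty := ty) (I := I2) fun i hi => h4 i (s2 hi)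
  rw [c1] at f1
  rw [c2] at f2
  obtain ⟨rk, η', r1, r2, r3, r4⟩ := Box.exists_rk hA hL (s2.trans hIs) (by omega) (by omega)
  have g1 := Box.g2_bound hm r1 r4 r3 (ty := ty) (I := I2) (fun i hi => h4 i (s2 hi))
    (fun i hi => ho i (hIs (s2 hi))) r2 R'
  rw [c2] at g1
  have g2 := BoxC_union (BoxC_tail hm hA ty hR0 I2ᶜ) g1
  have hT := Box.tpts_finite (X := X) ty
  have key := BoxC_cover X ty I1 I2 (Finset.range (4 * K1 + 1)) (fun a => 2 ^ a)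
    (K := 2 * K1 + cf + 1 + 2 * t) (by omega) Rb f1 f2
    (BoxC_le (hT.subset (by rintro p (h | h) <;> exact h.1)) (fun p hp => by
      by_cases hq : R' < (X.Gs I2ᶜ p).ncard
      · exact Or.inl ⟨hp.1, hq⟩
      · exact Or.inr ⟨hp.1, hp.2.2, not_lt.1 hq⟩) g2) (BoxC_tail hm hA ty hb0)
    fun z _ a ha b hb => H1 X L F ty (2 ^ z) a b (fun p => ¬ R.NoLift 0 (X.A p) (X.x p) K1) hm
      (hne a ha b hb) (hIs (s1 ha)) (hIs (s2 hb)) (h4 a (s1 ha)) (h4 b (s2 hb)) hF hF1 (by omega)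
      (hL.mono hB1 (by omega)) fun j hj y hy hn => by
        have hp : y.1 ∈ X.pts := hy.1.1
        refine Rep.diag_of_lift (Box.x_hom _) (Box.ram_x hp) (hcf _ _ (Box.ram_x hp)) hK1
          (by omega) (not_not.1 hn) (hy.2.2.2.mono (by omega)) ?_
        rcases hy.2.2.1.p0_ne with h | h
        · exact Rep.not_cob_of_ram (Box.notMem_S hp a) h
        · exact Rep.not_cob_of_ram (Box.notMem_S hp b) h
  have hsub := BoxC_le (A := {p | p ∈ X.tpts ty ∧ ¬ R.Good (X.A p) (X.x p) c})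
    (hT.subset (by rintro p (h | h) <;> exact h.1)) (fun p hp => by
      by_cases hq : R.NoLift 0 (X.A p) (X.x p) K1
      · refine Or.inr ⟨hp.1, ?_⟩
        by_contra hr
        refine hp.2 ⟨K1, 2 * K1 + cf + 1 + 2 * t, hc, hq, fun a ha => ?_⟩
        by_contra hs
        exact hr ⟨a, Finset.mem_range.2 (by omega), hs⟩
      · exact Or.inl ⟨hp.1, hq⟩)
    (BoxC_union (A := {p | p ∈ X.tpts ty ∧ ¬ R.NoLift 0 (X.A p) (X.x p) K1}) le_rfl key)
  refine hsub.trans ?_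
  rw [c1, c2, Finset.card_range]
  push_cast
  rw [pow_zero, one_mul] at a1 ht
  rw [pow_one] at a2
  have hk : (1 : ℝ) ≤ 4 * K1 + 1 := le_add_of_nonneg_left (by positivity)
  exact BoxC_arith hε (Nat.cast_nonneg _) (Nat.cast_nonneg _) hk hR1 a1 a2 hb1 hbad ht

theorem box (m c : ℕ) {ε : ℝ} (hε : 0 < ε) : ∃ A B : ℕ, 0 < B ∧
    ∀ {ι : Type} [Fintype ι] (X : Box R ι) (L : Finset ι) (η : ι → ℝ), X.S1.card ≤ m →
      A ≤ L.card → (∀ i ∈ L, X.e i % 2 = 1) → X.SmA η → X.SmL B L →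
      ({p | p ∈ X.pts ∧ ¬ R.Good (X.A p) (X.x p) c}.ncard : ℝ) ≤ ε * X.pts.ncard := by
  obtain ⟨h, B, hB, H⟩ := tbox R m c (half_pos hε)
  obtain ⟨A, hA⟩ := (BoxC_tend 0 (r := 1 - 1 / 32 / 2) (by norm_num) (by norm_num)
    ((2 : ℝ) ^ h) (δ := ε / 4) (by positivity)).exists
  rw [pow_zero, one_mul] at hA
  refine ⟨A, B, hB, ?_⟩
  intro ι _ X L η hm hL ho hSA hSL
  have hsm : ∀ i, T.Small (1 / 8) 16 (∑ v ∈ X.S1, T.dg v) (X.e i) := fun i => by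
    refine (hSA.2 i).mono ?_ ?_ (Nat.le_add_right _ _)
    · refine (Finset.single_le_sum (fun j _ => (hSA.2 j).nonneg) (Finset.mem_univ i)).trans ?_
      exact hSA.1.trans (by norm_num)
    · exact cnt_NN (a := 4) (by omega)
  have hpts : X.pts = {p : ι → P | ∀ i, p i ∈ T.Pr X.S1 (fun _ => True) (X.e i)} := by
    ext p
    simp [Box.pts, Tame.Pr]
  have hN : (0 : ℝ) ≤ X.pts.ncard := Nat.cast_nonneg _
  have htail : ∀ t : ℕ, t = 1 ∨ t = 4 →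
      ({p | p ∈ X.pts ∧ (L.filter fun i => R.nf (T.σ (p i)) = t).card < h}.ncard : ℝ) ≤
        ε / 4 * X.pts.ncard := fun t ht => by
    have h1 := tail_count (fun i => T.Pr X.S1 (fun _ => True) (X.e i))
      (fun i => T.Pr X.S1 (fun g => R.nf g = t) (X.e i))
      (fun i => (T.dg_fin (X.e i)).subset fun _ h => h.1)
      (fun i _ h => ⟨h.1, h.2.1, trivial⟩) L (θ := 1 / 32) (by norm_num)
      (fun i _ => Rep.cnt_frac Box.S_sub ht (X.e_pos i) le_rfl (hsm i)) h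
    rw [← hpts] at h1
    refine BoxC_le ((Box.pts_finite (X := X)).subset fun p hp i =>
      ⟨(hp.1 i).1, (hp.1 i).2.1⟩) ?_ (h1.trans ?_)
    · rintro p ⟨hp, h2⟩
      refine ⟨fun i => ⟨(hp i).1, (hp i).2, trivial⟩, lt_of_le_of_lt (Finset.card_le_card ?_) h2⟩
      intro i hi
      exact Finset.mem_filter.2 ⟨(Finset.mem_filter.1 hi).1, (Finset.mem_filter.1 hi).2.2.2⟩
    · refine mul_le_mul_of_nonneg_right (le_trans ?_ hA) hN
      exact mul_le_mul_of_nonneg_left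
        (pow_le_pow_of_le_one (by norm_num) (by norm_num) hL) (by positivity)
  have hty : ∀ p : ι → P, (fun i => R.nf (T.σ (p i))) ∈
      Fintype.piFinset fun _ : ι => Finset.range 5 := fun p =>
    Fintype.mem_piFinset.2 fun i => Finset.mem_range.2 (by
      rcases Rep.nf_cases (R := R) (T.σ (p i)) with h | h | h <;> omega)
  have hmain : ({p | p ∈ X.pts ∧ ¬ R.Good (X.A p) (X.x p) c ∧
      h ≤ (L.filter fun i => R.nf (T.σ (p i)) = 4).card ∧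
      h ≤ (L.filter fun i => R.nf (T.σ (p i)) = 1).card}.ncard : ℝ) ≤ ε / 2 * X.pts.ncard := by
    rw [BoxC_fibers (Box.pts_finite.subset fun _ h => h.1) _ _ fun p _ => hty p,
      BoxC_fibers Box.pts_finite _ _ fun p _ => hty p, Finset.mul_sum]
    refine Finset.sum_le_sum fun ty _ => ?_
    have h1 : {p | p ∈ X.pts ∧ (fun i => R.nf (T.σ (p i))) = ty} = X.tpts ty := by
      ext p
      simp [Box.tpts, funext_iff]
    rw [h1]
    by_cases h2 : h ≤ (L.filter fun i => ty i = 4).card ∧ h ≤ (L.filter fun i => ty i = 1).card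
    · refine BoxC_le ((Box.tpts_finite ty).subset fun _ h => h.1) ?_
        (H X L _ _ η ty hm (Finset.filter_subset _ _) (Finset.filter_subset _ _)
          (fun i hi => (Finset.mem_filter.1 hi).2) (fun i hi => (Finset.mem_filter.1 hi).2)
          h2.1 h2.2 ho hSA hSL)
      rintro p ⟨⟨hp, h3, -⟩, h4⟩
      exact ⟨⟨hp, fun i => congrFun h4 i⟩, h3⟩
    · refine BoxC_le (B := ∅) Set.finite_empty ?_ (by
        rw [Set.ncard_empty, Nat.cast_zero]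
        positivity)
      rintro p ⟨⟨-, -, h3⟩, rfl⟩
      exact h2 h3
  refine (BoxC_le ?_ ?_ (BoxC_union (BoxC_union (htail 4 (Or.inr rfl)) (htail 1 (Or.inl rfl)))
    hmain)).trans (le_of_eq (by ring))
  · refine (Box.pts_finite (X := X)).subset ?_
    rintro p ((h | h) | h) <;> exact h.1
  · rintro p ⟨hp, h1⟩
    by_cases h4 : (L.filter fun i => R.nf (T.σ (p i)) = 4).card < h
    · exact Or.inl (Or.inl ⟨hp, h4⟩)
    by_cases h5 : (L.filter fun i => R.nf (T.σ (p i)) = 1).card < h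
    · exact Or.inl (Or.inr ⟨hp, h5⟩)
    exact Or.inr ⟨hp, h1, not_lt.1 h4, not_lt.1 h5⟩

end

end Pool.Agent.Quad
end

-- merged part: Pool.Agent.Work.MP_60d5ce_nt.Qt.Dens
section
/-!
# Almost all twists are good
-/

namespace Pool.Agent.Quad

open scoped Classical
open Polynomial Filter

theorem small_of_poly (C D : ℕ) : ∃ e1 : ℕ, ∀ {W P : Type} [Group W] (T : Tame W P) (e N c : ℕ)
    (η : ℝ), e1 ≤ e → N ≤ C * e ^ D → c ≤ C * e ^ D → 1 ≤ η * (C * (e : ℝ) ^ D) →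
    T.Small η N c e := by
  have ht := (tendsto_pow_const_div_const_pow_of_one_lt (D * 5) (one_lt_two (α := ℝ))).const_mul
    (78 * (C : ℝ) ^ 5)
  rw [mul_zero] at ht
  obtain ⟨e1, h1⟩ := eventually_atTop.1 (ht.eventually_le_const one_pos)
  refine ⟨e1, fun T e N c η he hN hc hη => ?_⟩
  have h2 := h1 e he
  rw [← mul_div_assoc, div_le_one (by positivity)] at h2
  have hN' : (N : ℝ) ≤ C * (e : ℝ) ^ D := by exact_mod_cast hN
  have hc' : (c : ℝ) ≤ C * (e : ℝ) ^ D := by exact_mod_cast hc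
  have hM : (1 : ℝ) ≤ C * (e : ℝ) ^ D := by
    have : C * e ^ D ≠ 0 := fun h => by
      have h' : (C : ℝ) * (e : ℝ) ^ D = 0 := by exact_mod_cast h
      rw [h', mul_zero] at hη
      linarith only [hη]
    exact_mod_cast Nat.one_le_iff_ne_zero.2 this
  have h3 : 78 * (C * (e : ℝ) ^ D) ^ 5 ≤ 2 ^ e := by rwa [mul_pow, ← pow_mul, ← mul_assoc]
  generalize (C : ℝ) * (e : ℝ) ^ D = M at *
  have hq : (4 : ℝ) ≤ T.q := by exact_mod_cast T.q_ge
  have hQ : (1 : ℝ) ≤ (T.q : ℝ) ^ ((e + 1) / 2) := one_le_pow₀ (by linarith only [hq])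
  have h4 : (2 : ℝ) ^ e ≤ 2 * (T.q : ℝ) ^ (e / 2) :=
    calc (2 : ℝ) ^ e ≤ 2 ^ (2 * (e / 2) + 1) := pow_le_pow_right₀ one_le_two (by omega)
      _ = 2 * 4 ^ (e / 2) := by rw [pow_succ, pow_mul, mul_comm]; norm_num
      _ ≤ _ := by gcongr
  have h5 : (T.q : ℝ) ^ e = (T.q : ℝ) ^ (e / 2) * (T.q : ℝ) ^ ((e + 1) / 2) := by
    rw [← pow_add]
    congr 1
    omega
  have hη0 : 0 ≤ η := by
    by_contra hn
    linarith only [hη, hn, hN', mul_nonneg_of_nonpos_of_nonpos (Mathlib.Tactic.Linarith.sub_nonpos_of_le (Mathlib.Tactic.Linarith.natCast_nonneg ℝ N)) (le_of_lt (Mathlib.Tactic.Linarith.sub_neg_of_lt (lt_of_not_ge hn))), mul_nonneg_of_nonpos_of_nonpos (Mathlib.Tactic.Linarith.sub_nonpos_of_le hN') (le_of_lt (Mathlib.Tactic.Linarith.sub_neg_of_lt (lt_of_not_ge hn)))]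
  unfold Tame.Small Pre.err
  rw [h5]
  generalize (T.q : ℝ) ^ ((e + 1) / 2) = Q at *
  have p2 : M ≤ M ^ 3 := le_self_pow₀ hM three_ne_zero
  calc (N : ℝ) * (18 * (N : ℝ) ^ 2 * (c + 1) * Q + 2 * Q + c)
      ≤ M * (18 * M ^ 2 * (M + M) * Q + 2 * (M ^ 3 * Q) + M ^ 3 * Q) := by
        gcongr
        · exact le_mul_of_one_le_left (by linarith only [hQ]) (hM.trans p2)
        · exact (hc'.trans p2).trans (le_mul_of_one_le_right (by positivity) hQ)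
    _ = 1 * (39 * M ^ 4 * Q) := by ring
    _ ≤ (η * M) * (39 * M ^ 4 * Q) := by gcongr
    _ = η * (39 * M ^ 5 * Q) := by ring
    _ ≤ _ := by
        gcongr
        linarith only [h3, h4]

variable {k : Type} [Field k] [Fintype k] {Ω : Type} [Field Ω] [Algebra (RatFunc k) Ω]
  [Algebra k Ω] [IsScalarTower k (RatFunc k) Ω] [IsSepClosure (RatFunc k) Ω]

/-- the character with the ramification of a cube root of `d` and value `m` at `σ ∞` -/
noncomputable def xd (ℓ : Locs k Ω) (d : k[X]) (m : F2) (g : WG k Ω) : F2 :=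
  ∑ v ∈ fac d, (mult d v : F2) * chi ℓ v g + (wdeg g : F2) * m

theorem xd_hom (h6 : (6 : k) ≠ 0) (ℓ : Locs k Ω) (d : k[X]) (m : F2) :
    (tame h6 ℓ).IsHom (xd ℓ d m) := by
  have h := Tame.hom_add (Tame.hom_sum (T := tame h6 ℓ) (fac d)
    fun v _ => Tame.hom_smul_const ((tame h6 ℓ).χ_hom v) (mult d v : F2))
    (Tame.hom_smul_const Tame.hom_deg m)
  refine (congrArg _ (funext fun g => ?_)).mp h
  simp only [xd, Pi.add_apply, smul_eq_mul, mul_comm (mult d _ : F2)]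
  rfl

theorem Dens_root (ℓ : Locs k Ω) {d : k[X]} (hd : d ≠ 0) {v : Pl k} (hv : v ≠ none) :
    (d.map (algebraMap k (Kb k Ω))).rootMultiplicity (ℓ v).x = mult d v := by
  obtain ⟨p, rfl⟩ := Option.ne_none_iff_exists'.1 hv
  obtain ⟨c, hc, hn⟩ :=
    (FiniteMultiplicity.of_not_isUnit p.2.2.not_isUnit hd).exists_eq_pow_mul_and_not_dvd
  have h1 := rootMultiplicity_le_one_of_separable
    ((PerfectField.separable_of_irreducible p.2.2).map (f := algebraMap k (Kb k Ω))) (ℓ (some p)).x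
  have h2 := (rootMultiplicity_pos (Polynomial.map_ne_zero (f := algebraMap k (Kb k Ω))
    p.2.1.ne_zero) (x := (ℓ (some p)).x)).2 (by
      rw [IsRoot, eval_map_algebraMap]
      exact (ℓ (some p)).root p rfl)
  have h3 : (c.map (algebraMap k (Kb k Ω))).rootMultiplicity (ℓ (some p)).x = 0 := by
    refine rootMultiplicity_eq_zero fun h => hn ?_
    rw [IsRoot, eval_map_algebraMap] at h
    rw [galloc_min (ℓ (some p))]
    exact minpoly.dvd _ _ h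
  have h4 := Polynomial.map_ne_zero (f := algebraMap k (Kb k Ω)) hd
  show _ = multiplicity p.1 d
  generalize multiplicity p.1 d = m at hc
  rw [hc, Polynomial.map_mul] at h4 ⊢
  rw [rootMultiplicity_mul h4, h3, Polynomial.map_pow, ← count_roots, roots_pow,
    Multiset.count_nsmul, count_roots, le_antisymm h1 h2, mul_one, add_zero]

theorem kum_eq_xd (h6 : (6 : k) ≠ 0) (ℓ : Locs k Ω) {d : k[X]} (hd : d ≠ 0) {δ : Ω}
    (hδ : δ ^ 2 = algebraMap (RatFunc k) Ω (algebraMap k[X] (RatFunc k) d)) :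
    ∃ m, ∀ g, kum δ (gal g) = xd ℓ d m g := by
  have h0 : δ ≠ 0 := by
    rintro rfl
    rw [zero_pow two_ne_zero] at hδ
    exact (_root_.map_ne_zero _).2 (RatFunc.algebraMap_ne_zero hd) hδ.symm
  have hh : (tame h6 ℓ).IsHom fun g => kum δ (gal g) := kum_hom h6 ℓ h0 hδ
  have hτ : ∀ v, v ≠ none → kum δ (gal (ℓ v).τ) = (mult d v : F2) := fun v hv => by
    have := (ℓ v).kum_tau h6 h0 (by rw [hδ, AlgEquiv.commutes])
      (n := ((d.map (algebraMap k (Kb k Ω))).rootMultiplicity (ℓ v).x : ℤ)) (by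
        rw [hδ, ← aeval_tt_base, ← aeval_tt_map]
        exact (ℓ v).w_poly hv (Polynomial.map_ne_zero hd))
    rw [this, Dens_root ℓ hd hv, Int.cast_natCast]
  refine ⟨kum δ (gal (ℓ none).σ), fun g => ?_⟩
  have h1 := Tame.hom_expand hh (A := fac d) (fun v hv hi => by
    have h2 : mult d v = 0 := not_not.1 fun h => hv ((mem_fac hd).2 h)
    exact (hτ v hi).trans (by rw [h2, Nat.cast_zero])) g
  have h2 : (tame h6 ℓ).inf ∉ fac d := fun h => ((mem_fac_iff hd).1 h).1 rfl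
  rw [@Finset.erase_eq_of_notMem _ (_) _ _ h2] at h1
  refine h1.trans (congrArg₂ (· + ·) (Finset.sum_congr rfl fun v hv => ?_) rfl)
  exact (mul_comm _ _).trans (congrArg₂ (· * ·) (hτ v ((mem_fac_iff hd).1 hv).1) rfl)

/-- the places with a local condition for the twist by `d` -/
noncomputable def Ad {h6 : (6 : k) ≠ 0} {ℓ : Locs k Ω} (R : Rep (tame h6 ℓ)) (d : k[X]) :
    Finset (Pl k) :=
  R.S ∪ (fac d).filter fun v => Odd (mult d v)

theorem xd_tau (h6 : (6 : k) ≠ 0) (ℓ : Locs k Ω) {d : k[X]} (hd : d ≠ 0) (m : F2) {v : Pl k}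
    (hv : v ≠ none) : xd ℓ d m (ℓ v).τ = (mult d v : F2) := by
  rw [xd, (ℓ v).deg_τ, Finset.sum_eq_single v (fun w _ hw => by
      rw [chi_ne h6 ℓ w v hw.symm hv, mul_zero]) fun h => by
      rw [not_not.1 fun h' => h ((mem_fac hd).2 h'), Nat.cast_zero, zero_mul], chi_self h6 ℓ v hv]
  simp

theorem ram_xd {h6 : (6 : k) ≠ 0} {ℓ : Locs k Ω} (R : Rep (tame h6 ℓ)) {d : k[X]} (hd : d ≠ 0)
    (m : F2) : R.Ram (xd ℓ d m) (Ad R d) := by
  refine ⟨Finset.subset_union_left, fun v hv hS => ?_, fun v hv => ?_⟩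
  · refine (xd_tau h6 ℓ hd m (v := v) fun h => hS (h ▸ R.inf_mem)).trans (ZMod.natCast_eq_one_iff_odd.2 ?_)
    exact (Finset.mem_filter.1 ((Finset.mem_union.1 hv).resolve_left hS)).2
  · rw [Ad, Finset.mem_union, not_or, Finset.mem_filter, not_and, mem_fac hd] at hv
    refine (xd_tau h6 ℓ hd m (v := v) fun h => hv.1 (h ▸ R.inf_mem)).trans
      (ZMod.natCast_eq_zero_iff_even.2 ?_)
    by_cases h : mult d v = 0
    · rw [h]
      exact Even.zero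
    · exact Nat.not_odd_iff_even.1 (hv.2 h)

theorem Ad_sub {h6 : (6 : k) ≠ 0} {ℓ : Locs k Ω} (R : Rep (tame h6 ℓ)) (d : k[X]) :
    Ad R d ⊆ R.S ∪ fac d := Finset.union_subset_union_right (Finset.filter_subset _ _)

/-- the box of a factorisation type -/
noncomputable def DensBox {h6 : (6 : k) ≠ 0} {ℓ : Locs k Ω} (R : Rep (tame h6 ℓ))
    {d0 : k[X]} (h0 : d0 ≠ 0) (m : F2) (𝓔 : Finset ℕ) (hE : ∀ e ∈ 𝓔, 0 < e) : Box R 𝓔 where
  S1 := Ad R d0
  x0 := xd ℓ d0 m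
  e i := i
  x0_hom := xd_hom h6 ℓ d0 m
  ram := ram_xd R h0 m
  e_inj := Subtype.val_injective
  e_pos i := hE i i.2

theorem NN_add (a b : ℕ) : NN (a + b) = NN a * (2 ^ b) ^ 32 := by
  rw [NN, NN, ← pow_mul, ← pow_add]
  congr 1
  ring

section aux

variable {h6 : (6 : k) ≠ 0} {ℓ : Locs k Ω} (R : Rep (tame h6 ℓ)) {e0 A n : ℕ} {d0 : k[X]}
  {𝓔 : Finset ℕ} {p : 𝓔 → Pl k}

theorem Dens_inj (hp : p ∈ BoxP k 𝓔) : Function.Injective p := fun i j h =>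
  Subtype.ext (by rw [← (hp i).1, ← (hp j).1, h])

theorem Dens_disj (hs : ∀ v ∈ fac d0, pdg v < e0) (hE : ∀ e ∈ 𝓔, e0 ≤ e) (hp : p ∈ BoxP k 𝓔)
    (J : Finset 𝓔) : Disjoint (fac d0) (J.image p) := by
  refine Finset.disjoint_left.2 fun v hv hv' => ?_
  obtain ⟨i, -, rfl⟩ := Finset.mem_image.1 hv'
  have h1 := hs _ hv
  have h2 := hE i i.2
  rw [(hp i).1] at h1
  omega

theorem Dens_pts (h0 : d0 ≠ 0) (hs : ∀ v ∈ fac d0, pdg v < e0) (hE : ∀ e ∈ 𝓔, e0 ≤ e)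
    (hS : ∀ v ∈ R.S, pdg v < e0) {m : F2} {hE' : ∀ e ∈ 𝓔, 0 < e} :
    (DensBox R h0 m 𝓔 hE').pts = BoxP k 𝓔 := by
  refine Set.ext fun p => forall_congr' fun i => and_congr_right fun h => ⟨fun h1 h2 =>
    h1 (Finset.mem_union_left _ (h2 ▸ R.inf_mem)), fun _ h2 => ?_⟩
  have h3 : pdg (p i) = i := h
  have h4 := hE i i.2
  rcases Finset.mem_union.1 (Ad_sub R d0 h2) with h2 | h2
  · have := hS _ h2
    omega
  · have := hs _ h2
    omega

theorem Dens_A (h0 : d0 ≠ 0) (hs : ∀ v ∈ fac d0, pdg v < e0) (hE : ∀ e ∈ 𝓔, e0 ≤ e)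
    (hp : p ∈ BoxP k 𝓔) {m : F2} {hE' : ∀ e ∈ 𝓔, 0 < e} :
    (DensBox R h0 m 𝓔 hE').A p = Ad R (d0 * ∏ i, pl (p i)) := by
  obtain ⟨h1, h2, h3⟩ := fac_box h0 hs hE hp
  ext v
  simp only [Box.A, DensBox, Ad, h1, Finset.mem_union, Finset.mem_filter, or_and_right, or_assoc,
    Finset.mem_image]
  refine or_congr_right (or_congr (and_congr_right fun hv => by rw [h2 v hv])
    (and_iff_left_of_imp fun hv => ?_).symm)
  obtain ⟨i, -, rfl⟩ := hv
  rw [h3]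
  exact odd_one

theorem Dens_x (h0 : d0 ≠ 0) (hs : ∀ v ∈ fac d0, pdg v < e0) (hE : ∀ e ∈ 𝓔, e0 ≤ e)
    (hp : p ∈ BoxP k 𝓔) {m : F2} {hE' : ∀ e ∈ 𝓔, 0 < e} :
    (DensBox R h0 m 𝓔 hE').x p = xd ℓ (d0 * ∏ i, pl (p i)) m := by
  obtain ⟨h1, h2, h3⟩ := fac_box h0 hs hE hp
  funext g
  show xd ℓ d0 m g + ∑ i, chi ℓ (p i) g = _
  rw [xd, xd, h1, Finset.sum_union (Dens_disj hs hE hp _),
    Finset.sum_image (Dens_inj hp).injOn, add_right_comm]
  simp only [h3, Nat.cast_one, one_mul]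
  rw [Finset.sum_congr rfl fun v hv => by rw [← h2 v hv]]

theorem Dens_cnt (h0 : d0 ≠ 0) (hs : ∀ v ∈ fac d0, pdg v < e0) (hE : ∀ e ∈ 𝓔, e0 ≤ e)
    (hp : p ∈ BoxP k 𝓔) (hG : GT e0 A n (d0 * ∏ i, pl (p i))) {e : ℕ} (he : e0 ≤ e)
    (J : Finset 𝓔) (hJ : ∀ j ∈ J, (j : ℕ) ≤ e) :
    (2 ^ ((fac d0).card + J.card)) ^ 32 ≤ e ^ 128 ∧ (fac d0).card + J.card ≤ e ^ 4 ∧
      ∑ v ∈ fac d0, pdg v ≤ e ^ 5 ∧ ∑ j ∈ J, (j : ℕ) ≤ e ^ 5 := by
  have h1 : 2 ^ ((fac d0).card + J.card) ≤ e ^ 4 := by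
    refine le_trans (Nat.pow_le_pow_right two_pos ?_) (hG.few e he)
    rw [← Finset.card_image_of_injective J (Dens_inj hp),
      ← Finset.card_union_of_disjoint (Dens_disj hs hE hp J), (fac_box h0 hs hE hp).1]
    refine Finset.card_le_card fun v hv => Finset.mem_filter.2 ?_
    rcases Finset.mem_union.1 hv with hv | hv
    · exact ⟨Finset.mem_union_left _ hv, (hs v hv).le.trans he⟩
    · obtain ⟨i, hi, rfl⟩ := Finset.mem_image.1 hv
      exact ⟨Finset.mem_union_right _ (Finset.mem_image_of_mem _ (Finset.mem_univ _)),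
        (hp i).1.trans_le (hJ i hi)⟩
  have h2 : (fac d0).card + J.card ≤ e ^ 4 := Nat.lt_two_pow_self.le.trans h1
  refine ⟨?_, h2, ?_, ?_⟩
  · exact (Nat.pow_le_pow_left h1 32).trans_eq (by rw [← pow_mul])
  · refine (Finset.sum_le_card_nsmul _ _ e fun v hv => (hs v hv).le.trans he).trans ?_
    rw [smul_eq_mul, pow_succ]
    exact Nat.mul_le_mul_right _ (by omega)
  · refine (Finset.sum_le_card_nsmul _ _ e hJ).trans ?_
    rw [smul_eq_mul, pow_succ]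
    exact Nat.mul_le_mul_right _ (by omega)

theorem Dens_L (h0 : d0 ≠ 0) (hs : ∀ v ∈ fac d0, pdg v < e0) (hE : ∀ e ∈ 𝓔, e0 ≤ e)
    (hp : p ∈ BoxP k 𝓔) (hG : GT e0 A n (d0 * ∏ i, pl (p i))) (hn : e0 ^ 2 ≤ n) :
    A ≤ (Finset.univ.filter fun i : 𝓔 => n ≤ (i : ℕ) ^ 2 ∧ (i : ℕ) % 2 = 1).card := by
  refine hG.many.trans (le_trans (Finset.card_le_card fun v hv => ?_)
    (Finset.card_image_le (f := p)))
  rw [Finset.mem_filter, (fac_box h0 hs hE hp).1, Finset.mem_union] at hv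
  rcases hv with ⟨hv | hv, h⟩
  · exact absurd (hn.trans h.1) (not_le.2 (Nat.pow_lt_pow_left (hs v hv) two_ne_zero))
  · obtain ⟨i, -, rfl⟩ := Finset.mem_image.1 hv
    rw [(hp i).1] at h
    exact Finset.mem_image_of_mem _ (Finset.mem_filter.2 ⟨Finset.mem_univ _, h⟩)

theorem Dens_sum (d : k[X]) : ∑ v ∈ Ad R d, pdg v ≤ ∑ v ∈ R.S, pdg v + ∑ v ∈ fac d, pdg v := by
  refine (Finset.sum_le_sum_of_subset (Ad_sub R d)).trans ?_
  rw [← Finset.sum_union_inter]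
  exact Nat.le_add_right _ _

theorem Dens_card (d : k[X]) : (Ad R d).card ≤ R.S.card + (fac d).card :=
  (Finset.card_le_card (Ad_sub R d)).trans (Finset.card_union_le _ _)

theorem Dens_smA (h0 : d0 ≠ 0) (hs : ∀ v ∈ fac d0, pdg v < e0) (hE : ∀ e ∈ 𝓔, e0 ≤ e)
    (hp : p ∈ BoxP k 𝓔) (hG : GT e0 A n (d0 * ∏ i, pl (p i))) (h9 : 17 ≤ e0) (m : F2)
    (hE' : ∀ e ∈ 𝓔, 0 < e) {C : ℕ} (hC : NN 0 + ∑ v ∈ R.S, pdg v + 1 ≤ C)
    (h : ∀ (e N c : ℕ) (η : ℝ), e0 ≤ e → N ≤ C * e ^ 128 → c ≤ C * e ^ 128 →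
      1 ≤ η * ((C : ℝ) * (e : ℝ) ^ 128) → (tame h6 ℓ).Small η N c e) :
    (DensBox R h0 m 𝓔 hE').SmA fun i => 1 / (i : ℝ) ^ 2 := by
  refine ⟨?_, fun i => ?_⟩
  · rw [Finset.sum_coe_sort 𝓔 fun i => 1 / (i : ℝ) ^ 2]
    have h1 := sum_Ioc_inv_sq_le_sub (α := ℝ) (k := 16) (n := 16 + 𝓔.sup id) (by norm_num)
      (Nat.le_add_right _ _)
    have h2 : (0 : ℝ) ≤ ((16 + 𝓔.sup id : ℕ) : ℝ)⁻¹ := by positivity
    have h3 : ∑ i ∈ 𝓔, ((i : ℝ) ^ 2)⁻¹ ≤ ∑ i ∈ Finset.Ioc 16 (16 + 𝓔.sup id), ((i : ℝ) ^ 2)⁻¹ :=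
      Finset.sum_le_sum_of_subset_of_nonneg (fun i hi => Finset.mem_Ioc.2
        ⟨by have := hE i hi; omega, (Finset.le_sup (f := id) hi).trans (Nat.le_add_left _ _)⟩)
        fun _ _ _ => by positivity
    simp only [one_div]
    push_cast at h1 h2
    linarith only [h3, h1, h2]
  · have hi := hE i i.2
    have key : ∀ J : Finset 𝓔, (∀ j ∈ J, (j : ℕ) ≤ i) → (tame h6 ℓ).Small (1 / (i : ℝ) ^ 2)
        (NN J.card) (∑ v ∈ Ad R d0, pdg v + ∑ j ∈ J, (j : ℕ)) i := by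
      intro J hJ
      obtain ⟨c1, -, c3, c4⟩ := Dens_cnt h0 hs hE hp hG hi J hJ
      have c5 := Dens_sum R d0
      generalize (i : ℕ) = e at *
      have e1 : 1 ≤ e ^ 128 := Nat.one_le_pow _ _ (by omega)
      have e2 : 2 * e ^ 5 ≤ e ^ 128 :=
        calc 2 * e ^ 5 ≤ e ^ 123 * e ^ 5 := Nat.mul_le_mul_right _
              (le_trans (by omega) (Nat.le_self_pow (by norm_num) e))
          _ = e ^ 128 := by rw [← pow_add]
      refine h _ _ _ _ hi ?_ ?_ ?_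
      · calc NN J.card ≤ NN (0 + ((fac d0).card + J.card)) := NN_mono (by omega)
          _ ≤ NN 0 * e ^ 128 := by
            rw [NN_add]
            exact Nat.mul_le_mul_left _ c1
          _ ≤ _ := Nat.mul_le_mul_right _ (by omega)
      · have a1 := Nat.le_mul_of_pos_right (∑ v ∈ R.S, pdg v) e1
        have a2 := Nat.mul_le_mul_right (e ^ 128) hC
        rw [add_mul, add_mul] at a2
        generalize e ^ 128 = M at *
        omega
      · have e3 : (1 : ℝ) ≤ e := by exact_mod_cast (by omega : 1 ≤ e)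
        have e4 : (1 : ℝ) ≤ C := by exact_mod_cast (by omega : 1 ≤ C)
        rw [one_div, ← div_eq_inv_mul, one_le_div (by positivity)]
        exact (pow_le_pow_right₀ e3 (by norm_num)).trans (le_mul_of_one_le_left (by positivity) e4)
    exact key _ fun j hj => le_of_lt (Finset.mem_filter.1 hj).2

theorem Dens_smL (h0 : d0 ≠ 0) (hs : ∀ v ∈ fac d0, pdg v < e0) (hE : ∀ e ∈ 𝓔, e0 ≤ e)
    (hp : p ∈ BoxP k 𝓔) (hG : GT e0 A n (d0 * ∏ i, pl (p i)))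
    (hd : (d0 * ∏ i, pl (p i)).natDegree = n) (hn : e0 ^ 2 ≤ n) (h9 : 17 ≤ e0) (m : F2)
    (hE' : ∀ e ∈ 𝓔, 0 < e) {B e3 C : ℕ} (hB : 0 < B) (hn3 : e3 ^ 2 ≤ n)
    (hC : B * NN R.S.card + ∑ v ∈ R.S, pdg v + B + 1 ≤ C)
    (h : ∀ (e N c : ℕ) (η : ℝ), e3 ≤ e → N ≤ C * e ^ 256 → c ≤ C * e ^ 256 →
      1 ≤ η * ((C : ℝ) * (e : ℝ) ^ 256) → (tame h6 ℓ).Small η N c e) :
    (DensBox R h0 m 𝓔 hE').SmL B
      (Finset.univ.filter fun i : 𝓔 => n ≤ (i : ℕ) ^ 2 ∧ (i : ℕ) % 2 = 1) := by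
  intro i hi
  have h1 := (Finset.mem_filter.1 hi).2.1
  have hne : d0 * ∏ i, pl (p i) ≠ 0 :=
    mul_ne_zero h0 (Finset.prod_ne_zero_iff.2 fun j _ => (monic_pl _).ne_zero)
  obtain ⟨c1, -, c3, c4⟩ := Dens_cnt h0 hs hE hp hG ((Nat.le_self_pow two_ne_zero e0).trans hn)
    Finset.univ fun j _ => by
      rw [← (hp j).1, ← natDegree_pl (hp j).2, ← hd]
      exact natDegree_le_of_dvd
        ((Finset.dvd_prod_of_mem (fun i => pl (p i)) (Finset.mem_univ j)).mul_left _) hne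
  have c5 := Dens_sum R d0
  have c6 := Dens_card R d0
  have hi' := hE i i.2
  show (tame h6 ℓ).Small _ (B * NN ((Ad R d0).card + (Finset.univ : Finset 𝓔).card))
    (∑ v ∈ Ad R d0, pdg v + B * ∑ j : 𝓔, (j : ℕ)) i
  generalize (i : ℕ) = e at *
  have e1 : 1 ≤ e ^ 256 := Nat.one_le_pow _ _ (by omega)
  have e2 : n ^ 128 ≤ e ^ 256 := (Nat.pow_le_pow_left h1 128).trans_eq (by rw [← pow_mul])
  have e5 : n ^ 5 ≤ e ^ 256 :=
    ((Nat.pow_le_pow_left h1 5).trans_eq (by rw [← pow_mul] : (e ^ 2) ^ 5 = e ^ 10)).trans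
      (Nat.pow_le_pow_right (by omega) (by norm_num))
  refine h _ _ _ _ ((Nat.pow_le_pow_iff_left two_ne_zero).1 (hn3.trans h1)) ?_ ?_ ?_
  · calc B * NN ((Ad R d0).card + (Finset.univ : Finset 𝓔).card)
        ≤ B * NN (R.S.card + ((fac d0).card + (Finset.univ : Finset 𝓔).card)) :=
          Nat.mul_le_mul_left _ (NN_mono (by omega))
      _ ≤ B * NN R.S.card * e ^ 256 := by
        rw [NN_add, ← mul_assoc]
        exact Nat.mul_le_mul_left _ (c1.trans e2)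
      _ ≤ _ := Nat.mul_le_mul_right _ (by omega)
  · have a1 := Nat.le_mul_of_pos_right (∑ v ∈ R.S, pdg v) e1
    have a2 := Nat.mul_le_mul_left B (c4.trans e5)
    have a3 := Nat.mul_le_mul_right (e ^ 256) hC
    rw [add_mul, add_mul, add_mul] at a3
    generalize e ^ 256 = M at *
    omega
  · have e3 : (1 : ℝ) ≤ (e : ℝ) ^ 256 := by exact_mod_cast e1
    have e4 : (B : ℝ) ≤ C := by exact_mod_cast (by omega : B ≤ C)
    rw [one_div, ← div_eq_inv_mul, one_le_div (by positivity)]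
    exact e4.trans (le_mul_of_one_le_right (by positivity) e3)

end aux

theorem good_density (h6 : (6 : k) ≠ 0) (ℓ : Locs k Ω) (R : Rep (tame h6 ℓ)) (c : ℕ) {ε : ℝ}
    (hε : 0 < ε) : ∀ᶠ n in atTop,
    ({d | d ∈ Pn k n ∧ ¬ ∀ m, R.Good (Ad R d) (xd ℓ d m) c}.ncard : ℝ) ≤ ε * (Pn k n).ncard := by
  obtain ⟨e1, h1⟩ := stat_good (k := k) (half_pos hε)
  obtain ⟨e2, h2⟩ := small_of_poly (NN 0 + ∑ v ∈ R.S, pdg v + 1) 128
  obtain ⟨e0, he1, he2, h9, hS⟩ : ∃ e0, e1 ≤ e0 ∧ e2 ≤ e0 ∧ 17 ≤ e0 ∧ ∀ v ∈ R.S, pdg v < e0 :=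
    ⟨e1 + e2 + 17 + ∑ v ∈ R.S, pdg v, by omega, by omega, by omega, fun v hv => by
      have := Finset.single_le_sum (f := pdg) (fun _ _ => Nat.zero_le _) hv
      omega⟩
  obtain ⟨A, B, hB, hbox⟩ := box R (R.S.card + e0 ^ 4) c (ε := ε / 4) (by positivity)
  obtain ⟨e3, h3⟩ := small_of_poly (B * NN R.S.card + ∑ v ∈ R.S, pdg v + B + 1) 256
  filter_upwards [h1 e0 he1 A, eventually_ge_atTop (e0 ^ 2), eventually_ge_atTop (e3 ^ 2)]
    with n hn hn0 hn3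
  have key := decomp e0 A n (fun d => ¬ ∀ m, R.Good (Ad R d) (xd ℓ d m) c) (half_pos hε).le
    fun d0 𝓔 h0 hs hE ⟨p0, hp0, hdeg, hG⟩ => by
      have hE' : ∀ e ∈ 𝓔, 0 < e := fun e he => by have := hE e he; omega
      have hm : ∀ m : F2, ({p | p ∈ BoxP k 𝓔 ∧ ¬ R.Good (Ad R (d0 * ∏ i, pl (p i)))
          (xd ℓ (d0 * ∏ i, pl (p i)) m) c}.ncard : ℝ) ≤ ε / 4 * (BoxP k 𝓔).ncard := by
        intro m
        have hw := Dens_cnt h0 hs hE hp0 hG le_rfl ∅ (by simp)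
        have := hbox (DensBox R h0 m 𝓔 hE') _ (fun i => 1 / (i : ℝ) ^ 2)
          ((Dens_card R d0).trans (Nat.add_le_add_left (by simpa using hw.2.1) _))
          (Dens_L h0 hs hE hp0 hG hn0) (fun i hi => (Finset.mem_filter.1 hi).2.2)
          (Dens_smA R h0 hs hE hp0 hG h9 m hE' le_rfl fun e N c η he =>
            h2 _ e N c η (he2.trans he))
          (Dens_smL R h0 hs hE hp0 hG hdeg hn0 h9 m hE' hB hn3 le_rfl (h3 _))
        rw [Dens_pts R h0 hs hE hS] at this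
        refine le_of_eq_of_le (congrArg _ (congrArg _ (Set.ext fun p => ?_))) this
        exact and_congr_right fun hp => by rw [Dens_x R h0 hs hE hp, Dens_A R h0 hs hE hp]
      have hf := BoxP_finite (k := k) 𝓔
      have hu : {p | p ∈ BoxP k 𝓔 ∧ ¬ ∀ m, R.Good (Ad R (d0 * ∏ i, pl (p i)))
            (xd ℓ (d0 * ∏ i, pl (p i)) m) c}.ncard ≤
          {p | p ∈ BoxP k 𝓔 ∧ ¬ R.Good (Ad R (d0 * ∏ i, pl (p i)))
            (xd ℓ (d0 * ∏ i, pl (p i)) 0) c}.ncard +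
          {p | p ∈ BoxP k 𝓔 ∧ ¬ R.Good (Ad R (d0 * ∏ i, pl (p i)))
            (xd ℓ (d0 * ∏ i, pl (p i)) 1) c}.ncard := by
        refine le_trans ?_ (Set.ncard_union_le _ _)
        refine Set.ncard_le_ncard (fun p hp => ?_)
          ((hf.subset fun _ h => h.1).union (hf.subset fun _ h => h.1))
        obtain ⟨m, hm⟩ := not_forall.1 hp.2
        rcases F2_cases m with rfl | rfl
        exacts [.inl ⟨hp.1, hm⟩, .inr ⟨hp.1, hm⟩]
      have hu' := (Nat.cast_le (α := ℝ)).2 hu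
      push_cast at hu'
      linarith [hm 0, hm 1]
  have hf := Pn_finite (k := k) n
  have hu : {d | d ∈ Pn k n ∧ ¬ ∀ m, R.Good (Ad R d) (xd ℓ d m) c}.ncard ≤
      {d | d ∈ Pn k n ∧ ¬ GT e0 A n d}.ncard +
      {d | d ∈ Pn k n ∧ GT e0 A n d ∧ ¬ ∀ m, R.Good (Ad R d) (xd ℓ d m) c}.ncard := by
    refine le_trans (Set.ncard_le_ncard (fun d hd => ?_) ((hf.subset fun _ h => h.1).union
      (hf.subset fun _ h => h.1))) (Set.ncard_union_le _ _)
    by_cases hG : GT e0 A n d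
    exacts [.inr ⟨hd.1, hG, hd.2⟩, .inl ⟨hd.1, hG⟩]
  have hu' := (Nat.cast_le (α := ℝ)).2 hu
  push_cast at hu'
  linarith

end Pool.Agent.Quad
end
end

-- merged part: Pool.Agent.Work.MP_60d5ce_nt.Lb.CZ
section
-- merged part: Pool.Agent.Work.MP_60d5ce_nt.Qt.GeoM
section
/-!
# The generalised eigenspace has corank at most one

Hints.  `ZG` and `IsB` define subgroups of `W → A`, `nu` is additive and preserves both.
* `lift_pair`: `2 ^ n • c i` is the coboundary of `pt j t = 2 ^ n • pt (n + j) t`; subtract the coboundary of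
  `pt (n + j) t`, so that `2 ^ n` kills `c i` on the geometric group.  Then `nu c0` and
  `nu c1 + 2 ^ b • c0` are coboundaries of points `y i` with `2 ^ n • y i` fixed by the geometric group,
  hence zero (`Rep.VD_of_fix`).  For the second component note
  `nu c1 + 2 ^ b • a φ (c0 (φ⁻¹ g φ)) = nu c1 + 2 ^ b • c0 + 2 ^ b • nu c0`.
  Take coordinates (`crd n`), apply `Lat.extend` for `R.hat lam`, then `Lat.locOK_of_tau` on `A`
  and `act_unr` outside.  If `p0 (digV 0 (ψ g)) = db t g` then `2 ^ (n - 1) • c0 g = pt 1 (ψ g)` is the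
  coboundary of `pt 1 (lftV t)`.
* `geo_main`: `c` of `hat_fin`, `c0 = 4 c`, `alg_main` with `n1 = K1 + c0`, `n2 = K + c0`, `a1 = 4 K1`;
  `lam = 0` (`b` arbitrary is not needed: use `hlam` with the integer `0`), `lam = 2 ^ a`.
-/

namespace Pool.Agent.Quad

open scoped Classical

noncomputable section

variable {W P : Type} [Group W] {T : Tame W P}

/-- a group of points with Tate module `R` twisted by `x` -/
structure GM (R : Rep T) (x : W → F2) (A : Type) [AddCommGroup A] extends TateB A where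
  a : W → A →+ A
  a_pt : ∀ g j t, a g (pt j t) = pt j (R.act x g t)

namespace GM

variable {R : Rep T} {x : W → F2} {A : Type} [AddCommGroup A] (M : GM R x A)

/-- cocycles on the geometric group, trivial on inertia -/
def ZG (c : W → A) : Prop :=
  (∃ j : ℕ, ∀ g, T.deg g = 0 → 2 ^ j • c g = 0) ∧
    (∃ U, T.Adm U ∧ ∀ g, T.deg g = 0 → ∀ u ∈ U, c (g * u) = c g) ∧
    (∀ g h, T.deg g = 0 → T.deg h = 0 → c (g * h) = c g + M.a g (c h)) ∧
    ∀ v g, ∃ y, Tor2 y ∧ c (g * T.τ v * g⁻¹) = M.a (g * T.τ v * g⁻¹) y - y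

/-- coboundaries on the geometric group -/
def IsB (c : W → A) : Prop := ∃ y, Tor2 y ∧ ∀ g, T.deg g = 0 → c g = M.a g y - y

/-- the operator `φ - 1` -/
def nu (φ : W) (c : W → A) (g : W) : A := M.a φ (c (φ⁻¹ * g * φ)) - c g

variable {M}

theorem GeoM_zero : Tor2 (0 : A) := ⟨0, smul_zero _⟩

theorem GeoM_le {y : A} {i j : ℕ} (h : 2 ^ i • y = 0) (hij : i ≤ j) : 2 ^ j • y = 0 := by
  obtain ⟨k, rfl⟩ := Nat.exists_eq_add_of_le' hij
  rw [pow_add, mul_smul, h, smul_zero]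

theorem GeoM_add {y z : A} (hy : Tor2 y) (hz : Tor2 z) : Tor2 (y + z) := by
  obtain ⟨i, hi⟩ := hy
  obtain ⟨j, hj⟩ := hz
  exact ⟨i + j, by rw [smul_add, GeoM_le hi le_self_add, GeoM_le hj le_add_self, add_zero]⟩

theorem GeoM_neg {y : A} (hy : Tor2 y) : Tor2 (-y) :=
  hy.imp fun _ h => by rw [smul_neg, h, neg_zero]

theorem GeoM_a (g : W) {y : A} (hy : Tor2 y) : Tor2 (M.a g y) :=
  hy.imp fun _ h => by rw [← map_nsmul, h, map_zero]

theorem GeoM_mul (hx : T.IsHom x) (g h : W) {y : A} (hy : Tor2 y) :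
    M.a (g * h) y = M.a g (M.a h y) := by
  obtain ⟨j, hj⟩ := hy
  obtain ⟨t, rfl⟩ := M.surj j y hj
  rw [M.a_pt, M.a_pt, M.a_pt, Lat.act_mul hx]

theorem GeoM_conj (hx : T.IsHom x) (φ g : W) {y : A} (hy : Tor2 y) :
    M.a φ (M.a (φ⁻¹ * g * φ) y) = M.a g (M.a φ y) := by
  rw [← GeoM_mul hx _ _ hy, ← GeoM_mul hx _ _ hy, mul_assoc, mul_inv_cancel_left]

theorem GeoM_deg (φ : W) {g : W} (h : T.deg g = 0) : T.deg (φ⁻¹ * g * φ) = 0 := by
  rw [T.deg_mul, T.deg_mul, T.deg_inv, h, add_zero, neg_add_cancel]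

variable (M) in
/-- the group of cocycles -/
def GeoM_Z : AddSubgroup (W → A) where
  carrier := {c | M.ZG c}
  zero_mem' := ⟨⟨0, fun _ _ => smul_zero _⟩, ⟨_, T.adm_G0, fun _ _ _ _ => rfl⟩,
    fun _ _ _ _ => by simp, fun _ _ => ⟨0, GeoM_zero, by simp⟩⟩
  add_mem' := by
    rintro c d ⟨⟨i, hi⟩, ⟨U, hU, h1⟩, h2, h3⟩ ⟨⟨j, hj⟩, ⟨U', hU', k1⟩, k2, k3⟩
    refine ⟨⟨i + j, fun g hg => ?_⟩, ⟨_, T.adm_inf _ _ hU hU', fun g hg u hu => ?_⟩,
      fun g h hg hh => ?_, fun v g => ?_⟩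
    · rw [Pi.add_apply, smul_add, GeoM_le (hi g hg) le_self_add, GeoM_le (hj g hg) le_add_self,
        add_zero]
    · rw [Pi.add_apply, Pi.add_apply, h1 g hg u hu.1, k1 g hg u hu.2]
    · simp only [Pi.add_apply, h2 g h hg hh, k2 g h hg hh, map_add]
      abel
    · obtain ⟨y, hy, e⟩ := h3 v g
      obtain ⟨z, hz, e'⟩ := k3 v g
      exact ⟨y + z, GeoM_add hy hz, by rw [Pi.add_apply, e, e', map_add, add_sub_add_comm]⟩
  neg_mem' := by
    rintro c ⟨⟨i, hi⟩, ⟨U, hU, h1⟩, h2, h3⟩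
    refine ⟨⟨i, fun g hg => ?_⟩, ⟨_, hU, fun g hg u hu => ?_⟩, fun g h hg hh => ?_, fun v g => ?_⟩
    · rw [Pi.neg_apply, smul_neg, hi g hg, neg_zero]
    · rw [Pi.neg_apply, Pi.neg_apply, h1 g hg u hu]
    · simp only [Pi.neg_apply, h2 g h hg hh, map_neg, neg_add]
    · obtain ⟨y, hy, e⟩ := h3 v g
      exact ⟨-y, GeoM_neg hy, by rw [Pi.neg_apply, e, map_neg, neg_sub', sub_neg_eq_add]⟩

variable (M) in
/-- the group of coboundaries -/
def GeoM_B : AddSubgroup (W → A) where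
  carrier := {c | M.IsB c}
  zero_mem' := ⟨0, GeoM_zero, fun _ _ => by simp⟩
  add_mem' := by
    rintro c d ⟨y, hy, e⟩ ⟨z, hz, e'⟩
    exact ⟨y + z, GeoM_add hy hz, fun g hg => by
      rw [Pi.add_apply, e g hg, e' g hg, map_add, add_sub_add_comm]⟩
  neg_mem' := by
    rintro c ⟨y, hy, e⟩
    exact ⟨-y, GeoM_neg hy, fun g hg => by
      rw [Pi.neg_apply, e g hg, map_neg, neg_sub', sub_neg_eq_add]⟩

variable (M) in
/-- the operator as an additive map -/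
def GeoM_nu (φ : W) : (W → A) →+ (W → A) :=
  AddMonoidHom.mk' (M.nu φ) fun c d => funext fun g => by
    simp only [nu, Pi.add_apply, map_add, add_sub_add_comm]

theorem GeoM_nuZ (hx : T.IsHom x) (φ : W) {c : W → A} (h : c ∈ GeoM_Z M) :
    GeoM_nu M φ c ∈ GeoM_Z M := by
  refine sub_mem (show (fun g => M.a φ (c (φ⁻¹ * g * φ))) ∈ GeoM_Z M from ?_) h
  obtain ⟨⟨i, hi⟩, ⟨U, hU, h1⟩, h2, h3⟩ := h
  refine ⟨⟨i, fun g hg => ?_⟩, ⟨_, hU, fun g hg u hu => ?_⟩, fun g h hg hh => ?_, fun v g => ?_⟩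
  · rw [← map_nsmul, hi _ (GeoM_deg φ hg), map_zero]
  · have e : φ⁻¹ * (g * u) * φ = φ⁻¹ * g * φ * (φ⁻¹ * u * φ) := by group
    simp only [e, h1 _ (GeoM_deg φ hg) _ ((T.adm_normal U hU).conj_mem' u hu φ)]
  · have e : φ⁻¹ * (g * h) * φ = φ⁻¹ * g * φ * (φ⁻¹ * h * φ) := by group
    simp only [e, h2 _ _ (GeoM_deg φ hg) (GeoM_deg φ hh), map_add,
      GeoM_conj hx φ g ⟨i, hi _ (GeoM_deg φ hh)⟩]
  · obtain ⟨y, hy, e⟩ := h3 v (φ⁻¹ * g)
    have e' : φ⁻¹ * g * T.τ v * (φ⁻¹ * g)⁻¹ = φ⁻¹ * (g * T.τ v * g⁻¹) * φ := by group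
    rw [e'] at e
    exact ⟨M.a φ y, GeoM_a φ hy, by simp only [e, map_sub, GeoM_conj hx φ _ hy]⟩

theorem GeoM_nuB (hx : T.IsHom x) (φ : W) {c : W → A} (h : c ∈ GeoM_B M) :
    GeoM_nu M φ c ∈ GeoM_B M := by
  refine sub_mem (show (fun g => M.a φ (c (φ⁻¹ * g * φ))) ∈ GeoM_B M from ?_) h
  obtain ⟨y, hy, e⟩ := h
  exact ⟨M.a φ y, GeoM_a φ hy, fun g hg => by
    simp only [e _ (GeoM_deg φ hg), map_sub, GeoM_conj hx φ _ hy]⟩

theorem GeoM_cob (hx : T.IsHom x) (j : ℕ) (t : V) :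
    (fun g => M.a g (M.pt j t) - M.pt j t) ∈ GeoM_Z M := by
  have hy : Tor2 (M.pt j t) := ⟨j, M.pow_smul_pt j t⟩
  obtain ⟨U, hU, h⟩ := R.act_sm hx j
  refine ⟨⟨j, fun g _ => ?_⟩, ⟨U, hU, fun g _ u hu => ?_⟩, fun g h _ _ => ?_,
    fun v g => ⟨_, hy, rfl⟩⟩
  · rw [smul_sub, ← map_nsmul, M.pow_smul_pt, map_zero, sub_zero]
  · simp only [GeoM_mul hx g u hy, M.a_pt u, (M.pt_eq_iff j _ _).2 (h u hu t)]
  · simp only [GeoM_mul hx g h hy, map_sub]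
    abel

theorem GeoM_norm (hx : T.IsHom x) {n : ℕ} {c : W → A} (h : M.ZG c) (ht : M.IsB (2 ^ n • c)) :
    ∃ d, M.ZG d ∧ c - d ∈ GeoM_B M ∧ ∀ g, T.deg g = 0 → 2 ^ n • d g = 0 := by
  obtain ⟨y, ⟨j, hj⟩, e⟩ := ht
  obtain ⟨t, rfl⟩ := M.surj j y hj
  refine ⟨_, sub_mem (show c ∈ GeoM_Z M from h) (GeoM_cob hx (n + j) t), ?_, fun g hg => ?_⟩
  · rw [sub_sub_cancel]
    exact ⟨_, ⟨_, M.pow_smul_pt _ t⟩, fun _ _ => rfl⟩
  · rw [Pi.sub_apply, smul_sub, smul_sub, ← map_nsmul, M.pow_smul_add, ← e g hg, Pi.smul_apply,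
      sub_self]

theorem GeoM_lev {n : ℕ} {d : W → A} (h : M.IsB d) (ht : ∀ g, T.deg g = 0 → 2 ^ n • d g = 0) :
    ∃ s, ∀ g, T.deg g = 0 → d g = M.pt n (R.act x g s) - M.pt n s := by
  obtain ⟨y, ⟨j, hj⟩, e⟩ := h
  obtain ⟨t, h1⟩ := M.surj j (2 ^ n • y) (by rw [smul_comm, hj, smul_zero])
  have h2 : VD j t := R.VD_of_fix (x := x) fun g hg => (M.pt_eq_iff j _ _).1 (by
    rw [← M.a_pt, h1, map_nsmul, ← sub_eq_zero, ← smul_sub, ← e g hg, ht g hg])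
  obtain ⟨s, rfl⟩ := M.surj n y (h1.symm.trans ((M.ker j t).2 h2))
  exact ⟨s, fun g hg => by rw [e g hg, M.a_pt]⟩

theorem GeoM_top {n : ℕ} (hn : 1 ≤ n) {f : W → V} {c : W → A}
    (h : ∀ g, T.deg g = 0 → M.pt n (f g) = c g) (hc : R.IsCob fun g => digV 0 (f g)) :
    M.IsB (2 ^ (n - 1) • c) := by
  obtain ⟨t, ht⟩ := hc
  obtain ⟨k, rfl⟩ := Nat.exists_eq_add_of_le' hn
  refine ⟨M.pt 1 (lftV t), ⟨_, M.pow_smul_pt _ _⟩, fun g hg => ?_⟩
  rw [Pi.smul_apply, ← h g hg, Nat.add_sub_cancel, M.pow_smul_add, M.a_pt, ← map_sub, M.pt_eq_iff]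
  refine (digV_eq_zero_iff (VD.triv (f g - (R.act x g (lftV t) - lftV t)))).1 ?_
  rw [digV_sub (VD.triv _) (VD.triv _), Lat.digV_act_sub (VD.triv _), digV_lftV, ← ht g, sub_self]

variable (M) in
theorem GeoM_VD {n : ℕ} {t : H → O} : VD n t ↔ M.pt n (p0 t) = 0 ∧ M.pt n (p1 t) = 0 :=
  ⟨fun h => ⟨(M.ker _ _).2 h.p0, (M.ker _ _).2 h.p1⟩,
    fun h => VD_of_p ((M.ker _ _).1 h.1) ((M.ker _ _).1 h.2)⟩

theorem GeoM_p (a b : H → O) (s t : V) (r : O) : p0 (a + b) = p0 a + p0 b ∧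
    p1 (a + b) = p1 a + p1 b ∧ p0 (a - b) = p0 a - p0 b ∧ p1 (a - b) = p1 a - p1 b ∧
    p0 (Sum.elim s t) = s ∧ p1 (Sum.elim s t) = t ∧ p0 (r • a) = r • p0 a ∧
    p1 (r • a) = r • p1 a := ⟨rfl, rfl, rfl, rfl, rfl, rfl, rfl, rfl⟩

theorem GeoM_core (hx : T.IsHom x) {A0 : Finset P} (hA : R.Ram x A0) {c : ℕ} {lam : O}
    (hfin : ∀ v ∈ A0, ∀ (m : ℕ) (t : H → O), VD m ((R.hat lam).act x (T.σ v) t - t) →
      VD m ((R.hat lam).act x (T.τ v) t - t) → VD (m - c) t)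
    {φ : W} (hφ : T.deg φ = 1) {b : ℕ} (hlam : 2 * lam = (b : O)) {n : ℕ} (hn : 1 ≤ n)
    {c0 c1 : W → A} (h0 : M.ZG c0) (h1 : M.ZG c1) (k0 : M.nu φ c0 ∈ GeoM_B M)
    (k1 : M.nu φ c1 + b • c0 ∈ GeoM_B M) (t0 : ∀ g, T.deg g = 0 → 2 ^ n • c0 g = 0)
    (t1 : ∀ g, T.deg g = 0 → 2 ^ n • c1 g = 0) :
    ∃ w, (R.hat lam).Lifts A0 x (n - 4 * c) w ∧
      (R.IsCob (fun g => p0 (w g)) → M.IsB (2 ^ (n - 1) • c0)) ∧
      (R.IsCob (fun g => p1 (w g)) → M.IsB (2 ^ (n - 1) • c1)) ∧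
      (R.IsCob (fun g => p0 (w g) + p1 (w g)) → M.IsB (2 ^ (n - 1) • (c0 + c1))) := by
  have pa := fun a b : H → O => (GeoM_p a b 0 0 0).1
  have pa' := fun a b : H → O => (GeoM_p a b 0 0 0).2.1
  have ps := fun a b : H → O => (GeoM_p a b 0 0 0).2.2.1
  have ps' := fun a b : H → O => (GeoM_p a b 0 0 0).2.2.2.1
  have pe := fun s t : V => (GeoM_p 0 0 s t 0).2.2.2.2.1
  have pe' := fun s t : V => (GeoM_p 0 0 s t 0).2.2.2.2.2.1
  have tn : ∀ {d : W → A}, (∀ g, T.deg g = 0 → 2 ^ n • d g = 0) →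
      ∀ g, T.deg g = 0 → 2 ^ n • M.nu φ d g = 0 := fun h g hg => by
    rw [nu, smul_sub, ← map_nsmul, h g hg, h _ (GeoM_deg φ hg), map_zero, sub_zero]
  obtain ⟨s0, e0⟩ := GeoM_lev k0 (tn t0)
  obtain ⟨s1, e1⟩ := GeoM_lev (n := n) (add_mem k1 (nsmul_mem k0 b)) fun g hg => by
    simp only [Pi.add_apply, Pi.smul_apply, smul_add, smul_comm (2 ^ n) b, tn t0 g hg, tn t1 g hg,
      t0 g hg, smul_zero, add_zero]
  obtain ⟨-, ⟨U, hU, a1⟩, a2, a3⟩ := h0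
  obtain ⟨-, ⟨U', hU', b1⟩, b2, b3⟩ := h1
  obtain ⟨ψ, hψ, hg⟩ := (R.hat lam).extend hx hφ (n := n)
    (ψ0 := fun g => Sum.elim (M.crd n (c0 g)) (M.crd n (c1 g))) (y := Sum.elim s0 s1)
    ⟨_, T.adm_inf _ _ hU hU', fun g hg u hu => by
      rw [a1 g hg u hu.1, b1 g hg u hu.2, sub_self]
      exact VD.zero _⟩
    (fun g h hg hh => by
      have hgh : T.deg (g * h) = 0 := by rw [T.deg_mul, hg, hh, add_zero]
      simp only [GeoM_VD M, pa, pa', ps, ps', pe, pe', Rep.p0_act, Rep.p1_act, hg, Int.cast_zero,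
        mul_zero, zero_smul, add_zero, map_sub, map_add, ← M.a_pt, M.pt_crd (t0 _ hg),
        M.pt_crd (t0 _ hh), M.pt_crd (t0 _ hgh), M.pt_crd (t1 _ hg), M.pt_crd (t1 _ hh),
        M.pt_crd (t1 _ hgh)]
      rw [a2 g h hg hh, b2 g h hg hh]
      exact ⟨sub_self _, sub_self _⟩)
    (fun g hg => by
      have hc := GeoM_deg φ hg
      simp only [GeoM_VD M, ps, ps', pe, pe', Rep.p0_act, Rep.p1_act, hg, hφ, Int.cast_zero,
        Int.cast_one, mul_one, hlam, Nat.cast_smul_eq_nsmul, map_nsmul,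
        mul_zero, zero_smul, add_zero, map_sub, map_add, ← M.a_pt φ, M.pt_crd (t0 _ hg),
        M.pt_crd (t0 _ hc), M.pt_crd (t1 _ hg), M.pt_crd (t1 _ hc), ← e0 g hg, ← e1 g hg, nu,
        Pi.add_apply, Pi.smul_apply, smul_sub]
      exact ⟨sub_self _, by abel⟩)
  have K : ∀ g, T.deg g = 0 → M.pt n (p0 (ψ g)) = c0 g ∧ M.pt n (p1 (ψ g)) = c1 g := fun g h => by
    simpa only [GeoM_VD M, ps, ps', pe, pe', map_sub, M.pt_crd (t0 _ h), M.pt_crd (t1 _ h),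
      sub_eq_zero] using hg g h
  refine ⟨fun g => digV 0 (ψ g), ⟨ψ, ⟨hψ.mono (Nat.sub_le _ _), fun v hv => ?_, fun v hv => ?_⟩,
    fun _ => rfl⟩, GeoM_top hn fun g h => (K g h).1, GeoM_top hn fun g h => (K g h).2, fun h => ?_⟩
  · obtain ⟨y0, ⟨i, hi⟩, f0⟩ := a3 v 1
    obtain ⟨y1, ⟨j, hj⟩, f1⟩ := b3 v 1
    rw [one_mul, inv_one, mul_one] at f0 f1
    obtain ⟨r0, rfl⟩ := M.surj (i + j + n) y0 (GeoM_le hi (by omega))
    obtain ⟨r1, rfl⟩ := M.surj (i + j + n) y1 (GeoM_le hj (by omega))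
    have := Lat.locOK_of_tau hx (hfin v hv) hψ (m := i + j) (t := Sum.elim r0 r1) (by
      simp only [GeoM_VD M, ps, ps', pe, pe', Rep.p0_act, Rep.p1_act, T.deg_τ, Int.cast_zero,
        mul_zero, zero_smul, add_zero, map_sub, ← M.a_pt, (GeoM_p (ψ (T.τ v)) 0 0 0 _).2.2.2.2.2.2,
        M.pt_pow_smul, K _ (T.deg_τ v), f0, f1, sub_self, and_self])
    simpa using this
  · obtain ⟨y0, ⟨i, hi⟩, f0⟩ := a3 v 1
    obtain ⟨y1, ⟨j, hj⟩, f1⟩ := b3 v 1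
    obtain ⟨r0, rfl⟩ := M.surj i y0 hi
    obtain ⟨r1, rfl⟩ := M.surj j y1 hj
    rw [one_mul, inv_one, mul_one, M.a_pt, Lat.act_unr (fun h => hv (hA.1 h)) (hA.2.2 v hv),
      sub_self] at f0 f1
    exact ((GeoM_VD M).2 ⟨(K _ (T.deg_τ v)).1.trans f0, (K _ (T.deg_τ v)).2.trans f1⟩).mono
      (Nat.sub_le _ _)
  · refine GeoM_top hn (f := fun g => p0 (ψ g) + p1 (ψ g)) (fun g h => ?_) ?_
    · rw [map_add, (K g h).1, (K g h).2, Pi.add_apply]
    · simp only [digV_add (VD.triv _) (VD.triv _)]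
      exact h

theorem lift_pair (hx : T.IsHom x) {A0 : Finset P} (hA : R.Ram x A0) {c : ℕ} {lam : O}
    (hfin : ∀ v ∈ A0, ∀ (m : ℕ) (t : H → O), VD m ((R.hat lam).act x (T.σ v) t - t) →
      VD m ((R.hat lam).act x (T.τ v) t - t) → VD (m - c) t)
    {φ : W} (hφ : T.deg φ = 1) {b : ℕ} (hlam : 2 * lam = (b : O)) {n : ℕ} (hn : 1 ≤ n)
    {c0 c1 : W → A} (h0 : M.ZG c0) (h1 : M.ZG c1) (k0 : M.IsB (M.nu φ c0))
    (k1 : M.IsB (M.nu φ c1 + b • c0)) (t0 : M.IsB (2 ^ n • c0)) (t1 : M.IsB (2 ^ n • c1)) :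
    ∃ w, (R.hat lam).Lifts A0 x (n - 4 * c) w ∧
      (R.IsCob (fun g => p0 (w g)) → M.IsB (2 ^ (n - 1) • c0)) ∧
      (R.IsCob (fun g => p1 (w g)) → M.IsB (2 ^ (n - 1) • c1)) ∧
      (R.IsCob (fun g => p0 (w g) + p1 (w g)) → M.IsB (2 ^ (n - 1) • (c0 + c1))) := by
  obtain ⟨d0, z0, e0, u0⟩ := GeoM_norm hx h0 t0
  obtain ⟨d1, z1, e1, u1⟩ := GeoM_norm hx h1 t1
  have k0' : M.nu φ d0 ∈ GeoM_B M := by
    have := sub_mem (show GeoM_nu M φ c0 ∈ GeoM_B M from k0) (GeoM_nuB hx φ e0)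
    rwa [map_sub, sub_sub_cancel] at this
  have k1' : M.nu φ d1 + b • d0 ∈ GeoM_B M := by
    have := sub_mem (sub_mem (show GeoM_nu M φ c1 + b • c0 ∈ GeoM_B M from k1) (GeoM_nuB hx φ e1))
      (nsmul_mem e0 b)
    rw [map_sub, smul_sub] at this
    convert this using 1
    change GeoM_nu M φ d1 + b • d0 = _
    abel
  obtain ⟨w, h2, h3, h4, h5⟩ := GeoM_core hx hA hfin hφ hlam hn z0 z1 k0' k1' u0 u1
  have key : ∀ {c d : W → A}, c - d ∈ GeoM_B M → 2 ^ (n - 1) • d ∈ GeoM_B M →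
      2 ^ (n - 1) • c ∈ GeoM_B M := fun h h' => by
    have := add_mem (nsmul_mem h (2 ^ (n - 1))) h'
    rwa [← smul_add, sub_add_cancel] at this
  exact ⟨w, h2, fun h => key e0 (h3 h), fun h => key e1 (h4 h),
    fun h => key (add_sub_add_comm c0 c1 d0 d1 ▸ add_mem e0 e1) (h5 h)⟩

end GM

theorem geo_main (R : Rep T) : ∃ c0 : ℕ, ∀ (x : W → F2) (A0 : Finset P), T.IsHom x → R.Ram x A0 →
    R.Good A0 x c0 → ∀ {A : Type} [AddCommGroup A] (M : GM R x A) (φ : W), T.deg φ = 1 →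
    ∀ m : ℕ, ∃ N : ℕ, ∀ c1 c2 : W → A, M.ZG c1 → M.ZG c2 → M.IsB ((M.nu φ)^[m] c1) →
      M.IsB ((M.nu φ)^[m] c2) → M.IsB (2 ^ (N + 1) • c1) → M.IsB (2 ^ (N + 1) • c2) →
      M.IsB (2 ^ N • c1) ∨ M.IsB (2 ^ N • c2) ∨ M.IsB (2 ^ N • (c1 + c2)) := by
  obtain ⟨c, hc, hfin⟩ := R.hat_fin
  refine ⟨4 * c, fun x A0 hx hA ⟨K1, K, h1, h2, h3⟩ A _ M φ hφ m => ?_⟩
  obtain ⟨N, hN⟩ := alg_main (GM.GeoM_Z M) (GM.GeoM_B M) (GM.GeoM_nu M φ)
    (fun _ => GM.GeoM_nuZ hx φ) (fun _ => GM.GeoM_nuB hx φ)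
    (fun d hd => hd.1.imp fun j h => ⟨0, GM.GeoM_zero, fun g hg => by simpa using h g hg⟩)
    (n1 := K1 + 4 * c) (n2 := K + 4 * c) (a1 := 4 * K1) (by omega) (by omega) (by omega)
    (fun n hn c1 z1 c2 z2 k1 k2 t1 t2 => by
      obtain ⟨w, a1, a2, a3, a4⟩ := GM.lift_pair hx hA (hfin 0 x A0 hA) hφ (b := 0) (by simp)
        (by omega) z1 z2 k1 (by rwa [zero_smul, add_zero]) t1 t2
      by_contra h
      exact h2 w ⟨fun e => h (.inl (a2 e)), fun _ => ⟨fun e => h (.inr (.inl (a3 e))),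
        fun e => h (.inr (.inr (a4 e)))⟩⟩ (a1.mono (by omega)))
    (fun a ha n hn c1 z1 c2 z2 k1 k2 t1 t2 => by
      obtain ⟨w, a1, a2, a3, a4⟩ := GM.lift_pair hx hA (hfin (2 ^ a) x A0 hA) hφ (b := 2 ^ (a + 1))
        (by push_cast; ring) (by omega) z1 z2 k1 k2 t1 t2
      by_contra h
      refine h3 a ha w ⟨fun e => h (.inl (a2 e)), fun e0 => ?_⟩ (a1.mono (by omega))
      have h4 : 1 ≤ a := Nat.pos_of_ne_zero fun e => by simp [e] at e0
      exact ⟨fun e => h (.inr ⟨h4, .inl (a3 e)⟩), fun e => h (.inr ⟨h4, .inr (a4 e)⟩)⟩) m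
  exact ⟨N, fun c1 c2 z1 z2 => hN c1 z1 c2 z2⟩

end

end Pool.Agent.Quad
end

-- merged part: Pool.Agent.Work.MP_60d5ce_nt.Lb.CZ
section
/-!
# Traces on cocycles with values in torsion points  (task LB CZ)

* `adm_level`: `U = {g | T.deg g = 0 ∧ (mat R x g).map (rO j) = 1}` is a normal subgroup containing the one of `R.act_sm`; `T.adm_mono`.
* `hasTr_Z`: `trace_formula` for `ρ g = (mat R x g).map (rO (j + 1))`, then `HasTr.map` along `c ↦ e ∘ c`, `e` from `(ofB M.toTateB).exists_emb`; `e (ρ g y) = M.a g (e y)`.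
* `hasTr_B`: `(ofB M.toTateB).hasTr`, `HasTr.map` along `cob T M.a` (`cob_mem` with `X₀ = tors 𝒜 _`; injective by `Rep.VD_of_fix`; onto by `GM.GeoM_lev`; `GM.GeoM_conj`).
* `conj_sub`: from `c (h * (h⁻¹ g h)) = c (g * h)`, with the point `c h`.
-/

namespace Pool.Agent.Lef

open scoped Classical
open Pool.Agent.Quad

noncomputable section

variable {W P : Type} [Group W] {T : Tame W P}

/-- the matrix of the twisted action -/
def mat (R : Rep T) (x : W → F2) (g : W) : Matrix (Fin 2) (Fin 2) O := sg (x g) • R.ρ g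

variable {R : Rep T} {x : W → F2} {𝒜 : Type} [AddCommGroup 𝒜] {A : Finset P}

/-- torsion cocycles, unramified outside `A` -/
def ZT (M : GM R x 𝒜) (A : Finset P) : AddSubgroup (W → 𝒜) where
  carrier := {c | c ∈ ZH T T.G0 M.a A ∧ Tor2 c}
  zero_mem' := ⟨zero_mem _, GM.GeoM_zero⟩
  add_mem' h h' := ⟨add_mem h.1 h'.1, GM.GeoM_add h.2 h'.2⟩
  neg_mem' h := ⟨neg_mem h.1, GM.GeoM_neg h.2⟩

theorem act_eq (g : W) (t : V) : R.act x g t = (mat R x g).mulVec t := by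
  rw [mat, Matrix.smul_mulVec]
  rfl

theorem mat_mul (hx : T.IsHom x) (g h : W) : mat R x (g * h) = mat R x g * mat R x h := by
  rw [mat, mat, mat, hx.2, sg_add, R.ρ_mul, smul_mul_smul_comm]

theorem mat_one (hx : T.IsHom x) : mat R x 1 = 1 := by
  rw [mat, Tame.hom_one hx, sg_zero, R.ρ_one, one_smul]

theorem mat_det (g : W) : (mat R x g).det = T.cq g := by
  rw [mat, Matrix.det_smul, Fintype.card_fin, sq, sg_mul_self, one_mul, R.det]

/-- the matrix as a homomorphism -/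
def CZ_hom (hx : T.IsHom x) : W →* Matrix (Fin 2) (Fin 2) O where
  toFun := mat R x
  map_one' := mat_one hx
  map_mul' := mat_mul hx

theorem mat_rel (hx : T.IsHom x) (v : P) :
    mat R x (T.σ v) * mat R x (T.τ v) = mat R x (T.τ v) ^ T.Q v * mat R x (T.σ v) := by
  have h : mat R x (T.τ v ^ T.Q v) = mat R x (T.τ v) ^ T.Q v := map_pow (CZ_hom hx) _ _
  rw [← h, ← mat_mul hx, ← mat_mul hx, mat, mat, Tame.sm_rel hx.1 v, Lat.rho_rel v]

theorem adm_level (hx : T.IsHom x) (j : ℕ) :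
    ∃ U, T.Adm U ∧ ∀ g, g ∈ U ↔ T.deg g = 0 ∧ (mat R x g).map (rO j) = 1 := by
  obtain ⟨U, hU, h⟩ := R.act_sm hx j
  have := T.adm_normal _ T.adm_G0
  refine ⟨T.G0 ⊓ ((rO j).mapMatrix.toMonoidHom.comp (CZ_hom hx)).ker,
    T.adm_mono U _ hU (fun u hu => ⟨T.adm_le U hU hu, ?_⟩) inferInstance inf_le_left,
    fun g => Iff.rfl⟩
  show (mat R x u).map (rO j) = 1
  rw [← Matrix.map_one (rO j) (map_zero _) (map_one _)]
  ext a b
  have h1 := rO_eq_zero.2 (h u hu (Pi.single b 1) a)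
  rw [act_eq, Matrix.mulVec_single_one, Pi.sub_apply, map_sub, sub_eq_zero] at h1
  rw [Matrix.map_apply, Matrix.map_apply, Matrix.one_apply, ← Pi.single_apply]
  exact h1

theorem CZ_tau (hunr : ∀ v ∉ A, mat R x (T.τ v) = 1) {j : ℕ} {U : Subgroup W}
    (hm : ∀ g, g ∈ U ↔ T.deg g = 0 ∧ (mat R x g).map (rO j) = 1) : ∀ v ∉ A, T.τ v ∈ U :=
  fun v hv => (hm _).2 ⟨T.deg_τ v, by
    rw [hunr v hv, Matrix.map_one (rO j) (map_zero _) (map_one _)]⟩

variable (M : GM R x 𝒜)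

theorem CZ_act (hx : T.IsHom x) {j : ℕ} {U : Subgroup W}
    (hm : ∀ g, g ∈ U ↔ T.deg g = 0 ∧ (mat R x g).map (rO j) = 1) :
    Act U T.G0 M.a (tors 𝒜 (2 ^ j)) := by
  refine ⟨fun g _ y hy => mem_tors.2 ?_, fun g _ h _ y hy => GM.GeoM_mul hx g h ⟨j, hy⟩,
    fun u hu y hy => ?_⟩
  · rw [← map_nsmul, mem_tors.1 hy, map_zero]
  · obtain ⟨a, rfl⟩ := M.surj j y hy
    rw [M.a_pt, M.pt_eq_iff]
    intro i
    rw [← rO_eq_zero, map_sub, act_eq, RingHom.map_mulVec, ((hm u).1 hu).2, Matrix.one_mulVec]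
    exact sub_self _

theorem hasTr_Z (L : LefAx T) (hx : T.IsHom x) (hA : A.Nonempty)
    (hunr : ∀ v ∉ A, mat R x (T.τ v) = 1) (j : ℕ) {n : ℕ} (hn : 0 < n) {w : W} (hw : T.deg w = n) :
    ∃ t, HasTr (2 ^ (j + 1)) (ZT M A ⊓ tors (W → 𝒜) (2 ^ (j + 1))) (conjOp M.a w) t ∧
      (T.q : ZMod (2 ^ (j + 1))) ^ n * t =
        (T.q : ZMod (2 ^ (j + 1))) ^ n * rO (j + 1) (mat R x w).trace -
          ∑ v ∈ Pd T A n, (T.dg v : ZMod (2 ^ (j + 1))) *
            rO (j + 1) (mat R x (T.σ v ^ (n / T.dg v))).trace := by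
  obtain ⟨U, hU, hm⟩ := adm_level (R := R) hx (j + 1)
  obtain ⟨e, he, hr, hp⟩ := (ofB M.toTateB).exists_emb (j + 1)
  obtain ⟨t, h1, h2⟩ := trace_formula (ρ := fun g => (mat R x g).map (rO (j + 1))) L hU hA
    (CZ_tau hunr hm) (fun g h => by rw [mat_mul hx, Matrix.map_mul]) (fun u hu => ((hm u).1 hu).2)
    hn hw
  have key : ∀ g y, e (mv (fun g => (mat R x g).map (rO (j + 1))) g y) = M.a g (e y) := by
    intro g y
    choose a ha using fun i => rO_surj (j + 1) (y i)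
    obtain rfl : y = fun i => rO (j + 1) (a i) := funext fun i => (ha i).symm
    have h3 : mv (fun g => (mat R x g).map (rO (j + 1))) g (fun i => rO (j + 1) (a i)) =
        fun i => rO (j + 1) ((mat R x g).mulVec a i) :=
      funext fun i => (RingHom.map_mulVec (rO (j + 1)) (mat R x g) a i).symm
    rw [h3, hp, hp, ← act_eq]
    exact (M.a_pt g _ a).symm
  have tor : ∀ y, 2 ^ (j + 1) • e y = 0 := fun y => mem_tors.1 (hr ▸ ⟨y, rfl⟩)
  refine ⟨t, h1.map (j := fun c g => e (c g)) (fun c _ d _ => funext fun g => map_add e _ _)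
    (fun c _ d _ h => funext fun g => he (congrFun h g)) ?_
    (fun c _ => funext fun g => key _ _), ?_⟩
  · ext d
    constructor
    · rintro ⟨c, ⟨a1, ⟨U', hU', a2⟩, a3, a4⟩, rfl⟩
      have h3 : 2 ^ (j + 1) • (fun g => e (c g)) = 0 := funext fun g => tor _
      refine ⟨⟨⟨fun g hg => ?_, ⟨U', hU', fun g hg u hu => ?_⟩, fun g hg h hh => ?_,
        fun t ht => ?_⟩, _, h3⟩, h3⟩
      · beta_reduce
        rw [a1 g hg, map_zero]
      · beta_reduce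
        rw [a2 g hg u hu]
      · beta_reduce
        rw [a3 g hg h hh, map_add, key]
      · beta_reduce
        rw [a4 t ht, map_zero]
    · rintro ⟨⟨⟨a1, ⟨U', hU', a2⟩, a3, a4⟩, -⟩, h3⟩
      have h4 : ∀ g, ∃ y, e y = d g := fun g =>
        show d g ∈ e.range from hr ▸ congrFun (mem_tors.1 h3) g
      choose c hc using h4
      refine ⟨c, ⟨fun g hg => he ?_, ⟨U', hU', fun g hg u hu => he ?_⟩, fun g hg h hh => he ?_,
        fun t ht => he ?_⟩, funext hc⟩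
      · rw [hc, a1 g hg, map_zero]
      · rw [hc, hc, a2 g hg u hu]
      · rw [map_add, key, hc, hc, hc, a3 g hg h hh]
      · rw [hc, a4 t ht, map_zero]
  · simp only [AddMonoidHom.map_trace (rO (j + 1))]
    exact h2

theorem cob_mem_ZT (hx : T.IsHom x) (hunr : ∀ v ∉ A, mat R x (T.τ v) = 1) {y : 𝒜} (hy : Tor2 y) :
    cob T M.a y ∈ ZT M A := by
  obtain ⟨j, hj⟩ := hy
  obtain ⟨U, hU, hm⟩ := adm_level (R := R) hx j
  exact ⟨cob_mem hU (CZ_tau hunr hm) (CZ_act M hx hm) hj, j, by rw [← map_nsmul, hj, map_zero]⟩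

theorem hasTr_B (hx : T.IsHom x) (hunr : ∀ v ∉ A, mat R x (T.τ v) = 1) (j : ℕ) (w : W) :
    HasTr (2 ^ j) (ZT M A ⊓ tors (W → 𝒜) (2 ^ j) ⊓ GM.GeoM_B M) (conjOp M.a w)
      (rO j (mat R x w).trace) := by
  refine ((ofB M.toTateB).hasTr (f := M.a w) (m := mat R x w) fun a => ?_).map (j := cob T M.a)
    (fun y _ z _ => map_add _ y z) (fun y hy z hz h => ?_) ?_ fun y hy => funext fun g => ?_
  · rw [← act_eq]
    exact M.a_pt w j a
  · obtain ⟨t, ht⟩ := M.surj j (y - z) (sub_mem hy hz)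
    rw [← sub_eq_zero, ← ht, M.ker]
    refine R.VD_of_fix (x := x) fun g hg => (M.pt_eq_iff j _ _).1 ?_
    have h1 := congrFun h g
    rw [cob_apply, cob_apply, if_pos hg, if_pos hg, sub_eq_sub_iff_sub_eq_sub] at h1
    rw [← M.a_pt, ht, map_sub, h1]
  · ext d
    constructor
    · rintro ⟨y, hy, rfl⟩
      refine ⟨⟨cob_mem_ZT M hx hunr ⟨j, hy⟩, mem_tors.2 ?_⟩, y, ⟨j, hy⟩, fun g hg => if_pos hg⟩
      rw [← map_nsmul, mem_tors.1 hy, map_zero]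
    · rintro ⟨⟨h1, h2⟩, h3⟩
      obtain ⟨s, hs⟩ := GM.GeoM_lev (n := j) h3 fun g _ => congrFun (mem_tors.1 h2) g
      refine ⟨M.pt j s, M.pow_smul_pt j s, funext fun g => ?_⟩
      rw [cob_apply]
      split_ifs with hg
      · rw [hs g hg, M.a_pt]
      · exact (h1.1.1 g hg).symm
  · rw [conjOp_apply, cob_apply, cob_apply]
    by_cases hg : T.deg g = 0
    · rw [if_pos hg, if_pos (GM.GeoM_deg w hg), map_sub, GM.GeoM_conj hx w g ⟨j, hy⟩]
    · rw [if_neg hg, if_neg fun h : T.deg (w⁻¹ * g * w) = 0 => hg (BDef_conj.1 h), map_zero]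

variable {M}

theorem conj_mem (hx : T.IsHom x) {c : W → 𝒜} (hc : c ∈ ZT M A) (w : W) :
    conjOp M.a w c ∈ ZT M A := by
  obtain ⟨h1, j, hj⟩ := hc
  exact ⟨conjOp_mem (X₀ := tors 𝒜 (2 ^ j)) (fun g h y hy => GM.GeoM_mul hx g h ⟨j, hy⟩) h1
    (fun g => congrFun hj g) w, j, by rw [← map_nsmul, hj, map_zero]⟩

theorem conj_memB (hx : T.IsHom x) {c : W → 𝒜} (hc : M.IsB c) (w : W) :
    M.IsB (conjOp M.a w c) := by
  obtain ⟨y, hy, e⟩ := hc
  exact ⟨M.a w y, GM.GeoM_a w hy, fun g hg => by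
    rw [conjOp_apply, e _ (GM.GeoM_deg w hg), map_sub, GM.GeoM_conj hx w g hy]⟩

theorem conj_mul (hx : T.IsHom x) {c : W → 𝒜} (hc : c ∈ ZT M A) (w w' : W) :
    conjOp M.a (w * w') c = conjOp M.a w (conjOp M.a w' c) := by
  obtain ⟨-, j, hj⟩ := hc
  funext g
  rw [conjOp_apply, conjOp_apply, conjOp_apply, GM.GeoM_mul hx w w' ⟨j, congrFun hj _⟩,
    show (w * w')⁻¹ * g * (w * w') = w'⁻¹ * (w⁻¹ * g * w) * w' by group]

theorem conj_sub (hx : T.IsHom x) {c : W → 𝒜} (hc : c ∈ ZT M A) {h : W} (h0 : T.deg h = 0) :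
    M.IsB (conjOp M.a h c - c) := by
  have _ := hx
  obtain ⟨h1, j, hj⟩ := hc
  refine ⟨c h, ⟨j, congrFun hj h⟩, fun g hg => ?_⟩
  have e1 := h1.2.2.1 g hg h h0
  have e2 := h1.2.2.1 h h0 _ (GM.GeoM_deg h hg)
  rw [show h * (h⁻¹ * g * h) = g * h by group, e1] at e2
  rw [Pi.sub_apply, conjOp_apply, sub_eq_sub_iff_add_eq_add, add_comm, ← e2, add_comm]

theorem nu_eq (φ : W) (c : W → 𝒜) : M.nu φ c = conjOp M.a φ c - c := rfl

end

end Pool.Agent.Lef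
end

-- merged part: Pool.Agent.Work.MP_60d5ce_nt.Lb.CH
section
/-!
# The Tate module of the first cohomology group  (task LB CH)

Let `Hq = ZT M A ⧸ (GM.GeoM_B M).addSubgroupOf (ZT M A)`, `Φ : Hq →+ Hq` induced by `conjOp M.a φ` (`conj_mem`, `conj_memB`), `π c = if h : c ∈ ZT M A then mk ⟨c, h⟩ else 0`.
* `π` maps `ZT ⊓ tors (2 ^ j)` onto `tors Hq (2 ^ j)`: if `2 ^ j • c` is the coboundary of `y`, write `y = 2 ^ j • y'` (`M.surj`, `M.pow_smul_add`) and subtract `cob T M.a y'` (`cob_mem_ZT`).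
* `ZT` is divisible by two: `Fr.div` for `hasTr_Z` (with `w = φ`, `n = 1`).  `tors Hq 2` is finite (`Fr.finite`).  So `exists_tateR`, `TateR.exists_mat`.
* `HasTr.quot` with `hasTr_B`, `hasTr_Z` for `w = φ ^ n` and `g = Φ^[n]` (`conj_mul`; for the zeroth power `mat_one`), `TateR.hasTr` for `Ψ ^ n`, `HasTr.unique`, `eq_of_rO`.
-/

namespace Pool.Agent.Lef

open scoped Classical
open Pool.Agent.Quad

variable {W P : Type} [Group W] {T : Tame W P} {R : Rep T} {x : W → F2} {𝒜 : Type}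
  [AddCommGroup 𝒜] {A : Finset P}

/-- coordinates on the first cohomology group -/
structure Coh (M : GM R x 𝒜) (A : Finset P) (φ : W) (r : ℕ) where
  Ψ : Matrix (Fin r) (Fin r) O
  cc : ℕ → (Fin r → O) → W → 𝒜
  mem : ∀ j t, cc j t ∈ ZT M A
  add : ∀ j s t, M.IsB (cc j (s + t) - (cc j s + cc j t))
  two : ∀ j t, M.IsB (2 • cc (j + 1) t - cc j t)
  ker : ∀ j t, M.IsB (cc j t) ↔ VD j t
  op : ∀ j t, M.IsB (conjOp M.a φ (cc j t) - cc j (Ψ.mulVec t))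
  tr : ∀ n : ℕ, 0 < n → (T.q : O) ^ n * (Ψ ^ n).trace =
    -∑ v ∈ Pd T A n, (T.dg v : O) * (mat R x (T.σ v ^ (n / T.dg v))).trace

theorem CH_quot {X : Type} [AddCommGroup X] (Z B : AddSubgroup X) (f : X →+ X)
    (hZ : ∀ c ∈ Z, f c ∈ Z) (hB : ∀ c ∈ B, f c ∈ B) :
    ∃ (H : Type) (_ : AddCommGroup H) (π : X → H) (Φ : H →+ H), AddOn Z π ∧
      (∀ h, ∃ c ∈ Z, π c = h) ∧ (∀ c ∈ Z, π c = 0 ↔ c ∈ B) ∧ ∀ c ∈ Z, π (f c) = Φ (π c) := by
  refine ⟨Z ⧸ B.addSubgroupOf Z, inferInstance,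
    fun c => if h : c ∈ Z then QuotientAddGroup.mk ⟨c, h⟩ else 0,
    QuotientAddGroup.map _ _ ((f.comp Z.subtype).codRestrict Z fun c => hZ c c.2)
      fun c hc => hB c hc, fun c hc d hd => ?_, fun h => ?_, fun c hc => ?_, fun c hc => ?_⟩
  · simp only [dif_pos hc, dif_pos hd, dif_pos (add_mem hc hd)]
    rfl
  · obtain ⟨c, rfl⟩ := QuotientAddGroup.mk_surjective h
    exact ⟨c, c.2, dif_pos c.2⟩
  · simp only [dif_pos hc]
    exact QuotientAddGroup.eq_zero_iff _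
  · simp only [dif_pos hc, dif_pos (hZ c hc)]
    rfl

theorem CH_norm (M : GM R x 𝒜) (hx : T.IsHom x) (hunr : ∀ v ∉ A, mat R x (T.τ v) = 1)
    {c : W → 𝒜} (hc : c ∈ ZT M A) {j : ℕ} (h : M.IsB (2 ^ j • c)) :
    ∃ d ∈ ZT M A, M.IsB d ∧ 2 ^ j • (c - d) = 0 := by
  obtain ⟨y, ⟨i, hi⟩, e⟩ := h
  obtain ⟨t, rfl⟩ := M.surj i y hi
  have hy : Tor2 (M.pt (j + i) t) := ⟨_, M.pow_smul_pt _ t⟩
  refine ⟨_, cob_mem_ZT M hx hunr hy, ⟨_, hy, fun g hg => if_pos hg⟩, funext fun g => ?_⟩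
  rw [Pi.smul_apply, Pi.sub_apply, cob_apply, Pi.zero_apply]
  by_cases hg : T.deg g = 0
  · rw [if_pos hg, smul_sub, smul_sub, ← map_nsmul, M.pow_smul_add, ← e g hg, Pi.smul_apply,
      sub_self]
  · rw [if_neg hg, hc.1.1 g hg, sub_zero, smul_zero]

theorem exists_coh (M : GM R x 𝒜) (L : LefAx T) (hx : T.IsHom x) (hA : A.Nonempty)
    (hunr : ∀ v ∉ A, mat R x (T.τ v) = 1) {φ : W} (hφ : T.deg φ = 1) :
    ∃ r, Nonempty (Coh M A φ r) := by
  obtain ⟨H, _, π, Φ, ha, hs, hk, hf⟩ := CH_quot (ZT M A) (GM.GeoM_B M) (conjOp M.a φ)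
    (fun c hc => conj_mem hx hc φ) fun c hc => conj_memB hx hc φ
  have hdeg : ∀ n : ℕ, T.deg (φ ^ n) = n := fun n => by
    induction n with
    | zero => rw [pow_zero, T.deg_one, Nat.cast_zero]
    | succ n ih => rw [pow_succ, T.deg_mul, ih, hφ, Nat.cast_succ]
  have him : ∀ j, π '' (ZT M A ⊓ tors (W → 𝒜) (2 ^ j) : AddSubgroup _) = tors H (2 ^ j) := by
    intro j
    ext h
    constructor
    · rintro ⟨c, hc, rfl⟩
      rw [SetLike.mem_coe, mem_tors, ← ha.nsmul hc.1, mem_tors.1 hc.2, ha.zero]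
    · intro hh
      obtain ⟨c, hc, rfl⟩ := hs h
      obtain ⟨d, hd, h1, h2⟩ := CH_norm M hx hunr hc (j := j)
        ((hk _ (nsmul_mem hc _)).1 (by rw [ha.nsmul hc]; exact hh))
      exact ⟨c - d, ⟨(ZT M A).sub_mem hc hd, h2⟩, by rw [ha.sub hc hd, (hk d hd).2 h1, sub_zero]⟩
  have hfr := fun j => (hasTr_Z M L hx hA hunr j one_pos (hdeg 1)).choose_spec.1.fr
  obtain ⟨r, ⟨B⟩⟩ := exists_tateR (A := H) (fun h => by
    obtain ⟨c, hc, rfl⟩ := hs h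
    obtain ⟨j, hj⟩ := hc.2
    obtain ⟨y, hy, e⟩ := (hfr j).div c ⟨hc, GM.GeoM_le hj j.le_succ⟩ hj
    exact ⟨π y, by rw [← ha.nsmul hy.1, ← e]⟩) (him 1 ▸ (hfr 0).finite.image π)
  obtain ⟨Ψ, hΨ⟩ := B.exists_mat Φ
  choose cc hcc e using fun j t => hs (B.pt j t)
  have key : ∀ {c d}, c ∈ ZT M A → d ∈ ZT M A → π c = π d → M.IsB (c - d) := fun hc hd h =>
    (hk _ (sub_mem hc hd)).1 (by rw [ha.sub hc hd, h, sub_self])
  refine ⟨r, ⟨Ψ, cc, hcc, fun j s t => key (hcc _ _) (add_mem (hcc _ _) (hcc _ _)) ?_,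
    fun j t => key (nsmul_mem (hcc _ _) _) (hcc _ _) ?_,
    fun j t => (hk _ (hcc j t)).symm.trans ?_,
    fun j t => key (conj_mem hx (hcc _ _) φ) (hcc _ _) ?_, fun n hn => eq_of_rO fun j => ?_⟩⟩
  · rw [ha _ (hcc _ _) _ (hcc _ _), e, e, e, map_add]
  · rw [ha.nsmul (hcc _ _), e, e, B.two]
  · rw [e, B.ker]
  · rw [hf _ (hcc _ _), e, e, hΨ]
  have h1 : ∀ n : ℕ, ∀ c ∈ ZT M A, π (conjOp M.a (φ ^ n) c) = Φ^[n] (π c) := by
    intro n c hc
    induction n with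
    | zero =>
      have := (hk _ (sub_mem (conj_mem hx hc _) hc)).2 (conj_sub hx hc (hdeg 0))
      rwa [ha.sub (conj_mem hx hc _) hc, sub_eq_zero] at this
    | succ n ih =>
      rw [pow_succ', conj_mul hx hc, hf _ (conj_mem hx hc _), ih, Function.iterate_succ_apply']
  have h2 : ∀ (n : ℕ) t, Φ^[n] (B.pt (j + 1) t) = B.pt (j + 1) ((Ψ ^ n).mulVec t) := by
    intro n t
    induction n with
    | zero => rw [pow_zero, Matrix.one_mulVec, Function.iterate_zero_apply]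
    | succ n ih => rw [Function.iterate_succ_apply', ih, hΨ, Matrix.mulVec_mulVec, pow_succ']
  obtain ⟨t, h3, h4⟩ := hasTr_Z M L hx hA hunr j hn (hdeg n)
  have h5 := (B.hasTr (h2 n)).unique ((hasTr_B M hx hunr (j + 1) (φ ^ n)).quot h3
    (fun c hc d hd => ha c hc.1 d hd.1)
    (fun c => ⟨fun hc => ⟨hc.1, (hk c hc.1.1).2 hc.2⟩, fun hc => ⟨hc.1, (hk c hc.1.1).1 hc.2⟩⟩)
    (him _) fun c hc => h1 n c hc.1)
  simp only [map_mul, map_pow, map_natCast, map_neg, map_sum]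
  rw [h5, mul_sub, h4]
  ring

end Pool.Agent.Lef
end

-- merged part: Pool.Agent.Work.MP_60d5ce_nt.Qt.Twist
section
/-!
# Quadratic twists; the link with the cohomology group

Hints.
* `exists_twist`: `(x, y) ↦ (δ ^ 2 x, δ ^ 3 y)`.  The slope is multiplied by `δ`, `addX` by `δ ^ 2`, `addY` by
  `δ ^ 3`, `negY` by `δ ^ 3`.  Use `kum_spec`.
* `zg_of_inH`: `wdeg g = 0` gives `Geo (gal g)` (an element of finite order is algebraic over `k`,
  `gal_const`); conversely `Geo s` gives the element `(s, 0)` of the Weil group (a nonzero algebraic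
  element has finite order).  Smoothness: `c` vanishes on a neighbourhood of `1` in the geometric
  group (`krullTopology_mem_nhds_one_iff`, compare `ff_fin` and `ff_smooth` in `Sm/EllSel.lean`); apply
  `adm_core` to the subgroup of the `u` in an admissible `U0` acting trivially on the points killed by
  `2 ^ j` (`Lat.act_sm`) with `c u = 0`: `c (u ^ n) = n • c u` on `U0`.
  Inertia: `g τ g⁻¹` preserves `a ↦ w (g⁻¹ a)` (`Loc.w_τ`, `AbsoluteValue.comp`), nontrivial by `w_unif`.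
-/

namespace Pool.Agent.Quad

open Polynomial Pool.Agent.ShaAsc

section scale

open WeierstrassCurve WeierstrassCurve.Affine

/-- the coefficients of `W'` are those of `W` scaled by `u` -/
structure TwistSc {F : Type} [Field F] (W W' : Affine F) (u : F) : Prop where
  ne : u ≠ 0
  a1 : W'.a₁ = u * W.a₁
  a2 : W'.a₂ = u ^ 2 * W.a₂
  a3 : W'.a₃ = u ^ 3 * W.a₃
  a4 : W'.a₄ = u ^ 4 * W.a₄
  a6 : W'.a₆ = u ^ 6 * W.a₆

namespace TwistSc

variable {F : Type} [Field F] {W W' : Affine F} {u : F} (h : TwistSc W W' u)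
include h

theorem ns (x y : F) : W'.Nonsingular (u ^ 2 * x) (u ^ 3 * y) ↔ W.Nonsingular x y := by
  rw [nonsingular_iff', nonsingular_iff', equation_iff', equation_iff', h.a1, h.a2, h.a3, h.a4,
    h.a6, ← mul_eq_zero_iff_left (pow_ne_zero 6 h.ne) (b := _ - (_ + W.a₄ * x + _)),
    ← mul_ne_zero_iff_left (pow_ne_zero 4 h.ne) (b := W.a₁ * y - _),
    ← mul_ne_zero_iff_left (pow_ne_zero 3 h.ne) (b := 2 * y + _ + _)]
  refine and_congr (Eq.congr_left (by ring))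
    (or_congr (not_congr (Eq.congr_left (by ring))) (not_congr (Eq.congr_left (by ring))))

theorem negY (x y : F) : W'.negY (u ^ 2 * x) (u ^ 3 * y) = u ^ 3 * W.negY x y := by
  simp only [Affine.negY, h.a1, h.a3]
  ring

theorem addX (x₁ x₂ l : F) :
    W'.addX (u ^ 2 * x₁) (u ^ 2 * x₂) (u * l) = u ^ 2 * W.addX x₁ x₂ l := by
  simp only [Affine.addX, h.a1, h.a2]
  ring

theorem addY (x₁ x₂ y₁ l : F) :
    W'.addY (u ^ 2 * x₁) (u ^ 2 * x₂) (u ^ 3 * y₁) (u * l) = u ^ 3 * W.addY x₁ x₂ y₁ l := by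
  simp only [Affine.addY, Affine.negAddY, h.addX, ← h.negY]
  refine congrArg _ ?_
  ring

variable [DecidableEq F]

theorem slope (x₁ x₂ y₁ y₂ : F) : W'.slope (u ^ 2 * x₁) (u ^ 2 * x₂) (u ^ 3 * y₁) (u ^ 3 * y₂) =
    u * W.slope x₁ x₂ y₁ y₂ := by
  have h0 := h.ne
  simp only [Affine.slope, h.negY, mul_right_inj' (pow_ne_zero _ h0), ← mul_sub]
  split_ifs
  · exact (mul_zero _).symm
  · rw [← mul_div_assoc, ← mul_div_mul_left (u * _) _ (pow_ne_zero 3 h0), h.a1, h.a2, h.a4]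
    refine congrArg (· / _) ?_
    ring
  · rw [← mul_div_assoc, ← mul_div_mul_left (u * _) _ (pow_ne_zero 2 h0)]
    refine congrArg (· / _) ?_
    ring

/-- the scaling map on points -/
noncomputable def hom : W.Point →+ W'.Point where
  toFun P := match P with
    | 0 => 0
    | .some _ _ h1 => .some _ _ ((h.ns _ _).2 h1)
  map_zero' := rfl
  map_add' := by
    rintro (_ | ⟨x₁, y₁, h₁⟩) (_ | ⟨x₂, y₂, h₂⟩)
    any_goals rfl
    by_cases hxy : x₁ = x₂ ∧ y₁ = W.negY x₂ y₂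
    · rw [Point.add_of_Y_eq hxy.left hxy.right,
        Point.add_of_Y_eq (congrArg _ hxy.left) (by rw [hxy.right, h.negY])]
    · rw [Point.add_some hxy, Point.add_some fun h1 => hxy
        ⟨mul_left_cancel₀ (pow_ne_zero 2 h.ne) h1.1,
          mul_left_cancel₀ (pow_ne_zero 3 h.ne) (h1.2.trans (h.negY _ _))⟩]
      simp only [Point.some.injEq, h.slope, h.addX, h.addY, and_self]

theorem hom_some {x y : F} (h1 : W.Nonsingular x y) :
    h.hom (.some x y h1) = .some _ _ ((h.ns _ _).2 h1) := rfl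

theorem bij : Function.Bijective h.hom := by
  have h0 := h.ne
  refine ⟨(injective_iff_map_eq_zero _).2 ?_, ?_⟩
  · rintro (_ | ⟨x, y, h1⟩) h2
    · rfl
    · exact absurd h2 (Point.some_ne_zero _)
  · rintro (_ | ⟨x, y, h1⟩)
    · exact ⟨0, rfl⟩
    · have e1 : u ^ 2 * (x / u ^ 2) = x := mul_div_cancel₀ _ (pow_ne_zero _ h0)
      have e2 : u ^ 3 * (y / u ^ 3) = y := mul_div_cancel₀ _ (pow_ne_zero _ h0)
      refine ⟨.some (x / u ^ 2) (y / u ^ 3) ((h.ns _ _).1 (by rwa [e1, e2])), ?_⟩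
      simp only [hom_some, Point.some.injEq, e1, e2, and_self]

end TwistSc

end scale

section general

variable {K Ω : Type} [Field K] [Field Ω] [Algebra K Ω]

theorem Twist_nhds [Algebra.IsIntegral K Ω] {s : Set (Ω ≃ₐ[K] Ω)} (hs : s ∈ nhds (1 : Ω ≃ₐ[K] Ω)) :
    ∃ S : Finset Ω, ∀ σ : Ω ≃ₐ[K] Ω, (∀ x ∈ S, σ x = x) → σ ∈ s := by
  obtain ⟨E, hE, h⟩ := (krullTopology_mem_nhds_one_iff K Ω s).1 hs
  obtain ⟨S, hS⟩ : E.toSubalgebra.toSubmodule.FG := Module.Finite.iff_fg.1 hE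
  refine ⟨S, fun σ hσ => h ?_⟩
  rw [SetLike.mem_coe, IntermediateField.mem_fixingSubgroup_iff]
  intro x hx
  have hx' : x ∈ Submodule.span K (S : Set Ω) := by rw [hS]; exact hx
  exact LinearMap.eqOn_span (f := σ.toLinearMap) (g := LinearMap.id) (fun y hy => hσ y hy) hx'

variable [DecidableEq Ω] {E : WeierstrassCurve K}

theorem Twist_mul (σ τ : Ω ≃ₐ[K] Ω) (Q : Pts E Ω) : act E (σ * τ) Q = act E σ (act E τ Q) := by
  rcases Q with _ | ⟨x, y, hn⟩ <;> rfl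

theorem Twist_one (Q : Pts E Ω) : act E (1 : Ω ≃ₐ[K] Ω) Q = Q := by
  rcases Q with _ | ⟨x, y, hn⟩ <;> rfl

end general

variable {k : Type} [Field k] [Fintype k] {Ω : Type} [Field Ω] [Algebra (RatFunc k) Ω] [Algebra k Ω]
  [IsScalarTower k (RatFunc k) Ω] [IsSepClosure (RatFunc k) Ω] [DecidableEq Ω] {A B d : k[X]}

theorem exists_twist (h6 : (6 : k) ≠ 0) (hd : d ≠ 0) {δ : Ω}
    (hδ : δ ^ 2 = algebraMap (RatFunc k) Ω (algebraMap k[X] (RatFunc k) d)) :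
    ∃ θ : Pts (EC A B) Ω ≃+ Pts (EC (d ^ 2 * A) (d ^ 3 * B)) Ω, ∀ (s : Gam k Ω) (y : Pts (EC A B) Ω),
      act (EC (d ^ 2 * A) (d ^ 3 * B)) s (θ y) =
        θ ((-1 : ℤ) ^ (kum δ s).val • act (EC A B) s y) := by
  have h0 : δ ≠ 0 := by
    rintro rfl
    rw [zero_pow two_ne_zero, eq_comm, map_eq_zero, map_eq_zero_iff _ (RatFunc.algebraMap_injective k)]
      at hδ
    exact hd hδ
  have h : TwistSc ((EC A B).toAffine.baseChange Ω)
      ((EC (d ^ 2 * A) (d ^ 3 * B)).toAffine.baseChange Ω) δ :=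
    ⟨h0, by simp [EC, WeierstrassCurve.baseChange], by simp [EC, WeierstrassCurve.baseChange],
      by simp [EC, WeierstrassCurve.baseChange],
      by simp [EC, WeierstrassCurve.baseChange, ← hδ, ← pow_mul],
      by simp [EC, WeierstrassCurve.baseChange, ← hδ, ← pow_mul]⟩
  refine ⟨AddEquiv.ofBijective h.hom h.bij, fun s y => ?_⟩
  have h1 : s (δ ^ 2) = δ ^ 2 := by rw [hδ, AlgEquiv.commutes]
  have h2 := kum_spec h6 h0 h1
  rw [AddEquiv.ofBijective_apply, AddEquiv.ofBijective_apply]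
  rcases y with _ | ⟨x, y, hn⟩
  · exact ((congrArg h.hom (smul_zero _)).trans (map_zero _)).symm
  have h3 : s (δ ^ 2 * x) = δ ^ 2 * s x := by rw [map_mul, h1]
  have h4 : s (δ ^ 3 * y) = δ ^ 2 * s δ * s y := by rw [map_mul, pow_succ, map_mul, h1]
  rcases F2_cases (kum δ s) with e | e
  · rw [e, GalKum_val0, pow_zero, one_mul] at h2
    rw [e, GalKum_val0, pow_zero, one_smul]
    simp only [act, h.hom_some, WeierstrassCurve.Affine.Point.map_some,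
      WeierstrassCurve.Affine.Point.some.injEq]
    exact ⟨h3, h4.trans (by rw [h2, ← pow_succ]; rfl)⟩
  · rw [e, GalKum_val1, pow_one, neg_one_mul] at h2
    rw [e, GalKum_val1, pow_one, neg_smul, one_smul]
    simp only [act, h.hom_some, WeierstrassCurve.Affine.Point.map_some,
      WeierstrassCurve.Affine.Point.neg_some, WeierstrassCurve.Affine.Point.some.injEq]
    refine ⟨h3, h4.trans ?_⟩
    simp [h2, EC, WeierstrassCurve.baseChange, pow_succ]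

theorem ERep.exists_gm {h6 : (6 : k) ≠ 0} {ℓ : Locs k Ω} (X : ERep A B h6 ℓ) (hd : d ≠ 0) {δ : Ω}
    (hδ : δ ^ 2 = algebraMap (RatFunc k) Ω (algebraMap k[X] (RatFunc k) d)) :
    ∃ M : GM X.R (fun g => kum δ (gal g)) (Pts (EC (d ^ 2 * A) (d ^ 3 * B)) Ω),
      ∀ g, M.a g = act (EC (d ^ 2 * A) (d ^ 3 * B)) (gal g) := by
  obtain ⟨θ, hθ⟩ := exists_twist (A := A) (B := B) h6 hd hδ
  refine ⟨⟨⟨fun j => θ.toAddMonoidHom.comp (X.TB.pt j), fun j a => ?_, fun j a => ?_,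
    fun j P hP => ?_⟩, fun g => act _ (gal g), fun g j t => ?_⟩, fun _ => rfl⟩
  · exact (map_nsmul θ _ _).symm.trans (congrArg θ (X.TB.two j a))
  · exact θ.map_eq_zero_iff.trans (X.TB.ker j a)
  · obtain ⟨a, ha⟩ := X.TB.surj j (θ.symm P) (by rw [← map_nsmul, hP, map_zero])
    exact ⟨a, (congrArg θ ha).trans (θ.apply_symm_apply P)⟩
  · refine (hθ _ _).trans (congrArg θ ?_)
    rw [X.act_pt, Lat.act]
    rcases F2_cases (kum δ (gal g)) with e | e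
    · rw [e, GalKum_val0, pow_zero, one_smul, sg_zero, one_smul]
    · rw [e, GalKum_val1, pow_one, neg_smul, one_smul, sg_one, neg_smul, one_smul, map_neg]

omit [IsSepClosure (RatFunc k) Ω] [DecidableEq Ω] in
theorem Twist_geo {g : WG k Ω} (hg : wdeg g = 0) : Geo (gal g) := by
  intro a ha
  obtain ⟨n, hn, h⟩ := isOfFinOrder_iff_pow_eq_one.1 ha
  have h1 : a ∈ algebraicClosure k Ω :=
    mem_algebraicClosure_iff'.2 (IsIntegral.of_pow hn (h ▸ isIntegral_one))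
  have h2 := gal_const g ⟨a, h1⟩
  rwa [hg, zpow_zero, AlgEquiv.one_apply] at h2

omit [DecidableEq Ω] in
theorem Twist_mk {φ : Gam k Ω} (n : ℕ)
    (h : ∀ a : Ω, IsOfFinOrder a → φ a = a ^ Fintype.card k ^ n) :
    ∃ g : WG k Ω, gal g = φ ∧ wdeg g = n := by
  refine ⟨⟨(φ, Multiplicative.ofAdd (n : ℤ)), fun c => ?_⟩, rfl, rfl⟩
  by_cases hc : c = 0
  · simp [hc]
  have h1 := (galloc_fix (x := c) _).2 dvd_rfl
  have h2 := Nat.one_lt_pow (minpoly.natDegree_pos (Algebra.IsIntegral.isIntegral (R := k) c)).ne'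
    (Fintype.one_lt_card (α := k))
  rw [frob_pow_apply] at h1
  generalize Fintype.card k ^ (minpoly k c).natDegree = m at h1 h2
  obtain ⟨m, rfl⟩ := Nat.exists_eq_add_of_lt h2
  rw [pow_succ, mul_eq_right₀ hc] at h1
  rw [toAdd_ofAdd, zpow_natCast, frob_pow_apply]
  exact h _ (isOfFinOrder_iff_pow_eq_one.2 ⟨1 + m, by omega, congrArg Subtype.val h1⟩)

theorem zg_of_inH {h6 : (6 : k) ≠ 0} {ℓ : Locs k Ω} {R : Rep (tame h6 ℓ)} {x : WG k Ω → F2}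
    (hx : (tame h6 ℓ).IsHom x) {E : WeierstrassCurve (RatFunc k)} (M : GM R x (Pts E Ω))
    (hM : ∀ g, M.a g = act E (gal g)) {c : Gam k Ω → Pts E Ω} (hc : InH E c) :
    M.ZG fun g => c (gal g) := by
  obtain ⟨h1, h2, ⟨j, h3⟩, h4⟩ := hc
  have g1 : Geo (1 : Gam k Ω) := fun _ _ => rfl
  have c1 : c 1 = 0 := by
    have := h2 1 1 g1 g1
    rw [one_mul, Twist_one] at this
    simpa using this
  have hm : ∀ g h : WG k Ω, wdeg g = 0 → wdeg h = 0 →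
      c (gal (g * h)) = c (gal g) + act E (gal g) (c (gal h)) := fun g h hg hh => by
    rw [map_mul, h2 _ _ (Twist_geo hg) (Twist_geo hh)]
  refine ⟨⟨j, fun g hg => h3 _ (Twist_geo hg)⟩, ?_, fun g h hg hh => by rw [hM]; exact hm g h hg hh,
    fun v g => ?_⟩
  · obtain ⟨s, hs, hs'⟩ := (mem_nhds_subtype _ _ _).1 (h1.eventually_eq ⟨1, g1⟩)
    obtain ⟨S, hS⟩ := Twist_nhds hs
    obtain ⟨U, hU, hU'⟩ := Lat.act_sm (R := R.toLat) hx j
    have hU0 : Adm U := hU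
    have h5 : ∀ u ∈ U, ∀ y : Pts E Ω, 2 ^ j • y = 0 → act E (gal u) y = y := fun u hu y hy => by
      obtain ⟨t, rfl⟩ := M.surj j y hy
      rw [← hM, M.a_pt, TateB.pt_eq_iff]
      exact hU' u hu t
    let H : Subgroup (WG k Ω) :=
      { carrier := {u | u ∈ U ∧ c (gal u) = 0}
        one_mem' := ⟨U.one_mem, by rw [map_one, c1]⟩
        mul_mem' := fun {a b} ha hb => ⟨U.mul_mem ha.1 hb.1, by
          rw [hm _ _ (hU0.le ha.1) (hU0.le hb.1), ha.2, hb.2, map_zero, add_zero]⟩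
        inv_mem' := fun {a} ha => ⟨U.inv_mem ha.1, by
          have := hm _ _ (hU0.le (U.inv_mem ha.1)) (hU0.le ha.1)
          rw [inv_mul_cancel, map_one, c1, ha.2, map_zero, add_zero] at this
          exact this.symm⟩ }
    obtain ⟨S', hS'⟩ := hU0.2.2.1
    classical
    refine ⟨H.normalCore, adm_core H (fun u hu => hU0.le hu.1) (S ∪ S') (fun g hg h => ?_)
      fun g hg => ?_, fun g hg u hu => ?_⟩
    · refine ⟨hS' g hg fun a ha => h a (Finset.mem_union_right _ ha), ?_⟩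
      exact (hs' (a := ⟨gal g, Twist_geo hg⟩)
        (hS _ fun a ha => h a (Finset.mem_union_left _ ha))).trans c1
    · obtain ⟨i, hi⟩ := hU0.2.2.2 g hg
      have h6 := h3 _ (Twist_geo (hU0.le hi))
      have h7 : ∀ n : ℕ, c (gal ((g ^ 6 ^ i) ^ n)) = n • c (gal (g ^ 6 ^ i)) := fun n => by
        induction n with
        | zero => rw [pow_zero, map_one, c1, zero_smul]
        | succ n ih =>
          rw [pow_succ, hm _ _ (hU0.le (U.pow_mem hi n)) (hU0.le hi), h5 _ (U.pow_mem hi n) _ h6,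
            ih, succ_nsmul]
      refine ⟨i + j, ?_⟩
      rw [pow_add, pow_mul]
      refine ⟨U.pow_mem hi _, ?_⟩
      rw [h7, show 6 ^ j = 3 ^ j * 2 ^ j from mul_pow 3 2 j, mul_smul, h6, smul_zero]
    · have h6 := H.normalCore_le hu
      beta_reduce
      rw [hm _ _ hg (hU0.le h6.1), h6.2, map_zero, add_zero]
  · have h5 : wdeg (g * (ℓ v).τ * g⁻¹) = 0 := by
      rw [wdeg_mul, wdeg_mul, wdeg_inv, (ℓ v).deg_τ, add_zero, add_neg_cancel]
    have h6 : ∀ a, gal g⁻¹ (gal g a) = a := fun a => by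
      rw [← AlgEquiv.mul_apply, ← map_mul, inv_mul_cancel, map_one, AlgEquiv.one_apply]
    have h7 : (ℓ v).w (unif v (ℓ v).x) = 2⁻¹ := (ℓ v).w_unif
    obtain ⟨y, hy, hy'⟩ := h4 ((ℓ v).w.comp (f := (gal g⁻¹ : Ω →+* Ω)) (gal g⁻¹).injective)
      ⟨gal g (unif v (ℓ v).x), fun h => by
        rw [map_eq_zero] at h
        rw [h, map_zero] at h7
        norm_num at h7, fun h => by
        have h8 : (ℓ v).w (gal g⁻¹ (gal g (unif v (ℓ v).x))) = 1 := h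
        rw [h6, h7] at h8
        norm_num at h8⟩
    refine ⟨y, hy, ?_⟩
    rw [hM]
    refine hy' _ (Twist_geo h5) fun a => ?_
    show (ℓ v).w (gal g⁻¹ (gal (g * (ℓ v).τ * g⁻¹) a)) = (ℓ v).w (gal g⁻¹ a)
    rw [map_mul, map_mul, AlgEquiv.mul_apply, AlgEquiv.mul_apply, h6, Loc.w_τ]

theorem isB_iff {h6 : (6 : k) ≠ 0} {ℓ : Locs k Ω} {R : Rep (tame h6 ℓ)} {x : WG k Ω → F2}
    {E : WeierstrassCurve (RatFunc k)} (M : GM R x (Pts E Ω))
    (hM : ∀ g, M.a g = act E (gal g)) (c : Gam k Ω → Pts E Ω) :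
    (M.IsB fun g => c (gal g)) ↔ Cob E c := by
  refine exists_congr fun y => and_congr_right fun _ => ⟨fun h s hs => ?_, fun h g hg => ?_⟩
  · obtain ⟨g, rfl, hg⟩ := Twist_mk (φ := s) 0 fun a ha => by rw [pow_zero, pow_one, hs a ha]
    rw [← hM]
    exact h g hg
  · rw [hM]
    exact h _ (Twist_geo hg)

theorem exists_frob {φ : Gam k Ω} (hφ : ∀ a : Ω, IsOfFinOrder a → φ a = a ^ Fintype.card k) :
    ∃ g : WG k Ω, gal g = φ ∧ wdeg g = 1 := by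
  exact Twist_mk 1 fun a ha => by rw [pow_one, hφ a ha]

theorem ERep.corank {h6 : (6 : k) ≠ 0} {ℓ : Locs k Ω} (X : ERep A B h6 ℓ) :
    ∃ c0 : ℕ, ∀ (d : k[X]) (δ : Ω) (A0 : Finset (Pl k)), d ≠ 0 →
      δ ^ 2 = algebraMap (RatFunc k) Ω (algebraMap k[X] (RatFunc k) d) →
      (tame h6 ℓ).IsHom (fun g => kum δ (gal g)) → X.R.Ram (fun g => kum δ (gal g)) A0 →
      X.R.Good A0 (fun g => kum δ (gal g)) c0 →
      ∀ φ : Gam k Ω, (∀ a : Ω, IsOfFinOrder a → φ a = a ^ Fintype.card k) →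
        CorankLeOne (EC (d ^ 2 * A) (d ^ 3 * B)) φ := by
  obtain ⟨c0, h⟩ := geo_main X.R
  refine ⟨c0, fun d δ A0 hd hδ hx hA hG φ hφ m => ?_⟩
  obtain ⟨M, hM⟩ := X.exists_gm hd hδ
  obtain ⟨g0, rfl, hg⟩ := exists_frob hφ
  obtain ⟨N, hN⟩ := h _ A0 hx hA hG M g0 hg m
  have hs : Function.Semiconj (fun (c : Gam k Ω → Pts (EC (d ^ 2 * A) (d ^ 3 * B)) Ω) g => c (gal g))
      (nu _ (gal g0)) (M.nu g0) := fun c => funext fun g => by
    simp only [nu, GM.nu, hM, map_mul, map_inv]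
  refine ⟨N, fun c1 c2 h1 h2 k1 k2 t1 t2 => ?_⟩
  rw [← isB_iff M hM] at k1 k2 t1 t2 ⊢
  rw [← isB_iff M hM, ← isB_iff M hM]
  exact hN _ _ (zg_of_inH hx M hM h1) (zg_of_inH hx M hM h2) (hs.iterate_right m c1 ▸ k1)
    (hs.iterate_right m c2 ▸ k2) t1 t2

end Pool.Agent.Quad
end
end
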