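import Pool.Agent.Work.MP_60d5ce_nt.Lb.LkRat
import Pool.Agent.Work.MP_60d5ce_nt.Qt.EllA

/-!
# The function field of a short Weierstrass curve and its places  (task LB DFun)

* `exists_ef`: `K = E.FunctionField` (`WeierstrassCurve.Affine.CoordinateRing.exists_smul_basis_eq`, `smul_basis_eq_zero`; clear the denominator `p + q y` with its conjugate; automorphisms by
  `AdjoinRoot.lift` / `CoordinateRing.map` and `IsFractionRing.ringEquivOfRingEquiv`), or `K = AdjoinRoot (Y ^ 2 - C cubic)` over `RatFunc κ` (irreducible since a polynomial of degree three is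
  not a square; `AdjoinRoot.lift`, `RatFunc.mapRingHom` / `IsFractionRing.ringEquivOfRingEquiv`).
* `EF.rank`: `1, y` is a basis of `K` over `κ⟮x⟯` (`IntermediateField.mem_adjoin_simple_iff`).
* `EF.exists_o`: `dg_dvInf` for `x` is two; at a pole `z` of `x`, `2 * ord y = 3 * ord x` (`ord_poly_inf`), so `ord x ≤ -2`.
* `EF.aff`: if `y ∉ z.1` then `ord y < 0`, but `y ^ 2 ∈ z.1`.
* `EF.exists_pl`: `dg (dv (x - x0)) = 0`, the order at `o` is `-2`, all other orders are `≥ 0`: the places with `val x = x0` have `∑ ord (x - x0) = 2`; there is one (`exists_place_val`).  The automorphism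
  `y ↦ -y` (`aut` with `σ = 1`, `ε = -1`; `val_smul`, `ord_smul`) exchanges the values `± y0`.  If `y0 = 0`: `2 * ord y = ord (cubic x) = ord (x - x0)` since the root is simple (`ord_poly`, `SW.disc`).
-/

namespace Pool.Agent.Lef

open PR0 Pool.Agent.Ell.AT Pool.Agent.Quad Polynomial WeierstrassCurve

variable {κ : Type} [Field κ]

/-- generators of the function field -/
structure EF (E : Affine κ) (K : Type) [Field K] [Algebra κ K] where
  x : K
  y : K
  tr : Transcendental κ x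
  eqn : y ^ 2 = x ^ 3 + algebraMap κ K E.a₄ * x + algebraMap κ K E.a₆
  span : ∀ f : K, ∃ p q h : κ[X], h ≠ 0 ∧ f * aeval x h = aeval x p + aeval x q * y
  ind : ∀ p q : κ[X], aeval x p + aeval x q * y = 0 → p = 0 ∧ q = 0
  aut : ∀ σ : κ ≃+* κ, σ E.a₄ = E.a₄ → σ E.a₆ = E.a₆ → ∀ ε : K, ε = 1 ∨ ε = -1 →
    ∃ γ : SA κ K, sc γ = σ ∧ Ell.AT.sl γ x = x ∧ Ell.AT.sl γ y = ε * y

variable {E : Affine κ}

/-- the cubic -/
noncomputable def DFun_cub (E : Affine κ) : κ[X] := X ^ 3 + C E.a₄ * X + C E.a₆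

theorem DFun_deg (E : Affine κ) : (DFun_cub E).natDegree = 3 := by
  unfold DFun_cub
  compute_degree!

theorem DFun_ne (E : Affine κ) : DFun_cub E ≠ 0 := fun e => by
  have := DFun_deg E
  rw [e, natDegree_zero] at this
  omega

theorem DFun_aeval {A : Type} [CommRing A] [Algebra κ A] (t : A) :
    aeval t (DFun_cub E) = t ^ 3 + algebraMap κ A E.a₄ * t + algebraMap κ A E.a₆ := by
  simp [DFun_cub]

theorem DFun_eval (t : κ) : (DFun_cub E).eval t = t ^ 3 + E.a₄ * t + E.a₆ := by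
  simp [DFun_cub]

theorem DFun_nsq (E : Affine κ) (r : RatFunc κ) :
    r ^ 2 ≠ algebraMap κ[X] (RatFunc κ) (DFun_cub E) + 0 * r := by
  intro h
  rw [zero_mul, add_zero] at h
  have h0 : r ≠ 0 := fun e => RatFunc.algebraMap_ne_zero (DFun_ne E) (by rw [← h, e]; ring)
  have h1 := congrArg RatFunc.intDegree h
  rw [pow_two, RatFunc.intDegree_mul h0 h0, RatFunc.intDegree_polynomial, DFun_deg] at h1
  omega

/-- semilinear automorphisms of a quadratic algebra -/
def DFun_aut {R : Type} [CommRing R] {c : R} (τ : R ≃+* R) (hc : τ c = c) (e : R)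
    (he : e * e = 1) : QuadraticAlgebra R c 0 ≃+* QuadraticAlgebra R c 0 where
  toFun z := ⟨τ z.re, e * τ z.im⟩
  invFun z := ⟨τ.symm z.re, τ.symm (e * z.im)⟩
  left_inv z := by
    ext
    · simp
    · simp [← mul_assoc, he]
  right_inv z := by
    ext
    · simp
    · simp [← mul_assoc, he]
  map_mul' z w := by
    ext
    · simp only [QuadraticAlgebra.re_mul, map_add, map_mul, hc]
      linear_combination (-(c * τ z.im * τ w.im)) * he
    · simp only [QuadraticAlgebra.im_mul, zero_mul, add_zero, map_add, map_mul]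
      ring
  map_add' z w := by
    ext
    · simp
    · simp [mul_add]

theorem DFun_aev {c : RatFunc κ} (p : κ[X]) :
    aeval (⟨RatFunc.X, 0⟩ : QuadraticAlgebra (RatFunc κ) c 0) p =
      ⟨algebraMap κ[X] (RatFunc κ) p, 0⟩ := by
  rw [← QuadraticAlgebra.algebraMap_eq, ← QuadraticAlgebra.algebraMap_eq,
    aeval_algebraMap_apply, RatFunc.aeval_X_left_eq_algebraMap]

theorem exists_ef (h : SW E) : ∃ (K : Type) (_ : Field K) (_ : Algebra κ K), Nonempty (EF E K) := by
  have _ := h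
  have : Fact (∀ r : RatFunc κ, r ^ 2 ≠ algebraMap κ[X] (RatFunc κ) (DFun_cub E) + 0 * r) :=
    ⟨DFun_nsq E⟩
  refine ⟨QuadraticAlgebra (RatFunc κ) (algebraMap κ[X] (RatFunc κ) (DFun_cub E)) 0,
    inferInstance, inferInstance, ⟨⟨⟨RatFunc.X, 0⟩, ⟨0, 1⟩, ?_, ?_, ?_, ?_, ?_⟩⟩⟩
  · rintro ⟨p, hp, e⟩
    rw [DFun_aev] at e
    exact RatFunc.algebraMap_ne_zero hp (congrArg QuadraticAlgebra.re e)
  · rw [← DFun_aeval, DFun_aev, pow_two]
    ext <;> simp
  · intro f
    refine ⟨f.re.num * f.im.denom, f.im.num * f.re.denom, f.re.denom * f.im.denom,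
      mul_ne_zero f.re.denom_ne_zero f.im.denom_ne_zero, ?_⟩
    rw [DFun_aev, DFun_aev, DFun_aev]
    have h1 := (div_eq_iff (RatFunc.algebraMap_ne_zero f.re.denom_ne_zero)).1 f.re.num_div_denom
    have h2 := (div_eq_iff (RatFunc.algebraMap_ne_zero f.im.denom_ne_zero)).1 f.im.num_div_denom
    ext
    · simp only [QuadraticAlgebra.re_mul, QuadraticAlgebra.re_add, map_mul, h1]
      ring
    · simp only [QuadraticAlgebra.im_mul, QuadraticAlgebra.im_add, map_mul, h2]
      ring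
  · intro p q e
    rw [DFun_aev, DFun_aev] at e
    have h1 := congrArg QuadraticAlgebra.re e
    have h2 := congrArg QuadraticAlgebra.im e
    simp only [QuadraticAlgebra.re_mul, QuadraticAlgebra.re_add, QuadraticAlgebra.im_mul,
      QuadraticAlgebra.im_add, mul_zero, add_zero, zero_add, mul_one,
      QuadraticAlgebra.re_zero, QuadraticAlgebra.im_zero] at h1 h2
    exact ⟨by_contra fun hp => RatFunc.algebraMap_ne_zero hp h1,
      by_contra fun hq => RatFunc.algebraMap_ne_zero hq h2⟩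
  · intro σ h4 h6 ε hε
    let τ : RatFunc κ ≃+* RatFunc κ := IsFractionRing.ringEquivOfRingEquiv (mapEquiv σ)
    have hτ : ∀ p : κ[X], τ (algebraMap κ[X] (RatFunc κ) p) =
        algebraMap κ[X] (RatFunc κ) (p.map (σ : κ →+* κ)) := fun p =>
      IsFractionRing.ringEquivOfRingEquiv_algebraMap _ p
    have hc : τ (algebraMap κ[X] (RatFunc κ) (DFun_cub E)) =
        algebraMap κ[X] (RatFunc κ) (DFun_cub E) := by
      rw [hτ]
      congr 1
      simp [DFun_cub, h4, h6]
    have hX : τ RatFunc.X = RatFunc.X := by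
      have := hτ X
      rwa [map_X, RatFunc.algebraMap_X] at this
    have hC : ∀ c : κ, τ (algebraMap κ (RatFunc κ) c) = algebraMap κ (RatFunc κ) (σ c) :=
      fun c => by
        have := hτ (C c)
        rwa [map_C, RatFunc.algebraMap_C, RatFunc.algebraMap_C] at this
    obtain ⟨e, he, h1⟩ : ∃ e : RatFunc κ, e * e = 1 ∧ ε = ⟨e, 0⟩ := by
      rcases hε with rfl | rfl
      · exact ⟨1, one_mul 1, rfl⟩
      · exact ⟨-1, by ring, QuadraticAlgebra.ext rfl neg_zero⟩
    refine ⟨⟨(σ, DFun_aut τ hc e he), fun c => ?_⟩, rfl, ?_, ?_⟩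
    · exact QuadraticAlgebra.ext (hC c) (by
        change e * τ 0 = 0
        rw [map_zero, mul_zero])
    · exact QuadraticAlgebra.ext hX (by
        change e * τ 0 = 0
        rw [map_zero, mul_zero])
    · rw [h1]
      refine QuadraticAlgebra.ext ?_ ?_
      · change τ 0 = _
        simp
      · change e * τ 1 = _
        simp

variable {K : Type} [Field K] [Algebra κ K] (F : EF E K)

theorem DFun_tr (F : EF E K) {p : κ[X]} (hp : p ≠ 0) : aeval F.x p ≠ 0 :=
  fun e => F.tr ⟨p, hp, e⟩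

theorem DFun_y (F : EF E K) : F.y ≠ 0 := fun e =>
  one_ne_zero (F.ind 0 1 (by rw [e, map_zero, mul_zero, add_zero])).2

theorem DFun_eqn (F : EF E K) : F.y ^ 2 = aeval F.x (DFun_cub E) := by
  rw [DFun_aeval, F.eqn]

theorem DFun_frac (t : K) (s : IntermediateField.adjoin κ {t}) :
    ∃ p q : κ[X], q ≠ 0 ∧ (s : K) * aeval t q = aeval t p := by
  obtain ⟨p, q, h⟩ := (IntermediateField.mem_adjoin_simple_iff κ (s : K)).1 s.2
  by_cases hq : aeval t q = 0
  · exact ⟨0, 1, one_ne_zero, by rw [h, hq, div_zero, zero_mul, map_zero]⟩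
  · exact ⟨p, q, fun e => hq (by rw [e, map_zero]), by rw [h, div_mul_cancel₀ _ hq]⟩

theorem EF.rank : Module.finrank (IntermediateField.adjoin κ {F.x}) K = 2 := by
  have h1 : LinearIndependent (IntermediateField.adjoin κ {F.x}) ![(1 : K), F.y] := by
    rw [LinearIndependent.pair_iff]
    intro s t e
    obtain ⟨p, q, hq, hs⟩ := DFun_frac F.x s
    obtain ⟨p', q', hq', ht⟩ := DFun_frac F.x t
    change (s : K) * 1 + (t : K) * F.y = 0 at e
    obtain ⟨h2, h3⟩ := F.ind (p * q') (p' * q) (by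
      rw [map_mul, map_mul, ← hs, ← ht]
      linear_combination (aeval F.x q * aeval F.x q') * e)
    rw [(mul_eq_zero.1 h2).resolve_right hq', map_zero] at hs
    rw [(mul_eq_zero.1 h3).resolve_right hq, map_zero] at ht
    exact ⟨Subtype.ext ((mul_eq_zero.1 hs).resolve_right (DFun_tr F hq)),
      Subtype.ext ((mul_eq_zero.1 ht).resolve_right (DFun_tr F hq'))⟩
  have h2 : ⊤ ≤ Submodule.span (IntermediateField.adjoin κ {F.x}) (Set.range ![(1 : K), F.y]) := by
    intro f _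
    obtain ⟨p, q, r, hr, e⟩ := F.span f
    rw [Matrix.range_cons_cons_empty, Submodule.mem_span_pair]
    refine ⟨⟨aeval F.x p / aeval F.x r, (IntermediateField.mem_adjoin_simple_iff κ _).2 ⟨p, r, rfl⟩⟩,
      ⟨aeval F.x q / aeval F.x r, (IntermediateField.mem_adjoin_simple_iff κ _).2 ⟨q, r, rfl⟩⟩, ?_⟩
    change aeval F.x p / aeval F.x r * 1 + aeval F.x q / aeval F.x r * F.y = f
    have h3 := DFun_tr F hr
    field_simp
    linear_combination -e
  rw [Module.finrank_eq_card_basis (Module.Basis.mk h1 h2), Fintype.card_fin]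

include F in
theorem EF.isFF : IsFF κ K := by
  exact ⟨F.x, F.tr, Module.finite_of_finrank_eq_succ F.rank⟩

variable [IsAlgClosed κ] [Fact (IsFF κ K)]

omit [IsAlgClosed κ] [Fact (IsFF κ K)] in
theorem DFun_le {D : Dv κ K} (h : ∀ z, 0 ≤ D z) (S : Finset (Place κ K)) :
    ∑ z ∈ S, D z ≤ dg D := by
  classical
  rw [dg, Finsupp.sum_of_support_subset D (s := D.support ∪ S) Finset.subset_union_left _
    (fun _ _ => rfl)]
  exact Finset.sum_le_sum_of_subset_of_nonneg Finset.subset_union_right fun z _ _ => h z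

theorem DFun_pole (F : EF E K) {z : Place κ K} (hz : F.x ∉ z.1) :
    2 * z.ord F.y = 3 * z.ord F.x := by
  have h1 := ord_poly_inf z hz (DFun_ne E)
  rw [← DFun_eqn, z.ord_pow (DFun_y F), DFun_deg] at h1
  exact_mod_cast h1

theorem EF.exists_o : ∃ o : Place κ K, (∀ z : Place κ K, F.x ∉ z.1 ↔ z = o) ∧ o.ord F.x = -2 ∧
    o.ord F.y = -3 := by
  classical
  have h0 : F.x ≠ 0 := fun e => F.tr (e ▸ isAlgebraic_zero)
  have h1 := dg_dvInf F.tr
  rw [F.rank] at h1
  have h2 : ∀ z, 0 ≤ dvInf κ F.x z := fun z => by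
    rw [dvInf_apply h0]
    exact le_max_right _ _
  have h3 : ∀ z : Place κ K, F.x ∉ z.1 → z.ord F.x ≤ -2 := fun z hz => by
    have h4 := DFun_pole F hz
    have h5 := (LkRat_neg hz).2
    omega
  obtain ⟨o, ho⟩ : ∃ o : Place κ K, F.x ∉ o.1 := by
    by_contra hc
    push Not at hc
    obtain ⟨c, e⟩ := const_of_regular hc
    exact PR0.transcendental_iff.1 F.tr ⟨c, e.symm⟩
  have h4 := DFun_le h2 {o}
  rw [Finset.sum_singleton, dvInf_apply h0, h1] at h4
  have h5 := h3 o ho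
  have h6 := DFun_pole F ho
  refine ⟨o, fun z => ⟨fun hz => by_contra fun hne => ?_, fun e => e ▸ ho⟩, by omega, by omega⟩
  have h7 := DFun_le h2 {z, o}
  rw [Finset.sum_pair hne, dvInf_apply h0, dvInf_apply h0, h1] at h7
  have h8 := h3 z hz
  omega

theorem EF.aff {z : Place κ K} (hz : F.x ∈ z.1) :
    F.y ∈ z.1 ∧ z.val F.y ^ 2 = z.val F.x ^ 3 + E.a₄ * z.val F.x + E.a₆ := by
  obtain ⟨h1, h2⟩ := LkRat_val z hz (DFun_cub E)
  rw [← DFun_eqn] at h1 h2
  have h3 : F.y ∈ z.1 := by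
    have h4 := (Sa_mem z (pow_ne_zero 2 (DFun_y F))).1 h1
    rw [z.ord_pow (DFun_y F)] at h4
    refine (Sa_mem z (DFun_y F)).2 ?_
    push_cast at h4
    omega
  refine ⟨h3, ?_⟩
  rw [pow_two, Place.val_mul h3 h3, DFun_eval] at h2
  rw [pow_two, h2]

theorem DFun_div (F : EF E K) (x0 : κ) : ∃ D : Dv κ K, (∀ z, 0 ≤ D z) ∧ dg D = 2 ∧
    ∀ z : Place κ K, F.x ∈ z.1 → D z = z.ord (F.x - algebraMap κ K x0) := by
  obtain ⟨o, h1, h2, -⟩ := F.exists_o
  have h0 := LkRat_ne F.tr x0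
  have h3 : ∀ z : Place κ K, F.x ∈ z.1 →
      (dv κ (F.x - algebraMap κ K x0) + Finsupp.single o 2 : Dv κ K) z =
        z.ord (F.x - algebraMap κ K x0) := fun z hz => by
    rw [Finsupp.add_apply, dv_apply h0, Finsupp.single_eq_of_ne fun e => (h1 z).2 e hz, add_zero]
  refine ⟨dv κ (F.x - algebraMap κ K x0) + Finsupp.single o 2, fun z => ?_, ?_, h3⟩
  · by_cases hz : F.x ∈ z.1
    · rw [h3 z hz]
      exact (Sa_mem z h0).1 (sub_mem hz (z.2.2 x0))
    · have h4 := ord_poly_inf z hz (X_sub_C_ne_zero x0)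
      rw [map_sub, aeval_X, aeval_C, natDegree_X_sub_C, Nat.cast_one, one_mul] at h4
      have h5 := (h1 z).1 hz
      subst h5
      rw [Finsupp.add_apply, dv_apply h0, Finsupp.single_eq_same, h4, h2]
      norm_num
  · rw [dg_add, dg_dv, dg_single, zero_add]

theorem DFun_flip (F : EF E K) {z : Place κ K} (hz : F.x ∈ z.1) :
    ∃ z' : Place κ K, F.x ∈ z'.1 ∧ z'.val F.x = z.val F.x ∧ z'.val F.y = -z.val F.y := by
  obtain ⟨γ, h1, h2, h3⟩ := F.aut 1 rfl rfl (-1) (Or.inr rfl)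
  have h4 : F.x ∈ (γ • z).1 := by
    have := (sl_mem (σ := γ)).2 hz
    rwa [h2] at this
  have h5 := val_smul γ z hz
  have h6 := val_smul γ z (F.aff hz).1
  rw [h2, h1] at h5
  have h7 : (-1 : K) = algebraMap κ K (-1) := by rw [map_neg, map_one]
  rw [h3, h1, h7, Place.val_mul ((γ • z).2.2 _) (F.aff h4).1, Place.val_const] at h6
  refine ⟨γ • z, h4, h5, ?_⟩
  have h8 : (1 : κ ≃+* κ) (z.val F.y) = z.val F.y := rfl
  rw [h8] at h6
  linear_combination -h6

theorem DFun_pos (F : EF E K) {z : Place κ K} (hz : F.x ∈ z.1) :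
    1 ≤ z.ord (F.x - algebraMap κ K (z.val F.x)) :=
  (Place.ge_sub_val hz).resolve_left (LkRat_ne F.tr _)

omit [IsAlgClosed κ] in
theorem DFun_simple (h : SW E) {x0 : κ} (he : x0 ^ 3 + E.a₄ * x0 + E.a₆ = 0) :
    (DFun_cub E).rootMultiplicity x0 = 1 := by
  have h1 : 0 < (DFun_cub E).rootMultiplicity x0 :=
    (rootMultiplicity_pos (DFun_ne E)).2 ((DFun_eval x0).trans he)
  have h2 : ¬ 1 < (DFun_cub E).rootMultiplicity x0 := fun h3 => by
    have h4 := ((one_lt_rootMultiplicity_iff_isRoot (DFun_ne E)).1 h3).2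
    have h5 : 3 * x0 ^ 2 + E.a₄ = 0 := by
      have h8 : (2 + 1) * x0 ^ 2 + E.a₄ = 0 := by simpa [DFun_cub] using h4
      linear_combination h8
    have h6 : E.a₄ = -(3 * x0 ^ 2) := by linear_combination h5
    have h7 : E.a₆ = 2 * x0 ^ 3 := by linear_combination he - x0 * h5
    refine h.disc ?_
    rw [h6, h7]
    ring
  omega

theorem EF.exists_pl (h : SW E) {x0 y0 : κ} (he : y0 ^ 2 = x0 ^ 3 + E.a₄ * x0 + E.a₆) :
    ∃ z : Place κ K, (∀ z' : Place κ K, F.x ∈ z'.1 ∧ z'.val F.x = x0 ∧ z'.val F.y = y0 ↔ z' = z) ∧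
      (y0 ≠ 0 → z.ord (F.x - algebraMap κ K x0) = 1) ∧
      (y0 = 0 → z.ord (F.x - algebraMap κ K x0) = 2) := by
  classical
  obtain ⟨D, hD, h2, h3⟩ := DFun_div F x0
  have h4 : ∀ z : Place κ K, F.x ∈ z.1 → z.val F.x = x0 → 1 ≤ D z := fun z hz e => by
    rw [h3 z hz, ← e]
    exact DFun_pos F hz
  obtain ⟨z, hz, hx, hy⟩ : ∃ z : Place κ K, F.x ∈ z.1 ∧ z.val F.x = x0 ∧ z.val F.y = y0 := by
    obtain ⟨z, hz, hx⟩ := exists_place_val F.tr x0
    have h5 := (F.aff hz).2
    rw [hx, ← he] at h5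
    rcases sq_eq_sq_iff_eq_or_eq_neg.1 h5 with h6 | h6
    · exact ⟨z, hz, hx, h6⟩
    · obtain ⟨z', hz', hx', hy'⟩ := DFun_flip F hz
      exact ⟨z', hz', hx'.trans hx, by rw [hy', h6, neg_neg]⟩
  have h5 := h4 z hz hx
  by_cases h0 : y0 = 0
  · have h6 : D z = 2 := by
      have h7 := ord_poly z F.tr hz (DFun_ne E)
      rw [← DFun_eqn, z.ord_pow (DFun_y F), hx, DFun_simple h (by rw [← he, h0]; ring),
        ← h3 z hz] at h7
      have h8 := DFun_le hD {z}
      rw [Finset.sum_singleton, h2] at h8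
      push_cast at h7
      omega
    refine ⟨z, fun z' => ⟨fun hh => by_contra fun hne => ?_, fun e => e ▸ ⟨hz, hx, hy⟩⟩,
      fun hh => absurd h0 hh, fun _ => (h3 z hz).symm.trans h6⟩
    have h7 := DFun_le hD {z', z}
    rw [Finset.sum_pair hne, h2] at h7
    have h8 := h4 z' hh.1 hh.2.1
    omega
  · obtain ⟨w, hw, hx', hy'⟩ := DFun_flip F hz
    have h6 := h4 w hw (hx'.trans hx)
    have h7 : ∀ z' : Place κ K, z'.val F.y = y0 → z' ≠ w := fun z' e e' => by
      rw [← e', e, hy] at hy'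
      exact mul_ne_zero h.two h0 (by linear_combination hy')
    have h8 := DFun_le hD {z, w}
    rw [Finset.sum_pair (h7 z hy), h2] at h8
    refine ⟨z, fun z' => ⟨fun hh => by_contra fun hne => ?_, fun e => e ▸ ⟨hz, hx, hy⟩⟩,
      fun _ => (h3 z hz).symm.trans (by omega), fun hh => absurd hh h0⟩
    have h9 := DFun_le hD {z', z, w}
    rw [Finset.sum_insert (by simp [hne, h7 z' hh.2.2]), Finset.sum_pair (h7 z hy), h2] at h9
    have h10 := h4 z' hh.1 hh.2.1
    omega

end Pool.Agent.Lef
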