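import Mathlib

/-!
# The `L`-series of `y ^ 2 = x ^ 3 + a(t) x + b(t)` by point counts
-/

namespace Pool.Agent.Lef

open Polynomial

variable {k : Type} [Field k]

/-- The sum, over the `t ∈ F` with non-singular fibre, of the trace of Frobenius
`#F - #{(x, y) ∈ F × F | y ^ 2 = x ^ 3 + a(t) x + b(t)}`. -/
noncomputable def frobSum (F : Type) [Field F] [Algebra k F] (a b : k[X]) : ℤ :=
  ∑ᶠ (t : F) (_ : 4 * aeval t a ^ 3 + 27 * aeval t b ^ 2 ≠ 0), ((Nat.card F : ℤ) -
    Nat.card {z : F × F // z.2 ^ 2 = z.1 ^ 3 + aeval t a * z.1 + aeval t b})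

/-- `exp (∑ frobSum (F n) a b * T ^ (n + 1) / (n + 1))`; `F n` is to be of degree `n + 1`. -/
noncomputable def LSer (F : ℕ → Type) [∀ n, Field (F n)] [∀ n, Algebra k (F n)] (a b : k[X]) :
    PowerSeries ℚ :=
  (PowerSeries.exp ℚ).subst
    (PowerSeries.X * PowerSeries.mk fun n => (frobSum (F n) a b : ℚ) / (n + 1))

end Pool.Agent.Lef
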