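import Pool.Agent.Work.MP_60d5ce_nt.Lb.LkPlc
import Pool.Agent.Work.MP_60d5ce_nt.Qt.Brauer
import Pool.Agent.Work.MP_60d5ce_nt.Qt.Alg
import Pool.Agent.Work.MP_60d5ce_nt.Lb.Gen
import Pool.Agent.Work.MP_60d5ce_nt.Lb.CZ
import Pool.Agent.Work.MP_60d5ce_nt.Lb.Elem
import Pool.Agent.Work.MP_60d5ce_nt.Lb.LkAbs

-- merged part: Pool.Agent.Work.MP_60d5ce_nt.Lb.LkKum
section
/-!
# Kummer theory over `MU H`  (task LB LkKum)

`KR ζ N H χ f`: `χ` is the Kummer character of an `N`-th root of `f`.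
* `exists_kr`: take the witness `U₁ ≤ H` of smoothness; `hilbert90` for the finite group `H ⧸ U₁.subgroupOf H` acting faithfully on `MU U₁` (`chebRes`, `Adm.mem_iff`) and the cocycle
  `ζ⁻¹ ^ (χ g).val`; then `r ^ N` is fixed by `H` (`mem_MU`).
* `kr_exists`: `r` from `IsSepClosed.exists_pow_nat_eq`; `gal u r / r` is an `N`-th root of unity, a power of `ζ` (`IsPrimitiveRoot.eq_pow_of_pow_eq_one`); smooth by `adm_core` for
  `U ⊓ stabilizer r` as in the proof of `h2_geom` (`N ∣ 6 ^ j`).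
* `KR.unr`: with `r' = gal g⁻¹ r` one has `gal τ r' = ζ' ^ (χ (g τ g⁻¹)).val * r'`, `ζ' = (frob ^ wdeg g⁻¹) ζ` primitive, and `l.w r' ^ N = 2 ^ (-ord f)` (`plc_ord`).
  If `ord f = N * m`, then `r' / unif v l.x ^ m` has value one and `τ` fixes `unif v l.x` (`geom_fix`): `Loc.τ_res`, `l.w_const`.
  If the character vanishes, `τ` fixes `r'`, which is fixed by an admissible subgroup (`KR.adm`): `l.disc`.
-/

namespace Pool.Agent.Lef

open PR0 Pool.Agent.Ell.AT Pool.Agent.Quad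

variable {k : Type} [Field k] [Fintype k] {Ω : Type} [Field Ω] [Algebra (RatFunc k) Ω]
  [Algebra k Ω] [IsScalarTower k (RatFunc k) Ω]

/-- Kummer characters -/
def KR (ζ : Kb k Ω) (N : ℕ) (H : Subgroup (WG k Ω)) (χ : WG k Ω → ZMod N) (f : MU H) : Prop :=
  f ≠ 0 ∧ ∃ r : Ω, r ^ N = f ∧ ∀ u ∈ H, gal u r = (ζ : Ω) ^ (χ u).val * r

variable {ζ : Kb k Ω} {N : ℕ} [NeZero N] {H : Subgroup (WG k Ω)} {χ χ' : WG k Ω → ZMod N}
  {f f' : MU H}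

theorem lkKum_add {M : Type} [Monoid M] {z : M} (hz : z ^ N = 1) (a b : ZMod N) :
    z ^ (a + b).val = z ^ a.val * z ^ b.val := by
  rw [ZMod.val_add, ← pow_eq_pow_mod _ hz, pow_add]

omit [NeZero N] in
theorem lkKum_cast {M : Type} [Monoid M] {z : M} (hz : z ^ N = 1) (m : ℕ) :
    z ^ (m : ZMod N).val = z ^ m := by
  rw [ZMod.val_natCast, ← pow_eq_pow_mod _ hz]

theorem lkKum_inj {z : Ω} (hz : IsPrimitiveRoot z N) {a b : ZMod N} {r : Ω} (hr : r ≠ 0)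
    (h : z ^ a.val * r = z ^ b.val * r) : a = b :=
  ZMod.val_injective N (hz.pow_inj (ZMod.val_lt a) (ZMod.val_lt b) (mul_right_cancel₀ hr h))

omit [NeZero N] [Fintype k] [Algebra (RatFunc k) Ω] [IsScalarTower k (RatFunc k) Ω] in
theorem lkKum_prim (hζ : IsPrimitiveRoot ζ N) : IsPrimitiveRoot (ζ : Ω) N :=
  hζ.map_of_injective (f := algebraMap (Kb k Ω) Ω) (algebraMap (Kb k Ω) Ω).injective

theorem lkKum_fix {u : WG k Ω} (hu : wdeg u = 0) (c : Kb k Ω) : gal u (c : Ω) = c := by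
  rw [gal_const, hu, zpow_zero, AlgEquiv.one_apply]

theorem lkKum_ne {r : Ω} (hf : f ≠ 0) (hr : r ^ N = f) : r ≠ 0 := by
  rintro rfl
  rw [zero_pow (NeZero.ne N)] at hr
  exact hf (Subtype.ext hr.symm)

theorem lkKum_root (hζ : IsPrimitiveRoot ζ N) {r s : Ω} (hr : r ≠ 0) (h : s ^ N = r ^ N) :
    ∃ i : ZMod N, s = (ζ : Ω) ^ i.val * r := by
  obtain ⟨i, -, hi⟩ := (lkKum_prim hζ).eq_pow_of_pow_eq_one (ξ := s / r)
    (by rw [div_pow, h, div_self (pow_ne_zero _ hr)])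
  exact ⟨i, by rw [lkKum_cast (lkKum_prim hζ).pow_eq_one, hi, div_mul_cancel₀ _ hr]⟩

omit [IsScalarTower k (RatFunc k) Ω] in
theorem lkKum_comp (g h : WG k Ω) (a : Ω) : gal (g * h) a = gal g (gal h a) := by
  rw [map_mul, AlgEquiv.mul_apply]

theorem KR.mul (hζ : IsPrimitiveRoot ζ N) (h : KR ζ N H χ f) (h' : KR ζ N H χ' f') :
    KR ζ N H (χ + χ') (f * f') := by
  obtain ⟨h0, r, hr, h1⟩ := h
  obtain ⟨h0', r', hr', h1'⟩ := h'
  refine ⟨mul_ne_zero h0 h0', r * r', by rw [mul_pow, hr, hr']; rfl, fun u hu => ?_⟩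
  rw [map_mul, h1 u hu, h1' u hu, Pi.add_apply, lkKum_add (lkKum_prim hζ).pow_eq_one]
  ring

theorem KR.eq_iff (hζ : IsPrimitiveRoot ζ N) (hH : H ≤ WG0 k Ω) (h : KR ζ N H χ f)
    (h' : KR ζ N H χ' f') : (∀ u ∈ H, χ u = χ' u) ↔ ∃ b, b ≠ 0 ∧ f = f' * b ^ N := by
  obtain ⟨h0, r, hr, h1⟩ := h
  obtain ⟨h0', r', hr', h1'⟩ := h'
  have e := lkKum_ne h0 hr
  have e' := lkKum_ne h0' hr'
  have hz : (ζ : Ω) ≠ 0 := (lkKum_prim hζ).ne_zero (NeZero.ne N)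
  constructor
  · intro h
    refine ⟨⟨r / r', (mem_MU hH).2 fun u hu => ?_⟩, fun h2 => ?_, Subtype.ext ?_⟩
    · rw [map_div₀, h1 u hu, h1' u hu, h u hu, mul_div_mul_left _ _ (pow_ne_zero _ hz)]
    · exact div_ne_zero e e' (congrArg Subtype.val h2)
    · show (f : Ω) = f' * (r / r') ^ N
      rw [div_pow, ← hr, ← hr', mul_div_cancel₀ _ (pow_ne_zero _ e')]
  · rintro ⟨b, hb, h2⟩ u hu
    have hb' : (b : Ω) ≠ 0 := fun h => hb (Subtype.ext h)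
    obtain ⟨i, hi⟩ := lkKum_root hζ (s := r) (mul_ne_zero e' hb') (by
      rw [hr, mul_pow, hr', h2]; rfl)
    refine lkKum_inj (lkKum_prim hζ) e ?_
    rw [← h1 u hu]
    conv_lhs => rw [hi]
    rw [map_mul, map_mul, map_pow, lkKum_fix (hH hu), h1' u hu, (mem_MU hH).1 b.2 u hu]
    conv_rhs => rw [hi]
    ring

theorem KR.hom (hζ : IsPrimitiveRoot ζ N) (hH : H ≤ WG0 k Ω) (h : KR ζ N H χ f) :
    ∀ g ∈ H, ∀ g' ∈ H, χ (g * g') = χ g + χ g' := by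
  obtain ⟨h0, r, hr, h1⟩ := h
  intro g hg g' hg'
  refine lkKum_inj (lkKum_prim hζ) (lkKum_ne h0 hr) ?_
  rw [← h1 _ (H.mul_mem hg hg'), lkKum_comp, h1 g' hg', map_mul, map_pow, lkKum_fix (hH hg),
    h1 g hg, lkKum_add (lkKum_prim hζ).pow_eq_one]
  ring

theorem KR.op (hζ : IsPrimitiveRoot ζ N) {U : Subgroup (WG k Ω)} (hU : Adm U) {f : MU U}
    (h : KR ζ N U χ f) {γ : WG k Ω} {n : ℕ} (hγ : wdeg γ = n) :
    KR ζ N U (fun g => (Fintype.card k : ZMod N) ^ n * χ (γ⁻¹ * g * γ))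
      (Ell.AT.sl (sa hU γ) f) := by
  obtain ⟨h0, r, hr, h1⟩ := h
  refine ⟨fun h2 => h0 (Subtype.ext ?_), gal γ r, by rw [← map_pow, hr, sl_sa], fun u hu => ?_⟩
  · have h3 : gal γ (f : Ω) = 0 := by
      rw [← sl_sa hU, h2]
      rfl
    exact (map_eq_zero _).1 h3
  · have h3 : gal u (gal γ r) = gal γ (gal (γ⁻¹ * u * γ) r) := by
      rw [← lkKum_comp, ← lkKum_comp, ← mul_assoc, ← mul_assoc, mul_inv_cancel, one_mul]
    have h4 : (Fintype.card k : ZMod N) ^ n * χ (γ⁻¹ * u * γ) =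
        ((Fintype.card k ^ n * (χ (γ⁻¹ * u * γ)).val : ℕ) : ZMod N) := by
      rw [Nat.cast_mul, Nat.cast_pow, ZMod.natCast_zmod_val]
    show _ = (ζ : Ω) ^ ((Fintype.card k : ZMod N) ^ n * χ (γ⁻¹ * u * γ)).val * _
    rw [h3, h1 _ (hU.normal.conj_mem' u hu γ), map_mul, map_pow, gal_const, hγ, zpow_natCast,
      frob_pow_apply, h4, lkKum_cast (lkKum_prim hζ).pow_eq_one, pow_mul]
    rfl

variable [IsSepClosure (RatFunc k) Ω]

theorem exists_zeta (h6 : (6 : k) ≠ 0) (J : ℕ) : ∃ ζ : Kb k Ω, IsPrimitiveRoot ζ (2 ^ J) := by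
  have h2 : (2 : k) ≠ 0 := fun h => h6 (by
    rw [show (6 : k) = 2 * 3 by norm_num, h, zero_mul])
  have : NeZero ((2 ^ J : ℕ) : Kb k Ω) := ⟨by
    rw [Nat.cast_pow]
    refine pow_ne_zero _ fun h => h2 ((algebraMap k (Kb k Ω)).injective ?_)
    rw [map_zero, map_ofNat]
    exact_mod_cast h⟩
  exact HasEnoughRootsOfUnity.exists_primitiveRoot _ _

theorem KR.adm (hζ : IsPrimitiveRoot ζ N) (hN : ∃ j, N ∣ 6 ^ j) (hH : Opn H) {r : Ω}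
    (hr : r ^ N = f) : ∃ U, Adm U ∧ U ≤ H ∧ ∀ u ∈ U, gal u r = r := by
  obtain ⟨h0, U, hU, hUH⟩ := hH
  rcases eq_or_ne r 0 with rfl | e
  · exact ⟨U, hU, hUH, fun u _ => map_zero _⟩
  obtain ⟨j', c, hc⟩ := hN
  obtain ⟨S, hS⟩ := hU.2.2.1
  classical
  refine ⟨_, adm_core (U ⊓ gb_fix k {r}) (inf_le_left.trans hU.le) (insert r S)
    (fun g hg h => ⟨hS g hg fun a ha => h a (Finset.mem_insert_of_mem ha), fun a ha => ?_⟩)
    fun g hg => ?_, fun u hu => hUH (Subgroup.normalCore_le _ hu).1, fun u hu =>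
      (Subgroup.normalCore_le _ hu).2 r (Finset.mem_singleton_self r)⟩
  · rw [Finset.mem_singleton.1 ha]
    exact h r (Finset.mem_insert_self _ _)
  · obtain ⟨j, hj⟩ := hU.2.2.2 g hg
    refine ⟨j + j', ?_⟩
    rw [pow_add, pow_mul]
    generalize g ^ 6 ^ j = u at hj
    refine ⟨U.pow_mem hj _, fun a ha => ?_⟩
    obtain ⟨i, hi⟩ := lkKum_root hζ (s := gal u r) e (by
      rw [← map_pow, hr, (mem_MU h0).1 f.2 u (hUH hj)])
    have h2 : ∀ n : ℕ, gal (u ^ n) r = ((ζ : Ω) ^ n) ^ i.val * r := by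
      intro n
      induction n with
      | zero => simp
      | succ n ih =>
        rw [pow_succ', lkKum_comp, ih, map_mul, map_pow, map_pow, lkKum_fix (hU.le hj), hi]
        ring
    rw [Finset.mem_singleton.1 ha, h2, hc, pow_mul, (lkKum_prim hζ).pow_eq_one, one_pow, one_pow,
      one_mul]

theorem exists_kr (hζ : IsPrimitiveRoot ζ N) (hH : Opn H)
    (hs : ∃ U, Adm U ∧ ∀ g ∈ H, ∀ u ∈ U, χ (g * u) = χ g)
    (hh : ∀ g ∈ H, ∀ g' ∈ H, χ (g * g') = χ g + χ g') : ∃ f, KR ζ N H χ f := by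
  obtain ⟨h0, U₂, hU₂, hUH⟩ := hH
  obtain ⟨U₀, hU₀, hs⟩ := hs
  have hU := hU₀.inf hU₂
  set U := U₀ ⊓ U₂ with hUdef
  obtain ⟨π, -, hπ, hπ1⟩ := hU.exists_res
  have := hU.finiteDimensional
  let ρ := π.comp (Subgroup.inclusion h0)
  have hz := (lkKum_prim hζ).pow_eq_one
  have hz0 : (ζ : Ω) ≠ 0 := (lkKum_prim hζ).ne_zero (NeZero.ne N)
  have key : ∀ g g' : H, ρ g = ρ g' → χ g = χ g' := fun g g' h => by
    have h1 : ρ (g⁻¹ * g') = 1 := by rw [map_mul, map_inv, h, inv_mul_cancel]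
    have h2 : g.1⁻¹ * g'.1 ∈ U := (hπ1 _).1 h1
    rw [← hs g.1 g.2 _ h2.1, mul_inv_cancel_left]
  let c : ρ.range → H := fun s => s.2.choose
  have hc : ∀ s, ρ (c s) = s := fun s => s.2.choose_spec
  have hact : ∀ (s : ρ.range) (a : MU U), (s.1 a : Ω) = gal (c s).1 a := fun s a => by
    rw [← hc s]
    exact hπ _ a
  let z : MU U := algebraMap (Kb k Ω) (MU U) ζ
  have hzc : (z : Ω) = ζ := rfl
  have hz1 : z ≠ 0 := fun h => hz0 (congrArg Subtype.val h)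
  obtain ⟨a, ha0, ha⟩ := hilbert90 (G := ρ.range) (M := MU U)
    ((MulSemiringAction.toRingAut (MU U ≃ₐ[RatFunc (Kb k Ω)] MU U) (MU U)).comp ρ.range.subtype)
    (fun s t h => Subtype.ext (AlgEquiv.ext fun a => DFunLike.congr_fun h a))
    (fun s => (z ^ (χ (c s)).val)⁻¹) (fun s => inv_ne_zero (pow_ne_zero _ hz1))
    (fun s t => Subtype.ext (by
      have h1 : χ (c (s * t)) = χ (c s) + χ (c t) := by
        rw [← hh _ (c s).2 _ (c t).2]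
        exact key (c (s * t)) (c s * c t) (by rw [map_mul, hc, hc, hc]; rfl)
      show ((ζ : Ω) ^ (χ (c (s * t))).val)⁻¹ =
        ((ζ : Ω) ^ (χ (c s)).val)⁻¹ * (s.1 (z ^ (χ (c t)).val)⁻¹ : Ω)
      rw [hact, h1, lkKum_add hz, mul_inv]
      congr 1
      show _ = gal (c s).1 ((ζ : Ω) ^ (χ (c t)).val)⁻¹
      rw [map_inv₀, map_pow, lkKum_fix (h0 (c s).2)]))
  have h3 : ∀ u ∈ H, gal u (a : Ω) = (ζ : Ω) ^ (χ u).val * a := fun u hu => by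
    have h4 : ((ζ : Ω) ^ (χ (c ⟨ρ ⟨u, hu⟩, _, rfl⟩)).val)⁻¹ * (ρ ⟨u, hu⟩ a : Ω) = a :=
      congrArg Subtype.val (ha ⟨ρ ⟨u, hu⟩, _, rfl⟩)
    rw [key _ ⟨u, hu⟩ (hc _)] at h4
    have h5 : (ρ ⟨u, hu⟩ a : Ω) = gal u a := hπ _ a
    rw [h5, inv_mul_eq_iff_eq_mul₀ (pow_ne_zero _ hz0)] at h4
    exact h4
  have ha1 : (a : Ω) ≠ 0 := fun h => ha0 (Subtype.ext h)
  refine ⟨⟨(a : Ω) ^ N, (mem_MU h0).2 fun u hu => ?_⟩,
    fun h => pow_ne_zero N ha1 (congrArg Subtype.val h), a, rfl, h3⟩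
  rw [map_pow, h3 u hu, mul_pow, ← pow_mul, mul_comm _ N, pow_mul, hz, one_pow, one_mul]

theorem kr_exists (hζ : IsPrimitiveRoot ζ N) (hN : ∃ j, N ∣ 6 ^ j) (hH : Opn H) (hf : f ≠ 0) :
    ∃ χ, KR ζ N H χ f ∧ (∀ g ∉ H, χ g = 0) ∧
      ∃ U, Adm U ∧ ∀ g ∈ H, ∀ u ∈ U, χ (g * u) = χ g := by
  classical
  have := IsSepClosure.sep_closed (RatFunc k) (K := Ω)
  have := (lkKum_prim hζ).neZero'
  obtain ⟨r, hr⟩ := IsSepClosed.exists_pow_nat_eq (f : Ω) N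
  have e := lkKum_ne hf hr
  have h1 : ∀ u ∈ H, ∃ i : ZMod N, gal u r = (ζ : Ω) ^ i.val * r := fun u hu =>
    lkKum_root hζ e (by rw [← map_pow, hr, (mem_MU hH.1).1 f.2 u hu])
  obtain ⟨U, hU, hUH, hUr⟩ := KR.adm hζ hN hH hr
  have h2 : ∀ u ∈ H, gal u r =
      (ζ : Ω) ^ (if h : u ∈ H then (h1 u h).choose else 0).val * r := fun u hu => by
    rw [dif_pos hu]
    exact (h1 u hu).choose_spec
  refine ⟨fun u => if h : u ∈ H then (h1 u h).choose else 0, ⟨hf, r, hr, h2⟩,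
    fun g hg => dif_neg hg, U, hU, fun g hg u hu => ?_⟩
  refine lkKum_inj (lkKum_prim hζ) e ?_
  rw [← h2 _ (H.mul_mem hg (hUH hu)), ← h2 _ hg, lkKum_comp, hUr u hu]

theorem KR.unr [Fact (IsFF (Kb k Ω) (MU H))] (hζ : IsPrimitiveRoot ζ N) (hN : ∃ j, N ∣ 6 ^ j)
    (hH : Opn H) (h : KR ζ N H χ f) {v : Pl k} (l : Loc Ω v) {g : WG k Ω}
    (hτ : g * l.τ * g⁻¹ ∈ H) : χ (g * l.τ * g⁻¹) = 0 ↔ (N : ℤ) ∣ (plc l H g).ord f := by
  obtain ⟨h0, r, hr, h1⟩ := h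
  have e := lkKum_ne h0 hr
  have e' : gal g⁻¹ r ≠ 0 := (map_ne_zero _).2 e
  have hζ' : IsPrimitiveRoot ((frob k Ω ^ wdeg g⁻¹) ζ) N :=
    hζ.map_of_injective (frob k Ω ^ wdeg g⁻¹).injective
  have h2 : gal l.τ (gal g⁻¹ r) =
      (((frob k Ω ^ wdeg g⁻¹) ζ ^ (χ (g * l.τ * g⁻¹)).val : Kb k Ω) : Ω) * gal g⁻¹ r := by
    have h3 : gal l.τ (gal g⁻¹ r) = gal g⁻¹ (gal (g * l.τ * g⁻¹) r) := by
      rw [← lkKum_comp, ← lkKum_comp, ← mul_assoc, ← mul_assoc, inv_mul_cancel, one_mul]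
    rw [h3, h1 _ hτ, map_mul, map_pow, gal_const]
    rfl
  have h4 : l.w (gal g⁻¹ r) ^ N = 2 ^ (-(plc l H g).ord f) := by
    rw [← map_pow, ← map_pow, hr, plc_ord hH l hτ h0]
  constructor
  · intro hc
    obtain ⟨U, hU, -, hUr⟩ := KR.adm hζ hN hH hr
    obtain ⟨n, hn⟩ := l.disc U hU (gal g⁻¹ r) e' (fun u hu => by
      conv_rhs => rw [← hUr _ (hU.normal.conj_mem u hu g)]
      rw [← lkKum_comp, ← lkKum_comp, ← mul_assoc, ← mul_assoc, inv_mul_cancel, one_mul])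
      (by rw [h2, hc, ZMod.val_zero, pow_zero]; exact one_mul _)
    rw [Loc.w_apply, hn, ← zpow_natCast, ← zpow_mul] at h4
    have h5 := zpow_right_injective₀ (by norm_num : (0 : ℝ) < 2) (by norm_num) h4
    exact ⟨-n, by linarith⟩
  · rintro ⟨m, hm⟩
    have h5 : l.w (gal g⁻¹ r) = 2 ^ (-m) := by
      refine (pow_left_inj₀ (l.w.nonneg _) (by positivity) (NeZero.ne N)).1 ?_
      rw [h4, hm, ← zpow_natCast, ← zpow_mul]
      congr 1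
      ring
    have h6 : l.w (unif v l.x) = 2⁻¹ := l.w_unif
    have h7 : gal l.τ (unif v l.x) = unif v l.x := by
      cases v with
      | none => exact (map_inv₀ _ _).trans (by rw [gal_tt]; rfl)
      | some p => exact (map_sub _ _ _).trans (by rw [gal_tt, lkKum_fix l.deg_τ]; rfl)
    have h8 : l.w (gal g⁻¹ r / unif v l.x ^ m) = 1 := by
      rw [map_div₀, map_zpow₀, h5, h6, inv_zpow', div_self (by positivity)]
    have h9 := l.τ_res h8.le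
    rw [map_div₀, map_zpow₀, h7, h2, mul_div_assoc, ← sub_one_mul, map_mul, h8, mul_one] at h9
    by_contra hc
    have h10 : (frob k Ω ^ wdeg g⁻¹) ζ ^ (χ (g * l.τ * g⁻¹)).val - 1 ≠ 0 := fun h =>
      hζ'.pow_ne_one_of_pos_of_lt (fun h' => hc ((ZMod.val_eq_zero _).1 h')) (ZMod.val_lt _)
        (sub_eq_zero.1 h)
    exact h9.ne (l.w_const _ h10)

end Pool.Agent.Lef
end

-- merged part: Pool.Agent.Work.MP_60d5ce_nt.Lb.LkFix
section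
/-!
# Places over `A`, fixed places  (task LB LkFix)

* `over_finite`: lift to an admissible `U ≤ H` is not needed: `plc l H g` depends only on the coset of `g` modulo the normal subgroup `U` (`plc_mul_left`), and by `plc_σ` one may take
  `0 ≤ wdeg g < pdg v`; `Gn_finite`.
* `isFr_sa`: `FiniteField.card`, `frob_pow_apply`, `t = tM` (`cheb_tM`, `transcendental_tt`, `gal_tt`).
* `fix_count`: `(v, s) ↦ plc (ℓ v) U s.out` is a bijection from `Σ v ∈ Pd, cjs` to the fixed places outside `ovr`.  Into: `γ g = u g x` with `x = σ ^ m`; `plc_mul_left`, `plc_σ`, `plc_base`.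
  Injective: `plc_base`, `plc_deg`, then `h = g⁻¹ g'` has degree zero and `plc l U h = plc l U 1` (apply `sa hU g⁻¹`, `sa_plc`), `plc_inertia`, `τ ∈ U`.
  Onto: `plc_surj`, normalise the degree, `plc_deg` gives `pdg v ∣ n`, `plc_inertia` for `g⁻¹ γ g σ ^ (-m)`.
-/

namespace Pool.Agent.Lef

open PR0 Pool.Agent.Ell.AT Pool.Agent.Quad

variable {k : Type} [Field k] [Fintype k] {Ω : Type} [Field Ω] [Algebra (RatFunc k) Ω]
  [Algebra k Ω] [IsScalarTower k (RatFunc k) Ω]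

/-- the places over `A` -/
def ovr (ℓ : Locs k Ω) (H : Subgroup (WG k Ω)) (A : Finset (Pl k)) :
    Set (Place (Kb k Ω) (MU H)) := {y | ∃ v ∈ A, ∃ g, y = plc (ℓ v) H g}

variable {ℓ : Locs k Ω} {H U : Subgroup (WG k Ω)} {A : Finset (Pl k)}

theorem LkFix_coset (hU : Adm U) (hH : H ≤ WG0 k Ω) (hUH : U ≤ H) {v : Pl k} (l : Loc Ω v)
    {g g' : WG k Ω} (e : g⁻¹ * g' ∈ U) : plc l H g' = plc l H g := by
  rw [← plc_mul_left hH l (hUH (hU.normal.conj_mem _ e g)) g]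
  congr 1
  group

theorem LkFix_out (hU : Adm U) (hH : H ≤ WG0 k Ω) (hUH : U ≤ H) {v : Pl k} (l : Loc Ω v)
    (g : WG k Ω) : plc l H (g : WG k Ω ⧸ U).out = plc l H g :=
  LkFix_coset hU hH hUH l (QuotientGroup.eq.1 (QuotientGroup.out_eq' _).symm)

theorem LkFix_norm {v : Pl k} (l : Loc Ω v) (g : WG k Ω) :
    ∃ g', 0 ≤ wdeg g' ∧ wdeg g' < pdg v ∧ plc l H g' = plc l H g := by
  have h0 : (0 : ℤ) < pdg v := by exact_mod_cast pdg_pos v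
  have e : wdeg (g * l.σ ^ (-(wdeg g / pdg v))) = wdeg g % pdg v := by
    rw [wdeg_mul, wdeg_zpow, l.deg_σ, Int.emod_def]
    ring
  exact ⟨_, e ▸ Int.emod_nonneg _ h0.ne', e ▸ Int.emod_lt_of_pos _ h0, plc_σ l g _⟩

theorem over_nonempty (hA : A.Nonempty) : (ovr ℓ H A).Nonempty := by
  obtain ⟨v, hv⟩ := hA
  exact ⟨_, v, hv, 1, rfl⟩

theorem over_smul (hU : Adm U) (γ : WG k Ω) (y : Place (Kb k Ω) (MU U)) :
    sa hU γ • y ∈ ovr ℓ U A ↔ y ∈ ovr ℓ U A := by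
  constructor
  · rintro ⟨v, hv, g, e⟩
    refine ⟨v, hv, γ⁻¹ * g, ?_⟩
    rw [← sa_plc hU, ← e, map_inv, inv_smul_smul]
  · rintro ⟨v, hv, g, rfl⟩
    exact ⟨v, hv, γ * g, sa_plc hU _ _ _⟩

theorem isFr_sa (p : ℕ) [Fact p.Prime] [CharP k p] (hU : Adm U) {γ : WG k Ω} {n : ℕ} (hn : 0 < n)
    (hγ : wdeg γ = n) : IsFr p (sa hU γ) (Fintype.card k ^ n) := by
  refine ⟨?_, fun c => ?_, tM (Kb k Ω) (MU U), fun ht => transcendental_tt k Ω ?_,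
    Subtype.ext ?_⟩
  · obtain ⟨f, -, hf⟩ := FiniteField.card k p
    exact ⟨f * n, Nat.mul_pos f.pos hn, by rw [hf, pow_mul]⟩
  · rw [sc_sa, hγ, zpow_natCast, frob_pow_apply]
  · rw [← cheb_tM U]
    exact ht.algHom ((MU U).val.restrictScalars (Kb k Ω))
  · rw [sl_sa, cheb_tM, gal_tt]

variable [IsSepClosure (RatFunc k) Ω]

theorem LkFix_key (hU : Adm U) {v : Pl k} (l : Loc Ω v) (hτ : l.τ ∈ U) {g g' : WG k Ω}
    (hd : wdeg g = wdeg g') (e : plc l U g = plc l U g') : g⁻¹ * g' ∈ U := by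
  obtain ⟨m, hm⟩ := plc_inertia hU l (h := g⁻¹ * g')
    (by rw [wdeg_mul, wdeg_inv, hd, neg_add_cancel])
    (by rw [← sa_plc hU, ← e, sa_plc, inv_mul_cancel])
  simpa only [mul_inv_cancel_left] using mul_mem (pow_mem hτ m) hm

theorem plc_mem_over {v : Pl k} {g : WG k Ω} : plc (ℓ v) H g ∈ ovr ℓ H A ↔ v ∈ A := by
  refine ⟨?_, fun h => ⟨v, h, g, rfl⟩⟩
  rintro ⟨v', hv', g', e⟩
  exact plc_base ℓ e ▸ hv'

theorem over_finite (h6 : (6 : k) ≠ 0) (hH : Opn H) : (ovr ℓ H A).Finite := by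
  obtain ⟨h0, U, hU, hUH⟩ := hH
  refine (A.finite_toSet.biUnion fun v _ =>
    (((Set.finite_Ico (0 : ℤ) (pdg v)).biUnion fun n _ =>
      Gn_finite (T := tame h6 ℓ) hU n).image fun s => plc (ℓ v) H s.out)).subset ?_
  rintro _ ⟨v, hv, g, rfl⟩
  obtain ⟨g', h1, h2, h3⟩ := LkFix_norm (H := H) (ℓ v) g
  refine Set.mem_biUnion hv ⟨g', Set.mem_biUnion (x := wdeg g') ⟨h1, h2⟩ ⟨g', rfl, rfl⟩, ?_⟩
  exact (LkFix_out hU h0 hUH _ g').trans h3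

theorem fix_count (h6 : (6 : k) ≠ 0) (hU : Adm U) (hτ : ∀ v ∉ A, (ℓ v).τ ∈ U) {γ : WG k Ω} {n : ℕ}
    (hn : 0 < n) (hγ : wdeg γ = n) :
    {y | y ∉ ovr ℓ U A ∧ sa hU γ • y = y}.ncard = fixY (tame h6 ℓ) U A γ n := by
  classical
  have e : fixY (tame h6 ℓ) U A γ n = ((Pd (tame h6 ℓ) A n).sigma fun v =>
      (cjs_finite (T := tame h6 ℓ) hU (pdg v) γ ((ℓ v).σ ^ (n / pdg v))).toFinset).card := by
    rw [Finset.card_sigma]
    exact Finset.sum_congr rfl fun v _ => Set.ncard_eq_toFinset_card _ _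
  rw [e, ← Set.ncard_coe_finset, ← Set.InjOn.ncard_image
    (f := fun z : (_ : Pl k) × (WG k Ω ⧸ U) => plc (ℓ z.1) U z.2.out)]
  · congr 1
    ext y
    constructor
    · rintro ⟨h1, h2⟩
      obtain ⟨v, g₀, rfl⟩ := plc_surj ℓ (opn_of_adm hU) y
      obtain ⟨g, g1, g2, g3⟩ := LkFix_norm (H := U) (ℓ v) g₀
      rw [← g3] at h1 h2 ⊢
      rw [plc_mem_over] at h1
      rw [sa_plc] at h2
      have h3 := plc_deg ℓ h2
      rw [wdeg_mul, hγ, add_sub_cancel_right, Int.natCast_dvd_natCast] at h3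
      have h4 := LkFix_key hU (ℓ v) (hτ v h1) (g := g * (ℓ v).σ ^ (n / pdg v)) (g' := γ * g)
        (by rw [wdeg_mul, wdeg_mul, wdeg_pow, (ℓ v).deg_σ, hγ, ← Nat.cast_mul,
          Nat.div_mul_cancel h3, add_comm])
        (by rw [h2, ← zpow_natCast, plc_σ])
      refine ⟨⟨v, g⟩, Finset.mem_coe.2 (Finset.mem_sigma.2 ⟨(mem_Pd (T := tame h6 ℓ)).2
        ⟨h1, h3, hn.ne'⟩, (Set.Finite.mem_toFinset _).2 ⟨g, rfl, g1, g2, ?_⟩⟩),
        LkFix_out hU hU.le le_rfl _ g⟩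
      simpa only [mul_inv_rev, mul_assoc] using h4
    · rintro ⟨⟨v, s⟩, hz, rfl⟩
      obtain ⟨h1, h2⟩ := Finset.mem_sigma.1 (Finset.mem_coe.1 hz)
      obtain ⟨g, rfl, -, -, h3⟩ := (Set.Finite.mem_toFinset _).1 h2
      dsimp only at h1 h3 ⊢
      rw [LkFix_out hU hU.le le_rfl]
      refine ⟨fun h => ((mem_Pd (T := tame h6 ℓ)).1 h1).1 (plc_mem_over.1 h), ?_⟩
      rw [sa_plc, LkFix_coset hU hU.le le_rfl (ℓ v) (g := g * (ℓ v).σ ^ (n / pdg v))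
        (by simpa only [mul_inv_rev, mul_assoc] using h3), ← zpow_natCast, plc_σ]
  · rintro ⟨v, s⟩ hz ⟨v', s'⟩ hz' e
    obtain rfl : v = v' := plc_base ℓ e
    obtain ⟨h1, h2⟩ := Finset.mem_sigma.1 (Finset.mem_coe.1 hz)
    obtain ⟨-, h2'⟩ := Finset.mem_sigma.1 (Finset.mem_coe.1 hz')
    obtain ⟨g, rfl, a1, a2, -⟩ := (Set.Finite.mem_toFinset _).1 h2
    obtain ⟨g', rfl, b1, b2, -⟩ := (Set.Finite.mem_toFinset _).1 h2'
    dsimp only at e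
    rw [LkFix_out hU hU.le le_rfl, LkFix_out hU hU.le le_rfl] at e
    have h3 := plc_deg ℓ e
    have h4 : wdeg g - wdeg g' = 0 := by
      change 0 ≤ wdeg g at a1
      change wdeg g < pdg v at a2
      change 0 ≤ wdeg g' at b1
      change wdeg g' < pdg v at b2
      exact Int.eq_zero_of_abs_lt_dvd h3 (abs_lt.2 ⟨by omega, by omega⟩)
    exact congrArg _ (QuotientGroup.eq.2 (LkFix_key hU (ℓ v)
      (hτ v ((mem_Pd (T := tame h6 ℓ)).1 h1).1) (sub_eq_zero.1 h4) e))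

end Pool.Agent.Lef
end

-- merged part: Pool.Agent.Work.MP_60d5ce_nt.Lb.LkH2
section
/-!
# No second cohomology for open subgroups of the geometric group  (task LB LkH2)

Adapt `H2_fin` and `h2_geom` of `Qt/H2.lean`.  `h2_sub`: `brauer_sign` and `hilbert90` for `φ = toRingAut ∘ G.subtype`; the norm hypothesis is `H2_norm` for `H.map G.subtype`.
`h2_open`: replace `U₁` by `U₁ ⊓ U ≤ H`, let `G` be the image of `H` under the map `π` of `Adm.exists_res`.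
-/

namespace Pool.Agent.Lef

open Pool.Agent.Quad

theorem h2_sub {𝕜 : Type} [Field 𝕜] [IsAlgClosed 𝕜] {L : Type} [Field L] [Algebra (RatFunc 𝕜) L]
    [FiniteDimensional (RatFunc 𝕜) L] (G : Subgroup (L ≃ₐ[RatFunc 𝕜] L)) (θ : G → G → F2)
    (hθ : IsCoc2 θ) : ∃ (b : G → L) (a : L), a ≠ 0 ∧ (∀ x : G, b x ^ 2 * x.1 a = a) ∧
      ∀ x y : G, (-1) ^ (θ x y).val * b (x * y) = b x * x.1 (b y) := by
  let φ : G →* (L ≃+* L) := (MulSemiringAction.toRingAut _ L).comp G.subtype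
  have hφ : ∀ (x : G) y, φ x y = x.1 y := fun _ _ => rfl
  have hinj : Function.Injective φ := fun x y h => Subtype.ext (AlgEquiv.ext fun c => by
    rw [← hφ, ← hφ, h])
  obtain ⟨b, hb0, hb⟩ := brauer_sign φ hinj
    (fun H s h1 h2 h3 a h4 h5 => by
      obtain ⟨x, hx, hx'⟩ := H2_norm (H.map G.subtype) s.1
        (fun h => h1 ((Subgroup.mem_map_iff_mem G.subtype_injective).1 h)) ⟨s ^ 2, h2, rfl⟩
        (by rintro _ ⟨h, hh, rfl⟩; exact ⟨s * h * s⁻¹, h3 h hh, rfl⟩) a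
        (by rintro _ ⟨h, hh, rfl⟩; exact h4 h hh) h5
      exact ⟨x, fun h hh => hx _ ⟨h, hh, rfl⟩, hx'⟩)
    (fun x y => (-1) ^ (θ x y).val) (fun _ _ => H2_sq _) (fun g h l => by
      rw [map_pow, map_neg, map_one, ← GalKum_pow_add, ← GalKum_pow_add]
      congr 2
      linear_combination hθ g h l)
  obtain ⟨a, ha0, ha⟩ := hilbert90 φ hinj (fun x => b x ^ 2) (fun x => pow_ne_zero _ (hb0 x))
    (fun g h => by rw [map_pow, ← mul_pow, ← hb, mul_pow, H2_sq, one_mul])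
  exact ⟨b, a, ha0, ha, hb⟩

variable {k : Type} [Field k] [Fintype k] {Ω : Type} [Field Ω] [Algebra (RatFunc k) Ω]
  [Algebra k Ω] [IsScalarTower k (RatFunc k) Ω] [IsSepClosure (RatFunc k) Ω]

theorem h2_open (h6 : (6 : k) ≠ 0) {H : Subgroup (WG k Ω)} (hH : Opn H)
    (θ : WG k Ω → WG k Ω → F2)
    (hs : ∃ U₁, Adm U₁ ∧ ∀ g ∈ H, ∀ h ∈ H, ∀ u ∈ U₁, ∀ u' ∈ U₁, θ (g * u) (h * u') = θ g h)
    (hθ : ∀ g ∈ H, ∀ h ∈ H, ∀ l ∈ H, θ h l - θ (g * h) l + θ g (h * l) - θ g h = 0) :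
    ∃ b : WG k Ω → F2, (∃ U₁, Adm U₁ ∧ ∀ g ∈ H, ∀ u ∈ U₁, b (g * u) = b g) ∧
      ∀ g ∈ H, ∀ h ∈ H, θ g h = b g + b h - b (g * h) := by
  classical
  obtain ⟨U₁, hU₁, hs⟩ := hs
  obtain ⟨hH0, U₀, hU₀, hle⟩ := hH
  have hU := hU₁.inf hU₀
  replace hs : ∀ g ∈ H, ∀ h ∈ H, ∀ u ∈ U₁ ⊓ U₀, ∀ u' ∈ U₁ ⊓ U₀, θ (g * u) (h * u') = θ g h :=
    fun g hg h hh u hu u' hu' => hs g hg h hh u hu.1 u' hu'.1
  replace hle : U₁ ⊓ U₀ ≤ H := inf_le_right.trans hle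
  generalize U₁ ⊓ U₀ = U at hU hs hle
  have := hU.finiteDimensional
  obtain ⟨G, π, hπs, hπ, hπ1⟩ : ∃ (G : Subgroup (MU U ≃ₐ[RatFunc (Kb k Ω)] MU U)) (π : H →* G),
      Function.Surjective π ∧ (∀ g (a : MU U), ((π g).1 a : Ω) = gal g.1 a) ∧
        ∀ g, π g = 1 ↔ g.1 ∈ U := by
    obtain ⟨π, -, hπ, hπ1⟩ := hU.exists_res
    exact ⟨_, (π.comp (Subgroup.inclusion hH0)).rangeRestrict,
      MonoidHom.rangeRestrict_surjective _, fun g a => hπ (Subgroup.inclusion hH0 g) a,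
      fun g => Subtype.ext_iff.trans (hπ1 (Subgroup.inclusion hH0 g))⟩
  choose σ hσ using hπs
  have hθπ : ∀ g h : H, θ (σ (π g)).1 (σ (π h)).1 = θ g.1 h.1 := by
    have e : ∀ g : H, ((σ (π g))⁻¹ * g).1 ∈ U := fun g =>
      (hπ1 _).1 (by rw [map_mul, map_inv, hσ, inv_mul_cancel])
    intro g h
    rw [← hs _ (σ (π g)).2 _ (σ (π h)).2 _ (e g) _ (e h)]
    simp
  obtain ⟨b, a, ha0, ha, hb⟩ := h2_sub (𝕜 := Kb k Ω) (L := MU U) G
    (fun x y => θ (σ x).1 (σ y).1) (fun x y w => by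
      have e1 := hθπ (σ x * σ y) (σ w)
      have e2 := hθπ (σ x) (σ y * σ w)
      simp only [map_mul, hσ] at e1 e2
      simp only [e1, e2]
      exact hθ _ (σ x).2 _ (σ y).2 _ (σ w).2)
  obtain ⟨α, hα⟩ : ∃ α : Ω, α ^ 2 = a := ⟨_, sqr_spec (k := k) h6 _⟩
  have ha0' : (a : Ω) ≠ 0 := fun h => ha0 (Subtype.ext h)
  have hα0 : α ≠ 0 := fun h => ha0' (by rw [← hα, h, zero_pow two_ne_zero])
  have hβ : ∀ g : H, ∃ n : F2, (b (π g) : Ω) * gal g.1 α / α = (-1) ^ n.val := fun g => by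
    refine H2_root ?_
    have e : (b (π g) : Ω) ^ 2 * gal g.1 a = a := by
      rw [← hπ]
      exact congrArg Subtype.val (ha (π g))
    rw [div_pow, mul_pow, ← map_pow, hα, e, div_self ha0']
  choose β hβ using hβ
  have hinj := H2_inj (GalKum_two (Ω := Ω) h6)
  let H' : Subgroup (WG k Ω) := U ⊓ (MulAction.stabilizer (Gam k Ω) α).comap gal
  have mH : ∀ g, g ∈ H' ↔ g ∈ U ∧ gal g α = α := fun g => Iff.rfl
  obtain ⟨S, hS⟩ := hU.2.2.1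
  have hH' : Adm H'.normalCore := by
    refine adm_core H' (inf_le_left.trans hU.le) (insert α S) (fun g hg h => (mH g).2
      ⟨hS g hg fun c hc => h c (Finset.mem_insert_of_mem hc), h α (Finset.mem_insert_self _ _)⟩)
      fun g hg => ?_
    obtain ⟨j, hj⟩ := hU.2.2.2 g hg
    refine ⟨j + 1, ?_⟩
    rw [pow_succ, pow_mul]
    generalize g ^ 6 ^ j = u at hj
    rw [show (6 : ℕ) = 2 * 3 from rfl, pow_mul]
    refine H'.pow_mem ((mH _).2 ⟨U.pow_mem hj 2, ?_⟩) 3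
    obtain ⟨n, hn⟩ := H2_root (u := gal u α / α) (by
      rw [div_pow, ← map_pow, hα, (mem_MU hU.le).1 a.2 u hj, div_self ha0'])
    have e := (div_eq_iff hα0).1 hn
    have e3 : ((-1 : Ω) ^ n.val) ^ 2 = 1 := H2_sq _
    rw [map_pow, sq, AlgEquiv.mul_apply]
    simp only [e, map_mul, map_pow, map_neg, map_one]
    linear_combination α * e3
  refine ⟨fun g => if h : g ∈ H then β ⟨g, h⟩ else 0, ⟨H'.normalCore, hH', fun g hg u hu => ?_⟩,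
    fun g hg h hh => ?_⟩
  · obtain ⟨hu1, hu2⟩ := (mH u).1 (H'.normalCore_le hu)
    have hu0 : u ∈ H := hle hu1
    have hgu : g * u ∈ H := H.mul_mem hg hu0
    simp only [dif_pos hg, dif_pos hgu]
    refine hinj _ _ ?_
    rw [← hβ, ← hβ]
    have e : π ⟨g * u, hgu⟩ = π ⟨g, hg⟩ := by
      rw [show (⟨g * u, hgu⟩ : H) = ⟨g, hg⟩ * ⟨u, hu0⟩ from rfl, map_mul,
        (hπ1 ⟨u, hu0⟩).2 hu1, mul_one]
    rw [e]
    simp only [map_mul, AlgEquiv.mul_apply, hu2]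
  · have hgh : g * h ∈ H := H.mul_mem hg hh
    simp only [dif_pos hg, dif_pos hh, dif_pos hgh]
    rw [eq_sub_iff_add_eq]
    refine hinj _ _ ?_
    rw [GalKum_pow_add, GalKum_pow_add, ← hβ, ← hβ ⟨g, hg⟩]
    have e1 : (-1) ^ (θ g h).val * (b (π ⟨g * h, hgh⟩) : Ω) =
        b (π ⟨g, hg⟩) * gal g (b (π ⟨h, hh⟩)) := by
      have := congrArg Subtype.val (hb (π ⟨g, hg⟩) (π ⟨h, hh⟩))
      rw [hθπ, ← map_mul] at this
      rw [← hπ ⟨g, hg⟩]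
      exact this
    have e2 : (b (π ⟨h, hh⟩) : Ω) * gal h α = (-1) ^ (β ⟨h, hh⟩).val * α :=
      (div_eq_iff hα0).1 (hβ ⟨h, hh⟩)
    have e3 := congrArg (gal g) e2
    simp only [map_mul, map_pow, map_neg, map_one] at e3
    simp only [map_mul, AlgEquiv.mul_apply]
    field_simp
    linear_combination gal g (gal h α) * e1 + (b (π ⟨g, hg⟩) : Ω) * e3

end Pool.Agent.Lef
end

-- merged part: Pool.Agent.Work.MP_60d5ce_nt.Lb.LkMain
section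
/-!
# The axioms of the trace formula hold for `k(t)`  (task LB LkMain)

* `eps_eq`: let `U₁ ≤ U` be the witness of smoothness.  `plc_lift` gives `u ∈ H` with `plc l U₁ (u g) = plc l U₁ g'`.  Put `h = (u g)⁻¹ g'`; it stabilises `plc l U₁ 1` (`sa_plc`), so do
  `h τ h⁻¹` and `h⁻¹ τ h` (`plc_τ`), hence by `plc_inertia` `h τ h⁻¹ ≡ τ ^ m`, `h⁻¹ τ h ≡ τ ^ m'` modulo `U₁`.  With `x = ε (g' τ g'⁻¹)`, `y = ε (u g τ g⁻¹ u⁻¹) = ε (g τ g⁻¹)`: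
  `x = m • y`, `y = m' • x`, so `x = y` in `F2`.
* `ram_open`: `e y = (ε (g τ g⁻¹)).val` for `y = plc (ℓ v) H g ∉ ovr ℓ H A` (`plc_surj`, `plc_base`, `eps_eq`), zero on `ovr`; the support is finite (`tau_fin` for `U₁`, `ε 1 = 0`, `over_finite`).
  Correct the degree at a place of `ovr`, `pic_div` with `N = 2`, `kr_exists` with `ζ = -1`, `KR.hom`, `KR.unr`.
* `km`: `LkKum`, `plc_surj`, `plc_mem_over`.  `lefAx`: `KM.hasTr`, `isFr_sa`, `fix_count`; `p = ringChar k`.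
-/

namespace Pool.Agent.Lef

open PR0 Pool.Agent.Ell.AT Pool.Agent.Quad

variable {k : Type} [Field k] [Fintype k] {Ω : Type} [Field Ω] [Algebra (RatFunc k) Ω]
  [Algebra k Ω] [IsScalarTower k (RatFunc k) Ω] [IsSepClosure (RatFunc k) Ω]
  {h6 : (6 : k) ≠ 0} {ℓ : Locs k Ω} {U H : Subgroup (WG k Ω)} {A : Finset (Pl k)}

theorem LkMain_F2 : ∀ x y : F2, (x = 0 ↔ y = 0) → x = y := by decide

theorem LkMain_conj (hU : Adm U) {v : Pl k} (l : Loc Ω v) {a b : WG k Ω}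
    (h : plc l U a = plc l U b) : ∃ m : ℕ, ∃ u ∈ U, b * l.τ * b⁻¹ = (a * l.τ * a⁻¹) ^ m * u := by
  have e1 : plc l U (a⁻¹ * b * l.τ * b⁻¹ * a) = plc l U 1 := by
    rw [← sa_plc hU, h, sa_plc, inv_mul_cancel_right, ← zpow_one l.τ, plc_τ, ← sa_plc hU, ← h,
      sa_plc, inv_mul_cancel]
  obtain ⟨m, hm⟩ := plc_inertia hU l (by
    simp only [wdeg_mul, wdeg_inv, l.deg_τ]
    ring) e1
  refine ⟨m, _, hU.normal.conj_mem _ hm a, ?_⟩
  rw [conj_pow]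
  group

theorem eps_eq (hU : Adm U) (hUH : U ≤ H) (hH : H ≤ WG0 k Ω) (hτ : ∀ v ∉ A, (ℓ v).τ ∈ U)
    {ε : WG k Ω → F2} (hs : SmOn (tame h6 ℓ) U ε)
    (hc : ∀ t ∈ TA (tame h6 ℓ) A, ∀ x ∈ H, ε (x * t * x⁻¹) = ε t)
    (hp : ∀ t ∈ TA (tame h6 ℓ) A, ∀ n : ℕ, ε (t ^ n) = n • ε t) {v : Pl k} (hv : v ∉ A)
    {g g' : WG k Ω} (h : plc (ℓ v) H g = plc (ℓ v) H g') :
    ε (g * (ℓ v).τ * g⁻¹) = ε (g' * (ℓ v).τ * g'⁻¹) := by
  obtain ⟨U₁, hU₁, hle, e1⟩ := hs.le hU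
  have key : ∀ a b : WG k Ω, plc (ℓ v) U₁ a = plc (ℓ v) U₁ b → ε (a * (ℓ v).τ * a⁻¹) = 0 →
      ε (b * (ℓ v).τ * b⁻¹) = 0 := by
    intro a b e h0
    obtain ⟨m, u, hu, e2⟩ := LkMain_conj hU₁ (ℓ v) e
    rw [e2, e1 _ (U.pow_mem (hU.normal.conj_mem _ (hτ v hv) a) m) u hu,
      hp (a * (ℓ v).τ * a⁻¹) ⟨v, hv, a, rfl⟩, h0, nsmul_zero]
  obtain ⟨u, hu, e⟩ := plc_lift hH hU₁ (hle.trans hUH) h
  have e3 : u * g * (ℓ v).τ * (u * g)⁻¹ = u * (g * (ℓ v).τ * g⁻¹) * u⁻¹ := by group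
  rw [← hc (g * (ℓ v).τ * g⁻¹) ⟨v, hv, g, rfl⟩ u hu]
  exact (congrArg ε e3).symm.trans (LkMain_F2 _ _ ⟨key _ _ e, key _ _ e.symm⟩)

theorem ram_open (hU : Adm U) (hUH : U ≤ H) (hH : H ≤ WG0 k Ω) (hA : A.Nonempty)
    (hτ : ∀ v ∉ A, (ℓ v).τ ∈ U) {ε : WG k Ω → F2} (hs : SmOn (tame h6 ℓ) U ε)
    (hc : ∀ t ∈ TA (tame h6 ℓ) A, ∀ x ∈ H, ε (x * t * x⁻¹) = ε t)
    (hp : ∀ t ∈ TA (tame h6 ℓ) A, ∀ n : ℕ, ε (t ^ n) = n • ε t) :
    ∃ χ : WG k Ω → F2, SmOn (tame h6 ℓ) H χ ∧ (∀ g ∈ H, ∀ h ∈ H, χ (g * h) = χ g + χ h) ∧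
      ∀ t ∈ TA (tame h6 ℓ) A, χ t = ε t := by
  classical
  have hO : Opn H := ⟨hH, U, hU, hUH⟩
  have : Fact (IsFF (Kb k Ω) (MU H)) := ⟨hO.isFF⟩
  choose pv pg hpl using plc_surj ℓ hO
  obtain ⟨U₁, hU₁, hle, e1⟩ := hs.le hU
  let e : Place (Kb k Ω) (MU H) → ℤ := fun y =>
    if pv y ∈ A then 0 else ((ε (pg y * (ℓ (pv y)).τ * (pg y)⁻¹)).val : ℤ)
  have hfin : (Function.support e).Finite := by
    refine (over_finite (ℓ := ℓ) (A := (tau_fin ℓ hU₁).toFinset) h6 hO).subset fun y hy => ?_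
    refine ⟨pv y, ?_, pg y, hpl y⟩
    by_contra hn
    rw [Set.Finite.mem_toFinset, Set.mem_ofPred_eq, not_not] at hn
    refine hy ?_
    by_cases hA' : pv y ∈ A
    · exact if_pos hA'
    · refine (if_neg hA').trans ?_
      have e2 := e1 1 U.one_mem _ (hU₁.normal.conj_mem _ hn (pg y))
      have e3 := hp _ ⟨pv y, hA', pg y, rfl⟩ 0
      rw [pow_zero, zero_nsmul] at e3
      rw [one_mul, e3] at e2
      rw [e2, ZMod.val_zero, Nat.cast_zero]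
  obtain ⟨y0, hy0⟩ := over_nonempty (ℓ := ℓ) (H := H) hA
  obtain ⟨a, E, ha, hE⟩ := pic_div (κ := Kb k Ω) (N := 2)
    (by exact_mod_cast two_ne_of_six (six_ne_map (algebraMap k (Kb k Ω)) h6))
    (D := Finsupp.ofSupportFinite e hfin - Finsupp.single y0 (dg (Finsupp.ofSupportFinite e hfin)))
    (by rw [dg_sub, dg_single, sub_self])
  obtain ⟨ζ, hζ⟩ := exists_zeta (Ω := Ω) h6 1
  rw [pow_one] at hζ
  have hN : ∃ j, 2 ∣ 6 ^ j := ⟨1, by norm_num⟩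
  obtain ⟨χ, h1, -, h2⟩ := kr_exists hζ hN hO ha
  refine ⟨χ, h2, h1.hom hζ hH, ?_⟩
  rintro _ ⟨v, hv, g, rfl⟩
  have hy : y0 ≠ plc (ℓ v) H g := fun e' => hv (plc_mem_over.1 (e' ▸ hy0))
  have e2 : ∀ v' g', plc (ℓ v) H g = plc (ℓ v') H g' →
      (if v' ∈ A then 0 else ((ε (g' * (ℓ v').τ * g'⁻¹)).val : ℤ)) =
        (ε (g * (ℓ v).τ * g⁻¹)).val := by
    intro v' g' e'
    obtain rfl := plc_base ℓ e'
    rw [if_neg hv, eps_eq hU hUH hH hτ hs hc hp hv e']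
  have e3 : (plc (ℓ v) H g).ord a = (ε (g * (ℓ v).τ * g⁻¹)).val + 2 * E (plc (ℓ v) H g) := by
    rw [← dv_apply ha, hE, Finsupp.add_apply, Finsupp.sub_apply, Finsupp.single_eq_of_ne' hy,
      sub_zero, Finsupp.smul_apply, nsmul_eq_mul, Nat.cast_ofNat, ← e2 _ _ (hpl _)]
    rfl
  refine LkMain_F2 _ _ ((h1.unr hζ hN hO (ℓ v)
    (hUH (hU.normal.conj_mem _ (hτ v hv) g))).trans ?_)
  rw [e3, Nat.cast_ofNat, dvd_add_left (dvd_mul_right _ _)]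
  change (2 : ℤ) ∣ _ ↔ ε (g * (ℓ v).τ * g⁻¹) = 0
  generalize ε (g * (ℓ v).τ * g⁻¹) = z
  revert z
  decide

theorem km (hU : Adm U) (hτ : ∀ v ∉ A, (ℓ v).τ ∈ U) {J : ℕ} {ζ : Kb k Ω}
    (hζ : IsPrimitiveRoot ζ (2 ^ (J + 1))) {γ : WG k Ω} {n : ℕ} (hγ : wdeg γ = n) :
    KM (2 ^ (J + 1)) (ovr ℓ U A) (sa hU γ)
      (ZH (tame h6 ℓ) U (fun _ => AddMonoidHom.id (ZMod (2 ^ (J + 1)))) A)
      (fun χ g => (Fintype.card k : ZMod (2 ^ (J + 1))) ^ n * χ (γ⁻¹ * g * γ))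
      (KR ζ (2 ^ (J + 1)) U) := by
  have hO := opn_of_adm hU
  have : Fact (IsFF (Kb k Ω) (MU U)) := ⟨hO.isFF⟩
  have hN : ∃ j, 2 ^ (J + 1) ∣ 6 ^ j := ⟨J + 1, pow_dvd_pow_of_dvd (by norm_num) _⟩
  have hn := hU.normal
  refine ⟨?_, fun χ f h => h.1, ?_, ?_, fun χ χ' f f' h h' => h.mul hζ h', ?_, ?_,
    fun χ f h => h.op hζ hU hγ⟩
  · rintro χ ⟨-, hs, h2, -⟩
    exact exists_kr hζ hO hs h2
  · rintro χ ⟨-, -, -, h3⟩ f h y hy
    obtain ⟨v, g, rfl⟩ := plc_surj ℓ hO y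
    have hv : v ∉ A := fun hv => hy (plc_mem_over.2 hv)
    exact (h.unr hζ hN hO (ℓ v) (hn.conj_mem _ (hτ v hv) g)).1 (h3 _ ⟨v, hv, g, rfl⟩)
  · intro f hf h
    obtain ⟨χ, h1, h0, hs⟩ := kr_exists hζ hN hO hf
    refine ⟨χ, ⟨h0, hs, h1.hom hζ hU.le, ?_⟩, h1⟩
    rintro _ ⟨v, hv, g, rfl⟩
    exact (h1.unr hζ hN hO (ℓ v) (hn.conj_mem _ (hτ v hv) g)).2
      (h _ fun hy => hv (plc_mem_over.1 hy))
  · intro χ hχ χ' hχ' f f' h h'
    rw [← h.eq_iff hζ hU.le h']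
    refine ⟨fun e u _ => congrFun e u, fun e => funext fun g => ?_⟩
    by_cases hg : g ∈ U
    · exact e g hg
    · rw [hχ.1 g hg, hχ'.1 g hg]
  · rintro χ ⟨h0, ⟨U₁, hU₁, hs⟩, h2, h3⟩
    have e : ∀ g g' : WG k Ω, γ⁻¹ * (g * g') * γ = γ⁻¹ * g * γ * (γ⁻¹ * g' * γ) := fun g g' => by
      group
    refine ⟨fun g hg => ?_, ⟨U₁, hU₁, fun g hg u hu => ?_⟩, fun g hg g' hg' => ?_, fun t ht => ?_⟩
    · have : γ⁻¹ * g * γ ∉ U := fun h => hg (by simpa [mul_assoc] using hn.conj_mem _ h γ)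
      simp only [h0 _ this, mul_zero]
    · simp only [e, hs _ (hn.conj_mem' g hg γ) _ ((Adm.normal hU₁).conj_mem' u hu γ)]
    · simp only [e, h2 _ (hn.conj_mem' g hg γ) _ (hn.conj_mem' g' hg' γ), AddMonoidHom.id_apply,
        mul_add]
    · simp only [h3 _ (TA_conj' ht γ), mul_zero]

variable (h6 ℓ) in
theorem lefAx : LefAx (tame h6 ℓ) := by
  refine ⟨fun U U' hU h1 h2 θ hs hθ => h2_open h6 ⟨h2, U, hU, h1⟩ θ hs hθ,
    fun U U' hU h1 h2 A hA hτ ε hs hc hp => ram_open hU h1 h2 hA hτ hs hc hp,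
    fun U hU A hA hτ J n γ hn hγ => ?_⟩
  obtain ⟨ζ, hζ⟩ := exists_zeta (Ω := Ω) h6 (J + 1)
  obtain ⟨p, hp⟩ := CharP.exists k
  have : Fact p.Prime := ⟨CharP.char_is_prime k p⟩
  have : CharP (Kb k Ω) p := charP_of_injective_algebraMap (algebraMap k (Kb k Ω)).injective p
  have hO := opn_of_adm hU
  have : Fact (IsFF (Kb k Ω) (MU U)) := ⟨hO.isFF⟩
  have h := (km (h6 := h6) hU hτ hζ hγ).hasTr
    (two_ne_of_six (six_ne_map (algebraMap k (Kb k Ω)) h6)) (isFr_sa p hU hn hγ)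
    (over_finite h6 hO) (over_nonempty hA) (over_smul hU γ)
  rw [fix_count h6 hU hτ hn hγ, Nat.cast_pow] at h
  exact h

end Pool.Agent.Lef
end
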