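import Pool.Agent.Work.MP_60d5ce_nt.Lb.CZ
import Pool.Agent.Work.MP_60d5ce_nt.Qt.GalBasic
import Pool.Agent.Work.MP_60d5ce_nt.Qt.Alg
import Pool.Agent.Work.MP_60d5ce_nt.Qt.EllFin
import Pool.Agent.Work.MP_60d5ce_nt.Lb.LkMain

-- merged part: Pool.Agent.Work.MP_60d5ce_nt.Lb.CLoc
section
/-!
# Classes killed by a power of `φ - 1` satisfy the local conditions  (task LB CLoc)

* `loc_mat`: if `B = 1` take `C = adjugate (S - Q)`, `κ = det (S - Q) = Q * det (S - 1)` (from `det S = Q`).  If `det (B - 1) ≠ 0` take `C = 0`, `D = adjugate (B - 1)`.  Otherwise `N = B - 1 ≠ 0` has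
  `det N = 0`, `tr N = 0`, `N ^ 2 = 0`, `B ^ Q = 1 + Q N`, so `S N = Q N S`.  With `N = !![a, b; c, -a]`: if `N * Y = 0` then `κ₀ • Y = N * D₀` for the non-zero entry `κ₀ = b` (or `c`, if `b = 0 = a`).
  One has `N S² = N` (multiply `S N = Q N S` by the adjugate: `N adj S = (tr S) N - N S`, `S adj S = Q`; or: `N S = λ N` over the fraction field, `det S = Q λ²`), so take `Y = S² - 1`,
  `C = κ₀ • (S + Q)`, `κ = κ₀ * (1 - Q²)`; `C N = N C'` with `C' = κ₀ • (Q • S + Q)`.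
* `pow_kill`: pass to the ring `AddMonoid.End (Z ⧸ B)`, where `Φ` becomes a homomorphism depending only on the degree; `x ^ n - 1 = (∑ x ^ i) (x - 1)`.  (Or argue with congruences modulo `B`.)
* `loc_step`: with `c' = conjOp σ c`: `c' (σ τ σ⁻¹) = a σ (c τ)`, `τ ^ Q = σ τ σ⁻¹ u` (`T.rel`, normality), `c' (τ ^ Q) = ∑ i < Q, (a τ)^[i] (c' τ) ≡ Q • c' τ` modulo `NB`.
* `loc_unif`: induction on `m` for `D = conjOp σ - 1`: `(S - Q) (c τ) ≡ Q • (D c) τ`; `loc_mat` in the coordinates `M.pt`; `κ = 2 ^ b * unit`.  `det (S - 1) = 0` and `B = 1` contradict `hloc`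
  (`Matrix.exists_mulVec_eq_zero_iff`).
* `zg_of_nu`: apply `loc_unif` to `conjOp g⁻¹ c` (`pow_kill`), `c (g τ g⁻¹) = a g ((conjOp g⁻¹ c) τ)`; one `a` for the finitely many `v ∈ A`; for `v ∉ A` take `y = 0`.
-/

namespace Pool.Agent.Lef

open scoped Classical
open Pool.Agent.Quad

theorem CLoc_tr (X Y : Matrix (Fin 2) (Fin 2) O) (h : Y.trace = 0) :
    Y * X = X.adjugate * Y + (Y * X).trace • (1 : Matrix (Fin 2) (Fin 2) O) := by
  rw [Matrix.trace_fin_two] at h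
  ext i j
  fin_cases i <;> fin_cases j <;>
    simp [Matrix.adjugate_fin_two, Matrix.mul_apply, Matrix.trace_fin_two, Fin.sum_univ_two,
      Matrix.vecMul, dotProduct]
  · linear_combination (-X 1 1) * h
  · linear_combination (X 0 1) * h
  · linear_combination (X 1 0) * h
  · linear_combination (-X 0 0) * h

theorem CLoc_nil {S N : Matrix (Fin 2) (Fin 2) O} {Q : ℕ} (hQ : 1 < Q) (hS : S.det = Q)
    (ht : N.trace = 0) (hN : N ≠ 0) (hrel : S * N = (Q : O) • (N * S)) :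
    ∃ (κ : O) (C C' D : Matrix (Fin 2) (Fin 2) O), κ ≠ 0 ∧
      κ • (1 : Matrix (Fin 2) (Fin 2) O) = C * (S - (Q : O) • 1) + N * D ∧ C * N = N * C' := by
  have q0 : (Q : O) ≠ 0 := Nat.cast_ne_zero.2 (by omega)
  have q1 : (Q : O) ≠ 1 := by exact_mod_cast hQ.ne'
  have q2 : (Q : O) ^ 2 ≠ 1 := by exact_mod_cast (Nat.one_lt_pow two_ne_zero hQ).ne'
  have h1 : (N * S).trace = 0 := by
    have h := congrArg Matrix.trace hrel
    rw [Matrix.trace_smul, Matrix.trace_mul_comm, smul_eq_mul] at h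
    exact (mul_eq_zero.1 (show ((Q : O) - 1) * (N * S).trace = 0 by
      linear_combination -h)).resolve_left (sub_ne_zero.2 q1)
  have h2 : N * (1 - S * S) = 0 := by
    have h := congrArg (S * ·) (CLoc_tr S N ht)
    simp only [h1, zero_smul, add_zero, ← mul_assoc, Matrix.mul_adjugate, hS, hrel,
      smul_mul_assoc, one_mul] at h
    rw [mul_sub, mul_one, ← mul_assoc, smul_right_injective _ q0 h, sub_self]
  obtain ⟨i, j, h3⟩ : ∃ i j, N i j ≠ 0 := by
    by_contra h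
    push Not at h
    exact hN (Matrix.ext h)
  have h4 : (N * Matrix.single j i (1 : O)).trace = N i j := by
    rw [Matrix.trace_mul_single]
    simp
  have h5 := congrArg (· * (1 - S * S)) (CLoc_tr (Matrix.single j i 1) N ht)
  simp only [h4, add_mul, mul_assoc, h2, mul_zero, zero_add, smul_mul_assoc, one_mul] at h5
  refine ⟨N i j * (1 - (Q : O) ^ 2), N i j • (S + (Q : O) • 1), N i j • ((Q : O) • (S + 1)),
    Matrix.single j i 1 * (1 - S * S), mul_ne_zero h3 (sub_ne_zero.2 q2.symm), ?_, ?_⟩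
  · rw [h5]
    simp only [smul_mul_assoc, mul_smul_comm, add_mul, mul_sub, one_mul, mul_one]
    module
  · simp only [smul_mul_assoc, mul_smul_comm, add_mul, mul_add, one_mul, mul_one, hrel]
    module

theorem loc_mat {S B : Matrix (Fin 2) (Fin 2) O} {Q : ℕ} (hQ : 1 < Q) (hS : S.det = Q)
    (hB : B.det = 1) (hrel : S * B = B ^ Q * S) (h1 : B = 1 → (S - 1).det ≠ 0) :
    ∃ (κ : O) (C C' D : Matrix (Fin 2) (Fin 2) O), κ ≠ 0 ∧
      κ • (1 : Matrix (Fin 2) (Fin 2) O) = C * (S - (Q : O) • 1) + (B - 1) * D ∧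
        C * (B - 1) = (B - 1) * C' := by
  by_cases k1 : B = 1
  · refine ⟨(S - (Q : O) • 1).det, (S - (Q : O) • 1).adjugate, 0, 0, ?_, ?_, ?_⟩
    · have e : (S - (Q : O) • 1).det = Q * (S - 1).det := by
        rw [Matrix.det_fin_two] at hS ⊢
        rw [Matrix.det_fin_two]
        simp
        linear_combination (1 - (Q : O)) * hS
      rw [e]
      exact mul_ne_zero (Nat.cast_ne_zero.2 (by omega)) (h1 k1)
    · rw [Matrix.adjugate_mul, mul_zero, add_zero]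
    · rw [k1, sub_self, mul_zero, mul_zero]
  by_cases k2 : (B - 1).det = 0
  swap
  · exact ⟨(B - 1).det, 0, 0, (B - 1).adjugate, k2, by
      rw [Matrix.mul_adjugate, zero_mul, zero_add], by rw [zero_mul, mul_zero]⟩
  obtain ⟨N, rfl⟩ : ∃ N, B = 1 + N := ⟨B - 1, (add_sub_cancel _ _).symm⟩
  rw [add_sub_cancel_left] at k2 ⊢
  have ht : N.trace = 0 := by
    rw [Matrix.det_fin_two] at hB k2
    rw [Matrix.trace_fin_two]
    simp at hB
    linear_combination hB - k2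
  have h2 : N * N = 0 := by
    have h := CLoc_tr N N ht
    rw [Matrix.adjugate_mul, k2, zero_smul, zero_add] at h
    have e : (N * N).trace = 0 := by
      rw [Matrix.det_fin_two] at k2
      rw [Matrix.trace_fin_two] at ht ⊢
      simp only [Matrix.mul_apply, Fin.sum_univ_two]
      linear_combination (N 0 0 + N 1 1) * ht - 2 * k2
    rw [h, e, zero_smul]
  have h3 : ∀ n : ℕ, (1 + N) ^ n = 1 + (n : O) • N := fun n => by
    induction n with
    | zero => simp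
    | succ n ih =>
      rw [pow_succ, ih]
      simp only [add_mul, mul_add, one_mul, mul_one, smul_mul_assoc, h2, Nat.cast_succ]
      module
  refine CLoc_nil hQ hS ht (fun h => k1 (by rw [h, add_zero])) ?_
  rw [h3, mul_add, add_mul, mul_one, one_mul, smul_mul_assoc] at hrel
  exact add_left_cancel hrel

variable {W P : Type} [Group W] {T : Tame W P}

theorem CLoc_sub {X : Type} [AddCommGroup X] {B : AddSubgroup X} (f : X →+ X)
    (h : ∀ c ∈ B, f c ∈ B) (m : ℕ) :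
    ∃ L : AddSubgroup X, B ≤ L ∧ ∀ y, y ∈ L ↔ (fun c => f c - c)^[m] y ∈ B := by
  induction m with
  | zero => exact ⟨B, le_rfl, fun _ => Iff.rfl⟩
  | succ m ih =>
    obtain ⟨L, h1, h2⟩ := ih
    exact ⟨L.comap (f - AddMonoidHom.id X), fun y hy => h1 (sub_mem (h y hy) hy),
      fun y => h2 (f y - y)⟩

theorem pow_kill {X : Type} [AddCommGroup X] {Z B : AddSubgroup X} {Φ : W → X →+ X}
    (hZ : ∀ w, ∀ c ∈ Z, Φ w c ∈ Z) (hB : ∀ w, ∀ c ∈ B, Φ w c ∈ B)
    (hm : ∀ w w', ∀ c ∈ Z, Φ (w * w') c = Φ w (Φ w' c))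
    (h0 : ∀ h, T.deg h = 0 → ∀ c ∈ Z, Φ h c - c ∈ B) {φ : W} (hφ : T.deg φ = 1) {m : ℕ} {c : X}
    (hc : c ∈ Z) (h : (fun c => Φ φ c - c)^[m] c ∈ B) {w : W} {n : ℕ} (hw : T.deg w = n) (g : W) :
    (fun c => Φ w c - c)^[m] (Φ g c) ∈ B := by
  have hd : ∀ i : ℕ, T.deg (φ ^ i) = i := fun i => by
    induction i with
    | zero => rw [pow_zero, T.deg_one, Nat.cast_zero]
    | succ i ih => rw [pow_succ, T.deg_mul, ih, hφ, Nat.cast_succ]
  induction m generalizing c g with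
  | zero => exact hB g c h
  | succ m ih =>
    obtain ⟨L, h1, h2⟩ := CLoc_sub (Φ w) (hB w) m
    have h3 : ∀ i : ℕ, Φ (g * φ ^ i) c - Φ g c ∈ L := fun i => by
      induction i with
      | zero => rw [pow_zero, mul_one, sub_self]; exact zero_mem _
      | succ i ih' =>
        have h4 := (h2 _).2 (ih (sub_mem (hZ φ c hc) hc) h (g * φ ^ i))
        rw [map_sub, ← hm _ _ c hc, mul_assoc, ← pow_succ] at h4
        simpa using add_mem h4 ih'
    have h5 := hB (g * φ ^ n) _ (h0 ((g * φ ^ n)⁻¹ * (w * g)) (by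
      rw [T.deg_mul, T.deg_inv, T.deg_mul, T.deg_mul, hd, hw]
      ring) c hc)
    rw [map_sub, ← hm _ _ c hc, mul_inv_cancel_left, hm _ _ c hc] at h5
    refine (h2 (Φ w (Φ g c) - Φ g c)).1 ?_
    simpa using add_mem (h1 h5) (h3 n)

variable {R : Rep T} {x : W → F2} {𝒜 : Type} [AddCommGroup 𝒜] {A : Finset P} {M : GM R x 𝒜}

variable (M) in
/-- local coboundaries -/
def NB (g : W) : AddSubgroup 𝒜 where
  carrier := {z | ∃ y, Tor2 y ∧ z = M.a g y - y}
  zero_mem' := ⟨0, GM.GeoM_zero, by simp⟩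
  add_mem' := by
    rintro _ _ ⟨y, hy, rfl⟩ ⟨z, hz, rfl⟩
    exact ⟨y + z, GM.GeoM_add hy hz, by rw [map_add, add_sub_add_comm]⟩
  neg_mem' := by
    rintro _ ⟨y, hy, rfl⟩
    exact ⟨-y, GM.GeoM_neg hy, by rw [map_neg, neg_sub', sub_neg_eq_add]⟩

theorem CLoc_one (hx : T.IsHom x) {y : 𝒜} (hy : Tor2 y) : M.a 1 y = y := by
  obtain ⟨j, hj⟩ := hy
  obtain ⟨t, rfl⟩ := M.surj j y hj
  rw [M.a_pt, act_eq, mat_one hx, Matrix.one_mulVec]

theorem CLoc_tor {c : W → 𝒜} (hc : c ∈ ZT M A) (g : W) : Tor2 (c g) :=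
  hc.2.imp fun _ h => congrFun h g

theorem CLoc_pow (hx : T.IsHom x) {c : W → 𝒜} (hc : c ∈ ZT M A) {g : W} (hg : g ∈ T.G0) (n : ℕ) :
    c (g ^ n) - n • c g ∈ NB M g := by
  induction n with
  | zero =>
    have h := hc.1.2.2.1 1 (one_mem _) 1 (one_mem _)
    rw [mul_one, CLoc_one hx (CLoc_tor hc 1), left_eq_add] at h
    rw [pow_zero, h, zero_smul, sub_zero]
    exact zero_mem _
  | succ n ih =>
    have h := add_mem (show M.a g (c (g ^ n)) - c (g ^ n) ∈ NB M g from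
      ⟨_, CLoc_tor hc _, rfl⟩) ih
    rw [pow_succ', hc.1.2.2.1 g hg _ (pow_mem hg n), succ_nsmul]
    convert h using 1
    abel

theorem loc_step (hx : T.IsHom x) {c : W → 𝒜} (hc : c ∈ ZT M A) (v : P) :
    M.a (T.σ v) (c (T.τ v)) - T.Q v • conjOp M.a (T.σ v) c (T.τ v) ∈ NB M (T.τ v) := by
  have h1 := conj_mem hx hc (T.σ v)
  obtain ⟨U, hU, h2⟩ := h1.1.2.1
  have h3 := h2 (T.σ v * T.τ v * (T.σ v)⁻¹) (show T.deg _ = 0 by
    rw [T.deg_mul, T.deg_mul, T.deg_inv, T.deg_τ]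
    ring) _ ((T.adm_normal U hU).conj_mem _ (T.rel U hU v) (T.σ v))
  have e1 : T.σ v * T.τ v * (T.σ v)⁻¹ * (T.σ v * ((T.σ v * T.τ v)⁻¹ * (T.τ v ^ T.Q v * T.σ v)) *
      (T.σ v)⁻¹) = T.τ v ^ T.Q v := by group
  have e2 : conjOp M.a (T.σ v) c (T.σ v * T.τ v * (T.σ v)⁻¹) = M.a (T.σ v) (c (T.τ v)) :=
    congrArg (fun g => M.a (T.σ v) (c g)) (by group)
  rw [e1, e2] at h3
  rw [← h3]
  exact CLoc_pow hx h1 (T.deg_τ v) _

theorem CLoc_key (hx : T.IsHom x) {v : P}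
    (hloc : ∀ t, R.act x (T.σ v) t = t → R.act x (T.τ v) t = t → t = 0) :
    ∃ b : ℕ, ∀ y, Tor2 y → M.a (T.σ v) y - T.Q v • y ∈ NB M (T.τ v) → 2 ^ b • y ∈ NB M (T.τ v) := by
  obtain ⟨κ, C, C', D, h0, h1, h2⟩ := loc_mat (S := mat R x (T.σ v)) (B := mat R x (T.τ v))
    (Q := T.Q v) (Nat.one_lt_pow (T.dg_pos v).ne' (by have := T.q_ge; omega))
    (by rw [mat_det, Tame.cq, T.deg_σ, zpow_natCast, Units.val_pow_eq_pow_val, IsUnit.unit_spec,
      Pre.Q, Nat.cast_pow])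
    (by rw [mat_det, Tame.cq, T.deg_τ, zpow_zero, Units.val_one]) (mat_rel hx v) fun h k => by
      obtain ⟨t, t0, ht⟩ := Matrix.exists_mulVec_eq_zero_iff.2 k
      rw [Matrix.sub_mulVec, Matrix.one_mulVec, sub_eq_zero] at ht
      exact t0 (hloc t (by rw [act_eq, ht]) (by rw [act_eq, h, Matrix.one_mulVec]))
  obtain ⟨u, b, rfl⟩ : ∃ (u : Oˣ) (b : ℕ), κ = u * 2 ^ b := ⟨_, _, PadicInt.unitCoeff_spec h0⟩
  refine ⟨b, ?_⟩
  rintro y ⟨i, hi⟩ ⟨z, ⟨j, hj⟩, h3⟩
  obtain ⟨t, rfl⟩ := M.surj (i + j) y (GM.GeoM_le hi le_self_add)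
  obtain ⟨s, rfl⟩ := M.surj (i + j) z (GM.GeoM_le hj le_add_self)
  rw [M.a_pt, M.a_pt, act_eq, act_eq, ← map_nsmul, ← map_sub, ← map_sub, M.pt_eq_iff] at h3
  have h4 := (VD.mulVec (a := (mat R x (T.σ v)).mulVec t - T.Q v • t -
    ((mat R x (T.τ v)).mulVec s - s)) h3 C).smul ((u⁻¹ : Oˣ) : O)
  refine ⟨M.pt (i + j) (((u⁻¹ : Oˣ) : O) • (C'.mulVec s + D.mulVec t)), ⟨_, M.pow_smul_pt _ _⟩, ?_⟩
  rw [M.a_pt, act_eq, ← map_nsmul, ← map_sub, ← sub_eq_zero, ← map_sub, M.ker]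
  have e1 := congrArg (fun m : Matrix (Fin 2) (Fin 2) O => m.mulVec t) h1
  have e2 := congrArg (fun m : Matrix (Fin 2) (Fin 2) O => m.mulVec s) h2
  simp only [Matrix.add_mulVec, Matrix.sub_mulVec, Matrix.smul_mulVec, Matrix.one_mulVec,
    ← Matrix.mulVec_mulVec, Matrix.mulVec_sub, Matrix.mulVec_smul] at e1 e2
  have e3 : 2 ^ b • t = ((u⁻¹ : Oˣ) : O) • (((u : O) * 2 ^ b) • t) := by
    rw [smul_smul, Units.inv_mul_cancel_left, ← Nat.cast_smul_eq_nsmul O, Nat.cast_pow,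
      Nat.cast_ofNat]
  refine (congrArg (VD (i + j)) ?_).mpr h4
  rw [e3, e1, ← Nat.cast_smul_eq_nsmul O]
  simp only [Matrix.mulVec_sub, Matrix.mulVec_smul, Matrix.mulVec_add, e2]
  module

theorem loc_unif (hx : T.IsHom x) {v : P}
    (hloc : ∀ t, R.act x (T.σ v) t = t → R.act x (T.τ v) t = t → t = 0) (m : ℕ) :
    ∃ a : ℕ, ∀ c ∈ ZT M A, M.IsB ((fun c => conjOp M.a (T.σ v) c - c)^[m] c) →
      2 ^ a • c (T.τ v) ∈ NB M (T.τ v) := by
  obtain ⟨b, hb⟩ := CLoc_key (M := M) hx hloc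
  induction m with
  | zero =>
    refine ⟨0, fun c _ ⟨y, hy, h⟩ => ⟨y, hy, ?_⟩⟩
    rw [pow_zero, one_smul]
    exact h _ (T.deg_τ v)
  | succ m ih =>
    obtain ⟨a, ha⟩ := ih
    refine ⟨b + a, fun c hc h => ?_⟩
    have h1 := ha _ (sub_mem (conj_mem hx hc (T.σ v)) hc) h
    have h2 := add_mem (nsmul_mem (loc_step hx hc v) (2 ^ a)) (nsmul_mem h1 (T.Q v))
    rw [pow_add, mul_smul]
    refine hb _ (CLoc_tor (nsmul_mem hc (2 ^ a)) (T.τ v)) ?_
    convert h2 using 1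
    rw [map_nsmul, Pi.sub_apply]
    module

theorem zg_of_nu (hx : T.IsHom x)
    (hloc : ∀ v ∈ A, ∀ t, R.act x (T.σ v) t = t → R.act x (T.τ v) t = t → t = 0) {φ : W}
    (hφ : T.deg φ = 1) (m : ℕ) :
    ∃ a : ℕ, ∀ c ∈ ZT M A, M.IsB ((M.nu φ)^[m] c) → M.ZG (2 ^ a • c) := by
  choose a ha using fun v : A => loc_unif (M := M) (A := A) hx (hloc v v.2) m
  refine ⟨Finset.univ.sup a, fun c hc h => ?_⟩
  obtain ⟨⟨-, ⟨U, hU, h1⟩, h2, h3⟩, j, hj⟩ := nsmul_mem hc (2 ^ Finset.univ.sup a)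
  refine ⟨⟨j, fun g _ => congrFun hj g⟩, ⟨U, hU, h1⟩, fun g k hg hk => h2 g hg k hk, fun v g => ?_⟩
  by_cases hv : v ∈ A
  swap
  · exact ⟨0, GM.GeoM_zero, by rw [h3 _ ⟨v, hv, g, rfl⟩, map_zero, sub_zero]⟩
  have h4 := ha ⟨v, hv⟩ _ (conj_mem hx hc g⁻¹) (pow_kill (T := T) (Z := ZT M A)
    (B := GM.GeoM_B M) (Φ := conjOp M.a) (fun w c hc => conj_mem hx hc w)
    (fun w c hc => conj_memB hx hc w) (fun w w' c hc => conj_mul hx hc w w')
    (fun k hk c hc => conj_sub hx hc hk) hφ hc h (T.deg_σ v) g⁻¹)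
  obtain ⟨k, hk⟩ := Nat.exists_eq_add_of_le' (Finset.le_sup (f := a) (Finset.mem_univ ⟨v, hv⟩))
  obtain ⟨y, hy, h5⟩ := nsmul_mem h4 (2 ^ k)
  rw [← mul_smul, ← pow_add, ← hk] at h5
  refine ⟨M.a g y, GM.GeoM_a g hy, ?_⟩
  have h6 : M.a g (conjOp M.a g⁻¹ c (T.τ v)) = c (g * T.τ v * g⁻¹) := by
    change M.a g (M.a g⁻¹ (c (g⁻¹⁻¹ * T.τ v * g⁻¹))) = _
    rw [← GM.GeoM_mul hx _ _ (CLoc_tor hc _), mul_inv_cancel, CLoc_one hx (CLoc_tor hc _), inv_inv]
  rw [Pi.smul_apply, ← h6, ← map_nsmul, h5, map_sub, ← GM.GeoM_mul hx _ _ hy,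
    ← GM.GeoM_mul hx _ _ hy, inv_mul_cancel_right]

end Pool.Agent.Lef
end

-- merged part: Pool.Agent.Work.MP_60d5ce_nt.Qt.LocEx
section
-- merged part: Pool.Agent.Work.MP_60d5ce_nt.Qt.LocB
section
/-!
# Tame inertia: quotients of order dividing a power of six are generated by one element

Hints.
* `exists_tau`: `r ^ 6 = π`; `g ↦ g r / r` is a homomorphism to the sixth roots of unity (`fixu`); if
  its image has order `m` then `r ^ m` is fixed by all `g`, so `2 ^ (-m / 6)` is an integral power of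
  two (`disc`), `m = 6`.
* `mem_of_fix`: `Γ = G / N` is finite (`LocB_open`), of order `e ∣ 6 ^ n` (every prime divisor of the
  order is the order of an element).  Take `r ^ 6 ^ (n + 1) = π`, `g r = r`.  For `a ≠ 0` fixed by `N`
  the product of `s a` over representatives `s` of `Γ` is fixed by `G` and has size `w a ^ e` (`iso`),
  so `w a = w (r ^ s)` for an integer `s`; `a = r ^ s * u` with `w u = 1` and `res` give
  `w (g a - a) < w a`, and the same for all powers of `g`.  If `g a ≠ a` for some `a` fixed by `N`, put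
  `b = g a - a ≠ 0` (fixed by `N`, which is normal); `∑ i < 6 ^ j, g ^ i b = g ^ 6 ^ j a - a = 0`, but the
  sum is `6 ^ j b` plus terms of size `< w b`, and `w 6 = 1`.  So `g` fixes the fixed field of the
  closed subgroup `N` (`InfiniteGalois.fixingSubgroup_fixedField`).
* `cyclic`: with `r` as in `mem_of_fix`, `τ r = η r`, `η ^ 6 ^ n = z` (`r ^ 6 ^ n` is a sixth root of
  `π`), so `η` is a primitive `6 ^ (n + 1)`-th root of unity (its order divides `6 ^ (n + 1)`, and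
  `η ^ (6 ^ (n + 1) / p) ≠ 1` for `p = 2, 3`), and `g r / r` is a power of `η`.
-/

namespace Pool.Agent.Quad

variable {M Λ : Type} [Field M] [Field Λ] [Algebra M Λ] [IsGalois M Λ]

theorem LocB_open (N : Subgroup (Λ ≃ₐ[M] Λ)) (S : Finset Λ)
    (hS : ∀ g : Λ ≃ₐ[M] Λ, (∀ a ∈ S, g a = a) → g ∈ N) : IsOpen (N : Set (Λ ≃ₐ[M] Λ)) := by
  have : FiniteDimensional M (IntermediateField.adjoin M (S : Set Λ)) :=
    IntermediateField.finiteDimensional_adjoin fun x _ => Algebra.IsIntegral.isIntegral x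
  refine Subgroup.isOpen_mono (fun g hg => hS g fun a ha => ?_)
    (IntermediateField.fixingSubgroup_isOpen (IntermediateField.adjoin M (S : Set Λ)))
  exact (IntermediateField.mem_fixingSubgroup_iff _ _).1 hg a
    (IntermediateField.subset_adjoin _ _ ha)

/-- The data of a tamely ramified situation over the maximal unramified extension. -/
structure TI (M Λ : Type) [Field M] [Field Λ] [Algebra M Λ] where
  w : AbsoluteValue Λ ℝ
  z : Λ
  π : Λ
  hz : IsPrimitiveRoot z 6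
  hπ : w π = 2⁻¹
  fixπ : ∀ g : Λ ≃ₐ[M] Λ, g π = π
  fixu : ∀ (g : Λ ≃ₐ[M] Λ) (u : Λ) (n : ℕ), 0 < n → u ^ n = 1 → g u = u
  na : IsNonarchimedean w
  six : w 6 = 1
  iso : ∀ (g : Λ ≃ₐ[M] Λ) (a : Λ), w (g a) = w a
  res : ∀ (g : Λ ≃ₐ[M] Λ) (a : Λ), w a ≤ 1 → w (g a - a) < 1
  disc : ∀ a : Λ, a ≠ 0 → (∀ g : Λ ≃ₐ[M] Λ, g a = a) → ∃ n : ℤ, w a = 2 ^ n
  root : ∀ n : ℕ, ∃ r : Λ, r ^ 6 ^ n = π

namespace TI

variable (T : TI M Λ)

omit [IsGalois M Λ] in
theorem π_ne : T.π ≠ 0 := by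
  intro h
  have := T.hπ
  rw [h, map_zero] at this
  norm_num at this

omit [IsGalois M Λ] in
theorem root_ne {r : Λ} {n : ℕ} (hn : 0 < n) (hr : r ^ n = T.π) : r ≠ 0 := by
  rintro rfl
  rw [zero_pow hn.ne'] at hr
  exact T.π_ne hr.symm

include T in
omit [IsGalois M Λ] in
theorem LocB_pow {g : Λ ≃ₐ[M] Λ} {r u : Λ} {n : ℕ} (hn : 0 < n) (hu : u ^ n = 1) (h : g r = u * r)
    (k : ℕ) : (g ^ k) r = u ^ k * r := by
  induction k with
  | zero => simp
  | succ k ih => rw [pow_succ, AlgEquiv.mul_apply, h, map_mul, ih, T.fixu _ u n hn hu]; ring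

omit [IsGalois M Λ] in
theorem LocB_root {r u : Λ} {n : ℕ} (hn : 0 < n) (hr : r ^ n = T.π) (hu : IsPrimitiveRoot u n)
    (g : Λ ≃ₐ[M] Λ) : ∃ i < n, g r = u ^ i * r := by
  have : NeZero n := ⟨hn.ne'⟩
  obtain ⟨i, hi, e⟩ := hu.eq_pow_of_pow_eq_one (ξ := g r / r)
    (by rw [div_pow, ← map_pow, hr, T.fixπ, div_self T.π_ne])
  exact ⟨i, hi, by rw [e, div_mul_cancel₀ _ (T.root_ne hn hr)]⟩

omit [IsGalois M Λ] in
theorem LocB_move {r : Λ} (hr : r ^ 6 = T.π) {c d : ℕ} (h : c * d = 6) (hd : d ≠ 1) :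
    ∃ g : Λ ≃ₐ[M] Λ, ∃ i < 6, g r = T.z ^ i * r ∧ ¬6 ∣ i * c := by
  by_contra! hn
  obtain ⟨n, e⟩ := T.disc (r ^ c) (pow_ne_zero _ (T.root_ne (by norm_num) hr)) fun g => by
    obtain ⟨i, hi, e⟩ := T.LocB_root (by norm_num) hr T.hz g
    rw [map_pow, e, mul_pow, ← pow_mul, (T.hz.pow_eq_one_iff_dvd _).2 (hn g i hi e), one_mul]
  have h1 := T.hπ
  rw [← hr, ← h, pow_mul, map_pow, e, ← zpow_natCast, ← zpow_mul, ← zpow_neg_one] at h1
  have h2 := zpow_right_injective₀ (by norm_num) (by norm_num) h1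
  exact hd (Nat.dvd_one.1 (Int.natCast_dvd_natCast.1 ⟨-n, by push_cast; linarith⟩))

omit [IsGalois M Λ] in
theorem exists_tau : ∃ τ : Λ ≃ₐ[M] Λ, ∀ r, r ^ 6 = T.π → τ r = T.z * r := by
  obtain ⟨r, hr⟩ := T.root 1
  rw [pow_one] at hr
  have h0 := T.root_ne (by norm_num) hr
  have hz : ∀ i, (T.z ^ i) ^ 6 = 1 := fun i => by rw [pow_right_comm, T.hz.pow_eq_one, one_pow]
  obtain ⟨a, i, hi, ha, hi'⟩ := T.LocB_move hr (c := 3) (d := 2) rfl (by norm_num)
  obtain ⟨b, j, hj, hb, hj'⟩ := T.LocB_move hr (c := 2) (d := 3) rfl (by norm_num)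
  have h1 : (a ^ 3 * b ^ (4 * j)) r = T.z * r := by
    rw [AlgEquiv.mul_apply, T.LocB_pow (by norm_num) (hz j) hb, map_mul,
      T.LocB_pow (by norm_num) (hz i) ha, ← pow_mul, T.fixu _ _ 6 (by norm_num) (hz _), ← pow_mul,
      ← mul_assoc, ← pow_add, pow_eq_pow_mod _ T.hz.pow_eq_one]
    have : (j * (4 * j) + i * 3) % 6 = 1 := by
      interval_cases i <;> interval_cases j <;> simp_all
    rw [this, pow_one]
  refine ⟨a ^ 3 * b ^ (4 * j), fun s hs => ?_⟩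
  rw [← div_mul_cancel₀ s h0, map_mul, h1,
    T.fixu _ _ 6 (by norm_num) (by rw [div_pow, hs, hr, div_self T.π_ne])]
  ring

omit [IsGalois M Λ] in
theorem LocB_norm (N : Subgroup (Λ ≃ₐ[M] Λ)) [Finite ((Λ ≃ₐ[M] Λ) ⧸ N)] {a : Λ} (h0 : a ≠ 0)
    (ha : ∀ g ∈ N, g a = a) : ∃ m : ℤ, T.w a ^ Nat.card ((Λ ≃ₐ[M] Λ) ⧸ N) = 2 ^ m := by
  have := Fintype.ofFinite ((Λ ≃ₐ[M] Λ) ⧸ N)
  let F : (Λ ≃ₐ[M] Λ) ⧸ N → Λ := fun q => Quotient.liftOn' q (fun s => s a) fun s t h => by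
    rw [← mul_inv_cancel_left s t, AlgEquiv.mul_apply, ha _ (QuotientGroup.leftRel_apply.1 h)]
  have h1 : ∀ q, T.w (F q) = T.w a := fun q => Quotient.inductionOn' q fun s => T.iso s a
  have h2 : T.w (∏ q, F q) = T.w a ^ Nat.card ((Λ ≃ₐ[M] Λ) ⧸ N) := by
    rw [map_prod, Finset.prod_congr rfl fun q _ => h1 q, Finset.prod_const, Finset.card_univ,
      Nat.card_eq_fintype_card]
  rw [← h2]
  refine T.disc _ (T.w.ne_zero_iff.1 (h2 ▸ pow_ne_zero _ (T.w.ne_zero h0))) fun g => ?_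
  rw [map_prod]
  exact Fintype.prod_equiv (MulAction.toPerm g) _ _ fun q => Quotient.inductionOn' q fun s => rfl

omit [IsGalois M Λ] in
theorem LocB_sum {c : ℝ} (hc : 0 < c) (x : ℕ → Λ) (h : ∀ i, T.w (x i) < c) (k : ℕ) :
    T.w (∑ i ∈ Finset.range k, x i) < c := by
  induction k with
  | zero => simpa
  | succ k ih => rw [Finset.sum_range_succ]; exact (T.na _ _).trans_lt (max_lt ih (h k))

/-- An element fixing a root of the uniformiser of large order is in `N`. -/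
theorem mem_of_fix (N : Subgroup (Λ ≃ₐ[M] Λ)) [hN : N.Normal] (S : Finset Λ)
    (hS : ∀ g : Λ ≃ₐ[M] Λ, (∀ a ∈ S, g a = a) → g ∈ N) (h3 : ∀ g, ∃ j : ℕ, g ^ 6 ^ j ∈ N) :
    ∃ (n : ℕ) (r : Λ), r ^ 6 ^ (n + 1) = T.π ∧ ∀ g : Λ ≃ₐ[M] Λ, g r = r → g ∈ N := by
  have ho := LocB_open N S hS
  have := N.quotient_finite_of_isOpen ho
  obtain ⟨n, hn⟩ : ∃ n, Nat.card ((Λ ≃ₐ[M] Λ) ⧸ N) ∣ 6 ^ n :=
    ⟨_, (Nat.dvd_pow_self_iff Nat.card_pos.ne' (by norm_num)).2 fun p hp => by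
      have hp' := Nat.prime_of_mem_primeFactors hp
      obtain ⟨x, hx⟩ := exists_prime_orderOf_dvd_card' p (hp := ⟨hp'⟩)
        (Nat.dvd_of_mem_primeFactors hp)
      obtain ⟨g, rfl⟩ := QuotientGroup.mk_surjective x
      obtain ⟨j, hj⟩ := h3 g
      refine Nat.mem_primeFactors.2 ⟨hp', hp'.dvd_of_dvd_pow (n := j) ?_, by norm_num⟩
      rw [← hx, orderOf_dvd_iff_pow_eq_one, ← QuotientGroup.mk_pow, QuotientGroup.eq_one_iff]
      exact hj⟩
  obtain ⟨c, hc⟩ := hn.trans (pow_dvd_pow 6 n.le_succ)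
  obtain ⟨r, hr⟩ := T.root (n + 1)
  have hr0 := T.root_ne (by positivity) hr
  have hlt : ∀ a, a ≠ 0 → (∀ h ∈ N, h a = a) → ∀ g : Λ ≃ₐ[M] Λ, g r = r →
      T.w (g a - a) < T.w a := fun a h0 ha g hg => by
    obtain ⟨m, hm⟩ := T.LocB_norm N h0 ha
    have h1 : T.w (r ^ (-(m * c))) = T.w a := by
      refine (pow_left_inj₀ (T.w.nonneg _) (T.w.nonneg _)
        (by positivity : 6 ^ (n + 1) ≠ 0)).1 ?_
      rw [← map_pow, ← zpow_natCast, zpow_comm, zpow_natCast, hr, map_zpow₀, T.hπ, hc, pow_mul, hm,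
        inv_zpow', neg_neg, zpow_mul, zpow_natCast]
    have h2 := zpow_ne_zero (-(m * c)) hr0
    have h4 := T.res g (a / r ^ (-(m * c))) (by rw [map_div₀, h1, div_self (T.w.ne_zero h0)])
    rwa [map_div₀, map_zpow₀, hg, ← sub_div, map_div₀, h1, div_lt_one (T.w.pos h0)] at h4
  refine ⟨n, r, hr, fun g hg => ?_⟩
  refine (InfiniteGalois.fixingSubgroup_fixedField ⟨N, N.isClosed_of_isOpen ho⟩).le
    ((IntermediateField.mem_fixingSubgroup_iff _ _).2 fun a ha => ?_)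
  replace ha : ∀ h ∈ N, h a = a := fun h hh => ha ⟨h, hh⟩
  by_contra hne
  have h0 := sub_ne_zero.2 hne
  have hb : ∀ h ∈ N, h (g a - a) = g a - a := fun h hh => by
    rw [map_sub, ha h hh, ← AlgEquiv.mul_apply, ← mul_inv_cancel_left g (h * g), ← mul_assoc g⁻¹,
      AlgEquiv.mul_apply, ha _ (hN.conj_mem' h hh g)]
  obtain ⟨j, hj⟩ := h3 g
  have h1 := T.LocB_sum (T.w.pos h0) (fun i => (g ^ i) (g a - a) - (g a - a))
    (fun i => hlt _ h0 hb _ (by simpa using T.LocB_pow one_pos (one_pow 1) (by simpa using hg) i))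
    (6 ^ j)
  have h2 : ∑ i ∈ Finset.range (6 ^ j), (g ^ i) (g a - a) = 0 := by
    simp only [map_sub, ← AlgEquiv.mul_apply, ← pow_succ]
    rw [Finset.sum_range_sub fun i => (g ^ i) a, ha _ hj, pow_zero, AlgEquiv.one_apply, sub_self]
  rw [Finset.sum_sub_distrib, h2, zero_sub, T.w.map_neg, Finset.sum_const, Finset.card_range,
    nsmul_eq_mul, map_mul, Nat.cast_pow, map_pow, Nat.cast_ofNat, T.six, one_pow, one_mul] at h1
  exact h1.false

variable {T} {τ : Λ ≃ₐ[M] Λ} (hτ : ∀ r, r ^ 6 = T.π → τ r = T.z * r)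

include hτ

theorem cyclic (N : Subgroup (Λ ≃ₐ[M] Λ)) [N.Normal] (S : Finset Λ)
    (hS : ∀ g : Λ ≃ₐ[M] Λ, (∀ a ∈ S, g a = a) → g ∈ N) (h3 : ∀ g, ∃ j : ℕ, g ^ 6 ^ j ∈ N)
    (g : Λ ≃ₐ[M] Λ) : ∃ m : ℤ, (τ ^ m)⁻¹ * g ∈ N := by
  obtain ⟨n, r, hr, h⟩ := T.mem_of_fix N S hS h3
  have hn : 0 < 6 ^ (n + 1) := by positivity
  have h0 := T.root_ne hn hr
  have h1 : (τ r / r) ^ 6 ^ n = T.z := by
    rw [div_pow, ← map_pow, hτ _ (by rw [← pow_mul, ← pow_succ, hr]),
      mul_div_cancel_right₀ _ (pow_ne_zero _ h0)]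
  have h2 : (τ r / r) ^ 6 ^ (n + 1) = 1 := by rw [pow_succ, pow_mul, h1, T.hz.pow_eq_one]
  have h4 : orderOf (τ r / r) = 6 ^ (n + 1) :=
    orderOf_eq_of_pow_and_pow_div_prime hn h2 fun p hp hd => by
      have h5 := hp.dvd_of_dvd_pow hd
      rw [pow_succ, Nat.mul_div_assoc _ h5, pow_mul, h1]
      exact T.hz.pow_ne_one_of_pos_of_lt (Nat.div_pos (Nat.le_of_dvd (by norm_num) h5) hp.pos).ne'
        (Nat.div_lt_self (by norm_num) hp.one_lt)
  obtain ⟨i, -, e⟩ := T.LocB_root hn hr (h4 ▸ IsPrimitiveRoot.orderOf (τ r / r)) g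
  refine ⟨i, h _ ?_⟩
  rw [AlgEquiv.mul_apply, e, ← T.LocB_pow hn h2 (div_mul_cancel₀ _ h0).symm, zpow_natCast,
    ← AlgEquiv.mul_apply, inv_mul_cancel, AlgEquiv.one_apply]

end TI

end Pool.Agent.Quad
end

-- merged part: Pool.Agent.Work.MP_60d5ce_nt.Qt.LocA
section
/-!
# Valued Galois extensions whose residue field lifts: Frobenius, inertia, the tame relation
-/

namespace Pool.Agent.Quad

open Polynomial

section small

variable {Λ : Type} [Field Λ] {w : AbsoluteValue Λ ℝ} (hw : IsNonarchimedean w)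

include hw

theorem LocA_add_lt {a b : Λ} {t : ℝ} (ha : w a < t) (hb : w b < t) : w (a + b) < t :=
  (hw a b).trans_lt (max_lt ha hb)

theorem LocA_add_le {a b : Λ} {t : ℝ} (ha : w a ≤ t) (hb : w b ≤ t) : w (a + b) ≤ t :=
  (hw a b).trans (max_le ha hb)

theorem LocA_sum_lt {ι : Type} (s : Finset ι) (f : ι → Λ) (h : ∀ i ∈ s, w (f i) < 1) :
    w (∑ i ∈ s, f i) < 1 :=
  Finset.sum_induction f (fun a => w a < 1) (fun _ _ => LocA_add_lt hw) (by simp) h

theorem LocA_sum_le {ι : Type} (s : Finset ι) (f : ι → Λ) (h : ∀ i ∈ s, w (f i) ≤ 1) :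
    w (∑ i ∈ s, f i) ≤ 1 :=
  Finset.sum_induction f (fun a => w a ≤ 1) (fun _ _ => LocA_add_le hw) (by simp) h

theorem LocA_trans {a b c : Λ} {t : ℝ} (h1 : w (a - b) < t) (h2 : w (b - c) < t) :
    w (a - c) < t := by
  rw [← sub_add_sub_cancel a b c]
  exact LocA_add_lt hw h1 h2

theorem LocA_le {a b : Λ} {t : ℝ} (hb : w b ≤ t) (h : w (a - b) < t) : w a ≤ t := by
  rw [← sub_add_cancel a b]
  exact LocA_add_le hw h.le hb

theorem LocA_eq {a b : Λ} (h : w (a - b) < w b) : w a = w b := by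
  refine le_antisymm (LocA_le hw le_rfl h) (not_lt.1 fun h1 => ?_)
  have := LocA_add_lt hw h1 ((w.map_sub b a).trans_lt h)
  rw [add_sub_cancel] at this
  exact lt_irrefl _ this

theorem LocA_pow {a b : Λ} (ha : w a ≤ 1) (hb : w b ≤ 1) (h : w (a - b) < 1) (n : ℕ) :
    w (a ^ n - b ^ n) < 1 := by
  rw [← (Commute.all a b).geom_sum₂_mul n, map_mul]
  refine mul_lt_one_of_nonneg_of_lt_one_right (LocA_sum_le hw _ _ fun i _ => ?_) (w.nonneg _) h
  rw [map_mul, map_pow, map_pow]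
  exact mul_le_one₀ (pow_le_one₀ (w.nonneg _) ha) (by positivity) (pow_le_one₀ (w.nonneg _) hb)

variable {C : Type} [Field C] {j : C →+* Λ} (hj : ∀ c, c ≠ 0 → w (j c) = 1)

include hj

omit hw in
theorem LocA_j_le (c : C) : w (j c) ≤ 1 := by
  by_cases h : c = 0
  · simp [h]
  · exact (hj c h).le

omit hw in
theorem LocA_j_eq {c c' : C} (h : w (j c - j c') < 1) : c = c' := by
  by_contra hne
  rw [← map_sub, hj _ (sub_ne_zero.2 hne)] at h
  exact lt_irrefl _ h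

theorem LocA_eval (g : C[X]) {a : Λ} {x : C} (h : w (a - j x) < 1) :
    w (eval₂ j a g - j (eval x g)) < 1 := by
  rw [eval₂_eq_sum_range, eval_eq_sum_range, map_sum, ← Finset.sum_sub_distrib]
  refine LocA_sum_lt hw _ _ fun i _ => ?_
  rw [map_mul, ← mul_sub, map_mul, map_pow j]
  exact mul_lt_one_of_nonneg_of_lt_one_right (LocA_j_le hj _) (w.nonneg _)
    (LocA_pow hw (LocA_le hw (LocA_j_le hj x) h) (LocA_j_le hj x) h i)

omit hw hj in
theorem LocA_root [IsAlgClosed C] {g : C[X]} (hg : g.Monic) {a : Λ} (h : w (eval₂ j a g) < 1) :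
    ∃ r, g.IsRoot r ∧ w (a - j r) < 1 := by
  by_contra hcon
  push Not at hcon
  refine absurd h (not_lt.2 ?_)
  rw [(IsAlgClosed.splits g).eq_prod_roots_of_monic hg, eval₂_multiset_prod, Multiset.map_map]
  refine Multiset.prod_induction (fun b => 1 ≤ w b) _ (fun b c hb hc => ?_) (by simp) ?_
  · rw [map_mul]
    exact one_le_mul_of_one_le_of_one_le hb hc
  · intro b hb
    obtain ⟨r, hr, rfl⟩ := Multiset.mem_map.1 hb
    simpa using hcon r ((mem_roots hg.ne_zero).1 hr)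

end small

theorem LocA_mem {Λ C : Type} [Field Λ] [Field C] [IsAlgClosed C] (j : C →+* Λ) {u : Λ} {n : ℕ}
    (hn : 0 < n) (hu : u ^ n = 1) : ∃ c, j c = u := by
  let _ : Algebra C Λ := j.toAlgebra
  have hi : IsIntegral C u := IsIntegral.of_pow hn (hu ▸ isIntegral_one)
  exact hi.mem_range_algebraMap_of_minpoly_splits (K := C) (IsAlgClosed.splits _)

theorem LocA_tors {Λ C : Type} [Field Λ] [Field C] (w : AbsoluteValue Λ ℝ) (j : C →+* Λ)
    (h : ∀ c : C, c ≠ 0 → ∃ n, 0 < n ∧ c ^ n = 1) (c : C) (hc : c ≠ 0) : w (j c) = 1 := by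
  obtain ⟨n, hn, h1⟩ := h c hc
  refine (pow_eq_one_iff_of_nonneg (w.nonneg _) hn.ne').1 ?_
  rw [← map_pow, ← map_pow, h1, map_one, map_one]

/-- Local data. -/
structure LD (L Λ C : Type) [Field L] [Field Λ] [Algebra L Λ] [Field C] where
  j : C →+* Λ
  w : AbsoluteValue Λ ℝ
  φ : C →+* C
  na : IsNonarchimedean w
  iso : ∀ (s : Λ ≃ₐ[L] Λ) a, w (s a) = w a
  int : ∀ a, w a ≤ 1 → ∀ i, w (algebraMap L Λ ((minpoly L a).coeff i)) ≤ 1
  tors : ∀ c : C, c ≠ 0 → ∃ n, 0 < n ∧ c ^ n = 1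
  res : ∀ a : L, w (algebraMap L Λ a) ≤ 1 → ∃ c, φ c = c ∧ w (algebraMap L Λ a - j c) < 1
  disc : ∀ a : L, a ≠ 0 → ∃ n : ℤ, w (algebraMap L Λ a) = 2 ^ n

namespace LD

variable {L Λ C : Type} [Field L] [Field Λ] [Algebra L Λ] [Field C] (D : LD L Λ C)

theorem w_j (c : C) (hc : c ≠ 0) : D.w (D.j c) = 1 := LocA_tors D.w D.j D.tors c hc

theorem phi_fix {c : C} {a : L} (h : D.j c = algebraMap L Λ a) : D.φ c = c := by
  obtain ⟨c', h1, h2⟩ := D.res a (h ▸ LocA_j_le D.w_j c)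
  rw [← h] at h2
  rw [LocA_j_eq D.w_j h2, h1]

variable [IsAlgClosed C]

theorem map_mem (s : Λ ≃ₐ[L] Λ) (c : C) : ∃ c', D.j c' = s (D.j c) := by
  by_cases hc : c = 0
  · exact ⟨0, by simp [hc]⟩
  · obtain ⟨n, hn, h⟩ := D.tors c hc
    exact LocA_mem D.j hn (by rw [← map_pow, ← map_pow, h, map_one, map_one])

variable [IsGalois L Λ]

theorem big_res {a : Λ} (ha : D.w a ≤ 1) : ∃ c, D.w (a - D.j c) < 1 := by
  have hi : IsIntegral L a := Algebra.IsIntegral.isIntegral a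
  choose c _ hc using fun i => D.res _ (D.int a ha i)
  let g : C[X] := X ^ (minpoly L a).natDegree +
    ∑ i ∈ Finset.range (minpoly L a).natDegree, Polynomial.C (c i) * X ^ i
  have hg : g.Monic := monic_X_pow_add (by
    rw [← Fin.sum_univ_eq_sum_range (fun i => Polynomial.C (c i) * X ^ i)]
    exact degree_sum_fin_lt _)
  have h0 := minpoly.aeval L a
  rw [aeval_eq_sum_range, Finset.sum_range_succ, (minpoly.monic hi).coeff_natDegree,
    one_smul] at h0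
  obtain ⟨r, -, hr⟩ := LocA_root (w := D.w) (j := D.j) hg (a := a) (by
    have e : eval₂ D.j a g = ∑ i ∈ Finset.range (minpoly L a).natDegree,
        -((algebraMap L Λ ((minpoly L a).coeff i) - D.j (c i)) * a ^ i) := by
      simp only [g, eval₂_add, eval₂_pow, eval₂_X, eval₂_finsetSum, eval₂_mul, eval₂_C, sub_mul,
        neg_sub, Finset.sum_sub_distrib, ← Algebra.smul_def]
      linear_combination h0
    rw [e]
    refine LocA_sum_lt D.na _ _ fun i _ => ?_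
    rw [AbsoluteValue.map_neg, map_mul, map_pow]
    exact mul_lt_one_of_nonneg_of_lt_one_left (D.w.nonneg _) (hc i)
      (pow_le_one₀ (D.w.nonneg _) ha))
  exact ⟨r, hr⟩

theorem one_frob (c : C) : ∃ s : Λ ≃ₐ[L] Λ, s (D.j c) = D.j (D.φ c) := by
  have hi : IsIntegral L (D.j c) := Algebra.IsIntegral.isIntegral _
  have hm := (minpoly.monic hi).map (algebraMap L Λ)
  obtain ⟨g, hg⟩ : (minpoly L (D.j c)).map (algebraMap L Λ) ∈ lifts D.j := by
    rw [(Normal.splits inferInstance (D.j c)).eq_prod_roots_of_monic hm]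
    refine Subsemiring.multiset_prod_mem _ _ fun p hp => ?_
    obtain ⟨r, hr, rfl⟩ := Multiset.mem_map.1 hp
    obtain ⟨s, hs⟩ := minpoly.exists_algEquiv_of_root' hi.isAlgebraic
      (show aeval r (minpoly L (D.j c)) = 0 by
        rw [← eval_map_algebraMap]
        exact (mem_roots hm.ne_zero).1 hr)
    obtain ⟨c', hc'⟩ := D.map_mem s c
    exact ⟨X - Polynomial.C c', by simp [hc', hs]⟩
  rw [coe_mapRingHom] at hg
  have h1 : g.map D.φ = g := by
    ext i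
    rw [coeff_map]
    exact D.phi_fix (by rw [← coeff_map, hg, coeff_map])
  have h2 : ∀ x, D.j (eval x g) = aeval (D.j x) (minpoly L (D.j c)) := fun x => by
    rw [← eval_map_algebraMap, ← hg, eval_map, eval₂_at_apply]
  have h3 : eval c g = 0 := D.j.injective (by rw [h2, minpoly.aeval, map_zero])
  refine minpoly.exists_algEquiv_of_root' hi.isAlgebraic ?_
  rw [← h2, ← h1, eval_map, eval₂_at_apply, h3, map_zero, map_zero]

theorem exists_frob : ∃ s : Λ ≃ₐ[L] Λ, ∀ c, s (D.j c) = D.j (D.φ c) := by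
  have hc : ∀ c : C, IsClosed {s : Λ ≃ₐ[L] Λ | s (D.j c) = D.j (D.φ c)} := by
    intro c
    obtain ⟨s, hs⟩ := D.one_frob c
    have h1 := (MulAction.stabilizer (Λ ≃ₐ[L] Λ) (D.j c)).isClosed_of_isOpen
      (stabilizer_isOpen_of_isIntegral (K := L) (D.j c))
    convert h1.preimage (continuous_const_mul s⁻¹) using 1
    ext t
    simp only [Set.mem_ofPred_eq, Set.mem_preimage, SetLike.mem_coe, MulAction.mem_stabilizer_iff,
      AlgEquiv.smul_def, AlgEquiv.mul_apply, AlgEquiv.aut_inv, AlgEquiv.symm_apply_eq, hs]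
  obtain ⟨s, -, hs⟩ := isCompact_univ.inter_iInter_nonempty _ hc fun T => by
    obtain ⟨n, hn, hT⟩ : ∃ n, 0 < n ∧ ∀ c ∈ T, c ≠ 0 → c ^ n = 1 := by
      classical
      induction T using Finset.induction_on with
      | empty => exact ⟨1, one_pos, by simp⟩
      | insert a T _ ih =>
        obtain ⟨n, hn, h⟩ := ih
        by_cases ha : a = 0
        · exact ⟨n, hn, fun c hc c0 => h c ((Finset.mem_insert.1 hc).resolve_left (ha ▸ c0)) c0⟩
        · obtain ⟨m, hm, h'⟩ := D.tors a ha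
          refine ⟨m * n, Nat.mul_pos hm hn, fun c hc c0 => ?_⟩
          rcases Finset.mem_insert.1 hc with rfl | hc
          · rw [pow_mul, h', one_pow]
          · rw [mul_comm, pow_mul, h c hc c0, one_pow]
    have : NeZero n := ⟨hn.ne'⟩
    obtain ⟨u, hu⟩ := IsCyclic.exists_monoid_generator (α := rootsOfUnity n C)
    obtain ⟨s, hs⟩ := D.one_frob ((u : Cˣ) : C)
    refine ⟨s, Set.mem_univ _, Set.mem_iInter₂.2 fun c hcT => ?_⟩
    by_cases c0 : c = 0
    · simp [c0]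
    · obtain ⟨i, hi⟩ := hu (rootsOfUnity.mkOfPowEq c (hT c hcT c0))
      have e : c = ((u : Cˣ) : C) ^ i := by
        have := congrArg (fun x : rootsOfUnity n C => ((x : Cˣ) : C)) hi
        simpa using this.symm
      rw [Set.mem_ofPred_eq, e, map_pow, map_pow, hs, map_pow, map_pow]
  exact ⟨s, fun c => Set.mem_iInter.1 hs c⟩

theorem res' (a : L) (ha : D.w (algebraMap L Λ a) ≤ 1) :
    ∃ (e : L) (c : C), algebraMap L Λ e = D.j c ∧ D.w (algebraMap L Λ (a - e)) < 1 := by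
  obtain ⟨c, -, hc⟩ := D.res a ha
  obtain ⟨e, he⟩ := (InfiniteGalois.mem_range_algebraMap_iff_fixed (k := L) (D.j c)).2 fun s => by
    obtain ⟨c', hc'⟩ := D.map_mem s c
    have h1 : D.w (algebraMap L Λ a - D.j c') < 1 := by
      rw [hc', ← s.commutes, ← map_sub, D.iso]
      exact hc
    rw [← hc', LocA_j_eq D.w_j (LocA_trans D.na ((D.w.map_sub _ _).trans_lt h1) hc)]
  exact ⟨e, c, he, by rw [map_sub, he]; exact hc⟩

theorem span_disc (s : Finset C) (l : C → L) :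
    ∃ b : L, D.w (∑ c ∈ s, algebraMap L Λ (l c) * D.j c) = D.w (algebraMap L Λ b) := by
  classical
  induction s using Finset.strongInduction generalizing l with
  | H s ih =>
    rcases s.eq_empty_or_nonempty with rfl | hne
    · exact ⟨0, by simp⟩
    obtain ⟨c0, h0, hmax⟩ := s.exists_max_image (fun c => D.w (algebraMap L Λ (l c))) hne
    by_cases hl : l c0 = 0
    · refine ⟨0, congrArg D.w ((Finset.sum_eq_zero fun c hc => ?_).trans (map_zero _).symm)⟩
      have := hmax c hc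
      rw [hl, map_zero, map_zero] at this
      rw [D.w.nonpos_iff.1 this, zero_mul]
    have hpos : 0 < D.w (algebraMap L Λ (l c0)) := D.w.pos (by simpa using hl)
    have hle : ∀ c ∈ s, D.w (algebraMap L Λ (l c / l c0)) ≤ 1 := fun c hc => by
      rw [map_div₀, map_div₀]
      exact (div_le_one hpos).2 (hmax c hc)
    choose! e d hed hsm using fun c hc => D.res' _ (hle c hc)
    suffices h : ∃ b : L, D.w (∑ c ∈ s, algebraMap L Λ (l c / l c0) * D.j c) =
        D.w (algebraMap L Λ b) by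
      obtain ⟨b, hb⟩ := h
      refine ⟨l c0 * b, ?_⟩
      rw [map_mul, map_mul, ← hb, ← map_mul, Finset.mul_sum]
      refine congrArg D.w (Finset.sum_congr rfl fun c _ => ?_)
      rw [← mul_assoc, ← map_mul, mul_div_cancel₀ _ hl]
    have e1 : ∑ c ∈ s, algebraMap L Λ (l c / l c0) * D.j c - D.j (∑ c ∈ s, d c * c) =
        ∑ c ∈ s, algebraMap L Λ (l c / l c0 - e c) * D.j c := by
      rw [map_sum, ← Finset.sum_sub_distrib]
      refine Finset.sum_congr rfl fun c hc => ?_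
      rw [map_mul, ← hed c hc, map_sub, sub_mul]
    by_cases hD : ∑ c ∈ s, d c * c = 0
    · rw [hD, map_zero, sub_zero] at e1
      have h1 : l c0 / l c0 - e c0 = 0 := by
        have h2 := hsm c0 h0
        rw [div_self hl, map_sub, map_one, hed c0 h0, ← map_one D.j] at h2
        refine (algebraMap L Λ).injective ?_
        rw [div_self hl, map_sub, map_one, hed c0 h0, ← LocA_j_eq D.w_j h2, map_one, sub_self,
          map_zero]
      rw [e1, ← Finset.add_sum_erase s _ h0, h1, map_zero, zero_mul, zero_add]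
      exact ih _ (Finset.erase_ssubset h0) fun c => l c / l c0 - e c
    · refine ⟨1, ?_⟩
      rw [map_one, map_one, ← D.w_j _ hD]
      refine LocA_eq D.na ?_
      rw [e1, D.w_j _ hD]
      refine LocA_sum_lt D.na _ _ fun c hc => ?_
      rw [map_mul]
      exact mul_lt_one_of_nonneg_of_lt_one_left (D.w.nonneg _) (hsm c hc) (LocA_j_le D.w_j c)

/-- the maximal unramified extension -/
noncomputable def M : IntermediateField L Λ := IntermediateField.adjoin L (Set.range D.j)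

theorem M_disc {a : Λ} (ha : a ∈ D.M) (a0 : a ≠ 0) : ∃ n : ℤ, D.w a = 2 ^ n := by
  have h1 : a ∈ (IntermediateField.adjoin L (Set.range D.j)).toSubalgebra := ha
  rw [IntermediateField.adjoin_toSubalgebra_of_isAlgebraic
    fun x _ => Algebra.IsAlgebraic.isAlgebraic x] at h1
  have h2 : a ∈ Submodule.span L (Set.range D.j) := by
    have h3 : a ∈ Subalgebra.toSubmodule (Algebra.adjoin L (Set.range D.j)) := h1
    rw [Algebra.adjoin_eq_span] at h3
    have h4 : Submonoid.closure (Set.range D.j) = MonoidHom.mrange D.j :=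
      Submonoid.closure_eq (MonoidHom.mrange D.j)
    rw [h4] at h3
    exact h3
  obtain ⟨l, rfl⟩ := Finsupp.mem_span_range_iff_exists_finsupp.1 h2
  obtain ⟨b, hb⟩ := D.span_disc l.support l
  have e : (l.sum fun i a => a • D.j i) = ∑ c ∈ l.support, algebraMap L Λ (l c) * D.j c := by
    simp only [Finsupp.sum, Algebra.smul_def]
  rw [← e] at hb
  rw [hb]
  refine D.disc b fun h => a0 ?_
  rw [h, map_zero, map_zero] at hb
  exact D.w.eq_zero.1 hb

omit [IsAlgClosed C] [IsGalois L Λ] in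
theorem fix_j (g : Λ ≃ₐ[D.M] Λ) (c : C) : g (D.j c) = D.j c :=
  g.commutes ⟨D.j c, IntermediateField.subset_adjoin _ _ ⟨c, rfl⟩⟩

/-- inertia inside the decomposition group -/
noncomputable def incl : (Λ ≃ₐ[D.M] Λ) →* (Λ ≃ₐ[L] Λ) where
  toFun g := g.restrictScalars L
  map_one' := rfl
  map_mul' _ _ := rfl

omit [IsAlgClosed C] [IsGalois L Λ] in
theorem exists_incl (s : Λ ≃ₐ[L] Λ) (hs : ∀ c, s (D.j c) = D.j c) : ∃ g, D.incl g = s := by
  have key : ∀ z ∈ D.M, s z = z := by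
    intro z hz
    induction hz using IntermediateField.adjoin_induction with
    | mem y hy =>
      obtain ⟨c, rfl⟩ := hy
      exact hs c
    | algebraMap y => exact s.commutes y
    | add y z _ _ ihy ihz => rw [map_add, ihy, ihz]
    | inv y _ ih => rw [map_inv₀, ih]
    | mul y z _ _ ihy ihz => rw [map_mul, ihy, ihz]
  exact ⟨{ s.toRingEquiv with commutes' := fun z => key z z.2 }, rfl⟩

theorem fix_res (s : Λ ≃ₐ[L] Λ) (hs : ∀ c, s (D.j c) = D.j c) (a : Λ) (ha : D.w a ≤ 1) :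
    D.w (s a - a) < 1 := by
  obtain ⟨c, hc⟩ := D.big_res ha
  refine LocA_trans D.na ?_ ((D.w.map_sub _ _).trans_lt hc)
  rw [← hs, ← map_sub, D.iso]
  exact hc

theorem frob_res {Q : ℕ} (hQ : ∀ c, D.φ c = c ^ Q) (s : Λ ≃ₐ[L] Λ)
    (hs : ∀ c, s (D.j c) = D.j (D.φ c)) (a : Λ) (ha : D.w a ≤ 1) : D.w (s a - a ^ Q) < 1 := by
  obtain ⟨c, hc⟩ := D.big_res ha
  refine LocA_trans D.na (b := D.j c ^ Q) ?_
    (LocA_pow D.na (LocA_j_le D.w_j c) ha ((D.w.map_sub _ _).trans_lt hc) Q)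
  rw [← map_pow, ← hQ, ← hs, ← map_sub, D.iso]
  exact hc

/-- the tame data of the inertia group -/
def ti {z : C} (hz : IsPrimitiveRoot z 6) {π : Λ} (hπ : D.w π = 2⁻¹)
    (hf : ∀ s : Λ ≃ₐ[L] Λ, (∀ c, s (D.j c) = D.j c) → s π = π)
    (hr : ∀ n : ℕ, ∃ r : Λ, r ^ 6 ^ n = π) : TI D.M Λ where
  w := D.w
  z := D.j z
  π := π
  hz := hz.map_of_injective D.j.injective
  hπ := hπ
  fixπ g := hf (D.incl g) (D.fix_j g)
  fixu g u n hn hu := by
    obtain ⟨c, rfl⟩ := LocA_mem D.j hn hu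
    exact D.fix_j g c
  na := D.na
  six := by
    rw [← map_ofNat D.j 6]
    exact D.w_j _ (by exact_mod_cast hz.neZero'.out)
  iso g a := D.iso (D.incl g) a
  res g := D.fix_res (D.incl g) (D.fix_j g)
  disc a a0 h := by
    obtain ⟨b, rfl⟩ := (InfiniteGalois.mem_range_algebraMap_iff_fixed (k := D.M) a).2 h
    exact D.M_disc b.2 a0
  root := hr

theorem main {z : C} (hz : IsPrimitiveRoot z 6) {π : Λ} (hπ : D.w π = 2⁻¹)
    (hf : ∀ s : Λ ≃ₐ[L] Λ, (∀ c, s (D.j c) = D.j c) → s π = π)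
    (hr : ∀ n : ℕ, ∃ r : Λ, r ^ 6 ^ n = π) {Q : ℕ} (hQ : ∀ c, D.φ c = c ^ Q)
    {σ : Λ ≃ₐ[L] Λ} (hσ : ∀ c, σ (D.j c) = D.j (D.φ c)) (hσπ : σ π = π) :
    ∃ τ : Λ ≃ₐ[L] Λ, (∀ c, τ (D.j c) = D.j c) ∧ (∀ r, r ^ 6 = π → τ r = D.j z * r) ∧
      ∀ N : Subgroup (Λ ≃ₐ[L] Λ),
        (∀ g : Λ ≃ₐ[L] Λ, (∀ c, g (D.j c) = D.j c) → ∀ n ∈ N, g * n * g⁻¹ ∈ N) →
        (∃ S : Finset Λ, ∀ g : Λ ≃ₐ[L] Λ, (∀ c, g (D.j c) = D.j c) → (∀ a ∈ S, g a = a) → g ∈ N) →
        (∀ g : Λ ≃ₐ[L] Λ, (∀ c, g (D.j c) = D.j c) → ∃ i : ℕ, g ^ 6 ^ i ∈ N) →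
        (∀ a, a ≠ 0 → (∀ n ∈ N, n a = a) → τ a = a → ∃ n : ℤ, D.w a = 2 ^ n) ∧
          (σ * τ)⁻¹ * (τ ^ Q * σ) ∈ N := by
  obtain ⟨τ, hτ⟩ := (D.ti hz hπ hf hr).exists_tau
  refine ⟨D.incl τ, D.fix_j τ, hτ, fun N h1 ⟨S, h2⟩ h3 => ?_⟩
  have : (N.comap D.incl).Normal := ⟨fun n hn g => by
    rw [Subgroup.mem_comap, map_mul, map_mul, map_inv]
    exact h1 _ (D.fix_j g) _ hn⟩
  have h2' : ∀ g : Λ ≃ₐ[D.M] Λ, (∀ a ∈ S, g a = a) → g ∈ N.comap D.incl :=
    fun g hg => h2 _ (D.fix_j g) hg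
  have h3' : ∀ g : Λ ≃ₐ[D.M] Λ, ∃ i : ℕ, g ^ 6 ^ i ∈ N.comap D.incl := fun g => by
    obtain ⟨i, hi⟩ := h3 (D.incl g) (D.fix_j g)
    exact ⟨i, by rw [Subgroup.mem_comap, map_pow]; exact hi⟩
  refine ⟨fun a a0 ha hτa => (D.ti hz hπ hf hr).disc a a0 fun g => ?_, ?_⟩
  · obtain ⟨m, hm⟩ := TI.cyclic hτ (N.comap D.incl) S h2' h3' g
    have h4 : ((τ ^ m)⁻¹ * g) a = a := ha _ hm
    have h5 : (τ ^ m) a = a :=
      (MulAction.stabilizer (Λ ≃ₐ[D.M] Λ) a).zpow_mem (MulAction.mem_stabilizer_iff.2 hτa) m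
    rw [AlgEquiv.mul_apply, AlgEquiv.aut_inv, AlgEquiv.symm_apply_eq] at h4
    exact h4.trans h5
  · obtain ⟨n, r, hr', hN⟩ := (D.ti hz hπ hf hr).mem_of_fix (N.comap D.incl) S h2' h3'
    replace hr' : r ^ 6 ^ (n + 1) = π := hr'
    have hpos : 0 < 6 ^ (n + 1) := by positivity
    have r0 := (D.ti hz hπ hf hr).root_ne hpos hr'
    have π0 : π ≠ 0 := (D.ti hz hπ hf hr).π_ne
    have hQτ : ∀ c, (D.incl τ ^ Q) (D.j c) = D.j c := fun c => by
      rw [← map_pow]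
      exact D.fix_j _ c
    have hτc : ∀ c, D.incl τ (D.j c) = D.j c := D.fix_j τ
    obtain ⟨g, hg⟩ := D.exists_incl ((σ * D.incl τ)⁻¹ * (D.incl τ ^ Q * σ)) fun c => by
      rw [AlgEquiv.mul_apply, AlgEquiv.aut_inv, AlgEquiv.symm_apply_eq, AlgEquiv.mul_apply,
        AlgEquiv.mul_apply, hτc, hσ, hQτ]
    rw [← hg]
    refine hN g ?_
    change D.incl g r = r
    obtain ⟨u, hu⟩ := LocA_mem D.j hpos (u := σ r / r)
      (by rw [div_pow, ← map_pow, hr', hσπ, div_self π0])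
    obtain ⟨η, hη⟩ := LocA_mem D.j hpos (u := D.incl τ r / r)
      (by rw [div_pow, ← map_pow, hr', hf _ hτc, div_self π0])
    replace hu := ((eq_div_iff r0).1 hu).symm
    replace hη := ((eq_div_iff r0).1 hη).symm
    have hp : ∀ i : ℕ, (D.incl τ ^ i) r = D.j η ^ i * r := by
      intro i
      induction i with
      | zero => simp
      | succ i ih =>
        rw [pow_succ', AlgEquiv.mul_apply, ih, map_mul, map_pow, hτc, hη]
        ring
    rw [hg, AlgEquiv.mul_apply, AlgEquiv.aut_inv, AlgEquiv.symm_apply_eq, AlgEquiv.mul_apply,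
      AlgEquiv.mul_apply, hη, map_mul, hσ, hu, map_mul, hQτ, hp, hQ, map_pow]
    ring

end LD

end Pool.Agent.Quad
end

-- merged part: Pool.Agent.Work.MP_60d5ce_nt.Qt.LocC
section
/-!
# Absolute values of the rational function field, and the geometric point of a place
-/

namespace Pool.Agent.Quad

open Polynomial WithZero IsDedekindDomain

theorem LocC_abs {K : Type} [Field K] (ν : Valuation K ℤᵐ⁰) : ∃ w : AbsoluteValue K ℝ,
    IsNonarchimedean w ∧ (∀ a (n : ℤ), ν a = exp n → w a = 2 ^ n) ∧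
      (∀ a, a ≠ 0 → ∃ n : ℤ, w a = 2 ^ n) ∧ ∀ a, w a < 1 ↔ ν a < 1 := by
  have hm := WithZeroMulInt.toNNReal_strictMono (e := 2) one_lt_two
  have hna : ∀ x y : K, (WithZeroMulInt.toNNReal (e := 2) two_ne_zero (ν (x + y)) : ℝ) ≤
      max (WithZeroMulInt.toNNReal (e := 2) two_ne_zero (ν x) : ℝ)
        (WithZeroMulInt.toNNReal (e := 2) two_ne_zero (ν y) : ℝ) := by
    intro x y
    rcases le_max_iff.1 (ν.map_add x y) with h | h
    · exact le_max_of_le_left (NNReal.coe_le_coe.2 (hm.monotone h))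
    · exact le_max_of_le_right (NNReal.coe_le_coe.2 (hm.monotone h))
  let w : AbsoluteValue K ℝ :=
    { toFun := fun x => (WithZeroMulInt.toNNReal (e := 2) two_ne_zero (ν x) : ℝ)
      map_mul' := fun x y => by simp
      nonneg' := fun x => NNReal.coe_nonneg _
      eq_zero' := fun x => by simp
      add_le' := fun x y => (hna x y).trans
        (max_le_add_of_nonneg (NNReal.coe_nonneg _) (NNReal.coe_nonneg _)) }
  have h1 : ∀ a (n : ℤ), ν a = exp n → w a = 2 ^ n := by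
    intro a n h
    change (WithZeroMulInt.toNNReal (e := 2) two_ne_zero (ν a) : ℝ) = _
    rw [h, WithZeroMulInt.toNNReal_neg_apply _ exp_ne_zero]
    push_cast
    rfl
  refine ⟨w, hna, h1, fun a ha => ⟨_, h1 a _ (exp_log (by simpa using ha)).symm⟩, fun a => ?_⟩
  rw [← WithZeroMulInt.toNNReal_lt_one_iff (e := 2) one_lt_two]
  exact NNReal.coe_lt_one

variable {k : Type} [Field k]

/-- the properties of the absolute value at a place -/
def LocC_Good (v : Pl k) (w : RatFunc k → ℝ) : Prop :=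
  match v with
  | none => w RatFunc.X = 2 ∧ ∀ a, w a ≤ 1 → ∃ c : k, w (a - algebraMap k _ c) < 1
  | some p => w (algebraMap k[X] _ p.1) = 2⁻¹ ∧
      ∀ a, w a ≤ 1 → ∃ b : k[X], w (a - algebraMap k[X] _ b) < 1

theorem LocC_exists (v : Pl k) : ∃ w : AbsoluteValue (RatFunc k) ℝ, IsNonarchimedean w ∧
    (∀ a, a ≠ 0 → ∃ n : ℤ, w a = 2 ^ n) ∧ LocC_Good v w ∧ ∃ a, a ≠ 0 ∧ w a ≠ 1 := by
  classical
  rcases v with _ | ⟨p, hm, hp⟩
  · obtain ⟨w, h1, h2, h3, -⟩ := LocC_abs (RatFunc.inftyValuation k)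
    have hX : w RatFunc.X = 2 := by simpa using h2 _ _ (RatFunc.inftyValuation.X k)
    have hb : ∀ b : k[X], b ≠ 0 → w (algebraMap k[X] _ b) = 2 ^ (b.natDegree : ℤ) :=
      fun b hb => h2 _ _ (RatFunc.inftyValuation.polynomial k hb)
    refine ⟨w, h1, h3, ⟨hX, fun a ha => ?_⟩, RatFunc.X, RatFunc.X_ne_zero, by rw [hX]; norm_num⟩
    have hd := hb _ a.denom_ne_zero
    have hd0 : algebraMap k[X] (RatFunc k) a.denom ≠ 0 := RatFunc.algebraMap_ne_zero a.denom_ne_zero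
    have hdeg : a.num.natDegree ≤ a.denom.natDegree := by
      by_cases h0 : a.num = 0
      · simp [h0]
      · rw [← a.num_div_denom, map_div₀, hb _ h0, hd, div_le_one (by positivity),
          zpow_le_zpow_iff_right₀ one_lt_two] at ha
        exact_mod_cast ha
    obtain ⟨c, hc⟩ : ∃ c, Polynomial.C c = a.num /ₘ a.denom := natDegree_eq_zero.1 (by
      rw [natDegree_divByMonic _ a.monic_denom]
      omega)
    refine ⟨c, ?_⟩
    have e : a - algebraMap k _ c = algebraMap k[X] _ (a.num %ₘ a.denom) /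
        algebraMap k[X] (RatFunc k) a.denom := by
      rw [eq_div_iff hd0, eq_sub_of_add_eq (modByMonic_add_div a.num a.denom), ← hc, map_sub,
        map_mul, (div_eq_iff hd0).1 a.num_div_denom, RatFunc.algebraMap_C, RatFunc.algebraMap_eq_C]
      ring
    rw [e, map_div₀, hd, div_lt_one (by positivity)]
    by_cases h0 : a.num %ₘ a.denom = 0
    · rw [h0, map_zero, map_zero]
      positivity
    · rw [hb _ h0, zpow_lt_zpow_iff_right₀ one_lt_two]
      exact_mod_cast natDegree_lt_natDegree h0 (degree_modByMonic_lt _ a.monic_denom)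
  · let P : HeightOneSpectrum k[X] := ⟨Ideal.span {p},
      (Ideal.span_singleton_prime hp.ne_zero).2 hp.prime,
      fun e => hp.ne_zero (Ideal.span_singleton_eq_bot.1 e)⟩
    obtain ⟨w, h1, h2, h3, h4⟩ := LocC_abs (P.valuation (RatFunc k))
    have hself : w (algebraMap k[X] _ p) = 2⁻¹ := by
      simpa using h2 _ _ ((P.valuation_of_algebraMap (K := RatFunc k) p).trans
        (P.intValuation_singleton hp.ne_zero rfl))
    have hlt : ∀ b : k[X], w (algebraMap k[X] _ b) < 1 ↔ p ∣ b := fun b => by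
      rw [h4, P.valuation_lt_one_iff_mem]
      exact Ideal.mem_span_singleton
    refine ⟨w, h1, h3, ⟨hself, fun a ha => ?_⟩, algebraMap k[X] _ p,
      RatFunc.algebraMap_ne_zero hp.ne_zero, by rw [hself]; norm_num⟩
    have hd0 : algebraMap k[X] (RatFunc k) a.denom ≠ 0 := RatFunc.algebraMap_ne_zero a.denom_ne_zero
    have e : algebraMap k[X] (RatFunc k) a.num = a * algebraMap k[X] (RatFunc k) a.denom :=
      (div_eq_iff hd0).1 a.num_div_denom
    have hnd : ¬ p ∣ a.denom := fun h => by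
      refine hp.not_isUnit (a.isCoprime_num_denom.isUnit_of_dvd' ((hlt _).1 ?_) h)
      rw [e, map_mul]
      exact mul_lt_one_of_nonneg_of_lt_one_right ha (w.nonneg _) ((hlt _).2 h)
    obtain ⟨s, t, hst⟩ := hp.coprime_iff_not_dvd.2 hnd
    refine ⟨a.num * t, ?_⟩
    have e2 : a - algebraMap k[X] (RatFunc k) (a.num * t) =
        a * algebraMap k[X] (RatFunc k) (s * p) := by
      rw [eq_sub_of_add_eq hst, map_sub, map_one, map_mul, map_mul, e]
      ring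
    rw [e2, map_mul]
    exact mul_lt_one_of_nonneg_of_lt_one_right ha (w.nonneg _) ((hlt _).2 (dvd_mul_left _ _))

variable [Fintype k] {Ω : Type} [Field Ω] [Algebra (RatFunc k) Ω] [Algebra k Ω]
  [IsScalarTower k (RatFunc k) Ω]

omit [Algebra (RatFunc k) Ω] [IsScalarTower k (RatFunc k) Ω] in
theorem LocC_tors (c : Kb k Ω) (hc : c ≠ 0) : ∃ n, 0 < n ∧ c ^ n = 1 := by
  have hi : IsIntegral k c := Algebra.IsIntegral.isIntegral c
  have := IntermediateField.adjoin.finiteDimensional hi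
  have : Finite (IntermediateField.adjoin k {c}) := Module.finite_of_finite k
  have := Fintype.ofFinite (IntermediateField.adjoin k {c})
  refine ⟨Fintype.card (IntermediateField.adjoin k {c}) - 1,
    Nat.sub_pos_of_lt Fintype.one_lt_card, ?_⟩
  have h := FiniteField.pow_card_sub_one_eq_one (IntermediateField.AdjoinSimple.gen k c)
    fun h => hc (congrArg Subtype.val h)
  exact congrArg Subtype.val h

variable {Λ : Type} [Field Λ] [Algebra (RatFunc k) Λ]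

/-- the embedding of the constants -/
noncomputable def LocC_j (ι : Ω →ₐ[RatFunc k] Λ) : Kb k Ω →+* Λ :=
  ι.toRingHom.comp (algebraMap (Kb k Ω) Ω)

omit [Fintype k] [IsScalarTower k (RatFunc k) Ω] in
theorem LocC_j_apply (ι : Ω →ₐ[RatFunc k] Λ) (c : Kb k Ω) : LocC_j ι c = ι c := rfl

theorem LocC_eval (ι : Ω →ₐ[RatFunc k] Λ) (b : k[X]) :
    eval₂ (LocC_j ι) (ι (tt k Ω)) (b.map (algebraMap k (Kb k Ω))) =
      algebraMap (RatFunc k) Λ (algebraMap k[X] _ b) := by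
  rw [← ι.commutes, ← aeval_tt_base, ← aeval_tt_map, aeval_def]
  exact (hom_eval₂ _ _ ι.toRingHom _).symm

variable [IsSepClosure (RatFunc k) Ω]

theorem LocC_point (ι : Ω →ₐ[RatFunc k] Λ) {w : AbsoluteValue Λ ℝ} (hw : IsNonarchimedean w)
    (v : Pl k) (hv : LocC_Good v fun a => w (algebraMap (RatFunc k) Λ a)) :
    ∃ x : Kb k Ω, (∀ p, v = some p → aeval x p.1 = 0) ∧ w (ι (unif v x)) = 2⁻¹ ∧
      (frob k Ω ^ pdg v) x = x ∧ ∀ a : RatFunc k, w (algebraMap _ Λ a) ≤ 1 →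
        ∃ c : Kb k Ω, (frob k Ω ^ pdg v) c = c ∧ w (algebraMap _ Λ a - ι c) < 1 := by
  have ht : ι (tt k Ω) = algebraMap _ Λ (RatFunc.X : RatFunc k) := ι.commutes _
  rcases v with _ | ⟨p, hm, hp⟩
  · obtain ⟨h1, h2⟩ := hv
    refine ⟨0, fun p h => (by cases h), ?_, map_zero _, fun a ha => ?_⟩
    · change w (ι (tt k Ω)⁻¹) = _
      rw [map_inv₀, map_inv₀, ht]
      exact congrArg _ h1
    · obtain ⟨c, hc⟩ := h2 a ha
      refine ⟨algebraMap k _ c, AlgEquiv.commutes _ c, ?_⟩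
      have e : ι (algebraMap k (Kb k Ω) c) = algebraMap _ Λ (algebraMap k (RatFunc k) c) := by
        rw [← ι.commutes, ← IsScalarTower.algebraMap_apply]
        rfl
      rw [e, ← map_sub]
      exact hc
  · obtain ⟨h1, h3⟩ := hv
    have hj := LocA_tors w (LocC_j ι) LocC_tors
    have h4 : w (eval₂ (LocC_j ι) (ι (tt k Ω)) (p.map (algebraMap k (Kb k Ω)))) = 2⁻¹ := by
      rw [LocC_eval]
      exact h1
    obtain ⟨x, hx, hlt⟩ := LocA_root (w := w) (j := LocC_j ι) (hm.map (algebraMap k (Kb k Ω)))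
      (a := ι (tt k Ω)) (by rw [h4]; norm_num)
    have hx' : aeval x p = 0 := by rw [← eval_map_algebraMap]; exact hx
    have hfix : (frob k Ω ^ p.natDegree) x = x := by
      have h5 := aeval_eq_zero_of_dvd_aeval_eq_zero
        (hp.natDegree_dvd_iff_dvd_X_pow_card_pow_sub_X.1 dvd_rfl) hx'
      rw [map_sub, map_pow, aeval_X, sub_eq_zero, Nat.card_eq_fintype_card] at h5
      rw [frob_pow_apply, h5]
    refine ⟨x, fun q h => (by cases h; exact hx'), ?_, hfix, fun a ha => ?_⟩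
    · obtain ⟨g, hg⟩ := dvd_iff_isRoot.2 hx
      have hg0 : eval x g ≠ 0 := fun h => by
        obtain ⟨g', rfl⟩ := dvd_iff_isRoot.2 h
        refine not_isUnit_X_sub_C x
          (((PerfectField.separable_of_irreducible hp).map
            (f := algebraMap k (Kb k Ω))).squarefree (X - Polynomial.C x) ⟨g', ?_⟩)
        rw [hg, mul_assoc]
      have h5 := LocA_eval hw hj g hlt
      have h6 := LocA_eq hw (h5.trans_eq (hj _ hg0).symm)
      rw [hg, eval₂_mul, map_mul, h6, hj _ hg0, mul_one, eval₂_sub, eval₂_X, eval₂_C] at h4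
      change w (ι (tt k Ω - x)) = _
      rw [map_sub]
      exact h4
    · obtain ⟨b, hb⟩ := h3 a ha
      refine ⟨aeval x b, (aeval_algHom_apply _ x b).symm.trans (congrArg (aeval · b) hfix), ?_⟩
      have h5 := LocA_eval hw hj (b.map (algebraMap k (Kb k Ω))) hlt
      rw [LocC_eval, eval_map_algebraMap] at h5
      refine LocA_trans hw ?_ h5
      rw [← map_sub]
      exact hb

end Pool.Agent.Quad
end

-- merged part: Pool.Agent.Work.MP_60d5ce_nt.Qt.LocEx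
section
/-!
# Existence of local models

Port of `Sm/LocEx.lean`.  `z` is a primitive sixth root of unity in the algebraically closed field
`Kb k Ω`; for `r ^ 2 = unif` take `s ^ 6 = unif` in `Λ`, `ι r = ± s ^ 3`, and `z ^ 3 = -1`.
-/

namespace Pool.Agent.Quad

variable {k : Type} [Field k] [Fintype k] {Ω : Type} [Field Ω] [Algebra (RatFunc k) Ω]
  [Algebra k Ω] [IsScalarTower k (RatFunc k) Ω] [IsSepClosure (RatFunc k) Ω]

omit [IsSepClosure (RatFunc k) Ω] [IsScalarTower k (RatFunc k) Ω] in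
theorem LocEx_ext {g h : WG k Ω} (h1 : gal g = gal h) (h2 : wdeg g = wdeg h) : g = h :=
  Subtype.ext (Prod.ext h1 (Multiplicative.toAdd.injective h2))

theorem LocEx_res {F Ω L Λ : Type} [Field F] [Field Ω] [Algebra F Ω] [Normal F Ω] [Field L]
    [Field Λ] [Algebra F L] [Algebra L Λ] [Algebra F Λ] [IsScalarTower F L Λ] (ι : Ω →ₐ[F] Λ) :
    ∃ ρ : (Λ ≃ₐ[L] Λ) →* (Ω ≃ₐ[F] Ω), ∀ s a, ι (ρ s a) = s (ι a) := by
  let _ : Algebra Ω Λ := ι.toRingHom.toAlgebra
  have _ : IsScalarTower F Ω Λ := IsScalarTower.of_algebraMap_eq fun x => (ι.commutes x).symm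
  exact ⟨MonoidHom.mk' (fun s => (s.restrictScalars F).restrictNormal Ω) fun s t =>
    map_mul (AlgEquiv.restrictNormalHom Ω) (s.restrictScalars F) (t.restrictScalars F),
    fun s a => AlgEquiv.restrictNormal_commutes (s.restrictScalars F) Ω a⟩

theorem LocEx_w (L Λ : Type) [NontriviallyNormedField L] [CompleteSpace L] [IsUltrametricDist L]
    [Field Λ] [Algebra L Λ] [Algebra.IsAlgebraic L Λ] :
    ∃ w : AbsoluteValue Λ ℝ, ∀ a, w a = spectralNorm L Λ a :=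
  ⟨{ toFun := spectralNorm L Λ
     map_mul' := spectralAlgNorm_mul
     nonneg' := spectralNorm_nonneg
     eq_zero' := fun x => ⟨fun h => eq_zero_of_map_spectralNorm_eq_zero h
       (Algebra.IsAlgebraic.isAlgebraic x), fun h => h ▸ spectralNorm_zero⟩
     add_le' := fun _ _ => isNonarchimedean_spectralNorm.add_le spectralNorm_nonneg },
    fun _ => rfl⟩

theorem LocEx_of (h6 : (6 : k) ≠ 0) (v : Pl k) (L Λ : Type)
    [NontriviallyNormedField L] [CompleteSpace L] [IsUltrametricDist L] [Algebra (RatFunc k) L]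
    [Field Λ] [Algebra L Λ] [Algebra (RatFunc k) Λ] [IsScalarTower (RatFunc k) L Λ]
    [IsSepClosure L Λ] (hd : DenseRange (algebraMap (RatFunc k) L))
    (hdisc : ∀ a : RatFunc k, a ≠ 0 → ∃ n : ℤ, ‖algebraMap _ L a‖ = 2 ^ n)
    (hv : LocC_Good v fun a => ‖algebraMap (RatFunc k) L a‖) : Nonempty (Loc Ω v) := by
  classical
  have : IsSepClosed Λ := IsSepClosure.sep_closed L
  let ι : Ω →ₐ[RatFunc k] Λ := IsSepClosed.lift
  obtain ⟨w, hw⟩ := LocEx_w L Λ
  have hna : IsNonarchimedean w := fun a b => by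
    simp only [hw]
    exact isNonarchimedean_spectralNorm a b
  have hiso : ∀ (s : Λ ≃ₐ[L] Λ) a, w (s a) = w a := fun s a => by
    rw [hw, hw, ← spectralNorm_eq_of_equiv]
  have hext : ∀ a : L, w (algebraMap L Λ a) = ‖a‖ := fun a => by rw [hw, spectralNorm_extends]
  have hF : ∀ a : RatFunc k, algebraMap _ Λ a = algebraMap L Λ (algebraMap _ L a) :=
    IsScalarTower.algebraMap_apply _ L Λ
  have happ : ∀ (a : L) (ε : ℝ), 0 < ε → ∃ b : RatFunc k,
      w (algebraMap L Λ a - algebraMap _ Λ b) < ε := fun a ε hε => by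
    obtain ⟨b, hb⟩ := hd.exists_dist_lt a hε
    exact ⟨b, by rwa [hF, ← map_sub, hext, ← dist_eq_norm]⟩
  have hL : ∀ a : L, a ≠ 0 → ∃ n : ℤ, ‖a‖ = 2 ^ n := fun a ha => by
    obtain ⟨b, hb⟩ := happ a _ (norm_pos_iff.2 ha)
    have h1 := LocA_eq hna ((w.map_sub _ _).trans_lt (hb.trans_eq (hext a).symm))
    rw [hF, hext, hext] at h1
    rw [← h1]
    refine hdisc b fun h => ha ?_
    rw [h, map_zero, norm_zero] at h1
    exact norm_eq_zero.1 h1.symm
  obtain ⟨x, hx1, hx2, hx3, hx4⟩ := LocC_point ι hna v (by simpa only [hF, hext] using hv)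
  let D : LD L Λ (Kb k Ω) :=
    { j := LocC_j ι
      w := w
      φ := (frob k Ω ^ pdg v : Kb k Ω ≃ₐ[k] Kb k Ω)
      na := hna
      iso := hiso
      int := fun a ha i => by
        rw [hw] at ha
        rw [hext]
        exact (spectralValue_le_one_iff (minpoly.monic (Algebra.IsIntegral.isIntegral a))).1 ha i
      tors := LocC_tors
      res := fun a ha => by
        obtain ⟨b, hb⟩ := happ a 1 one_pos
        obtain ⟨c, h1, h2⟩ := hx4 b (LocA_le hna ha ((w.map_sub _ _).trans_lt hb))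
        exact ⟨c, h1, LocA_trans hna hb h2⟩
      disc := fun a ha => by
        rw [hext]
        exact hL a ha }
  have hQ : ∀ c, D.φ c = c ^ Fintype.card k ^ pdg v := frob_pow_apply (pdg v)
  obtain ⟨σ, hσ⟩ := D.exists_frob
  have hfix : ∀ s : Λ ≃ₐ[L] Λ, s (ι x) = ι x → s (ι (unif v x)) = ι (unif v x) := by
    intro s hs
    have ht : s (ι (tt k Ω)) = ι (tt k Ω) := by
      rw [tt, ι.commutes, hF, s.commutes]
    rcases v with _ | p
    · change s (ι (tt k Ω)⁻¹) = ι (tt k Ω)⁻¹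
      rw [map_inv₀, map_inv₀, ht]
    · change s (ι (tt k Ω - x)) = ι (tt k Ω - x)
      rw [map_sub, map_sub, ht, hs]
  obtain ⟨z, hz⟩ : ∃ z : Kb k Ω, IsPrimitiveRoot z 6 := by
    have : NeZero ((6 : ℕ) : Kb k Ω) := ⟨by exact_mod_cast six_ne_map (algebraMap k (Kb k Ω)) h6⟩
    exact HasEnoughRootsOfUnity.exists_primitiveRoot (Kb k Ω) 6
  have hroot : ∀ (n : ℕ) (a : Λ), ∃ r : Λ, r ^ 6 ^ n = a := fun n a => by
    have : NeZero ((6 : ℕ) : Λ) := (hz.map_of_injective D.j.injective).neZero'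
    have : NeZero ((6 ^ n : ℕ) : Λ) := ⟨by
      rw [Nat.cast_pow]
      exact pow_ne_zero _ (NeZero.ne _)⟩
    exact IsSepClosed.exists_pow_nat_eq _ _
  obtain ⟨τ, hτ1, hτ2, hτ3⟩ := D.main hz (π := ι (unif v x)) hx2 (fun s hs => hfix s (hs x))
    (fun n => hroot n _) hQ hσ (hfix σ ((hσ x).trans (congrArg D.j hx3)))
  obtain ⟨ρ, hρ⟩ := LocEx_res (L := L) ι
  have mk : ∀ (s : Λ ≃ₐ[L] Λ) (n : ℕ), (∀ c, s (D.j c) = D.j ((frob k Ω ^ n) c)) →
      ∃ g : WG k Ω, gal g = ρ s ∧ wdeg g = n := fun s n h =>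
    ⟨⟨(ρ s, Multiplicative.ofAdd (n : ℤ)), fun c => ι.injective (by
      rw [toAdd_ofAdd, zpow_natCast]
      exact (hρ s c).trans (h c))⟩, rfl, rfl⟩
  obtain ⟨σ', hσ1, hσ2⟩ := mk σ (pdg v) hσ
  obtain ⟨τ', hτ4, hτ5⟩ := mk τ 0 hτ1
  have key : ∀ U : Subgroup (WG k Ω), Adm U →
      (∀ a, a ≠ 0 → (∀ n ∈ (U.map gal).comap ρ, n a = a) → τ a = a → ∃ n : ℤ, w a = 2 ^ n) ∧
        (σ * τ)⁻¹ * (τ ^ Fintype.card k ^ pdg v * σ) ∈ (U.map gal).comap ρ := by
    intro U hU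
    refine hτ3 _ (fun g hg n hn => ?_) ?_ (fun g hg => ?_)
    · obtain ⟨u, hu, e⟩ := hn
      obtain ⟨g', e', -⟩ := mk g 0 hg
      exact ⟨g' * u * g'⁻¹, hU.1.conj_mem u hu g', by simp only [map_mul, map_inv, e, e']⟩
    · obtain ⟨S, hS⟩ := hU.2.2.1
      refine ⟨S.image ι, fun g hg h => ?_⟩
      obtain ⟨g', e', hd'⟩ := mk g 0 hg
      refine ⟨g', hS g' hd' fun a ha => ι.injective ?_, e'⟩
      rw [e']
      exact (hρ g a).trans (h _ (Finset.mem_image_of_mem _ ha))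
    · obtain ⟨g', e', hd'⟩ := mk g 0 hg
      obtain ⟨i, hi⟩ := hU.2.2.2 g' hd'
      exact ⟨i, g' ^ 6 ^ i, hi, by rw [map_pow, map_pow, e']⟩
  exact ⟨{
    L := L
    Λ := Λ
    ι := ι
    wΛ := w
    wΛ_eq := hw
    wΛ_na := hna
    wΛ_iso := hiso
    L_disc := hL
    σh := σ
    τh := τ
    σh_res := D.frob_res hQ σ hσ
    τh_res := D.fix_res τ hτ1
    Λ_res := fun a ha => D.big_res ha
    σ := σ'
    τ := τ'
    ι_σ := fun a => by rw [hσ1, hρ]
    ι_τ := fun a => by rw [hτ4, hρ]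
    deg_σ := hσ2
    deg_τ := hτ5
    x := x
    root := hx1
    w_const := D.w_j
    w_unif := hx2
    kummer := fun r hr => ι.injective (by
      obtain ⟨s, hs⟩ := hroot 1 (ι (unif v x))
      rw [pow_one] at hs
      have h3 : D.j z ^ 3 = -1 := ((hz.map_of_injective D.j.injective).pow (a := 3) (b := 2)
        (by norm_num) rfl).eq_neg_one_of_two_right
      have h : τ (s ^ 3) = -s ^ 3 := by rw [map_pow, hτ2 s hs, mul_pow, h3, neg_one_mul]
      have h1 : ι r ^ 2 = (s ^ 3) ^ 2 := by rw [← pow_mul, hs, ← map_pow, hr]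
      change ι (gal τ' r) = ι (-r)
      rw [hτ4, hρ, map_neg]
      rcases sq_eq_sq_iff_eq_or_eq_neg.1 h1 with e | e
      · rw [e, h]
      · rw [e, map_neg, h])
    disc := fun U hU a a0 h1 h2 => (key U hU).1 (ι a) ((map_ne_zero ι).2 a0)
      (fun n ⟨u, hu, e⟩ => by rw [← hρ, ← e, h1 u hu]) (by rw [← hρ, ← hτ4, h2])
    rel := fun U hU => by
      obtain ⟨u, hu, e⟩ := (key U hU).2
      have : u = (σ' * τ')⁻¹ * (τ' ^ Fintype.card k ^ pdg v * σ') := LocEx_ext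
        (by simp only [e, map_mul, map_inv, map_pow, hσ1, hτ4])
        (by
          rw [hU.2.1 u hu, wdeg_mul, wdeg_inv, wdeg_mul, wdeg_mul, wdeg_pow, hτ5]
          simp)
      exact this ▸ hu }⟩

theorem exists_loc (h6 : (6 : k) ≠ 0) (v : Pl k) : Nonempty (Loc Ω v) := by
  obtain ⟨w, h1, h2, h3, a, ha, ha1⟩ := LocC_exists v
  have hn : ∀ a : RatFunc k, ‖algebraMap _ w.Completion a‖ = w a := fun a => by
    have : algebraMap _ w.Completion a = ((WithAbs.toAbs w a : WithAbs w) : w.Completion) := rfl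
    rw [this, UniformSpace.Completion.norm_coe]
    rfl
  have hd : DenseRange (algebraMap (RatFunc k) w.Completion) := by
    have h1 : DenseRange ((↑) : WithAbs w → w.Completion) := UniformSpace.Completion.denseRange_coe
    have h2 : Function.Surjective (WithAbs.toAbs w) := fun x => ⟨x.ofAbs, rfl⟩
    exact h1.comp h2.denseRange (UniformSpace.Completion.continuous_coe _)
  let _ : NontriviallyNormedField w.Completion := NontriviallyNormedField.ofNormNeOne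
    ⟨algebraMap _ _ a, by simpa using ha, by rwa [hn]⟩
  have : IsUltrametricDist w.Completion :=
    IsUltrametricDist.isUltrametricDist_of_forall_norm_natCast_le_one fun n => by
      rw [← map_natCast (algebraMap (RatFunc k) w.Completion), hn]
      exact h1.apply_natCast_le_one
  exact LocEx_of h6 v w.Completion (SeparableClosure w.Completion) hd
    (by simpa only [hn] using h2) (by simpa only [hn] using h3)

end Pool.Agent.Quad
end
end

-- merged part: Pool.Agent.Work.MP_60d5ce_nt.Lb.Main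
section
-- merged part: Pool.Agent.Work.MP_60d5ce_nt.Lb.CMain
section
/-!
# The order of vanishing is at most one  (task LB CMain)

* `Coh.nu_pow`: induction (`GM.GeoM_nu`, `GM.GeoM_nuB`, `D.add`, `D.op`; `M.IsB c` is `c ∈ GM.GeoM_B M`).
* `Coh.mult_le`: otherwise `exists_pair`; `m = r`, `a` from `zg_of_nu`, `N` from `hgeo`, `c i = 2 ^ a • D.cc (a + (N + 1)) (t i)`; `2 ^ i • D.cc (i + j) t ≡ D.cc j t`; `D.ker`.
* `abs_main`: `geo_main`, `φ = T.σ T.inf`, `exists_coh`, `lser_poly` for `D.Ψ.map (algebraMap O ℚ_[2])`.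
-/

namespace Pool.Agent.Lef

open scoped Classical
open Pool.Agent.Quad Polynomial

variable {W P : Type} [Group W] {T : Tame W P} {R : Rep T} {x : W → F2} {𝒜 : Type}
  [AddCommGroup 𝒜] {A : Finset P} {M : GM R x 𝒜} {φ : W} {r : ℕ}

theorem Coh.nu_pow (D : Coh M A φ r) (hx : T.IsHom x) (j m : ℕ) (t : Fin r → O) :
    M.IsB ((M.nu φ)^[m] (D.cc j t) - D.cc j (((D.Ψ - 1) ^ m).mulVec t)) := by
  induction m with
  | zero =>
    rw [Function.iterate_zero_apply, pow_zero, Matrix.one_mulVec, sub_self]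
    exact (GM.GeoM_B M).zero_mem
  | succ m ih =>
    rw [Function.iterate_succ_apply', pow_succ', ← Matrix.mulVec_mulVec]
    generalize ((D.Ψ - 1) ^ m).mulVec t = u at ih ⊢
    generalize (M.nu φ)^[m] (D.cc j t) = c at ih ⊢
    have h1 := GM.GeoM_nuB hx φ (show _ ∈ GM.GeoM_B M from ih)
    rw [map_sub] at h1
    have h2 : _ ∈ GM.GeoM_B M := D.op j u
    have h3 : _ ∈ GM.GeoM_B M := D.add j ((D.Ψ - 1).mulVec u) u
    have h4 : (D.Ψ - 1).mulVec u + u = D.Ψ.mulVec u := by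
      rw [Matrix.sub_mulVec, Matrix.one_mulVec, sub_add_cancel]
    rw [h4] at h3
    have h5 := add_mem (add_mem h1 h2) h3
    have h6 : GM.GeoM_nu M φ (D.cc j u) = conjOp M.a φ (D.cc j u) - D.cc j u := nu_eq φ _
    rw [h6] at h5
    change GM.GeoM_nu M φ c - _ ∈ GM.GeoM_B M
    convert h5 using 1
    abel

theorem Coh.CMain_pow (D : Coh M A φ r) (i j : ℕ) (t : Fin r → O) :
    2 ^ i • D.cc (i + j) t - D.cc j t ∈ GM.GeoM_B M := by
  induction i with
  | zero =>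
    rw [pow_zero, one_smul, zero_add, sub_self]
    exact zero_mem _
  | succ i ih =>
    have h := add_mem ((GM.GeoM_B M).nsmul_mem (D.two (i + j) t) (2 ^ i)) ih
    rwa [smul_sub, sub_add_sub_cancel, ← mul_smul, ← pow_succ, add_right_comm] at h

theorem CMain_q : T.q ≠ 0 := by
  have := T.q_ge
  omega

theorem Coh.mult_le (D : Coh M A φ r) (hx : T.IsHom x)
    (hloc : ∀ v ∈ A, ∀ t, R.act x (T.σ v) t = t → R.act x (T.τ v) t = t → t = 0)
    (hφ : T.deg φ = 1)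
    (hgeo : ∀ m : ℕ, ∃ N : ℕ, ∀ c1 c2 : W → 𝒜, M.ZG c1 → M.ZG c2 → M.IsB ((M.nu φ)^[m] c1) →
      M.IsB ((M.nu φ)^[m] c2) → M.IsB (2 ^ (N + 1) • c1) → M.IsB (2 ^ (N + 1) • c2) →
      M.IsB (2 ^ N • c1) ∨ M.IsB (2 ^ N • c2) ∨ M.IsB (2 ^ N • (c1 + c2))) :
    (D.Ψ.map (algebraMap O ℚ_[2])).charpoly.rootMultiplicity 1 ≤ 1 := by
  by_contra h
  obtain ⟨s, t, hs, ht, h1, h2, h3⟩ := exists_pair D.Ψ (not_le.1 h)
  obtain ⟨a, ha⟩ := zg_of_nu (M := M) hx hloc hφ r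
  obtain ⟨N, hN⟩ := hgeo r
  have k1 : ∀ j u, ((D.Ψ - 1) ^ r).mulVec u = 0 → M.IsB ((M.nu φ)^[r] (D.cc j u)) := by
    intro j u hu
    have e1 : _ ∈ GM.GeoM_B M := D.nu_pow hx j r u
    have e2 : _ ∈ GM.GeoM_B M := (D.ker j 0).2 fun _ => dvd_zero _
    rw [hu] at e1
    have e3 := add_mem e1 e2
    rwa [sub_add_cancel] at e3
  have k2 : ∀ j u, ((D.Ψ - 1) ^ r).mulVec u = 0 →
      M.IsB ((M.nu φ)^[r] (2 ^ a • D.cc j u)) := by
    intro j u hu
    have e1 : (M.nu φ)^[r] (2 ^ a • D.cc j u) = 2 ^ a • (M.nu φ)^[r] (D.cc j u) :=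
      iterate_map_nsmul (GM.GeoM_nu M φ) r _ _
    rw [e1]
    exact (GM.GeoM_B M).nsmul_mem (k1 j u hu) _
  have k3 : ∀ u, M.IsB (2 ^ (N + 1) • 2 ^ a • D.cc (a + (N + 1)) u) := by
    intro u
    have e1 := D.CMain_pow (a + (N + 1)) 0 u
    have e2 : _ ∈ GM.GeoM_B M := (D.ker 0 u).2 fun _ => by simp
    have e3 := add_mem e1 e2
    rwa [sub_add_cancel, add_zero, pow_add, mul_comm, mul_smul] at e3
  have k4 : ∀ u, M.IsB (2 ^ N • 2 ^ a • D.cc (a + (N + 1)) u) → VD 1 u := by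
    intro u hu
    have e1 := D.CMain_pow (a + N) 1 u
    rw [pow_add, mul_comm, mul_smul, add_assoc] at e1
    have e3 := sub_mem (show _ ∈ GM.GeoM_B M from hu) e1
    rw [sub_sub_cancel] at e3
    exact (D.ker 1 u).1 e3
  rcases hN _ _ (ha _ (D.mem _ s) (k1 _ s hs)) (ha _ (D.mem _ t) (k1 _ t ht)) (k2 _ s hs)
    (k2 _ t ht) (k3 s) (k3 t) with e | e | e
  · exact h1 (k4 s e)
  · exact h2 (k4 t e)
  · refine h3 (k4 _ ?_)
    have e1 := (GM.GeoM_B M).nsmul_mem ((GM.GeoM_B M).nsmul_mem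
      (D.add (a + (N + 1)) s t) (2 ^ a)) (2 ^ N)
    have e2 := add_mem e1 (show _ ∈ GM.GeoM_B M from e)
    rwa [smul_sub, smul_sub, smul_add, sub_add_cancel] at e2

theorem abs_main (L : LefAx T) (R : Rep T) : ∃ c0 : ℕ, ∀ (x : W → F2) (A0 : Finset P),
    T.IsHom x → R.Ram x A0 → R.Good A0 x c0 → ∀ {𝒜 : Type} [AddCommGroup 𝒜] (_ : GM R x 𝒜)
    (A : Finset P), A.Nonempty → (∀ v ∉ A, mat R x (T.τ v) = 1) →
    (∀ v ∈ A, ∀ t, R.act x (T.σ v) t = t → R.act x (T.τ v) t = t → t = 0) → ∀ a : ℕ → ℤ,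
    (∀ n, (a n : O) = ∑ v ∈ Pd T A (n + 1),
      (T.dg v : O) * (mat R x (T.σ v ^ ((n + 1) / T.dg v))).trace) →
    ∃ p : ℚ[X], (PowerSeries.exp ℚ).subst
      (PowerSeries.X * PowerSeries.mk fun n => (a n : ℚ) / (n + 1)) = (p : PowerSeries ℚ) ∧
      p.rootMultiplicity (T.q : ℚ)⁻¹ ≤ 1 := by
  obtain ⟨c0, hc⟩ := geo_main R
  refine ⟨c0, fun x A0 hx hA0 hg 𝒜 _ M A hA hunr hloc a ha => ?_⟩
  have hφ : T.deg (T.σ T.inf) = 1 := by rw [T.deg_σ, T.dg_inf, Nat.cast_one]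
  obtain ⟨r, ⟨D⟩⟩ := exists_coh M L hx hA hunr hφ
  obtain ⟨p, h1, h2⟩ := lser_poly (D.Ψ.map (algebraMap O ℚ_[2])) (q := T.q) CMain_q a fun n => by
    have e1 := congrArg (algebraMap O ℚ_[2]) (ha n)
    rw [← neg_neg (∑ v ∈ Pd T A (n + 1), _), ← D.tr (n + 1) n.succ_pos, map_intCast, map_neg,
      map_mul, map_pow, map_natCast] at e1
    rw [e1, ← RingHom.mapMatrix_apply, ← map_pow, RingHom.mapMatrix_apply]
    congr 2
    exact AddMonoidHom.map_trace (algebraMap O ℚ_[2]) _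
  exact ⟨p, h1, h2.trans (D.mult_le hx hloc hφ (hc x A0 hx hA0 hg M _ hφ))⟩

end Pool.Agent.Lef
end

-- merged part: Pool.Agent.Work.MP_60d5ce_nt.Qt.EllCoc
section
/-!
# Kummer cocycles for the cubic algebra, the pigeonhole step

Hints.
* `exists_coc`: `s n = sqr (a n)`, `gal g (s n) = ± s (rb g n)` (`sqr_spec`); let `η n g = 0` for the sign plus and
  `1` otherwise, `η n (g * g') = η n g' + η (rb g' n) g`; `w g = ∑ n, η n g • (rb g).mulVec n` (reindex by the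
  bijection `rb g'`: `rb_inv_mulVec`, `rb_mulVec_inv`).  Smoothness: `rb_sm` gives an admissible `U0` with
  `rb u = 1`; apply `adm_core` to the subgroup of the `u ∈ U0` fixing all `s n` (`u ^ 2` fixes them).
* `exists_alpha`: pigeonhole for the triples of polynomials in `degreeLT k (pdg v / 3 + 1)`
  (`StatA_degreeLT`), `Loc.res_fin`, `fix_bp`, `Loc.w_bp_le`; take the difference of two triples.
-/

namespace Pool.Agent.Quad

open scoped Classical
open Polynomial WeierstrassCurve WeierstrassCurve.Affine Pool.Agent.ShaAsc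

noncomputable section

variable {k : Type} [Field k] [Fintype k] {A B : k[X]} {Ω : Type} [Field Ω]
  [Algebra (RatFunc k) Ω] [Algebra k Ω] [IsScalarTower k (RatFunc k) Ω]
  [IsSepClosure (RatFunc k) Ω] {v : Pl k}

/-- the sign relating two square roots -/
def EllCoc_sg {K : Type} [Field K] (r s : K) : F2 := if r = s then 0 else 1

theorem EllCoc_sg_spec {K : Type} [Field K] {r s : K} (h : r ^ 2 = s ^ 2) :
    r = (-1 : K) ^ (EllCoc_sg r s).val * s := by
  unfold EllCoc_sg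
  split_ifs with e
  · rw [GalKum_val0, pow_zero, one_mul, e]
  · rw [GalKum_val1, pow_one, (sq_eq_sq_iff_eq_or_eq_neg.1 h).resolve_left e]
    ring

theorem EllCoc_sg_eq {K : Type} [Field K] (h2 : (2 : K) ≠ 0) {r s : K} (hs : s ≠ 0) {n : F2}
    (h : r = (-1 : K) ^ n.val * s) : EllCoc_sg r s = n := by
  unfold EllCoc_sg
  rcases F2_cases n with rfl | rfl
  · rw [if_pos (by rw [h, GalKum_val0, pow_zero, one_mul])]
  · rw [if_neg]
    rw [h, GalKum_val1]
    intro e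
    exact mul_ne_zero h2 hs (by linear_combination -e)

theorem exists_coc {h6 : (6 : k) ≠ 0} {ℓ : Locs k Ω} (L : Lat (tame h6 ℓ) (Fin 2)) (a : Vb → Ω)
    (ha : ∀ n, a n ≠ 0) (hg : ∀ (g : WG k Ω) n, gal g (a n) = a ((L.rb g).mulVec n)) :
    ∃ w, L.Z1 w ∧ ∀ g, L.rb g = 1 → w g = ∑ n, kum (sqr (a n)) (gal g) • n := by
  have h2 : (2 : Ω) ≠ 0 := GalKum_two h6
  have hs : ∀ n, sqr (a n) ^ 2 = a n := fun n => sqr_spec h6 _
  have hs0 : ∀ n, sqr (a n) ≠ 0 := fun n e => ha n (by rw [← hs n, e]; ring)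
  set η : Vb → WG k Ω → F2 := fun n g =>
    EllCoc_sg (gal g (sqr (a n))) (sqr (a ((L.rb g).mulVec n))) with hη
  have spec : ∀ n g, gal g (sqr (a n)) =
      (-1 : Ω) ^ (η n g).val * sqr (a ((L.rb g).mulVec n)) := fun n g =>
    EllCoc_sg_spec (by rw [← map_pow, hs, hs, hg])
  have coc : ∀ n g g', η n (g * g') = η n g' + η ((L.rb g').mulVec n) g := fun n g g' => by
    refine EllCoc_sg_eq h2 (hs0 _) ?_
    rw [map_mul, AlgEquiv.mul_apply, spec n g', map_mul, map_pow, map_neg, map_one, spec _ g,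
      GalKum_pow_add, L.rb_mul, Matrix.mulVec_mulVec, mul_assoc]
  have hw : ∀ g h, (∑ n, η n (g * h) • (L.rb (g * h)).mulVec n) =
      (∑ n, η n g • (L.rb g).mulVec n) + (L.rb g).mulVec (∑ n, η n h • (L.rb h).mulVec n) := by
    intro g h
    let e : Vb ≃ Vb := ⟨(L.rb h).mulVec, (L.rb h⁻¹).mulVec, L.rb_inv_mulVec h, L.rb_mulVec_inv h⟩
    rw [← e.sum_comp (fun n => η n g • (L.rb g).mulVec n), Matrix.mulVec_sum,
      ← Finset.sum_add_distrib]
    refine Finset.sum_congr rfl fun n _ => ?_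
    rw [coc, add_smul, L.rb_mul, ← Matrix.mulVec_mulVec, Matrix.mulVec_smul, add_comm]
    rfl
  refine ⟨fun g => ∑ n, η n g • (L.rb g).mulVec n, ⟨?_, hw⟩, fun g h1 => ?_⟩
  · obtain ⟨U, hU, hU1⟩ := L.rb_sm
    have hU' : Adm U := hU
    have r1 : ∀ u ∈ U, L.rb u = 1 := fun u hu => by
      have := hU1 1 u hu
      rwa [one_mul, L.rb_one] at this
    let H : Subgroup (WG k Ω) :=
      { carrier := {u | u ∈ U ∧ ∀ n, gal u (sqr (a n)) = sqr (a n)}
        mul_mem' := fun {x y} hx hy => ⟨U.mul_mem hx.1 hy.1, fun n => by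
          rw [map_mul, AlgEquiv.mul_apply, hy.2, hx.2]⟩
        one_mem' := ⟨U.one_mem, fun n => by rw [map_one, AlgEquiv.one_apply]⟩
        inv_mem' := fun {x} hx => ⟨U.inv_mem hx.1, fun n => by
          nth_rewrite 1 [← hx.2 n]
          rw [← AlgEquiv.mul_apply, ← map_mul, inv_mul_cancel, map_one, AlgEquiv.one_apply]⟩ }
    obtain ⟨S, hS⟩ := hU'.2.2.1
    have hH : Adm H.normalCore := by
      refine adm_core H (fun u hu => hU'.2.1 u hu.1) (S ∪ Finset.univ.image fun n => sqr (a n))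
        (fun g h0 h => ⟨hS g h0 fun b hb => h b (Finset.mem_union_left _ hb), fun n =>
          h _ (Finset.mem_union_right _ (Finset.mem_image_of_mem _ (Finset.mem_univ n)))⟩)
        fun g h0 => ?_
      obtain ⟨j, hj⟩ := hU'.2.2.2 g h0
      refine ⟨j + 1, ?_⟩
      rw [pow_succ, pow_mul, show 6 = 2 * 3 from rfl, pow_mul]
      refine H.pow_mem ⟨U.pow_mem hj 2, fun n => ?_⟩ 3
      have e := spec n (g ^ 6 ^ j)
      rw [r1 _ hj, Matrix.one_mulVec] at e
      rw [pow_two, map_mul, AlgEquiv.mul_apply, e, map_mul, map_pow, map_neg, map_one, e,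
        ← mul_assoc, ← mul_pow, neg_mul_neg, one_mul, one_pow, one_mul]
    refine ⟨H.normalCore, hH, fun g u hu => ?_⟩
    have hu' := H.normalCore_le hu
    have z : (∑ n, η n u • (L.rb u).mulVec n) = 0 := Finset.sum_eq_zero fun n _ => by
      have : η n u = 0 := EllCoc_sg_eq h2 (hs0 _) (by
        rw [r1 u hu'.1, Matrix.one_mulVec, hu'.2 n, GalKum_val0, pow_zero, one_mul])
      rw [this, zero_smul]
    show (∑ n, η n (g * u) • (L.rb (g * u)).mulVec n) = ∑ n, η n g • (L.rb g).mulVec n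
    rw [hw, z, Matrix.mulVec_zero, add_zero]
  · refine Finset.sum_congr rfl fun n _ => ?_
    simp only [hη, h1, Matrix.one_mulVec]
    rfl

theorem Loc.exists_alpha (l : Loc Ω v) (hv : v ≠ none) {e : Ω} (he : l.w e ≤ 1)
    (hσ : gal l.σ e = e) : ∃ c0 c1 c2 : k[X], ¬ (c0 = 0 ∧ c1 = 0 ∧ c2 = 0) ∧
      3 * c0.natDegree ≤ pdg v ∧ 3 * c1.natDegree ≤ pdg v ∧ 3 * c2.natDegree ≤ pdg v ∧
      l.w (bp Ω c0 + bp Ω c1 * e + bp Ω c2 * e ^ 2) < 1 := by
  obtain ⟨R, hR, hres⟩ := l.res_fin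
  set m := pdg v / 3 + 1 with hm
  obtain ⟨hfin, hcard⟩ := StatA_degreeLT (k := k) m
  have na : IsNonarchimedean l.w := l.w_na
  set f : k[X] × k[X] × k[X] → Ω := fun c => bp Ω c.1 + bp Ω c.2.1 * e + bp Ω c.2.2 * e ^ 2
    with hf
  have hle : ∀ c, l.w (f c) ≤ 1 := fun c => by
    refine EllB_add na (EllB_add na (l.w_bp_le hv _) ?_) ?_
    · rw [map_mul]
      exact mul_le_one₀ (l.w_bp_le hv _) (l.w.nonneg _) he
    · rw [map_mul, map_pow]
      exact mul_le_one₀ (l.w_bp_le hv _) (pow_nonneg (l.w.nonneg _) _)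
        (pow_le_one₀ (l.w.nonneg _) he)
  have hfix : ∀ c, gal l.σ (f c) = f c := fun c => by
    simp only [hf, map_add, map_mul, map_pow, fix_bp, hσ]
  choose r hr hr' using fun c => hres (f c) (hle c) (hfix c)
  set T := hfin.toFinset with hT
  have hTc : T.card = Fintype.card k ^ m := by rw [← hcard, hT, Set.ncard_eq_toFinset_card _ hfin]
  have hlt : R.card < (T ×ˢ T ×ˢ T).card := by
    rw [Finset.card_product, Finset.card_product, hTc, ← pow_add, ← pow_add]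
    exact hR.trans_lt (Nat.pow_lt_pow_right Fintype.one_lt_card (by omega))
  obtain ⟨x, hx, y, hy, hne, hxy⟩ :=
    Finset.exists_ne_map_eq_of_card_lt_of_maps_to hlt (f := r) fun c _ => hr c
  have hdeg : ∀ p ∈ T, ∀ q ∈ T, 3 * (p - q).natDegree ≤ pdg v := fun p hp q hq => by
    have h1 : p - q ∈ degreeLT k m :=
      Submodule.sub_mem _ (hfin.mem_toFinset.1 hp) (hfin.mem_toFinset.1 hq)
    by_cases h0 : p - q = 0
    · rw [h0, natDegree_zero]
      omega
    · rw [mem_degreeLT, degree_eq_natDegree h0, Nat.cast_lt] at h1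
      omega
  simp only [Finset.mem_product] at hx hy
  refine ⟨x.1 - y.1, x.2.1 - y.2.1, x.2.2 - y.2.2, fun h => hne ?_, hdeg _ hx.1 _ hy.1,
    hdeg _ hx.2.1 _ hy.2.1, hdeg _ hx.2.2 _ hy.2.2, ?_⟩
  · exact Prod.ext (sub_eq_zero.1 h.1) (Prod.ext (sub_eq_zero.1 h.2.1) (sub_eq_zero.1 h.2.2))
  · have h1 := EllB_subl na (hr' x) (hr' y)
    rw [hxy] at h1
    refine lt_of_eq_of_lt (congrArg l.w ?_) h1
    simp only [hf, map_sub]
    ring

/-- the norm form of the cubic algebra -/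
def nrm {R : Type} [CommRing R] (a b c0 c1 c2 : R) : R :=
  c0 ^ 3 - 2 * a * c0 ^ 2 * c2 + a * c0 * c1 ^ 2 + a ^ 2 * c0 * c2 ^ 2 + 3 * b * c0 * c1 * c2 -
    b * c1 ^ 3 - a * b * c1 * c2 ^ 2 + b ^ 2 * c2 ^ 3

theorem Rt.nrm_eq {Λ : Type} [Field Λ] {C : Affine Λ} {e1 e2 e3 : Λ} (h : Rt C e1 e2 e3)
    (c0 c1 c2 : Λ) : (c0 + c1 * e1 + c2 * e1 ^ 2) * (c0 + c1 * e2 + c2 * e2 ^ 2) *
      (c0 + c1 * e3 + c2 * e3 ^ 2) = nrm C.a₄ C.a₆ c0 c1 c2 := by
  have h3 : e3 = -e1 - e2 := by linear_combination h.s1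
  have h6 : C.a₆ = -(e1 * e2 * e3) := by linear_combination h.s3
  rw [nrm, ← h.s2, h6, h3]
  ring

omit [Fintype k] in
theorem nrm_natDegree (A B : k[X]) {c0 c1 c2 : k[X]} {d : ℕ} (h0 : 3 * c0.natDegree ≤ d)
    (h1 : 3 * c1.natDegree ≤ d) (h2 : 3 * c2.natDegree ≤ d) :
    (nrm A B c0 c1 c2).natDegree ≤ d + 2 * (A.natDegree + B.natDegree) := by
  have m : ∀ {p q : k[X]} {i j : ℕ}, p.natDegree ≤ i → q.natDegree ≤ j →
      (p * q).natDegree ≤ i + j := fun hp hq => natDegree_mul_le.trans (add_le_add hp hq)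
  have w : ∀ {p : k[X]} (n : ℕ), (p ^ n).natDegree ≤ n * p.natDegree := fun n => natDegree_pow_le
  have t2 : (2 : k[X]).natDegree ≤ 0 := (natDegree_ofNat 2).le
  have t3 : (3 : k[X]).natDegree ≤ 0 := (natDegree_ofNat 3).le
  have r : ∀ p : k[X], p.natDegree ≤ p.natDegree := fun p => le_rfl
  have ad : ∀ {p q : k[X]} {i : ℕ}, p.natDegree ≤ i → q.natDegree ≤ i → (p + q).natDegree ≤ i :=
    fun hp hq => (natDegree_add_le _ _).trans (max_le hp hq)
  have sb : ∀ {p q : k[X]} {i : ℕ}, p.natDegree ≤ i → q.natDegree ≤ i → (p - q).natDegree ≤ i :=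
    fun hp hq => (natDegree_sub_le _ _).trans (max_le hp hq)
  unfold nrm
  refine ad (sb (sb (ad (ad (ad (sb ?_ ?_) ?_) ?_) ?_) ?_) ?_) ?_
  · exact (w 3).trans (by omega)
  · exact (m (m (m t2 (r A)) (w 2)) (r c2)).trans (by omega)
  · exact (m (m (r A) (r c0)) (w 2)).trans (by omega)
  · exact (m (m (w 2) (r c0)) (w 2)).trans (by omega)
  · exact (m (m (m (m t3 (r B)) (r c0)) (r c1)) (r c2)).trans (by omega)
  · exact (m (r B) (w 3)).trans (by omega)
  · exact (m (m (m (r A) (r B)) (r c1)) (w 2)).trans (by omega)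
  · exact (m (w 2) (w 3)).trans (by omega)

end

end Pool.Agent.Quad
end

-- merged part: Pool.Agent.Work.MP_60d5ce_nt.Qt.EllChi
section
/-!
# Cocycles modulo two ramified at one prescribed place

Hints.
* `chi`: `n = 0`: `w = 0` (`z1_zero`).  Otherwise `e = er n` is fixed by `σ` (`gal_er`) and integral at all finite
  places (`Sz.w_root_le`, `Loc.sz_one`).  `a n' = c0 + c1 er n' + c2 er n' ^ 2` for `n' ≠ 0`, `a 0 = 1`
  (`Hyp.quad_ne`).  The product of the three values is `bp (nrm A B c0 c1 c2)`, a nonzero polynomial of degree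
  at most `pdg v + C0`, `C0 = 2 (deg A + deg B)`, with `mult N v ≠ 0`.  All places `u ∉ badS` have degree
  `> C0` (`not_mem_badS`), so `sum_fac` gives `mult N v = 1` and `mult N u = 0` for `u ≠ v`, `u ∉ badS`.
  At `u` all three values are units.  At `v` the values are fixed by `τ` (`rb_unr`) and by an admissible
  subgroup (`rb_sm`), so their sizes are powers of two (`Loc.disc`), at most one, with product `1 / 2`.
  `Loc.kum_tau` with `sqr_spec`.
-/

namespace Pool.Agent.Quad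

open scoped Classical
open Polynomial WeierstrassCurve WeierstrassCurve.Affine Pool.Agent.ShaAsc

noncomputable section

variable {k : Type} [Field k] [Fintype k] {A B : k[X]} {Ω : Type} [Field Ω]
  [Algebra (RatFunc k) Ω] [Algebra k Ω] [IsScalarTower k (RatFunc k) Ω]
  [IsSepClosure (RatFunc k) Ω] {v : Pl k}

theorem EllChi_sum (f : Vb → F2) :
    ∑ n, f n • n = f ![1, 0] • ![1, 0] + f ![0, 1] • ![0, 1] + f ![1, 1] • ![1, 1] := by
  have e : (Finset.univ : Finset Vb) = {0, ![1, 0], ![0, 1], ![1, 1]} := by decide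
  rw [e, Finset.sum_insert (by decide), Finset.sum_insert (by decide), Finset.sum_pair (by decide),
    smul_zero, zero_add, add_assoc]

theorem EllChi_map {R S : Type} [CommRing R] [CommRing S] (f : R →+* S) (a b c0 c1 c2 : R) :
    f (nrm a b c0 c1 c2) = nrm (f a) (f b) (f c0) (f c1) (f c2) := by
  simp only [nrm, map_add, map_sub, map_mul, map_pow, map_ofNat]

theorem EllChi_mult {N : k[X]} (hN : N ≠ 0) {C0 : ℕ} (hd : N.natDegree ≤ pdg v + C0)
    (hv : C0 < pdg v) (h0 : mult N v ≠ 0) :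
    mult N v = 1 ∧ ∀ u, u ≠ v → C0 < pdg u → mult N u = 0 := by
  have hs := sum_fac hN
  have hm := (mem_fac hN).2 h0
  have h1 : pdg v ≤ mult N v * pdg v := Nat.le_mul_of_pos_left _ (Nat.pos_of_ne_zero h0)
  refine ⟨?_, fun u huv hu => ?_⟩
  · have h2 : mult N v * pdg v ≤ ∑ u ∈ fac N, mult N u * pdg u :=
      Finset.single_le_sum (f := fun u => mult N u * pdg u) (fun _ _ => Nat.zero_le _) hm
    by_contra h3
    have h4 : 2 * pdg v ≤ mult N v * pdg v := Nat.mul_le_mul_right _ (by omega)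
    omega
  · by_contra h3
    have h2 : mult N u * pdg u + mult N v * pdg v ≤ ∑ u ∈ fac N, mult N u * pdg u :=
      Finset.add_le_sum (f := fun u => mult N u * pdg u) (fun _ _ => Nat.zero_le _)
        ((mem_fac hN).2 h3) hm huv
    have h4 : pdg u ≤ mult N u * pdg u := Nat.le_mul_of_pos_left _ (Nat.pos_of_ne_zero h3)
    omega

variable [DecidableEq Ω]

theorem EllD.chi (X : EllD A B Ω) (h : Hyp A B) (h6 : (6 : k) ≠ 0) (ℓ : Locs k Ω)
    (hv : v ∉ badS A B) (n : Vb) (hn : (X.lat h h6 ℓ).Fx (ℓ v).σ n) :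
    ∃ w, (X.lat h h6 ℓ).Z1 w ∧ (∀ u, u ≠ v → u ∉ badS A B → w (ℓ u).τ = 0) ∧ w (ℓ v).τ = n := by
  by_cases hn0 : n = 0
  · exact ⟨0, Lat.z1_zero, fun _ _ _ => rfl, hn0.symm⟩
  have hint : ∀ u : Pl k, u ≠ none → ∀ m : Vb, m ≠ 0 → (ℓ u).w (X.er m) ≤ 1 := fun u hu m hm => by
    have := ((ℓ u).sz_one h6 hu).w_root_le (X.er_root hm)
    rwa [one_pow] at this
  obtain ⟨hv1, -, hv3⟩ := (not_mem_badS (h.D_ne h6)).1 hv
  obtain ⟨c0, c1, c2, hc, d0, d1, d2, hlt⟩ := (ℓ v).exists_alpha hv1 (hint v hv1 n hn0)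
    ((X.gal_er (h := h) (h6 := h6) (ℓ := ℓ) _ n).trans (congrArg X.er hn))
  obtain ⟨a, a0, a1⟩ : ∃ a : Vb → Ω, a 0 = 1 ∧
      ∀ m, m ≠ 0 → a m = bp Ω c0 + bp Ω c1 * X.er m + bp Ω c2 * X.er m ^ 2 :=
    ⟨fun m => if m = 0 then 1 else bp Ω c0 + bp Ω c1 * X.er m + bp Ω c2 * X.er m ^ 2, if_pos rfl,
      fun m hm => if_neg hm⟩
  have ha : ∀ m, a m ≠ 0 := fun m => by
    by_cases hm : m = 0
    · rw [hm, a0]
      exact one_ne_zero
    · rw [a1 m hm]
      exact h.quad_ne (X.er_root hm) hc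
  have hg : ∀ (g : WG k Ω) m, gal g (a m) = a (((X.lat h h6 ℓ).rb g).mulVec m) := fun g m => by
    by_cases hm : m = 0
    · rw [hm, Matrix.mulVec_zero, a0, map_one]
    · rw [a1 m hm, a1 _ fun e => hm (Lat.rb_mulVec_eq_zero e), map_add, map_add, map_mul, map_mul,
        map_pow, fix_bp, fix_bp, fix_bp, X.gal_er (h := h) (h6 := h6) (ℓ := ℓ)]
  obtain ⟨w, hw, hw1⟩ := exists_coc (X.lat h h6 ℓ) a ha hg
  have hprod : a ![1, 0] * a ![0, 1] * a ![1, 1] = bp Ω (nrm A B c0 c1 c2) := by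
    rw [a1 _ (by decide), a1 _ (by decide), a1 _ (by decide), X.er10, X.er01, X.er11, X.rt.nrm_eq,
      EllChi_map, CO_a4, CO_a6]
  have hN : nrm A B c0 c1 c2 ≠ 0 := fun e => by
    rw [e, map_zero] at hprod
    exact mul_ne_zero (mul_ne_zero (ha _) (ha _)) (ha _) hprod
  have hdeg := nrm_natDegree A B d0 d1 d2
  generalize nrm A B c0 c1 c2 = N at hprod hN hdeg
  have key : ∀ u ∉ badS A B, ∃ j : Vb → ℤ, (∀ m, (ℓ u).w (a m) = 2 ^ (-j m)) ∧ (∀ m, 0 ≤ j m) ∧
      j ![1, 0] + j ![0, 1] + j ![1, 1] = mult N u ∧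
      w (ℓ u).τ = (j ![1, 0] : F2) • ![1, 0] + (j ![0, 1] : F2) • ![0, 1] +
        (j ![1, 1] : F2) • ![1, 1] := by
    intro u hu
    have hu1 := ((not_mem_badS (h.D_ne h6)).1 hu).1
    have hr : (X.lat h h6 ℓ).rb (ℓ u).τ = 1 := Lat.rb_unr (R := X.lat h h6 ℓ) (v := u) hu
    have hτ : ∀ m, gal (ℓ u).τ (a m) = a m := fun m => by rw [hg, hr, Matrix.one_mulVec]
    obtain ⟨U, hU, hU1⟩ := Lat.rb_sm (R := X.lat h h6 ℓ)
    have h1 : ∀ m, ∃ j : ℤ, (ℓ u).w (a m) = 2 ^ (-j) := fun m => by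
      obtain ⟨j, hj⟩ := (ℓ u).disc U hU (a m) (ha m) (fun g hg' => by
        have h2 := hU1 1 g hg'
        rw [one_mul, Lat.rb_one] at h2
        rw [hg, h2, Matrix.one_mulVec]) (hτ m)
      exact ⟨-j, by rw [neg_neg]; exact hj⟩
    choose j hj using h1
    refine ⟨j, hj, fun m => ?_, ?_, ?_⟩
    · have h2 : (ℓ u).w (a m) ≤ 1 := by
        by_cases hm : m = 0
        · rw [hm, a0, map_one]
        · have h3 := hint u hu1 m hm
          have h4 := (ℓ u).w.nonneg (X.er m)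
          rw [a1 m hm]
          refine ((ℓ u).w_na _ _).trans (max_le (((ℓ u).w_na _ _).trans
            (max_le ((ℓ u).w_bp_le hu1 _) ?_)) ?_)
          · rw [map_mul]
            exact mul_le_one₀ ((ℓ u).w_bp_le hu1 _) h4 h3
          · rw [map_mul, map_pow]
            exact mul_le_one₀ ((ℓ u).w_bp_le hu1 _) (pow_nonneg h4 2) (pow_le_one₀ h4 h3)
      rw [hj, zpow_le_one_iff_right₀ one_lt_two] at h2
      omega
    · have h2 := congrArg (ℓ u).w hprod
      rw [map_mul, map_mul, hj, hj, hj, (ℓ u).w_base hu1 hN, ← zpow_add₀ two_ne_zero,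
        ← zpow_add₀ two_ne_zero] at h2
      have h3 := zpow_right_injective₀ two_pos one_lt_two.ne' h2
      omega
    · have h2 : ∀ m, kum (sqr (a m)) (gal (ℓ u).τ) = (j m : F2) := fun m => by
        have h3 := sqr_spec (k := k) h6 (a m)
        refine (ℓ u).kum_tau h6 (fun e => ha m ?_) (by rw [h3, hτ]) (by rw [h3, hj])
        rw [← h3, e, zero_pow two_ne_zero]
      rw [hw1 _ hr, EllChi_sum fun m => kum (sqr (a m)) (gal (ℓ u).τ), h2, h2, h2]
  obtain ⟨j, j1, j2, j3, j4⟩ := key v hv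
  have hj : 0 < j n := by
    rw [← a1 n hn0, j1, zpow_lt_one_iff_right₀ one_lt_two] at hlt
    omega
  have p1 := j2 ![1, 0]
  have p2 := j2 ![0, 1]
  have p3 := j2 ![1, 1]
  have hm0 : mult N v ≠ 0 := by
    rcases EllD.vb_cases n with rfl | rfl | rfl | rfl
    · exact absurd rfl hn0
    all_goals omega
  obtain ⟨m1, m2⟩ := EllChi_mult hN hdeg hv3 hm0
  refine ⟨w, hw, fun u huv hu => ?_, ?_⟩
  · obtain ⟨i, -, i2, i3, i4⟩ := key u hu
    have q0 := m2 u huv ((not_mem_badS (h.D_ne h6)).1 hu).2.2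
    have q1 := i2 ![1, 0]
    have q2 := i2 ![0, 1]
    have q3 := i2 ![1, 1]
    rw [i4, show i ![1, 0] = 0 by omega, show i ![0, 1] = 0 by omega, show i ![1, 1] = 0 by omega]
    simp only [Int.cast_zero, zero_smul, add_zero]
  · rw [j4]
    rcases EllD.vb_cases n with rfl | rfl | rfl | rfl
    · exact absurd rfl hn0
    · rw [show j ![1, 0] = 1 by omega, show j ![0, 1] = 0 by omega, show j ![1, 1] = 0 by omega]
      simp only [Int.cast_zero, Int.cast_one, zero_smul, one_smul, add_zero]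
    · rw [show j ![1, 0] = 0 by omega, show j ![0, 1] = 1 by omega, show j ![1, 1] = 0 by omega]
      simp only [Int.cast_zero, Int.cast_one, zero_smul, one_smul, add_zero, zero_add]
    · rw [show j ![1, 0] = 0 by omega, show j ![0, 1] = 0 by omega, show j ![1, 1] = 1 by omega]
      simp only [Int.cast_zero, Int.cast_one, zero_smul, one_smul, add_zero, zero_add]

end

end Pool.Agent.Quad
end

-- merged part: Pool.Agent.Work.MP_60d5ce_nt.Qt.EllRep
section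
/-!
# The representation attached to the curve

See section ELL of `/team-store/h4_quad_plan.md`.
-/

namespace Pool.Agent.Quad

open Polynomial Pool.Agent.ShaAsc

variable {k : Type} [Field k] [Fintype k] {Ω : Type} [Field Ω] [Algebra (RatFunc k) Ω] [Algebra k Ω]
  [IsScalarTower k (RatFunc k) Ω] [IsSepClosure (RatFunc k) Ω] [DecidableEq Ω]

theorem exists_erep {A B : k[X]} (h : Hyp A B) (h6 : (6 : k) ≠ 0) (ℓ : Locs k Ω) :
    Nonempty (ERep A B h6 ℓ) := by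
  obtain ⟨X⟩ := exists_ellD (Ω := Ω) h h6
  exact ⟨{
    TB := X.TB
    R := {
      toLat := X.lat h h6 ℓ
      det := X.det_eq h h6 ℓ
      surj := X.surj h h6 ℓ
      chi := fun _ hv n hn => by
        obtain ⟨w, h1, h2, h3⟩ := X.chi h h6 ℓ hv n hn
        refine ⟨w, ⟨h1, fun u hu => ?_⟩, h3⟩
        simp only [Finset.mem_insert, not_or] at hu
        exact h2 u hu.1 hu.2
      locfin := X.locfin h6 ℓ _ }
    act_pt := fun g => X.act_pt (gal g) }⟩

end Pool.Agent.Quad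
end

-- merged part: Pool.Agent.Work.MP_60d5ce_nt.Qt.MainA
section
/-!
# Assembly
-/

namespace Pool.Agent.Quad

open scoped Classical Topology
open Polynomial Filter Pool.Agent.ShaAsc

variable {k : Type} [Field k] [Fintype k]

theorem tendsto_of_density (Good : k[X] → Prop)
    (h : ∀ ε : ℝ, 0 < ε → ∀ᶠ n in atTop,
      ({d | d ∈ Pn k n ∧ ¬ Good d}.ncard : ℝ) ≤ ε * (Pn k n).ncard) :
    Tendsto (fun n : ℕ => ({d : k[X] | d ≠ 0 ∧ d.natDegree = n ∧ Good d}.ncard : ℝ) /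
      ({d : k[X] | d ≠ 0 ∧ d.natDegree = n}.ncard : ℝ)) atTop (𝓝 1) := by
  rw [Metric.tendsto_nhds]
  intro ε hε
  filter_upwards [h (ε / 2) (by positivity)] with n hn
  have hq : 1 < Fintype.card k := Fintype.one_lt_card
  have hpos : (0 : ℝ) < (Pn k n).ncard := by
    rw [Pn_ncard]
    exact_mod_cast Nat.mul_pos (by omega) (pow_pos (by omega) n)
  have hsum : {d : k[X] | d ≠ 0 ∧ d.natDegree = n ∧ Good d}.ncard +
      {d | d ∈ Pn k n ∧ ¬ Good d}.ncard = (Pn k n).ncard := by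
    rw [← Set.ncard_union_eq _ ((Pn_finite n).subset fun d hd => ⟨hd.1, hd.2.1⟩)
      ((Pn_finite n).subset fun d hd => hd.1)]
    · congr 1
      ext d
      simp only [Pn, Set.mem_union, Set.mem_ofPred_eq]
      tauto
    · rw [Set.disjoint_left]
      exact fun d hd hd' => hd'.2 hd.2.2
  have hsum' : ({d : k[X] | d ≠ 0 ∧ d.natDegree = n ∧ Good d}.ncard : ℝ) =
      (Pn k n).ncard - {d | d ∈ Pn k n ∧ ¬ Good d}.ncard := by
    rw [← hsum]
    push_cast
    ring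
  change dist (_ / ((Pn k n).ncard : ℝ)) 1 < ε
  rw [hsum', Real.dist_eq, sub_div, div_self hpos.ne', sub_sub_cancel_left, abs_neg,
    abs_of_nonneg (by positivity), div_lt_iff₀ hpos]
  nlinarith

theorem main_corank (h6 : (6 : k) ≠ 0) {A B : k[X]} (h : Hyp A B) (Ω : Type) [Field Ω]
    [Algebra (RatFunc k) Ω] [IsSepClosure (RatFunc k) Ω] [DecidableEq Ω] :
    Tendsto (fun n : ℕ => ({d : k[X] | d ≠ 0 ∧ d.natDegree = n ∧ ∀ φ : Ω ≃ₐ[RatFunc k] Ω,
      (∀ a : Ω, IsOfFinOrder a → φ a = a ^ Fintype.card k) →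
        CorankLeOne (EC (d ^ 2 * A) (d ^ 3 * B)) φ}.ncard : ℝ) /
      ({d : k[X] | d ≠ 0 ∧ d.natDegree = n}.ncard : ℝ)) atTop (𝓝 1) := by
  letI : Algebra k Ω := ((algebraMap (RatFunc k) Ω).comp (algebraMap k (RatFunc k))).toAlgebra
  haveI : IsScalarTower k (RatFunc k) Ω := IsScalarTower.of_algebraMap_eq fun _ => rfl
  let ℓ : Locs k Ω := fun v => (exists_loc h6 v).some
  obtain ⟨X0⟩ := exists_erep h h6 ℓ
  obtain ⟨c0, hc⟩ := X0.corank
  refine tendsto_of_density _ fun ε hε => ?_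
  filter_upwards [good_density h6 ℓ X0.R c0 hε] with n hn
  refine le_trans ?_ hn
  refine Nat.cast_le.2 (Set.ncard_le_ncard (fun d hd => ⟨hd.1, fun ht => hd.2 ?_⟩)
    ((Pn_finite n).subset fun d hd => hd.1))
  have hδ := sqr_spec h6 (algebraMap (RatFunc k) Ω (algebraMap k[X] (RatFunc k) d))
  obtain ⟨m, hm⟩ := kum_eq_xd h6 ℓ hd.1.1 hδ
  have he := funext hm
  exact hc d _ (Ad X0.R d) hd.1.1 hδ (he ▸ xd_hom h6 ℓ d m) (he ▸ ram_xd X0.R hd.1.1 m)
    (he ▸ ht m)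

end Pool.Agent.Quad
end

-- merged part: Pool.Agent.Work.MP_60d5ce_nt.Lb.Main
section
/-!
# Assembly  (task LB Main)

* `erep_loc`: `exists_ellD`, `EllD.tors_fin` for the points `X.TB.pt j t` (`X.act_pt`; `sg a` is `1` or `-1`), `TateB.pow_smul_add`, `eq_zero_of_forall_dvd`.
* `erep_lser`: `abs_main (lefAx h6 ℓ)`, `ERep.exists_gm`, `A = insert none (fac (dsc a b))` for `a = d ^ 2 * A`, `b = d ^ 3 * B` (`dsc a b = d ^ 6 * dsc A B`); `good_tau` with `TateB.mat_one`, `TateB.mat_unique`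
  (or directly `M.pt_eq_iff`, `eq_zero_of_forall_dvd`); `good_trace`, `(ofB M.toTateB).hasTr`, `HasTr.unique`, `eq_of_rO`; `frobSum_places`, `mem_Pd`.
* `main_lser`: as `main_corank` in `Qt/MainA.lean`, with `Ω = SeparableClosure (RatFunc k)`.
-/

namespace Pool.Agent.Lef

open scoped Classical Topology
open Pool.Agent.Quad Pool.Agent.ShaAsc Polynomial Filter

variable {k : Type} [Field k] [Fintype k] {A B : k[X]}

section

variable {Ω : Type} [Field Ω] [Algebra (RatFunc k) Ω] [Algebra k Ω]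
  [IsScalarTower k (RatFunc k) Ω] [IsSepClosure (RatFunc k) Ω] [DecidableEq Ω]
  {h6 : (6 : k) ≠ 0} {ℓ : Locs k Ω}

theorem erep_loc (h : Hyp A B) (X : ERep A B h6 ℓ) (x : WG k Ω → F2) (v : Pl k) (t : V)
    (h1 : X.R.act x (ℓ v).σ t = t) (h2 : X.R.act x (ℓ v).τ t = t) : t = 0 := by
  obtain ⟨Y⟩ := exists_ellD (Ω := Ω) h h6
  obtain ⟨c, hc⟩ := Y.tors_fin h6 (ℓ v)
  have key : ∀ (g : WG k Ω) (j : ℕ), X.R.act x g t = t →
      act (EC A B) (gal g) (X.TB.pt j t) = X.TB.pt j t ∨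
        act (EC A B) (gal g) (X.TB.pt j t) = -X.TB.pt j t := by
    intro g j hg
    rw [X.act_pt]
    rw [Lat.act] at hg
    rcases F2_cases (x g) with e | e
    · rw [e, sg_zero, one_smul] at hg
      exact Or.inl (by rw [hg])
    · rw [e, sg_one, neg_smul, one_smul, neg_eq_iff_eq_neg] at hg
      exact Or.inr (by rw [hg, map_neg])
  funext i
  refine eq_zero_of_forall_dvd fun j => ?_
  have h3 := hc (X.TB.pt (c + j) t) (c + j) (X.TB.pow_smul_pt _ _) (key _ _ h1) (key _ _ h2)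
  rw [X.TB.pow_smul_add, X.TB.ker] at h3
  exact h3 i

theorem erep_lser (h : Hyp A B) (X : ERep A B h6 ℓ) (F : ℕ → Type) [∀ n, Field (F n)]
    [∀ n, Algebra k (F n)] (hF : ∀ n, Module.finrank k (F n) = n + 1) :
    ∃ c0 : ℕ, ∀ (d : k[X]) (δ : Ω) (A0 : Finset (Pl k)), d ≠ 0 →
      δ ^ 2 = algebraMap (RatFunc k) Ω (algebraMap k[X] (RatFunc k) d) →
      (tame h6 ℓ).IsHom (fun g => kum δ (gal g)) → X.R.Ram (fun g => kum δ (gal g)) A0 →
      X.R.Good A0 (fun g => kum δ (gal g)) c0 →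
      ∃ p : ℚ[X], LSer F (d ^ 2 * A) (d ^ 3 * B) = (p : PowerSeries ℚ) ∧
        p.rootMultiplicity (Fintype.card k : ℚ)⁻¹ ≤ 1 := by
  obtain ⟨c0, hc⟩ := abs_main (lefAx h6 ℓ) X.R
  refine ⟨c0, fun d δ A0 hd hδ hx hA hG => ?_⟩
  obtain ⟨M, hM⟩ := X.exists_gm hd hδ
  have hD : dsc (d ^ 2 * A) (d ^ 3 * B) ≠ 0 := by
    have e : dsc (d ^ 2 * A) (d ^ 3 * B) = d ^ 6 * dsc A B := by
      simp only [dsc]
      ring
    rw [e]
    exact mul_ne_zero (pow_ne_zero _ hd) (h.D_ne h6)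
  have hm : ∀ (g : WG k Ω) (j : ℕ) (a : V), M.a g (M.pt j a) =
      M.pt j ((mat X.R (fun g => kum δ (gal g)) g).mulVec a) := fun g j a => by
    rw [M.a_pt, act_eq]
  refine hc _ A0 hx hA hG M (insert none (fac (dsc (d ^ 2 * A) (d ^ 3 * B))))
    (Finset.insert_nonempty _ _) (fun v hv => ?_) (fun v _ t h1 h2 => erep_loc h X _ v t h1 h2)
    (fun n => frobSum (F n) (d ^ 2 * A) (d ^ 3 * B)) fun n => ?_
  · rw [Finset.mem_insert, not_or] at hv
    refine (M.toTateB.mat_unique (hm (ℓ v).τ)).symm.trans (M.toTateB.mat_one fun j P hP => ?_)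
    rw [hM]
    exact good_tau h6 hD (ℓ v) hv.1 hv.2 hP
  · rw [frobSum_places h6 ℓ hD n.succ_pos (hF n), Int.cast_sum]
    refine Finset.sum_congr rfl fun v hv => ?_
    obtain ⟨h1, ⟨i, hi⟩, -⟩ := (mem_Pd (T := tame h6 ℓ)).1 hv
    rw [Finset.mem_insert, not_or] at h1
    have hi' : n + 1 = pdg v * i := hi
    have hi0 : 0 < i := Nat.pos_of_ne_zero fun e => by
      rw [e, mul_zero] at hi'
      exact n.succ_ne_zero hi'
    have hdiv : (n + 1) / (tame h6 ℓ).dg v = i := by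
      rw [hi]
      exact Nat.mul_div_cancel_left _ ((tame h6 ℓ).dg_pos v)
    rw [hdiv, Int.cast_mul, Int.cast_natCast]
    refine congrArg₂ (· * ·) rfl (eq_of_rO fun j => ?_)
    have t1 := good_trace h6 hD (ℓ v) h1.1 h1.2 hi0 j
    have t2 := (ofB M.toTateB).hasTr (j := j + 1) (hm ((ℓ v).σ ^ i) (j + 1))
    rw [hM] at t2
    refine Eq.trans ?_ (t1.unique t2)
    rw [map_intCast, ← hi', Int.cast_sub, Int.cast_natCast, Int.cast_natCast]

end

theorem main_lser (h6 : (6 : k) ≠ 0) (h : Hyp A B) (F : ℕ → Type) [∀ n, Field (F n)]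
    [∀ n, Algebra k (F n)] (hF : ∀ n, Module.finrank k (F n) = n + 1) :
    Tendsto (fun n : ℕ => ({d : k[X] | d ≠ 0 ∧ d.natDegree = n ∧
      ∃ p : ℚ[X], LSer F (d ^ 2 * A) (d ^ 3 * B) = (p : PowerSeries ℚ) ∧
        p.rootMultiplicity (Fintype.card k : ℚ)⁻¹ ≤ 1}.ncard : ℝ) /
      ({d : k[X] | d ≠ 0 ∧ d.natDegree = n}.ncard : ℝ)) atTop (𝓝 1) := by
  letI : Algebra k (SeparableClosure (RatFunc k)) :=
    ((algebraMap (RatFunc k) (SeparableClosure (RatFunc k))).comp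
      (algebraMap k (RatFunc k))).toAlgebra
  haveI : IsScalarTower k (RatFunc k) (SeparableClosure (RatFunc k)) :=
    IsScalarTower.of_algebraMap_eq fun _ => rfl
  let ℓ : Locs k (SeparableClosure (RatFunc k)) := fun v => (exists_loc h6 v).some
  obtain ⟨X0⟩ := exists_erep h h6 ℓ
  obtain ⟨c0, hc⟩ := erep_lser h X0 F hF
  refine tendsto_of_density _ fun ε hε => ?_
  filter_upwards [good_density h6 ℓ X0.R c0 hε] with n hn
  refine le_trans ?_ hn
  refine Nat.cast_le.2 (Set.ncard_le_ncard (fun d hd => ⟨hd.1, fun ht => hd.2 ?_⟩)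
    ((Pn_finite n).subset fun d hd => hd.1))
  have hδ := sqr_spec h6 (algebraMap (RatFunc k) (SeparableClosure (RatFunc k))
    (algebraMap k[X] (RatFunc k) d))
  obtain ⟨m, hm⟩ := kum_eq_xd h6 ℓ hd.1.1 hδ
  have he := funext hm
  exact hc d _ (Ad X0.R d) hd.1.1 hδ (he ▸ xd_hom h6 ℓ d m) (he ▸ ram_xd X0.R hd.1.1 m)
    (he ▸ ht m)

end Pool.Agent.Lef
end
end
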